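import Mathlib
import Pool.Agent.Lib.Sieve.PrimeSum

/-!
# MER0: Mertens' second theorem
-/

open Finset

namespace Pool.Agent.Lib.H59C

/-- The primes in `[u, v)`. -/
noncomputable def PR (u v : ℝ) : Finset ℕ :=
  open Classical in (range ⌈v⌉₊).filter (fun q : ℕ => q.Prime ∧ u ≤ (q : ℝ))

theorem mem_PR {u v : ℝ} {q : ℕ} : q ∈ PR u v ↔ q.Prime ∧ u ≤ (q : ℝ) ∧ (q : ℝ) < v := by
  unfold PR
  rw [Finset.mem_filter, Finset.mem_range, Nat.lt_ceil]
  tauto

open Pool.Agent.Lib.Sieve (primesUpTo mem_primesUpTo sum_log_div_le)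

theorem MER0_sq : ∃ B : ℝ, 0 ≤ B ∧ ∀ s : Finset ℕ, ∑ p ∈ s, Real.log p / (p : ℝ) ^ 2 ≤ B := by
  have hs : Summable (fun n : ℕ => 2 * (1 / (n : ℝ) ^ (3 / 2 : ℝ))) :=
    (Real.summable_one_div_nat_rpow.2 (by norm_num)).mul_left 2
  refine ⟨∑' n : ℕ, 2 * (1 / (n : ℝ) ^ (3 / 2 : ℝ)), tsum_nonneg fun n => by positivity,
    fun s => ?_⟩
  refine (Finset.sum_le_sum fun p _ => ?_).trans (hs.sum_le_tsum s fun n _ => by positivity)
  rcases Nat.eq_zero_or_pos p with rfl | hp
  · simp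
  · have hp0 : (0 : ℝ) < p := by exact_mod_cast hp
    have h1 := Real.log_le_rpow_div hp0.le (show (0 : ℝ) < 1 / 2 by norm_num)
    have h2 : (p : ℝ) ^ 2 = (p : ℝ) ^ (3 / 2 : ℝ) * (p : ℝ) ^ (1 / 2 : ℝ) := by
      rw [← Real.rpow_add hp0]
      norm_num
    rw [h2, div_le_iff₀ (by positivity)]
    have h3 : (0 : ℝ) < (p : ℝ) ^ (3 / 2 : ℝ) := by positivity
    calc Real.log p ≤ (p : ℝ) ^ (1 / 2 : ℝ) / (1 / 2) := h1
      _ = 2 * (1 / (p : ℝ) ^ (3 / 2 : ℝ)) * ((p : ℝ) ^ (3 / 2 : ℝ) * (p : ℝ) ^ (1 / 2 : ℝ)) := by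
        field_simp

theorem MER0_fac (n : ℕ) (hn : 1 ≤ n) : n * Real.log n - n ≤ Real.log (n.factorial : ℝ) := by
  have hn0 : (0 : ℝ) < n := by exact_mod_cast hn
  have h1 := Real.pow_div_factorial_le_exp (n : ℝ) hn0.le n
  have h2 : (0 : ℝ) < n.factorial := by exact_mod_cast n.factorial_pos
  have h3 := Real.log_le_log (by positivity) h1
  rw [Real.log_exp, Real.log_div (by positivity) h2.ne', Real.log_pow] at h3
  linarith

theorem MER0_val (n p : ℕ) (hp : p.Prime) :
    (n.factorial.factorization p : ℝ) ≤ n / ((p : ℝ) - 1) := by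
  haveI : Fact p.Prime := ⟨hp⟩
  have h1 := sub_one_mul_padicValNat_factorial (p := p) n
  rw [Nat.factorization_def _ hp]
  have h2 : (p - 1) * padicValNat p n.factorial ≤ n := by omega
  have hp1 : (1 : ℝ) < p := by exact_mod_cast hp.one_lt
  rw [le_div_iff₀ (by linarith)]
  have h3 : ((p - 1 : ℕ) : ℝ) * (padicValNat p n.factorial : ℝ) ≤ n := by exact_mod_cast h2
  rw [Nat.cast_sub hp.one_le] at h3
  push_cast at h3
  linarith

theorem MER0_logfac (n : ℕ) : Real.log (n.factorial : ℝ) =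
    ∑ p ∈ primesUpTo n, (n.factorial.factorization p : ℝ) * Real.log p := by
  have h0 : n.factorial ≠ 0 := n.factorial_ne_zero
  have h1 : ∏ p ∈ primesUpTo n, p ^ n.factorial.factorization p = n.factorial := by
    conv_rhs => rw [← Nat.prod_factorization_pow_eq_self h0]
    symm
    apply Finsupp.prod_of_support_subset
    · intro p hp
      rw [Nat.support_factorization, Nat.mem_primeFactors] at hp
      rw [mem_primesUpTo]
      exact ⟨hp.1, (hp.1.dvd_factorial).1 hp.2.1⟩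
    · intro p _
      exact pow_zero p
  conv_lhs => rw [← h1]
  push_cast
  rw [Real.log_prod]
  · exact Finset.sum_congr rfl fun p _ => Real.log_pow _ _
  · intro p hp
    have : (p : ℝ) ≠ 0 := by exact_mod_cast (mem_primesUpTo.1 hp).1.ne_zero
    positivity

theorem MER0_lower : ∃ C : ℝ, 0 ≤ C ∧ ∀ n : ℕ, 1 ≤ n →
    Real.log n - C ≤ ∑ p ∈ primesUpTo n, Real.log p / p := by
  obtain ⟨B, hB, hB1⟩ := MER0_sq
  refine ⟨1 + 2 * B, by linarith, fun n hn => ?_⟩
  have hn0 : (0 : ℝ) < n := by exact_mod_cast hn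
  have h1 := MER0_fac n hn
  rw [MER0_logfac] at h1
  have h2 : ∑ p ∈ primesUpTo n, (n.factorial.factorization p : ℝ) * Real.log p ≤
      ∑ p ∈ primesUpTo n, (n * (Real.log p / p) + n * (2 * (Real.log p / (p : ℝ) ^ 2))) := by
    refine Finset.sum_le_sum fun p hp => ?_
    have hp' := (mem_primesUpTo.1 hp).1
    have hp2 : (2 : ℝ) ≤ p := by exact_mod_cast hp'.two_le
    have hlog : 0 ≤ Real.log p := Real.log_nonneg (by linarith)
    have h3 := mul_le_mul_of_nonneg_right (MER0_val n p hp') hlog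
    refine h3.trans ?_
    have h4 : (n : ℝ) / ((p : ℝ) - 1) ≤ n / p + n * (2 / (p : ℝ) ^ 2) := by
      rw [div_le_iff₀ (by linarith)]
      have h5 : (n : ℝ) / p + n * (2 / (p : ℝ) ^ 2) = n * ((p + 2) / (p : ℝ) ^ 2) := by
        field_simp
      rw [h5, mul_assoc]
      have h6 : 1 ≤ ((p : ℝ) + 2) / (p : ℝ) ^ 2 * (p - 1) := by
        rw [div_mul_eq_mul_div, le_div_iff₀ (by positivity)]
        nlinarith
      nlinarith
    calc (n : ℝ) / ((p : ℝ) - 1) * Real.log p ≤ (n / p + n * (2 / (p : ℝ) ^ 2)) * Real.log p :=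
          mul_le_mul_of_nonneg_right h4 hlog
      _ = _ := by ring
  rw [Finset.sum_add_distrib, ← Finset.mul_sum, ← Finset.mul_sum, ← Finset.mul_sum] at h2
  have h3 := hB1 (primesUpTo n)
  have h4 : (n : ℝ) * Real.log n - n ≤ n * ∑ p ∈ primesUpTo n, Real.log p / p + n * (2 * B) := by
    have : (n : ℝ) * (2 * ∑ p ∈ primesUpTo n, Real.log p / (p : ℝ) ^ 2) ≤ n * (2 * B) := by
      gcongr
    linarith
  have h5 : (n : ℝ) * (Real.log n - (1 + 2 * B)) ≤ n * ∑ p ∈ primesUpTo n, Real.log p / p := by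
    linarith
  exact le_of_mul_le_mul_left h5 hn0

/-- the coefficients -/
noncomputable def MER0_c (n : ℕ) : ℝ := open Classical in if n.Prime then Real.log n / n else 0

theorem MER0_sumc (n : ℕ) : ∑ k ∈ Icc 0 n, MER0_c k = ∑ p ∈ primesUpTo n, Real.log p / p := by
  unfold primesUpTo
  rw [Finset.sum_filter]
  have : Icc 0 n = range (n + 1) := by
    ext k; simp
  rw [this]
  unfold MER0_c
  refine Finset.sum_congr rfl fun k _ => ?_
  split_ifs <;> rfl

theorem MER0_first : ∃ C : ℝ, 0 < C ∧ ∀ t : ℝ, 1 ≤ t →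
    |∑ k ∈ Icc 0 ⌊t⌋₊, MER0_c k - Real.log t| ≤ C := by
  obtain ⟨C, hC, h⟩ := MER0_lower
  refine ⟨C + Real.log 4 + 2, by positivity, fun t ht => ?_⟩
  rw [MER0_sumc]
  have hn : 1 ≤ ⌊t⌋₊ := (Nat.one_le_floor_iff t).2 ht
  have hn0 : (1 : ℝ) ≤ ⌊t⌋₊ := by exact_mod_cast hn
  have h1 := h ⌊t⌋₊ hn
  have h2 := sum_log_div_le ⌊t⌋₊ hn
  have h3 : Real.log (⌊t⌋₊ : ℝ) ≤ Real.log t :=
    Real.log_le_log (by linarith) (Nat.floor_le (by linarith))
  have h4 : Real.log t ≤ Real.log (⌊t⌋₊ : ℝ) + 1 := by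
    have h5 : t ≤ ⌊t⌋₊ * 2 := by
      have := Nat.lt_floor_add_one t
      linarith
    have h6 := Real.log_le_log (by linarith) h5
    rw [Real.log_mul (by linarith) (by norm_num)] at h6
    have h7 : Real.log 2 ≤ 1 := by
      have := Real.log_two_lt_d9
      linarith
    linarith
  have h8 : 0 ≤ Real.log 4 := Real.log_nonneg (by norm_num)
  rw [abs_le]
  constructor <;> linarith

open MeasureTheory in
theorem MER0_abel : ∃ C : ℝ, 0 < C ∧ ∀ u v : ℝ, 2 ≤ u → u ≤ v →
    |∑ k ∈ Ioc ⌊u⌋₊ ⌊v⌋₊, (1 / Real.log k) * MER0_c k -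
      (Real.log (Real.log v) - Real.log (Real.log u))| ≤ C / Real.log u := by
  obtain ⟨C, hC, h⟩ := MER0_first
  refine ⟨2 * C, by linarith, fun u v hu huv => ?_⟩
  have hd : ∀ t : ℝ, 1 < t → HasDerivAt (fun x => 1 / Real.log x) (-(1 / (t * Real.log t ^ 2))) t := by
    intro t ht
    have h0 : Real.log t ≠ 0 := (Real.log_pos ht).ne'
    have h1 := (Real.hasDerivAt_log (show t ≠ 0 by linarith)).inv h0
    have h2 : (fun x => 1 / Real.log x) = fun x => (Real.log x)⁻¹ := by
      ext x; rw [one_div]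
    have h3 : -(1 / (t * Real.log t ^ 2)) = -t⁻¹ / Real.log t ^ 2 := by
      rw [one_div, mul_inv, neg_div, div_eq_mul_inv]
    rw [h2, h3]
    exact h1
  have hdd : ∀ t : ℝ, 1 < t → HasDerivAt (fun x => Real.log (Real.log x)) (1 / (t * Real.log t)) t := by
    intro t ht
    have h0 : Real.log t ≠ 0 := (Real.log_pos ht).ne'
    have h1 := (Real.hasDerivAt_log (show t ≠ 0 by linarith)).log h0
    have h2 : 1 / (t * Real.log t) = t⁻¹ / Real.log t := by
      rw [one_div, mul_inv, div_eq_mul_inv]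
    rw [h2]
    exact h1
  have hder : ∀ t : ℝ, 1 < t → deriv (fun x => 1 / Real.log x) t = -(1 / (t * Real.log t ^ 2)) :=
    fun t ht => (hd t ht).deriv
  have hcont : ContinuousOn (fun t : ℝ => -(1 / (t * Real.log t ^ 2))) (Set.Icc u v) := by
    refine ContinuousOn.neg (ContinuousOn.div continuousOn_const ?_ ?_)
    · exact continuousOn_id.mul ((Real.continuousOn_log.mono (by
        intro t ht
        have := ht.1
        simp only [Set.mem_compl_iff, Set.mem_singleton_iff]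
        linarith)).pow 2)
    · intro t ht
      have h1 : 1 < t := by have := ht.1; linarith
      have := Real.log_pos h1
      positivity
  have hcont2 : ContinuousOn (fun t : ℝ => 1 / (t * Real.log t)) (Set.Icc u v) := by
    refine ContinuousOn.div continuousOn_const ?_ ?_
    · exact continuousOn_id.mul (Real.continuousOn_log.mono (by
        intro t ht
        have := ht.1
        simp only [Set.mem_compl_iff, Set.mem_singleton_iff]
        linarith))
    · intro t ht
      have h1 : 1 < t := by have := ht.1; linarith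
      have := Real.log_pos h1
      positivity
  have hint : IntegrableOn (deriv (fun x : ℝ => 1 / Real.log x)) (Set.Icc u v) := by
    refine (hcont.integrableOn_Icc).congr_fun ?_ measurableSet_Icc
    intro t ht
    rw [hder t (by have := ht.1; linarith)]
  have hab := sum_mul_eq_sub_sub_integral_mul MER0_c (f := fun x : ℝ => 1 / Real.log x)
    (a := u) (b := v) (by linarith) huv
    (fun t ht => (hd t (by have := ht.1; linarith)).differentiableAt) hint
  have hint2 := integrableOn_mul_sum_Icc (m := 0) MER0_c (a := u) (b := v) (by linarith) hint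
  rw [hab]
  -- the two boundary terms
  have hlu : 0 < Real.log u := Real.log_pos (by linarith)
  have hlv : 0 < Real.log v := Real.log_pos (by linarith)
  have hluv : Real.log u ≤ Real.log v := Real.log_le_log (by linarith) huv
  -- integrals
  have i1 : ∫ t in Set.Ioc u v, 1 / (t * Real.log t) =
      Real.log (Real.log v) - Real.log (Real.log u) := by
    rw [← intervalIntegral.integral_of_le huv]
    refine intervalIntegral.integral_eq_sub_of_hasDerivAt (f := fun x => Real.log (Real.log x))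
      (fun t ht => hdd t ?_) ?_
    · rw [Set.uIcc_of_le huv] at ht
      have := ht.1
      linarith
    · rw [intervalIntegrable_iff_integrableOn_Ioc_of_le huv]
      exact hcont2.integrableOn_Icc.mono_set Set.Ioc_subset_Icc_self
  have i2 : ∫ t in Set.Ioc u v, C * -(-(1 / (t * Real.log t ^ 2))) =
      C * (1 / Real.log u - 1 / Real.log v) := by
    rw [integral_const_mul, integral_neg, ← intervalIntegral.integral_of_le huv,
      intervalIntegral.integral_eq_sub_of_hasDerivAt (f := fun x => 1 / Real.log x)]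
    · ring
    · intro t ht
      rw [Set.uIcc_of_le huv] at ht
      have := ht.1
      exact hd t (by linarith)
    · rw [intervalIntegrable_iff_integrableOn_Ioc_of_le huv]
      exact hcont.integrableOn_Icc.mono_set Set.Ioc_subset_Icc_self
  have i3 : |∫ t in Set.Ioc u v, (deriv (fun x : ℝ => 1 / Real.log x) t *
      ∑ k ∈ Icc 0 ⌊t⌋₊, MER0_c k + 1 / (t * Real.log t))| ≤ C * (1 / Real.log u - 1 / Real.log v) := by
    rw [← i2, ← Real.norm_eq_abs]
    refine norm_integral_le_of_norm_le ?_ ?_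
    · exact ((hcont.integrableOn_Icc.mono_set Set.Ioc_subset_Icc_self).neg).const_mul C
    · rw [ae_restrict_iff' measurableSet_Ioc]
      refine ae_of_all _ fun t ht => ?_
      have ht1 : 1 < t := by have := ht.1; linarith
      have hl := Real.log_pos ht1
      rw [hder t ht1, Real.norm_eq_abs]
      have e : -(1 / (t * Real.log t ^ 2)) * ∑ k ∈ Icc 0 ⌊t⌋₊, MER0_c k + 1 / (t * Real.log t) =
          -(1 / (t * Real.log t ^ 2)) * (∑ k ∈ Icc 0 ⌊t⌋₊, MER0_c k - Real.log t) := by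
        field_simp
        ring
      rw [e, abs_mul, abs_neg, abs_of_pos (by positivity), neg_neg, mul_comm C]
      exact mul_le_mul_of_nonneg_left (h t ht1.le) (by positivity)
  rw [integral_add (hint2.mono_set Set.Ioc_subset_Icc_self)
    (hcont2.integrableOn_Icc.mono_set Set.Ioc_subset_Icc_self), i1] at i3
  have b1 := h u (by linarith)
  have b2 := h v (by linarith)
  rw [abs_le] at b1 b2 i3
  have c1 : |1 / Real.log v * ∑ k ∈ Icc 0 ⌊v⌋₊, MER0_c k - 1| ≤ C / Real.log v := by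
    have e : 1 / Real.log v * ∑ k ∈ Icc 0 ⌊v⌋₊, MER0_c k - 1 =
        (∑ k ∈ Icc 0 ⌊v⌋₊, MER0_c k - Real.log v) / Real.log v := by field_simp
    rw [e, abs_div, abs_of_pos hlv]
    exact div_le_div_of_nonneg_right (h v (by linarith)) hlv.le
  have c2 : |1 / Real.log u * ∑ k ∈ Icc 0 ⌊u⌋₊, MER0_c k - 1| ≤ C / Real.log u := by
    have e : 1 / Real.log u * ∑ k ∈ Icc 0 ⌊u⌋₊, MER0_c k - 1 =
        (∑ k ∈ Icc 0 ⌊u⌋₊, MER0_c k - Real.log u) / Real.log u := by field_simp
    rw [e, abs_div, abs_of_pos hlu]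
    exact div_le_div_of_nonneg_right (h u (by linarith)) hlu.le
  rw [abs_le] at c1 c2 ⊢
  have e1 : C * (1 / Real.log u - 1 / Real.log v) = C / Real.log u - C / Real.log v := by ring
  have e2 : 2 * C / Real.log u = C / Real.log u + C / Real.log u := by ring
  rw [e1] at i3
  rw [e2]
  constructor <;> linarith [i3.1, i3.2, c1.1, c1.2, c2.1, c2.2]

/-- **Mertens.** `∑_{u ≤ q < v} 1/q = log log v - log log u + O(1/log u)`.

Proof. `∑_{n ≤ x} Λ(n)/n = log x + O(1)` (from `∑_{n ≤ x} Λ(n) ⌊x/n⌋ = log ⌊x⌋!`, Stirling, and Chebyshev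
`ψ(x) ≤ C x`, `Chebyshev.psi_le_const_mul_self`), hence `∑_{q ≤ x} log q/q = log x + O(1)`, and partial summation
with `1/log q`. -/
theorem mertens : ∃ C : ℝ, 0 < C ∧ ∀ u v : ℝ, 2 ≤ u → u ≤ v →
    |∑ q ∈ PR u v, 1 / (q : ℝ) - (Real.log (Real.log v) - Real.log (Real.log u))| ≤
      C / Real.log u := by
  classical
  obtain ⟨C, hC, h⟩ := MER0_abel
  refine ⟨C + 2, by linarith, fun u v hu huv => ?_⟩
  have hlu : 0 < Real.log u := Real.log_pos (by linarith)
  have h1 : ∑ k ∈ Ioc ⌊u⌋₊ ⌊v⌋₊, (1 / Real.log k) * MER0_c k =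
      ∑ k ∈ (Ioc ⌊u⌋₊ ⌊v⌋₊).filter Nat.Prime, 1 / (k : ℝ) := by
    rw [Finset.sum_filter]
    refine Finset.sum_congr rfl fun k _ => ?_
    unfold MER0_c
    split_ifs with hk
    · have h2 : (1 : ℝ) < k := by exact_mod_cast hk.one_lt
      have h3 := (Real.log_pos h2).ne'
      field_simp
    · rw [mul_zero]
  have h2 := h u v hu huv
  rw [h1] at h2
  have hle1 : ∑ q ∈ PR u v, 1 / (q : ℝ) ≤
      ∑ k ∈ (Ioc ⌊u⌋₊ ⌊v⌋₊).filter Nat.Prime, 1 / (k : ℝ) + 1 / u := by
    have hsub : PR u v ⊆ insert ⌊u⌋₊ ((Ioc ⌊u⌋₊ ⌊v⌋₊).filter Nat.Prime) := by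
      intro q hq
      rw [mem_PR] at hq
      rw [Finset.mem_insert, Finset.mem_filter, Finset.mem_Ioc]
      by_cases hqu : q ≤ ⌊u⌋₊
      · left
        have h3 : (⌊u⌋₊ : ℝ) ≤ q := (Nat.floor_le (by linarith)).trans hq.2.1
        have h4 : ⌊u⌋₊ ≤ q := by exact_mod_cast h3
        omega
      · right
        refine ⟨⟨by omega, Nat.le_floor hq.2.2.le⟩, hq.1⟩
    by_cases hmem : ⌊u⌋₊ ∈ PR u v
    · refine (Finset.sum_le_sum_of_subset_of_nonneg hsub fun k _ _ => by positivity).trans ?_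
      rw [Finset.sum_insert (by simp)]
      have h3 := (mem_PR.1 hmem).2.1
      have h4 : 1 / (⌊u⌋₊ : ℝ) ≤ 1 / u := one_div_le_one_div_of_le (by linarith) h3
      linarith
    · have hsub' : PR u v ⊆ (Ioc ⌊u⌋₊ ⌊v⌋₊).filter Nat.Prime := by
        intro q hq
        rcases Finset.mem_insert.1 (hsub hq) with h3 | h3
        · exact absurd (h3 ▸ hq) hmem
        · exact h3
      have h3 := Finset.sum_le_sum_of_subset_of_nonneg (f := fun k : ℕ => 1 / (k : ℝ)) hsub'
        fun k _ _ => by positivity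
      have h4 : 0 ≤ 1 / u := by positivity
      linarith
  have hle2 : ∑ k ∈ (Ioc ⌊u⌋₊ ⌊v⌋₊).filter Nat.Prime, 1 / (k : ℝ) ≤
      ∑ q ∈ PR u v, 1 / (q : ℝ) + 1 / u := by
    have hsub : (Ioc ⌊u⌋₊ ⌊v⌋₊).filter Nat.Prime ⊆ insert ⌊v⌋₊ (PR u v) := by
      intro q hq
      rw [Finset.mem_filter, Finset.mem_Ioc] at hq
      rw [Finset.mem_insert, mem_PR]
      by_cases hqv : (q : ℝ) < v
      · right
        exact ⟨hq.2, (Nat.lt_of_floor_lt hq.1.1).le, hqv⟩
      · left
        have h3 : (q : ℝ) ≤ v := (Nat.le_floor_iff (by linarith)).1 hq.1.2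
        have h4 : (q : ℝ) = v := le_antisymm h3 (not_lt.1 hqv)
        rw [← h4, Nat.floor_natCast]
    by_cases hmem : ⌊v⌋₊ ∈ (Ioc ⌊u⌋₊ ⌊v⌋₊).filter Nat.Prime
    · refine (Finset.sum_le_sum_of_subset_of_nonneg hsub fun k _ _ => by positivity).trans ?_
      have h5 : 1 / (⌊v⌋₊ : ℝ) ≤ 1 / u := by
        refine one_div_le_one_div_of_le (by linarith) ?_
        exact (Nat.lt_of_floor_lt (Finset.mem_Ioc.1 (Finset.mem_filter.1 hmem).1).1).le
      by_cases h6 : ⌊v⌋₊ ∈ PR u v
      · rw [Finset.insert_eq_of_mem h6]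
        have : 0 ≤ 1 / u := by positivity
        linarith
      · rw [Finset.sum_insert h6]
        linarith
    · have hsub' : (Ioc ⌊u⌋₊ ⌊v⌋₊).filter Nat.Prime ⊆ PR u v := by
        intro q hq
        rcases Finset.mem_insert.1 (hsub hq) with h3 | h3
        · exact absurd (h3 ▸ hq) hmem
        · exact h3
      have h3 := Finset.sum_le_sum_of_subset_of_nonneg (f := fun k : ℕ => 1 / (k : ℝ)) hsub'
        fun k _ _ => by positivity
      have h4 : 0 ≤ 1 / u := by positivity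
      linarith
  have h3 : 1 / u ≤ 2 / Real.log u := by
    rw [div_le_div_iff₀ (by linarith) hlu]
    have := Real.log_le_sub_one_of_pos (show (0 : ℝ) < u by linarith)
    linarith
  rw [abs_le] at h2 ⊢
  have e : (C + 2) / Real.log u = C / Real.log u + 2 / Real.log u := by ring
  rw [e]
  constructor <;> linarith [h2.1, h2.2]

end Pool.Agent.Lib.H59C
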