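import Pool.Agent.Lib.H59C.CW

/-!
# CF: neighbours in the Chen graph
-/

open Finset

namespace Pool.Agent.Lib.H59C

/-- A prime or a product of two primes. -/
def P2 (a : ℕ) : Prop := a.Prime ∨ ∃ r s : ℕ, r.Prime ∧ s.Prime ∧ a = r * s

/-- Chen neighbours (in halved form): one of `X + y`, `|X - y|` is a prime and the other one a prime or a product of two
primes, without prime factors below `n^(1/10)`. -/
def ChenAdj (n X y : ℕ) : Prop :=
  (((X + y).Prime ∧ P2 (Nat.dist X y)) ∨ ((Nat.dist X y).Prime ∧ P2 (X + y))) ∧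
    ∀ p : ℕ, p.Prime → (p ∣ X + y ∨ p ∣ Nat.dist X y) → (n : ℝ) ^ (1 / 10 : ℝ) ≤ p

theorem CF_hl (X : ℕ) (hX : X ≠ 0) : hl (2 * X) = hl X := by
  unfold hl
  refine Finset.prod_congr ?_ fun q _ => rfl
  ext q
  rw [Finset.mem_filter, Finset.mem_filter, Nat.mem_primeFactors, Nat.mem_primeFactors]
  constructor
  · rintro ⟨⟨h1, h2, _⟩, h4⟩
    refine ⟨⟨h1, ?_, hX⟩, h4⟩
    rcases h1.dvd_mul.1 h2 with h | h
    · have := Nat.le_of_dvd (by norm_num) h
      omega
    · exact h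
  · rintro ⟨⟨h1, h2, _⟩, h4⟩
    exact ⟨⟨h1, dvd_mul_of_dvd_right h2 2, by omega⟩, h4⟩

theorem CF_pow (n p : ℕ) (hn : 256 ≤ n) (h : n ≤ 16 * p) : (n : ℝ) ^ (1 / 10 : ℝ) ≤ p := by
  have hn1 : (256 : ℝ) ≤ n := by exact_mod_cast hn
  have h1 : (n : ℝ) ^ (1 / 10 : ℝ) ≤ (n : ℝ) ^ (1 / 2 : ℝ) :=
    Real.rpow_le_rpow_of_exponent_le (by linarith) (by norm_num)
  rw [← Real.sqrt_eq_rpow] at h1
  have h2 : (16 : ℝ) ≤ Real.sqrt n := by
    rw [Real.le_sqrt (by norm_num) (by linarith)]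
    norm_num
    exact_mod_cast hn
  have h3 := Real.mul_self_sqrt (show (0 : ℝ) ≤ n by linarith)
  have h4 : (n : ℝ) ≤ 16 * p := by exact_mod_cast h
  nlinarith

open Classical in
theorem CF_good {n N y1 y2 p : ℕ} (h : p ∈ Good n N y1 y2) : (y1 < p ∧ p ≤ y2 ∧ p.Prime) ∧
    (∀ q : ℕ, q.Prime → q ∣ Nat.dist N p → (n : ℝ) ^ (1 / 10 : ℝ) ≤ q) ∧ P2 (Nat.dist N p) := by
  unfold Good at h
  rw [Finset.mem_filter, mem_Sq] at h
  exact ⟨⟨h.1.1.1, h.1.1.2, h.1.2⟩, h.2⟩

theorem CF_win1 (n X : ℕ) (hn : 256 ≤ n) (hX : 1 ≤ X) (h : 4 * X ≤ n) :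
    Win n (2 * X) (3 * n / 4) n :=
  ⟨by omega, ⟨X, rfl⟩, by omega, by omega, le_rfl, by omega, by omega, Or.inr ⟨by omega, by omega⟩⟩

theorem CF_win2 (n X : ℕ) (hn : 256 ≤ n) (hX : X ≤ n) (h : n < 4 * X) :
    Win n (2 * X) (X / 2) (X - 1) :=
  ⟨by omega, ⟨X, rfl⟩, by omega, by omega, by omega, by omega, by omega,
    Or.inl ⟨by omega, by omega⟩⟩

open Classical in
/-- **Every vertex has many Chen neighbours.**

Proof. `chen_window` with `N = 2 X` (`hl (2 X) = hl X`). If `4 X ≤ n`: the window `y1 = 3 n/4`, `y2 = n`, and `y = p - X`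
(`X + y = p`, `|X - y| = p - 2 X`). Otherwise `y1 = X/2`, `y2 = X - 1` and `y = X - p` (`|X - y| = p`, `X + y = 2 X - p`). The map
`p ↦ y` is injective, `1 ≤ y ≤ n`, and `p ≥ n/16 ≥ n^(1/10)`. -/
theorem chen_nbrs : ∃ c : ℝ, 0 < c ∧ ∃ n0 : ℕ, ∀ n : ℕ, n0 ≤ n → ∀ X ∈ Icc 1 n,
    c * hl X * n / Real.log n ^ 2 ≤ (((Icc 1 n).filter (fun y => ChenAdj n X y)).card : ℝ) := by
  obtain ⟨c, hc, n0, h⟩ := chen_window
  refine ⟨c, hc, max n0 256, fun n hn X hX => ?_⟩
  have hn0 : n0 ≤ n := (le_max_left _ _).trans hn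
  have hn1 : 256 ≤ n := (le_max_right _ _).trans hn
  rw [Finset.mem_Icc] at hX
  rw [← CF_hl X (by omega)]
  by_cases h4 : 4 * X ≤ n
  · have hW := CF_win1 n X hn1 hX.1 h4
    refine (h n hn0 _ _ _ hW).trans ?_
    have hcard : (Good n (2 * X) (3 * n / 4) n).card ≤
        ((Icc 1 n).filter (fun y => ChenAdj n X y)).card := by
      refine Finset.card_le_card_of_injOn (fun p => p - X) ?_ ?_
      · intro p hp
        obtain ⟨⟨h1, h2, h3⟩, h5, h6⟩ := CF_good hp
        have e1 : X + (p - X) = p := by omega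
        have e2 : Nat.dist X (p - X) = Nat.dist (2 * X) p := by
          unfold Nat.dist
          omega
        simp only [Finset.coe_filter, Set.mem_setOf_eq, Finset.mem_Icc]
        refine ⟨⟨by omega, by omega⟩, Or.inl ⟨?_, ?_⟩, ?_⟩
        · rw [e1]; exact h3
        · rw [e2]; exact h6
        · intro q hq hqd
          rw [e1, e2] at hqd
          rcases hqd with hd | hd
          · rw [Nat.prime_dvd_prime_iff_eq hq h3] at hd
            rw [hd]
            exact CF_pow n p hn1 (by omega)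
          · exact h5 q hq hd
      · intro p hp q hq hpq
        obtain ⟨⟨h1, h2, h3⟩, _⟩ := CF_good hp
        obtain ⟨⟨h1', h2', h3'⟩, _⟩ := CF_good hq
        simp only at hpq
        omega
    exact_mod_cast hcard
  · push Not at h4
    have hW := CF_win2 n X hn1 hX.2 h4
    refine (h n hn0 _ _ _ hW).trans ?_
    have hcard : (Good n (2 * X) (X / 2) (X - 1)).card ≤
        ((Icc 1 n).filter (fun y => ChenAdj n X y)).card := by
      refine Finset.card_le_card_of_injOn (fun p => X - p) ?_ ?_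
      · intro p hp
        obtain ⟨⟨h1, h2, h3⟩, h5, h6⟩ := CF_good hp
        have e1 : Nat.dist X (X - p) = p := by
          unfold Nat.dist
          omega
        have e2 : X + (X - p) = Nat.dist (2 * X) p := by
          unfold Nat.dist
          omega
        simp only [Finset.coe_filter, Set.mem_setOf_eq, Finset.mem_Icc]
        refine ⟨⟨by omega, by omega⟩, Or.inr ⟨?_, ?_⟩, ?_⟩
        · rw [e1]; exact h3
        · rw [e2]; exact h6
        · intro q hq hqd
          rw [e1, e2] at hqd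
          rcases hqd with hd | hd
          · exact h5 q hq hd
          · rw [Nat.prime_dvd_prime_iff_eq hq h3] at hd
            rw [hd]
            exact CF_pow n p hn1 (by omega)
      · intro p hp q hq hpq
        obtain ⟨⟨h1, h2, h3⟩, _⟩ := CF_good hp
        obtain ⟨⟨h1', h2', h3'⟩, _⟩ := CF_good hq
        simp only at hpq
        omega
    exact_mod_cast hcard

end Pool.Agent.Lib.H59C
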