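import Pool.Agent.Lib.H59C.Defs

/-!
# LSB: from primitive characters to additive characters
-/

open Finset

namespace Pool.Agent.Lib.H59C

open Pool.Agent.Lib.H68T (PC p0 e)

theorem lsb_prim_inv {q : ℕ} {χ : DirichletCharacter ℂ q} (h : χ.IsPrimitive) :
    χ⁻¹.IsPrimitive := by
  rw [DirichletCharacter.isPrimitive_def] at h ⊢
  rw [DirichletCharacter.conductor_inv, h]

/-- abstract Parseval -/
theorem lsb_parseval {X B : Type*} [Fintype X] [Fintype B] [DecidableEq B] (u : X → B → ℂ) (c : ℝ)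
    (h : ∀ b b', ∑ x, (starRingEnd ℂ) (u x b) * u x b' = if b = b' then (c : ℂ) else 0)
    (f : B → ℂ) : ∑ x, ‖∑ b, u x b * f b‖ ^ 2 = c * ∑ b, ‖f b‖ ^ 2 := by
  have h1 : ∀ x, ((‖∑ b, u x b * f b‖ ^ 2 : ℝ) : ℂ) =
      ∑ b, ∑ b', (starRingEnd ℂ) (f b) * f b' * ((starRingEnd ℂ) (u x b) * u x b') := by
    intro x
    rw [Complex.ofReal_pow, ← Complex.conj_mul', map_sum, sum_mul_sum]
    refine sum_congr rfl fun b _ => sum_congr rfl fun b' _ => ?_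
    rw [map_mul]
    ring
  have h2 : ((∑ x, ‖∑ b, u x b * f b‖ ^ 2 : ℝ) : ℂ) = ((c * ∑ b, ‖f b‖ ^ 2 : ℝ) : ℂ) := by
    rw [Complex.ofReal_sum, sum_congr rfl fun x _ => h1 x, sum_comm, Complex.ofReal_mul,
      Complex.ofReal_sum, mul_sum]
    refine sum_congr rfl fun b _ => ?_
    rw [sum_comm, sum_congr rfl fun b' _ => (mul_sum _ _ _).symm]
    simp_rw [h]
    simp only [mul_ite, mul_zero, sum_ite_eq, mem_univ, if_true]
    rw [Complex.conj_mul', Complex.ofReal_pow, mul_comm]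
  exact_mod_cast h2

theorem lsb_sum_units (q : ℕ) [NeZero q] (G : ZMod q → ℂ) (hG : ∀ b, ¬ IsUnit b → G b = 0) :
    ∑ b, G b = ∑ b : (ZMod q)ˣ, G b := by
  classical
  have h1 : ∑ b : (ZMod q)ˣ, G b =
      ∑ b ∈ (univ : Finset (ZMod q)ˣ).map ⟨fun u : (ZMod q)ˣ => (u : ZMod q), fun _ _ h => Units.ext h⟩, G b := by
    rw [sum_map]
    rfl
  rw [h1]
  symm
  apply sum_subset (subset_univ _)
  intro b _ hb
  apply hG
  rintro ⟨u, rfl⟩
  apply hb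
  rw [mem_map]
  exact ⟨u, mem_univ _, rfl⟩

theorem lsb_conj {q : ℕ} [NeZero q] (χ : DirichletCharacter ℂ q) (b : (ZMod q)ˣ) :
    (starRingEnd ℂ) (χ (b : ZMod q)) = χ (((b : ZMod q))⁻¹) := by
  have h0 : ‖χ (b : ZMod q)‖ = 1 := χ.unit_norm_eq_one b
  have h1 : χ (((b : ZMod q))⁻¹) * χ (b : ZMod q) = 1 := by
    rw [← map_mul, ZMod.inv_mul_of_unit _ b.isUnit, map_one]
  have h2 : (starRingEnd ℂ) (χ (b : ZMod q)) * χ (b : ZMod q) = 1 := by
    rw [Complex.conj_mul', h0]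
    norm_num
  have h3 : χ (b : ZMod q) ≠ 0 := by
    rw [← norm_ne_zero_iff, h0]
    norm_num
  exact mul_right_cancel₀ h3 (h2.trans h1.symm)

/-- orthogonality in the form needed -/
theorem lsb_orth (q : ℕ) [NeZero q] (F : ZMod q → ℂ) :
    ∑ χ : DirichletCharacter ℂ q, ‖∑ b, χ b * F b‖ ^ 2 =
      (Nat.totient q : ℝ) * ∑ b : (ZMod q)ˣ, ‖F b‖ ^ 2 := by
  classical
  have h := lsb_parseval (fun (χ : DirichletCharacter ℂ q) (b : (ZMod q)ˣ) => χ (b : ZMod q))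
    (Nat.totient q : ℝ) (by
      intro b b'
      simp_rw [lsb_conj]
      rw [DirichletCharacter.sum_char_inv_mul_char_eq ℂ b.isUnit]
      simp only [Units.val_inj]
      split_ifs
      · norm_cast
      · norm_cast) (fun b => F (b : ZMod q))
  rw [← h]
  refine sum_congr rfl fun χ _ => ?_
  rw [lsb_sum_units q (fun b => χ b * F b) (fun b hb => by rw [MulChar.map_nonunit _ hb, zero_mul])]

theorem lsb_card (q : ℕ) [NeZero q] (χ : DirichletCharacter ℂ q) :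
    ∑ b : ZMod q, ‖χ b‖ ^ 2 = (Nat.totient q : ℝ) := by
  classical
  have h1 : ∑ b : ZMod q, ((‖χ b‖ ^ 2 : ℝ) : ℂ) = ∑ b : (ZMod q)ˣ, ((‖χ (b : ZMod q)‖ ^ 2 : ℝ) : ℂ) :=
    lsb_sum_units q (fun b => ((‖χ b‖ ^ 2 : ℝ) : ℂ)) (fun b hb => by
      rw [MulChar.map_nonunit _ hb]
      norm_num)
  have h2 : ∑ b : ZMod q, ‖χ b‖ ^ 2 = ∑ b : (ZMod q)ˣ, ‖χ (b : ZMod q)‖ ^ 2 := by
    exact_mod_cast h1
  rw [h2]
  have h3 : ∀ b : (ZMod q)ˣ, ‖χ (b : ZMod q)‖ ^ 2 = 1 := by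
    intro b
    rw [χ.unit_norm_eq_one b, one_pow]
  rw [sum_congr rfl fun b _ => h3 b, sum_const, card_univ, ZMod.card_units_eq_totient, nsmul_one]

theorem lsb_gauss (q : ℕ) [NeZero q] {χ : DirichletCharacter ℂ q} (h : χ.IsPrimitive) :
    ‖gaussSum χ (ZMod.stdAddChar (N := q))‖ ^ 2 = q := by
  classical
  have hq : (0 : ℝ) < Nat.totient q := by exact_mod_cast Nat.totient_pos.2 (NeZero.pos q)
  have h1 := lsb_parseval (fun (m b : ZMod q) => (ZMod.stdAddChar (b * m) : ℂ)) (q : ℝ) (by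
    intro b b'
    have h2 := AddChar.sum_mulShift (b' - b) (ZMod.isPrimitive_stdAddChar q)
    rw [ZMod.card] at h2
    have h3 : ∀ x : ZMod q, (starRingEnd ℂ) (ZMod.stdAddChar (b * x) : ℂ) *
        ZMod.stdAddChar (b' * x) = ZMod.stdAddChar (x * (b' - b)) := by
      intro x
      rw [← AddChar.map_neg_eq_conj, ← AddChar.map_add_eq_mul]
      congr 1
      ring
    rw [sum_congr rfl fun x _ => h3 x, h2]
    by_cases hb : b = b'
    · rw [if_pos hb, if_pos (by rw [hb, sub_self])]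
      norm_cast
    · rw [if_neg hb, if_neg (by rw [sub_eq_zero]; exact fun h => hb h.symm)]
      norm_cast) (fun b => χ b)
  rw [lsb_card] at h1
  have h4 : ∀ m : ZMod q, ‖∑ b, (ZMod.stdAddChar (b * m) : ℂ) * χ b‖ ^ 2 =
      ‖χ⁻¹ m‖ ^ 2 * ‖gaussSum χ (ZMod.stdAddChar (N := q))‖ ^ 2 := by
    intro m
    rw [← mul_pow, ← norm_mul, ← gaussSum_mulShift_of_isPrimitive _ h, gaussSum]
    congr 2
    refine sum_congr rfl fun b _ => ?_
    rw [AddChar.mulShift_apply, mul_comm, mul_comm b]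
  rw [sum_congr rfl fun m _ => h4 m, ← sum_mul, lsb_card] at h1
  exact mul_left_cancel₀ hq.ne' (h1.trans (mul_comm _ _))

theorem lsb_units (q : ℕ) [NeZero q] (G : ZMod q → ℝ) : ∑ b : (ZMod q)ˣ, G b =
    ∑ b ∈ (range q).filter (fun b => Nat.Coprime b q), G (b : ZMod q) := by
  classical
  symm
  refine sum_bij' (fun b hb => ZMod.unitOfCoprime b (mem_filter.1 hb).2)
    (fun u _ => (u : ZMod q).val) ?_ ?_ ?_ ?_ ?_
  · intro b hb
    exact mem_univ _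
  · intro u _
    rw [mem_filter, mem_range]
    exact ⟨ZMod.val_lt _, ZMod.val_coe_unit_coprime u⟩
  · intro b hb
    rw [mem_filter, mem_range] at hb
    rw [ZMod.coe_unitOfCoprime, ZMod.val_natCast, Nat.mod_eq_of_lt hb.1]
  · intro u _
    apply Units.ext
    rw [ZMod.coe_unitOfCoprime, ZMod.natCast_zmod_val]
  · intro b hb
    rw [ZMod.coe_unitOfCoprime]

theorem lsb_e (q : ℕ) [NeZero q] (m b : ℕ) : ZMod.stdAddChar ((b : ZMod q) * (m : ZMod q)) =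
    e ((m : ℝ) * ((b : ℝ) / q)) := by
  have h := ZMod.stdAddChar_coe (N := q) ((b * m : ℕ) : ℤ)
  push_cast at h
  rw [h, e]
  congr 1
  push_cast
  ring

/-- For primitive `χ` mod `q` and all `m`: `χ̄(m) τ = ∑_b χ(b) e(m b/q)` with `|τ|² = q`, hence
`∑_{χ} |∑_m a_m χ̄(m)|² = q⁻¹ ∑_χ |∑_b χ(b) S(b/q)|²`, `S(α) = ∑_m a_m e(m α)`; extending the sum to ALL
characters mod `q` and using orthogonality this is at most `φ(q)/q ∑_{(b,q)=1} |S(b/q)|²`. Apply it to the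
set of the conjugates `χ̄`, `χ ∈ T`. (Mathlib: `gaussSum_mulShift_of_isPrimitive`, `ZMod.stdAddChar`,
`DirichletCharacter.IsPrimitive...`; `|τ|² = q` follows from Parseval: `∑_m |∑_b χ(b) e(m b/q)|² =
q ∑_b |χ(b)|² = q φ(q)` and `|χ̄(m) τ|² = |τ|²` for the `φ(q)` units `m`.) -/
theorem ls_gauss (q : ℕ) [NeZero q] (S : Finset ℕ) (a : ℕ → ℂ)
    (T : Finset (DirichletCharacter ℂ q)) (hT : ∀ χ ∈ T, χ.IsPrimitive) :
    (q : ℝ) / (Nat.totient q : ℝ) * ∑ χ ∈ T, ‖∑ m ∈ S, a m * χ (m : ZMod q)‖ ^ 2 ≤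
      ∑ b ∈ (range q).filter (fun b => Nat.Coprime b q),
        ‖∑ m ∈ S, a m * e ((m : ℝ) * ((b : ℝ) / q))‖ ^ 2 := by
  classical
  have hq : (0 : ℝ) < Nat.totient q := by exact_mod_cast Nat.totient_pos.2 (NeZero.pos q)
  obtain ⟨F, hF⟩ : ∃ F : ZMod q → ℂ, ∀ b, F b = ∑ m ∈ S, a m * ZMod.stdAddChar (b * (m : ZMod q)) :=
    ⟨_, fun _ => rfl⟩
  have h1 : ∑ b ∈ (range q).filter (fun b => Nat.Coprime b q),
        ‖∑ m ∈ S, a m * e ((m : ℝ) * ((b : ℝ) / q))‖ ^ 2 = ∑ b : (ZMod q)ˣ, ‖F b‖ ^ 2 := by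
    rw [lsb_units q (fun b => ‖F b‖ ^ 2)]
    refine sum_congr rfl fun b _ => ?_
    rw [hF]
    congr 2
    exact sum_congr rfl fun m _ => by rw [lsb_e]
  have h2 : ∀ χ ∈ T, (q : ℝ) * ‖∑ m ∈ S, a m * χ (m : ZMod q)‖ ^ 2 = ‖∑ b, χ⁻¹ b * F b‖ ^ 2 := by
    intro χ hχ
    have hp := lsb_prim_inv (hT χ hχ)
    have e1 : ∑ b, χ⁻¹ b * F b =
        (∑ m ∈ S, a m * χ (m : ZMod q)) * gaussSum χ⁻¹ (ZMod.stdAddChar (N := q)) := by
      rw [sum_mul]
      have e2 : ∀ b, χ⁻¹ b * F b =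
          ∑ m ∈ S, a m * (χ⁻¹ b * ZMod.stdAddChar (b * (m : ZMod q))) := by
        intro b
        rw [hF, mul_sum]
        exact sum_congr rfl fun m _ => by ring
      rw [sum_congr rfl fun b _ => e2 b, sum_comm]
      refine sum_congr rfl fun m _ => ?_
      rw [← mul_sum]
      have e3 := gaussSum_mulShift_of_isPrimitive (ZMod.stdAddChar (N := q)) hp (m : ZMod q)
      rw [inv_inv, gaussSum] at e3
      rw [mul_assoc, ← e3]
      congr 1
      refine sum_congr rfl fun b _ => ?_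
      rw [AddChar.mulShift_apply, mul_comm b]
    rw [e1, norm_mul, mul_pow, lsb_gauss q hp, mul_comm]
  have h3 : (q : ℝ) * ∑ χ ∈ T, ‖∑ m ∈ S, a m * χ (m : ZMod q)‖ ^ 2 ≤
      ∑ χ : DirichletCharacter ℂ q, ‖∑ b, χ b * F b‖ ^ 2 := by
    rw [mul_sum, sum_congr rfl h2]
    have e1 : ∑ χ ∈ T, ‖∑ b, χ⁻¹ b * F b‖ ^ 2 = ∑ χ ∈ T.map (Equiv.inv _).toEmbedding,
        ‖∑ b, χ b * F b‖ ^ 2 := by
      rw [sum_map]
      rfl
    rw [e1]
    exact sum_le_sum_of_subset_of_nonneg (subset_univ _) fun χ _ _ => by positivity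
  rw [lsb_orth, ← h1] at h3
  rw [div_mul_eq_mul_div, div_le_iff₀ hq, mul_comm _ (Nat.totient q : ℝ)]
  exact h3

end Pool.Agent.Lib.H59C
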