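import Pool.Agent.Lib.H68T.Defs

/-!
# Project H59C (MP_443e5f_co, Goldbach graphs): definitions

See `PROOF.md` in this folder. `PC Q`: the primitive characters of conductor at most `Q`
(pairs `⟨r, χ⟩`), `p0` the trivial one, `e x = exp (2 π i x)` (`Lib/H68T/Defs.lean`).
-/

open Finset

namespace Pool.Agent.Lib.H59C

noncomputable section

open Pool.Agent.Lib.H68T (PC p0 e)

/-- Primitive characters with their conductors. -/
abbrev PCh : Type := Σ r : ℕ, DirichletCharacter ℂ r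

open Classical in
/-- The primitive characters of conductor in `(R, 2 R]`. -/
def PD (R : ℕ) : Finset PCh := (PC (2 * R)).filter (fun p => R < p.1)

/-- `∑_{m ≤ y} Λ(m) χ(m)` -/
def psi (y : ℕ) (p : PCh) : ℂ :=
  ∑ m ∈ Icc 1 y, (ArithmeticFunction.vonMangoldt m : ℂ) * p.2 (m : ZMod p.1)

/-- `∑ log q` over the primes `q ≤ y`. -/
def th (y : ℕ) : ℝ := ∑ q ∈ (Icc 1 y).filter Nat.Prime, Real.log q

/-- `∑ log q` over the primes `q ≤ y` with `q ≡ a mod d`. -/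
def thp (y d a : ℕ) : ℝ :=
  ∑ q ∈ (Icc 1 y).filter (fun q => q.Prime ∧ q ≡ a [MOD d]), Real.log q

/-- The level of distribution `√n / (log n)^B`. -/
def DD (n B : ℕ) : ℕ := ⌊Real.sqrt n / Real.log n ^ B⌋₊

open Classical in
/-- The Siegel-Walfisz property, away from the conductors divisible by `p1`. -/
def SWp (A n p1 : ℕ) : Prop :=
  ∀ p ∈ PC ⌊Real.log n ^ A⌋₊, p ≠ p0 → ¬ p1 ∣ p.1 → ∀ y : ℕ, (n : ℝ) ^ (1 / 10 : ℝ) ≤ y →
    y ≤ 8 * n → ‖psi y p‖ ≤ y / Real.log n ^ A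

/-! ## The linear sieve -/

/-- `∏ (1 - g q)` over the `q ∈ P`, `q < z`. -/
def VP (P : Finset ℕ) (g : ℕ → ℝ) (z : ℝ) : ℝ :=
  ∏ q ∈ P.filter (fun q : ℕ => (q : ℝ) < z), (1 - g q)

/-- Sifting dimension one, constant `K`. -/
def Om (K : ℝ) (P : Finset ℕ) (g : ℕ → ℝ) : Prop :=
  ∀ u z : ℝ, 2 ≤ u → u ≤ z → VP P g u ≤ K * (Real.log z / Real.log u) * VP P g z

/-- Rosser's condition on a decreasing list of primes (`true`: upper bound sieve, `false`: lower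
bound sieve). -/
def adm : Bool → ℝ → List ℕ → Prop
  | _, _, [] => True
  | true, D, p :: l => (p : ℝ) ^ 3 < D ∧ adm false (D / p) l
  | false, D, p :: l => adm true (D / p) l

open Classical in
/-- Rosser's weights. -/
def lamR (b : Bool) (D : ℝ) (A : Finset ℕ) : ℝ :=
  if adm b D (A.sort (· ≥ ·)) then (-1) ^ A.card else 0

/-- `∑_{A ⊆ P} λ(A) ∏_{q ∈ A} h(q)` -/
def SS (b : Bool) (D : ℝ) (P : Finset ℕ) (h : ℕ → ℝ) : ℝ :=
  ∑ A ∈ P.powerset, lamR b D A * ∏ q ∈ A, h q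

/-- The comparison function. -/
def hh (s : ℝ) : ℝ := Real.exp (-(11 / 10) * max s 2)

/-- The functions of the linear sieve: `F = 1 + u`, `f = 1 - v`. -/
structure UV (C : ℝ) (u v : ℝ → ℝ) : Prop where
  u0 : ∀ s, 1 ≤ s → 0 ≤ u s
  v0 : ∀ s, 2 ≤ s → 0 ≤ v s
  uanti : AntitoneOn u (Set.Ici 1)
  vanti : AntitoneOn v (Set.Ici 2)
  ub : ∀ s, 1 ≤ s → u s ≤ C * hh s
  vb : ∀ s, 2 ≤ s → v s ≤ C * hh s
  eqv : ∀ s, 2 ≤ s → s * v s = ∫ t in Set.Ioi s, u (t - 1)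
  equ : ∀ s, 3 ≤ s → s * u s = ∫ t in Set.Ioi s, v (t - 1)
  equ' : ∀ s, 1 ≤ s → s ≤ 3 → s * (1 + u s) = 3 * (1 + u 3)

/-- The density `1/(q-1)`. -/
def gq (q : ℕ) : ℝ := 1 / ((q : ℝ) - 1)

/-- `∏ (1 - 1/(q-1))` over the `q ∈ P`, `q < z`. -/
def VV (P : Finset ℕ) (z : ℝ) : ℝ := VP P gq z

open Classical in
/-- The total weight of the `i` such that no `q ∈ P`, `q < z`, divides `a i`. -/
def sift {ι : Type} (S : Finset ι) (w : ι → ℝ) (a : ι → ℕ) (P : Finset ℕ) (z : ℝ) : ℝ :=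
  ∑ i ∈ S.filter (fun i => ∀ q ∈ P, (q : ℝ) < z → ¬ q ∣ a i), w i

open Classical in
/-- The sum of the remainder terms, squarefree moduli `d ≤ D` composed of primes `q ∈ P`, `q < z`. -/
def remd {ι : Type} (S : Finset ι) (w : ι → ℝ) (a : ι → ℕ) (P : Finset ℕ) (z X D : ℝ) : ℝ :=
  ∑ d ∈ (Icc 1 ⌊D⌋₊).filter (fun d => Squarefree d ∧ ∀ q ∈ d.primeFactors, q ∈ P ∧ (q : ℝ) < z),
    |∑ i ∈ S.filter (fun i => d ∣ a i), w i - X / (Nat.totient d : ℝ)|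

end

end Pool.Agent.Lib.H59C
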