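import Pool.Agent.Lib.H68X.XZ1
import Pool.Agent.Lib.H59C.Defs

/-!
# SW1: the logarithmic derivative of a non exceptional L-function
-/

open Finset Metric

namespace Pool.Agent.Lib.H59C

open Pool.Agent.Lib.H68T (PC p0 Rg zero_free_complex zero_free_real vonMangoldt_le local_bound
  INV2_mul INV2_lseries INV2_norm_le INV2_logderiv LFunction_bound)

/-- Control of `-L'/L(s, χ)` in the rectangle `Rg c' Q`. -/
def LogInv (c' C : ℝ) (Q : ℕ) (p : PCh) : Prop :=
  ∃ g : ℂ → ℂ, AnalyticOnNhd ℂ g (Rg c' Q) ∧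
    (∀ s : ℂ, 1 < s.re → g s = LSeries (fun n => (ArithmeticFunction.vonMangoldt n : ℂ) *
      p.2 (n : ZMod p.1)) s) ∧ ∀ s ∈ Rg c' Q, ‖g s‖ ≤ C * Real.log Q

/-- As `H68T.inv_single` (file `H68X/XZ1.lean`, copied from `H68T/INV2.lean`, which bounds `1/L` by means of
`H68T.local_bound`), now for `g = -L'/L`: `local_bound` bounds `deriv f s / f s` as well; for
`Re s > 1` `g` is the L-series of `Λ χ` (`DirichletCharacter.LSeries_twist_vonMangoldt_eq`,
`INV2_logderiv`; compare `log_exc` in `H68X/XZ4.lean`, which treats the exceptional character). -/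
theorem log_single (c : ℝ) (hc : 0 < c) : ∃ c' C K : ℝ, 0 < c' ∧ 0 < C ∧ ∀ Q : ℕ, K ≤ Q →
    ∀ (r : ℕ) [NeZero r] (ψ : DirichletCharacter ℂ r), r ≤ Q → ψ.IsPrimitive → ψ ≠ 1 →
    (ψ ^ 2 = 1 → ∀ σ : ℝ, 1 - c / Real.log Q ≤ σ → σ ≤ 1 → ψ.LFunction (σ : ℂ) ≠ 0) →
    LogInv c' C Q ⟨r, ψ⟩ := by
  obtain ⟨c₁, K₁, hc₁, hZ1⟩ := zero_free_complex
  obtain ⟨c₂, K₂, hc₂, hZ2⟩ := zero_free_real
  obtain ⟨C₀, hC₀, hvM⟩ := vonMangoldt_le
  obtain ⟨A, hA, hloc⟩ := local_bound
  set b : ℝ := min (min c₁ c₂) (min c 1) with hb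
  have hb0 : 0 < b := by
    rw [hb]
    exact lt_min (lt_min hc₁ hc₂) (lt_min hc one_pos)
  have hb1 : b ≤ c₁ := (min_le_left _ _).trans (min_le_left _ _)
  have hb2 : b ≤ c₂ := (min_le_left _ _).trans (min_le_right _ _)
  have hb3 : b ≤ c := (min_le_right _ _).trans (min_le_left _ _)
  have hb4 : b ≤ 1 := (min_le_right _ _).trans (min_le_right _ _)
  set m : ℝ := 16 + 3 / b with hm
  have hm16 : 16 ≤ m := by
    rw [hm]
    have : 0 ≤ 3 / b := by positivity
    linarith
  set E : ℝ := 2 * A * (m + 1) with hE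
  refine ⟨b / 3, 2 * A * (m + 1) + (3 / b + C₀), K₁ ⊔ K₂ ⊔ Real.exp (32 + C₀ + 3 / b),
    by positivity, by positivity, ?_⟩
  intro Q hQ r _ ψ hrQ _hprim hψ hgood
  have hQ1 : K₁ ≤ Q := le_sup_left.trans (le_sup_left.trans hQ)
  have hQ2 : K₂ ≤ Q := le_sup_right.trans (le_sup_left.trans hQ)
  have hQ3 : Real.exp (32 + C₀ + 3 / b) ≤ Q := le_sup_right.trans hQ
  have hQpos : (0 : ℝ) < Q := (Real.exp_pos _).trans_le hQ3
  set L : ℝ := Real.log Q with hL
  have hLge : 32 + C₀ + 3 / b ≤ L := (Real.le_log_iff_exp_le hQpos).2 hQ3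
  have h3b : 0 < 3 / b := by positivity
  have hL32 : 32 ≤ L := by linarith
  have hLpos : 0 < L := by linarith
  have hQexp : (Q : ℝ) = Real.exp L := (Real.exp_log hQpos).symm
  have hQ10 : (10 : ℝ) ≤ Q := by
    rw [hQexp]
    linarith [Real.add_one_le_exp L]
  have hf := DirichletCharacter.differentiable_LFunction hψ
  -- the zeros
  have hzeros : ∀ ρ : ℂ, ψ.LFunction ρ = 0 → |ρ.im| ≤ (Q : ℝ) ^ 12 + 1 → ρ.re < 1 - b / L := by
    intro ρ hρ him
    by_contra hcon
    push Not at hcon
    have hlt : ρ.re < 1 := by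
      by_contra h1
      exact DirichletCharacter.LFunction_ne_zero_of_one_le_re ψ (Or.inl hψ) (not_lt.1 h1) hρ
    by_cases hsq : ψ ^ 2 = 1
    · by_cases him0 : ρ.im = 0
      · have h1 : (ρ.re : ℂ) = ρ := by
          apply Complex.ext
          · simp
          · simp [him0]
        refine hgood hsq ρ.re ?_ hlt.le (by rw [h1]; exact hρ)
        have : b / L ≤ c / L := div_le_div_of_nonneg_right hb3 hLpos.le
        linarith
      · have h1 := hZ2 Q hQ2 r ψ hrQ hψ hsq ρ hρ him0 him
        have : b / L ≤ c₂ / L := div_le_div_of_nonneg_right hb2 hLpos.le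
        linarith
    · have h1 := hZ1 Q hQ1 r ψ hrQ hsq ρ hρ him
      have : b / L ≤ c₁ / L := div_le_div_of_nonneg_right hb1 hLpos.le
      linarith
  have hbL : 0 < b / L := by positivity
  have hb3L : b / 3 / L = b / L / 3 := by ring
  have hne : ∀ s ∈ Rg (b / 3) Q, ψ.LFunction s ≠ 0 := by
    rintro s ⟨h1, _, h3⟩ h0
    rw [← hL, hb3L] at h1
    have := hzeros s h0 (by linarith)
    linarith
  -- the bound to the right of `1`
  have hright : ∀ s : ℂ, 1 < s.re → ‖(ψ.LFunction s)⁻¹‖ ≤ 1 + 1 / (s.re - 1) := by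
    intro s hs
    have h1 := INV2_mul r ψ s hs
    have h2 : (ψ.LFunction s)⁻¹ =
        LSeries (fun n => (ArithmeticFunction.moebius n : ℂ) * ψ (n : ZMod r)) s :=
      inv_eq_of_mul_eq_one_right h1
    rw [h2]
    exact INV2_lseries _ (INV2_norm_le r ψ) s hs
  refine ⟨fun s => -(deriv ψ.LFunction s / ψ.LFunction s), ?_, ?_, ?_⟩
  · intro s hs
    exact (((hf.analyticAt s).deriv).div (hf.analyticAt s) (hne s hs)).neg
  · intro s hs
    have h1 := DirichletCharacter.LSeries_twist_vonMangoldt_eq ψ hs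
    have h2 : ((fun n : ℕ => ψ (n : ZMod r)) * fun n : ℕ => (ArithmeticFunction.vonMangoldt n : ℂ)) =
        fun n : ℕ => (ArithmeticFunction.vonMangoldt n : ℂ) * ψ (n : ZMod r) := by
      funext n
      simp only [Pi.mul_apply]
      ring
    rw [h2, ← DirichletCharacter.deriv_LFunction_eq_deriv_LSeries ψ hs,
      ← DirichletCharacter.LFunction_eq_LSeries ψ hs] at h1
    simp only
    rw [h1]
    ring
  · rintro s hs
    obtain ⟨hs1, hs2, hs3⟩ := id hs
    rw [← hL, hb3L] at hs1
    rw [← hL, norm_neg]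
    have hbase' : ∀ x : ℝ, b / L / 3 ≤ x → 1 / x ≤ 3 / b * L := by
      intro x hx
      rw [div_le_iff₀ (by linarith [show 0 < b / L / 3 by positivity])]
      calc (1 : ℝ) = 3 / b * L * (b / L / 3) := by field_simp
        _ ≤ 3 / b * L * x := mul_le_mul_of_nonneg_left hx (by positivity)
    have hbase : ∀ x : ℝ, b / L / 3 ≤ x → 1 + 1 / x ≤ (1 + 3 / b) * L := by
      intro x hx
      have h1 := hbase' x hx
      have h2 : (1 + 3 / b) * L = L + 3 / b * L := by ring
      rw [h2]
      linarith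
    have hAm : 0 ≤ 2 * A * (m + 1) * L := by positivity
    rcases le_or_gt (1 + b / L / 3) s.re with hcase | hcase
    · -- right part
      have h1 := (INV2_logderiv r ψ s (by linarith [show 0 < b / L / 3 by positivity])).trans
        (hvM s.re (by linarith [show 0 < b / L / 3 by positivity]) hs2)
      have h2 := hbase' (s.re - 1) (by linarith)
      have h3 : (2 * A * (m + 1) + (3 / b + C₀)) * L =
          2 * A * (m + 1) * L + (3 / b * L + C₀ * L) := by ring
      have h4 : C₀ ≤ C₀ * L := le_mul_of_one_le_right hC₀.le (by linarith)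
      rw [h3]
      linarith
    · -- left part
      have hx3 : 0 < b / L / 3 := by positivity
      set s₀ : ℂ := ⟨1 + b / L / 3, s.im⟩ with hs₀
      have hs₀re : s₀.re = 1 + b / L / 3 := rfl
      have hs₀im : s₀.im = s.im := rfl
      have hbL1 : b / L ≤ 1 / 32 := by
        rw [div_le_div_iff₀ hLpos (by norm_num)]
        linarith
      have hs0gt : 1 < s₀.re := by rw [hs₀re]; linarith
      have hf0 : ψ.LFunction s₀ ≠ 0 :=
        DirichletCharacter.LFunction_ne_zero_of_one_le_re ψ (Or.inl hψ) hs0gt.le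
      have hinv0 : ‖(ψ.LFunction s₀)⁻¹‖ ≤ (1 + 3 / b) * L := by
        have h1 := hright s₀ hs0gt
        refine h1.trans (hbase _ ?_)
        rw [hs₀re]
        linarith
      have hf0pos : 0 < ‖ψ.LFunction s₀‖ := norm_pos_iff.2 hf0
      have hnorms₀ : ‖s₀‖ ≤ 2 + (Q : ℝ) ^ 12 := by
        have h1 := Complex.norm_le_abs_re_add_abs_im s₀
        rw [hs₀re, hs₀im, abs_of_pos (by linarith)] at h1
        linarith
      have hM0 : 0 ≤ m * L := by positivity
      have hres := hloc ψ.LFunction s₀ (1 / 2) (m * L) (2 * (b / L / 3)) (by norm_num) hM0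
        (by positivity) (by linarith) (fun z _ => hf.analyticAt z) hf0 ?_ ?_ ?_ s ?_
      · obtain ⟨_, h2, _⟩ := hres
        have h4 : A * (m * L + 1) / (1 / 2) = 2 * A * (m * L + 1) := by ring
        rw [h4] at h2
        have h5 : 2 * A * (m * L + 1) ≤ 2 * A * ((m + 1) * L) := by
          refine mul_le_mul_of_nonneg_left ?_ (by positivity)
          linarith
        have h6 : (2 * A * (m + 1) + (3 / b + C₀)) * L =
          2 * A * ((m + 1) * L) + (3 / b + C₀) * L := by ring
        have h7 : 0 ≤ (3 / b + C₀) * L := by positivity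
        rw [h6]
        linarith
      · -- growth
        intro z hz
        rw [mem_closedBall, dist_eq_norm] at hz
        have hre : 1 / 2 ≤ z.re := by
          have h1 := Complex.abs_re_le_norm (z - s₀)
          rw [Complex.sub_re, hs₀re] at h1
          have h2 := neg_abs_le (z.re - (1 + b / L / 3))
          linarith
        have h1 := LFunction_bound r ψ hψ z hre
        have h2 : ‖z‖ ≤ ‖s₀‖ + 1 / 2 := by
          have := norm_add_le (z - s₀) s₀
          rw [sub_add_cancel] at this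
          linarith
        have h3 : (r : ℝ) ≤ Q := by exact_mod_cast hrQ
        have hQ12 : (10 : ℝ) ^ 12 ≤ (Q : ℝ) ^ 12 := pow_le_pow_left₀ (by norm_num) hQ10 12
        have h4 : ‖ψ.LFunction z‖ ≤ (Q : ℝ) ^ 14 := by
          calc ‖ψ.LFunction z‖ ≤ 2 * r * ‖z‖ := h1
            _ ≤ 2 * Q * (2 * (Q : ℝ) ^ 12) := by
                refine mul_le_mul (by linarith) ?_ (norm_nonneg _) (by positivity)
                norm_num at hQ12
                linarith
            _ = 4 * (Q : ℝ) ^ 13 := by ring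
            _ ≤ Q * (Q : ℝ) ^ 13 := mul_le_mul_of_nonneg_right (by linarith) (by positivity)
            _ = (Q : ℝ) ^ 14 := by ring
        have h5 : 1 ≤ ((1 + 3 / b) * L) * ‖ψ.LFunction s₀‖ := by
          rw [norm_inv, inv_le_iff_one_le_mul₀ hf0pos] at hinv0
          exact hinv0
        have h6 : (1 + 3 / b) * L ≤ (Q : ℝ) ^ 2 := by
          have h7 : L ≤ Q := by
            rw [hQexp]
            linarith [Real.add_one_le_exp L]
          calc (1 + 3 / b) * L ≤ L * L := mul_le_mul_of_nonneg_right (by linarith) hLpos.le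
            _ ≤ Q * Q := mul_le_mul h7 h7 hLpos.le hQpos.le
            _ = (Q : ℝ) ^ 2 := by ring
        have h8 : (Q : ℝ) ^ 16 ≤ Real.exp (m * L) := by
          rw [hQexp, ← Real.exp_nat_mul]
          refine Real.exp_le_exp.2 ?_
          push_cast
          exact mul_le_mul_of_nonneg_right hm16 hLpos.le
        calc ‖ψ.LFunction z‖ ≤ (Q : ℝ) ^ 14 * 1 := by rw [mul_one]; exact h4
          _ ≤ (Q : ℝ) ^ 14 * ((Q : ℝ) ^ 2 * ‖ψ.LFunction s₀‖) := by
              refine mul_le_mul_of_nonneg_left ?_ (by positivity)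
              exact h5.trans (mul_le_mul_of_nonneg_right h6 hf0pos.le)
          _ = (Q : ℝ) ^ 16 * ‖ψ.LFunction s₀‖ := by ring
          _ ≤ _ := mul_le_mul_of_nonneg_right h8 hf0pos.le
      · -- zeros
        intro ρ hρ hρ0
        have h1 := Complex.abs_im_le_norm (ρ - s₀)
        rw [Complex.sub_im, hs₀im] at h1
        have h2 : |ρ.im| ≤ (Q : ℝ) ^ 12 + 1 := by
          have h3 : |ρ.im| ≤ |ρ.im - s.im| + |s.im| := by
            have := abs_add_le (ρ.im - s.im) s.im
            rwa [sub_add_cancel] at this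
          linarith
        have h4 := hzeros ρ hρ0 h2
        rw [hs₀re]
        linarith
      · -- logarithmic derivative
        have h1 := INV2_logderiv r ψ s₀ hs0gt
        have h2 := hvM s₀.re hs0gt (by rw [hs₀re]; linarith)
        have h3 : 1 / (s₀.re - 1) = 3 / b * L := by
          have h5 : s₀.re - 1 = b / L / 3 := by rw [hs₀re]; ring
          rw [h5]
          field_simp
        rw [h3] at h2
        have h4 : (m * L + 1) / (1 / 2) = 2 * (m * L + 1) := by ring
        rw [h4]
        calc ‖deriv ψ.LFunction s₀ / ψ.LFunction s₀‖ ≤ _ := h1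
          _ ≤ 3 / b * L + C₀ := h2
          _ ≤ 2 * (m * L + 1) := by
              have h6 : 2 * (m * L + 1) = 32 * L + 2 * (3 / b * L) + 2 := by rw [hm]; ring
              have h7 : 0 ≤ 3 / b * L := by positivity
              rw [h6]
              linarith
      · rw [mem_closedBall, dist_eq_norm]
        have h1 : s - s₀ = ((s.re - (1 + b / L / 3) : ℝ) : ℂ) := by
          apply Complex.ext
          · simp [hs₀re]
          · simp [hs₀im]
        rw [h1, Complex.norm_real, Real.norm_eq_abs, abs_le]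
        constructor <;> linarith

end Pool.Agent.Lib.H59C
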