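import Pool.Agent.Lib.H68X.XPN1
import Pool.Agent.Lib.H59C.SW1

/-!
# SW2: the sum of `Λ χ` from the logarithmic derivative
-/

open Finset

namespace Pool.Agent.Lib.H59C

open Pool.Agent.Lib.H68T (PC p0 Rg Reg sw perron XPN0_core)

/-- As `H68T.pnt_sw` / `exc_sum_sw` (files `H68X/XPN0.lean`, `XPN1.lean`), but without main term:
`perron` (file `H68T/PER1.lean`) with `κ = 0`, `f = g` from `LogInv`, `T = Q^12`,
`η = min c' .../log Q`, then `XPN0_core` (which contains `unsmooth`) with `b n = Λ(n) χ(n)`. -/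
theorem psi_of_log (c' C : ℝ) (hc' : 0 < c') : ∃ K : ℝ, 1 ≤ K ∧ ∀ Q X : ℕ, Reg K Q X →
    ∀ p : PCh, 1 ≤ p.1 → LogInv c' C Q p → ∀ u : ℝ, (X : ℝ) / 8 ≤ u → u ≤ 60 * X →
    ‖∑ m ∈ Icc 1 ⌊u⌋₊, (ArithmeticFunction.vonMangoldt m : ℂ) * p.2 (m : ZMod p.1)‖ ≤
      u * sw K Q X := by
  obtain ⟨P, hP, hper⟩ := perron
  obtain ⟨K₂, hK₂1, hK₂⟩ := XPN0_core P |C| c' hP (abs_nonneg C) hc'
  refine ⟨K₂, hK₂1, fun Q X r2 p _ hlog => ?_⟩
  obtain ⟨⟨hη1, hu3, hCB, hB1, hlQ0, hQ1⟩, hcore⟩ := hK₂ Q X r2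
  obtain ⟨g, hg1, hg2, hg3⟩ := hlog
  set η : ℝ := c' / Real.log Q with hη
  have hη0 : 0 < η := by positivity
  set T : ℝ := (Q : ℝ) ^ 11 with hT
  have hT1 : 1 ≤ T := one_le_pow₀ hQ1
  have hT2 : T ≤ (Q : ℝ) ^ 12 := pow_le_pow_right₀ hQ1 (by norm_num)
  have hmem : ∀ s : ℂ, 1 - η ≤ s.re → s.re ≤ 2 → |s.im| ≤ T → s ∈ Rg c' Q := by
    intro s h1 h2 h3
    exact ⟨h1, h2, h3.trans hT2⟩
  have hf1 : AnalyticOnNhd ℂ g {s | 1 - η ≤ s.re ∧ s.re ≤ 2 ∧ |s.im| ≤ T} := by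
    intro s hs
    exact hg1 _ (hmem s hs.1 hs.2.1 hs.2.2)
  have hCC : C * Real.log Q ≤ |C| * Real.log Q :=
    mul_le_mul_of_nonneg_right (le_abs_self C) hlQ0.le
  have hnorm : ∀ n : ℕ, 1 ≤ n → ‖(ArithmeticFunction.vonMangoldt n : ℂ) * p.2 (n : ZMod p.1)‖ ≤
      1 + Real.log n := by
    intro n _
    rw [norm_mul, Complex.norm_real, Real.norm_of_nonneg ArithmeticFunction.vonMangoldt_nonneg]
    have h1 := p.2.norm_le_one (n : ZMod p.1)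
    have h2 := ArithmeticFunction.vonMangoldt_le_log (n := n)
    have h3 := ArithmeticFunction.vonMangoldt_nonneg (n := n)
    calc ArithmeticFunction.vonMangoldt n * ‖p.2 (n : ZMod p.1)‖ ≤
          ArithmeticFunction.vonMangoldt n * 1 := mul_le_mul_of_nonneg_left h1 h3
      _ ≤ 1 + Real.log n := by linarith
  refine hcore (fun n => (ArithmeticFunction.vonMangoldt n : ℂ) * p.2 (n : ZMod p.1))
    (fun n hn => hnorm n hn) (fun u hu1 hu2 => ?_)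
  have h1 := hper (fun n => (ArithmeticFunction.vonMangoldt n : ℂ) * p.2 (n : ZMod p.1)) g 0
    η T ((|C| + 1) * Real.log X) u (by simp) hη0 hη1 hT1 (by linarith) hB1 hnorm hf1
    (fun s h1 h2 h3 => ((hg3 _ (hmem s h1 h2 h3)).trans hCC).trans hCB)
    (fun s hs => by
      rw [hg2 s hs]
      ring)
  rw [zero_mul, sub_zero] at h1
  linarith

end Pool.Agent.Lib.H59C
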