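import Pool.Agent.Lib.H59C.Defs
import Pool.Agent.Lib.H59C.MER0

/-!
# Project H59C, part 3: definitions for the weighted sieve

A window is `n, N, y1, y2` (`N = 2 X`, `X` the vertex of the Goldbach graph); the sequence is `|N - p|`, `p ∈ (y1, y2]`
prime, with weights `log p`; sifting primes `PP n N p1` up to `z = n^(1/8)`; weights for the primes in `[z, y)`,
`y = (2n)^(1/3)`.
-/

open Finset

namespace Pool.Agent.Lib.H59C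

noncomputable section

/-- A window. -/
structure Win (n N y1 y2 : ℕ) : Prop where
  N0 : 0 < N
  even : 2 ∣ N
  N2 : N ≤ 2 * n
  lt : y1 < y2
  le : y2 ≤ n
  len : n ≤ 16 * (y2 - y1)
  lo : n ≤ 16 * y1
  side : (y2 < N ∧ n ≤ 8 * (N - y2)) ∨ (N ≤ y1 ∧ n ≤ 8 * (y1 - N))

/-- The primes in `(y1, y2]`. -/
def Sq (y1 y2 : ℕ) : Finset ℕ := (Ioc y1 y2).filter Nat.Prime

/-- `log p` -/
def lg (p : ℕ) : ℝ := Real.log p

/-- The total weight. -/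
def XX (y1 y2 : ℕ) : ℝ := ∑ p ∈ Sq y1 y2, lg p

/-- The odd primes up to `n` which do not divide `N` and are different from `p1`. -/
def PP (n N p1 : ℕ) : Finset ℕ := (Icc 3 n).filter (fun q => q.Prime ∧ ¬ q ∣ N ∧ q ≠ p1)

/-- The arithmetic factor. -/
def hl (N : ℕ) : ℝ := ∏ q ∈ N.primeFactors.filter (fun q => 2 < q), (((q : ℝ) - 1) / (q - 2))

/-- `z = n^(1/8)` -/
def zz (n : ℕ) : ℝ := (n : ℝ) ^ (1 / 8 : ℝ)

/-- `y = (2n)^(1/3)` -/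
def yy (n : ℕ) : ℝ := (2 * n : ℝ) ^ (1 / 3 : ℝ)

/-- The primes with weights. -/
def QQ (n N p1 : ℕ) : Finset ℕ := (PR (zz n) (yy n)).filter (fun q => q ∈ PP n N p1)

/-- `a = q1 q2 q3` with primes `z ≤ q1 < y ≤ q2 ≤ q3`. -/
def Tri (n a : ℕ) : Prop :=
  ∃ q1 q2 q3 : ℕ, q1.Prime ∧ q2.Prime ∧ q3.Prime ∧ zz n ≤ q1 ∧ (q1 : ℝ) < yy n ∧ yy n ≤ q2 ∧
    q2 ≤ q3 ∧ a = q1 * q2 * q3

/-! ## Switching -/

/-- The values of the switched sequence: `|N - m q|` to the left of `N`, `N + m q` otherwise. -/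
def bb (N y2 : ℕ) (x : ℕ × ℕ) : ℕ := if y2 < N then Nat.dist N (x.1 * x.2) else N + x.1 * x.2

/-- The pairs `(m, q)`, `m ≤ M`, `q` prime in `(u, v]`. -/
def BX (M u v : ℕ) : Finset (ℕ × ℕ) := (Icc 1 M) ×ˢ Sq u v

/-- The weight of `(m, q)`. -/
def wB (α : ℕ → ℝ) (x : ℕ × ℕ) : ℝ := α x.1 * lg x.2

/-- The total weight. -/
def XB (M u v : ℕ) (α : ℕ → ℝ) : ℝ := (∑ m ∈ Icc 1 M, α m) * XX u v

/-- The ends of the boxes. -/
def lv (δ : ℝ) (i : ℕ) : ℕ := ⌊(1 + δ) ^ i⌋₊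

open Classical in
/-- The weight of `m` in the box `(i, j)`: `m = q1 q2` with primes `z ≤ q1 < y ≤ q2 ≤ v_j`, `m` in the `i`-th
interval. -/
def al (n : ℕ) (δ : ℝ) (x : ℕ × ℕ) (m : ℕ) : ℝ :=
  if lv δ x.1 < m ∧ ∃ q1 q2 : ℕ, q1.Prime ∧ q2.Prime ∧ zz n ≤ q1 ∧ (q1 : ℝ) < yy n ∧ yy n ≤ q2 ∧
    q2 ≤ lv δ (x.2 + 1) ∧ m = q1 * q2 then 1 else 0

open Classical in
/-- The boxes which are needed: there is a pair `(m, q)` in the box with `N - m q` or `N + m q` in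
`(y1, y2]`. -/
def Rel (n N y1 y2 : ℕ) (δ : ℝ) : Finset (ℕ × ℕ) :=
  (range (⌊4 * Real.log n / δ⌋₊ + 1) ×ˢ range (⌊4 * Real.log n / δ⌋₊ + 1)).filter
    (fun x => ∃ m q p : ℕ, lv δ x.1 < m ∧ m ≤ lv δ (x.1 + 1) ∧ lv δ x.2 < q ∧ q ≤ lv δ (x.2 + 1) ∧
      q.Prime ∧ al n δ x m = 1 ∧ yy n ≤ q ∧ y1 < p ∧ p ≤ y2 ∧ Nat.dist N p = m * q)

end

theorem one_le_hl (N : ℕ) : 1 ≤ hl N := by
  unfold hl
  have h : ∏ q ∈ N.primeFactors.filter (fun q => 2 < q), (1 : ℝ) ≤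
      ∏ q ∈ N.primeFactors.filter (fun q => 2 < q), (((q : ℝ) - 1) / (q - 2)) := by
    apply Finset.prod_le_prod
    · intro i _; norm_num
    · intro i hi
      have h2 : 2 < i := (Finset.mem_filter.mp hi).2
      have h3 : (2 : ℝ) < i := by exact_mod_cast h2
      rw [le_div_iff₀ (by linarith)]
      linarith
  simpa using h

theorem mem_Sq {y1 y2 p : ℕ} : p ∈ Sq y1 y2 ↔ (y1 < p ∧ p ≤ y2) ∧ p.Prime := by
  simp [Sq]

theorem mem_PP {n N p1 q : ℕ} :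
    q ∈ PP n N p1 ↔ (3 ≤ q ∧ q ≤ n) ∧ q.Prime ∧ ¬ q ∣ N ∧ q ≠ p1 := by
  simp [PP]

end Pool.Agent.Lib.H59C
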