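import Pool.Agent.Lib.H59C.MER0
import Pool.Agent.Lib.H59C.Defs

/-!
# MER1: the sifting condition for `1/(q-1)`
-/

open Finset

namespace Pool.Agent.Lib.H59C

theorem MER1_sq (w : ℕ) (hw : 2 ≤ w) (N : ℕ) :
    ∑ n ∈ Ico w N, 1 / (n : ℝ) ^ 2 ≤ 2 / (w : ℝ) := by
  have hw0 : (2 : ℝ) ≤ w := by exact_mod_cast hw
  rcases Nat.lt_or_ge N w with h | h
  · rw [Finset.Ico_eq_empty (by omega), Finset.sum_empty]
    positivity
  have key : ∀ M : ℕ, w ≤ M → ∑ n ∈ Ico w M, 1 / (n : ℝ) ^ 2 ≤ 1 / ((w : ℝ) - 1) - 1 / ((M : ℝ) - 1) := by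
    intro M hM
    induction M, hM using Nat.le_induction with
    | base => simp
    | succ M hM ih =>
      rw [Finset.sum_Ico_succ_top hM]
      have hM0 : (2 : ℝ) ≤ M := by
        have : 2 ≤ M := by omega
        exact_mod_cast this
      have e : 1 / (M : ℝ) ^ 2 ≤ 1 / ((M : ℝ) - 1) - 1 / (((M + 1 : ℕ) : ℝ) - 1) := by
        push_cast
        have h1 : (0 : ℝ) < (M : ℝ) - 1 := by linarith
        have h2 : 1 / ((M : ℝ) - 1) - 1 / ((M : ℝ) + 1 - 1) = 1 / (((M : ℝ) - 1) * M) := by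
          rw [add_sub_cancel_right]
          field_simp
          ring
        rw [h2]
        apply one_div_le_one_div_of_le (by positivity)
        nlinarith
      linarith
  have h1 := key N h
  have h2 : 0 ≤ 1 / ((N : ℝ) - 1) := by
    have : (2 : ℝ) ≤ N := by
      have : 2 ≤ N := by omega
      exact_mod_cast this
    apply div_nonneg (by norm_num)
    linarith
  have h3 : 1 / ((w : ℝ) - 1) ≤ 2 / w := by
    rw [div_le_div_iff₀ (by linarith) (by linarith)]
    linarith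
  linarith

/-- The condition of the linear sieve for the density `1/(q-1)` on sets of large primes.

Proof. Let `2 ≤ u ≤ z`. `V(u)/V(z) = ∏_{q ∈ P, u ≤ q < z} (1 - 1/(q-1))⁻¹ ≤ ∏_{max u w0 ≤ q < z, q prime} (1 - 1/(q-1))⁻¹`,
whose logarithm is at most `∑ (1/q + 10/q²) ≤ log log z - log log (max u w0) + (C + 10)/log w0` (`mertens`), so it is
`≤ (1 + δ) log z/log (max u w0) ≤ (1 + δ) log z/log u` for `w0` large (if `z ≤ w0` the product is empty). -/
theorem om_gq (δ : ℝ) (hδ : 0 < δ) : ∃ w0 : ℕ, 5 ≤ w0 ∧ ∀ P : Finset ℕ,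
    (∀ q ∈ P, q.Prime ∧ w0 ≤ q) → Om (1 + δ) P gq := by
  obtain ⟨C, hC, hmer⟩ := mertens
  have hδ1 : 0 < Real.log (1 + δ) := Real.log_pos (by linarith)
  obtain ⟨w0, hw5, hwl⟩ : ∃ w0 : ℕ, 5 ≤ w0 ∧ C / Real.log w0 + 20 / (w0 : ℝ) ≤ Real.log (1 + δ) := by
    have t1 : Filter.Tendsto (fun w : ℕ => C / Real.log (w : ℝ)) Filter.atTop (nhds 0) :=
      Filter.Tendsto.div_atTop tendsto_const_nhds
        (Real.tendsto_log_atTop.comp tendsto_natCast_atTop_atTop)
    have t2 : Filter.Tendsto (fun w : ℕ => 20 / (w : ℝ)) Filter.atTop (nhds 0) :=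
      Filter.Tendsto.div_atTop tendsto_const_nhds tendsto_natCast_atTop_atTop
    have t3 := t1.add t2
    rw [add_zero] at t3
    have t4 := t3.eventually (ge_mem_nhds hδ1)
    obtain ⟨w, hw, hw5⟩ := (t4.and (Filter.eventually_ge_atTop 5)).exists
    exact ⟨w, hw5, hw⟩
  refine ⟨w0, hw5, fun P hP u z hu huz => ?_⟩
  have hw0' : (5 : ℝ) ≤ w0 := by exact_mod_cast hw5
  have hlu : 0 < Real.log u := Real.log_pos (by linarith)
  have hlz : 0 < Real.log z := Real.log_pos (by linarith)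
  have hluz : Real.log u ≤ Real.log z := Real.log_le_log (by linarith) huz
  -- factors
  have hfac : ∀ q ∈ P, 0 < 1 - gq q ∧ (1 - gq q)⁻¹ ≤ Real.exp (1 / (q : ℝ) + 10 * (1 / (q : ℝ) ^ 2)) := by
    intro q hq
    have hq5 : (5 : ℝ) ≤ q := by
      have : 5 ≤ q := hw5.trans (hP q hq).2
      exact_mod_cast this
    have e : 1 - gq q = ((q : ℝ) - 2) / ((q : ℝ) - 1) := by
      unfold gq
      have : (q : ℝ) - 1 ≠ 0 := by linarith
      field_simp
      ring
    have h2 : (0 : ℝ) < (q : ℝ) - 2 := by linarith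
    have h1 : (0 : ℝ) < (q : ℝ) - 1 := by linarith
    refine ⟨by rw [e]; positivity, ?_⟩
    rw [e, inv_div]
    have e2 : ((q : ℝ) - 1) / ((q : ℝ) - 2) = 1 / ((q : ℝ) - 2) + 1 := by
      field_simp
      ring
    rw [e2]
    refine (Real.add_one_le_exp _).trans (Real.exp_le_exp.2 ?_)
    have e3 : 1 / (q : ℝ) + 10 * (1 / (q : ℝ) ^ 2) = (q + 10) / (q : ℝ) ^ 2 := by
      field_simp
    rw [e3, div_le_div_iff₀ h2 (by positivity)]
    nlinarith
  -- split of the product
  have hsplit : VP P gq z = VP P gq u *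
      ∏ q ∈ P.filter (fun q : ℕ => u ≤ (q : ℝ) ∧ (q : ℝ) < z), (1 - gq q) := by
    unfold VP
    rw [← Finset.prod_union]
    · apply Finset.prod_congr _ (fun _ _ => rfl)
      ext q
      simp only [mem_filter, mem_union]
      constructor
      · rintro ⟨h1, h2⟩
        rcases lt_or_ge (q : ℝ) u with h3 | h3
        · exact Or.inl ⟨h1, h3⟩
        · exact Or.inr ⟨h1, h3, h2⟩
      · rintro (⟨h1, h2⟩ | ⟨h1, h2, h3⟩)
        · exact ⟨h1, h2.trans_le huz⟩
        · exact ⟨h1, h3⟩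
    · rw [Finset.disjoint_left]
      intro q h1 h2
      rw [mem_filter] at h1 h2
      exact absurd h1.2 (not_lt.2 h2.2.1)
  have hVu : 0 < VP P gq u := by
    unfold VP
    apply Finset.prod_pos
    intro q hq
    exact (hfac q (mem_filter.1 hq).1).1
  obtain ⟨W, hW⟩ : ∃ W, W = ∏ q ∈ P.filter (fun q : ℕ => u ≤ (q : ℝ) ∧ (q : ℝ) < z), (1 - gq q) :=
    ⟨_, rfl⟩
  rw [← hW] at hsplit
  have hW0 : 0 < W := by
    rw [hW]
    apply Finset.prod_pos
    intro q hq
    exact (hfac q (mem_filter.1 hq).1).1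
  suffices hmain : W⁻¹ ≤ (1 + δ) * (Real.log z / Real.log u) by
    rw [hsplit]
    have h1 : 1 ≤ (1 + δ) * (Real.log z / Real.log u) * W := by
      have := mul_le_mul_of_nonneg_right hmain hW0.le
      rwa [inv_mul_cancel₀ hW0.ne'] at this
    calc VP P gq u = VP P gq u * 1 := (mul_one _).symm
      _ ≤ VP P gq u * ((1 + δ) * (Real.log z / Real.log u) * W) :=
        mul_le_mul_of_nonneg_left h1 hVu.le
      _ = _ := by ring
  rcases le_or_gt z w0 with hzw | hzw
  · -- empty product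
    have hempty : P.filter (fun q : ℕ => u ≤ (q : ℝ) ∧ (q : ℝ) < z) = ∅ := by
      rw [Finset.filter_eq_empty_iff]
      rintro q hq ⟨-, h2⟩
      have : (w0 : ℝ) ≤ q := by exact_mod_cast (hP q hq).2
      linarith
    rw [hW, hempty, Finset.prod_empty, inv_one]
    have h1 : 1 ≤ Real.log z / Real.log u := by
      rw [one_le_div hlu]
      exact hluz
    nlinarith
  · have hu' : max u w0 ≤ z := max_le huz hzw.le
    have h2u' : 2 ≤ max u (w0 : ℝ) := le_max_of_le_left hu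
    have hm := (abs_le.1 (hmer (max u w0) z h2u' hu')).2
    -- the exponent
    have h1 : W⁻¹ ≤ Real.exp (∑ q ∈ P.filter (fun q : ℕ => u ≤ (q : ℝ) ∧ (q : ℝ) < z),
        (1 / (q : ℝ) + 10 * (1 / (q : ℝ) ^ 2))) := by
      rw [hW, Real.exp_sum, ← Finset.prod_inv_distrib]
      apply Finset.prod_le_prod
      · intro q hq
        exact (inv_pos.2 (hfac q (mem_filter.1 hq).1).1).le
      · intro q hq
        exact (hfac q (mem_filter.1 hq).1).2
    refine h1.trans ?_
    have h2 : ∑ q ∈ P.filter (fun q : ℕ => u ≤ (q : ℝ) ∧ (q : ℝ) < z), 1 / (q : ℝ) ≤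
        ∑ q ∈ PR (max u w0) z, 1 / (q : ℝ) := by
      apply Finset.sum_le_sum_of_subset_of_nonneg
      · intro q hq
        rw [mem_filter] at hq
        rw [mem_PR]
        refine ⟨(hP q hq.1).1, max_le hq.2.1 ?_, hq.2.2⟩
        exact_mod_cast (hP q hq.1).2
      · intro q _ _
        positivity
    have h3 : ∑ q ∈ P.filter (fun q : ℕ => u ≤ (q : ℝ) ∧ (q : ℝ) < z), 1 / (q : ℝ) ^ 2 ≤
        ∑ q ∈ Ico w0 ⌈z⌉₊, 1 / (q : ℝ) ^ 2 := by
      apply Finset.sum_le_sum_of_subset_of_nonneg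
      · intro q hq
        rw [mem_filter] at hq
        rw [mem_Ico]
        exact ⟨(hP q hq.1).2, Nat.lt_ceil.2 hq.2.2⟩
      · intro q _ _
        positivity
    have h4 := MER1_sq w0 (by omega) ⌈z⌉₊
    have hlw : 0 < Real.log w0 := Real.log_pos (by linarith)
    have hlu' : Real.log u ≤ Real.log (max u w0) := Real.log_le_log (by linarith) (le_max_left _ _)
    have hlw' : Real.log w0 ≤ Real.log (max u w0) :=
      Real.log_le_log (by linarith) (le_max_right _ _)
    have h5 : Real.log (Real.log u) ≤ Real.log (Real.log (max u w0)) := Real.log_le_log hlu hlu'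
    have h6 : C / Real.log (max u w0) ≤ C / Real.log w0 :=
      div_le_div_of_nonneg_left hC.le hlw hlw'
    have h7 : ∑ q ∈ P.filter (fun q : ℕ => u ≤ (q : ℝ) ∧ (q : ℝ) < z),
        (1 / (q : ℝ) + 10 * (1 / (q : ℝ) ^ 2)) ≤
        Real.log (Real.log z) - Real.log (Real.log u) + Real.log (1 + δ) := by
      rw [Finset.sum_add_distrib, ← Finset.mul_sum]
      have h8 : 10 * (2 / (w0 : ℝ)) = 20 / (w0 : ℝ) := by ring
      linarith
    refine (Real.exp_le_exp.2 h7).trans (le_of_eq ?_)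
    rw [Real.exp_add, Real.exp_sub, Real.exp_log hlz, Real.exp_log hlu, Real.exp_log (by linarith)]
    ring

end Pool.Agent.Lib.H59C
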