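import Pool.Agent.Lib.H59C.RW1

/-!
# RW2: Rosser's weights are sieve weights
-/

open Finset

namespace Pool.Agent.Lib.H59C

/-- Both inequalities by strong induction on `T` (for all `D`), with `SS_rec`, `h = 1`. If `T = ∅`, `SS = 1`.
Let `T ≠ ∅`, `m = min T`. Upper: `SS true D T = 1 - ∑_{p ∈ T, p³ < D} SS false (D/p) T_{<p} ≥ 1 - ∑_p 1[T_{<p} = ∅] ≥ 0`,
because `T_{<p} = ∅` only for `p = m`. Lower: `SS false D T = 1 - ∑_{p ∈ T} SS true (D/p) T_{<p}
≤ 1 - SS true (D/m) ∅ = 0`, because all the terms are `≥ 0`. -/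
theorem SS_sieve (T : Finset ℕ) : ∀ D : ℝ,
    (if T = ∅ then (1 : ℝ) else 0) ≤ SS true D T (fun _ => 1) ∧
      SS false D T (fun _ => 1) ≤ (if T = ∅ then (1 : ℝ) else 0) := by
  classical
  induction T using Finset.strongInduction with
  | H T ih =>
    intro D
    rcases T.eq_empty_or_nonempty with hT | hT
    · subst hT
      rw [RW1_empty, RW1_empty]
      simp
    have hne : T ≠ ∅ := hT.ne_empty
    rw [if_neg hne]
    have hss : ∀ p ∈ T, T.filter (fun q => q < p) ⊂ T := by
      intro p hp
      refine Finset.filter_ssubset.2 ⟨p, hp, lt_irrefl p⟩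
    set m := T.min' hT with hm
    have hmT : m ∈ T := Finset.min'_mem T hT
    have hmin : ∀ p ∈ T, m ≤ p := fun p hp => Finset.min'_le T p hp
    have hem : T.filter (fun q => q < m) = ∅ := by
      rw [Finset.filter_eq_empty_iff]
      intro q hq
      exact not_lt.2 (hmin q hq)
    have hem' : ∀ p ∈ T, p ≠ m → T.filter (fun q => q < p) ≠ ∅ := by
      intro p hp hpm h
      rw [Finset.filter_eq_empty_iff] at h
      exact h hmT (lt_of_le_of_ne (hmin p hp) (Ne.symm hpm))
    constructor
    · rw [SS_rec]
      have h1 : ∑ p ∈ T.filter (fun p : ℕ => true = true → (p : ℝ) ^ 3 < D),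
          (fun _ : ℕ => (1 : ℝ)) p * SS (!true) (D / p) (T.filter (fun q => q < p)) (fun _ => 1) ≤
          ∑ p ∈ T.filter (fun p : ℕ => true = true → (p : ℝ) ^ 3 < D),
          (if p = m then (1 : ℝ) else 0) := by
        refine Finset.sum_le_sum fun p hp => ?_
        have hpT := (Finset.mem_filter.1 hp).1
        have h2 := (ih _ (hss p hpT) (D / p)).2
        rw [one_mul]
        refine h2.trans ?_
        by_cases hpm : p = m
        · rw [if_pos hpm]
          split_ifs <;> norm_num
        · rw [if_neg hpm, if_neg (hem' p hpT hpm)]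
      have h2 : ∑ p ∈ T.filter (fun p : ℕ => true = true → (p : ℝ) ^ 3 < D),
          (if p = m then (1 : ℝ) else 0) ≤ 1 := by
        rw [Finset.sum_ite_eq']
        split_ifs <;> norm_num
      exact sub_nonneg.2 (h1.trans h2)
    · rw [SS_rec]
      have h3 : ∀ p ∈ T.filter (fun p : ℕ => false = true → (p : ℝ) ^ 3 < D),
          0 ≤ (fun _ : ℕ => (1 : ℝ)) p *
            SS (!false) (D / p) (T.filter (fun q => q < p)) (fun _ => 1) := by
        intro p hp
        have hpT := (Finset.mem_filter.1 hp).1
        have h2 := (ih _ (hss p hpT) (D / p)).1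
        rw [one_mul]
        refine le_trans ?_ h2
        split_ifs <;> norm_num
      have hmf : m ∈ T.filter (fun p : ℕ => false = true → (p : ℝ) ^ 3 < D) :=
        Finset.mem_filter.2 ⟨hmT, by simp⟩
      have h4 := Finset.single_le_sum h3 hmf
      simp only [hem, one_mul] at h4
      rw [RW1_empty] at h4
      simp only [one_mul] at *
      linarith

end Pool.Agent.Lib.H59C
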