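import Pool.Agent.Lib.H59C.Defs

/-!
# RW3: the support of Rosser's weights
-/

open Finset

namespace Pool.Agent.Lib.H59C

theorem RW3_list : ∀ (l : List ℕ) (D : ℝ), 1 < D → (∀ p ∈ l, 2 ≤ p) → l.Pairwise (· ≥ ·) →
    (adm true D l → ((l.prod : ℕ) : ℝ) < D) ∧
      ((∀ p ∈ l, (p : ℝ) < D) → adm false D l → ((l.prod : ℕ) : ℝ) < D) := by
  intro l
  induction l with
  | nil =>
    intro D hD _ _
    simp only [List.prod_nil, Nat.cast_one]
    exact ⟨fun _ => hD, fun _ _ => hD⟩
  | cons p l ih =>
    intro D hD h2 hs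
    have hp2 : 2 ≤ p := h2 p List.mem_cons_self
    have hpR : (2 : ℝ) ≤ p := by exact_mod_cast hp2
    have hp0 : (0 : ℝ) < p := by linarith
    have hl2 : ∀ q ∈ l, 2 ≤ q := fun q hq => h2 q (List.mem_cons_of_mem _ hq)
    rw [List.pairwise_cons] at hs
    have hprod : ((((p :: l).prod : ℕ)) : ℝ) = p * ((l.prod : ℕ) : ℝ) := by
      rw [List.prod_cons]
      push_cast
      ring
    rw [hprod]
    constructor
    · intro hadm
      unfold adm at hadm
      obtain ⟨h3, h4⟩ := hadm
      have h5 : (p : ℝ) * p < D := by nlinarith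
      have h6 : 1 < D / p := by
        rw [lt_div_iff₀ hp0]
        nlinarith
      have h7 : ∀ q ∈ l, (q : ℝ) < D / p := by
        intro q hq
        have h8 : (q : ℝ) ≤ p := by exact_mod_cast hs.1 q hq
        rw [lt_div_iff₀ hp0]
        nlinarith
      have h9 := (ih (D / p) h6 hl2 hs.2).2 h7 h4
      rw [lt_div_iff₀ hp0] at h9
      linarith
    · intro hlt hadm
      unfold adm at hadm
      have h5 : (p : ℝ) < D := hlt p List.mem_cons_self
      have h6 : 1 < D / p := by
        rw [lt_div_iff₀ hp0]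
        linarith
      have h9 := (ih (D / p) h6 hl2 hs.2).1 hadm
      rw [lt_div_iff₀ hp0] at h9
      linarith

/-- The product of an admissible set is less than `D`.

Proof. By induction on the list (decreasing, all entries `≥ 1`): if `adm b D (p₁ :: ... :: p_r)` then for
`b = true` and `r` odd, or `b = false` and `r` even `≥ 2`, the last condition says
`p₁ ⋯ p_(r-1) p_r³ < D`; otherwise (`r ≥ 2`) the condition for `r - 1` gives `p₁ ⋯ p_(r-2) p_(r-1)³ < D`
and `p_r ≤ p_(r-1)`; for `r = 1`, `b = false` use `p₁ < z ≤ D`; for `r = 0` `1 < D`. (In the induction the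
hypothesis `z ≤ D` has to be replaced: prove `∏ < D` for `b = true` assuming only `1 < D`, and for
`b = false` assuming `1 < D` and head `< D`; for the tail of a list with `b = true`, `p³ < D`, one has
`1 < D/p` and the head of the tail is `≤ p < D/p`.) -/
theorem adm_prod (b : Bool) (D z : ℝ) (A : Finset ℕ) (hD : 1 < D) (hz : z ≤ D)
    (hA : ∀ p ∈ A, 2 ≤ p ∧ (p : ℝ) < z) (h : adm b D (A.sort (· ≥ ·))) :
    ((∏ p ∈ A, p : ℕ) : ℝ) < D := by
  have h1 : (∏ p ∈ A, p) = (A.sort (· ≥ ·)).prod := by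
    have h2 : ((A.sort (· ≥ ·) : List ℕ) : Multiset ℕ) = A.val := Finset.sort_eq _ _
    rw [← Multiset.prod_coe, h2]
    exact (Finset.prod_val A).symm
  rw [h1]
  have h3 := RW3_list (A.sort (· ≥ ·)) D hD
    (fun p hp => (hA p ((Finset.mem_sort _).mp hp)).1) (Finset.pairwise_sort _ _)
  cases b with
  | true => exact h3.1 h
  | false =>
    exact h3.2 (fun p hp => ((hA p ((Finset.mem_sort _).mp hp)).2).trans_le hz) h

end Pool.Agent.Lib.H59C
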