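import Pool.Agent.Lib.H59C.RW1
import Pool.Agent.Lib.H59C.RW2
import Pool.Agent.Lib.H59C.RW3

/-!
# SAP: sieving a weighted sequence
-/

open Finset

namespace Pool.Agent.Lib.H59C

/-- `∑_{A ⊆ P} (-1)^|A| ∏_A f = ∏_P (1 - f)` -/
theorem SAP_leg (P : Finset ℕ) (f : ℕ → ℝ) :
    ∑ A ∈ P.powerset, (-1 : ℝ) ^ A.card * ∏ q ∈ A, f q = ∏ q ∈ P, (1 - f q) := by
  classical
  have h1 : ∏ q ∈ P, (1 - f q) = ∏ q ∈ P, (-f q + 1) :=
    Finset.prod_congr rfl fun q _ => by ring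
  rw [h1, Finset.prod_add]
  refine Finset.sum_congr rfl fun A _ => ?_
  rw [Finset.prod_const_one, mul_one, Finset.prod_neg]

/-- `SS` depends only on the values on `P`. -/
theorem SAP_congr (b : Bool) (D : ℝ) (P : Finset ℕ) (f g : ℕ → ℝ) (h : ∀ q ∈ P, f q = g q) :
    SS b D P f = SS b D P g := by
  unfold SS
  refine Finset.sum_congr rfl fun A hA => ?_
  rw [Finset.mem_powerset] at hA
  congr 1
  exact Finset.prod_congr rfl fun q hq => h q (hA hq)

theorem SAP_totient (A : Finset ℕ) (hA : ∀ q ∈ A, q.Prime) :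
    1 / (Nat.totient (∏ q ∈ A, q) : ℝ) = ∏ q ∈ A, gq q := by
  classical
  induction A using Finset.induction_on with
  | empty => simp
  | insert q A hq ih =>
    have hqp : q.Prime := hA q (Finset.mem_insert_self q A)
    have hA' : ∀ r ∈ A, r.Prime := fun r hr => hA r (Finset.mem_insert_of_mem hr)
    rw [Finset.prod_insert hq, Finset.prod_insert hq, ← ih hA']
    have hc : Nat.Coprime q (∏ r ∈ A, r) := by
      apply Nat.Coprime.prod_right
      intro r hr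
      rw [Nat.coprime_primes hqp (hA' r hr)]
      rintro rfl
      exact hq hr
    rw [Nat.totient_mul hc, Nat.totient_prime hqp]
    unfold gq
    rw [Nat.cast_mul, Nat.cast_sub hqp.one_le, Nat.cast_one]
    rw [one_div_mul_one_div]

theorem SAP_dvd (A : Finset ℕ) (hA : ∀ q ∈ A, q.Prime) (n : ℕ) :
    (∏ q ∈ A, (if q ∣ n then (1 : ℝ) else 0)) = if (∏ q ∈ A, q) ∣ n then 1 else 0 := by
  classical
  by_cases h : ∀ q ∈ A, q ∣ n
  · rw [if_pos (Finset.prod_primes_dvd n (fun q hq => (hA q hq).prime) h)]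
    exact Finset.prod_eq_one fun q hq => if_pos (h q hq)
  · push Not at h
    obtain ⟨q, hq, hqn⟩ := h
    rw [Finset.prod_eq_zero hq (if_neg hqn), if_neg]
    intro hd
    exact hqn ((Finset.dvd_prod_of_mem (fun q => q) hq).trans hd)

theorem SAP_lam_le (b : Bool) (D : ℝ) (A : Finset ℕ) : |lamR b D A| ≤ 1 := by
  unfold lamR
  split_ifs
  · rw [abs_pow, abs_neg, abs_one, one_pow]
  · simp

theorem SAP_lam_ne (b : Bool) (D : ℝ) (A : Finset ℕ) (h : lamR b D A ≠ 0) :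
    adm b D (A.sort (· ≥ ·)) := by
  unfold lamR at h
  by_contra hc
  rw [if_neg hc] at h
  exact h rfl

section

variable {ι : Type} (S : Finset ι) (w : ι → ℝ) (a : ι → ℕ)

open Classical in
/-- `W(d)` -/
noncomputable def SAP_W (d : ℕ) : ℝ := ∑ i ∈ S.filter (fun i => d ∣ a i), w i

/-- the indicator function of the divisors -/
noncomputable def SAP_de (i : ι) (q : ℕ) : ℝ := if q ∣ a i then 1 else 0

theorem SAP_expand (b : Bool) (D : ℝ) (P0 P1 : Finset ℕ) (h0 : ∀ q ∈ P0, q.Prime)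
    (h1 : ∀ q ∈ P1, q.Prime) (hdis : Disjoint P0 P1) :
    ∑ i ∈ S, w i * ((∏ q ∈ P0, (1 - SAP_de a i q)) * SS b D P1 (SAP_de a i)) =
    ∑ x ∈ P0.powerset ×ˢ P1.powerset, (-1 : ℝ) ^ x.1.card * lamR b D x.2 *
      SAP_W S w a (∏ q ∈ x.1 ∪ x.2, q) := by
  classical
  have e1 : ∀ i ∈ S, w i * ((∏ q ∈ P0, (1 - SAP_de a i q)) * SS b D P1 (SAP_de a i)) =
      ∑ x ∈ P0.powerset ×ˢ P1.powerset, (-1 : ℝ) ^ x.1.card * lamR b D x.2 *
        (if (∏ q ∈ x.1 ∪ x.2, q) ∣ a i then w i else 0) := by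
    intro i _
    rw [← SAP_leg]
    unfold SS
    rw [Finset.sum_mul_sum, ← Finset.sum_product', Finset.mul_sum]
    refine Finset.sum_congr rfl fun x hx => ?_
    rw [Finset.mem_product, Finset.mem_powerset, Finset.mem_powerset] at hx
    have hd : Disjoint x.1 x.2 := Finset.disjoint_of_subset_left hx.1
      (Finset.disjoint_of_subset_right hx.2 hdis)
    have e2 : (∏ q ∈ x.1, SAP_de a i q) * (∏ q ∈ x.2, SAP_de a i q) =
        if (∏ q ∈ x.1 ∪ x.2, q) ∣ a i then 1 else 0 := by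
      rw [← Finset.prod_union hd]
      unfold SAP_de
      rw [SAP_dvd]
      intro q hq
      rcases Finset.mem_union.1 hq with h | h
      · exact h0 q (hx.1 h)
      · exact h1 q (hx.2 h)
    calc w i * ((-1 : ℝ) ^ x.1.card * (∏ q ∈ x.1, SAP_de a i q) *
          (lamR b D x.2 * ∏ q ∈ x.2, SAP_de a i q))
        = (-1 : ℝ) ^ x.1.card * lamR b D x.2 * (w i * ((∏ q ∈ x.1, SAP_de a i q) *
          (∏ q ∈ x.2, SAP_de a i q))) := by ring
      _ = _ := by
        rw [e2, mul_ite, mul_one, mul_zero]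
  rw [Finset.sum_congr rfl e1, Finset.sum_comm]
  refine Finset.sum_congr rfl fun x _ => ?_
  rw [← Finset.mul_sum]
  congr 1
  unfold SAP_W
  rw [Finset.sum_filter]

theorem SAP_main (b : Bool) (D X : ℝ) (P0 P1 : Finset ℕ) (h0 : ∀ q ∈ P0, q.Prime)
    (h1 : ∀ q ∈ P1, q.Prime) (hdis : Disjoint P0 P1) :
    ∑ x ∈ P0.powerset ×ˢ P1.powerset, (-1 : ℝ) ^ x.1.card * lamR b D x.2 *
      (X / (Nat.totient (∏ q ∈ x.1 ∪ x.2, q) : ℝ)) =
    X * ((∏ q ∈ P0, (1 - gq q)) * SS b D P1 gq) := by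
  classical
  rw [← SAP_leg]
  unfold SS
  rw [Finset.sum_mul_sum, ← Finset.sum_product', Finset.mul_sum]
  refine Finset.sum_congr rfl fun x hx => ?_
  rw [Finset.mem_product, Finset.mem_powerset, Finset.mem_powerset] at hx
  have hd : Disjoint x.1 x.2 := Finset.disjoint_of_subset_left hx.1
    (Finset.disjoint_of_subset_right hx.2 hdis)
  have hp : ∀ q ∈ x.1 ∪ x.2, q.Prime := by
    intro q hq
    rcases Finset.mem_union.1 hq with h | h
    · exact h0 q (hx.1 h)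
    · exact h1 q (hx.2 h)
  rw [div_eq_mul_one_div, SAP_totient _ hp, Finset.prod_union hd]
  ring

theorem SAP_rem (b : Bool) (P : Finset ℕ) (hP : ∀ q ∈ P, q.Prime ∧ 3 ≤ q) (w0 : ℕ) (z D X : ℝ)
    (h1 : 1 < D) (hz : z ≤ D) (hwz : (w0 : ℝ) ≤ z) :
    |∑ x ∈ (P.filter (fun q => q < w0)).powerset ×ˢ ((P.filter (fun q => w0 ≤ q)).filter
        (fun q : ℕ => (q : ℝ) < z)).powerset, (-1 : ℝ) ^ x.1.card * lamR b D x.2 *
      (SAP_W S w a (∏ q ∈ x.1 ∪ x.2, q) - X / (Nat.totient (∏ q ∈ x.1 ∪ x.2, q) : ℝ))| ≤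
      remd S w a P z X (D * primorial w0) := by
  classical
  set P0 := P.filter (fun q => q < w0) with hP0
  set P1 := (P.filter (fun q => w0 ≤ q)).filter (fun q : ℕ => (q : ℝ) < z) with hP1
  have m0 : ∀ q ∈ P0, q ∈ P ∧ q < w0 := fun q hq => Finset.mem_filter.1 hq
  have m1 : ∀ q ∈ P1, q ∈ P ∧ w0 ≤ q ∧ (q : ℝ) < z := fun q hq => by
    rw [hP1, Finset.mem_filter, Finset.mem_filter] at hq
    exact ⟨hq.1.1, hq.1.2, hq.2⟩
  set r : ℕ → ℝ := fun d => SAP_W S w a d - X / (Nat.totient d : ℝ) with hr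
  set F := (P0.powerset ×ˢ P1.powerset).filter (fun x => adm b D (x.2.sort (· ≥ ·))) with hF
  have hFm : ∀ x ∈ F, x.1 ⊆ P0 ∧ x.2 ⊆ P1 ∧ adm b D (x.2.sort (· ≥ ·)) := by
    intro x hx
    rw [hF, Finset.mem_filter, Finset.mem_product, Finset.mem_powerset, Finset.mem_powerset] at hx
    exact ⟨hx.1.1, hx.1.2, hx.2⟩
  have s1 : |∑ x ∈ P0.powerset ×ˢ P1.powerset, (-1 : ℝ) ^ x.1.card * lamR b D x.2 *
      r (∏ q ∈ x.1 ∪ x.2, q)| ≤ ∑ x ∈ F, |r (∏ q ∈ x.1 ∪ x.2, q)| := by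
    refine (Finset.abs_sum_le_sum_abs _ _).trans ?_
    rw [hF, Finset.sum_filter]
    refine Finset.sum_le_sum fun x _ => ?_
    rw [abs_mul, abs_mul, abs_pow, abs_neg, abs_one, one_pow, one_mul]
    split_ifs with hx
    · exact mul_le_of_le_one_left (abs_nonneg _) (SAP_lam_le b D x.2)
    · have : lamR b D x.2 = 0 := by
        by_contra hc
        exact hx (SAP_lam_ne b D x.2 hc)
      rw [this, abs_zero, zero_mul]
  have hpr : ∀ x ∈ F, ∀ q ∈ x.1 ∪ x.2, q.Prime ∧ q ∈ P ∧ (q : ℝ) < z := by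
    intro x hx q hq
    obtain ⟨hx0, hx1, _⟩ := hFm x hx
    rcases Finset.mem_union.1 hq with h | h
    · obtain ⟨h3, h4⟩ := m0 q (hx0 h)
      refine ⟨(hP q h3).1, h3, ?_⟩
      have : (q : ℝ) < w0 := by exact_mod_cast h4
      linarith
    · obtain ⟨h3, h4, h5⟩ := m1 q (hx1 h)
      exact ⟨(hP q h3).1, h3, h5⟩
  have hpf : ∀ x ∈ F, (∏ q ∈ x.1 ∪ x.2, q).primeFactors = x.1 ∪ x.2 := fun x hx =>
    Nat.primeFactors_prod fun q hq => (hpr x hx q hq).1
  have hinj : Set.InjOn (fun x : Finset ℕ × Finset ℕ => ∏ q ∈ x.1 ∪ x.2, q) F := by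
    intro x hx y hy hxy
    have hxy' : x.1 ∪ x.2 = y.1 ∪ y.2 := by
      rw [← hpf x hx, ← hpf y hy]
      exact congrArg Nat.primeFactors hxy
    obtain ⟨hx0, hx1, _⟩ := hFm x hx
    obtain ⟨hy0, hy1, _⟩ := hFm y hy
    have k0 : ∀ z : Finset ℕ × Finset ℕ, z.1 ⊆ P0 → z.2 ⊆ P1 →
        (z.1 ∪ z.2).filter (fun q => q < w0) = z.1 := by
      intro z hz0 hz1
      ext q
      rw [Finset.mem_filter, Finset.mem_union]
      constructor
      · rintro ⟨h | h, h'⟩
        · exact h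
        · exact absurd h' (not_lt.2 (m1 q (hz1 h)).2.1)
      · intro h
        exact ⟨Or.inl h, (m0 q (hz0 h)).2⟩
    have k1 : ∀ z : Finset ℕ × Finset ℕ, z.1 ⊆ P0 → z.2 ⊆ P1 →
        (z.1 ∪ z.2).filter (fun q => ¬ q < w0) = z.2 := by
      intro z hz0 hz1
      ext q
      rw [Finset.mem_filter, Finset.mem_union]
      constructor
      · rintro ⟨h | h, h'⟩
        · exact absurd (m0 q (hz0 h)).2 h'
        · exact h
      · intro h
        exact ⟨Or.inr h, not_lt.2 (m1 q (hz1 h)).2.1⟩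
    refine Prod.ext ?_ ?_
    · rw [← k0 x hx0 hx1, ← k0 y hy0 hy1, hxy']
    · rw [← k1 x hx0 hx1, ← k1 y hy0 hy1, hxy']
  have s2 : ∑ x ∈ F, |r (∏ q ∈ x.1 ∪ x.2, q)| =
      ∑ d ∈ F.image (fun x : Finset ℕ × Finset ℕ => ∏ q ∈ x.1 ∪ x.2, q), |r d| := by
    rw [Finset.sum_image hinj]
  refine s1.trans (s2.le.trans ?_)
  unfold remd
  refine Finset.sum_le_sum_of_subset_of_nonneg ?_ fun d _ _ => abs_nonneg _
  intro d hd
  rw [Finset.mem_image] at hd
  obtain ⟨x, hx, rfl⟩ := hd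
  obtain ⟨hx0, hx1, hadm⟩ := hFm x hx
  rw [Finset.mem_filter, Finset.mem_Icc]
  have hpos : 0 < ∏ q ∈ x.1 ∪ x.2, q := Finset.prod_pos fun q hq => (hpr x hx q hq).1.pos
  have hdis : Disjoint x.1 x.2 := by
    rw [Finset.disjoint_left]
    intro q h3 h4
    exact absurd (m0 q (hx0 h3)).2 (not_lt.2 (m1 q (hx1 h4)).2.1)
  refine ⟨⟨hpos, ?_⟩, ?_, ?_⟩
  · refine Nat.le_floor ?_
    rw [Finset.prod_union hdis, Nat.cast_mul, mul_comm]
    have h3 : ((∏ p ∈ x.2, p : ℕ) : ℝ) < D := by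
      refine adm_prod b D z x.2 h1 hz ?_ hadm
      intro p hp
      obtain ⟨h4, h5, h6⟩ := m1 p (hx1 hp)
      exact ⟨(hP p h4).1.two_le, h6⟩
    have h4 : ∏ q ∈ x.1, q ≤ primorial w0 := by
      unfold primorial
      refine Finset.prod_le_prod_of_subset_of_one_le' ?_ ?_
      · intro q hq
        obtain ⟨h5, h6⟩ := m0 q (hx0 hq)
        rw [Finset.mem_filter, Finset.mem_range]
        exact ⟨by omega, (hP q h5).1⟩
      · intro q hq _
        exact (Finset.mem_filter.1 hq).2.one_le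
    have h5 : ((∏ q ∈ x.1, q : ℕ) : ℝ) ≤ primorial w0 := by exact_mod_cast h4
    exact mul_le_mul h3.le h5 (by positivity) (by linarith)
  · exact Finset.squarefree_prod_of_pairwise_isCoprime (by
      intro p hp q hq hpq
      exact Nat.coprime_iff_isRelPrime.1 ((Nat.coprime_primes (hpr x hx p hp).1
        (hpr x hx q hq).1).2 hpq)) (fun q hq => (hpr x hx q hq).1.squarefree)
  · intro q hq
    rw [hpf x hx] at hq
    exact (hpr x hx q hq).2

end

/-- Upper and lower bound sieve for a weighted sequence `a i`, `i ∈ S`: Legendre for the primes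
`q < w0`, Rosser's weights of level `D` for the primes `w0 ≤ q < z`.

Proof. Let `P0 = {q ∈ P, q < w0}`, `P1 = {q ∈ P, w0 ≤ q < z}`. For each `i` let `T0, T1` be the sets of the `q ∈ P0`
(`P1`) dividing `a i`. `1[T0 = ∅] 1[T1 = ∅] ≤ (∑_{A0 ⊆ T0} (-1)^|A0|) (∑_{A1 ⊆ T1} λ(A1))` with `λ = lamR true D`
(`SS_sieve`, the first factor is exactly `1[T0 = ∅] ≥ 0`), and `≥` with `lamR false D`. Sum over `i` with the weights:
`∑_{A0 ⊆ P0} ∑_{A1 ⊆ P1} (-1)^|A0| λ(A1) W(d)`, `d = ∏ A0 ∏ A1`, `W(d) = ∑_{i ∈ S, d ∣ a i} w i = X/φ(d) + r(d)`, with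
`1/φ(d) = ∏_{q ∈ A0 ∪ A1} gq q`. The main term is `X ∏_{P0} (1 - gq q) · SS _ D P1 gq`; in the remainder
`|λ| ≤ 1`, the `d` are distinct, squarefree, composed of primes of `P` below `z`, and `≤ D primorial w0`
(`adm_prod`; `∏ A0 ∣ primorial w0`). -/
theorem sap {ι : Type} (S : Finset ι) (w : ι → ℝ) (a : ι → ℕ) (hw : ∀ i ∈ S, 0 ≤ w i)
    (P : Finset ℕ) (hP : ∀ q ∈ P, q.Prime ∧ 3 ≤ q) (w0 : ℕ) (z D X : ℝ) (h1 : 1 < D) (hz : z ≤ D)
    (hwz : (w0 : ℝ) ≤ z) :
    sift S w a P z ≤ X * (VV P w0 * SS true D ((P.filter (fun q => w0 ≤ q)).filter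
        (fun q : ℕ => (q : ℝ) < z)) gq) + remd S w a P z X (D * primorial w0) ∧
    X * (VV P w0 * SS false D ((P.filter (fun q => w0 ≤ q)).filter
        (fun q : ℕ => (q : ℝ) < z)) gq) - remd S w a P z X (D * primorial w0) ≤
      sift S w a P z := by
  classical
  set P0 := P.filter (fun q => q < w0) with hP0
  set P1 := (P.filter (fun q => w0 ≤ q)).filter (fun q : ℕ => (q : ℝ) < z) with hP1
  have m0 : ∀ q, q ∈ P0 ↔ q ∈ P ∧ q < w0 := fun q => Finset.mem_filter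
  have m1 : ∀ q, q ∈ P1 ↔ q ∈ P ∧ w0 ≤ q ∧ (q : ℝ) < z := fun q => by
    rw [hP1, Finset.mem_filter, Finset.mem_filter, and_assoc]
  have hdis : Disjoint P0 P1 := by
    rw [Finset.disjoint_left]
    intro q h3 h4
    exact absurd ((m0 q).1 h3).2 (not_lt.2 ((m1 q).1 h4).2.1)
  have p0 : ∀ q ∈ P0, q.Prime := fun q hq => (hP q ((m0 q).1 hq).1).1
  have p1 : ∀ q ∈ P1, q.Prime := fun q hq => (hP q ((m1 q).1 hq).1).1
  have hVV : VV P w0 = ∏ q ∈ P0, (1 - gq q) := by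
    unfold VV VP
    refine Finset.prod_congr ?_ fun q _ => rfl
    ext q
    rw [m0, Finset.mem_filter, Nat.cast_lt]
  -- the sum for both signs
  have key : ∀ b : Bool,
      |∑ i ∈ S, w i * ((∏ q ∈ P0, (1 - SAP_de a i q)) * SS b D P1 (SAP_de a i)) -
        X * (VV P w0 * SS b D P1 gq)| ≤ remd S w a P z X (D * primorial w0) := by
    intro b
    have h3 := SAP_rem S w a b P hP w0 z D X h1 hz hwz
    rw [SAP_expand S w a b D P0 P1 p0 p1 hdis, hVV, ← SAP_main b D X P0 P1 p0 p1 hdis,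
      ← Finset.sum_sub_distrib]
    refine le_trans (le_of_eq ?_) h3
    congr 1
    refine Finset.sum_congr rfl fun x _ => ?_
    ring
  -- the indicator functions
  have hprod : ∀ i, ∏ q ∈ P0, (1 - SAP_de a i q) = if ∀ q ∈ P0, ¬ q ∣ a i then 1 else 0 := by
    intro i
    split_ifs with h
    · refine Finset.prod_eq_one fun q hq => ?_
      unfold SAP_de
      rw [if_neg (h q hq), sub_zero]
    · push Not at h
      obtain ⟨q, hq, hqi⟩ := h
      refine Finset.prod_eq_zero hq ?_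
      unfold SAP_de
      rw [if_pos hqi, sub_self]
  have hSS : ∀ b i, SS b D P1 (SAP_de a i) =
      SS b D (P1.filter (fun q => q ∣ a i)) (fun _ => 1) := by
    intro b i
    rw [← SS_restrict b D P1 _ (Finset.filter_subset _ _)]
    refine SAP_congr b D P1 _ _ fun q hq => ?_
    unfold SAP_de
    by_cases h : q ∣ a i
    · rw [if_pos h, if_pos (Finset.mem_filter.2 ⟨hq, h⟩)]
    · have h' : q ∉ P1.filter (fun q => q ∣ a i) := fun hh => h (Finset.mem_filter.1 hh).2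
      rw [if_neg h, if_neg h']
  have hsift : sift S w a P z = ∑ i ∈ S, w i * ((if ∀ q ∈ P0, ¬ q ∣ a i then 1 else 0) *
      (if P1.filter (fun q => q ∣ a i) = ∅ then 1 else 0)) := by
    unfold sift
    rw [Finset.sum_filter]
    refine Finset.sum_congr rfl fun i _ => ?_
    by_cases h0 : ∀ q ∈ P0, ¬ q ∣ a i
    · by_cases h2 : P1.filter (fun q => q ∣ a i) = ∅
      · rw [if_pos h0, if_pos h2, mul_one, mul_one, if_pos]
        intro q hq hqz
        rw [Finset.filter_eq_empty_iff] at h2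
        rcases lt_or_ge q w0 with h | h
        · exact h0 q ((m0 q).2 ⟨hq, h⟩)
        · exact h2 ((m1 q).2 ⟨hq, h, hqz⟩)
      · rw [if_neg h2, mul_zero, mul_zero, if_neg]
        intro hc
        apply h2
        rw [Finset.filter_eq_empty_iff]
        intro q hq
        exact hc q ((m1 q).1 hq).1 ((m1 q).1 hq).2.2
    · rw [if_neg h0, zero_mul, mul_zero, if_neg]
      intro hc
      apply h0
      intro q hq
      refine hc q ((m0 q).1 hq).1 ?_
      have : (q : ℝ) < w0 := by exact_mod_cast ((m0 q).1 hq).2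
      linarith
  have hup : sift S w a P z ≤
      ∑ i ∈ S, w i * ((∏ q ∈ P0, (1 - SAP_de a i q)) * SS true D P1 (SAP_de a i)) := by
    rw [hsift]
    refine Finset.sum_le_sum fun i hi => mul_le_mul_of_nonneg_left ?_ (hw i hi)
    rw [hprod, hSS]
    refine mul_le_mul_of_nonneg_left (SS_sieve _ D).1 ?_
    split_ifs <;> norm_num
  have hlo : ∑ i ∈ S, w i * ((∏ q ∈ P0, (1 - SAP_de a i q)) * SS false D P1 (SAP_de a i)) ≤
      sift S w a P z := by
    rw [hsift]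
    refine Finset.sum_le_sum fun i hi => mul_le_mul_of_nonneg_left ?_ (hw i hi)
    rw [hprod, hSS]
    refine mul_le_mul_of_nonneg_left (SS_sieve _ D).2 ?_
    split_ifs <;> norm_num
  have k1 := abs_le.1 (key true)
  have k2 := abs_le.1 (key false)
  constructor <;> linarith [k1.1, k1.2, k2.1, k2.2]

end Pool.Agent.Lib.H59C
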