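import Pool.Agent.Lib.H59C.LIN
import Pool.Agent.Lib.H59C.MER1
import Pool.Agent.Lib.H59C.SAP

/-!
# JR: the theorem of Jurkat and Richert for the density `1/(q-1)`
-/

open Finset

namespace Pool.Agent.Lib.H59C

/-- The constant `A` of the linear sieve (in fact `2 e^γ`). -/
noncomputable def AA : ℝ := Classical.choose linear_sieve

theorem AA_pos : 0 < AA := (Classical.choose_spec linear_sieve).1

/-- **Jurkat-Richert.** From `sap` with `w0` given by `om_gq δ`, `δ` by `linear_sieve ε`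
(`VV P z = VV P w0 * VP (P.filter (w0 ≤ ·)) gq z`), `Q0 = primorial w0`, `z0 = max w0 2`. -/
theorem jr (ε : ℝ) (hε : 0 < ε) : ∃ Q0 : ℕ, 1 ≤ Q0 ∧ ∃ z0 : ℝ, 2 ≤ z0 ∧
    ∀ P : Finset ℕ, (∀ q ∈ P, q.Prime ∧ 3 ≤ q) → ∀ z D : ℝ, z0 ≤ z → z ≤ D →
    ∀ {ι : Type} (S : Finset ι) (w : ι → ℝ) (a : ι → ℕ) (X : ℝ), 0 ≤ X → (∀ i ∈ S, 0 ≤ w i) →
    (Real.log D ≤ 3 * Real.log z →
      sift S w a P z ≤ X * VV P z * (AA / (Real.log D / Real.log z) + ε) +
        remd S w a P z X (D * Q0)) ∧
    (2 * Real.log z ≤ Real.log D → Real.log D ≤ 4 * Real.log z →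
      X * VV P z * (AA * Real.log (Real.log D / Real.log z - 1) / (Real.log D / Real.log z) - ε) -
        remd S w a P z X (D * Q0) ≤ sift S w a P z) := by
  classical
  obtain ⟨δ, hδ, hlin⟩ := (Classical.choose_spec linear_sieve).2 ε hε
  obtain ⟨w0, hw0, hom⟩ := om_gq δ hδ
  refine ⟨primorial w0, Nat.one_le_iff_ne_zero.mpr (primorial_pos w0).ne', max w0 2,
    le_max_right _ _, ?_⟩
  intro P hP z D hz hzD ι S w a X hX hw
  have hz2 : 2 ≤ z := le_trans (le_max_right _ _) hz
  have hwz : (w0 : ℝ) ≤ z := le_trans (le_max_left _ _) hz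
  have hD1 : 1 < D := by linarith
  obtain ⟨P1, hP1⟩ : ∃ P1 : Finset ℕ, P1 = P.filter (fun q => w0 ≤ q) := ⟨_, rfl⟩
  have hP1p : ∀ q ∈ P1, q.Prime ∧ w0 ≤ q := by
    intro q hq
    rw [hP1, mem_filter] at hq
    exact ⟨(hP q hq.1).1, hq.2⟩
  have hg : ∀ q ∈ P, 2 ≤ q ∧ 0 ≤ gq q ∧ gq q < 1 := by
    intro q hq
    have h3 := (hP q hq).2
    have h3' : (3 : ℝ) ≤ q := by exact_mod_cast h3
    refine ⟨by omega, ?_, ?_⟩
    · unfold gq
      apply div_nonneg zero_le_one
      linarith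
    · unfold gq
      rw [div_lt_one (by linarith)]
      linarith
  have hg1 : ∀ q ∈ P1, 2 ≤ q ∧ 0 ≤ gq q ∧ gq q < 1 := by
    intro q hq
    rw [hP1, mem_filter] at hq
    exact hg q hq.1
  have hOm : Om (1 + δ) P1 gq := hom P1 hP1p
  obtain ⟨hup, hlo⟩ := hlin P1 gq hg1 hOm D z hz2 hzD
  obtain ⟨sup, slo⟩ := sap S w a hw P hP w0 z D X hD1 hzD hwz
  rw [← hP1] at sup slo
  have hVsplit : VV P z = VV P w0 * VP P1 gq z := by
    unfold VV VP
    rw [hP1, filter_filter]
    have e1 : P.filter (fun q : ℕ => (q : ℝ) < (w0 : ℝ)) =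
        (P.filter (fun q : ℕ => (q : ℝ) < z)).filter (fun q : ℕ => ¬ w0 ≤ q) := by
      ext q
      simp only [mem_filter, not_le, Nat.cast_lt]
      constructor
      · rintro ⟨h1, h2⟩
        have : (q : ℝ) < w0 := by exact_mod_cast h2
        exact ⟨⟨h1, by linarith⟩, h2⟩
      · rintro ⟨⟨h1, _⟩, h2⟩
        exact ⟨h1, h2⟩
    have e2 : P.filter (fun q : ℕ => w0 ≤ q ∧ (q : ℝ) < z) =
        (P.filter (fun q : ℕ => (q : ℝ) < z)).filter (fun q : ℕ => w0 ≤ q) := by
      ext q
      simp only [mem_filter]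
      tauto
    rw [e1, e2, mul_comm]
    exact (prod_filter_mul_prod_filter_not _ _ _).symm
  have hV0 : 0 ≤ VV P w0 := by
    unfold VV VP
    apply prod_nonneg
    intro q hq
    have := (hg q (mem_filter.mp hq).1).2.2
    linarith
  have hA : AA = Classical.choose linear_sieve := rfl
  constructor
  · intro h3
    have h4 := hup h3
    rw [← hA] at h4
    refine sup.trans ?_
    have h5 : X * (VV P w0 * SS true D (P1.filter (fun q : ℕ => (q : ℝ) < z)) gq) ≤
        X * VV P z * (AA / (Real.log D / Real.log z) + ε) := by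
      rw [hVsplit]
      calc X * (VV P w0 * SS true D (P1.filter (fun q : ℕ => (q : ℝ) < z)) gq)
          ≤ X * (VV P w0 * (VP P1 gq z * (AA / (Real.log D / Real.log z) + ε))) := by
            apply mul_le_mul_of_nonneg_left _ hX
            exact mul_le_mul_of_nonneg_left h4 hV0
        _ = X * (VV P w0 * VP P1 gq z) * (AA / (Real.log D / Real.log z) + ε) := by ring
    linarith
  · intro h2 h4
    have h5 := hlo h2 h4
    rw [← hA] at h5
    refine le_trans ?_ slo
    have h6 : X * VV P z * (AA * Real.log (Real.log D / Real.log z - 1) /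
        (Real.log D / Real.log z) - ε) ≤
        X * (VV P w0 * SS false D (P1.filter (fun q : ℕ => (q : ℝ) < z)) gq) := by
      rw [hVsplit]
      calc X * (VV P w0 * VP P1 gq z) * (AA * Real.log (Real.log D / Real.log z - 1) /
            (Real.log D / Real.log z) - ε)
          = X * (VV P w0 * (VP P1 gq z * (AA * Real.log (Real.log D / Real.log z - 1) /
            (Real.log D / Real.log z) - ε))) := by ring
        _ ≤ X * (VV P w0 * SS false D (P1.filter (fun q : ℕ => (q : ℝ) < z)) gq) := by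
            apply mul_le_mul_of_nonneg_left _ hX
            exact mul_le_mul_of_nonneg_left h5 hV0
    linarith

end Pool.Agent.Lib.H59C
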