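import Pool.Agent.Lib.H59C.CDefs

/-!
# CDL: the logarithm of the level of distribution, and other elementary asymptotics
-/

open Finset Filter

namespace Pool.Agent.Lib.H59C

theorem cdl_log_pow (B : ℕ) (C η : ℝ) (hC : 0 < C) (hη : 0 < η) : ∃ n0 : ℕ, ∀ n : ℕ, n0 ≤ n →
    C * Real.log n ^ B ≤ (n : ℝ) ^ η := by
  have h1 := isLittleO_log_rpow_rpow_atTop (B : ℝ) hη
  have h2 := h1.def (c := 1 / C) (by positivity)
  have h3 := (tendsto_natCast_atTop_atTop (R := ℝ)).eventually h2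
  obtain ⟨n0, hn0⟩ := eventually_atTop.mp h3
  refine ⟨max n0 3, fun n hn => ?_⟩
  have hn3 : 3 ≤ n := le_trans (le_max_right _ _) hn
  have h4 := hn0 n (le_trans (le_max_left _ _) hn)
  have hn' : (1 : ℝ) ≤ n := by exact_mod_cast (by omega : 1 ≤ n)
  have hl : 0 ≤ Real.log n := Real.log_nonneg hn'
  rw [Real.rpow_natCast, Real.norm_of_nonneg (by positivity),
    Real.norm_of_nonneg (by positivity)] at h4
  calc C * Real.log n ^ B ≤ C * (1 / C * (n : ℝ) ^ η) := by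
        apply mul_le_mul_of_nonneg_left h4 hC.le
    _ = (n : ℝ) ^ η := by field_simp

/-- The logarithm of the level of distribution. -/
theorem dd_log (B Q0 : ℕ) (hQ : 1 ≤ Q0) (η : ℝ) (hη : 0 < η) : ∃ n0 : ℕ, ∀ n : ℕ, n0 ≤ n →
    1 ≤ DD n B ∧ (1 / 2 - η) * Real.log n ≤ Real.log ((DD n B : ℝ) / Q0) ∧
    Real.log ((DD n B : ℝ) / Q0) ≤ 1 / 2 * Real.log n ∧ (0 : ℝ) < (DD n B : ℝ) / Q0 := by
  obtain ⟨θ, hθ⟩ : ∃ θ : ℝ, θ = min η (1 / 4) := ⟨_, rfl⟩
  have hθ0 : 0 < θ := by rw [hθ]; exact lt_min hη (by norm_num)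
  have hθη : θ ≤ η := by rw [hθ]; exact min_le_left _ _
  have hθ4 : θ ≤ 1 / 4 := by rw [hθ]; exact min_le_right _ _
  have hQ' : (1 : ℝ) ≤ Q0 := by exact_mod_cast hQ
  obtain ⟨n0, hn0⟩ := cdl_log_pow B (2 * Q0) θ (by positivity) hθ0
  refine ⟨max n0 3, fun n hn => ?_⟩
  have hn3 : 3 ≤ n := le_trans (le_max_right _ _) hn
  have h4 := hn0 n (le_trans (le_max_left _ _) hn)
  have hn' : (3 : ℝ) ≤ n := by exact_mod_cast hn3
  have hl : 1 ≤ Real.log n := by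
    rw [Real.le_log_iff_exp_le (by linarith)]
    have := Real.exp_one_lt_d9
    linarith
  have hLB : 1 ≤ Real.log n ^ B := one_le_pow₀ hl
  have hx : 2 * Q0 * (n : ℝ) ^ (1 / 2 - θ) ≤ Real.sqrt n / Real.log n ^ B := by
    rw [le_div_iff₀ (by positivity)]
    calc 2 * Q0 * (n : ℝ) ^ (1 / 2 - θ) * Real.log n ^ B
        = (2 * Q0 * Real.log n ^ B) * (n : ℝ) ^ (1 / 2 - θ) := by ring
      _ ≤ (n : ℝ) ^ θ * (n : ℝ) ^ (1 / 2 - θ) :=
          mul_le_mul_of_nonneg_right h4 (by positivity)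
      _ = Real.sqrt n := by
          rw [← Real.rpow_add (by linarith), Real.sqrt_eq_rpow]
          congr 1
          ring
  have hpow : 1 ≤ (n : ℝ) ^ (1 / 2 - θ) := Real.one_le_rpow (by linarith) (by linarith)
  have hx1 : 2 ≤ Real.sqrt n / Real.log n ^ B := by
    refine le_trans ?_ hx
    nlinarith
  have hfl : Real.sqrt n / Real.log n ^ B < (DD n B : ℝ) + 1 := Nat.lt_floor_add_one _
  have hfl2 : (DD n B : ℝ) ≤ Real.sqrt n / Real.log n ^ B := Nat.floor_le (by positivity)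
  have hD : (Q0 : ℝ) * (n : ℝ) ^ (1 / 2 - θ) ≤ DD n B := by linarith
  have hD1 : (1 : ℝ) ≤ DD n B := by linarith
  have hpos : (0 : ℝ) < (DD n B : ℝ) / Q0 := by positivity
  refine ⟨by exact_mod_cast hD1, ?_, ?_, hpos⟩
  · have h5 : (n : ℝ) ^ (1 / 2 - θ) ≤ (DD n B : ℝ) / Q0 := by
      rw [le_div_iff₀ (by linarith)]
      linarith
    have h6 := Real.log_le_log (by positivity) h5
    rw [Real.log_rpow (by linarith)] at h6
    have h7 : (1 / 2 - η) * Real.log n ≤ (1 / 2 - θ) * Real.log n := by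
      apply mul_le_mul_of_nonneg_right (by linarith) (by linarith)
    linarith
  · have h5 : (DD n B : ℝ) / Q0 ≤ Real.sqrt n := by
      calc (DD n B : ℝ) / Q0 ≤ DD n B := div_le_self (by positivity) hQ'
        _ ≤ Real.sqrt n / Real.log n ^ B := hfl2
        _ ≤ Real.sqrt n := div_le_self (Real.sqrt_nonneg _) hLB
    have h6 := Real.log_le_log hpos h5
    rw [Real.log_sqrt (by linarith)] at h6
    linarith

theorem cdl_zz (M : ℝ) : ∃ n0 : ℕ, ∀ n : ℕ, n0 ≤ n → M ≤ zz n := by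
  have h1 : Tendsto (fun n : ℕ => (n : ℝ) ^ (1 / 8 : ℝ)) atTop atTop :=
    (tendsto_rpow_atTop (by norm_num : (0 : ℝ) < 1 / 8)).comp tendsto_natCast_atTop_atTop
  obtain ⟨n0, hn0⟩ := eventually_atTop.mp (h1.eventually_ge_atTop M)
  exact ⟨n0, fun n hn => hn0 n hn⟩

theorem cdl_log (M : ℝ) : ∃ n0 : ℕ, ∀ n : ℕ, n0 ≤ n → M ≤ Real.log n := by
  have h1 : Tendsto (fun n : ℕ => Real.log (n : ℝ)) atTop atTop :=
    Real.tendsto_log_atTop.comp tendsto_natCast_atTop_atTop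
  obtain ⟨n0, hn0⟩ := eventually_atTop.mp (h1.eventually_ge_atTop M)
  exact ⟨n0, fun n hn => hn0 n hn⟩

theorem log_zz (n : ℕ) (hn : 0 < n) : Real.log (zz n) = 1 / 8 * Real.log n := by
  unfold zz
  rw [Real.log_rpow (by exact_mod_cast hn)]

end Pool.Agent.Lib.H59C
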