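import Pool.Agent.Lib.H59C.MER0
import Pool.Agent.Lib.H59C.Defs

/-!
# MER2: ratio of two sifting products
-/

open Finset

namespace Pool.Agent.Lib.H59C

theorem MER2_card (n N : ℕ) (z : ℝ) (hn : 2 ≤ n) (hN : 0 < N) (hNn : N ≤ n ^ 3)
    (hz : (n : ℝ) ^ (1 / 20 : ℝ) ≤ z) :
    (N.primeFactors.filter (fun q : ℕ => z ≤ (q : ℝ))).card ≤ 60 := by
  classical
  set T := N.primeFactors.filter (fun q : ℕ => z ≤ (q : ℝ)) with hT
  have hn1 : (1 : ℝ) < n := by exact_mod_cast (show 1 < n by omega)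
  have hy : (1 : ℝ) < (n : ℝ) ^ (1 / 20 : ℝ) := Real.one_lt_rpow hn1 (by norm_num)
  have h1 : ∏ q ∈ T, q ∣ N := by
    refine (Finset.prod_dvd_prod_of_subset _ _ _ (Finset.filter_subset _ _)).trans ?_
    exact Nat.prod_primeFactors_dvd N
  have h2 : ∏ q ∈ T, q ≤ n ^ 3 := (Nat.le_of_dvd hN h1).trans hNn
  have h3 : ((n : ℝ) ^ (1 / 20 : ℝ)) ^ T.card ≤ ((∏ q ∈ T, q : ℕ) : ℝ) := by
    rw [Nat.cast_prod, ← Finset.prod_const]
    refine Finset.prod_le_prod (fun q _ => by positivity) fun q hq => ?_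
    exact hz.trans (Finset.mem_filter.1 hq).2
  have h4 : ((∏ q ∈ T, q : ℕ) : ℝ) ≤ (n : ℝ) ^ 3 := by exact_mod_cast h2
  have h5 : (n : ℝ) ^ 3 = ((n : ℝ) ^ (1 / 20 : ℝ)) ^ 60 := by
    rw [← Real.rpow_natCast ((n : ℝ) ^ (1 / 20 : ℝ)), ← Real.rpow_mul (by linarith),
      ← Real.rpow_natCast]
    norm_num
  rw [h5] at h4
  exact (pow_le_pow_iff_right₀ hy).1 (h3.trans h4)

/-- `n` large. -/
theorem MER2_large (C δ : ℝ) (hC : 0 < C) (hδ : 0 < δ) : ∃ n0 : ℕ, ∀ n : ℕ, n0 ≤ n → 2 ≤ n ∧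
    ∀ z : ℝ, (n : ℝ) ^ (1 / 20 : ℝ) ≤ z → 4 ≤ z ∧ C / Real.log z ≤ δ := by
  refine ⟨⌈Real.exp (20 * (C / δ + 2))⌉₊, fun n hn => ?_⟩
  have h1 : Real.exp (20 * (C / δ + 2)) ≤ n := (Nat.le_ceil _).trans (by exact_mod_cast hn)
  have hn0 : (0 : ℝ) < n := (Real.exp_pos _).trans_le h1
  have h2 : 20 * (C / δ + 2) ≤ Real.log n := (Real.le_log_iff_exp_le hn0).2 h1
  have hcd : 0 < C / δ := by positivity
  have h3 : 2 ≤ n := by
    have h4 : (20 * (C / δ + 2)) + 1 ≤ n := (Real.add_one_le_exp _).trans h1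
    have h5 : (2 : ℝ) ≤ n := by linarith
    exact_mod_cast h5
  refine ⟨h3, fun z hz => ?_⟩
  have h4 : Real.log ((n : ℝ) ^ (1 / 20 : ℝ)) = 1 / 20 * Real.log n := Real.log_rpow hn0 _
  have h5 : C / δ + 2 ≤ Real.log z := by
    have h6 := Real.log_le_log (by positivity) hz
    rw [h4] at h6
    linarith
  have hz0 : 0 < z := (show (0 : ℝ) < (n : ℝ) ^ (1 / 20 : ℝ) by positivity).trans_le hz
  constructor
  · have h6 : Real.exp 2 ≤ z := (Real.le_log_iff_exp_le hz0).1 (by linarith)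
    have h7 : (4 : ℝ) ≤ Real.exp 2 := by
      have h8 := Real.add_one_le_exp (1 : ℝ)
      have h9 : Real.exp 2 = Real.exp 1 * Real.exp 1 := by rw [← Real.exp_add]; norm_num
      rw [h9]
      nlinarith
    linarith
  · rw [div_le_iff₀ (by linarith)]
    have h6 : C = δ * (C / δ) := by field_simp
    nlinarith

/-- Upper bound of `V(z')` by `V(z)`, when `P` contains all primes in `[z, z')` not dividing `N`.

Proof. `V(z')/V(z) = ∏_{q ∈ P, z ≤ q < z'} (1 - 1/(q-1)) ≤ ∏_{z ≤ q < z'} (1 - 1/q) · ∏_{q ∣ N, q ≥ z} (1 - 1/q)⁻¹`; at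
most `60` primes `≥ z ≥ n^(1/20)` divide `N ≤ n^3`, so the last product is `≤ (1 - 1/z)^(-60) ≤ 1 + ε/3`, and the first
one is `≤ exp (-∑ 1/q) ≤ (log z/log z') exp (C/log z)` (`mertens`). -/
theorem ratio_VV (ε : ℝ) (hε : 0 < ε) : ∃ n0 : ℕ, ∀ n : ℕ, n0 ≤ n → ∀ (P : Finset ℕ) (N : ℕ)
    (z z' : ℝ), 0 < N → N ≤ n ^ 3 → (n : ℝ) ^ (1 / 20 : ℝ) ≤ z → z ≤ z' → z' ≤ n →
    (∀ q ∈ P, q.Prime ∧ 3 ≤ q) → (∀ q : ℕ, q.Prime → z ≤ q → (q : ℝ) < z' → q ∈ P ∨ q ∣ N) →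
    VV P z' ≤ (1 + ε) * (Real.log z / Real.log z') * VV P z := by
  classical
  obtain ⟨C, hC, hmer⟩ := mertens
  obtain ⟨n0, hn0⟩ := MER2_large (C + 60) (Real.log (1 + ε)) (by linarith)
    (Real.log_pos (by linarith))
  refine ⟨n0, fun n hn P N z z' hN hNn hz hzz _ hP hPN => ?_⟩
  obtain ⟨hn2, hlarge⟩ := hn0 n hn
  obtain ⟨hz4, hzC⟩ := hlarge z hz
  have hlz : 0 < Real.log z := Real.log_pos (by linarith)
  have hlz' : 0 < Real.log z' := Real.log_pos (by linarith)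
  -- positivity of the factors
  have hfac : ∀ q ∈ P, 0 < 1 - gq q ∧ 1 - gq q ≤ Real.exp (-(1 / (q : ℝ))) := by
    intro q hq
    have h3 : (3 : ℝ) ≤ q := by exact_mod_cast (hP q hq).2
    unfold gq
    have h4 : 1 / ((q : ℝ) - 1) ≤ 1 / 2 := one_div_le_one_div_of_le (by norm_num) (by linarith)
    have h5 : 1 / (q : ℝ) ≤ 1 / ((q : ℝ) - 1) := one_div_le_one_div_of_le (by linarith) (by linarith)
    have h6 := Real.add_one_le_exp (-(1 / (q : ℝ)))
    constructor <;> linarith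
  set T := P.filter (fun q : ℕ => z ≤ (q : ℝ) ∧ (q : ℝ) < z') with hT
  have hsplit : VV P z' = VV P z * ∏ q ∈ T, (1 - gq q) := by
    unfold VV VP
    rw [← Finset.prod_union]
    · refine Finset.prod_congr ?_ fun q _ => rfl
      ext q
      rw [Finset.mem_union, hT, Finset.mem_filter, Finset.mem_filter, Finset.mem_filter]
      constructor
      · rintro ⟨h3, h4⟩
        rcases lt_or_ge (q : ℝ) z with h5 | h5
        · exact Or.inl ⟨h3, h5⟩
        · exact Or.inr ⟨h3, h5, h4⟩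
      · rintro (⟨h3, h4⟩ | ⟨h3, h4, h5⟩)
        · exact ⟨h3, h4.trans_le hzz⟩
        · exact ⟨h3, h5⟩
    · rw [Finset.disjoint_left]
      intro q h3 h4
      rw [hT, Finset.mem_filter] at h4
      exact absurd (Finset.mem_filter.1 h3).2 (not_lt.2 h4.2.1)
  have hV0 : 0 ≤ VV P z := by
    unfold VV VP
    exact Finset.prod_nonneg fun q hq => (hfac q (Finset.mem_filter.1 hq).1).1.le
  have hR : ∏ q ∈ T, (1 - gq q) ≤ Real.exp (-∑ q ∈ T, 1 / (q : ℝ)) := by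
    rw [← Finset.sum_neg_distrib, Real.exp_sum]
    exact Finset.prod_le_prod (fun q hq => (hfac q (Finset.mem_filter.1 hq).1).1.le)
      fun q hq => (hfac q (Finset.mem_filter.1 hq).1).2
  set U := N.primeFactors.filter (fun q : ℕ => z ≤ (q : ℝ)) with hU
  have hUcard := MER2_card n N z hn2 hN hNn hz
  have hUsum : ∑ q ∈ U, 1 / (q : ℝ) ≤ 60 / Real.log z := by
    have h3 : ∑ q ∈ U, 1 / (q : ℝ) ≤ ∑ q ∈ U, 1 / Real.log z := by
      refine Finset.sum_le_sum fun q hq => one_div_le_one_div_of_le hlz ?_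
      have h4 := (Finset.mem_filter.1 hq).2
      have h5 := Real.log_le_sub_one_of_pos (show (0 : ℝ) < z by linarith)
      linarith
    refine h3.trans ?_
    rw [Finset.sum_const, nsmul_eq_mul, mul_one_div]
    refine div_le_div_of_nonneg_right ?_ hlz.le
    exact_mod_cast hUcard
  have hsum : ∑ q ∈ PR z z', 1 / (q : ℝ) ≤ ∑ q ∈ T, 1 / (q : ℝ) + ∑ q ∈ U, 1 / (q : ℝ) := by
    have hsub : PR z z' ⊆ T ∪ U := by
      intro q hq
      rw [mem_PR] at hq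
      rw [Finset.mem_union, hT, hU, Finset.mem_filter, Finset.mem_filter, Nat.mem_primeFactors]
      rcases hPN q hq.1 hq.2.1 hq.2.2 with h3 | h3
      · exact Or.inl ⟨h3, hq.2.1, hq.2.2⟩
      · exact Or.inr ⟨⟨hq.1, h3, hN.ne'⟩, hq.2.1⟩
    refine (Finset.sum_le_sum_of_subset_of_nonneg hsub fun q _ _ => by positivity).trans ?_
    have h3 := Finset.sum_union_inter (s₁ := T) (s₂ := U) (f := fun q : ℕ => 1 / (q : ℝ))
    have h4 : 0 ≤ ∑ q ∈ T ∩ U, 1 / (q : ℝ) := Finset.sum_nonneg fun q _ => by positivity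
    linarith
  have hm := hmer z z' (by linarith) hzz
  rw [abs_le] at hm
  have h7 : -∑ q ∈ T, 1 / (q : ℝ) ≤
      Real.log (Real.log z) - Real.log (Real.log z') + Real.log (1 + ε) := by
    have e : (C + 60) / Real.log z = C / Real.log z + 60 / Real.log z := by ring
    rw [e] at hzC
    linarith [hm.1, hm.2]
  have h8 : ∏ q ∈ T, (1 - gq q) ≤ (1 + ε) * (Real.log z / Real.log z') := by
    refine (hR.trans (Real.exp_le_exp.2 h7)).trans (le_of_eq ?_)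
    rw [Real.exp_add, Real.exp_sub, Real.exp_log hlz, Real.exp_log hlz',
      Real.exp_log (by linarith)]
    ring
  rw [hsplit, mul_comm]
  exact mul_le_mul_of_nonneg_right h8 hV0

end Pool.Agent.Lib.H59C
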