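import Pool.Agent.Lib.H59C.MER0
import Pool.Agent.Lib.H59C.Defs
import Pool.Agent.Lib.H59C.MER2

/-!
# MER3: lower bound for the sifting product
-/

open Finset

namespace Pool.Agent.Lib.H59C

theorem MER3_sq : ∃ B : ℝ, 0 ≤ B ∧ ∀ s : Finset ℕ, ∑ p ∈ s, 1 / (p : ℝ) ^ 2 ≤ B := by
  have hs : Summable (fun n : ℕ => 1 / (n : ℝ) ^ 2) := Real.summable_one_div_nat_pow.2 (by norm_num)
  refine ⟨∑' n : ℕ, 1 / (n : ℝ) ^ 2, tsum_nonneg fun n => by positivity, fun s => ?_⟩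
  exact hs.sum_le_tsum s fun n _ => by positivity

theorem MER3_fac (q : ℕ) (hq : 3 ≤ q) : 0 < 1 - gq q ∧ 1 - gq q ≤ 1 ∧
    (1 - gq q) * (((q : ℝ) - 1) / (q - 2)) = 1 ∧
    Real.exp (-(1 / (q : ℝ) + 6 * (1 / (q : ℝ) ^ 2))) ≤ 1 - gq q := by
  have h3 : (3 : ℝ) ≤ q := by exact_mod_cast hq
  unfold gq
  have h4 : 1 / ((q : ℝ) - 1) ≤ 1 / 2 := one_div_le_one_div_of_le (by norm_num) (by linarith)
  have h5 : 0 < 1 / ((q : ℝ) - 1) := by
    have : (0 : ℝ) < q - 1 := by linarith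
    positivity
  have h6 : (0 : ℝ) < q - 1 := by linarith
  have h7 : (0 : ℝ) < q - 2 := by linarith
  have h8 : 1 - 1 / ((q : ℝ) - 1) = (q - 2) / (q - 1) := by field_simp; ring
  refine ⟨by linarith, by linarith, ?_, ?_⟩
  · rw [h8]
    field_simp
  · have h9 := Real.one_sub_inv_le_log_of_pos (show (0 : ℝ) < (q - 2) / (q - 1) by positivity)
    rw [h8, ← Real.le_log_iff_exp_le (by positivity)]
    refine le_trans ?_ h9
    have h10 : 1 - (((q : ℝ) - 2) / (q - 1))⁻¹ = -(1 / ((q : ℝ) - 2)) := by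
      rw [inv_div]
      field_simp
      ring
    rw [h10, neg_le_neg_iff]
    have hq0 : (0 : ℝ) < q := by linarith
    have h11 : 1 / (q : ℝ) + 6 * (1 / (q : ℝ) ^ 2) = (q + 6) / (q : ℝ) ^ 2 := by
      field_simp
    rw [h11, div_le_div_iff₀ h7 (by positivity)]
    nlinarith

/-- Lower bound for `V(z)` in terms of the primes dividing `N`.

Proof. `V(z) ≥ ∏_{3 ≤ q < z} (1 - 1/(q-1)) ∏_{q ∣ N, 3 ≤ q < z} (1 - 1/(q-1))⁻¹`,
`(1 - 1/(q-1))⁻¹ = (q-1)/(q-2)`, the first product is `≥ c/log z` (`mertens`), and the at most `60` primes `q ≥ z` dividing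
`N` contribute a factor `≤ 2` to the product on the right. -/
theorem VV_lower : ∃ c : ℝ, 0 < c ∧ ∃ n0 : ℕ, ∀ n : ℕ, n0 ≤ n → ∀ (P : Finset ℕ) (N : ℕ) (z : ℝ),
    0 < N → N ≤ n ^ 3 → (n : ℝ) ^ (1 / 20 : ℝ) ≤ z → z ≤ n →
    (∀ q ∈ P, q.Prime ∧ 3 ≤ q ∧ ¬ q ∣ N) →
    c * (∏ q ∈ N.primeFactors.filter (fun q => 2 < q), (((q : ℝ) - 1) / (q - 2))) / Real.log n ≤
      VV P z := by
  classical
  obtain ⟨C, hC, hmer⟩ := mertens
  obtain ⟨B, hB, hsq⟩ := MER3_sq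
  obtain ⟨n0, hn0⟩ := MER2_large 60 (1 / 4) (by norm_num) (by norm_num)
  have hl2 : 0 < Real.log 2 := Real.log_pos (by norm_num)
  refine ⟨Real.log 2 * Real.exp (-(C / Real.log 2) - 6 * B - 6), by positivity, n0,
    fun n hn P N z hN hNn hz hzn hP => ?_⟩
  obtain ⟨hn2, hlarge⟩ := hn0 n hn
  obtain ⟨hz4, hzC⟩ := hlarge z hz
  have hlz : 0 < Real.log z := Real.log_pos (by linarith)
  have hlzn : Real.log z ≤ Real.log n := Real.log_le_log (by linarith) hzn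
  -- the primes `3 ≤ q < z`
  set A := (PR 2 z).filter (fun q => 3 ≤ q) with hA
  set A0 := A.filter (fun q => q ∣ N) with hA0
  set A1 := A.filter (fun q => ¬ q ∣ N) with hA1
  have hAm : ∀ q ∈ A, q.Prime ∧ (q : ℝ) < z ∧ 3 ≤ q := fun q hq => by
    rw [hA, Finset.mem_filter, mem_PR] at hq
    exact ⟨hq.1.1, hq.1.2.2, hq.2⟩
  have hVA1 : ∏ q ∈ A1, (1 - gq q) ≤ VV P z := by
    unfold VV VP
    have hsub : P.filter (fun q : ℕ => (q : ℝ) < z) ⊆ A1 := by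
      intro q hq
      rw [Finset.mem_filter] at hq
      obtain ⟨h1, h2, h3⟩ := hP q hq.1
      rw [hA1, Finset.mem_filter, hA, Finset.mem_filter, mem_PR]
      exact ⟨⟨⟨h1, by exact_mod_cast h1.two_le, hq.2⟩, h2⟩, h3⟩
    refine Finset.prod_le_prod_of_subset_of_le_one hsub ?_ ?_
    · intro q hq
      exact (MER3_fac q (hAm q (Finset.mem_filter.1 hq).1).2.2).1.le
    · intro q hq _
      exact (MER3_fac q (hAm q (Finset.mem_filter.1 hq).1).2.2).2.1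
  have hAA : (∏ q ∈ A0, (1 - gq q)) * ∏ q ∈ A1, (1 - gq q) = ∏ q ∈ A, (1 - gq q) :=
    Finset.prod_filter_mul_prod_filter_not A (fun q => q ∣ N) _
  have hA0' : (∏ q ∈ A0, (1 - gq q)) * ∏ q ∈ A0, (((q : ℝ) - 1) / (q - 2)) = 1 := by
    rw [← Finset.prod_mul_distrib]
    exact Finset.prod_eq_one fun q hq => (MER3_fac q (hAm q (Finset.mem_filter.1 hq).1).2.2).2.2.1
  have hpos0 : 0 ≤ ∏ q ∈ A0, (((q : ℝ) - 1) / (q - 2)) := by
    refine Finset.prod_nonneg fun q hq => ?_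
    have h3 : (3 : ℝ) ≤ q := by exact_mod_cast (hAm q (Finset.mem_filter.1 hq).1).2.2
    exact div_nonneg (by linarith) (by linarith)
  have hA1eq : ∏ q ∈ A1, (1 - gq q) =
      (∏ q ∈ A, (1 - gq q)) * ∏ q ∈ A0, (((q : ℝ) - 1) / (q - 2)) := by
    rw [← hAA]
    calc ∏ q ∈ A1, (1 - gq q) = ((∏ q ∈ A0, (1 - gq q)) *
          ∏ q ∈ A0, (((q : ℝ) - 1) / (q - 2))) * ∏ q ∈ A1, (1 - gq q) := by rw [hA0', one_mul]
      _ = _ := by ring
  -- lower bound for the full product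
  have hfull : Real.log 2 * Real.exp (-(C / Real.log 2) - 6 * B) / Real.log n ≤
      ∏ q ∈ A, (1 - gq q) := by
    have h1 : Real.exp (∑ q ∈ A, -(1 / (q : ℝ) + 6 * (1 / (q : ℝ) ^ 2))) ≤
        ∏ q ∈ A, (1 - gq q) := by
      rw [Real.exp_sum]
      exact Finset.prod_le_prod (fun q _ => (Real.exp_pos _).le)
        fun q hq => (MER3_fac q (hAm q hq).2.2).2.2.2
    refine le_trans ?_ h1
    have h2 : ∑ q ∈ A, 1 / (q : ℝ) ≤ ∑ q ∈ PR 2 z, 1 / (q : ℝ) :=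
      Finset.sum_le_sum_of_subset_of_nonneg (Finset.filter_subset _ _) fun q _ _ => by positivity
    have h3 := (abs_le.1 (hmer 2 z le_rfl (by linarith))).2
    have h4 := hsq A
    have h5 : ∑ q ∈ A, -(1 / (q : ℝ) + 6 * (1 / (q : ℝ) ^ 2)) =
        -∑ q ∈ A, 1 / (q : ℝ) - 6 * ∑ q ∈ A, 1 / (q : ℝ) ^ 2 := by
      rw [Finset.sum_neg_distrib, Finset.sum_add_distrib, ← Finset.mul_sum]
      ring
    rw [h5]
    have h6 : Real.log (Real.log 2) - Real.log (Real.log z) + (-(C / Real.log 2) - 6 * B) ≤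
        -∑ q ∈ A, 1 / (q : ℝ) - 6 * ∑ q ∈ A, 1 / (q : ℝ) ^ 2 := by linarith
    refine le_trans ?_ (Real.exp_le_exp.2 h6)
    rw [Real.exp_add, Real.exp_sub (Real.log (Real.log 2)) (Real.log (Real.log z)),
      Real.exp_log hl2, Real.exp_log hlz, mul_div_right_comm]
    exact mul_le_mul_of_nonneg_right (div_le_div_of_nonneg_left hl2.le hlz hlzn)
      (Real.exp_pos _).le
  -- the large prime divisors
  set U := N.primeFactors.filter (fun q : ℕ => z ≤ (q : ℝ)) with hU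
  have hUcard := MER2_card n N z hn2 hN hNn hz
  have hUprod : ∏ q ∈ U, (((q : ℝ) - 1) / (q - 2)) ≤ Real.exp 6 := by
    have h1 : ∀ q ∈ U, 0 ≤ ((q : ℝ) - 1) / (q - 2) ∧
        ((q : ℝ) - 1) / (q - 2) ≤ Real.exp (1 / 10) := by
      intro q hq
      have h2 := (Finset.mem_filter.1 hq).2
      have h3 : (60 : ℝ) / Real.log z ≤ 1 / 4 := hzC
      rw [div_le_div_iff₀ hlz (by norm_num)] at h3
      have h4 := Real.log_le_sub_one_of_pos (show (0 : ℝ) < z by linarith)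
      have h5 : (240 : ℝ) ≤ q := by linarith
      refine ⟨div_nonneg (by linarith) (by linarith), ?_⟩
      have h6 := Real.add_one_le_exp (1 / 10 : ℝ)
      refine le_trans ?_ h6
      rw [div_le_iff₀ (by linarith)]
      linarith
    calc ∏ q ∈ U, (((q : ℝ) - 1) / (q - 2)) ≤ ∏ q ∈ U, Real.exp (1 / 10) :=
          Finset.prod_le_prod (fun q hq => (h1 q hq).1) fun q hq => (h1 q hq).2
      _ = Real.exp (1 / 10) ^ U.card := by rw [Finset.prod_const]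
      _ ≤ Real.exp (1 / 10) ^ 60 :=
          pow_le_pow_right₀ (Real.one_le_exp (by norm_num)) hUcard
      _ = Real.exp 6 := by
          rw [← Real.exp_nat_mul]
          norm_num
  have hsplit : ∏ q ∈ N.primeFactors.filter (fun q => 2 < q), (((q : ℝ) - 1) / (q - 2)) =
      (∏ q ∈ A0, (((q : ℝ) - 1) / (q - 2))) * ∏ q ∈ U, (((q : ℝ) - 1) / (q - 2)) := by
    rw [← Finset.prod_union]
    · refine Finset.prod_congr ?_ fun q _ => rfl
      ext q
      rw [Finset.mem_union, Finset.mem_filter, hA0, hA, hU, Finset.mem_filter, Finset.mem_filter,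
        Finset.mem_filter, mem_PR, Nat.mem_primeFactors]
      constructor
      · rintro ⟨⟨h1, h2, h3⟩, h4⟩
        rcases lt_or_ge (q : ℝ) z with h5 | h5
        · exact Or.inl ⟨⟨⟨h1, by exact_mod_cast h1.two_le, h5⟩, h4⟩, h2⟩
        · exact Or.inr ⟨⟨h1, h2, h3⟩, h5⟩
      · rintro (⟨⟨⟨h1, h2, h3⟩, h4⟩, h5⟩ | ⟨⟨h1, h2, h3⟩, h4⟩)
        · exact ⟨⟨h1, h5, hN.ne'⟩, h4⟩
        · refine ⟨⟨h1, h2, h3⟩, ?_⟩
          have h5 : (2 : ℝ) < q := by linarith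
          exact_mod_cast h5
    · rw [Finset.disjoint_left]
      intro q h1 h2
      have h3 := (hAm q (Finset.mem_filter.1 h1).1).2.1
      exact absurd h3 (not_lt.2 (Finset.mem_filter.1 h2).2)
  -- conclusion
  have hln : 0 < Real.log n := by linarith
  refine le_trans ?_ hVA1
  rw [hsplit, hA1eq]
  have hf0 : 0 ≤ ∏ q ∈ A0, (((q : ℝ) - 1) / (q - 2)) := hpos0
  calc Real.log 2 * Real.exp (-(C / Real.log 2) - 6 * B - 6) *
        ((∏ q ∈ A0, (((q : ℝ) - 1) / (q - 2))) * ∏ q ∈ U, (((q : ℝ) - 1) / (q - 2))) / Real.log n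
      ≤ Real.log 2 * Real.exp (-(C / Real.log 2) - 6 * B - 6) *
        ((∏ q ∈ A0, (((q : ℝ) - 1) / (q - 2))) * Real.exp 6) / Real.log n := by
        gcongr
    _ = Real.log 2 * Real.exp (-(C / Real.log 2) - 6 * B) / Real.log n *
        ∏ q ∈ A0, (((q : ℝ) - 1) / (q - 2)) := by
        have e : Real.exp (-(C / Real.log 2) - 6 * B) =
            Real.exp (-(C / Real.log 2) - 6 * B - 6) * Real.exp 6 := by
          rw [← Real.exp_add]; congr 1; ring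
        rw [e]
        ring
    _ ≤ _ := mul_le_mul_of_nonneg_right hfull hf0

end Pool.Agent.Lib.H59C
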