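import Pool.Agent.Lib.H59C.C0
import Pool.Agent.Lib.H59C.MER3

/-!
# CVX: lower bound for the main term
-/

open Finset

namespace Pool.Agent.Lib.H59C

theorem CVX_le_one (n N p1 : ℕ) (z : ℝ) : VV (PP n N p1) z ≤ 1 := by
  classical
  unfold VV VP
  apply Finset.prod_le_one
  · intro q hq
    have hq' : q ∈ PP n N p1 := (Finset.mem_filter.1 hq).1
    have h3 : (3 : ℝ) ≤ q := by exact_mod_cast (mem_PP.1 hq').1.1
    unfold gq
    rw [sub_nonneg, div_le_one (by linarith)]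
    linarith
  · intro q hq
    have hq' : q ∈ PP n N p1 := (Finset.mem_filter.1 hq).1
    have h3 : (3 : ℝ) ≤ q := by exact_mod_cast (mem_PP.1 hq').1.1
    unfold gq
    rw [sub_le_self_iff]
    exact div_nonneg zero_le_one (by linarith)

/-- Proof. `XX_bounds` (`XX ≥ (y2 - y1)/2 ≥ n/32`) and `VV_lower` (`N ≤ 2 n ≤ n^3`, `zz n = n^(1/8)`; `hl N` is the product
there). -/
theorem main_lower : ∃ c : ℝ, 0 < c ∧ ∃ n0 : ℕ, ∀ n : ℕ, n0 ≤ n → ∀ p1 N y1 y2 : ℕ,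
    Win n N y1 y2 →
    c * hl N * n / Real.log n ≤ XX y1 y2 * VV (PP n N p1) (zz n) ∧
    c / Real.log n ≤ VV (PP n N p1) (zz n) ∧ VV (PP n N p1) (zz n) ≤ 1 := by
  obtain ⟨c, hc, n0, h⟩ := VV_lower
  obtain ⟨n1, h1⟩ := XX_bounds (1 / 2) (by norm_num)
  refine ⟨c / 32, by positivity, max (max n0 n1) 3, ?_⟩
  intro n hn p1 N y1 y2 W
  have hn0 : n0 ≤ n := le_trans (le_trans (le_max_left _ _) (le_max_left _ _)) hn
  have hn1 : n1 ≤ n := le_trans (le_trans (le_max_right _ _) (le_max_left _ _)) hn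
  have hn3 : 3 ≤ n := le_trans (le_max_right _ _) hn
  have hn1' : (1 : ℝ) ≤ n := by exact_mod_cast (by omega : 1 ≤ n)
  have hn3' : (3 : ℝ) ≤ n := by exact_mod_cast hn3
  have hlog : 0 < Real.log n := Real.log_pos (by linarith)
  have hN3 : N ≤ n ^ 3 := by
    have h2 := W.N2
    have h3 : 2 * n ≤ n ^ 3 := by
      have : 9 ≤ n ^ 2 := by nlinarith
      nlinarith
    exact h2.trans h3
  have hz1 : (n : ℝ) ^ (1 / 20 : ℝ) ≤ zz n :=
    Real.rpow_le_rpow_of_exponent_le hn1' (by norm_num)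
  have hz2 : zz n ≤ n := by
    have := Real.rpow_le_rpow_of_exponent_le hn1' (show (1 / 8 : ℝ) ≤ 1 by norm_num)
    rwa [Real.rpow_one] at this
  have hV : c * hl N / Real.log n ≤ VV (PP n N p1) (zz n) :=
    h n hn0 (PP n N p1) N (zz n) W.N0 hN3 hz1 hz2 (fun q hq => by
      obtain ⟨⟨a1, a2⟩, a3, a4, a5⟩ := mem_PP.1 hq
      exact ⟨a3, a1, a4⟩)
  have hX := (h1 n hn1 N y1 y2 W).1
  have hlen : (n : ℝ) ≤ 16 * ((y2 : ℝ) - y1) := by
    have h2 : n ≤ 16 * (y2 - y1) := W.len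
    have h3 : ((y2 - y1 : ℕ) : ℝ) = (y2 : ℝ) - y1 := Nat.cast_sub W.lt.le
    rw [← h3]
    exact_mod_cast h2
  have hX' : (n : ℝ) / 32 ≤ XX y1 y2 := by linarith
  have hhl := one_le_hl N
  have hV0 : 0 ≤ c * hl N / Real.log n := by positivity
  refine ⟨?_, ?_, CVX_le_one n N p1 _⟩
  · calc c / 32 * hl N * n / Real.log n = (n : ℝ) / 32 * (c * hl N / Real.log n) := by ring
      _ ≤ XX y1 y2 * VV (PP n N p1) (zz n) :=
        mul_le_mul hX' hV hV0 (le_trans (by positivity) hX')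
  · refine le_trans ?_ hV
    rw [div_le_div_iff_of_pos_right hlog]
    nlinarith

end Pool.Agent.Lib.H59C
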