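import Pool.Agent.Lib.H59C.CR
import Pool.Agent.Lib.H59C.CVX
import Pool.Agent.Lib.H59C.CDL
import Pool.Agent.Lib.H59C.JR

/-!
# CS1: the first term of the weighted sieve
-/

open Finset

namespace Pool.Agent.Lib.H59C

theorem PP_prime {n N p1 q : ℕ} (h : q ∈ PP n N p1) : q.Prime ∧ 3 ≤ q := by
  rw [mem_PP] at h
  exact ⟨h.2.1, h.1.1⟩

theorem lg_nonneg (p : ℕ) : 0 ≤ lg p := by
  unfold lg
  exact Real.log_natCast_nonneg p

theorem XX_nonneg (y1 y2 : ℕ) : 0 ≤ XX y1 y2 := by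
  unfold XX
  exact sum_nonneg fun p _ => lg_nonneg p

/-- The remainder is small. -/
theorem cs_rem (ε : ℝ) (hε : 0 < ε) : ∃ n0 : ℕ, ∀ n : ℕ, n0 ≤ n → ∀ p1 N y1 y2 : ℕ,
    Win n N y1 y2 → 2 * n / Real.log n ^ 3 ≤ ε * (XX y1 y2 * VV (PP n N p1) (zz n)) := by
  obtain ⟨c, hc, n2, hmain⟩ := main_lower
  obtain ⟨n3, hn3⟩ := cdl_log (max 1 (2 / (ε * c)))
  refine ⟨max (max n2 n3) 3, fun n hn p1 N y1 y2 hW => ?_⟩
  have h2 : n2 ≤ n := le_trans (le_trans (le_max_left _ _) (le_max_left _ _)) hn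
  have h3 : n3 ≤ n := le_trans (le_trans (le_max_right _ _) (le_max_left _ _)) hn
  obtain ⟨m1, -, -⟩ := hmain n h2 p1 N y1 y2 hW
  have hL := hn3 n h3
  have hL1 : 1 ≤ Real.log n := le_trans (le_max_left _ _) hL
  have hL2 : 2 / (ε * c) ≤ Real.log n := le_trans (le_max_right _ _) hL
  have hL0 : 0 < Real.log n := by linarith
  have hhl := one_le_hl N
  have hn0 : (0 : ℝ) ≤ n := Nat.cast_nonneg _
  calc 2 * n / Real.log n ^ 3 ≤ ε * (c * hl N * n / Real.log n) := by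
        rw [div_le_iff₀ (by positivity)]
        have e1 : ε * (c * hl N * n / Real.log n) * Real.log n ^ 3 =
            ε * c * hl N * n * Real.log n ^ 2 := by
          field_simp
        rw [e1]
        have e2 : 2 ≤ ε * c * Real.log n := by
          rw [div_le_iff₀ (by positivity)] at hL2
          linarith
        have e3 : 2 ≤ ε * c * Real.log n ^ 2 := by
          have : ε * c * Real.log n ≤ ε * c * Real.log n ^ 2 := by
            apply mul_le_mul_of_nonneg_left _ (by positivity)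
            nlinarith
          linarith
        calc (2 : ℝ) * n ≤ (ε * c * Real.log n ^ 2) * n := by
              apply mul_le_mul_of_nonneg_right e3 hn0
          _ ≤ (ε * c * Real.log n ^ 2) * n * hl N := by
              apply le_mul_of_one_le_right (by positivity) hhl
          _ = ε * c * hl N * n * Real.log n ^ 2 := by ring
    _ ≤ ε * (XX y1 y2 * VV (PP n N p1) (zz n)) := by
        apply mul_le_mul_of_nonneg_left m1 hε.le

/-- Proof. `jr (ε/4)` gives `Q0, z0`; `rem_A 3` gives `A', B, n0`. Take `z = zz n`, `D = DD n B / Q0` (so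
`D * Q0 = DD n B`), `s = log D/log z`: `log (DD n B) = (1/2) log n - B log log n + O(1)` (`DD n B ≤ √n`), so
`s ≤ 4` and `s → 4` as `n → ∞`, hence `AA log (s - 1)/s ≥ AA (log 3)/4 - ε/4`. The remainder `2 n/(log n)^3` is at most
`(ε/4) XX VV` by `main_lower` (`hl N ≥ 1`). -/
theorem S1_lower (ε : ℝ) (hε : 0 < ε) : ∃ A' n0 : ℕ, ∀ n : ℕ, n0 ≤ n → ∀ p1 : ℕ, p1.Prime →
    SWp A' n p1 → ∀ N y1 y2 : ℕ, Win n N y1 y2 →
    XX y1 y2 * VV (PP n N p1) (zz n) * (AA * Real.log 3 / 4 - ε) ≤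
      sift (Sq y1 y2) lg (fun p => Nat.dist N p) (PP n N p1) (zz n) := by
  obtain ⟨Q0, hQ0, z0, hz0, hjr⟩ := jr (ε / 4) (by linarith)
  obtain ⟨A', B, n1, hrem⟩ := rem_A 3
  obtain ⟨n2, hn2⟩ := cs_rem (ε / 4) (by linarith)
  have hcont : ContinuousAt (fun s : ℝ => AA * Real.log (s - 1) / s) 4 := by
    apply ContinuousAt.div
    · apply ContinuousAt.mul continuousAt_const
      apply ContinuousAt.log
      · fun_prop
      · norm_num
    · fun_prop
    · norm_num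
  obtain ⟨δ, hδ, hcδ⟩ := Metric.continuousAt_iff.mp hcont (ε / 4) (by linarith)
  obtain ⟨η, hη⟩ : ∃ η : ℝ, η = min (δ / 16) (1 / 8) := ⟨_, rfl⟩
  have hη0 : 0 < η := by rw [hη]; exact lt_min (by linarith) (by norm_num)
  have hη1 : η ≤ δ / 16 := by rw [hη]; exact min_le_left _ _
  have hη2 : η ≤ 1 / 8 := by rw [hη]; exact min_le_right _ _
  obtain ⟨n3, hn3⟩ := dd_log B Q0 hQ0 η hη0
  obtain ⟨n4, hn4⟩ := cdl_zz z0
  refine ⟨A', n1 + n2 + n3 + n4 + 3, fun n hn p1 hp1 hSW N y1 y2 hW => ?_⟩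
  have hN : (3 : ℝ) ≤ n := by exact_mod_cast (by omega : 3 ≤ n)
  have hL : 0 < Real.log n := Real.log_pos (by linarith)
  obtain ⟨hD1, hDl, hDu, hDp⟩ := hn3 n (by omega)
  have hzn := hn4 n (by omega)
  have hlz := log_zz n (by omega)
  obtain ⟨hr, -⟩ := hrem n (by omega) p1 hp1 hSW N y1 y2 hW
  have hsm := hn2 n (by omega) p1 N y1 y2 hW
  have hzpos : 0 < zz n := by linarith
  obtain ⟨D, hD⟩ : ∃ D : ℝ, D = (DD n B : ℝ) / Q0 := ⟨_, rfl⟩
  rw [← hD] at hDl hDu hDp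
  have hlz0 : 0 < Real.log (zz n) := by rw [hlz]; linarith
  have h2z : 2 * Real.log (zz n) ≤ Real.log D := by
    rw [hlz]
    have : (3 / 8 : ℝ) * Real.log n ≤ (1 / 2 - η) * Real.log n := by
      apply mul_le_mul_of_nonneg_right (by linarith) hL.le
    linarith
  have h4z : Real.log D ≤ 4 * Real.log (zz n) := by
    rw [hlz]
    linarith
  have hzD : zz n ≤ D := by
    rw [← Real.log_le_log_iff hzpos hDp]
    linarith
  have hX := XX_nonneg y1 y2
  obtain ⟨-, hlow⟩ := hjr (PP n N p1) (fun q hq => PP_prime hq) (zz n) D hzn hzD (Sq y1 y2) lg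
    (fun p => Nat.dist N p) (XX y1 y2) hX (fun p _ => lg_nonneg p)
  have hlow := hlow h2z h4z
  have hDQ : D * (Q0 : ℝ) = (DD n B : ℝ) := by
    rw [hD]
    have : (Q0 : ℝ) ≠ 0 := by
      have : (1 : ℝ) ≤ Q0 := by exact_mod_cast hQ0
      linarith
    field_simp
  rw [hDQ] at hlow
  obtain ⟨s, hs⟩ : ∃ s : ℝ, s = Real.log D / Real.log (zz n) := ⟨_, rfl⟩
  rw [← hs] at hlow
  have hs4 : s ≤ 4 := by
    rw [hs, div_le_iff₀ hlz0]
    linarith
  have hsl : 4 - 8 * η ≤ s := by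
    rw [hs, le_div_iff₀ hlz0, hlz]
    have : (4 - 8 * η) * (1 / 8 * Real.log n) = (1 / 2 - η) * Real.log n := by ring
    linarith
  have hdist : dist s 4 < δ := by
    rw [Real.dist_eq, abs_lt]
    constructor <;> linarith
  have hclose := hcδ hdist
  rw [Real.dist_eq, abs_lt] at hclose
  have hmain : AA * Real.log 3 / 4 - ε / 4 ≤ AA * Real.log (s - 1) / s := by
    have h31 : (4 : ℝ) - 1 = 3 := by norm_num
    have := hclose.1
    rw [h31] at this
    linarith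
  have hVX : 0 ≤ XX y1 y2 * VV (PP n N p1) (zz n) := by
    have h0 : 0 ≤ 2 * (n : ℝ) / Real.log n ^ 3 := by positivity
    have h1 : 0 ≤ ε / 4 * (XX y1 y2 * VV (PP n N p1) (zz n)) := le_trans h0 hsm
    by_contra hcon
    push Not at hcon
    have := mul_neg_of_pos_of_neg (by linarith : 0 < ε / 4) hcon
    linarith
  have hA : XX y1 y2 * VV (PP n N p1) (zz n) * (AA * Real.log 3 / 4 - ε / 2) ≤
      XX y1 y2 * VV (PP n N p1) (zz n) * (AA * Real.log (s - 1) / s - ε / 4) := by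
    apply mul_le_mul_of_nonneg_left _ hVX
    linarith
  have e1 : XX y1 y2 * VV (PP n N p1) (zz n) * (AA * Real.log 3 / 4 - ε) =
      XX y1 y2 * VV (PP n N p1) (zz n) * (AA * Real.log 3 / 4 - ε / 2) -
        ε / 2 * (XX y1 y2 * VV (PP n N p1) (zz n)) := by ring
  have e2 : 0 ≤ ε / 4 * (XX y1 y2 * VV (PP n N p1) (zz n)) := by positivity
  rw [e1]
  linarith

end Pool.Agent.Lib.H59C
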