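import Pool.Agent.Lib.H59C.CBR
import Pool.Agent.Lib.H59C.MER2
import Pool.Agent.Lib.H59C.CS1

/-!
# CBS: the sieve bound for a box
-/

open Finset

namespace Pool.Agent.Lib.H59C

open Classical in
/-- The prime values of the switched sequence in a box.

Proof. `jr (ε/8)` gives `Q0, z0`, `rem_box 6` gives `A', B, n0`. Take `z' = n^(1/6)`, `D = DD n B/Q0`: `log D ≤ 3 log z'` and
`z' ≤ D`. Primes `bb ≥ n^(1/6)` are not divisible by any prime `q < z'`, so the left side is at most `sift`, and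
`sift ≤ XB VV(z') (AA log z'/log D + ε/8) + remd`. By `ratio_VV` (with `z = zz n`, `z'`; every prime in
`[z, z')` other than `p1` divides `N` or is in `PP n N p1`, and `p1 < z`; `N ≤ 2 n ≤ n^3`)
`VV(z') ≤ (1 + η) (log z/log z') VV(z)`, and `log z/log D → 1/4`. (`log z/log z' = 3/4`.) -/
theorem box_sieve (ε : ℝ) (hε : 0 < ε) : ∃ A' n0 : ℕ, ∀ n : ℕ, n0 ≤ n → ∀ p1 : ℕ, p1.Prime →
    p1 ^ 100 ≤ n → SWp A' n p1 → ∀ N y2 : ℕ, 0 < N → N ≤ 2 * n →
    ∀ (M u v : ℕ) (α : ℕ → ℝ), (∀ m, 0 ≤ α m ∧ α m ≤ 1) →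
    (∀ m, α m ≠ 0 → ∀ r : ℕ, r.Prime → r ∣ m → (n : ℝ) ^ (1 / 10 : ℝ) ≤ r) →
    (n : ℝ) ^ (1 / 4 : ℝ) ≤ M → (n : ℝ) ^ (1 / 4 : ℝ) ≤ v → u ≤ v → M * v ≤ 8 * n →
    ∑ x ∈ (BX M u v).filter (fun x => (bb N y2 x).Prime ∧ (n : ℝ) ^ (1 / 6 : ℝ) ≤ bb N y2 x),
      wB α x ≤
      XB M u v α * VV (PP n N p1) (zz n) * (AA / 4 + ε) + n / Real.log n ^ 6 := by
  have hAA := AA_pos
  obtain ⟨Q0, hQ0, z0, hz0, hjr⟩ := jr (ε / 8) (by linarith)
  obtain ⟨A', B, n1, hrem⟩ := rem_box 6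
  -- `ρ`: relative error
  obtain ⟨ρ, hρ⟩ : ∃ ρ : ℝ, ρ = min (1 / 8) (ε / (8 * AA)) := ⟨_, rfl⟩
  have hρ0 : 0 < ρ := by rw [hρ]; exact lt_min (by norm_num) (by positivity)
  have hρ1 : ρ ≤ 1 / 8 := by rw [hρ]; exact min_le_left _ _
  have hρ2 : AA * ρ ≤ ε / 8 := by
    have h : ρ ≤ ε / (8 * AA) := by rw [hρ]; exact min_le_right _ _
    calc AA * ρ ≤ AA * (ε / (8 * AA)) := mul_le_mul_of_nonneg_left h hAA.le
      _ = ε / 8 := by field_simp
  obtain ⟨n2, hn2⟩ := ratio_VV ρ hρ0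
  obtain ⟨n3, hn3⟩ := dd_log B Q0 hQ0 (ρ / 8) (by linarith)
  obtain ⟨n4, hn4⟩ := cdl_zz z0
  refine ⟨A', n1 + n2 + n3 + n4 + 3, fun n hn p1 hp1 hp100 hSW N y2 hN0 hN2 M u v α hα hαr hM hv
    huv hMv => ?_⟩
  have hN : (3 : ℝ) ≤ n := by exact_mod_cast (by omega : 3 ≤ n)
  have hL : 0 < Real.log n := Real.log_pos (by linarith)
  obtain ⟨hD1, hDl, hDu, hDp⟩ := hn3 n (by omega)
  have hzn := hn4 n (by omega)
  have hlz := log_zz n (by omega)
  have hzpos : 0 < zz n := by linarith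
  have hlz0 : 0 < Real.log (zz n) := by rw [hlz]; linarith
  obtain ⟨z', hz'⟩ : ∃ z' : ℝ, z' = (n : ℝ) ^ (1 / 6 : ℝ) := ⟨_, rfl⟩
  have hlz' : Real.log z' = 1 / 6 * Real.log n := by
    rw [hz', Real.log_rpow (by linarith)]
  have hz'pos : 0 < z' := by rw [hz']; positivity
  have hzz' : zz n ≤ z' := by
    rw [← Real.log_le_log_iff hzpos hz'pos, hlz, hlz']
    linarith
  have hz'n : z' ≤ n := by
    rw [← Real.log_le_log_iff hz'pos (by linarith), hlz']
    linarith
  have hα0 : ∀ x, 0 ≤ wB α x := fun x => mul_nonneg (hα _).1 (lg_nonneg _)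
  have hXB : 0 ≤ XB M u v α := by
    unfold XB
    exact mul_nonneg (sum_nonneg fun m _ => (hα m).1) (XX_nonneg _ _)
  have hV : ∀ z : ℝ, 0 ≤ VV (PP n N p1) z := by
    intro z
    unfold VV VP
    apply prod_nonneg
    intro q hq
    have h3 := (PP_prime (mem_filter.mp hq).1).2
    have h3' : (3 : ℝ) ≤ q := by exact_mod_cast h3
    unfold gq
    rw [sub_nonneg, div_le_one (by linarith)]
    linarith
  -- the level
  obtain ⟨D, hD⟩ : ∃ D : ℝ, D = (DD n B : ℝ) / Q0 := ⟨_, rfl⟩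
  rw [← hD] at hDl hDu hDp
  have hQ0' : (1 : ℝ) ≤ Q0 := by exact_mod_cast hQ0
  have hDQ : D * (Q0 : ℝ) = (DD n B : ℝ) := by
    rw [hD]
    field_simp
  have h3z : Real.log D ≤ 3 * Real.log z' := by
    rw [hlz']
    linarith
  have hz'D : z' ≤ D := by
    rw [← Real.log_le_log_iff hz'pos hDp, hlz']
    have : (1 / 6 : ℝ) * Real.log n ≤ (1 / 2 - ρ / 8) * Real.log n :=
      mul_le_mul_of_nonneg_right (by linarith) hL.le
    linarith
  obtain ⟨hup, -⟩ := hjr (PP n N p1) (fun q hq => PP_prime hq) z' D (by linarith) hz'D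
    (BX M u v) (wB α) (bb N y2) (XB M u v α) hXB (fun x _ => hα0 x)
  have hup := hup h3z
  rw [hDQ] at hup
  have hr := hrem n (by omega) p1 hp1 hSW N y2 hN0 M u v α hα hαr hM hv huv hMv z'
  -- the left side is at most the sifted sum
  have hleft : ∑ x ∈ (BX M u v).filter (fun x => (bb N y2 x).Prime ∧
      (n : ℝ) ^ (1 / 6 : ℝ) ≤ bb N y2 x), wB α x ≤ sift (BX M u v) (wB α) (bb N y2) (PP n N p1) z' := by
    unfold sift
    apply sum_le_sum_of_subset_of_nonneg
    · intro x hx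
      rw [mem_filter] at hx ⊢
      refine ⟨hx.1, ?_⟩
      intro q hq hqz hdvd
      have h1 := (Nat.prime_dvd_prime_iff_eq (PP_prime hq).1 hx.2.1).mp hdvd
      have h2 := hx.2.2
      rw [← hz', ← h1] at h2
      linarith
    · intro x _ _
      exact hα0 x
  -- comparison of the products
  have hN3 : N ≤ n ^ 3 := by
    have h3 : 3 ≤ n := by omega
    calc N ≤ 2 * n := hN2
      _ ≤ n * n ^ 2 := by nlinarith
      _ = n ^ 3 := by ring
  have hp1z : (p1 : ℝ) < zz n := by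
    have h1 : (p1 : ℝ) ^ (100 : ℕ) ≤ n := by exact_mod_cast hp100
    have hp0 : (0 : ℝ) < p1 := by exact_mod_cast hp1.pos
    rw [← Real.log_lt_log_iff hp0 hzpos, hlz]
    have h2 := Real.log_le_log (by positivity) h1
    rw [Real.log_pow] at h2
    push_cast at h2
    have h3 : 0 ≤ Real.log p1 := Real.log_natCast_nonneg p1
    linarith
  have hratio := hn2 n (by omega) (PP n N p1) N (zz n) z' hN0 hN3 (by
      unfold zz
      apply Real.rpow_le_rpow_of_exponent_le (by linarith) (by norm_num)) hzz' hz'n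
    (fun q hq => PP_prime hq) (by
      intro q hq hzq hqz'
      by_cases hqN : q ∣ N
      · right; exact hqN
      · left
        rw [mem_PP]
        refine ⟨⟨?_, ?_⟩, hq, hqN, ?_⟩
        · have h1 : (2 : ℝ) ≤ zz n := by linarith
          rcases lt_or_ge q 3 with h | h
          · exfalso
            have h2 : q = 2 := by have := hq.two_le; omega
            -- `q = 2 ≥ zz n ≥ z0 ≥ 2`; excluded by `p1 < zz n` and `p1 ≥ 2`
            have h3 : (2 : ℝ) ≤ p1 := by exact_mod_cast hp1.two_le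
            have h4 : (q : ℝ) = 2 := by exact_mod_cast h2
            linarith
          · exact h
        · have h1 : (q : ℝ) ≤ n := by linarith
          exact_mod_cast h1
        · intro h
          rw [h] at hzq
          linarith)
  -- final computation
  have hlD0 : 0 < Real.log D := by
    have : 0 < (1 / 2 - ρ / 8) * Real.log n := mul_pos (by linarith) hL
    linarith
  have hq34 : Real.log (zz n) / Real.log z' = 3 / 4 := by
    rw [hlz, hlz']
    field_simp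
    norm_num
  rw [hq34] at hratio
  have hs : Real.log z' / Real.log D ≤ 1 / 3 * (1 + ρ) := by
    rw [div_le_iff₀ hlD0, hlz']
    have h1 : (1 / 2 - ρ / 8) * Real.log n * (1 / 3 * (1 + ρ)) ≤ Real.log D * (1 / 3 * (1 + ρ)) :=
      mul_le_mul_of_nonneg_right hDl (by positivity)
    have h2 : 1 / 6 * Real.log n ≤ (1 / 2 - ρ / 8) * Real.log n * (1 / 3 * (1 + ρ)) := by
      have h3 : 1 / 6 ≤ (1 / 2 - ρ / 8) * (1 / 3 * (1 + ρ)) := by nlinarith
      calc 1 / 6 * Real.log n ≤ ((1 / 2 - ρ / 8) * (1 / 3 * (1 + ρ))) * Real.log n :=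
            mul_le_mul_of_nonneg_right h3 hL.le
        _ = (1 / 2 - ρ / 8) * Real.log n * (1 / 3 * (1 + ρ)) := by ring
    linarith
  have hfac : AA / (Real.log D / Real.log z') + ε / 8 ≤ AA / 3 * (1 + ρ) + ε / 8 := by
    have h1 : AA / (Real.log D / Real.log z') = AA * (Real.log z' / Real.log D) := by
      rw [div_div_eq_mul_div, mul_div_assoc]
    rw [h1]
    have := mul_le_mul_of_nonneg_left hs hAA.le
    linarith
  calc ∑ x ∈ (BX M u v).filter (fun x => (bb N y2 x).Prime ∧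
      (n : ℝ) ^ (1 / 6 : ℝ) ≤ bb N y2 x), wB α x
      ≤ XB M u v α * VV (PP n N p1) z' * (AA / (Real.log D / Real.log z') + ε / 8) +
        remd (BX M u v) (wB α) (bb N y2) (PP n N p1) z' (XB M u v α) (DD n B) := hleft.trans hup
    _ ≤ XB M u v α * VV (PP n N p1) z' * (AA / 3 * (1 + ρ) + ε / 8) + n / Real.log n ^ 6 := by
        apply add_le_add _ hr
        exact mul_le_mul_of_nonneg_left hfac (mul_nonneg hXB (hV _))
    _ ≤ XB M u v α * ((1 + ρ) * (3 / 4) * VV (PP n N p1) (zz n)) * (AA / 3 * (1 + ρ) + ε / 8) +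
        n / Real.log n ^ 6 := by
        have h1 : XB M u v α * VV (PP n N p1) z' ≤
            XB M u v α * ((1 + ρ) * (3 / 4) * VV (PP n N p1) (zz n)) :=
          mul_le_mul_of_nonneg_left hratio hXB
        have h2 := mul_le_mul_of_nonneg_right h1
          (by positivity : 0 ≤ AA / 3 * (1 + ρ) + ε / 8)
        linarith
    _ = XB M u v α * VV (PP n N p1) (zz n) * ((1 + ρ) * (3 / 4) * (AA / 3 * (1 + ρ) + ε / 8)) +
        n / Real.log n ^ 6 := by ring
    _ ≤ XB M u v α * VV (PP n N p1) (zz n) * (AA / 4 + ε) + n / Real.log n ^ 6 := by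
        have h1 : (1 + ρ) * (3 / 4) * (AA / 3 * (1 + ρ) + ε / 8) ≤ AA / 4 + ε := by
          have e1 : (1 + ρ) * (3 / 4) * (AA / 3 * (1 + ρ) + ε / 8) =
              AA / 4 + AA * ρ * (1 / 2 + ρ / 4) + (1 + ρ) * (3 / 4) * (ε / 8) := by ring
          rw [e1]
          have e2 : AA * ρ * (1 / 2 + ρ / 4) ≤ ε / 8 * 1 := by
            apply mul_le_mul hρ2 (by linarith) (by positivity) (by linarith)
          have e3 : (1 + ρ) * (3 / 4) * (ε / 8) ≤ 1 * (ε / 8) := by
            apply mul_le_mul_of_nonneg_right _ (by linarith)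
            linarith
          linarith
        have h2 := mul_le_mul_of_nonneg_left h1 (mul_nonneg hXB (hV (zz n)))
        linarith

end Pool.Agent.Lib.H59C
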