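import Pool.Agent.Lib.H59C.CDefs
import Pool.Agent.Lib.PNT.PNT

/-!
# C0: the prime number theorem for the windows, monotonicity of `SWp`
-/

open Finset Filter

namespace Pool.Agent.Lib.H59C

theorem c0_th_eq (y : ℕ) : th y = Chebyshev.theta y := by
  unfold th Chebyshev.theta
  rw [Nat.floor_natCast]
  rfl

/-- Proof. `PNT.theta_tendsto` (`Lib/PNT/PNT.lean`; `th y = Chebyshev.theta y`): there is `y0` with
`|th y - y| ≤ (ε/8) y` for `y ≥ y0`, and for `y < y0` both are bounded. -/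
theorem th_pnt (ε : ℝ) (hε : 0 < ε) : ∃ n0 : ℕ, ∀ n : ℕ, n0 ≤ n → ∀ y : ℕ, y ≤ 8 * n →
    |th y - y| ≤ ε * n := by
  have h := Metric.tendsto_atTop.mp Pool.Agent.Lib.PNT.theta_tendsto (ε / 8) (by linarith)
  obtain ⟨y0, hy0⟩ := h
  obtain ⟨Y, hY⟩ := exists_nat_ge (max y0 1)
  have hY0 : y0 ≤ Y := le_trans (le_max_left _ _) hY
  have hY1 : (1 : ℝ) ≤ Y := le_trans (le_max_right _ _) hY
  obtain ⟨n0, hn0⟩ := exists_nat_ge (3 * Y / ε)
  refine ⟨n0, fun n hn y hy => ?_⟩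
  have hy8 : (y : ℝ) ≤ 8 * n := by exact_mod_cast hy
  have hn' : 3 * Y / ε ≤ n := hn0.trans (by exact_mod_cast hn)
  rw [div_le_iff₀ hε] at hn'
  rw [c0_th_eq]
  rcases le_or_gt (Y : ℝ) y with h1 | h1
  · have hypos : (0 : ℝ) < y := by linarith
    have h2 := hy0 y (by linarith)
    rw [Real.dist_eq] at h2
    have h3 : |Chebyshev.theta y - y| = |Chebyshev.theta y / y - 1| * y := by
      rw [← abs_of_pos hypos, ← abs_mul, abs_of_pos hypos]
      congr 1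
      field_simp
    rw [h3]
    calc |Chebyshev.theta y / y - 1| * y ≤ ε / 8 * y :=
          mul_le_mul_of_nonneg_right h2.le hypos.le
      _ ≤ ε * n := by nlinarith
  · have hy0' : (0 : ℝ) ≤ y := Nat.cast_nonneg _
    have h2 := Chebyshev.theta_nonneg (y : ℝ)
    have h3 := Chebyshev.theta_le_log4_mul_x hy0'
    have h4 : Real.log 4 ≤ 2 := by
      have h5 : Real.log 4 = 2 * Real.log 2 := by
        rw [show (4 : ℝ) = 2 ^ 2 by norm_num, Real.log_pow]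
        norm_num
      have := Real.log_two_lt_d9
      rw [h5]
      linarith
    have h5 : Chebyshev.theta y ≤ 2 * y := h3.trans (mul_le_mul_of_nonneg_right h4 hy0')
    rw [abs_le]
    constructor <;> nlinarith

theorem XX_eq {y1 y2 : ℕ} (h : y1 ≤ y2) : XX y1 y2 = th y2 - th y1 := by
  unfold XX th Sq lg
  have h1 : (Icc 1 y2).filter Nat.Prime =
      (Icc 1 y1).filter Nat.Prime ∪ (Ioc y1 y2).filter Nat.Prime := by
    ext q
    simp only [mem_filter, mem_Icc, mem_union, mem_Ioc]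
    constructor
    · rintro ⟨⟨h1, h2⟩, h3⟩
      rcases le_or_gt q y1 with h4 | h4
      · left; exact ⟨⟨h1, h4⟩, h3⟩
      · right; exact ⟨⟨h4, h2⟩, h3⟩
    · rintro (⟨⟨h1, h2⟩, h3⟩ | ⟨⟨h1, h2⟩, h3⟩)
      · exact ⟨⟨h1, by omega⟩, h3⟩
      · exact ⟨⟨by omega, h2⟩, h3⟩
  have h2 : Disjoint ((Icc 1 y1).filter Nat.Prime) ((Ioc y1 y2).filter Nat.Prime) := by
    rw [Finset.disjoint_left]
    intro q hq hq'
    simp only [mem_filter, mem_Icc, mem_Ioc] at hq hq'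
    omega
  rw [h1, sum_union h2]
  ring

/-- Proof. `th_pnt (ε/32)`, `n ≤ 16 (y2 - y1)`. -/
theorem XX_bounds (ε : ℝ) (hε : 0 < ε) : ∃ n0 : ℕ, ∀ n : ℕ, n0 ≤ n → ∀ N y1 y2 : ℕ,
    Win n N y1 y2 → (1 - ε) * ((y2 : ℝ) - y1) ≤ XX y1 y2 ∧
      XX y1 y2 ≤ (1 + ε) * ((y2 : ℝ) - y1) := by
  obtain ⟨n0, hn0⟩ := th_pnt (ε / 32) (by linarith)
  refine ⟨n0, fun n hn N y1 y2 hW => ?_⟩
  have h1 := hn0 n hn y1 (by have := hW.lt; have := hW.le; omega)
  have h2 := hn0 n hn y2 (by have := hW.le; omega)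
  have h3 := hW.len
  have h4 := hW.lt
  have h5 : (n : ℝ) ≤ 16 * ((y2 : ℝ) - y1) := by
    have h6 : (n : ℝ) ≤ ((16 * (y2 - y1) : ℕ) : ℝ) := by exact_mod_cast h3
    rw [Nat.cast_mul, Nat.cast_sub h4.le] at h6
    exact_mod_cast h6
  rw [XX_eq h4.le]
  rw [abs_le] at h1 h2
  constructor <;> nlinarith

/-- Proof. More conductors and a better bound (`1 ≤ log n`). -/
theorem SWp_mono {A A' n p1 : ℕ} (h : A ≤ A') (hn : 3 ≤ n) (hS : SWp A' n p1) : SWp A n p1 := by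
  have hN : (3 : ℝ) ≤ n := by exact_mod_cast hn
  have hL : 1 ≤ Real.log n := by
    rw [Real.le_log_iff_exp_le (by linarith)]
    have := Real.exp_one_lt_d9
    linarith
  intro p hp hp0 hpd y hy1 hy2
  have hp' := Pool.Agent.Lib.H68T.mem_PC.mp hp
  have hp2 : p ∈ Pool.Agent.Lib.H68T.PC ⌊Real.log n ^ A'⌋₊ := by
    rw [Pool.Agent.Lib.H68T.mem_PC]
    refine ⟨hp'.1, le_trans hp'.2.1 ?_, hp'.2.2⟩
    apply Nat.floor_le_floor
    exact pow_le_pow_right₀ hL h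
  refine (hS p hp2 hp0 hpd y hy1 hy2).trans ?_
  apply div_le_div_of_nonneg_left (Nat.cast_nonneg _) (by positivity)
  exact pow_le_pow_right₀ hL h

end Pool.Agent.Lib.H59C
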