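import Pool.Agent.Lib.H59C.CDefs

/-!
# CPW: the pointwise inequality of the weighted sieve
-/

open Finset

namespace Pool.Agent.Lib.H59C

theorem CPW_yy (n : ℕ) : yy n ^ 3 = 2 * n := by
  unfold yy
  rw [← Real.rpow_natCast, ← Real.rpow_mul (by positivity)]
  norm_num

theorem CPW_yy_le (n : ℕ) (hn : 2 ≤ n) : yy n ≤ n := by
  have hn0 : (2 : ℝ) ≤ n := by exact_mod_cast hn
  have h0 : 0 ≤ yy n := by unfold yy; positivity
  refine le_of_not_gt fun h => ?_
  have h1 : (n : ℝ) ^ 3 < yy n ^ 3 := pow_lt_pow_left₀ h (by linarith) (by norm_num)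
  rw [CPW_yy] at h1
  have h2 : (4 : ℝ) ≤ (n : ℝ) ^ 2 := by nlinarith
  have h3 : (n : ℝ) ^ 3 = (n : ℝ) ^ 2 * n := by ring
  nlinarith

theorem CPW_one_le_yy (n : ℕ) (hn : 2 ≤ n) : 1 ≤ yy n := by
  have hn0 : (2 : ℝ) ≤ n := by exact_mod_cast hn
  unfold yy
  exact Real.one_le_rpow (by linarith) (by norm_num)

/-- `1 < a < 2 n`, `a` odd. -/
theorem CPW_size {n N y1 y2 p : ℕ} (hn : 100 ≤ n) (hW : Win n N y1 y2) (hp : p ∈ Sq y1 y2) :
    1 < Nat.dist N p ∧ Nat.dist N p < 2 * n ∧ ¬ 2 ∣ Nat.dist N p := by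
  rw [mem_Sq] at hp
  obtain ⟨⟨h1, h2⟩, hpr⟩ := hp
  have h3 := hW.lo
  have h4 := hW.N2
  have h5 := hW.le
  have hodd : ¬ 2 ∣ p := by
    intro h
    rw [Nat.prime_dvd_prime_iff_eq Nat.prime_two hpr] at h
    omega
  have h6 := hW.even
  rcases hW.side with ⟨h7, h8⟩ | ⟨h7, h8⟩
  · rw [Nat.dist_eq_sub_of_le_right (by omega)]
    refine ⟨by omega, by omega, by omega⟩
  · rw [Nat.dist_eq_sub_of_le (by omega)]
    refine ⟨by omega, by omega, by omega⟩

open Classical in
/-- Chen's weights.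

Proof. `p` is odd (`p > y1 ≥ n/16 ≥ 3`) and `N` even, so `a = |N - p|` is odd; a prime `q ∣ a` with `q ∣ N` divides `p`, so
`q = p ∣ N`: excluded. So every prime factor of `a` is in `PP n N p1` (odd, `≤ a ≤ 2n`; if `q > n`, then `q ≥ zz n` anyway) or
`≥ zz n`; as no `q ∈ PP`, `q < zz n` divides `a`, all prime factors are `≥ z`. `a` is not divisible by the
square of a prime (they are `≥ z`), `1 < a < 2 n` (`a` odd), so `a` is a product of `Ω ≥ 1` distinct primes `≥ z`. Suppose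
`Ω ≥ 3`. Let `r` be the number of its prime factors in `[z, y)`, all are in `QQ` (`q < y ≤ n`). If `r ≥ 2` the bracket is
`≤ 0`. If `r = 0`: `a ≥ y³ = 2n`, contradiction. If `r = 1`: at most two prime factors `≥ y` (three would give `a ≥ z · 2 n`),
so exactly two, `Tri n a`, and the bracket is `1 - 1/2 - 1/2 = 0`. -/
theorem pointwise : ∃ n0 : ℕ, ∀ n : ℕ, n0 ≤ n → ∀ N y1 y2 p1 : ℕ, Win n N y1 y2 → ∀ p ∈ Sq y1 y2,
    ¬ p ∣ N → ¬ p1 ∣ Nat.dist N p → (∀ q : ℕ, q.Prime → zz n ≤ q → ¬ q ^ 2 ∣ Nat.dist N p) →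
    (∀ q ∈ PP n N p1, (q : ℝ) < zz n → ¬ q ∣ Nat.dist N p) →
    0 < 1 - 1 / 2 * (((QQ n N p1).filter (fun q => q ∣ Nat.dist N p)).card : ℝ) -
      1 / 2 * (if Tri n (Nat.dist N p) then 1 else 0) →
    (∀ q : ℕ, q.Prime → q ∣ Nat.dist N p → (n : ℝ) ^ (1 / 10 : ℝ) ≤ q) ∧
    ((Nat.dist N p).Prime ∨ ∃ r s : ℕ, r.Prime ∧ s.Prime ∧ Nat.dist N p = r * s) := by
  refine ⟨100, fun n hn N y1 y2 p1 hW p hp hpN hp1 hsq hsift hbr => ?_⟩
  obtain ⟨ha1, ha2, hodd⟩ := CPW_size hn hW hp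
  have hppr : p.Prime := (mem_Sq.1 hp).2
  have hn1 : (100 : ℝ) ≤ n := by exact_mod_cast hn
  have hzn : zz n ≤ n := by
    unfold zz
    calc (n : ℝ) ^ (1 / 8 : ℝ) ≤ (n : ℝ) ^ (1 : ℝ) :=
          Real.rpow_le_rpow_of_exponent_le (by linarith) (by norm_num)
      _ = n := Real.rpow_one _
  set a := Nat.dist N p with ha
  -- prime factors
  have hdiv : ∀ q : ℕ, q.Prime → q ∣ a → ¬ q ∣ N := by
    intro q hq hqa hqN
    have h1 : q ∣ p := by
      rcases le_total N p with h | h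
      · rw [ha, Nat.dist_eq_sub_of_le h] at hqa
        have h2 := dvd_add hqa hqN
        rwa [Nat.sub_add_cancel h] at h2
      · rw [ha, Nat.dist_eq_sub_of_le_right h] at hqa
        have h2 := Nat.dvd_sub hqN hqa
        rwa [Nat.sub_sub_self h] at h2
    rw [Nat.prime_dvd_prime_iff_eq hq hppr] at h1
    rw [h1] at hqN
    exact hpN hqN
  have hPP : ∀ q : ℕ, q.Prime → q ∣ a → q ≤ n → q ∈ PP n N p1 := by
    intro q hq hqa hqn
    rw [mem_PP]
    refine ⟨⟨?_, hqn⟩, hq, hdiv q hq hqa, ?_⟩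
    · have h2 := hq.two_le
      rcases Nat.lt_or_ge 2 q with h | h
      · exact h
      · have h3 : q = 2 := by omega
        rw [h3] at hqa
        exact absurd hqa hodd
    · rintro rfl
      exact hp1 hqa
  have hz : ∀ q : ℕ, q.Prime → q ∣ a → zz n ≤ q := by
    intro q hq hqa
    refine le_of_not_gt fun h => ?_
    have hqn : q ≤ n := by
      have : (q : ℝ) ≤ n := by linarith
      exact_mod_cast this
    exact hsift q (hPP q hq hqa hqn) h hqa
  have hsqf : Squarefree a := by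
    rw [Nat.squarefree_iff_prime_squarefree]
    intro q hq hqa
    refine hsq q hq (hz q hq (dvd_trans (dvd_mul_right q q) hqa)) ?_
    rwa [pow_two]
  constructor
  · intro q hq hqa
    refine le_trans ?_ (hz q hq hqa)
    unfold zz
    exact Real.rpow_le_rpow_of_exponent_le (by linarith) (by norm_num)
  -- small and large prime factors
  set A := a.primeFactors.filter (fun q : ℕ => (q : ℝ) < yy n) with hA
  set B := a.primeFactors.filter (fun q : ℕ => ¬ (q : ℝ) < yy n) with hB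
  have hprod : (∏ q ∈ A, q) * ∏ q ∈ B, q = a := by
    rw [hA, hB, Finset.prod_filter_mul_prod_filter_not a.primeFactors (fun q : ℕ => (q : ℝ) < yy n)]
    exact Nat.prod_primeFactors_of_squarefree hsqf
  have hAm : ∀ q ∈ A, q.Prime ∧ q ∣ a ∧ (q : ℝ) < yy n := by
    intro q hq
    rw [hA, Finset.mem_filter, Nat.mem_primeFactors] at hq
    exact ⟨hq.1.1, hq.1.2.1, hq.2⟩
  have hBm : ∀ q ∈ B, q.Prime ∧ q ∣ a ∧ yy n ≤ q := by
    intro q hq
    rw [hB, Finset.mem_filter, Nat.mem_primeFactors] at hq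
    exact ⟨hq.1.1, hq.1.2.1, not_lt.1 hq.2⟩
  have hyn := CPW_yy_le n (by omega)
  have hy1 := CPW_one_le_yy n (by omega)
  have hAQ : A ⊆ (QQ n N p1).filter (fun q => q ∣ a) := by
    intro q hq
    obtain ⟨h1, h2, h3⟩ := hAm q hq
    rw [Finset.mem_filter]
    refine ⟨?_, h2⟩
    unfold QQ
    rw [Finset.mem_filter, mem_PR]
    have hqn : q ≤ n := by
      have : (q : ℝ) ≤ n := by linarith
      exact_mod_cast this
    exact ⟨⟨h1, hz q h1 h2, h3⟩, hPP q h1 h2 hqn⟩
  have hAc : (A.card : ℝ) ≤ (((QQ n N p1).filter (fun q => q ∣ a)).card : ℝ) := by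
    exact_mod_cast Finset.card_le_card hAQ
  have hT0 : (0 : ℝ) ≤ (if Tri n a then 1 else 0) := by split_ifs <;> norm_num
  have hA2 : A.card < 2 := by
    have h1 : (A.card : ℝ) < 2 := by linarith
    exact_mod_cast h1
  have hB3 : B.card < 3 := by
    by_contra hc
    push Not at hc
    have h1 : (2 * n : ℝ) ≤ ((∏ q ∈ B, q : ℕ) : ℝ) := by
      rw [← CPW_yy, Nat.cast_prod]
      calc yy n ^ 3 ≤ yy n ^ B.card := pow_le_pow_right₀ hy1 hc
        _ = ∏ q ∈ B, yy n := by rw [Finset.prod_const]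
        _ ≤ ∏ q ∈ B, (q : ℝ) :=
          Finset.prod_le_prod (fun q _ => by linarith) fun q hq => (hBm q hq).2.2
    have h2 : ∏ q ∈ B, q ≤ a :=
      Nat.le_of_dvd (by omega) ⟨∏ q ∈ A, q, by rw [mul_comm]; exact hprod.symm⟩
    have h3 : (2 * n : ℝ) ≤ (a : ℝ) := h1.trans (by exact_mod_cast h2)
    have h4 : 2 * n ≤ a := by exact_mod_cast h3
    omega
  have hAcase : A.card = 0 ∨ A.card = 1 := by omega
  have hBcase : B.card = 0 ∨ B.card = 1 ∨ B.card = 2 := by omega
  rcases hAcase with hA0 | hA1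
  · rw [Finset.card_eq_zero] at hA0
    rw [hA0, Finset.prod_empty, one_mul] at hprod
    rcases hBcase with hB0 | hB1 | hB2
    · rw [Finset.card_eq_zero] at hB0
      rw [hB0, Finset.prod_empty] at hprod
      omega
    · obtain ⟨q, hq⟩ := Finset.card_eq_one.1 hB1
      rw [hq, Finset.prod_singleton] at hprod
      left
      rw [← hprod]
      exact (hBm q (by rw [hq]; exact Finset.mem_singleton_self q)).1
    · obtain ⟨q, r, hqr, hq⟩ := Finset.card_eq_two.1 hB2
      rw [hq, Finset.prod_pair hqr] at hprod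
      right
      refine ⟨q, r, (hBm q ?_).1, (hBm r ?_).1, hprod.symm⟩
      · rw [hq]; simp
      · rw [hq]; simp
  · obtain ⟨s, hs⟩ := Finset.card_eq_one.1 hA1
    have hs' := hAm s (by rw [hs]; exact Finset.mem_singleton_self s)
    rw [hs, Finset.prod_singleton] at hprod
    rcases hBcase with hB0 | hB1 | hB2
    · rw [Finset.card_eq_zero] at hB0
      rw [hB0, Finset.prod_empty, mul_one] at hprod
      left
      rw [← hprod]
      exact hs'.1
    · obtain ⟨q, hq⟩ := Finset.card_eq_one.1 hB1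
      rw [hq, Finset.prod_singleton] at hprod
      right
      exact ⟨s, q, hs'.1, (hBm q (by rw [hq]; exact Finset.mem_singleton_self q)).1, hprod.symm⟩
    · exfalso
      obtain ⟨q, r, hqr, hq⟩ := Finset.card_eq_two.1 hB2
      rw [hq, Finset.prod_pair hqr] at hprod
      have hqB := hBm q (by rw [hq]; simp)
      have hrB := hBm r (by rw [hq]; simp)
      have hTri : Tri n a := by
        rcases le_total q r with h | h
        · exact ⟨s, q, r, hs'.1, hqB.1, hrB.1, hz s hs'.1 hs'.2.1, hs'.2.2, hqB.2.2, h, by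
            rw [mul_assoc]; exact hprod.symm⟩
        · exact ⟨s, r, q, hs'.1, hrB.1, hqB.1, hz s hs'.1 hs'.2.1, hs'.2.2, hrB.2.2, h, by
            rw [mul_assoc, mul_comm r q]; exact hprod.symm⟩
      rw [if_pos hTri] at hbr
      rw [hA1, Nat.cast_one] at hAc
      linarith

end Pool.Agent.Lib.H59C
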