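import Pool.Agent.Lib.H59C.BIL

/-!
# PRJ: dyadic summation for products
-/

open Finset

namespace Pool.Agent.Lib.H59C

open Pool.Agent.Lib.H68T (PC p0 e)

/-- the dyadic piece of `n` above `R` -/
def prj_dy (R n : ℕ) : ℕ := Nat.log 2 ((n - 1) / R)

theorem prj_dy_spec {R n : ℕ} (hR : 1 ≤ R) (hn : R < n) :
    2 ^ prj_dy R n * R < n ∧ n ≤ 2 * (2 ^ prj_dy R n * R) := by
  have h1 : (n - 1) / R ≠ 0 := by
    have : 1 ≤ (n - 1) / R := (Nat.le_div_iff_mul_le (by omega)).2 (by omega)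
    omega
  have h2 : 2 ^ prj_dy R n ≤ (n - 1) / R := Nat.pow_log_le_self 2 h1
  have h3 : (n - 1) / R < 2 ^ (prj_dy R n + 1) := Nat.lt_pow_succ_log_self (by norm_num) _
  rw [Nat.le_div_iff_mul_le (by omega)] at h2
  rw [Nat.div_lt_iff_lt_mul (by omega), pow_succ] at h3
  constructor
  · omega
  · have : 2 ^ prj_dy R n * 2 * R = 2 * (2 ^ prj_dy R n * R) := by ring
    omega

theorem prj_dy_lt {R n Q : ℕ} (hQ : n ≤ Q) : prj_dy R n < Nat.log 2 Q + 1 := by
  rw [Nat.lt_succ_iff]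
  apply Nat.log_mono_right
  exact (Nat.div_le_self _ _).trans (by omega)

theorem prj_log {Q : ℕ} (hQ : 2 ≤ Q) : ((Nat.log 2 Q + 1 : ℕ) : ℝ) ≤ 3 * Real.log Q := by
  have hQ2 : (2 : ℝ) ≤ Q := by exact_mod_cast hQ
  have hl2 := Real.log_two_gt_d9
  have h1 : ((2 : ℝ) ^ Nat.log 2 Q) ≤ Q := by
    exact_mod_cast Nat.pow_log_le_self 2 (by omega : Q ≠ 0)
  have h2 := Real.log_le_log (by positivity) h1
  rw [Real.log_pow] at h2
  have h3 := Real.log_le_log (by norm_num) hQ2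
  push_cast
  have h4 : (0 : ℝ) ≤ Nat.log 2 Q := Nat.cast_nonneg _
  nlinarith

/-- the square root -/
theorem prj_sqrt {M N R : ℝ} (hM : 0 ≤ M) (hN : 0 ≤ N) (hR : 0 ≤ R) :
    Real.sqrt ((M + R ^ 2) * (N + R ^ 2)) ≤
      Real.sqrt (M * N) + R * Real.sqrt M + R * Real.sqrt N + R ^ 2 := by
  have h1 : Real.sqrt (M * N) = Real.sqrt M * Real.sqrt N := Real.sqrt_mul hM N
  have h0 : ∀ x : ℝ, 0 ≤ x → Real.sqrt (x + R ^ 2) ≤ Real.sqrt x + R := by
    intro x hx
    rw [Real.sqrt_le_left (by positivity)]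
    have h1 := Real.sq_sqrt hx
    have h2 : 0 ≤ Real.sqrt x * R := by positivity
    nlinarith
  have h2 := h0 M hM
  have h3 := h0 N hN
  rw [Real.sqrt_mul (by positivity), h1]
  calc _ ≤ (Real.sqrt M + R) * (Real.sqrt N + R) :=
        mul_le_mul h2 h3 (Real.sqrt_nonneg _) (by positivity)
    _ = _ := by ring

open Classical in
/-- The analogue for products: as in `psi_dyad`/`psi_sum`, with `bil'`. Here `α` is supported on
`m ≤ M`, `β` on `n ≤ N`, both bounded by `L`: for each dyadic `R` the bound is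
`C/R √((M + R²)(N + R²) M N L⁴) ≤ C L² (M N/R + M √N + N √M + R √(M N))`. -/
theorem prod_sum : ∃ C : ℝ, 0 < C ∧ ∀ (R0 Q M N : ℕ), 1 ≤ R0 → 1 ≤ M → 1 ≤ N → 2 ≤ Q →
    ∀ (L : ℝ), 0 ≤ L → ∀ α β : ℕ → ℂ, (∀ m, ‖α m‖ ≤ L) → (∀ m, ‖β m‖ ≤ L) →
    ∑ p ∈ (PC Q).filter (fun p => R0 < p.1), 1 / (Nat.totient p.1 : ℝ) *
      (‖∑ m ∈ Icc 1 M, α m * p.2 (m : ZMod p.1)‖ * ‖∑ n ∈ Icc 1 N, β n * p.2 (n : ZMod p.1)‖) ≤
      C * Real.log Q * L ^ 2 * ((M : ℝ) * N / R0 + M * Real.sqrt N + N * Real.sqrt M +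
        Q * Real.sqrt ((M : ℝ) * N)) := by
  obtain ⟨C₀, hC₀, hb⟩ := bil'
  refine ⟨3 * C₀, by positivity, ?_⟩
  intro R0 Q M N hR0 hM hN hQ L hL α β hα hβ
  obtain ⟨f, hf⟩ : ∃ f : PCh → ℝ, ∀ p, f p = 1 / (Nat.totient p.1 : ℝ) *
      (‖∑ m ∈ Icc 1 M, α m * p.2 (m : ZMod p.1)‖ * ‖∑ n ∈ Icc 1 N, β n * p.2 (n : ZMod p.1)‖) :=
    ⟨_, fun _ => rfl⟩
  simp only [← hf]
  have hf0 : ∀ p, 0 ≤ f p := by
    intro p
    rw [hf]
    positivity
  have hR0r : (1 : ℝ) ≤ R0 := by exact_mod_cast hR0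
  have hMr : (1 : ℝ) ≤ M := by exact_mod_cast hM
  have hNr : (1 : ℝ) ≤ N := by exact_mod_cast hN
  have hmaps : ∀ p ∈ (PC Q).filter (fun p => R0 < p.1),
      prj_dy R0 p.1 ∈ range (Nat.log 2 Q + 1) := by
    intro p hp
    rw [mem_filter, Pool.Agent.Lib.H68T.mem_PC] at hp
    rw [mem_range]
    exact prj_dy_lt hp.1.2.1
  obtain ⟨T, hT⟩ : ∃ T : ℝ, T = C₀ * L ^ 2 * ((M : ℝ) * N / R0 + M * Real.sqrt N +
      N * Real.sqrt M + Q * Real.sqrt ((M : ℝ) * N)) := ⟨_, rfl⟩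
  have hT0 : 0 ≤ T := by rw [hT]; positivity
  have hpiece : ∀ i ∈ range (Nat.log 2 Q + 1),
      ∑ p ∈ ((PC Q).filter (fun p => R0 < p.1)).filter (fun p => prj_dy R0 p.1 = i), f p ≤ T := by
    intro i _
    by_cases hi : 2 ^ i * R0 ≤ Q
    · obtain ⟨R, hRdef⟩ : ∃ R, R = 2 ^ i * R0 := ⟨_, rfl⟩
      have hRR0 : R0 ≤ R := by
        rw [hRdef]
        exact Nat.le_mul_of_pos_left _ (by positivity)
      have hR1 : 1 ≤ R := hR0.trans hRR0
      have hsub : ((PC Q).filter (fun p => R0 < p.1)).filter (fun p => prj_dy R0 p.1 = i) ⊆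
          PD R := by
        intro p hp
        rw [mem_filter, mem_filter, Pool.Agent.Lib.H68T.mem_PC] at hp
        obtain ⟨⟨⟨h1, h2, h3⟩, h4⟩, h5⟩ := hp
        have h6 := prj_dy_spec hR0 h4
        rw [h5, ← hRdef] at h6
        rw [PD, mem_filter, Pool.Agent.Lib.H68T.mem_PC]
        exact ⟨⟨h1, h6.2, h3⟩, h6.1⟩
      refine (sum_le_sum_of_subset_of_nonneg hsub fun p _ _ => hf0 p).trans ?_
      have h1 := hb R M N hR1 hM hN α β
      simp only [← hf] at h1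
      refine h1.trans ?_
      have hRr : (1 : ℝ) ≤ R := by exact_mod_cast hR1
      have hRQ : (R : ℝ) ≤ Q := by rw [hRdef]; exact_mod_cast hi
      have hRR : (R0 : ℝ) ≤ R := by exact_mod_cast hRR0
      have hA : ∑ m ∈ Icc 1 M, ‖α m‖ ^ 2 ≤ M * L ^ 2 := by
        refine (sum_le_sum fun m _ => pow_le_pow_left₀ (norm_nonneg _) (hα m) 2).trans ?_
        rw [sum_const, Nat.card_Icc, nsmul_eq_mul, Nat.add_sub_cancel]
      have hB : ∑ m ∈ Icc 1 N, ‖β m‖ ^ 2 ≤ N * L ^ 2 := by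
        refine (sum_le_sum fun m _ => pow_le_pow_left₀ (norm_nonneg _) (hβ m) 2).trans ?_
        rw [sum_const, Nat.card_Icc, nsmul_eq_mul, Nat.add_sub_cancel]
      have h2 : Real.sqrt (((M : ℝ) + (R : ℝ) ^ 2) * ((N : ℝ) + (R : ℝ) ^ 2) *
          (∑ m ∈ Icc 1 M, ‖α m‖ ^ 2) * ∑ n ∈ Icc 1 N, ‖β n‖ ^ 2) ≤
          Real.sqrt (((M : ℝ) + (R : ℝ) ^ 2) * ((N : ℝ) + (R : ℝ) ^ 2)) *
            (L ^ 2 * Real.sqrt ((M : ℝ) * N)) := by
        have e1 : L ^ 2 * Real.sqrt ((M : ℝ) * N) = Real.sqrt ((M * L ^ 2) * (N * L ^ 2)) := by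
          have e2 : ((M : ℝ) * L ^ 2) * (N * L ^ 2) = (L ^ 2) ^ 2 * (M * N) := by ring
          rw [e2, Real.sqrt_mul (by positivity : (0 : ℝ) ≤ (L ^ 2) ^ 2),
            Real.sqrt_sq (by positivity)]
        rw [e1, ← Real.sqrt_mul (by positivity)]
        apply Real.sqrt_le_sqrt
        rw [mul_assoc (((M : ℝ) + (R : ℝ) ^ 2) * ((N : ℝ) + (R : ℝ) ^ 2))]
        exact mul_le_mul_of_nonneg_left (mul_le_mul hA hB (by positivity) (by positivity))
          (by positivity)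
      have h3 := prj_sqrt (M := M) (N := N) (R := R) (by positivity) (by positivity) (by positivity)
      have h4 : Real.sqrt ((M : ℝ) * N) = Real.sqrt M * Real.sqrt N := Real.sqrt_mul (by positivity) _
      have hsM : Real.sqrt M * Real.sqrt M = M := Real.mul_self_sqrt (by positivity)
      have hsN : Real.sqrt N * Real.sqrt N = N := Real.mul_self_sqrt (by positivity)
      have hR0' : (0 : ℝ) < R := by linarith
      calc C₀ / R * Real.sqrt (((M : ℝ) + (R : ℝ) ^ 2) * ((N : ℝ) + (R : ℝ) ^ 2) *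
          (∑ m ∈ Icc 1 M, ‖α m‖ ^ 2) * ∑ n ∈ Icc 1 N, ‖β n‖ ^ 2)
          ≤ C₀ / R * ((Real.sqrt (M * N) + R * Real.sqrt M + R * Real.sqrt N + R ^ 2) *
            (L ^ 2 * Real.sqrt ((M : ℝ) * N))) := by
            refine mul_le_mul_of_nonneg_left (h2.trans ?_) (by positivity)
            exact mul_le_mul_of_nonneg_right h3 (by positivity)
        _ = C₀ * L ^ 2 * ((M : ℝ) * N / R + M * Real.sqrt N + N * Real.sqrt M +
            R * Real.sqrt ((M : ℝ) * N)) := by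
            rw [h4]
            have e1 : (Real.sqrt M * Real.sqrt N) * (Real.sqrt M * Real.sqrt N) = M * N := by
              calc _ = (Real.sqrt M * Real.sqrt M) * (Real.sqrt N * Real.sqrt N) := by ring
                _ = _ := by rw [hsM, hsN]
            have e2 : (R * Real.sqrt M) * (Real.sqrt M * Real.sqrt N) = R * (M * Real.sqrt N) := by
              calc _ = R * ((Real.sqrt M * Real.sqrt M) * Real.sqrt N) := by ring
                _ = _ := by rw [hsM]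
            have e3 : (R * Real.sqrt N) * (Real.sqrt M * Real.sqrt N) = R * (N * Real.sqrt M) := by
              calc _ = R * ((Real.sqrt N * Real.sqrt N) * Real.sqrt M) := by ring
                _ = _ := by rw [hsN]
            have e4 : (Real.sqrt M * Real.sqrt N + R * Real.sqrt M + R * Real.sqrt N + R ^ 2) *
                (Real.sqrt M * Real.sqrt N) = M * N + R * (M * Real.sqrt N) +
                R * (N * Real.sqrt M) + R ^ 2 * (Real.sqrt M * Real.sqrt N) := by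
              rw [add_mul, add_mul, add_mul, e1, e2, e3]
            have e5 : C₀ / R * ((Real.sqrt M * Real.sqrt N + R * Real.sqrt M + R * Real.sqrt N +
                R ^ 2) * (L ^ 2 * (Real.sqrt M * Real.sqrt N))) = C₀ / R * L ^ 2 *
                ((Real.sqrt M * Real.sqrt N + R * Real.sqrt M + R * Real.sqrt N + R ^ 2) *
                (Real.sqrt M * Real.sqrt N)) := by ring
            rw [e5, e4]
            field_simp
        _ ≤ T := by
            rw [hT]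
            gcongr
    · have hempty : ((PC Q).filter (fun p => R0 < p.1)).filter
          (fun p => prj_dy R0 p.1 = i) = ∅ := by
        rw [filter_eq_empty_iff]
        intro p hp h5
        rw [mem_filter, Pool.Agent.Lib.H68T.mem_PC] at hp
        have h6 := prj_dy_spec hR0 hp.2
        rw [h5] at h6
        exact hi (h6.1.le.trans hp.1.2.1)
      rw [hempty, sum_empty]
      exact hT0
  rw [← sum_fiberwise_of_maps_to hmaps]
  refine (sum_le_sum hpiece).trans ?_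
  rw [sum_const, card_range, nsmul_eq_mul]
  refine (mul_le_mul_of_nonneg_right (prj_log hQ) hT0).trans (le_of_eq ?_)
  rw [hT]
  ring

end Pool.Agent.Lib.H59C
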