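import Pool.Agent.Lib.H59C.BV1
import Pool.Agent.Lib.H59C.PRJ

/-!
# BV3: level of distribution of products
-/

open Finset

namespace Pool.Agent.Lib.H59C

open Pool.Agent.Lib.H68T (PC p0 e)

open Classical in
/-- the coefficients of the product -/
noncomputable def bv3_f (M u v : ℕ) (α : ℕ → ℝ) (j : ℕ) : ℂ :=
  ∑ m ∈ Icc 1 M, ∑ q ∈ (Ioc u v).filter Nat.Prime,
    if m * q = j then (α m : ℂ) * (Real.log q : ℂ) else 0

theorem bv3_sum (M u v : ℕ) (α : ℕ → ℝ) (S : ℕ → Prop) [DecidablePred S] (g : ℕ → ℂ) :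
    ∑ j ∈ (Icc 1 (M * v)).filter S, bv3_f M u v α j * g j =
      ∑ m ∈ Icc 1 M, ∑ q ∈ (Ioc u v).filter Nat.Prime,
        if S (m * q) then (α m : ℂ) * (Real.log q : ℂ) * g (m * q) else 0 := by
  unfold bv3_f
  rw [sum_filter]
  have h1 : ∀ j ∈ Icc 1 (M * v), (if S j then (∑ m ∈ Icc 1 M, ∑ q ∈ (Ioc u v).filter Nat.Prime,
      if m * q = j then (α m : ℂ) * (Real.log q : ℂ) else 0) * g j else 0) =
      ∑ m ∈ Icc 1 M, ∑ q ∈ (Ioc u v).filter Nat.Prime,
        if m * q = j then (if S j then (α m : ℂ) * (Real.log q : ℂ) * g j else 0) else 0 := by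
    intro j _
    split_ifs with h
    · rw [sum_mul]
      refine sum_congr rfl fun m _ => ?_
      rw [sum_mul]
      refine sum_congr rfl fun q _ => ?_
      split_ifs <;> simp
    · simp
  rw [sum_congr rfl h1, sum_comm]
  refine sum_congr rfl fun m hm => ?_
  rw [sum_comm]
  refine sum_congr rfl fun q hq => ?_
  rw [sum_ite_eq]
  rw [if_pos]
  rw [mem_Icc] at hm ⊢
  rw [mem_filter, mem_Ioc] at hq
  exact ⟨Nat.mul_pos hm.1 (by omega), Nat.mul_le_mul hm.2 hq.1.2⟩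

open Classical in
/-- the sum over `m` -/
noncomputable def bv3_A (M : ℕ) (α : ℕ → ℝ) (k : ℕ) (p : PCh) : ℂ :=
  ∑ m ∈ (Icc 1 M).filter (fun m => m.Coprime k), (α m : ℂ) * p.2 (m : ZMod p.1)

open Classical in
/-- the sum over the primes -/
noncomputable def bv3_T (u v : ℕ) (k : ℕ) (p : PCh) : ℂ :=
  ∑ q ∈ (Ioc u v).filter (fun q => q.Prime ∧ q.Coprime k), (Real.log q : ℂ) * p.2 (q : ZMod p.1)

open Classical in
theorem bv3_fac (M u v : ℕ) (α : ℕ → ℝ) (k : ℕ) (p : PCh) :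
    ∑ j ∈ (Icc 1 (M * v)).filter (fun j => j.Coprime k), bv3_f M u v α j * p.2 (j : ZMod p.1) =
      bv3_A M α k p * bv3_T u v k p := by
  rw [bv3_sum M u v α (fun j => j.Coprime k) (fun j => p.2 (j : ZMod p.1))]
  unfold bv3_A bv3_T
  rw [sum_mul_sum, sum_filter]
  refine sum_congr rfl fun m _ => ?_
  rw [← filter_filter]
  by_cases hm : m.Coprime k
  · rw [if_pos hm, sum_filter (s := (Ioc u v).filter Nat.Prime)]
    refine sum_congr rfl fun q _ => ?_
    by_cases hq : q.Coprime k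
    · rw [if_pos hq, if_pos (Nat.Coprime.mul_left hm hq)]
      push_cast
      rw [map_mul]
      ring
    · rw [if_neg hq, if_neg]
      intro h
      exact hq (Nat.Coprime.coprime_mul_left h)
  · rw [if_neg hm]
    refine sum_eq_zero fun q _ => ?_
    rw [if_neg]
    intro h
    exact hm (Nat.Coprime.coprime_mul_right h)

open Classical in
/-- the deviation in one class -/
theorem bv3_dev (M u v d a : ℕ) (α : ℕ → ℝ) (hd : 1 ≤ d) (ha : a.Coprime d) :
    |∑ m ∈ Icc 1 M, α m * ∑ q ∈ (Ioc u v).filter (fun q => q.Prime ∧ m * q ≡ a [MOD d]),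
          Real.log q -
        1 / (Nat.totient d : ℝ) * ((∑ m ∈ (Icc 1 M).filter (fun m => m.Coprime d), α m) *
          ∑ q ∈ (Ioc u v).filter (fun q => q.Prime ∧ q.Coprime d), Real.log q)| ≤
      1 / (Nat.totient d : ℝ) * ∑ p ∈ (PC d).filter (fun p => p ≠ p0 ∧ p.1 ∣ d),
        (‖bv3_A M α (d / p.1) p‖ * ‖bv3_T u v (d / p.1) p‖) := by
  have h1 := prog_gen d a (M * v) hd ha (bv3_f M u v α)
  have h2 : ∀ p ∈ (PC d).filter (fun p => p ≠ p0 ∧ p.1 ∣ d),
      ‖∑ m ∈ (Icc 1 (M * v)).filter (fun m => m.Coprime (d / p.1)),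
        bv3_f M u v α m * p.2 (m : ZMod p.1)‖ =
      ‖bv3_A M α (d / p.1) p‖ * ‖bv3_T u v (d / p.1) p‖ := by
    intro p _
    rw [bv3_fac, norm_mul]
  rw [sum_congr rfl h2] at h1
  refine le_trans (le_of_eq ?_) h1
  rw [← Real.norm_eq_abs, ← Complex.norm_real]
  congr 1
  have h3 := bv3_sum M u v α (fun m => m ≡ a [MOD d]) (fun _ => 1)
  have h4 := bv3_sum M u v α (fun m => m.Coprime d) (fun _ => 1)
  simp only [mul_one] at h3 h4
  rw [h3, h4]
  have h5 : (∑ m ∈ Icc 1 M, ∑ q ∈ (Ioc u v).filter Nat.Prime,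
      if m * q ≡ a [MOD d] then (α m : ℂ) * (Real.log q : ℂ) else 0) =
      ((∑ m ∈ Icc 1 M, α m * ∑ q ∈ (Ioc u v).filter (fun q => q.Prime ∧ m * q ≡ a [MOD d]),
          Real.log q : ℝ) : ℂ) := by
    push_cast
    refine sum_congr rfl fun m _ => ?_
    rw [mul_sum, ← filter_filter, sum_filter (s := (Ioc u v).filter Nat.Prime)]
  have h6 : (∑ m ∈ Icc 1 M, ∑ q ∈ (Ioc u v).filter Nat.Prime,
      if (m * q).Coprime d then (α m : ℂ) * (Real.log q : ℂ) else 0) =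
      (((∑ m ∈ (Icc 1 M).filter (fun m => m.Coprime d), α m) *
          ∑ q ∈ (Ioc u v).filter (fun q => q.Prime ∧ q.Coprime d), Real.log q : ℝ) : ℂ) := by
    push_cast
    rw [sum_mul_sum, sum_filter (s := Icc 1 M)]
    refine sum_congr rfl fun m _ => ?_
    rw [← filter_filter]
    by_cases hm : m.Coprime d
    · rw [if_pos hm, sum_filter (s := (Ioc u v).filter Nat.Prime)]
      refine sum_congr rfl fun q _ => ?_
      by_cases hq : q.Coprime d
      · rw [if_pos hq, if_pos (Nat.Coprime.mul_left hm hq)]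
      · rw [if_neg hq, if_neg]
        intro h
        exact hq (Nat.Coprime.coprime_mul_left h)
    · rw [if_neg hm]
      refine sum_eq_zero fun q _ => ?_
      rw [if_neg]
      intro h
      exact hm (Nat.Coprime.coprime_mul_right h)
  rw [h5, h6]
  push_cast
  ring

theorem bv3_norm_chi (p : PCh) (m : ℕ) : ‖p.2 (m : ZMod p.1)‖ ≤ 1 :=
  DirichletCharacter.norm_le_one _ _

/-- prime powers -/
theorem bv3_pp (p : PCh) (y : ℕ) :
    ‖psi y p - ∑ q ∈ (Icc 1 y).filter Nat.Prime, (Real.log q : ℂ) * p.2 (q : ZMod p.1)‖ ≤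
      2 * Real.sqrt y * Real.log y := by
  rcases Nat.eq_zero_or_pos y with h0 | h0
  · subst h0
    simp [psi]
  have h1 : psi y p - ∑ q ∈ (Icc 1 y).filter Nat.Prime, (Real.log q : ℂ) * p.2 (q : ZMod p.1) =
      ∑ m ∈ (Icc 1 y).filter (fun m => ¬ m.Prime),
        (ArithmeticFunction.vonMangoldt m : ℂ) * p.2 (m : ZMod p.1) := by
    unfold psi
    rw [← sum_filter_add_sum_filter_not (Icc 1 y) Nat.Prime
      (fun m => (ArithmeticFunction.vonMangoldt m : ℂ) * p.2 (m : ZMod p.1))]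
    have h2 : ∑ q ∈ (Icc 1 y).filter Nat.Prime, (Real.log q : ℂ) * p.2 (q : ZMod p.1) =
        ∑ q ∈ (Icc 1 y).filter Nat.Prime,
          (ArithmeticFunction.vonMangoldt q : ℂ) * p.2 (q : ZMod p.1) := by
      refine sum_congr rfl fun q hq => ?_
      rw [mem_filter] at hq
      rw [ArithmeticFunction.vonMangoldt_apply_prime hq.2]
    rw [h2]
    ring
  rw [h1]
  refine (norm_sum_le _ _).trans ?_
  have h3 : ∀ m ∈ (Icc 1 y).filter (fun m => ¬ m.Prime),
      ‖(ArithmeticFunction.vonMangoldt m : ℂ) * p.2 (m : ZMod p.1)‖ ≤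
        ArithmeticFunction.vonMangoldt m := by
    intro m _
    rw [norm_mul, Complex.norm_real, Real.norm_of_nonneg ArithmeticFunction.vonMangoldt_nonneg]
    exact mul_le_of_le_one_right ArithmeticFunction.vonMangoldt_nonneg (bv3_norm_chi p m)
  refine (sum_le_sum h3).trans ?_
  have h4 : (1 : ℝ) ≤ (y : ℝ) := by exact_mod_cast h0
  refine le_trans (le_of_eq ?_) (Chebyshev.psi_sub_theta_le h4)
  have h5 : Chebyshev.psi (y : ℝ) = ∑ m ∈ Icc 1 y, ArithmeticFunction.vonMangoldt m := by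
    unfold Chebyshev.psi
    rw [Nat.floor_natCast]
    rfl
  have h6 : Chebyshev.theta (y : ℝ) =
      ∑ q ∈ (Icc 1 y).filter Nat.Prime, ArithmeticFunction.vonMangoldt q := by
    unfold Chebyshev.theta
    rw [Nat.floor_natCast]
    refine sum_congr rfl fun q hq => ?_
    rw [mem_filter] at hq
    rw [ArithmeticFunction.vonMangoldt_apply_prime hq.2]
  rw [h5, h6, ← sum_filter_add_sum_filter_not (Icc 1 y) Nat.Prime
      (fun m => ArithmeticFunction.vonMangoldt m)]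
  ring

open Classical in
theorem bv3_T_le (u v k : ℕ) (p : PCh) (huv : u ≤ v) (hk : 1 ≤ k) :
    ‖bv3_T u v k p‖ ≤ ‖psi v p‖ + ‖psi u p‖ + 4 * (Real.sqrt v * Real.log v) + Real.log k := by
  set T0 : ℕ → ℂ := fun y => ∑ q ∈ (Icc 1 y).filter Nat.Prime,
    (Real.log q : ℂ) * p.2 (q : ZMod p.1) with hT0
  set N : ℂ := ∑ q ∈ (Ioc u v).filter (fun q => q.Prime ∧ ¬ q.Coprime k),
    (Real.log q : ℂ) * p.2 (q : ZMod p.1) with hN
  have h1 : bv3_T u v k p = T0 v - T0 u - N := by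
    have h2 : T0 v = T0 u + ∑ q ∈ (Ioc u v).filter Nat.Prime,
        (Real.log q : ℂ) * p.2 (q : ZMod p.1) := by
      simp only [hT0]
      rw [← sum_union]
      · congr 1
        ext q
        simp only [mem_filter, mem_union, mem_Icc, mem_Ioc]
        constructor
        · rintro ⟨⟨h3, h4⟩, h5⟩
          by_cases h6 : q ≤ u
          · exact Or.inl ⟨⟨h3, h6⟩, h5⟩
          · exact Or.inr ⟨⟨by omega, h4⟩, h5⟩
        · rintro (⟨⟨h3, h4⟩, h5⟩ | ⟨⟨h3, h4⟩, h5⟩)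
          · exact ⟨⟨h3, by omega⟩, h5⟩
          · exact ⟨⟨by omega, h4⟩, h5⟩
      · rw [disjoint_left]
        intro q hq hq'
        simp only [mem_filter, mem_Icc, mem_Ioc] at hq hq'
        omega
    have h3 : ∑ q ∈ (Ioc u v).filter Nat.Prime, (Real.log q : ℂ) * p.2 (q : ZMod p.1) =
        bv3_T u v k p + N := by
      unfold bv3_T
      rw [hN, ← filter_filter, ← filter_filter]
      exact (sum_filter_add_sum_filter_not _ _ _).symm
    rw [h2, h3]
    ring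
  have h4 : ‖T0 v‖ ≤ ‖psi v p‖ + 2 * (Real.sqrt v * Real.log v) := by
    have h5 := bv3_pp p v
    have h6 : T0 v = psi v p - (psi v p - T0 v) := by ring
    rw [h6]
    refine (norm_sub_le _ _).trans ?_
    have h7 : ‖psi v p - T0 v‖ ≤ 2 * Real.sqrt v * Real.log v := h5
    linarith
  have h8 : ‖T0 u‖ ≤ ‖psi u p‖ + 2 * (Real.sqrt v * Real.log v) := by
    have h5 := bv3_pp p u
    have h6 : T0 u = psi u p - (psi u p - T0 u) := by ring
    rw [h6]
    refine (norm_sub_le _ _).trans ?_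
    have h7 : ‖psi u p - T0 u‖ ≤ 2 * Real.sqrt u * Real.log u := h5
    have h9 : Real.sqrt u * Real.log u ≤ Real.sqrt v * Real.log v := by
      rcases Nat.eq_zero_or_pos u with h0 | h0
      · subst h0
        simp only [Nat.cast_zero, Real.sqrt_zero, Real.log_zero, mul_zero]
        exact mul_nonneg (Real.sqrt_nonneg _) (Real.log_natCast_nonneg v)
      · have h10 : (u : ℝ) ≤ v := by exact_mod_cast huv
        have h11 : (0 : ℝ) < u := by exact_mod_cast h0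
        exact mul_le_mul (Real.sqrt_le_sqrt h10) (Real.log_le_log h11 h10)
          (Real.log_natCast_nonneg u) (Real.sqrt_nonneg _)
    linarith
  have h12 : ‖N‖ ≤ Real.log k := by
    rw [hN]
    refine (norm_sum_le _ _).trans ?_
    have h13 : ∀ q ∈ (Ioc u v).filter (fun q => q.Prime ∧ ¬ q.Coprime k),
        ‖(Real.log q : ℂ) * p.2 (q : ZMod p.1)‖ ≤ Real.log q := by
      intro q _
      rw [norm_mul, Complex.norm_real, Real.norm_of_nonneg (Real.log_natCast_nonneg q)]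
      exact mul_le_of_le_one_right (Real.log_natCast_nonneg q) (bv3_norm_chi p q)
    refine (sum_le_sum h13).trans ?_
    have h14 : ∑ q ∈ (Ioc u v).filter (fun q => q.Prime ∧ ¬ q.Coprime k), Real.log q ≤
        ∑ q ∈ k.primeFactors, Real.log q := by
      apply sum_le_sum_of_subset_of_nonneg
      · intro q hq
        simp only [mem_filter] at hq
        rw [Nat.mem_primeFactors]
        refine ⟨hq.2.1, ?_, by omega⟩
        by_contra h
        exact hq.2.2 ((Nat.Prime.coprime_iff_not_dvd hq.2.1).2 h)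
      · intro q _ _
        exact Real.log_natCast_nonneg q
    refine h14.trans ?_
    rw [← Real.log_prod (fun q hq => by
      have := (Nat.prime_of_mem_primeFactors hq).pos
      positivity)]
    apply Real.log_le_log
    · apply prod_pos
      intro q hq
      have := (Nat.prime_of_mem_primeFactors hq).pos
      exact_mod_cast this
    · have := Nat.le_of_dvd hk (Nat.prod_primeFactors_dvd k)
      calc ∏ q ∈ k.primeFactors, (q : ℝ) = ((∏ q ∈ k.primeFactors, q : ℕ) : ℝ) := by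
            push_cast
            rfl
        _ ≤ k := by exact_mod_cast this
  rw [h1]
  have h15 := norm_sub_le (T0 v - T0 u) N
  have h16 := norm_sub_le (T0 v) (T0 u)
  linarith

open Classical in
theorem bv3_I : ∃ C : ℝ, 0 < C ∧ ∀ (R0 Q M u v k : ℕ), 1 ≤ R0 → 1 ≤ M → 1 ≤ v → 2 ≤ Q →
    ∀ (L : ℝ), 1 ≤ L → Real.log v ≤ L → ∀ α : ℕ → ℝ, (∀ m, |α m| ≤ 1) →
    ∑ p ∈ (PC Q).filter (fun p => R0 < p.1), 1 / (Nat.totient p.1 : ℝ) *
      (‖bv3_A M α k p‖ * ‖bv3_T u v k p‖) ≤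
      C * Real.log Q * L ^ 2 * ((M : ℝ) * v / R0 + M * Real.sqrt v + v * Real.sqrt M +
        Q * Real.sqrt ((M : ℝ) * v)) := by
  obtain ⟨C, hC, h⟩ := prod_sum
  refine ⟨C, hC, fun R0 Q M u v k h1 h2 h3 h4 L hL hvL α hα => ?_⟩
  set α' : ℕ → ℂ := fun m => if m.Coprime k then (α m : ℂ) else 0 with hα'
  set β' : ℕ → ℂ := fun q => if u < q ∧ q ≤ v ∧ q.Prime ∧ q.Coprime k then (Real.log q : ℂ) else 0
    with hβ'
  have h5 : ∀ m, ‖α' m‖ ≤ L := by
    intro m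
    simp only [hα']
    split_ifs
    · rw [Complex.norm_real, Real.norm_eq_abs]
      exact (hα m).trans hL
    · rw [norm_zero]
      linarith
  have h6 : ∀ m, ‖β' m‖ ≤ L := by
    intro q
    simp only [hβ']
    split_ifs with hq
    · rw [Complex.norm_real, Real.norm_of_nonneg (Real.log_natCast_nonneg q)]
      refine le_trans (Real.log_le_log ?_ ?_) hvL
      · have := hq.2.2.1.pos
        exact_mod_cast this
      · exact_mod_cast hq.2.1
    · rw [norm_zero]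
      linarith
  have h7 := h R0 Q M v h1 h2 h3 h4 L (by linarith) α' β' h5 h6
  refine le_trans (le_of_eq ?_) h7
  refine sum_congr rfl fun p _ => ?_
  congr 2
  · unfold bv3_A
    rw [sum_filter]
    congr 1
    refine sum_congr rfl fun m _ => ?_
    simp only [hα']
    split_ifs <;> simp
  · unfold bv3_T
    congr 1
    have h8 : (Ioc u v).filter (fun q => q.Prime ∧ q.Coprime k) =
        (Icc 1 v).filter (fun q => u < q ∧ q ≤ v ∧ q.Prime ∧ q.Coprime k) := by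
      ext q
      simp only [mem_filter, mem_Ioc, mem_Icc]
      constructor
      · rintro ⟨⟨a1, a2⟩, a3, a4⟩
        exact ⟨⟨a3.pos, a2⟩, a1, a2, a3, a4⟩
      · rintro ⟨_, a1, a2, a3, a4⟩
        exact ⟨⟨a1, a2⟩, a3, a4⟩
    rw [h8, sum_filter]
    refine sum_congr rfl fun m _ => ?_
    simp only [hβ']
    split_ifs <;> simp

theorem bv3_psi_le (p : PCh) (y : ℕ) : ‖psi y p‖ ≤ 6 * y := by
  unfold psi
  refine (norm_sum_le _ _).trans ?_
  have h3 : ∀ m ∈ Icc 1 y,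
      ‖(ArithmeticFunction.vonMangoldt m : ℂ) * p.2 (m : ZMod p.1)‖ ≤
        ArithmeticFunction.vonMangoldt m := by
    intro m _
    rw [norm_mul, Complex.norm_real, Real.norm_of_nonneg ArithmeticFunction.vonMangoldt_nonneg]
    exact mul_le_of_le_one_right ArithmeticFunction.vonMangoldt_nonneg (bv3_norm_chi p m)
  refine (sum_le_sum h3).trans ?_
  have h5 : Chebyshev.psi (y : ℝ) = ∑ m ∈ Icc 1 y, ArithmeticFunction.vonMangoldt m := by
    unfold Chebyshev.psi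
    rw [Nat.floor_natCast]
    rfl
  rw [← h5]
  have h6 := Chebyshev.psi_le_const_mul_self (x := (y : ℝ)) (Nat.cast_nonneg y)
  have h7 : Real.log 4 ≤ 2 := by
    have h8 : Real.log 4 = 2 * Real.log 2 := by
      rw [show (4 : ℝ) = 2 ^ 2 by norm_num, Real.log_pow]
      norm_num
    rw [h8]
    have := Real.log_two_lt_d9
    linarith
  have h9 : (0 : ℝ) ≤ y := Nat.cast_nonneg y
  nlinarith

theorem bv3_A_le (M k : ℕ) (α : ℕ → ℝ) (hα : ∀ m, |α m| ≤ 1) (p : PCh) :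
    ‖bv3_A M α k p‖ ≤ M := by
  unfold bv3_A
  refine (norm_sum_le _ _).trans ?_
  have h1 : ∀ m ∈ (Icc 1 M).filter (fun m => m.Coprime k),
      ‖(α m : ℂ) * p.2 (m : ZMod p.1)‖ ≤ 1 := by
    intro m _
    rw [norm_mul, Complex.norm_real, Real.norm_eq_abs]
    exact mul_le_one₀ (hα m) (norm_nonneg _) (bv3_norm_chi p m)
  refine (sum_le_sum h1).trans ?_
  rw [sum_const, nsmul_eq_mul, mul_one]
  have : ((Icc 1 M).filter (fun m => m.Coprime k)).card ≤ M := by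
    refine (card_filter_le _ _).trans ?_
    simp
  exact_mod_cast this

theorem bv3_II (A' n p1 M u v k R0 : ℕ) (hS : SWp A' n p1) (hn : 1 ≤ n) (hk : 1 ≤ k)
    (hR : R0 ≤ ⌊Real.log n ^ A'⌋₊) (α : ℕ → ℝ) (hα : ∀ m, |α m| ≤ 1)
    (hv : (n : ℝ) ^ (1 / 4 : ℝ) ≤ v) (hv8 : v ≤ 8 * n) (huv : u ≤ v) (hL : 1 ≤ Real.log n)
    (hlv : Real.log v ≤ 2 * Real.log n) (hlk : Real.log k ≤ Real.log n)
    (p : PCh) (hp : p ∈ PC R0) (hp0 : p ≠ p0) (hp1 : ¬ p1 ∣ p.1) :
    ‖bv3_A M α k p‖ * ‖bv3_T u v k p‖ ≤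
      M * (2 * (v / Real.log n ^ A') + 6 * (n : ℝ) ^ (1 / 10 : ℝ) +
        8 * (Real.sqrt v * Real.log n) + Real.log n) := by
  have h1 := bv3_A_le M k α hα p
  have h2 := bv3_T_le u v k p huv hk
  have hn1 : (1 : ℝ) ≤ n := by exact_mod_cast hn
  have hp' : p ∈ PC ⌊Real.log n ^ A'⌋₊ := by
    rw [Pool.Agent.Lib.H68T.mem_PC] at hp ⊢
    exact ⟨hp.1, hp.2.1.trans hR, hp.2.2⟩
  have hv10 : (n : ℝ) ^ (1 / 10 : ℝ) ≤ v :=
    (Real.rpow_le_rpow_of_exponent_le hn1 (by norm_num)).trans hv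
  have h3 := hS p hp' hp0 hp1 v hv10 hv8
  have hLA : (0 : ℝ) < Real.log n ^ A' := by positivity
  have h4 : ‖psi u p‖ ≤ v / Real.log n ^ A' + 6 * (n : ℝ) ^ (1 / 10 : ℝ) := by
    have h6 : (0 : ℝ) ≤ (n : ℝ) ^ (1 / 10 : ℝ) := Real.rpow_nonneg (Nat.cast_nonneg n) _
    have h7 : (0 : ℝ) ≤ v / Real.log n ^ A' := div_nonneg (Nat.cast_nonneg v) hLA.le
    by_cases h5 : (n : ℝ) ^ (1 / 10 : ℝ) ≤ u
    · have h8 := hS p hp' hp0 hp1 u h5 (huv.trans hv8)
      have h9 : (u : ℝ) / Real.log n ^ A' ≤ v / Real.log n ^ A' := by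
        apply div_le_div_of_nonneg_right _ hLA.le
        exact_mod_cast huv
      linarith
    · have h8 := bv3_psi_le p u
      push Not at h5
      linarith
  have h10 : Real.sqrt v * Real.log v ≤ 2 * (Real.sqrt v * Real.log n) := by
    have := mul_le_mul_of_nonneg_left hlv (Real.sqrt_nonneg (v : ℝ))
    linarith
  have h11 : ‖bv3_T u v k p‖ ≤ 2 * (v / Real.log n ^ A') + 6 * (n : ℝ) ^ (1 / 10 : ℝ) +
        8 * (Real.sqrt v * Real.log n) + Real.log n := by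
    linarith
  exact mul_le_mul h1 h11 (norm_nonneg _) (Nat.cast_nonneg M)

theorem bv3_ev (K : ℝ) (B' : ℕ) : ∃ n0 : ℕ, ∀ n : ℕ, n0 ≤ n → 8 ≤ n ∧ 1 ≤ Real.log n ∧
    K ≤ Real.log n ∧ 120 * Real.log n ^ B' ≤ (n : ℝ) ^ (1 / 8 : ℝ) := by
  have h1 := isLittleO_log_rpow_rpow_atTop (B' : ℝ) (show (0 : ℝ) < 1 / 8 by norm_num)
  have h2 := h1.bound (show (0 : ℝ) < 1 / 120 by norm_num)
  have h3 := Real.tendsto_log_atTop.eventually_ge_atTop (max 1 K)
  obtain ⟨x0, hx0⟩ := Filter.eventually_atTop.1 (h2.and h3)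
  obtain ⟨n0, hn0⟩ := exists_nat_ge (max x0 8)
  refine ⟨n0, fun n hn => ?_⟩
  have hn1 : (n0 : ℝ) ≤ n := by exact_mod_cast hn
  obtain ⟨h4, h5⟩ := hx0 n ((le_max_left _ _).trans (hn0.trans hn1))
  have h6 : (8 : ℝ) ≤ n := (le_max_right _ _).trans (hn0.trans hn1)
  have h7 : (1 : ℝ) ≤ Real.log n := (le_max_left _ _).trans h5
  refine ⟨by exact_mod_cast h6, h7, (le_max_right _ _).trans h5, ?_⟩
  rw [Real.rpow_natCast, Real.norm_of_nonneg (by positivity),
    Real.norm_of_nonneg (Real.rpow_nonneg (by linarith) _)] at h4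
  linarith

/-- the numerical facts -/
theorem bv3_num {n M v : ℕ} (hn : 8 ≤ n) (hM : (n : ℝ) ^ (1 / 4 : ℝ) ≤ M)
    (hv : (n : ℝ) ^ (1 / 4 : ℝ) ≤ v) (hMv : M * v ≤ 8 * n) (W : ℝ)
    (hW : W = 8 * n / (n : ℝ) ^ (1 / 8 : ℝ)) :
    (M : ℝ) * Real.sqrt v ≤ W ∧ (v : ℝ) * Real.sqrt M ≤ W ∧ (M : ℝ) ≤ W ∧
      (M : ℝ) * (n : ℝ) ^ (1 / 10 : ℝ) ≤ W := by
  have hn1 : (1 : ℝ) ≤ n := by
    have : 1 ≤ n := by omega
    exact_mod_cast this
  have hn0 : (0 : ℝ) < n := by linarith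
  have h8 : (1 : ℝ) ≤ (n : ℝ) ^ (1 / 8 : ℝ) := Real.one_le_rpow hn1 (by norm_num)
  have hsq : Real.sqrt ((n : ℝ) ^ (1 / 4 : ℝ)) = (n : ℝ) ^ (1 / 8 : ℝ) := by
    rw [Real.sqrt_eq_rpow, ← Real.rpow_mul hn0.le]
    norm_num
  have hMv' : (M : ℝ) * v ≤ 8 * n := by exact_mod_cast hMv
  have hsv : (n : ℝ) ^ (1 / 8 : ℝ) ≤ Real.sqrt v := by
    rw [← hsq]
    exact Real.sqrt_le_sqrt hv
  have hsM : (n : ℝ) ^ (1 / 8 : ℝ) ≤ Real.sqrt M := by
    rw [← hsq]
    exact Real.sqrt_le_sqrt hM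
  have hv2 : Real.sqrt v * Real.sqrt v = v := Real.mul_self_sqrt (Nat.cast_nonneg v)
  have hM2 : Real.sqrt M * Real.sqrt M = M := Real.mul_self_sqrt (Nat.cast_nonneg M)
  have hM0 : (0 : ℝ) ≤ M := Nat.cast_nonneg M
  have hv0 : (0 : ℝ) ≤ v := Nat.cast_nonneg v
  have hpos : (0 : ℝ) < (n : ℝ) ^ (1 / 8 : ℝ) := by linarith
  have k1 : (M : ℝ) * Real.sqrt v ≤ W := by
    rw [hW, le_div_iff₀ hpos]
    calc (M : ℝ) * Real.sqrt v * (n : ℝ) ^ (1 / 8 : ℝ)
        ≤ (M : ℝ) * Real.sqrt v * Real.sqrt v :=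
          mul_le_mul_of_nonneg_left hsv (by positivity)
      _ = M * v := by rw [mul_assoc, hv2]
      _ ≤ 8 * n := hMv'
  have k2 : (v : ℝ) * Real.sqrt M ≤ W := by
    rw [hW, le_div_iff₀ hpos]
    calc (v : ℝ) * Real.sqrt M * (n : ℝ) ^ (1 / 8 : ℝ)
        ≤ (v : ℝ) * Real.sqrt M * Real.sqrt M :=
          mul_le_mul_of_nonneg_left hsM (by positivity)
      _ = M * v := by rw [mul_assoc, hM2]; ring
      _ ≤ 8 * n := hMv'
  refine ⟨k1, k2, ?_, ?_⟩
  · refine le_trans ?_ k1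
    exact le_mul_of_one_le_right hM0 (h8.trans hsv)
  · refine le_trans ?_ k1
    apply mul_le_mul_of_nonneg_left _ hM0
    refine le_trans ?_ hsv
    exact Real.rpow_le_rpow_of_exponent_le hn1 (by norm_num)

open Classical in
/-- the sum over the characters, one `k` -/
theorem bv3_inner : ∃ C : ℝ, 0 < C ∧ ∀ (A n p1 M u v k D : ℕ), SWp (3 * A + 30) n p1 →
    8 ≤ n → 1 ≤ Real.log n → 120 * Real.log n ^ (3 * A + 31) ≤ (n : ℝ) ^ (1 / 8 : ℝ) →
    (n : ℝ) ^ (1 / 4 : ℝ) ≤ M → (n : ℝ) ^ (1 / 4 : ℝ) ≤ v → u ≤ v → M * v ≤ 8 * n →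
    1 ≤ k → k ≤ D → 2 ≤ D → (D : ℝ) ≤ Real.sqrt n / Real.log n ^ (A + 12) →
    ∀ α : ℕ → ℝ, (∀ m, |α m| ≤ 1) →
    ∑ p ∈ (PC D).filter (fun p => p ≠ p0 ∧ ¬ p1 ∣ p.1), 1 / (Nat.totient p.1 : ℝ) *
      (‖bv3_A M α k p‖ * ‖bv3_T u v k p‖) ≤
      (84 * C + 17) * (Real.log n ^ 3 * (n / Real.log n ^ (A + 10))) := by
  obtain ⟨C, hC, hI⟩ := bv3_I
  refine ⟨C, hC, fun A n p1 M u v k D hS hn8 hL h120 hM hv huv hMv hk hkD hD2 hD α hα => ?_⟩
  set L := Real.log n with hLdef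
  set R0 := ⌊L ^ (A + 10)⌋₊ with hR0
  have hn1 : (1 : ℝ) ≤ n := by
    have : 1 ≤ n := by omega
    exact_mod_cast this
  have hn0 : (0 : ℝ) < n := by linarith
  have hL0 : 0 < L := by linarith
  have hLA1 : (1 : ℝ) ≤ L ^ (A + 10) := one_le_pow₀ hL
  have hR1 : 1 ≤ R0 := by
    rw [hR0, Nat.one_le_floor_iff]
    exact hLA1
  have hRle : (R0 : ℝ) ≤ L ^ (A + 10) := Nat.floor_le (by linarith)
  have hRge : L ^ (A + 10) / 2 ≤ (R0 : ℝ) := by
    have h1 := Nat.lt_floor_add_one (L ^ (A + 10))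
    have h2 : (1 : ℝ) ≤ R0 := by exact_mod_cast hR1
    rw [← hR0] at h1
    linarith
  obtain ⟨W, hW⟩ : ∃ W : ℝ, W = 8 * n / (n : ℝ) ^ (1 / 8 : ℝ) := ⟨_, rfl⟩
  obtain ⟨w1, w2, w3, w4⟩ := bv3_num hn8 hM hv hMv W hW
  have hM1 : 1 ≤ M := by
    have h1 : (1 : ℝ) ≤ (n : ℝ) ^ (1 / 4 : ℝ) := Real.one_le_rpow hn1 (by norm_num)
    exact_mod_cast h1.trans hM
  have hv1 : 1 ≤ v := by
    have h1 : (1 : ℝ) ≤ (n : ℝ) ^ (1 / 4 : ℝ) := Real.one_le_rpow hn1 (by norm_num)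
    exact_mod_cast h1.trans hv
  have hv8 : v ≤ 8 * n := le_trans (Nat.le_mul_of_pos_left v hM1) hMv
  have hlv : Real.log v ≤ 2 * L := by
    have h1 : (v : ℝ) ≤ (n : ℝ) ^ 2 := by
      have h2 : v ≤ n ^ 2 := by
        calc v ≤ 8 * n := hv8
          _ ≤ n * n := Nat.mul_le_mul_right n hn8
          _ = n ^ 2 := (sq n).symm
      exact_mod_cast h2
    have h3 := Real.log_le_log (by exact_mod_cast hv1) h1
    rw [Real.log_pow] at h3
    exact_mod_cast h3
  have hDn : (D : ℝ) ≤ n := by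
    refine hD.trans ?_
    have h1 : (1 : ℝ) ≤ L ^ (A + 12) := one_le_pow₀ hL
    refine (div_le_self (Real.sqrt_nonneg _) h1).trans ?_
    rw [Real.sqrt_le_left (by linarith)]
    nlinarith
  have hlD : Real.log D ≤ L := Real.log_le_log (by
    have : 0 < D := by omega
    exact_mod_cast this) hDn
  have hlk : Real.log k ≤ L := by
    refine le_trans (Real.log_le_log (by exact_mod_cast hk) ?_) hlD
    exact_mod_cast hkD
  have hWL : W * (15 * L) ≤ n / L ^ (3 * A + 30) := by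
    rw [hW, div_mul_eq_mul_div, div_le_div_iff₀ (by positivity) (by positivity)]
    have h1 : (8 * (n : ℝ) * (15 * L)) * L ^ (3 * A + 30) = n * (120 * L ^ (3 * A + 31)) := by ring
    rw [h1]
    exact mul_le_mul_of_nonneg_left h120 hn0.le
  have hMv' : (M : ℝ) * v ≤ 8 * n := by exact_mod_cast hMv
  -- the split
  have hsplit : ∑ p ∈ (PC D).filter (fun p => p ≠ p0 ∧ ¬ p1 ∣ p.1), 1 / (Nat.totient p.1 : ℝ) *
      (‖bv3_A M α k p‖ * ‖bv3_T u v k p‖) ≤
      ∑ p ∈ (PC D).filter (fun p => R0 < p.1), 1 / (Nat.totient p.1 : ℝ) *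
        (‖bv3_A M α k p‖ * ‖bv3_T u v k p‖) +
      ∑ p ∈ (PC R0).filter (fun p => p ≠ p0 ∧ ¬ p1 ∣ p.1), 1 / (Nat.totient p.1 : ℝ) *
        (‖bv3_A M α k p‖ * ‖bv3_T u v k p‖) := by
    rw [← sum_union]
    · apply sum_le_sum_of_subset_of_nonneg
      · intro p hp
        rw [mem_filter, Pool.Agent.Lib.H68T.mem_PC] at hp
        rw [mem_union, mem_filter, mem_filter, Pool.Agent.Lib.H68T.mem_PC,
          Pool.Agent.Lib.H68T.mem_PC]
        by_cases h : R0 < p.1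
        · exact Or.inl ⟨hp.1, h⟩
        · exact Or.inr ⟨⟨hp.1.1, not_lt.1 h, hp.1.2.2⟩, hp.2⟩
      · intro p _ _
        positivity
    · rw [disjoint_left]
      intro p hp hp'
      rw [mem_filter] at hp
      rw [mem_filter, Pool.Agent.Lib.H68T.mem_PC] at hp'
      omega
  -- large conductors
  have hbig := hI R0 D M u v k hR1 hM1 hv1 hD2 (2 * L) (by linarith) hlv α hα
  have hT1 : (M : ℝ) * v / R0 ≤ 16 * (n / L ^ (A + 10)) := by
    have h1 : (M : ℝ) * v / R0 ≤ 8 * n / (L ^ (A + 10) / 2) :=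
      div_le_div₀ (by positivity) hMv' (by positivity) hRge
    refine h1.trans (le_of_eq ?_)
    field_simp
    ring
  have hWn : W ≤ n / L ^ (A + 10) := by
    have h1 : W * 1 ≤ W * (15 * L) := by
      apply mul_le_mul_of_nonneg_left (by linarith)
      rw [hW]
      positivity
    have h2 : (n : ℝ) / L ^ (3 * A + 30) ≤ n / L ^ (A + 10) := by
      apply div_le_div_of_nonneg_left hn0.le (by positivity)
      exact pow_le_pow_right₀ hL (by omega)
    linarith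
  have hT2 : (D : ℝ) * Real.sqrt ((M : ℝ) * v) ≤ 3 * (n / L ^ (A + 10)) := by
    have h1 : Real.sqrt ((M : ℝ) * v) ≤ 3 * Real.sqrt n := by
      refine (Real.sqrt_le_sqrt hMv').trans ?_
      rw [Real.sqrt_le_left (by positivity), mul_pow, Real.sq_sqrt hn0.le]
      linarith
    have h2 : (D : ℝ) * Real.sqrt ((M : ℝ) * v) ≤
        Real.sqrt n / L ^ (A + 12) * (3 * Real.sqrt n) :=
      mul_le_mul hD h1 (Real.sqrt_nonneg _) (by positivity)
    have h3 : Real.sqrt n / L ^ (A + 12) * (3 * Real.sqrt n) = 3 * (n / L ^ (A + 12)) := by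
      rw [div_mul_eq_mul_div, show Real.sqrt n * (3 * Real.sqrt n) =
        3 * (Real.sqrt n * Real.sqrt n) by ring, Real.mul_self_sqrt hn0.le]
      ring
    have h4 : (n : ℝ) / L ^ (A + 12) ≤ n / L ^ (A + 10) := by
      apply div_le_div_of_nonneg_left hn0.le (by positivity)
      exact pow_le_pow_right₀ hL (by omega)
    linarith
  have hbig2 : ∑ p ∈ (PC D).filter (fun p => R0 < p.1), 1 / (Nat.totient p.1 : ℝ) *
        (‖bv3_A M α k p‖ * ‖bv3_T u v k p‖) ≤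
      84 * C * (L ^ 3 * (n / L ^ (A + 10))) := by
    refine hbig.trans ?_
    have h1 : (M : ℝ) * v / R0 + M * Real.sqrt v + v * Real.sqrt M +
        D * Real.sqrt ((M : ℝ) * v) ≤ 21 * (n / L ^ (A + 10)) := by linarith
    have h2 : C * Real.log D * (2 * L) ^ 2 ≤ C * L * (2 * L) ^ 2 := by
      apply mul_le_mul_of_nonneg_right _ (by positivity)
      exact mul_le_mul_of_nonneg_left hlD hC.le
    have h3 : (0 : ℝ) ≤ (M : ℝ) * v / R0 + M * Real.sqrt v + v * Real.sqrt M +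
        D * Real.sqrt ((M : ℝ) * v) := by positivity
    refine (mul_le_mul h2 h1 h3 (by positivity)).trans (le_of_eq ?_)
    ring
  -- small conductors
  have hsmall : ∑ p ∈ (PC R0).filter (fun p => p ≠ p0 ∧ ¬ p1 ∣ p.1), 1 / (Nat.totient p.1 : ℝ) *
        (‖bv3_A M α k p‖ * ‖bv3_T u v k p‖) ≤ 17 * (n / L ^ (A + 10)) := by
    have hR : R0 ≤ ⌊L ^ (3 * A + 30)⌋₊ := Nat.floor_le_floor (pow_le_pow_right₀ hL (by omega))
    have h1 : ∀ p ∈ (PC R0).filter (fun p => p ≠ p0 ∧ ¬ p1 ∣ p.1), 1 / (Nat.totient p.1 : ℝ) *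
        (‖bv3_A M α k p‖ * ‖bv3_T u v k p‖) ≤ 17 * (n / L ^ (3 * A + 30)) := by
      intro p hp
      rw [mem_filter] at hp
      have h2 := bv3_II (3 * A + 30) n p1 M u v k R0 hS (by omega) hk hR α hα hv hv8 huv hL hlv hlk
        p hp.1 hp.2.1 hp.2.2
      have h3 : 1 / (Nat.totient p.1 : ℝ) ≤ 1 := by
        rw [Pool.Agent.Lib.H68T.mem_PC] at hp
        have h4 : 1 ≤ Nat.totient p.1 := Nat.totient_pos.2 hp.1.1
        have h5 : (1 : ℝ) ≤ Nat.totient p.1 := by exact_mod_cast h4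
        rw [div_le_one (by linarith)]
        exact h5
      have h6 : 1 / (Nat.totient p.1 : ℝ) * (‖bv3_A M α k p‖ * ‖bv3_T u v k p‖) ≤
          ‖bv3_A M α k p‖ * ‖bv3_T u v k p‖ := mul_le_of_le_one_left (by positivity) h3
      refine h6.trans (h2.trans ?_)
      have h7 : (M : ℝ) * (2 * (v / L ^ (3 * A + 30)) + 6 * (n : ℝ) ^ (1 / 10 : ℝ) +
          8 * (Real.sqrt v * L) + L) = 2 * ((M * v) / L ^ (3 * A + 30)) +
          6 * (M * (n : ℝ) ^ (1 / 10 : ℝ)) + 8 * ((M * Real.sqrt v) * L) + M * L := by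
        ring
      rw [h7]
      have h8 : ((M : ℝ) * v) / L ^ (3 * A + 30) ≤ 8 * (n / L ^ (3 * A + 30)) := by
        rw [mul_div_assoc']
        exact div_le_div_of_nonneg_right hMv' (by positivity)
      have h9 : ((M : ℝ) * Real.sqrt v) * L ≤ W * L := mul_le_mul_of_nonneg_right w1 hL0.le
      have h10 : (M : ℝ) * L ≤ W * L := mul_le_mul_of_nonneg_right w3 hL0.le
      have h11 : W * 1 ≤ W * L := by
        apply mul_le_mul_of_nonneg_left hL
        rw [hW]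
        positivity
      linarith
    refine (sum_le_sum h1).trans ?_
    rw [sum_const, nsmul_eq_mul]
    have h12 : (((PC R0).filter (fun p => p ≠ p0 ∧ ¬ p1 ∣ p.1)).card : ℝ) ≤ L ^ (2 * A + 20) := by
      have h13 : ((PC R0).filter (fun p => p ≠ p0 ∧ ¬ p1 ∣ p.1)).card ≤ R0 ^ 2 :=
        (card_filter_le _ _).trans (Pool.Agent.Lib.H68T.card_PC_le R0)
      have h14 : (((PC R0).filter (fun p => p ≠ p0 ∧ ¬ p1 ∣ p.1)).card : ℝ) ≤ (R0 : ℝ) ^ 2 := by
        exact_mod_cast h13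
      refine h14.trans ?_
      have h15 : L ^ (2 * A + 20) = (L ^ (A + 10)) ^ 2 := by
        rw [← pow_mul]
        congr 1
        ring
      rw [h15]
      exact pow_le_pow_left₀ (Nat.cast_nonneg _) hRle 2
    refine (mul_le_mul_of_nonneg_right h12 (by positivity)).trans (le_of_eq ?_)
    have h16 : L ^ (3 * A + 30) = L ^ (2 * A + 20) * L ^ (A + 10) := by
      rw [← pow_add]
      congr 1
      ring
    rw [h16]
    field_simp
  have h17 : (n : ℝ) / L ^ (A + 10) ≤ L ^ 3 * (n / L ^ (A + 10)) :=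
    le_mul_of_one_le_left (by positivity) (one_le_pow₀ hL)
  calc _ ≤ _ := hsplit
    _ ≤ 84 * C * (L ^ 3 * (n / L ^ (A + 10))) + 17 * (n / L ^ (A + 10)) :=
      add_le_add hbig2 hsmall
    _ ≤ _ := by linarith

open Classical in
/-- Level of distribution `1/2` of the products `m q`, `m ≤ M` with arbitrary bounded weights, `q` prime
in `(u, v]` with weight `log q`.

Proof. `prog_gen` with `y = M v` and `f j = ∑_{m q = j} α_m log q` (the sum over `j` coprime to `d` is the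
sum over the pairs with both coprime to `d`). The character sums factor:
`∑_{(j,k)=1} f(j) χ(j) = A_k(χ) T_k(χ)`, `A_k(χ) = ∑_{m ≤ M, (m,k)=1} α_m χ(m)`,
`T_k(χ) = ∑_{u < q ≤ v, (q,k)=1} χ(q) log q`. `exchange` with `F k p = ‖A_k(p)‖ ‖T_k(p)‖`; for every fixed `k ≤ D`
(the weights `1/φ(k)` sum to `≤ C L`, `L = log n`): conductors `> R0`: `prod_sum` with these sequences
(bounded by `log (8n) ≤ 2L`): `C L^3 (8 n/R0 + 8 n v^(-1/2) + 8 n M^(-1/2) + D √(8n))`, where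
`v, M ≥ n^(1/4)`. Conductors `≤ R0 = ⌊L^(A+10)⌋`: `‖A_k‖ ≤ M`,
`‖T_k‖ ≤ ‖psi v p‖ + ‖psi u p‖ + 4 √v log v + 2 log k log v` (prime powers; primes dividing `k`), `SWp A' n p1`
with `A' = 2A + 30` for `v ≥ n^(1/4)`, and for `u ≥ n^(1/10)`; for `u < n^(1/10)` `‖psi u p‖ ≤ 2 u`; in total
`R0 M (v/L^A' + ...) ≤ n L^(-A-5)`. Take `B = A + 12`. -/
theorem bv_bil (A : ℕ) : ∃ A' B n0 : ℕ, ∀ n : ℕ, n0 ≤ n → ∀ p1 : ℕ, SWp A' n p1 →
    ∀ (M u v a : ℕ) (α : ℕ → ℝ), (∀ m, |α m| ≤ 1) → (n : ℝ) ^ (1 / 4 : ℝ) ≤ M →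
    (n : ℝ) ^ (1 / 4 : ℝ) ≤ v → u ≤ v → M * v ≤ 8 * n →
    ∑ d ∈ (Icc 1 (DD n B)).filter (fun d => a.Coprime d ∧ ¬ p1 ∣ d),
      |∑ m ∈ Icc 1 M, α m * ∑ q ∈ (Ioc u v).filter (fun q => q.Prime ∧ m * q ≡ a [MOD d]),
          Real.log q -
        1 / (Nat.totient d : ℝ) * ((∑ m ∈ (Icc 1 M).filter (fun m => m.Coprime d), α m) *
          ∑ q ∈ (Ioc u v).filter (fun q => q.Prime ∧ q.Coprime d), Real.log q)| ≤
      n / Real.log n ^ A := by
  obtain ⟨C0, hC0, hφ⟩ := sum_inv_totient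
  obtain ⟨C, hC, hin⟩ := bv3_inner
  obtain ⟨n0, hn0⟩ := bv3_ev (C0 * (84 * C + 17)) (3 * A + 31)
  refine ⟨3 * A + 30, A + 12, n0, fun n hn p1 hS M u v a α hα hM hv huv hMv => ?_⟩
  obtain ⟨hn8, hL, hLC, h120⟩ := hn0 n hn
  have hn1 : (1 : ℝ) ≤ n := by
    have : 1 ≤ n := by omega
    exact_mod_cast this
  have hn00 : (0 : ℝ) < n := by linarith
  have hDle : ((DD n (A + 12) : ℕ) : ℝ) ≤ Real.sqrt n / Real.log n ^ (A + 12) := by
    unfold DD
    exact Nat.floor_le (by positivity)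
  have hD2 : 2 ≤ DD n (A + 12) := by
    unfold DD
    apply Nat.le_floor
    rw [le_div_iff₀ (by positivity)]
    have h1 : Real.log n ^ (A + 12) ≤ Real.log n ^ (3 * A + 31) :=
      pow_le_pow_right₀ hL (by omega)
    have h2 : (n : ℝ) ^ (1 / 8 : ℝ) ≤ Real.sqrt n := by
      rw [Real.sqrt_eq_rpow]
      exact Real.rpow_le_rpow_of_exponent_le hn1 (by norm_num)
    have h3 : (0 : ℝ) ≤ Real.log n ^ (A + 12) := by positivity
    push_cast
    linarith
  set D := DD n (A + 12) with hD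
  set L := Real.log n with hLdef
  have hL0 : 0 < L := by linarith
  set F : ℕ → PCh → ℝ := fun k p => ‖bv3_A M α k p‖ * ‖bv3_T u v k p‖ with hF
  have hF0 : ∀ k p, 0 ≤ F k p := fun k p => by positivity
  have h1 : ∑ d ∈ (Icc 1 D).filter (fun d => a.Coprime d ∧ ¬ p1 ∣ d),
      |∑ m ∈ Icc 1 M, α m * ∑ q ∈ (Ioc u v).filter (fun q => q.Prime ∧ m * q ≡ a [MOD d]),
          Real.log q -
        1 / (Nat.totient d : ℝ) * ((∑ m ∈ (Icc 1 M).filter (fun m => m.Coprime d), α m) *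
          ∑ q ∈ (Ioc u v).filter (fun q => q.Prime ∧ q.Coprime d), Real.log q)| ≤
      ∑ d ∈ (Icc 1 D).filter (fun d => ¬ p1 ∣ d), 1 / (Nat.totient d : ℝ) *
        ∑ p ∈ (PC d).filter (fun p => p ≠ p0 ∧ p.1 ∣ d), F (d / p.1) p := by
    have h2 : ∀ d ∈ (Icc 1 D).filter (fun d => a.Coprime d ∧ ¬ p1 ∣ d),
        |∑ m ∈ Icc 1 M, α m * ∑ q ∈ (Ioc u v).filter (fun q => q.Prime ∧ m * q ≡ a [MOD d]),
          Real.log q -
        1 / (Nat.totient d : ℝ) * ((∑ m ∈ (Icc 1 M).filter (fun m => m.Coprime d), α m) *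
          ∑ q ∈ (Ioc u v).filter (fun q => q.Prime ∧ q.Coprime d), Real.log q)| ≤
        1 / (Nat.totient d : ℝ) *
          ∑ p ∈ (PC d).filter (fun p => p ≠ p0 ∧ p.1 ∣ d), F (d / p.1) p := by
      intro d hd
      rw [mem_filter, mem_Icc] at hd
      exact bv3_dev M u v d a α hd.1.1 hd.2.1
    refine (sum_le_sum h2).trans ?_
    apply sum_le_sum_of_subset_of_nonneg
    · intro d hd
      rw [mem_filter] at hd ⊢
      exact ⟨hd.1, hd.2.2⟩
    · intro d _ _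
      exact mul_nonneg (by positivity) (sum_nonneg fun p _ => hF0 _ _)
  refine h1.trans ((exchange D p1 F hF0).trans ?_)
  have h3 : ∀ k ∈ Icc 1 D, 1 / (Nat.totient k : ℝ) *
        ∑ p ∈ (PC D).filter (fun p => p ≠ p0 ∧ ¬ p1 ∣ p.1), 1 / (Nat.totient p.1 : ℝ) * F k p ≤
      1 / (Nat.totient k : ℝ) * ((84 * C + 17) * (L ^ 3 * (n / L ^ (A + 10)))) := by
    intro k hk
    rw [mem_Icc] at hk
    apply mul_le_mul_of_nonneg_left _ (by positivity)
    exact hin A n p1 M u v k D hS hn8 hL h120 hM hv huv hMv hk.1 hk.2 hD2 hDle α hα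
  refine (sum_le_sum h3).trans ?_
  rw [← sum_mul]
  have hDn : (D : ℝ) ≤ n := by
    refine hDle.trans ?_
    have h1 : (1 : ℝ) ≤ L ^ (A + 12) := one_le_pow₀ hL
    refine (div_le_self (Real.sqrt_nonneg _) h1).trans ?_
    rw [Real.sqrt_le_left (by linarith)]
    nlinarith
  have hlD : Real.log D ≤ L := Real.log_le_log (by
    have : 0 < D := by omega
    exact_mod_cast this) hDn
  have h4 : ∑ k ∈ Icc 1 D, 1 / (Nat.totient k : ℝ) ≤ C0 * L :=
    (hφ D hD2).trans (mul_le_mul_of_nonneg_left hlD hC0.le)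
  refine (mul_le_mul_of_nonneg_right h4 (by positivity)).trans ?_
  have h5 : C0 * L * ((84 * C + 17) * (L ^ 3 * (n / L ^ (A + 10)))) =
      (C0 * (84 * C + 17)) * (n / L ^ (A + 6)) := by
    have h6 : L ^ (A + 10) = L ^ (A + 6) * L ^ 4 := by rw [← pow_add]
    rw [h6]
    field_simp
  rw [h5]
  calc (C0 * (84 * C + 17)) * (n / L ^ (A + 6)) ≤ L * (n / L ^ (A + 6)) :=
        mul_le_mul_of_nonneg_right hLC (by positivity)
    _ = n / L ^ (A + 5) := by
        have h6 : L ^ (A + 6) = L ^ (A + 5) * L := by rw [← pow_succ]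
        rw [h6]
        field_simp
    _ ≤ n / L ^ A := by
        apply div_le_div_of_nonneg_left hn00.le (by positivity)
        exact pow_le_pow_right₀ hL (by omega)

end Pool.Agent.Lib.H59C
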