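import Pool.Agent.Lib.H59C.CR1

/-!
# CR: the remainder terms of the sieves for `|N - p|`
-/

open Finset

namespace Pool.Agent.Lib.H59C

theorem cr_coprime {n N p1 d : ℕ} {z : ℝ} (hp1 : p1.Prime)
    (hd : ∀ q ∈ d.primeFactors, q ∈ PP n N p1 ∧ (q : ℝ) < z) (hd0 : d ≠ 0) :
    N.Coprime d ∧ ¬ p1 ∣ d := by
  constructor
  · apply Nat.coprime_of_dvd
    intro k hk hkN hkd
    have h1 := (hd k (Nat.mem_primeFactors.mpr ⟨hk, hkd, hd0⟩)).1
    rw [mem_PP] at h1
    exact h1.2.2.1 hkN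
  · intro h
    have h1 := (hd p1 (Nat.mem_primeFactors.mpr ⟨hp1, h, hd0⟩)).1
    rw [mem_PP] at h1
    exact h1.2.2.2 rfl

open Classical in
/-- Remainder terms of the sieve of the whole sequence and of the subsequences `q ∣ |N - p|`, `q ∈ QQ`.

Proof. `rem_total` with the same `A', B`. First part: the `d` in `remd` are squarefree with prime factors in `PP n N p1`,
hence coprime to `N` and not divisible by `p1` (if `p1` is prime and divides `d` it is a prime factor of `d`, but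
`p1 ∉ PP`). Second part: for `q ∈ QQ` and `d ≤ D/q` composed of primes `< z ≤ q`: `d q ≤ D`, `(d, q) = 1`,
`q ∣ a` and `d ∣ a` iff `d q ∣ a`, `gq q / φ(d) = 1/φ(d q)`; the products `d q` are pairwise different (`q` is the only
prime factor `≥ z`), coprime to `N` and not divisible by `p1`. (`∑ over q ∑ over d` of `r(d q)`, `Finset.sum_sigma'`
and `Finset.sum_le_sum_of_injOn` or `sum_image`.) -/
theorem rem_A (A : ℕ) : ∃ A' B n0 : ℕ, ∀ n : ℕ, n0 ≤ n → ∀ p1 : ℕ, p1.Prime → SWp A' n p1 →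
    ∀ N y1 y2 : ℕ, Win n N y1 y2 →
    remd (Sq y1 y2) lg (fun p => Nat.dist N p) (PP n N p1) (zz n) (XX y1 y2) (DD n B) ≤
      2 * n / Real.log n ^ A ∧
    ∑ q ∈ QQ n N p1, remd ((Sq y1 y2).filter (fun p => q ∣ Nat.dist N p)) lg
        (fun p => Nat.dist N p) (PP n N p1) (zz n) (XX y1 y2 * gq q) ((DD n B : ℝ) / q) ≤
      2 * n / Real.log n ^ A := by
  obtain ⟨A', B, n0, hrem⟩ := rem_total A
  refine ⟨A', B, n0, fun n hn p1 hp1 hSW N y1 y2 hW => ?_⟩
  have htot := hrem n hn p1 hSW N y1 y2 hW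
  constructor
  · refine le_trans ?_ htot
    unfold remd
    rw [Nat.floor_natCast]
    apply sum_le_sum_of_subset_of_nonneg
    · intro d hd
      rw [mem_filter] at hd ⊢
      refine ⟨hd.1, ?_⟩
      have hd0 : d ≠ 0 := by
        have := (mem_Icc.mp hd.1).1
        omega
      exact cr_coprime hp1 hd.2.2 hd0
    · intro d _ _
      exact abs_nonneg _
  · refine le_trans ?_ htot
    obtain ⟨r, hr⟩ : ∃ r : ℕ → ℝ, r = fun d => |∑ p ∈ (Sq y1 y2).filter
      (fun p => d ∣ Nat.dist N p), lg p - XX y1 y2 / (Nat.totient d : ℝ)| := ⟨_, rfl⟩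
    obtain ⟨E, hE⟩ : ∃ E : ℕ → Finset ℕ, E = fun q : ℕ => (Icc 1 ⌊(DD n B : ℝ) / (q : ℝ)⌋₊).filter
      (fun d => Squarefree d ∧ ∀ l ∈ d.primeFactors, l ∈ PP n N p1 ∧ (l : ℝ) < zz n) := ⟨_, rfl⟩
    -- facts about a pair
    have hpair : ∀ q ∈ QQ n N p1, ∀ d ∈ E q, q.Prime ∧ 0 < d ∧ Nat.Coprime q d ∧ q * d ≤ DD n B ∧
        (N.Coprime (q * d) ∧ ¬ p1 ∣ q * d) ∧ zz n ≤ q ∧
        ∀ l ∈ d.primeFactors, (l : ℝ) < zz n := by
      intro q hq d hd
      rw [hE] at hd
      simp only [mem_filter, mem_Icc] at hd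
      obtain ⟨⟨hd1, hd2⟩, hd3, hd4⟩ := hd
      have hq' : q ∈ PR (zz n) (yy n) ∧ q ∈ PP n N p1 := by
        unfold QQ at hq
        exact mem_filter.mp hq
      obtain ⟨hqp, hq1, hq2⟩ := mem_PR.mp hq'.1
      have hqPP := mem_PP.mp hq'.2
      have hqpos : (0 : ℝ) < q := by exact_mod_cast hqp.pos
      have hcop : Nat.Coprime q d := by
        rw [Nat.Prime.coprime_iff_not_dvd hqp]
        intro hqd
        have h1 := (hd4 q (Nat.mem_primeFactors.mpr ⟨hqp, hqd, by omega⟩)).2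
        linarith
      have hle : q * d ≤ DD n B := by
        have h1 : (d : ℝ) ≤ (DD n B : ℝ) / q := by
          have h0 : (0 : ℝ) ≤ (DD n B : ℝ) / q := by positivity
          exact (Nat.le_floor_iff h0).mp hd2
        rw [le_div_iff₀ hqpos] at h1
        have h2 : ((q * d : ℕ) : ℝ) ≤ (DD n B : ℝ) := by
          push_cast
          linarith
        exact_mod_cast h2
      obtain ⟨c1, c2⟩ := cr_coprime hp1 hd4 (by omega)
      refine ⟨hqp, hd1, hcop, hle, ⟨?_, ?_⟩, hq1, fun l hl => (hd4 l hl).2⟩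
      · apply Nat.Coprime.mul_right _ c1
        rw [Nat.coprime_comm, Nat.Prime.coprime_iff_not_dvd hqp]
        exact hqPP.2.2.1
      · intro h
        rcases (Nat.Prime.dvd_mul hp1).mp h with h1 | h1
        · exact hqPP.2.2.2 ((Nat.prime_dvd_prime_iff_eq hp1 hqp).mp h1).symm
        · exact c2 h1
    have hterm : ∀ q ∈ QQ n N p1, remd ((Sq y1 y2).filter (fun p => q ∣ Nat.dist N p)) lg
        (fun p => Nat.dist N p) (PP n N p1) (zz n) (XX y1 y2 * gq q) ((DD n B : ℝ) / q) =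
        ∑ d ∈ E q, r (q * d) := by
      intro q hq
      unfold remd
      rw [hE]
      apply sum_congr rfl
      intro d hd
      have hd' : d ∈ E q := by rw [hE]; exact hd
      obtain ⟨hqp, hd0, hcop, hle, -, -, -⟩ := hpair q hq d hd'
      rw [hr]
      show |_| = |_|
      congr 1
      congr 1
      · rw [filter_filter]
        apply sum_congr _ fun _ _ => rfl
        ext p
        simp only [mem_filter]
        constructor
        · rintro ⟨h1, h2, h3⟩
          exact ⟨h1, Nat.Coprime.mul_dvd_of_dvd_of_dvd hcop h2 h3⟩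
        · rintro ⟨h1, h2⟩
          exact ⟨h1, dvd_trans (dvd_mul_right _ _) h2, dvd_trans (dvd_mul_left _ _) h2⟩
      · rw [Nat.totient_mul hcop, Nat.totient_prime hqp]
        unfold gq
        have hq1 := hqp.one_lt
        rw [Nat.cast_mul, Nat.cast_sub hq1.le, Nat.cast_one]
        have h1 : (1 : ℝ) < q := by exact_mod_cast hq1
        have h2 : (0 : ℝ) < Nat.totient d := by exact_mod_cast Nat.totient_pos.mpr hd0
        have h3 : (q : ℝ) - 1 ≠ 0 := by linarith
        field_simp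
    rw [sum_congr rfl hterm, sum_sigma']
    have hinj : Set.InjOn (fun x : (_ : ℕ) × ℕ => x.1 * x.2) ((QQ n N p1).sigma E) := by
      rintro ⟨q, d⟩ hx ⟨q', d'⟩ hx' heq
      simp only [coe_sigma, Set.mem_sigma_iff, mem_coe] at hx hx'
      obtain ⟨hqp, hd0, hcop, hle, -, hz, hl⟩ := hpair q hx.1 d hx.2
      obtain ⟨hqp', hd0', hcop', hle', -, hz', hl'⟩ := hpair q' hx'.1 d' hx'.2
      have heq' : q * d = q' * d' := heq
      have hqq : q = q' := by
        have h1 : q ∣ q' * d' := by rw [← heq']; exact dvd_mul_right _ _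
        rcases (Nat.Prime.dvd_mul hqp).mp h1 with h2 | h2
        · exact (Nat.prime_dvd_prime_iff_eq hqp hqp').mp h2
        · exfalso
          have h3 := hl' q (Nat.mem_primeFactors.mpr ⟨hqp, h2, by omega⟩)
          linarith
      subst hqq
      have hdd : d = d' := Nat.eq_of_mul_eq_mul_left hqp.pos heq'
      rw [hdd]
    calc ∑ x ∈ (QQ n N p1).sigma E, r (x.1 * x.2)
        = ∑ m ∈ ((QQ n N p1).sigma E).image (fun x : (_ : ℕ) × ℕ => x.1 * x.2), r m := by
          rw [sum_image hinj]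
      _ ≤ ∑ m ∈ (Icc 1 (DD n B)).filter (fun d => N.Coprime d ∧ ¬ p1 ∣ d), r m := by
          apply sum_le_sum_of_subset_of_nonneg
          · intro m hm
            rw [mem_image] at hm
            obtain ⟨⟨q, d⟩, hx, rfl⟩ := hm
            rw [mem_sigma] at hx
            obtain ⟨hqp, hd0, hcop, hle, hcc, hz, hl⟩ := hpair q hx.1 d hx.2
            rw [mem_filter, mem_Icc]
            exact ⟨⟨Nat.mul_pos hqp.pos hd0, hle⟩, hcc⟩
          · intro m _ _
            rw [hr]
            exact abs_nonneg _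
      _ = ∑ d ∈ (Icc 1 (DD n B)).filter (fun d => N.Coprime d ∧ ¬ p1 ∣ d),
          |∑ p ∈ (Sq y1 y2).filter (fun p => d ∣ Nat.dist N p), lg p -
            XX y1 y2 / (Nat.totient d : ℝ)| := by rw [hr]

end Pool.Agent.Lib.H59C
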