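import Pool.Agent.Lib.H59C.C0
import Pool.Agent.Lib.H59C.BV3
import Pool.Agent.Lib.H59C.CR

/-!
# CBR: the remainder terms of a box
-/

open Finset

namespace Pool.Agent.Lib.H59C

theorem CBR_a (N D y2 : ℕ) : ∃ a : ℕ, ∀ d, 1 ≤ d → d ≤ D →
    (∀ x : ℕ × ℕ, d ∣ bb N y2 x ↔ x.1 * x.2 ≡ a [MOD d]) ∧ (N.Coprime d → a.Coprime d) := by
  by_cases h : y2 < N
  · refine ⟨N, fun d _ _ => ⟨fun x => ?_, fun h => h⟩⟩
    unfold bb
    rw [if_pos h]
    exact cr1_dvd N _ d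
  · have hf : 1 ≤ D.factorial := Nat.factorial_pos D
    refine ⟨N * (D.factorial - 1), fun d hd1 hd2 => ?_⟩
    have hdf : d ∣ D.factorial := Nat.dvd_factorial hd1 hd2
    have hsum : N * (D.factorial - 1) + N = N * D.factorial := by
      conv_lhs => rw [← Nat.mul_succ]
      congr 1
      omega
    constructor
    · intro x
      unfold bb
      rw [if_neg h]
      constructor
      · intro hx
        have h1 : N + x.1 * x.2 ≡ N + N * (D.factorial - 1) [MOD d] := by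
          have h2 : N + N * (D.factorial - 1) = N * D.factorial := by omega
          rw [h2]
          exact ((Nat.modEq_zero_iff_dvd.2 hx).trans
            (Nat.modEq_zero_iff_dvd.2 (Dvd.dvd.mul_left hdf N)).symm)
        exact Nat.ModEq.add_left_cancel' N h1
      · intro hx
        have h1 : N + x.1 * x.2 ≡ N + N * (D.factorial - 1) [MOD d] := Nat.ModEq.add_left N hx
        have h2 : N + N * (D.factorial - 1) = N * D.factorial := by omega
        rw [h2] at h1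
        exact Nat.modEq_zero_iff_dvd.1 (h1.trans
          (Nat.modEq_zero_iff_dvd.2 (Dvd.dvd.mul_left hdf N)))
    · intro hN
      refine Nat.Coprime.mul_left hN ?_
      have h3 : (D.factorial - 1).Coprime D.factorial := by
        have h4 := Nat.coprime_self_add_right (m := D.factorial - 1) (n := 1)
        have h5 : D.factorial - 1 + 1 = D.factorial := by omega
        rw [h5] at h4
        exact h4.2 (Nat.coprime_one_right _)
      exact Nat.Coprime.coprime_dvd_right hdf h3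

open Classical in
theorem CBR_S (N y2 M u v d a : ℕ) (α : ℕ → ℝ)
    (h : ∀ x : ℕ × ℕ, d ∣ bb N y2 x ↔ x.1 * x.2 ≡ a [MOD d]) :
    ∑ x ∈ (BX M u v).filter (fun x => d ∣ bb N y2 x), wB α x =
      ∑ m ∈ Icc 1 M, α m * ∑ q ∈ (Ioc u v).filter (fun q => q.Prime ∧ m * q ≡ a [MOD d]),
        Real.log q := by
  unfold BX
  rw [sum_filter, sum_product]
  refine sum_congr rfl fun m _ => ?_
  unfold Sq wB lg
  rw [mul_sum, ← filter_filter, sum_filter (s := (Ioc u v).filter Nat.Prime)]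
  refine sum_congr rfl fun q _ => ?_
  by_cases hq : m * q ≡ a [MOD d]
  · rw [if_pos hq, if_pos ((h (m, q)).2 hq)]
  · rw [if_neg hq, if_neg (fun h' => hq ((h (m, q)).1 h'))]

theorem CBR_log (d : ℕ) (hd : 1 ≤ d) : ∑ q ∈ d.primeFactors, Real.log q ≤ Real.log d := by
  have h1 : ∏ q ∈ d.primeFactors, q ≤ d := Nat.le_of_dvd hd (Nat.prod_primeFactors_dvd d)
  have h2 : Real.log ((∏ q ∈ d.primeFactors, q : ℕ) : ℝ) = ∑ q ∈ d.primeFactors, Real.log q := by
    rw [Nat.cast_prod, Real.log_prod]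
    intro q hq
    have := (Nat.prime_of_mem_primeFactors hq).pos
    have h3 : (0 : ℝ) < q := by exact_mod_cast this
    exact h3.ne'
  rw [← h2]
  apply Real.log_le_log
  · have : 0 < ∏ q ∈ d.primeFactors, q :=
      Finset.prod_pos fun q hq => (Nat.prime_of_mem_primeFactors hq).pos
    exact_mod_cast this
  · exact_mod_cast h1

theorem CBR_om (d : ℕ) (hd : 1 ≤ d) : (d.primeFactors.card : ℝ) ≤ 2 * Real.log d := by
  have h1 := CBR_log d hd
  have h2 : (d.primeFactors.card : ℝ) * Real.log 2 ≤ ∑ q ∈ d.primeFactors, Real.log q := by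
    rw [← nsmul_eq_mul]
    apply Finset.card_nsmul_le_sum
    intro q hq
    apply Real.log_le_log (by norm_num)
    exact_mod_cast (Nat.prime_of_mem_primeFactors hq).two_le
  have h3 := Real.log_two_gt_d9
  have h4 : (0 : ℝ) ≤ d.primeFactors.card := Nat.cast_nonneg _
  nlinarith

open Classical in
theorem CBR_A (M d : ℕ) (hd : 1 ≤ d) (α : ℕ → ℝ) (hα : ∀ m, 0 ≤ α m ∧ α m ≤ 1) (y : ℝ)
    (hy : 0 < y) (h : ∀ m, α m ≠ 0 → ∀ r : ℕ, r.Prime → r ∣ m → y ≤ r) :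
    ∑ m ∈ Icc 1 M, α m - ∑ m ∈ (Icc 1 M).filter (fun m => m.Coprime d), α m ≤
      d.primeFactors.card * (M / y) := by
  have h1 : ∑ m ∈ Icc 1 M, α m - ∑ m ∈ (Icc 1 M).filter (fun m => m.Coprime d), α m =
      ∑ m ∈ (Icc 1 M).filter (fun m => ¬ m.Coprime d), α m := by
    rw [← sum_filter_add_sum_filter_not (Icc 1 M) (fun m => m.Coprime d) α]
    ring
  rw [h1]
  have h2 : ∀ m ∈ (Icc 1 M).filter (fun m => ¬ m.Coprime d), α m ≤
      ∑ r ∈ d.primeFactors, if y ≤ (r : ℝ) ∧ r ∣ m then (1 : ℝ) else 0 := by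
    intro m hm
    rw [mem_filter, mem_Icc] at hm
    have hnn : ∀ r ∈ d.primeFactors, (0 : ℝ) ≤ if y ≤ (r : ℝ) ∧ r ∣ m then (1 : ℝ) else 0 := by
      intro r _
      split_ifs <;> norm_num
    by_cases h0 : α m = 0
    · rw [h0]
      exact sum_nonneg hnn
    · obtain ⟨r, hr, hrm, hrd⟩ := Nat.Prime.not_coprime_iff_dvd.1 hm.2
      have h3 := h m h0 r hr hrm
      have h4 : r ∈ d.primeFactors := Nat.mem_primeFactors.2 ⟨hr, hrd, by omega⟩
      refine le_trans ?_ (single_le_sum hnn h4)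
      rw [if_pos ⟨h3, hrm⟩]
      exact (hα m).2
  refine (sum_le_sum h2).trans ?_
  rw [sum_comm]
  have h3 : ∀ r ∈ d.primeFactors, ∑ m ∈ (Icc 1 M).filter (fun m => ¬ m.Coprime d),
      (if y ≤ (r : ℝ) ∧ r ∣ m then (1 : ℝ) else 0) ≤ M / y := by
    intro r hr
    have hrp := (Nat.prime_of_mem_primeFactors hr).pos
    by_cases hyr : y ≤ (r : ℝ)
    · have h4 : ∑ m ∈ (Icc 1 M).filter (fun m => ¬ m.Coprime d),
          (if y ≤ (r : ℝ) ∧ r ∣ m then (1 : ℝ) else 0) ≤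
          ∑ m ∈ Icc 1 M, (if y ≤ (r : ℝ) ∧ r ∣ m then (1 : ℝ) else 0) := by
        apply sum_le_sum_of_subset_of_nonneg (filter_subset _ _)
        intro m _ _
        split_ifs <;> norm_num
      refine h4.trans ?_
      have h5 : ∑ m ∈ Icc 1 M, (if y ≤ (r : ℝ) ∧ r ∣ m then (1 : ℝ) else 0) =
          ((Icc 1 M).filter (fun m => r ∣ m)).card := by
        rw [card_filter]
        push_cast
        refine sum_congr rfl fun m _ => ?_
        by_cases hm : r ∣ m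
        · rw [if_pos ⟨hyr, hm⟩, if_pos hm]
        · rw [if_neg (fun h' => hm h'.2), if_neg hm]
      rw [h5]
      have h6 : ((Icc 1 M).filter (fun m => r ∣ m)).card = M / r := by
        rw [← Nat.Ioc_filter_dvd_card_eq_div M r]
        congr 1
      rw [h6]
      have h7 : ((M / r : ℕ) : ℝ) ≤ (M : ℝ) / r := Nat.cast_div_le
      refine h7.trans ?_
      exact div_le_div_of_nonneg_left (Nat.cast_nonneg M) hy hyr
    · have h4 : ∀ m ∈ (Icc 1 M).filter (fun m => ¬ m.Coprime d),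
          (if y ≤ (r : ℝ) ∧ r ∣ m then (1 : ℝ) else 0) = 0 := by
        intro m _
        rw [if_neg (fun h' => hyr h'.1)]
      rw [sum_congr rfl h4, sum_const_zero]
      positivity
  refine (sum_le_sum h3).trans ?_
  rw [sum_const, nsmul_eq_mul]

theorem CBR_XX_le (u v : ℕ) (huv : u ≤ v) : XX u v ≤ v * Real.log v := by
  rw [XX_eq huv]
  have h1 := bv2_th_le v
  have h2 := bv2_th_nonneg u
  linarith

theorem CBR_XX_nonneg (u v : ℕ) : 0 ≤ XX u v := by
  unfold XX lg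
  exact sum_nonneg fun q _ => Real.log_natCast_nonneg q

open Classical in
theorem CBR_Q (u v d : ℕ) (hd : 1 ≤ d) :
    0 ≤ XX u v - ∑ q ∈ (Ioc u v).filter (fun q => q.Prime ∧ q.Coprime d), Real.log q ∧
      XX u v - ∑ q ∈ (Ioc u v).filter (fun q => q.Prime ∧ q.Coprime d), Real.log q ≤
        Real.log d := by
  have h1 : XX u v - ∑ q ∈ (Ioc u v).filter (fun q => q.Prime ∧ q.Coprime d), Real.log q =
      ∑ q ∈ (Ioc u v).filter (fun q => q.Prime ∧ ¬ q.Coprime d), Real.log q := by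
    unfold XX lg Sq
    rw [← filter_filter, ← filter_filter,
      ← sum_filter_add_sum_filter_not ((Ioc u v).filter Nat.Prime) (fun q => q.Coprime d)
        (fun q => Real.log (q : ℝ))]
    ring
  rw [h1]
  constructor
  · exact sum_nonneg fun q _ => Real.log_natCast_nonneg q
  · refine le_trans ?_ (CBR_log d hd)
    apply sum_le_sum_of_subset_of_nonneg
    · intro q hq
      rw [mem_filter] at hq
      rw [Nat.mem_primeFactors]
      refine ⟨hq.2.1, ?_, by omega⟩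
      by_contra hcon
      exact hq.2.2 ((Nat.Prime.coprime_iff_not_dvd hq.2.1).2 hcon)
    · intro q _ _
      exact Real.log_natCast_nonneg q

/-- the main terms -/
theorem CBR_main {Aall Ad X Qd om M y lgd : ℝ} (h1 : 0 ≤ Aall - Ad) (h2 : Aall - Ad ≤ om * (M / y))
    (h3 : 0 ≤ X) (h4 : 0 ≤ X - Qd) (h5 : X - Qd ≤ lgd) (h6 : 0 ≤ Ad) (h7 : Ad ≤ M) :
    |Aall * X - Ad * Qd| ≤ om * (M / y) * X + M * lgd := by
  have e : Aall * X - Ad * Qd = (Aall - Ad) * X + Ad * (X - Qd) := by ring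
  have h8 : 0 ≤ (Aall - Ad) * X := mul_nonneg h1 h3
  have h9 : 0 ≤ Ad * (X - Qd) := mul_nonneg h6 h4
  rw [e, abs_of_nonneg (add_nonneg h8 h9)]
  apply add_le_add
  · exact mul_le_mul_of_nonneg_right h2 h3
  · exact mul_le_mul h7 h5 h4 (h6.trans h7)

theorem CBR_num {n M v d : ℕ} (hn : 8 ≤ n) (hL : 1 ≤ Real.log n) (hd1 : 1 ≤ d) (hdn : d ≤ n)
    (hv : (n : ℝ) ^ (1 / 4 : ℝ) ≤ v) (hMv : M * v ≤ 8 * n) (u : ℕ) (huv : u ≤ v) :
    (d.primeFactors.card : ℝ) * (M / (n : ℝ) ^ (1 / 10 : ℝ)) * XX u v + M * Real.log d ≤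
      40 * Real.log n ^ 2 * ((n : ℝ) / (n : ℝ) ^ (1 / 10 : ℝ)) := by
  have hn1 : (1 : ℝ) ≤ n := by
    have : 1 ≤ n := by omega
    exact_mod_cast this
  have hn0 : (0 : ℝ) < n := by linarith
  have hn8 : (8 : ℝ) ≤ n := by exact_mod_cast hn
  set L := Real.log n with hLdef
  have hy0 : (0 : ℝ) < (n : ℝ) ^ (1 / 10 : ℝ) := Real.rpow_pos_of_pos hn0 _
  have hd0 : (0 : ℝ) < d := by exact_mod_cast hd1
  have hld : Real.log d ≤ L := Real.log_le_log hd0 (by exact_mod_cast hdn)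
  have hld0 : 0 ≤ Real.log d := Real.log_natCast_nonneg d
  have hom : (d.primeFactors.card : ℝ) ≤ 2 * L := (CBR_om d hd1).trans (by linarith)
  have hMv' : (M : ℝ) * v ≤ 8 * n := by exact_mod_cast hMv
  have hM0 : (0 : ℝ) ≤ M := Nat.cast_nonneg M
  have hv1 : (1 : ℝ) ≤ v := le_trans (Real.one_le_rpow hn1 (by norm_num)) hv
  rcases Nat.eq_zero_or_pos M with hM | hM
  · subst hM
    simp only [Nat.cast_zero, zero_div, mul_zero, zero_mul, add_zero]
    positivity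
  have hM1 : (1 : ℝ) ≤ M := by exact_mod_cast hM
  have hv8 : (v : ℝ) ≤ 8 * n := by nlinarith
  have hlv : Real.log v ≤ 2 * L := by
    have h1 : (v : ℝ) ≤ (n : ℝ) ^ 2 := by nlinarith
    have h2 := Real.log_le_log (by linarith) h1
    rw [Real.log_pow] at h2
    push_cast at h2
    linarith
  have hX : XX u v ≤ v * (2 * L) :=
    (CBR_XX_le u v huv).trans (mul_le_mul_of_nonneg_left hlv (by linarith))
  have hX0 := CBR_XX_nonneg u v
  have hMy : (M : ℝ) ≤ 8 * ((n : ℝ) / (n : ℝ) ^ (1 / 10 : ℝ)) := by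
    have h1 : (n : ℝ) ^ (1 / 10 : ℝ) ≤ v :=
      (Real.rpow_le_rpow_of_exponent_le hn1 (by norm_num)).trans hv
    have h2 : (M : ℝ) * (n : ℝ) ^ (1 / 10 : ℝ) ≤ 8 * n :=
      (mul_le_mul_of_nonneg_left h1 hM0).trans hMv'
    rw [← mul_div_assoc, le_div_iff₀ hy0]
    exact h2
  have hT0 : (0 : ℝ) ≤ (n : ℝ) / (n : ℝ) ^ (1 / 10 : ℝ) := by positivity
  have hfirst : (d.primeFactors.card : ℝ) * (M / (n : ℝ) ^ (1 / 10 : ℝ)) * XX u v ≤
      32 * L ^ 2 * ((n : ℝ) / (n : ℝ) ^ (1 / 10 : ℝ)) := by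
    calc (d.primeFactors.card : ℝ) * (M / (n : ℝ) ^ (1 / 10 : ℝ)) * XX u v
        ≤ (2 * L) * (M / (n : ℝ) ^ (1 / 10 : ℝ)) * (v * (2 * L)) := by
          apply mul_le_mul _ hX hX0 (by positivity)
          exact mul_le_mul_of_nonneg_right hom (by positivity)
      _ = 4 * L ^ 2 * ((M : ℝ) * v / (n : ℝ) ^ (1 / 10 : ℝ)) := by
          field_simp
          ring
      _ ≤ 4 * L ^ 2 * ((8 * n) / (n : ℝ) ^ (1 / 10 : ℝ)) := by
          apply mul_le_mul_of_nonneg_left _ (by positivity)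
          exact div_le_div_of_nonneg_right hMv' hy0.le
      _ = _ := by ring
  have hsecond : (M : ℝ) * Real.log d ≤ 8 * L ^ 2 * ((n : ℝ) / (n : ℝ) ^ (1 / 10 : ℝ)) := by
    calc (M : ℝ) * Real.log d ≤ 8 * ((n : ℝ) / (n : ℝ) ^ (1 / 10 : ℝ)) * L :=
          mul_le_mul hMy hld hld0 (by positivity)
      _ ≤ 8 * ((n : ℝ) / (n : ℝ) ^ (1 / 10 : ℝ)) * L ^ 2 := by
          apply mul_le_mul_of_nonneg_left _ (by positivity)
          nlinarith
      _ = _ := by ring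
  linarith

open Classical in
/-- The remainder terms for the switched sequence `N ∓ m q`.

Proof. `bv_bil (A + 1)`, with `a = N` if `y2 < N` (`d ∣ Nat.dist N (m q)` iff `m q ≡ N [MOD d]`), and with
`a = N ((D)! - 1)`, `D = DD n B ≥ 1`, otherwise (`a ≡ -N [MOD d]` and `a.Coprime d ↔ N.Coprime d` for all `1 ≤ d ≤ D`, since
`d ∣ D!`). As in `rem_A` the `d` in `remd` are coprime to `N` and not divisible by `p1`. The main terms differ by
`(1/φ(d)) |XB - ∑_{(m,d)=1} α_m ∑_{(q,d)=1} log q| ≤ (1/φ(d)) (#{m ≤ M : α_m ≠ 0, (m,d) > 1} · v log v + M ∑_{q ∣ d, q > u} log q)`;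
if `α_m ≠ 0` and `(m,d) > 1` then some prime `r ∣ d`, `r ≥ n^(1/10)`, divides `m`: at most `ω(d) M n^(-1/10)` such `m`; and
`∑_{q ∣ d} log q ≤ log d`. So the difference is at most `(1/φ(d)) · 8 n^(9/10) (2 log n)^3` (`M ≤ 8 n^(3/4)`, from `M v ≤ 8 n`,
`v ≥ n^(1/4)`); sum over `d ≤ D` with `∑ 1/φ(d) ≤ C log n` (`sum_inv_totient`, or the trivial `φ(d) ≥ √d/2`:
that loses too much; `1/φ(d) ≤ (2 + 2 log d)/d` is enough). -/
theorem rem_box (A : ℕ) : ∃ A' B n0 : ℕ, ∀ n : ℕ, n0 ≤ n → ∀ p1 : ℕ, p1.Prime → SWp A' n p1 →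
    ∀ N y2 : ℕ, 0 < N → ∀ (M u v : ℕ) (α : ℕ → ℝ), (∀ m, 0 ≤ α m ∧ α m ≤ 1) →
    (∀ m, α m ≠ 0 → ∀ r : ℕ, r.Prime → r ∣ m → (n : ℝ) ^ (1 / 10 : ℝ) ≤ r) →
    (n : ℝ) ^ (1 / 4 : ℝ) ≤ M → (n : ℝ) ^ (1 / 4 : ℝ) ≤ v → u ≤ v → M * v ≤ 8 * n → ∀ z : ℝ,
    remd (BX M u v) (wB α) (bb N y2) (PP n N p1) z (XB M u v α) (DD n B) ≤
      n / Real.log n ^ A := by
  obtain ⟨A', B, n1, hbil⟩ := bv_bil (A + 1)
  obtain ⟨C0, hC0, hφ⟩ := sum_inv_totient
  obtain ⟨n2, hn2⟩ := bv2_large (80 * C0 + 2) (A + 3)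
  refine ⟨A', B, max n1 (max n2 8), fun n hn p1 hp1 hSW N y2 hN M u v α hα hαr hM hv huv hMv z => ?_⟩
  have hn1' : n1 ≤ n := (le_max_left _ _).trans hn
  have hn2' : n2 ≤ n := ((le_max_left _ _).trans (le_max_right _ _)).trans hn
  have hn8 : 8 ≤ n := ((le_max_right _ _).trans (le_max_right _ _)).trans hn
  obtain ⟨hLK, hLn⟩ := hn2 n hn2'
  have hL2 : 2 ≤ Real.log n := by linarith
  have hn1 : (1 : ℝ) ≤ n := by
    have : 1 ≤ n := by omega
    exact_mod_cast this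
  have hn0 : (0 : ℝ) < n := by linarith
  set D := DD n B with hD
  set L := Real.log n with hLdef
  have hL0 : 0 < L := by linarith
  have hDn : D ≤ n := by
    have h1 : (D : ℝ) ≤ Real.sqrt n / L ^ B := by
      rw [hD]
      unfold DD
      exact Nat.floor_le (by positivity)
    have h2 : Real.sqrt n / L ^ B ≤ Real.sqrt n :=
      div_le_self (Real.sqrt_nonneg _) (one_le_pow₀ (by linarith))
    have h3 : Real.sqrt n ≤ n := by
      rw [Real.sqrt_le_left (by linarith)]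
      nlinarith
    have h4 : (D : ℝ) ≤ n := by linarith
    exact_mod_cast h4
  obtain ⟨a, ha⟩ := CBR_a N D y2
  have hbv := hbil n hn1' p1 hSW M u v a α (fun m => by
    rw [abs_of_nonneg (hα m).1]; exact (hα m).2) hM hv huv hMv
  set T : ℕ → ℝ := fun d => |∑ m ∈ Icc 1 M, α m *
      ∑ q ∈ (Ioc u v).filter (fun q => q.Prime ∧ m * q ≡ a [MOD d]), Real.log q -
        1 / (Nat.totient d : ℝ) * ((∑ m ∈ (Icc 1 M).filter (fun m => m.Coprime d), α m) *
          ∑ q ∈ (Ioc u v).filter (fun q => q.Prime ∧ q.Coprime d), Real.log q)| with hT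
  set W : ℝ := 40 * L ^ 2 * ((n : ℝ) / (n : ℝ) ^ (1 / 10 : ℝ)) with hW
  have hW0 : 0 ≤ W := by positivity
  have hterm : ∀ d ∈ (Icc 1 ⌊(D : ℝ)⌋₊).filter (fun d => Squarefree d ∧
      ∀ q ∈ d.primeFactors, q ∈ PP n N p1 ∧ (q : ℝ) < z),
      |∑ i ∈ (BX M u v).filter (fun i => d ∣ bb N y2 i), wB α i -
        XB M u v α / (Nat.totient d : ℝ)| ≤ T d + 1 / (Nat.totient d : ℝ) * W := by
    intro d hd
    rw [mem_filter, mem_Icc, Nat.floor_natCast] at hd
    obtain ⟨⟨hd1, hd2⟩, _, _⟩ := hd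
    obtain ⟨ha1, _⟩ := ha d hd1 hd2
    have hph : (0 : ℝ) < Nat.totient d := by exact_mod_cast Nat.totient_pos.2 hd1
    have hAd0 : 0 ≤ ∑ m ∈ (Icc 1 M).filter (fun m => m.Coprime d), α m :=
      sum_nonneg fun m _ => (hα m).1
    have hAdM : ∑ m ∈ (Icc 1 M).filter (fun m => m.Coprime d), α m ≤ M := by
      refine (sum_le_sum fun m _ => (hα m).2).trans ?_
      rw [sum_const, nsmul_eq_mul, mul_one]
      have : ((Icc 1 M).filter (fun m => m.Coprime d)).card ≤ M := by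
        refine (card_filter_le _ _).trans ?_
        simp
      exact_mod_cast this
    have hAA : 0 ≤ ∑ m ∈ Icc 1 M, α m - ∑ m ∈ (Icc 1 M).filter (fun m => m.Coprime d), α m := by
      rw [sub_nonneg]
      exact sum_le_sum_of_subset_of_nonneg (filter_subset _ _) fun m _ _ => (hα m).1
    have hAA' := CBR_A M d hd1 α hα ((n : ℝ) ^ (1 / 10 : ℝ)) (Real.rpow_pos_of_pos hn0 _) hαr
    obtain ⟨hQ1, hQ2⟩ := CBR_Q u v d hd1
    have hmain := CBR_main hAA hAA' (CBR_XX_nonneg u v) hQ1 hQ2 hAd0 hAdM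
    have hnum := CBR_num hn8 (by linarith) hd1 (hd2.trans hDn) hv hMv u huv
    have hm2 := hmain.trans hnum
    rw [CBR_S N y2 M u v d a α ha1]
    set S := ∑ m ∈ Icc 1 M, α m *
      ∑ q ∈ (Ioc u v).filter (fun q => q.Prime ∧ m * q ≡ a [MOD d]), Real.log q with hS
    set Ad := ∑ m ∈ (Icc 1 M).filter (fun m => m.Coprime d), α m with hAdd
    set Qd := ∑ q ∈ (Ioc u v).filter (fun q => q.Prime ∧ q.Coprime d), Real.log q with hQdd
    have e : S - XB M u v α / (Nat.totient d : ℝ) = (S - 1 / (Nat.totient d : ℝ) * (Ad * Qd)) -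
        1 / (Nat.totient d : ℝ) * ((∑ m ∈ Icc 1 M, α m) * XX u v - Ad * Qd) := by
      unfold XB
      ring
    rw [e]
    refine (abs_sub _ _).trans ?_
    apply add_le_add
    · exact le_refl _
    · rw [abs_mul, abs_of_nonneg (by positivity : (0 : ℝ) ≤ 1 / (Nat.totient d : ℝ))]
      exact mul_le_mul_of_nonneg_left hm2 (by positivity)
  unfold remd
  refine (sum_le_sum hterm).trans ?_
  rw [sum_add_distrib]
  have h1 : ∑ d ∈ (Icc 1 ⌊(D : ℝ)⌋₊).filter (fun d => Squarefree d ∧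
      ∀ q ∈ d.primeFactors, q ∈ PP n N p1 ∧ (q : ℝ) < z), T d ≤ n / L ^ (A + 1) := by
    refine le_trans ?_ hbv
    apply sum_le_sum_of_subset_of_nonneg
    · intro d hd
      rw [mem_filter, Nat.floor_natCast] at hd
      rw [mem_filter]
      refine ⟨hd.1, ?_⟩
      have hd1 := mem_Icc.1 hd.1
      obtain ⟨c1, c2⟩ := cr_coprime hp1 hd.2.2 (by omega)
      exact ⟨(ha d hd1.1 hd1.2).2 c1, c2⟩
    · intro d _ _
      exact abs_nonneg _
  have h2 : ∑ d ∈ (Icc 1 ⌊(D : ℝ)⌋₊).filter (fun d => Squarefree d ∧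
      ∀ q ∈ d.primeFactors, q ∈ PP n N p1 ∧ (q : ℝ) < z), 1 / (Nat.totient d : ℝ) * W ≤
      C0 * L * W := by
    rw [← sum_mul]
    apply mul_le_mul_of_nonneg_right _ hW0
    refine le_trans ?_ (hφ n (by omega))
    apply sum_le_sum_of_subset_of_nonneg
    · intro d hd
      rw [mem_filter, Nat.floor_natCast, mem_Icc] at hd
      rw [mem_Icc]
      exact ⟨hd.1.1, hd.1.2.trans hDn⟩
    · intro d _ _
      positivity
  have h3 : C0 * L * W ≤ n / L ^ A / 2 := by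
    have hy0 : (0 : ℝ) < (n : ℝ) ^ (1 / 10 : ℝ) := Real.rpow_pos_of_pos hn0 _
    have h4 : (n : ℝ) ^ (1 / 20 : ℝ) ≤ (n : ℝ) ^ (1 / 10 : ℝ) :=
      Real.rpow_le_rpow_of_exponent_le hn1 (by norm_num)
    have h5 : 80 * C0 * L ^ (A + 3) ≤ (n : ℝ) ^ (1 / 10 : ℝ) := by
      have h6 : (0 : ℝ) ≤ L ^ (A + 3) := by positivity
      nlinarith
    rw [hW, div_div, le_div_iff₀ (by positivity)]
    have h7 : C0 * L * (40 * L ^ 2 * ((n : ℝ) / (n : ℝ) ^ (1 / 10 : ℝ))) * (L ^ A * 2) =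
        (80 * C0 * L ^ (A + 3)) * ((n : ℝ) / (n : ℝ) ^ (1 / 10 : ℝ)) := by
      ring
    rw [h7]
    calc (80 * C0 * L ^ (A + 3)) * ((n : ℝ) / (n : ℝ) ^ (1 / 10 : ℝ))
        ≤ (n : ℝ) ^ (1 / 10 : ℝ) * ((n : ℝ) / (n : ℝ) ^ (1 / 10 : ℝ)) :=
          mul_le_mul_of_nonneg_right h5 (by positivity)
      _ = n := by
          rw [mul_comm, div_mul_cancel₀ _ hy0.ne']
  have h4 : n / L ^ (A + 1) ≤ n / L ^ A / 2 := by
    rw [div_div]
    apply div_le_div_of_nonneg_left hn0.le (by positivity)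
    rw [pow_succ]
    exact mul_le_mul_of_nonneg_left hL2 (by positivity)
  linarith

end Pool.Agent.Lib.H59C
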