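import Pool.Agent.Lib.H59C.MER0

/-!
# PIN: sums over primes and integrals
-/

open Finset MeasureTheory

namespace Pool.Agent.Lib.H59C

theorem pin_add (u v w : ℝ) (f : ℕ → ℝ) (huv : u ≤ v) (hvw : v ≤ w) :
    ∑ q ∈ PR u w, f q = ∑ q ∈ PR u v, f q + ∑ q ∈ PR v w, f q := by
  classical
  rw [← sum_union]
  · congr 1
    ext q
    simp only [mem_union, mem_PR]
    constructor
    · rintro ⟨h1, h2, h3⟩
      by_cases h : (q : ℝ) < v
      · exact Or.inl ⟨h1, h2, h⟩
      · exact Or.inr ⟨h1, not_lt.1 h, h3⟩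
    · rintro (⟨h1, h2, h3⟩ | ⟨h1, h2, h3⟩)
      · exact ⟨h1, h2, h3.trans_le hvw⟩
      · exact ⟨h1, huv.trans h2, h3⟩
  · rw [disjoint_left]
    intro q hq hq'
    rw [mem_PR] at hq hq'
    linarith [hq.2.2, hq'.2.1]

theorem pin_split (s : ℕ → ℝ) (hs : Monotone s) (f : ℕ → ℝ) (J : ℕ) :
    ∑ q ∈ PR (s 0) (s J), f q = ∑ j ∈ range J, ∑ q ∈ PR (s j) (s (j + 1)), f q := by
  induction J with
  | zero =>
    rw [range_zero, sum_empty]
    apply sum_eq_zero
    intro q hq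
    rw [mem_PR] at hq
    linarith [hq.2.1, hq.2.2]
  | succ J ih =>
    rw [sum_range_succ, ← ih]
    exact pin_add _ _ _ f (hs (Nat.zero_le J)) (hs (Nat.le_succ J))

theorem pin_abel1 (c e : ℕ → ℝ) (J : ℕ) :
    ∑ j ∈ range J, c (j + 1) * (e j - e (j + 1)) =
      c 0 * e 0 - c J * e J + ∑ j ∈ range J, (c (j + 1) - c j) * e j := by
  induction J with
  | zero => simp
  | succ J ih =>
    rw [sum_range_succ, sum_range_succ, ih]
    ring

theorem pin_abel2 (c e : ℕ → ℝ) (J : ℕ) :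
    ∑ j ∈ range J, c j * (e j - e (j + 1)) =
      c 0 * e 0 - c J * e J + ∑ j ∈ range J, (c (j + 1) - c j) * e (j + 1) := by
  induction J with
  | zero => simp
  | succ J ih =>
    rw [sum_range_succ, sum_range_succ, ih]
    ring

theorem pin_tv (c e : ℕ → ℝ) (J : ℕ) (E Φ : ℝ) (hc : ∀ j < J, c j ≤ c (j + 1))
    (hcΦ : ∀ j ≤ J, |c j| ≤ Φ) (he : ∀ j < J, |e j| ≤ E) (hE : 0 ≤ E) :
    |∑ j ∈ range J, (c (j + 1) - c j) * e j| ≤ 2 * Φ * E := by
  refine (abs_sum_le_sum_abs _ _).trans ?_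
  have h1 : ∀ j ∈ range J, |(c (j + 1) - c j) * e j| ≤ (c (j + 1) - c j) * E := by
    intro j hj
    rw [mem_range] at hj
    have h2 : 0 ≤ c (j + 1) - c j := by linarith [hc j hj]
    rw [abs_mul, abs_of_nonneg h2]
    exact mul_le_mul_of_nonneg_left (he j hj) h2
  refine (sum_le_sum h1).trans ?_
  rw [← sum_mul, sum_range_sub]
  apply mul_le_mul_of_nonneg_right _ hE
  have h3 := abs_le.1 (hcΦ J le_rfl)
  have h4 := abs_le.1 (hcΦ 0 (Nat.zero_le J))
  linarith [h3.2, h4.1]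

/-- Monotone functions, one subdivision. -/
theorem pin_mono {C0 : ℝ} (hC0 : 0 < C0) (hm : ∀ u v : ℝ, 2 ≤ u → u ≤ v →
    |∑ q ∈ PR u v, 1 / (q : ℝ) - (Real.log (Real.log v) - Real.log (Real.log u))| ≤
      C0 / Real.log u) (n : ℕ) (a b Φ : ℝ) (φ : ℝ → ℝ) (hn : 3 ≤ n) (ha : 0 < a) (hab : a ≤ b)
    (hna : 2 ≤ (n : ℝ) ^ a) (hφ : MonotoneOn φ (Set.Icc a b))
    (hΦ : ∀ x ∈ Set.Icc a b, |φ x| ≤ Φ) :
    |∑ q ∈ PR ((n : ℝ) ^ a) ((n : ℝ) ^ b), φ (Real.log q / Real.log n) / q -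
      ∫ x in a..b, φ x / x| ≤ 5 * Φ * (C0 / (a * Real.log n)) := by
  have hn3 : (3 : ℝ) ≤ n := by exact_mod_cast hn
  have hn1 : (1 : ℝ) < n := by linarith
  have hn0 : (0 : ℝ) < n := by linarith
  have hl : 0 < Real.log n := Real.log_pos hn1
  set E : ℝ := C0 / (a * Real.log n) with hE
  have hE0 : 0 < E := by positivity
  have hΦ0 : 0 ≤ Φ := (abs_nonneg _).trans (hΦ a ⟨le_rfl, hab⟩)
  -- the subdivision
  obtain ⟨J, hJ⟩ := exists_nat_ge (2 * (b - a) / (a * E) + 1)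
  have hJ1 : (1 : ℝ) ≤ J := by
    have : 0 ≤ 2 * (b - a) / (a * E) := by
      apply div_nonneg (by linarith) (by positivity)
    linarith
  have hJ0 : (0 : ℝ) < J := by linarith
  have hJ2 : 2 * ((b - a) / (J * a)) ≤ E := by
    have h1 : 2 * (b - a) / (a * E) ≤ J := by linarith
    rw [div_le_iff₀ (by positivity)] at h1
    rw [mul_div_assoc', div_le_iff₀ (by positivity)]
    linarith
  obtain ⟨t, ht⟩ : ∃ t : ℕ → ℝ, t = fun j : ℕ => a + (j : ℝ) * ((b - a) / J) := ⟨_, rfl⟩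
  have hstep : 0 ≤ (b - a) / J := div_nonneg (by linarith) hJ0.le
  have htm : Monotone t := by
    intro i j hij
    rw [ht]
    have : (i : ℝ) ≤ j := by exact_mod_cast hij
    have := mul_le_mul_of_nonneg_right this hstep
    simp only
    linarith
  have ht0 : t 0 = a := by rw [ht]; simp
  have htJ : t J = b := by
    rw [ht]
    simp only
    field_simp
    ring
  have hta : ∀ j, a ≤ t j := fun j => by
    rw [← ht0]
    exact htm (Nat.zero_le j)
  have htb : ∀ j ≤ J, t j ≤ b := fun j hj => by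
    rw [← htJ]
    exact htm hj
  have htpos : ∀ j, 0 < t j := fun j => ha.trans_le (hta j)
  have htmem : ∀ j ≤ J, t j ∈ Set.Icc a b := fun j hj => ⟨hta j, htb j hj⟩
  -- the exponents
  have hsm : Monotone (fun j => (n : ℝ) ^ (t j)) := fun i j hij =>
    Real.rpow_le_rpow_of_exponent_le hn1.le (htm hij)
  have hlog : ∀ x : ℝ, Real.log ((n : ℝ) ^ x) = x * Real.log n := fun x =>
    Real.log_rpow hn0 x
  -- the error function
  obtain ⟨e, he⟩ : ∃ e : ℕ → ℝ, e = fun j => ∑ q ∈ PR ((n : ℝ) ^ (t j)) ((n : ℝ) ^ b), 1 / (q : ℝ) -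
    (Real.log b - Real.log (t j)) := ⟨_, rfl⟩
  have hb0 : 0 < b := ha.trans_le hab
  have heE : ∀ j ≤ J, |e j| ≤ E := by
    intro j hj
    have h1 := hm ((n : ℝ) ^ (t j)) ((n : ℝ) ^ b)
      (hna.trans (Real.rpow_le_rpow_of_exponent_le hn1.le (hta j)))
      (Real.rpow_le_rpow_of_exponent_le hn1.le (htb j hj))
    rw [hlog, hlog, Real.log_mul hb0.ne' hl.ne', Real.log_mul (htpos j).ne' hl.ne'] at h1
    rw [he]
    simp only
    have h2 : Real.log b + Real.log (Real.log n) - (Real.log (t j) + Real.log (Real.log n)) =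
        Real.log b - Real.log (t j) := by ring
    rw [h2] at h1
    refine h1.trans ?_
    rw [hE]
    apply div_le_div_of_nonneg_left hC0.le (by positivity)
    exact mul_le_mul_of_nonneg_right (hta j) hl.le
  have heD : ∀ j < J, e j - e (j + 1) =
      ∑ q ∈ PR ((n : ℝ) ^ (t j)) ((n : ℝ) ^ (t (j + 1))), 1 / (q : ℝ) -
        (Real.log (t (j + 1)) - Real.log (t j)) := by
    intro j hj
    rw [he]
    simp only
    rw [pin_add ((n : ℝ) ^ (t j)) ((n : ℝ) ^ (t (j + 1))) ((n : ℝ) ^ b) (fun q => 1 / (q : ℝ))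
      (hsm (Nat.le_succ j)) (Real.rpow_le_rpow_of_exponent_le hn1.le (htb (j + 1) hj))]
    ring
  -- bounds for one interval: primes
  have hxq : ∀ j < J, ∀ q ∈ PR ((n : ℝ) ^ (t j)) ((n : ℝ) ^ (t (j + 1))),
      t j ≤ Real.log q / Real.log n ∧ Real.log q / Real.log n ≤ t (j + 1) := by
    intro j hj q hq
    rw [mem_PR] at hq
    have hq0 : (0 : ℝ) < q := by exact_mod_cast hq.1.pos
    constructor
    · rw [le_div_iff₀ hl, ← hlog]
      exact Real.log_le_log (Real.rpow_pos_of_pos hn0 _) hq.2.1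
    · rw [div_le_iff₀ hl, ← hlog]
      exact Real.log_le_log hq0 hq.2.2.le
  have hP1 : ∀ j < J, ∑ q ∈ PR ((n : ℝ) ^ (t j)) ((n : ℝ) ^ (t (j + 1))),
      φ (Real.log q / Real.log n) / q ≤
      φ (t (j + 1)) * ∑ q ∈ PR ((n : ℝ) ^ (t j)) ((n : ℝ) ^ (t (j + 1))), 1 / (q : ℝ) := by
    intro j hj
    rw [mul_sum]
    apply sum_le_sum
    intro q hq
    obtain ⟨h1, h2⟩ := hxq j hj q hq
    rw [mul_one_div]
    apply div_le_div_of_nonneg_right _ (Nat.cast_nonneg q)
    exact hφ ⟨(hta j).trans h1, h2.trans (htb (j + 1) hj)⟩ (htmem (j + 1) hj) h2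
  have hP2 : ∀ j < J, φ (t j) * ∑ q ∈ PR ((n : ℝ) ^ (t j)) ((n : ℝ) ^ (t (j + 1))), 1 / (q : ℝ) ≤
      ∑ q ∈ PR ((n : ℝ) ^ (t j)) ((n : ℝ) ^ (t (j + 1))), φ (Real.log q / Real.log n) / q := by
    intro j hj
    rw [mul_sum]
    apply sum_le_sum
    intro q hq
    obtain ⟨h1, h2⟩ := hxq j hj q hq
    rw [mul_one_div]
    apply div_le_div_of_nonneg_right _ (Nat.cast_nonneg q)
    exact hφ (htmem j hj.le) ⟨(hta j).trans h1, h2.trans (htb (j + 1) hj)⟩ h1
  -- the integrals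
  have hint : ∀ j < J, IntervalIntegrable (fun x => φ x / x) volume (t j) (t (j + 1)) := by
    intro j hj
    have h1 : Set.uIcc (t j) (t (j + 1)) = Set.Icc (t j) (t (j + 1)) :=
      Set.uIcc_of_le (htm (Nat.le_succ j))
    have h2 : MonotoneOn φ (Set.uIcc (t j) (t (j + 1))) := by
      rw [h1]
      exact hφ.mono (Set.Icc_subset_Icc (hta j) (htb (j + 1) hj))
    have h3 : ContinuousOn (fun x : ℝ => x⁻¹) (Set.uIcc (t j) (t (j + 1))) := by
      apply ContinuousOn.inv₀ continuousOn_id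
      intro x hx
      rw [h1] at hx
      exact ((htpos j).trans_le hx.1).ne'
    have h4 := h2.intervalIntegrable (μ := volume)
    simpa [div_eq_mul_inv] using h4.mul_continuousOn h3
  have hI0 : ∫ x in a..b, φ x / x = ∑ j ∈ range J, ∫ x in (t j)..(t (j + 1)), φ x / x := by
    rw [intervalIntegral.sum_integral_adjacent_intervals (fun j hj => hint j hj), ht0, htJ]
  have hcinv : ∀ j, ∀ c : ℝ, IntervalIntegrable (fun x => c / x) volume (t j) (t (j + 1)) := by
    intro j c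
    apply ContinuousOn.intervalIntegrable
    intro x hx
    rw [Set.uIcc_of_le (htm (Nat.le_succ j))] at hx
    exact (continuousAt_const.div continuousAt_id ((htpos j).trans_le hx.1).ne').continuousWithinAt
  have hconst : ∀ j, ∀ c : ℝ, ∫ x in (t j)..(t (j + 1)), c / x =
      c * (Real.log (t (j + 1)) - Real.log (t j)) := by
    intro j c
    simp only [div_eq_mul_inv]
    rw [intervalIntegral.integral_const_mul, integral_inv_of_pos (htpos j) (htpos (j + 1)),
      Real.log_div (htpos (j + 1)).ne' (htpos j).ne']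
  have hI1 : ∀ j < J, φ (t j) * (Real.log (t (j + 1)) - Real.log (t j)) ≤
      ∫ x in (t j)..(t (j + 1)), φ x / x := by
    intro j hj
    rw [← hconst]
    apply intervalIntegral.integral_mono_on (htm (Nat.le_succ j)) (hcinv j _) (hint j hj)
    intro x hx
    apply div_le_div_of_nonneg_right _ ((htpos j).trans_le hx.1).le
    exact hφ (htmem j hj.le) ⟨(hta j).trans hx.1, hx.2.trans (htb (j + 1) hj)⟩ hx.1
  have hI2 : ∀ j < J, ∫ x in (t j)..(t (j + 1)), φ x / x ≤
      φ (t (j + 1)) * (Real.log (t (j + 1)) - Real.log (t j)) := by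
    intro j hj
    rw [← hconst]
    apply intervalIntegral.integral_mono_on (htm (Nat.le_succ j)) (hint j hj) (hcinv j _)
    intro x hx
    apply div_le_div_of_nonneg_right _ ((htpos j).trans_le hx.1).le
    exact hφ ⟨(hta j).trans hx.1, hx.2.trans (htb (j + 1) hj)⟩ (htmem (j + 1) hj) hx.2
  -- the logarithms
  have hB : ∀ j < J, Real.log (t (j + 1)) - Real.log (t j) ≤ (b - a) / (J * a) := by
    intro j _
    have h1 : t (j + 1) = t j + (b - a) / J := by
      rw [ht]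
      simp only
      push_cast
      ring
    rw [← Real.log_div (htpos (j + 1)).ne' (htpos j).ne']
    refine (Real.log_le_sub_one_of_pos (div_pos (htpos (j + 1)) (htpos j))).trans ?_
    rw [h1, add_div, div_self (htpos j).ne', add_sub_cancel_left, div_div]
    apply div_le_div_of_nonneg_left (by linarith) (by positivity)
    exact mul_le_mul_of_nonneg_left (hta j) hJ0.le
  have hcm : ∀ j < J, φ (t j) ≤ φ (t (j + 1)) := fun j hj =>
    hφ (htmem j hj.le) (htmem (j + 1) hj) (htm (Nat.le_succ j))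
  have hcΦ : ∀ j ≤ J, |φ (t j)| ≤ Φ := fun j hj => hΦ _ (htmem j hj)
  have hvar : ∑ j ∈ range J, (φ (t (j + 1)) - φ (t j)) *
      (Real.log (t (j + 1)) - Real.log (t j)) ≤ Φ * E := by
    have h1 : ∀ j ∈ range J, (φ (t (j + 1)) - φ (t j)) *
        (Real.log (t (j + 1)) - Real.log (t j)) ≤
        (φ (t (j + 1)) - φ (t j)) * ((b - a) / (J * a)) := by
      intro j hj
      rw [mem_range] at hj
      exact mul_le_mul_of_nonneg_left (hB j hj) (by linarith [hcm j hj])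
    refine (sum_le_sum h1).trans ?_
    rw [← sum_mul, sum_range_sub (fun j => φ (t j))]
    have h3 := abs_le.1 (hcΦ J le_rfl)
    have h4 := abs_le.1 (hcΦ 0 (Nat.zero_le J))
    have h5 : 0 ≤ (b - a) / (J * a) := div_nonneg (by linarith) (by positivity)
    calc (φ (t J) - φ (t 0)) * ((b - a) / (J * a)) ≤ (2 * Φ) * ((b - a) / (J * a)) :=
          mul_le_mul_of_nonneg_right (by linarith [h3.2, h4.1]) h5
      _ = Φ * (2 * ((b - a) / (J * a))) := by ring
      _ ≤ Φ * E := mul_le_mul_of_nonneg_left hJ2 hΦ0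
  -- conclusion
  have hend : |φ (t 0) * e 0 - φ (t J) * e J| ≤ 2 * Φ * E := by
    have h1 : |φ (t 0) * e 0| ≤ Φ * E := by
      rw [abs_mul]
      exact mul_le_mul (hcΦ 0 (Nat.zero_le J)) (heE 0 (Nat.zero_le J)) (abs_nonneg _) hΦ0
    have h2 : |φ (t J) * e J| ≤ Φ * E := by
      rw [abs_mul]
      exact mul_le_mul (hcΦ J le_rfl) (heE J le_rfl) (abs_nonneg _) hΦ0
    have h3 := abs_sub (φ (t 0) * e 0) (φ (t J) * e J)
    linarith
  have hS := pin_split (fun j => (n : ℝ) ^ (t j)) hsm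
    (fun q => φ (Real.log q / Real.log n) / q) J
  simp only [ht0, htJ] at hS
  rw [hS, hI0, abs_le]
  constructor
  · -- lower bound
    have h1 : ∑ j ∈ range J, φ (t j) * (e j - e (j + 1)) -
        ∑ j ∈ range J, (φ (t (j + 1)) - φ (t j)) * (Real.log (t (j + 1)) - Real.log (t j)) ≤
        ∑ j ∈ range J, ∑ q ∈ PR ((n : ℝ) ^ (t j)) ((n : ℝ) ^ (t (j + 1))),
          φ (Real.log q / Real.log n) / q - ∑ j ∈ range J, ∫ x in (t j)..(t (j + 1)), φ x / x := by
      rw [← sum_sub_distrib, ← sum_sub_distrib]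
      apply sum_le_sum
      intro j hj
      rw [mem_range] at hj
      have h2 := hP2 j hj
      have h3 := hI2 j hj
      rw [heD j hj]
      nlinarith [h2, h3]
    rw [pin_abel2 (fun j => φ (t j)) e J] at h1
    have h4 := pin_tv (fun j => φ (t j)) (fun j => e (j + 1)) J E Φ hcm hcΦ
      (fun j hj => heE (j + 1) hj) hE0.le
    have h5 := abs_le.1 h4
    have h6 := abs_le.1 hend
    linarith [h5.1, h6.1]
  · have h1 : ∑ j ∈ range J, ∑ q ∈ PR ((n : ℝ) ^ (t j)) ((n : ℝ) ^ (t (j + 1))),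
          φ (Real.log q / Real.log n) / q - ∑ j ∈ range J, ∫ x in (t j)..(t (j + 1)), φ x / x ≤
        ∑ j ∈ range J, φ (t (j + 1)) * (e j - e (j + 1)) +
        ∑ j ∈ range J, (φ (t (j + 1)) - φ (t j)) * (Real.log (t (j + 1)) - Real.log (t j)) := by
      rw [← sum_sub_distrib, ← sum_add_distrib]
      apply sum_le_sum
      intro j hj
      rw [mem_range] at hj
      have h2 := hP1 j hj
      have h3 := hI1 j hj
      rw [heD j hj]
      nlinarith [h2, h3]
    rw [pin_abel1 (fun j => φ (t j)) e J] at h1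
    have h4 := pin_tv (fun j => φ (t j)) e J E Φ hcm hcΦ
      (fun j hj => heE j hj.le) hE0.le
    have h5 := abs_le.1 h4
    have h6 := abs_le.1 hend
    linarith [h5.2, h6.2]

/-- For monotone `φ`: `∑_{n^a ≤ q < n^b} φ(log q/log n)/q = ∫_a^b φ(x)/x dx + O(sup |φ|/(a log n))`.

Proof. Let `M(x) = ∑_{n^a ≤ q < n^x} 1/q = log x - log a + O(1/(a log n))` (`mertens`), uniformly for
`a ≤ x ≤ b`. The sum is `∫ φ dM`; for monotone `φ`, `∫_a^b φ(x) d(M(x) - log x) = [φ (M - log)]_a^b -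
∫ (M - log) dφ = O(sup|φ| · C/(a log n))`. In finite terms (Abel summation over the primes
`q_1 < ... < q_k`, `x_i = log q_i/log n`, `φ` monotone): compare
`∑ φ(x_i) (M(x_{i+1}) - M(x_i))` with `∑ ∫_{x_i}^{x_{i+1}} φ(x)/x dx`; or subdivide `[a, b]` into `J` intervals with
`φ` replaced by its values at the ends (the error is at most `sup|φ| · max_j (M increment + log increment)` plus
`2 J`-free terms by Abel summation) and let `J → ∞`. -/
theorem prime_int : ∃ C : ℝ, 0 < C ∧ ∀ (n : ℕ) (a b Φ : ℝ) (φ : ℝ → ℝ), 3 ≤ n → 0 < a → a ≤ b →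
    b ≤ 2 → 2 ≤ (n : ℝ) ^ a → (MonotoneOn φ (Set.Icc a b) ∨ AntitoneOn φ (Set.Icc a b)) →
    (∀ x ∈ Set.Icc a b, |φ x| ≤ Φ) →
    |∑ q ∈ PR ((n : ℝ) ^ a) ((n : ℝ) ^ b), φ (Real.log q / Real.log n) / q -
      ∫ x in a..b, φ x / x| ≤ C * Φ / (a * Real.log n) := by
  obtain ⟨C0, hC0, hm⟩ := mertens
  refine ⟨5 * C0, by positivity, fun n a b Φ φ hn ha hab _ hna hφ hΦ => ?_⟩
  have hfin : 5 * C0 * Φ / (a * Real.log n) = 5 * Φ * (C0 / (a * Real.log n)) := by ring
  rw [hfin]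
  rcases hφ with h | h
  · exact pin_mono hC0 hm n a b Φ φ hn ha hab hna h hΦ
  · have h1 := pin_mono hC0 hm n a b Φ (fun x => - φ x) hn ha hab hna h.neg
      (fun x hx => by
        rw [abs_neg]
        exact hΦ x hx)
    have h2 : ∑ q ∈ PR ((n : ℝ) ^ a) ((n : ℝ) ^ b), - φ (Real.log q / Real.log n) / (q : ℝ) -
        ∫ x in a..b, - φ x / x =
        - (∑ q ∈ PR ((n : ℝ) ^ a) ((n : ℝ) ^ b), φ (Real.log q / Real.log n) / (q : ℝ) -
        ∫ x in a..b, φ x / x) := by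
      simp only [neg_div]
      rw [sum_neg_distrib, intervalIntegral.integral_neg]
      ring
    rw [h2, abs_neg] at h1
    exact h1

end Pool.Agent.Lib.H59C
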