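import Pool.Agent.Lib.H59C.CN2

/-!
# CCN: the total weight of the boxes
-/

open Finset

namespace Pool.Agent.Lib.H59C

theorem CCN_k {n : ℕ} (hn : 160000 ≤ n) {q1 q2 : ℕ} (h1 : (q1 : ℝ) < yy n)
    (h2 : q1 * q2 ^ 2 ≤ 3 * n) : ((q1 * q2 : ℕ) : ℝ) ≤ (n : ℝ) ^ (3 / 4 : ℝ) := by
  have hn' : (160000 : ℝ) ≤ n := by exact_mod_cast hn
  have hn0 : (0 : ℝ) < n := by linarith
  set t : ℝ := (n : ℝ) ^ (1 / 6 : ℝ) with ht
  have t0 : 0 < t := Real.rpow_pos_of_pos hn0 _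
  have t6 : 6 ≤ t := by
    have h3 : ((6 : ℝ) ^ (6 : ℕ)) ^ (1 / 6 : ℝ) ≤ t :=
      Real.rpow_le_rpow (by positivity) (by norm_num; linarith) (by norm_num)
    have h4 : ((6 : ℝ) ^ (6 : ℕ)) ^ (1 / 6 : ℝ) = 6 := by
      rw [← Real.rpow_natCast, ← Real.rpow_mul (by norm_num)]
      norm_num
    linarith
  have e2 : (n : ℝ) ^ (1 / 3 : ℝ) = t ^ 2 := by
    rw [ht, ← Real.rpow_natCast, ← Real.rpow_mul hn0.le]
    norm_num
  have e6 : (n : ℝ) = t ^ 6 := by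
    rw [ht, ← Real.rpow_natCast, ← Real.rpow_mul hn0.le]
    norm_num
  have e9 : ((n : ℝ) ^ (3 / 4 : ℝ)) ^ 2 = t ^ 9 := by
    rw [ht, ← Real.rpow_natCast, ← Real.rpow_natCast, ← Real.rpow_mul hn0.le,
      ← Real.rpow_mul hn0.le]
    norm_num
  have hy : yy n ≤ 2 * t ^ 2 := by
    unfold yy
    rw [Real.mul_rpow (by norm_num) hn0.le, e2]
    apply mul_le_mul_of_nonneg_right _ (by positivity)
    calc (2 : ℝ) ^ (1 / 3 : ℝ) ≤ 2 ^ (1 : ℝ) :=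
          Real.rpow_le_rpow_of_exponent_le (by norm_num) (by norm_num)
      _ = 2 := Real.rpow_one 2
  have h2' : (q1 : ℝ) * (q2 : ℝ) ^ 2 ≤ 3 * n := by exact_mod_cast h2
  have hk : ((q1 * q2 : ℕ) : ℝ) ^ 2 ≤ ((n : ℝ) ^ (3 / 4 : ℝ)) ^ 2 := by
    rw [e9]
    push_cast
    calc ((q1 : ℝ) * q2) ^ 2 = q1 * (q1 * (q2 : ℝ) ^ 2) := by ring
      _ ≤ (2 * t ^ 2) * (3 * n) :=
        mul_le_mul (h1.le.trans hy) h2' (by positivity) (by positivity)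
      _ = 6 * t ^ 8 := by rw [e6]; ring
      _ ≤ t * t ^ 8 := mul_le_mul_of_nonneg_right t6 (by positivity)
      _ = t ^ 9 := by ring
  exact le_of_sq_le_sq hk (Real.rpow_nonneg hn0.le _)

/-- The total weight of the relevant boxes.

Proof. `boxes_le` with the `δ` of `pnt_inner ε`, and `pnt_inner` for `k = q1 q2` (`(q1 q2)² ≤ 3 n (2n)^(1/3)`, so
`k ≤ n^(3/4)`); `log (n/(20 q1 q2)) > 0`. -/
theorem count_boxes (ε : ℝ) (hε : 0 < ε) : ∃ δ : ℝ, 0 < δ ∧ δ ≤ 1 / 100 ∧ ∃ n0 : ℕ, ∀ n : ℕ,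
    n0 ≤ n → ∀ N y1 y2 : ℕ, Win n N y1 y2 →
    ∑ b ∈ Rel n N y1 y2 δ, 1 / Real.log (lv δ b.2) *
      XB (lv δ (b.1 + 1)) (lv δ b.2) (lv δ (b.2 + 1)) (al n δ b) ≤
    (1 + ε) * ((y2 : ℝ) - y1) * ∑ q1 ∈ PR (zz n) (yy n),
      ∑ q2 ∈ (PR (yy n) n).filter (fun q2 => q1 * q2 ^ 2 ≤ 3 * n),
        1 / ((q1 : ℝ) * q2 * Real.log (n / (20 * q1 * q2))) := by
  obtain ⟨δ, hδ, hδ1, n0, h0⟩ := pnt_inner ε hε
  obtain ⟨n1, h1⟩ := boxes_le δ hδ hδ1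
  refine ⟨δ, hδ, hδ1, max (max n0 n1) 160000, ?_⟩
  intro n hn N y1 y2 W
  have hn0 : n0 ≤ n := le_trans (le_trans (le_max_left _ _) (le_max_left _ _)) hn
  have hn1 : n1 ≤ n := le_trans (le_trans (le_max_right _ _) (le_max_left _ _)) hn
  have hn2 : 160000 ≤ n := le_trans (le_max_right _ _) hn
  have hn' : (160000 : ℝ) ≤ n := by exact_mod_cast hn2
  have hnp : (0 : ℝ) < n := by linarith
  refine (h1 n hn1 N y1 y2 W).trans ?_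
  rw [Finset.mul_sum]
  apply Finset.sum_le_sum
  intro q1 hq1
  rw [Finset.mul_sum]
  apply Finset.sum_le_sum
  intro q2 hq2
  obtain ⟨p1, a1, a2⟩ := mem_PR.1 hq1
  obtain ⟨hq2', b3⟩ := Finset.mem_filter.1 hq2
  obtain ⟨p2, b1, b2⟩ := mem_PR.1 hq2'
  have hk := CCN_k hn2 a2 b3
  have hk0 : 0 < q1 * q2 := Nat.mul_pos p1.pos p2.pos
  have c1 : (0 : ℝ) < q1 := by exact_mod_cast p1.pos
  have c2 : (0 : ℝ) < q2 := by exact_mod_cast p2.pos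
  have hin := h0 n hn0 N y1 y2 W (q1 * q2) hk0 hk
  have hlog : 0 ≤ Real.log (n / (20 * q1 * q2)) := by
    apply Real.log_nonneg
    rw [le_div_iff₀ (by positivity), one_mul]
    push_cast at hk
    have h4 : (20 : ℝ) ≤ (n : ℝ) ^ (1 / 4 : ℝ) := by
      have h3 : ((20 : ℝ) ^ (4 : ℕ)) ^ (1 / 4 : ℝ) ≤ (n : ℝ) ^ (1 / 4 : ℝ) :=
        Real.rpow_le_rpow (by positivity) (by norm_num; linarith) (by norm_num)
      have h4 : ((20 : ℝ) ^ (4 : ℕ)) ^ (1 / 4 : ℝ) = 20 := by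
        rw [← Real.rpow_natCast, ← Real.rpow_mul (by norm_num)]
        norm_num
      linarith
    have h5 : (n : ℝ) = (n : ℝ) ^ (1 / 4 : ℝ) * (n : ℝ) ^ (3 / 4 : ℝ) := by
      rw [← Real.rpow_add hnp]
      norm_num
    calc (20 : ℝ) * q1 * q2 = 20 * (q1 * q2) := by ring
      _ ≤ (n : ℝ) ^ (1 / 4 : ℝ) * (n : ℝ) ^ (3 / 4 : ℝ) :=
        mul_le_mul h4 hk (by positivity) (by linarith)
      _ = n := h5.symm
  calc 1 / Real.log (n / (20 * q1 * q2)) * ∑ q ∈ qr n N y1 y2 δ (q1 * q2), lg q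
      ≤ 1 / Real.log (n / (20 * q1 * q2)) * ((1 + ε) * ((y2 : ℝ) - y1) / (q1 * q2 : ℕ)) :=
        mul_le_mul_of_nonneg_left hin (div_nonneg zero_le_one hlog)
    _ = (1 + ε) * ((y2 : ℝ) - y1) * (1 / ((q1 : ℝ) * q2 * Real.log (n / (20 * q1 * q2)))) := by
      push_cast
      rw [one_div, one_div, mul_inv, mul_inv, div_eq_mul_inv, mul_inv]
      ring

end Pool.Agent.Lib.H59C
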