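import Pool.Agent.Lib.H59C.CDL

/-!
# CCV: covering by boxes
-/

open Finset

namespace Pool.Agent.Lib.H59C

theorem ccv_lv_zero (δ : ℝ) : lv δ 0 = 1 := by
  unfold lv
  simp

/-- The index of a number. -/
theorem ccv_index (δ : ℝ) (hδ : 0 < δ) (m : ℕ) (hm : 2 ≤ m) :
    ∃ i : ℕ, lv δ i < m ∧ m ≤ lv δ (i + 1) := by
  have hex : ∃ k, m ≤ lv δ k := by
    obtain ⟨k, hk⟩ := pow_unbounded_of_one_lt (m : ℝ) (by linarith : (1 : ℝ) < 1 + δ)
    refine ⟨k, ?_⟩
    unfold lv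
    exact Nat.le_floor hk.le
  classical
  obtain ⟨k, hk⟩ : ∃ k, k = Nat.find hex := ⟨_, rfl⟩
  have h1 : m ≤ lv δ k := by rw [hk]; exact Nat.find_spec hex
  have h2 : k ≠ 0 := by
    intro h
    rw [h, ccv_lv_zero] at h1
    omega
  refine ⟨k - 1, ?_, ?_⟩
  · have h3 := Nat.find_min hex (m := k - 1) (by rw [← hk]; omega)
    omega
  · rw [Nat.sub_add_cancel (by omega)]
    exact h1

/-- The bound for the index. -/
theorem ccv_index_le (δ : ℝ) (hδ : 0 < δ) (hδ1 : δ ≤ 1 / 100) (n m i : ℕ) (hn : 2 ≤ n)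
    (hm : m ≤ 2 * n) (hi : lv δ i < m) : i < ⌊4 * Real.log n / δ⌋₊ + 1 := by
  have hn' : (2 : ℝ) ≤ n := by exact_mod_cast hn
  have h1 : (1 + δ) ^ i < m := by
    unfold lv at hi
    exact (Nat.floor_lt (by positivity)).mp hi
  have h2 : (1 + δ) ^ i ≤ 2 * n := by
    have : (m : ℝ) ≤ 2 * n := by exact_mod_cast hm
    linarith
  have h3 := Real.log_le_log (by positivity) h2
  rw [Real.log_pow, Real.log_mul (by norm_num) (by linarith)] at h3
  have h4 : Real.log 2 ≤ Real.log n := Real.log_le_log (by norm_num) hn'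
  have h5 : δ / 2 ≤ Real.log (1 + δ) := by
    have h6 := Real.one_sub_inv_le_log_of_pos (by linarith : 0 < 1 + δ)
    have h7 : δ / 2 ≤ 1 - (1 + δ)⁻¹ := by
      have : 1 - (1 + δ)⁻¹ = δ / (1 + δ) := by
        field_simp
        ring
      rw [this, div_le_div_iff₀ (by norm_num) (by linarith)]
      nlinarith
    linarith
  have h6 : (i : ℝ) ≤ 4 * Real.log n / δ := by
    rw [le_div_iff₀ hδ]
    have h7 : (i : ℝ) * (δ / 2) ≤ i * Real.log (1 + δ) :=
      mul_le_mul_of_nonneg_left h5 (Nat.cast_nonneg _)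
    linarith
  have h7 : i ≤ ⌊4 * Real.log n / δ⌋₊ := Nat.le_floor h6
  omega

theorem ccv_al_nonneg (n : ℕ) (δ : ℝ) (b : ℕ × ℕ) (m : ℕ) : 0 ≤ al n δ b m := by
  unfold al
  split_ifs <;> norm_num

open Classical in
/-- Covering.

Proof. Let `p` be in the filter, `|N - p| = q1 q2 q3`, `m = q1 q2`, `q = q3`. Since `lv δ 0 = 1` and `lv δ i → ∞` there are
(unique) `i, j` with `lv i < m ≤ lv (i+1)`, `lv j < q3 ≤ lv (j+1)`; `(1 + δ)^i < m ≤ 2 n` gives
`i ≤ log (2n)/log (1 + δ) ≤ 4 log n/δ` (`log (1 + δ) ≥ δ/2`), the same for `j`. `q2 ≤ q3 ≤ lv (j+1)`, so `al n δ (i,j) m = 1`, and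
`(i, j) ∈ Rel`. Put `x = (m, q3) ∈ BX (lv (i+1)) (lv j) (lv (j+1))`: `bb N y2 x = p` (if `y2 < N` then `m q3 = N - p` and
`Nat.dist N (N - p) = p`; otherwise `N ≤ y1 < p`, `m q3 = p - N`), a prime, `p > y1 ≥ n/16 ≥ n^(1/6)`. Different `p` give different
`(i, j, x)`. The weight is `1 ≤ al n δ (i,j) m · log q3/log (lv j)` (`q3 > lv j ≥ 2`, as `q3 ≥ (2n)^(1/3)` is large). -/
theorem cover (δ : ℝ) (hδ : 0 < δ) (hδ1 : δ ≤ 1 / 100) : ∃ n0 : ℕ, ∀ n : ℕ, n0 ≤ n →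
    ∀ N y1 y2 : ℕ, Win n N y1 y2 →
    ((((Sq y1 y2).filter (fun p => Tri n (Nat.dist N p))).card : ℕ) : ℝ) ≤
      ∑ b ∈ Rel n N y1 y2 δ, 1 / Real.log (lv δ b.2) *
        ∑ x ∈ (BX (lv δ (b.1 + 1)) (lv δ b.2) (lv δ (b.2 + 1))).filter
          (fun x => (bb N y2 x).Prime ∧ (n : ℝ) ^ (1 / 6 : ℝ) ≤ bb N y2 x), wB (al n δ b) x := by
  obtain ⟨n1, hn1⟩ := cdl_zz 4
  refine ⟨n1 + 1000, fun n hn N y1 y2 hW => ?_⟩
  have hN : (1000 : ℝ) ≤ n := by exact_mod_cast (by omega : 1000 ≤ n)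
  have hz4 := hn1 n (by omega)
  have hyz : zz n ≤ yy n := by
    unfold zz yy
    calc (n : ℝ) ^ (1 / 8 : ℝ) ≤ (n : ℝ) ^ (1 / 3 : ℝ) :=
          Real.rpow_le_rpow_of_exponent_le (by linarith) (by norm_num)
      _ ≤ (2 * n : ℝ) ^ (1 / 3 : ℝ) :=
          Real.rpow_le_rpow (by linarith) (by linarith) (by norm_num)
  obtain ⟨F, hF⟩ : ∃ F : ℕ × ℕ → Finset (ℕ × ℕ), F = fun b =>
    (BX (lv δ (b.1 + 1)) (lv δ b.2) (lv δ (b.2 + 1))).filter
          (fun x => (bb N y2 x).Prime ∧ (n : ℝ) ^ (1 / 6 : ℝ) ≤ bb N y2 x) := ⟨_, rfl⟩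
  obtain ⟨t, ht⟩ : ∃ t : (_ : ℕ × ℕ) × (ℕ × ℕ) → ℝ, t = fun y =>
    1 / Real.log (lv δ y.1.2) * wB (al n δ y.1) y.2 := ⟨_, rfl⟩
  have ht0 : ∀ y, 0 ≤ t y := by
    intro y
    rw [ht]
    apply mul_nonneg
    · exact div_nonneg zero_le_one (Real.log_natCast_nonneg _)
    · apply mul_nonneg (ccv_al_nonneg _ _ _ _)
      unfold lg
      exact Real.log_natCast_nonneg _
  -- the data of a prime
  have hdata : ∀ p ∈ (Sq y1 y2).filter (fun p => Tri n (Nat.dist N p)),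
      ∃ y : (_ : ℕ × ℕ) × (ℕ × ℕ), y ∈ (Rel n N y1 y2 δ).sigma F ∧ bb N y2 y.2 = p ∧ 1 ≤ t y := by
    intro p hp
    rw [mem_filter, mem_Sq] at hp
    obtain ⟨⟨⟨hp1, hp2⟩, hpp⟩, q1, q2, q3, hq1, hq2, hq3, hz1, hy1, hy2, h23, hdist⟩ := hp
    have hdle : Nat.dist N p ≤ 2 * n := by
      unfold Nat.dist
      have := hW.N2
      have := hW.le
      omega
    have hm2 : 2 ≤ q1 * q2 := by
      have := hq1.two_le
      have := hq2.two_le
      nlinarith
    have hmle : q1 * q2 ≤ 2 * n := by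
      have h1 : q1 * q2 * 1 ≤ q1 * q2 * q3 := Nat.mul_le_mul_left _ hq3.one_lt.le
      rw [mul_one] at h1
      omega
    have hqle : q3 ≤ 2 * n := by
      have h1 : 1 * q3 ≤ q1 * q2 * q3 := Nat.mul_le_mul_right _ (by omega)
      omega
    obtain ⟨i, hi1, hi2⟩ := ccv_index δ hδ (q1 * q2) hm2
    obtain ⟨j, hj1, hj2⟩ := ccv_index δ hδ q3 hq3.two_le
    have hal : al n δ (i, j) (q1 * q2) = 1 := by
      unfold al
      rw [if_pos]
      exact ⟨hi1, q1, q2, hq1, hq2, hz1, hy1, hy2, h23.trans hj2, rfl⟩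
    have hyq3 : yy n ≤ q3 := by
      have : (q2 : ℝ) ≤ q3 := by exact_mod_cast h23
      linarith
    have hRel : (i, j) ∈ Rel n N y1 y2 δ := by
      unfold Rel
      rw [mem_filter, mem_product, mem_range, mem_range]
      exact ⟨⟨ccv_index_le δ hδ hδ1 n _ i (by omega) hmle hi1,
        ccv_index_le δ hδ hδ1 n _ j (by omega) hqle hj1⟩,
        q1 * q2, q3, p, hi1, hi2, hj1, hj2, hq3, hal, hyq3, hp1, hp2, hdist⟩
    have hbb : bb N y2 (q1 * q2, q3) = p := by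
      unfold bb
      show (if y2 < N then Nat.dist N (q1 * q2 * q3) else N + q1 * q2 * q3) = p
      rw [← hdist]
      unfold Nat.dist
      have h1 := hW.side
      split_ifs with h2
      · omega
      · omega
    have hplow : (n : ℝ) ^ (1 / 6 : ℝ) ≤ p := by
      have h1 : (n : ℝ) ≤ 16 * p := by
        have h2 := hW.lo
        have h3 : n ≤ 16 * p := by omega
        exact_mod_cast h3
      have h2 : (n : ℝ) ^ (1 / 6 : ℝ) ≤ (n : ℝ) ^ (1 / 2 : ℝ) :=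
        Real.rpow_le_rpow_of_exponent_le (by linarith) (by norm_num)
      have h3 : 16 ≤ (n : ℝ) ^ (1 / 2 : ℝ) := by
        rw [← Real.sqrt_eq_rpow]
        apply Real.le_sqrt_of_sq_le
        linarith
      have h4 : (n : ℝ) ^ (1 / 2 : ℝ) * (n : ℝ) ^ (1 / 2 : ℝ) = n := by
        rw [← Real.rpow_add (by linarith)]
        norm_num
      nlinarith
    have hlv2 : 2 ≤ lv δ j := by
      have h1 : (q3 : ℝ) ≤ (1 + δ) ^ (j + 1) := by
        have h2 : (q3 : ℝ) ≤ (lv δ (j + 1) : ℝ) := by exact_mod_cast hj2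
        have h3 : (lv δ (j + 1) : ℝ) ≤ (1 + δ) ^ (j + 1) := by
          unfold lv
          exact Nat.floor_le (by positivity)
        linarith
      have h2 : (3 : ℝ) ≤ (1 + δ) ^ j := by
        rw [pow_succ] at h1
        have h3 : (4 : ℝ) ≤ (1 + δ) ^ j * (1 + δ) := by linarith
        have h4 : (0 : ℝ) < (1 + δ) ^ j := by positivity
        nlinarith
      unfold lv
      apply Nat.le_floor
      push_cast
      linarith
    refine ⟨⟨(i, j), (q1 * q2, q3)⟩, ?_, hbb, ?_⟩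
    · rw [mem_sigma]
      refine ⟨hRel, ?_⟩
      rw [hF]
      show (q1 * q2, q3) ∈ (BX (lv δ (i + 1)) (lv δ j) (lv δ (j + 1))).filter
          (fun x => (bb N y2 x).Prime ∧ (n : ℝ) ^ (1 / 6 : ℝ) ≤ bb N y2 x)
      rw [mem_filter]
      constructor
      · unfold BX
        rw [mem_product, mem_Icc, mem_Sq]
        exact ⟨⟨by show 1 ≤ q1 * q2; omega, hi2⟩, ⟨hj1, hj2⟩, hq3⟩
      · rw [hbb]
        exact ⟨hpp, hplow⟩
    · rw [ht]
      show 1 ≤ 1 / Real.log (lv δ j) * (al n δ (i, j) (q1 * q2) * lg q3)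
      rw [hal, one_mul, one_div, ← div_eq_inv_mul]
      have h1 : (2 : ℝ) ≤ lv δ j := by exact_mod_cast hlv2
      have h2 : 0 < Real.log (lv δ j) := Real.log_pos (by linarith)
      rw [le_div_iff₀ h2, one_mul]
      unfold lg
      apply Real.log_le_log (by linarith)
      exact_mod_cast hj1.le
  choose! f hf1 hf2 hf3 using hdata
  have hinj : Set.InjOn f ((Sq y1 y2).filter (fun p => Tri n (Nat.dist N p))) := by
    intro p hp p' hp' heq
    have h1 := hf2 p hp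
    have h2 := hf2 p' hp'
    rw [← h1, ← h2, heq]
  calc ((((Sq y1 y2).filter (fun p => Tri n (Nat.dist N p))).card : ℕ) : ℝ)
      = ∑ p ∈ (Sq y1 y2).filter (fun p => Tri n (Nat.dist N p)), (1 : ℝ) := by
        rw [sum_const, nsmul_eq_mul, mul_one]
    _ ≤ ∑ p ∈ (Sq y1 y2).filter (fun p => Tri n (Nat.dist N p)), t (f p) :=
        sum_le_sum fun p hp => hf3 p hp
    _ = ∑ y ∈ ((Sq y1 y2).filter (fun p => Tri n (Nat.dist N p))).image f, t y := by
        rw [sum_image hinj]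
    _ ≤ ∑ y ∈ (Rel n N y1 y2 δ).sigma F, t y := by
        apply sum_le_sum_of_subset_of_nonneg
        · intro y hy
          rw [mem_image] at hy
          obtain ⟨p, hp, rfl⟩ := hy
          exact hf1 p hp
        · intro y _ _
          exact ht0 y
    _ = ∑ b ∈ Rel n N y1 y2 δ, ∑ x ∈ F b, t ⟨b, x⟩ := by
        rw [sum_sigma]
    _ = _ := by
        apply sum_congr rfl
        intro b _
        rw [mul_sum, ht, hF]

end Pool.Agent.Lib.H59C
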