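import Pool.Agent.Lib.H59C.CDefs

/-!
# CRP: the parameters of the relevant boxes
-/

open Finset

namespace Pool.Agent.Lib.H59C

theorem CRP_yy {n : ℕ} (hn : 1 ≤ n) {t : ℝ} (ht : t ≤ 1 / 3) : (n : ℝ) ^ t ≤ yy n := by
  have h1 : (1 : ℝ) ≤ n := by exact_mod_cast hn
  unfold yy
  calc (n : ℝ) ^ t ≤ (n : ℝ) ^ (1 / 3 : ℝ) := Real.rpow_le_rpow_of_exponent_le h1 ht
    _ ≤ (2 * n : ℝ) ^ (1 / 3 : ℝ) :=
      Real.rpow_le_rpow (by linarith) (by linarith) (by norm_num)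

theorem CRP_zz {n : ℕ} (hn : 1 ≤ n) {t : ℝ} (ht : t ≤ 1 / 8) : (n : ℝ) ^ t ≤ zz n := by
  have h1 : (1 : ℝ) ≤ n := by exact_mod_cast hn
  exact Real.rpow_le_rpow_of_exponent_le h1 ht

theorem CRP_al {n : ℕ} {δ : ℝ} {b : ℕ × ℕ} {m : ℕ} (h : al n δ b m ≠ 0) :
    lv δ b.1 < m ∧ ∃ q1 q2 : ℕ, q1.Prime ∧ q2.Prime ∧ zz n ≤ q1 ∧ (q1 : ℝ) < yy n ∧ yy n ≤ q2 ∧
    q2 ≤ lv δ (b.2 + 1) ∧ m = q1 * q2 := by
  by_contra hc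
  apply h
  unfold al
  rw [if_neg hc]

theorem CRP_box {δ : ℝ} (hδ : 0 < δ) (hδ1 : δ ≤ 1 / 100) {n : ℕ} (hn : 2 ^ 24 ≤ n)
    {N y1 y2 : ℕ} (W : Win n N y1 y2) {b : ℕ × ℕ} (hb : b ∈ Rel n N y1 y2 δ) :
    (n : ℝ) ^ (1 / 4 : ℝ) ≤ lv δ (b.1 + 1) ∧
      (n : ℝ) ^ (1 / 4 : ℝ) ≤ lv δ (b.2 + 1) ∧ (n : ℝ) ^ (1 / 4 : ℝ) ≤ lv δ b.2 ∧
      lv δ b.2 ≤ lv δ (b.2 + 1) ∧ lv δ (b.1 + 1) * lv δ (b.2 + 1) ≤ 8 * n := by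
  have hn1 : 1 ≤ n := by omega
  have hn1' : (1 : ℝ) ≤ n := by exact_mod_cast hn1
  unfold Rel at hb
  classical
  obtain ⟨-, m, q, p, hm1, hm2, hq1, hq2, hq, hal, hyq, hp1, hp2, hd⟩ := Finset.mem_filter.1 hb
  have hal' : al n δ b m ≠ 0 := by rw [hal]; norm_num
  obtain ⟨-, q1, q2, hq1p, hq2p, hz, -, hy, -, hmq⟩ := CRP_al hal'
  have h1δ : (1 : ℝ) ≤ 1 + δ := by linarith
  have h0δ : (0 : ℝ) ≤ 1 + δ := by linarith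
  have c1 : (n : ℝ) ^ (1 / 4 : ℝ) ≤ lv δ (b.1 + 1) := by
    have h1 : (n : ℝ) ^ (1 / 4 : ℝ) ≤ q2 := (CRP_yy hn1 (by norm_num)).trans hy
    have h2 : q2 ≤ m := by
      rw [hmq]
      exact Nat.le_mul_of_pos_left q2 hq1p.pos
    have h3 : (q2 : ℝ) ≤ lv δ (b.1 + 1) := by exact_mod_cast h2.trans hm2
    exact h1.trans h3
  have c2 : yy n ≤ lv δ (b.2 + 1) := hyq.trans (by exact_mod_cast hq2)
  have c3 : (n : ℝ) ^ (1 / 4 : ℝ) ≤ lv δ b.2 := by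
    have h1 : (lv δ (b.2 + 1) : ℝ) ≤ (1 + δ) ^ (b.2 + 1) := Nat.floor_le (pow_nonneg h0δ _)
    have h2 : (1 + δ) ^ b.2 - 1 < (lv δ b.2 : ℝ) := Nat.sub_one_lt_floor _
    have h3 : (n : ℝ) ^ (1 / 3 : ℝ) ≤ (1 + δ) ^ (b.2 + 1) :=
      ((CRP_yy hn1 le_rfl).trans c2).trans h1
    have h4 : (n : ℝ) ^ (1 / 3 : ℝ) = (n : ℝ) ^ (1 / 12 : ℝ) * (n : ℝ) ^ (1 / 4 : ℝ) := by
      rw [← Real.rpow_add (by linarith)]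
      norm_num
    have h5 : (4 : ℝ) ≤ (n : ℝ) ^ (1 / 12 : ℝ) := by
      have h6 : ((2 : ℝ) ^ (24 : ℕ)) ^ (1 / 12 : ℝ) ≤ (n : ℝ) ^ (1 / 12 : ℝ) :=
        Real.rpow_le_rpow (by positivity) (by exact_mod_cast hn) (by norm_num)
      have h7 : ((2 : ℝ) ^ (24 : ℕ)) ^ (1 / 12 : ℝ) = 4 := by
        rw [← Real.rpow_natCast, ← Real.rpow_mul (by norm_num)]
        norm_num
      linarith
    have h8 : (1 : ℝ) ≤ (n : ℝ) ^ (1 / 4 : ℝ) := Real.one_le_rpow hn1' (by norm_num)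
    have h9 : 4 * (n : ℝ) ^ (1 / 4 : ℝ) ≤ (1 + δ) * (1 + δ) ^ b.2 := by
      have h10 : 4 * (n : ℝ) ^ (1 / 4 : ℝ) ≤ (n : ℝ) ^ (1 / 12 : ℝ) * (n : ℝ) ^ (1 / 4 : ℝ) :=
        mul_le_mul_of_nonneg_right h5 (by linarith)
      rw [pow_succ'] at h3
      linarith
    have h11 : (0 : ℝ) ≤ (1 + δ) ^ b.2 := pow_nonneg h0δ _
    have h12 : (1 + δ) * (1 + δ) ^ b.2 ≤ 2 * (1 + δ) ^ b.2 :=
      mul_le_mul_of_nonneg_right (by linarith) h11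
    linarith
  have c4 : lv δ b.2 ≤ lv δ (b.2 + 1) :=
    Nat.floor_le_floor (pow_le_pow_right₀ h1δ (Nat.le_succ _))
  refine ⟨c1, (CRP_yy hn1 (by norm_num)).trans c2, c3, c4, ?_⟩
  have h1 : (lv δ (b.2 + 1) : ℝ) ≤ (1 + δ) ^ (b.2 + 1) := Nat.floor_le (pow_nonneg h0δ _)
  have h2 : (lv δ (b.1 + 1) : ℝ) ≤ (1 + δ) ^ (b.1 + 1) := Nat.floor_le (pow_nonneg h0δ _)
  have h3 : (1 + δ) ^ b.1 < m := (Nat.floor_lt (pow_nonneg h0δ _)).1 hm1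
  have h4 : (1 + δ) ^ b.2 < q := (Nat.floor_lt (pow_nonneg h0δ _)).1 hq1
  have h5 : m * q ≤ 2 * n := by
    rw [← hd]
    have e1 := W.N2
    have e2 := W.le
    unfold Nat.dist
    omega
  have h6 : (m : ℝ) * q ≤ 2 * n := by exact_mod_cast h5
  have h7 : (1 + δ) ^ b.1 * (1 + δ) ^ b.2 ≤ 2 * n :=
    (mul_le_mul h3.le h4.le (pow_nonneg h0δ _) (Nat.cast_nonneg _)).trans h6
  have h8 : (lv δ (b.1 + 1) : ℝ) * lv δ (b.2 + 1) ≤ 8 * n := by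
    calc (lv δ (b.1 + 1) : ℝ) * lv δ (b.2 + 1) ≤ (1 + δ) ^ (b.1 + 1) * (1 + δ) ^ (b.2 + 1) :=
          mul_le_mul h2 h1 (Nat.cast_nonneg _) (pow_nonneg h0δ _)
      _ = (1 + δ) ^ 2 * ((1 + δ) ^ b.1 * (1 + δ) ^ b.2) := by ring
      _ ≤ 4 * (2 * n) := by
        apply mul_le_mul _ h7 (mul_nonneg (pow_nonneg h0δ _) (pow_nonneg h0δ _)) (by norm_num)
        nlinarith
      _ = 8 * n := by ring
  exact_mod_cast h8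

/-- The parameters of the relevant boxes.

Proof. `m ≥ q1 q2 ≥ n^(1/8) (2n)^(1/3) ≥ n^(1/4)` and `m ≤ lv (i+1)`; `q ≥ (2n)^(1/3)`, `q ≤ lv (j+1)`, and
`lv j ≥ (1 + δ)^j - 1 ≥ lv (j+1)/2 - 1`; `(1 + δ)^i < m` (as `m ≥ lv i + 1`), `(1 + δ)^j < q`, `m q = |N - p| ≤ 2 n` and
`lv (i+1) lv (j+1) ≤ (1 + δ)^2 (1 + δ)^(i+j) ≤ 8 n`. The number of boxes is at most `(4 log n/δ + 1)^2`. -/
theorem rel_par (δ : ℝ) (hδ : 0 < δ) (hδ1 : δ ≤ 1 / 100) : ∃ n0 : ℕ, ∀ n : ℕ, n0 ≤ n →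
    ∀ N y1 y2 : ℕ, Win n N y1 y2 →
    (∀ b ∈ Rel n N y1 y2 δ, (n : ℝ) ^ (1 / 4 : ℝ) ≤ lv δ (b.1 + 1) ∧
      (n : ℝ) ^ (1 / 4 : ℝ) ≤ lv δ (b.2 + 1) ∧ (n : ℝ) ^ (1 / 4 : ℝ) ≤ lv δ b.2 ∧
      lv δ b.2 ≤ lv δ (b.2 + 1) ∧ lv δ (b.1 + 1) * lv δ (b.2 + 1) ≤ 8 * n) ∧
    ((Rel n N y1 y2 δ).card : ℝ) ≤ 25 * Real.log n ^ 2 / δ ^ 2 ∧
    ∀ b : ℕ × ℕ, ∀ m, 0 ≤ al n δ b m ∧ al n δ b m ≤ 1 ∧ (al n δ b m ≠ 0 → ∀ r : ℕ, r.Prime → r ∣ m →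
      (n : ℝ) ^ (1 / 10 : ℝ) ≤ r) := by
  refine ⟨2 ^ 24, ?_⟩
  intro n hn N y1 y2 W
  have hn1 : 1 ≤ n := by omega
  have hn3 : (3 : ℝ) ≤ n := by exact_mod_cast (by omega : 3 ≤ n)
  refine ⟨fun b hb => ?_, ?_, ?_⟩
  · obtain ⟨h1, h2, h3, h4, h5⟩ := CRP_box hδ hδ1 hn W hb
    exact ⟨h1, h2, h3, h4, h5⟩
  · have hlog : 1 ≤ Real.log n := by
      rw [Real.le_log_iff_exp_le (by linarith)]
      have := Real.exp_one_lt_d9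
      linarith
    have h1 : (Rel n N y1 y2 δ).card ≤ (⌊4 * Real.log n / δ⌋₊ + 1) ^ 2 := by
      classical
      unfold Rel
      refine (Finset.card_filter_le _ _).trans ?_
      rw [Finset.card_product, Finset.card_range, sq]
    have h2 : ((⌊4 * Real.log n / δ⌋₊ : ℝ)) ≤ 4 * Real.log n / δ :=
      Nat.floor_le (by positivity)
    have h3 : (1 : ℝ) ≤ Real.log n / δ := by
      rw [le_div_iff₀ hδ]
      linarith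
    have h4 : ((⌊4 * Real.log n / δ⌋₊ : ℝ)) + 1 ≤ 5 * (Real.log n / δ) := by
      have : 4 * Real.log n / δ = 4 * (Real.log n / δ) := by ring
      linarith
    calc ((Rel n N y1 y2 δ).card : ℝ) ≤ ((⌊4 * Real.log n / δ⌋₊ : ℝ) + 1) ^ 2 := by
          exact_mod_cast h1
      _ ≤ (5 * (Real.log n / δ)) ^ 2 := pow_le_pow_left₀ (by positivity) h4 2
      _ = 25 * Real.log n ^ 2 / δ ^ 2 := by
        rw [mul_pow, div_pow]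
        ring
  · intro b m
    refine ⟨?_, ?_, ?_⟩
    · unfold al
      split_ifs <;> norm_num
    · unfold al
      split_ifs <;> norm_num
    · intro h r hr hrm
      obtain ⟨-, q1, q2, hq1p, hq2p, hz, -, hy, -, hmq⟩ := CRP_al h
      rw [hmq] at hrm
      rcases (Nat.Prime.dvd_mul hr).1 hrm with h1 | h1
      · rw [(Nat.prime_dvd_prime_iff_eq hr hq1p).1 h1]
        exact (CRP_zz hn1 (by norm_num)).trans hz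
      · rw [(Nat.prime_dvd_prime_iff_eq hr hq2p).1 h1]
        exact (CRP_yy hn1 (by norm_num)).trans hy

end Pool.Agent.Lib.H59C
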