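import Mathlib

/-!
# CTN: a numerical integral
-/

open Finset MeasureTheory

namespace Pool.Agent.Lib.H59C

theorem CTN_log {u : ℝ} (hu : 0 ≤ u) : Real.log (1 + u) ≤ u - u ^ 2 / 2 + u ^ 3 / 3 := by
  have hd : ∀ x : ℝ, 0 ≤ x → HasDerivAt (fun x : ℝ => x - x ^ 2 / 2 + x ^ 3 / 3 - Real.log (1 + x))
      (x ^ 3 / (1 + x)) x := by
    intro x hx
    have h1 : (1 + x) ≠ 0 := by positivity
    have h2 : HasDerivAt (fun x : ℝ => Real.log (1 + x)) (1 / (1 + x)) x :=
      ((hasDerivAt_id x).const_add 1).log h1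
    have h3 : HasDerivAt (fun x : ℝ => x - x ^ 2 / 2 + x ^ 3 / 3) (1 - x + x ^ 2) x := by
      have e := ((hasDerivAt_id x).sub (((hasDerivAt_id x).pow 2).div_const 2)).add
        (((hasDerivAt_id x).pow 3).div_const 3)
      refine e.congr_deriv ?_
      simp only [id]
      push_cast
      ring
    refine (h3.sub h2).congr_deriv ?_
    field_simp
    ring
  have hm : MonotoneOn (fun x : ℝ => x - x ^ 2 / 2 + x ^ 3 / 3 - Real.log (1 + x)) (Set.Ici 0) := by
    apply monotoneOn_of_deriv_nonneg (convex_Ici 0)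
    · intro x hx
      exact (hd x hx).continuousAt.continuousWithinAt
    · intro x hx
      rw [interior_Ici] at hx
      exact (hd x hx.le).differentiableAt.differentiableWithinAt
    · intro x hx
      rw [interior_Ici] at hx
      have hx' : (0 : ℝ) < x := hx
      rw [(hd x hx'.le).deriv]
      positivity
  have h := hm (show (0 : ℝ) ∈ Set.Ici 0 from Set.mem_Ici.2 le_rfl) (show u ∈ Set.Ici 0 from hu) hu
  simp at h
  linarith

theorem CTN_A : 2 * (1 / 7 + (1 / 7) ^ 3 / 3 + (1 / 7) ^ 5 / 5) ≤ Real.log (4 / 3) := by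
  have h := Real.hasSum_log_sub_log_of_abs_lt_one (x := 1 / 7) (by rw [abs_of_pos] <;> norm_num)
  have h1 := sum_le_hasSum (Finset.range 3) (fun k _ => by positivity) h
  have h2 : Real.log (4 / 3) = Real.log (1 + 1 / 7) - Real.log (1 - 1 / 7) := by
    rw [← Real.log_div (by norm_num) (by norm_num)]
    norm_num
  rw [h2]
  refine le_trans (le_of_eq ?_) h1
  simp [Finset.sum_range_succ]
  norm_num

/-- Proof. With `u = 1 - 3x ∈ [0, 5/8]`: `log (2 - 3x) = log (1 + u) ≤ u - u²/2 + u³/3`, and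
`u - u²/2 + u³/3 = 5/6 - 3 x + (9/2) x² - 9 x³` (`= g(x)`), `g(x)/(x (1 - x)) = (5/6)/x - (20/3)/(1 - x) + 9/2 + 9 x`
(`g(0) = 5/6`, `g(1) = -20/3`). So the integral is at most
`(5/6) log (8/3) + (20/3) log ((2/3)/(7/8)) + (9/2)(5/24) + (9/2)(1/9 - 1/64) = 0.37165...`
(`log (16/21)`); bounds for `log 2`, `log 3`, `log 7` to `5` digits, or rational bounds for `exp`. -/
theorem switch_int :
    ∫ x in (1 / 8 : ℝ)..(1 / 3 : ℝ), Real.log (2 - 3 * x) / (x * (1 - x)) ≤ 372 / 1000 := by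
  have hmem : ∀ x ∈ Set.uIcc (1 / 8 : ℝ) (1 / 3), 1 / 8 ≤ x ∧ x ≤ 1 / 3 := by
    intro x hx
    rw [Set.uIcc_of_le (by norm_num)] at hx
    exact ⟨hx.1, hx.2⟩
  have hc1 : ContinuousOn (fun x : ℝ => Real.log (2 - 3 * x) / (x * (1 - x)))
      (Set.uIcc (1 / 8 : ℝ) (1 / 3)) := by
    apply ContinuousOn.div
    · apply ContinuousOn.log
      · fun_prop
      · intro x hx
        obtain ⟨h1, h2⟩ := hmem x hx
        linarith
    · fun_prop
    · intro x hx
      obtain ⟨h1, h2⟩ := hmem x hx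
      have : 0 < x * (1 - x) := mul_pos (by linarith) (by linarith)
      exact this.ne'
  have hc2 : ContinuousOn (fun x : ℝ => (5 / 6) / x - (20 / 3) / (1 - x) + 9 / 2 + 9 * x)
      (Set.uIcc (1 / 8 : ℝ) (1 / 3)) := by
    apply ContinuousOn.add
    · apply ContinuousOn.add
      · apply ContinuousOn.sub
        · apply ContinuousOn.div continuousOn_const continuousOn_id
          intro x hx
          obtain ⟨h1, h2⟩ := hmem x hx
          show x ≠ 0
          linarith
        · apply ContinuousOn.div continuousOn_const (by fun_prop)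
          intro x hx
          obtain ⟨h1, h2⟩ := hmem x hx
          linarith
      · fun_prop
    · fun_prop
  have hle : ∫ x in (1 / 8 : ℝ)..(1 / 3 : ℝ), Real.log (2 - 3 * x) / (x * (1 - x)) ≤
      ∫ x in (1 / 8 : ℝ)..(1 / 3 : ℝ), ((5 / 6) / x - (20 / 3) / (1 - x) + 9 / 2 + 9 * x) := by
    apply intervalIntegral.integral_mono_on (by norm_num) hc1.intervalIntegrable
      hc2.intervalIntegrable
    intro x hx
    obtain ⟨h1, h2⟩ := hx
    have hx0 : 0 < x := by linarith
    have hx1 : 0 < 1 - x := by linarith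
    have h3 := CTN_log (u := 1 - 3 * x) (by linarith)
    have e : (1 : ℝ) + (1 - 3 * x) = 2 - 3 * x := by ring
    rw [e] at h3
    rw [div_le_iff₀ (mul_pos hx0 hx1)]
    refine h3.trans (le_of_eq ?_)
    field_simp
    ring
  refine hle.trans ?_
  have hd : ∀ x ∈ Set.uIcc (1 / 8 : ℝ) (1 / 3), HasDerivAt
      (fun x : ℝ => (5 / 6) * Real.log x + (20 / 3) * Real.log (1 - x) + 9 / 2 * x + 9 / 2 * x ^ 2)
      ((5 / 6) / x - (20 / 3) / (1 - x) + 9 / 2 + 9 * x) x := by
    intro x hx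
    obtain ⟨h1, h2⟩ := hmem x hx
    have hx0 : x ≠ 0 := by linarith
    have hx1 : 1 - x ≠ 0 := by linarith
    have a1 := (Real.hasDerivAt_log hx0).const_mul (5 / 6)
    have a2 := (((hasDerivAt_id x).const_sub 1).log hx1).const_mul (20 / 3)
    have a3 := (hasDerivAt_id x).const_mul (9 / 2)
    have a4 := ((hasDerivAt_id x).pow 2).const_mul (9 / 2)
    refine (((a1.add a2).add a3).add a4).congr_deriv ?_
    simp only [id]
    push_cast
    field_simp
    ring
  rw [intervalIntegral.integral_eq_sub_of_hasDerivAt hd hc2.intervalIntegrable]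
  have l2 := Real.log_two_lt_d9
  have lA := CTN_A
  have l63 : Real.log (64 / 63) ≤ 1 / 63 - (1 / 63) ^ 2 / 2 + (1 / 63) ^ 3 / 3 := by
    have := CTN_log (u := 1 / 63) (by norm_num)
    have e : (1 : ℝ) + 1 / 63 = 64 / 63 := by norm_num
    rwa [e] at this
  have n2 : (0 : ℝ) < 2 := by norm_num
  have e1 : Real.log (1 / 3) - Real.log (1 / 8) = Real.log (4 / 3) + Real.log 2 := by
    rw [← Real.log_div (by norm_num) (by norm_num), ← Real.log_mul (by norm_num) (by norm_num)]
    norm_num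
  have e2 : Real.log (1 - 1 / 3) - Real.log (1 - 1 / 8) =
      Real.log (64 / 63) - Real.log (4 / 3) := by
    rw [← Real.log_div (by norm_num) (by norm_num), ← Real.log_div (by norm_num) (by norm_num)]
    norm_num
  have e : (5 / 6 * Real.log (1 / 3) + 20 / 3 * Real.log (1 - 1 / 3) + 9 / 2 * (1 / 3) +
      9 / 2 * (1 / 3) ^ 2) - (5 / 6 * Real.log (1 / 8) + 20 / 3 * Real.log (1 - 1 / 8) +
      9 / 2 * (1 / 8) + 9 / 2 * (1 / 8) ^ 2) = 5 / 6 * (Real.log (4 / 3) + Real.log 2) +
      20 / 3 * (Real.log (64 / 63) - Real.log (4 / 3)) + 175 / 128 := by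
    rw [← e1, ← e2]
    ring
  rw [e]
  norm_num at *
  linarith

end Pool.Agent.Lib.H59C
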