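import Pool.Agent.Lib.H59C.CTI
import Pool.Agent.Lib.H59C.CTN
import Pool.Agent.Lib.H59C.CP2

/-!
# CTO: the switching constant
-/

open Finset MeasureTheory

namespace Pool.Agent.Lib.H59C

/-- The function of the outer sum. -/
noncomputable def ctoF (x : ℝ) : ℝ := Real.log (max 1 (2 - 3 * x)) / (1 - x)

theorem cto_anti (b : ℝ) (hb : b ≤ 1 / 2) : AntitoneOn ctoF (Set.Icc (1 / 8) b) := by
  intro x hx y hy hxy
  rw [Set.mem_Icc] at hx hy
  unfold ctoF
  have hx1 : 0 < 1 - x := by linarith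
  have hy1 : 0 < 1 - y := by linarith
  rcases le_or_gt (2 - 3 * y) 1 with h | h
  · rw [max_eq_left h, Real.log_one, zero_div]
    apply div_nonneg _ hx1.le
    exact Real.log_nonneg (le_max_left _ _)
  · rw [max_eq_right h.le, max_eq_right (by linarith : 1 ≤ 2 - 3 * x)]
    rw [div_le_div_iff₀ hy1 hx1]
    obtain ⟨u, hu⟩ : ∃ u : ℝ, u = 2 - 3 * x := ⟨_, rfl⟩
    obtain ⟨v, hv⟩ : ∃ v : ℝ, v = 2 - 3 * y := ⟨_, rfl⟩
    have e1 : 1 - x = (1 + u) / 3 := by rw [hu]; ring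
    have e2 : 1 - y = (1 + v) / 3 := by rw [hv]; ring
    rw [← hu, ← hv, e1, e2]
    have hv1 : 1 < v := by rw [hv]; exact h
    have hvu : v ≤ u := by rw [hu, hv]; linarith
    have hu1 : u ≤ 13 / 8 := by rw [hu]; linarith
    have hv0 : 0 < v := by linarith
    have hu0 : 0 < u := by linarith
    have h1 : (u - v) / u ≤ Real.log u - Real.log v := by
      rw [← Real.log_div hu0.ne' hv0.ne']
      have h2 := Real.one_sub_inv_le_log_of_pos (div_pos hu0 hv0)
      have h3 : 1 - (u / v)⁻¹ = (u - v) / u := by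
        field_simp
      linarith
    have h2 : Real.log v ≤ v - 1 := Real.log_le_sub_one_of_pos hv0
    have h3 : (u - v) * Real.log v ≤ (1 + v) * ((u - v) / u) := by
      have h4 : (1 + v) * ((u - v) / u) = (u - v) * ((1 + v) / u) := by ring
      rw [h4]
      apply mul_le_mul_of_nonneg_left _ (by linarith)
      have h5 : 1 ≤ (1 + v) / u := by
        rw [le_div_iff₀ hu0]
        linarith
      linarith
    have h4 : (1 + v) * ((u - v) / u) ≤ (1 + v) * (Real.log u - Real.log v) :=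
      mul_le_mul_of_nonneg_left h1 (by linarith)
    nlinarith

theorem cto_bound (b x : ℝ) (hb : b ≤ 1 / 3 + 1 / 100) (hx : x ∈ Set.Icc (1 / 8) b) :
    |ctoF x| ≤ 1 := by
  rw [Set.mem_Icc] at hx
  unfold ctoF
  have hx1 : 0 < 1 - x := by linarith
  have h0 : (0 : ℝ) < max 1 (2 - 3 * x) := lt_of_lt_of_le one_pos (le_max_left _ _)
  rw [abs_of_nonneg (div_nonneg (Real.log_nonneg (le_max_left _ _)) hx1.le),
    div_le_one hx1]
  have h1 := Real.log_le_sub_one_of_pos h0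
  have h2 : max 1 (2 - 3 * x) ≤ 13 / 8 := by
    apply max_le
    · norm_num
    · linarith
  linarith

theorem cto_cont (a b : ℝ) (ha : 1 / 8 ≤ a) (hb : b ≤ 1 / 2) :
    ContinuousOn (fun x : ℝ => ctoF x / x) (Set.Icc a b) := by
  unfold ctoF
  apply ContinuousOn.div
  · apply ContinuousOn.div
    · apply ContinuousOn.log
      · fun_prop
      · intro x _
        have : (0 : ℝ) < max 1 (2 - 3 * x) := lt_of_lt_of_le one_pos (le_max_left _ _)
        exact this.ne'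
    · fun_prop
    · intro x hx
      rw [Set.mem_Icc] at hx
      have : 0 < 1 - x := by linarith
      exact this.ne'
  · fun_prop
  · intro x hx
    rw [Set.mem_Icc] at hx
    have : 0 < x := by linarith
    exact this.ne'

theorem cto_int (b : ℝ) (hb : 1 / 3 ≤ b) (hb2 : b ≤ 1 / 2) :
    ∫ x in (1 / 8 : ℝ)..b, ctoF x / x ≤ 372 / 1000 := by
  have i1 : IntervalIntegrable (fun x : ℝ => ctoF x / x) volume (1 / 8) (1 / 3) := by
    apply ContinuousOn.intervalIntegrable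
    rw [Set.uIcc_of_le (by norm_num)]
    exact cto_cont _ _ le_rfl (by norm_num)
  have i2 : IntervalIntegrable (fun x : ℝ => ctoF x / x) volume (1 / 3) b := by
    apply ContinuousOn.intervalIntegrable
    rw [Set.uIcc_of_le hb]
    exact cto_cont _ _ (by norm_num) hb2
  rw [← intervalIntegral.integral_add_adjacent_intervals i1 i2]
  have e2 : ∫ x in (1 / 3 : ℝ)..b, ctoF x / x = 0 := by
    have : ∫ x in (1 / 3 : ℝ)..b, ctoF x / x = ∫ x in (1 / 3 : ℝ)..b, (0 : ℝ) := by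
      apply intervalIntegral.integral_congr
      intro x hx
      rw [Set.uIcc_of_le hb, Set.mem_Icc] at hx
      show ctoF x / x = 0
      unfold ctoF
      rw [max_eq_left (by linarith), Real.log_one, zero_div, zero_div]
    rw [this]
    simp
  have e1 : ∫ x in (1 / 8 : ℝ)..(1 / 3), ctoF x / x =
      ∫ x in (1 / 8 : ℝ)..(1 / 3), Real.log (2 - 3 * x) / (x * (1 - x)) := by
    apply intervalIntegral.integral_congr
    intro x hx
    rw [Set.uIcc_of_le (by norm_num), Set.mem_Icc] at hx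
    show ctoF x / x = Real.log (2 - 3 * x) / (x * (1 - x))
    unfold ctoF
    rw [max_eq_right (by linarith), div_div, mul_comm (1 - x) x]
  rw [e1, e2, add_zero]
  exact switch_int

/-- The switching constant.

Proof. By `inner_sum` the left side is `≤ ∑_{q1 ∈ PR (zz n) (yy n)} (φ(x1) + ε)/q1` with
`φ(x) = log (max 1 (2 - 3x))/(1 - x)`, decreasing on `[1/8, 1/2]` (derivative `(log (2-3x) - 3 (1-x)/(2-3x))/(1-x)²`, and
`log (2 - 3x) ≤ 1 - 3x < 1`, `3 (1-x)/(2-3x) ≥ 3/2`; constant `0` for `x ≥ 1/3`), bounded by `1`. `prime_int` (from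
`n^(1/8)` to `n^b = (2n)^(1/3)`) and `φ = 0` beyond `1/3`: the sum tends to at most
`∫_{1/8}^{1/3} log (2 - 3x)/(x (1 - x)) dx ≤ 372/1000` (`switch_int`); `∑ 1/q1 ≤ 2`. -/
theorem triple_sum : ∃ n0 : ℕ, ∀ n : ℕ, n0 ≤ n →
    Real.log n * ∑ q1 ∈ PR (zz n) (yy n),
      ∑ q2 ∈ (PR (yy n) n).filter (fun q2 => q1 * q2 ^ 2 ≤ 3 * n),
        1 / ((q1 : ℝ) * q2 * Real.log (n / (20 * q1 * q2))) ≤ 373 / 1000 := by
  obtain ⟨C, hC, hpi⟩ := prime_int
  obtain ⟨n1, hn1⟩ := inner_sum (1 / 4000) (by norm_num)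
  obtain ⟨n2, hn2⟩ := prime_S2 1 (by norm_num) 0 1 le_rfl
  obtain ⟨n3, hn3⟩ := cdl_log (max 100 (16000 * C))
  obtain ⟨n4, hn4⟩ := cdl_zz 2
  refine ⟨n1 + n2 + n3 + n4 + 3, fun n hn => ?_⟩
  have hN : (3 : ℝ) ≤ n := by exact_mod_cast (by omega : 3 ≤ n)
  have hL : 0 < Real.log n := Real.log_pos (by linarith)
  obtain ⟨L, hLdef⟩ : ∃ L : ℝ, L = Real.log n := ⟨_, rfl⟩
  have hLn := hn3 n (by omega)
  have hz2 := hn4 n (by omega)
  have hin := hn1 n (by omega)
  obtain ⟨-, hs2⟩ := hn2 n (by omega)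
  rw [← hLdef] at hL hLn hin ⊢
  have hL1 : 100 ≤ L := le_trans (le_max_left _ _) hLn
  have hL2 : 16000 * C ≤ L := le_trans (le_max_right _ _) hLn
  have hzpos : 0 < zz n := by linarith
  obtain ⟨b, hb⟩ : ∃ b : ℝ, b = 1 / 3 + 1 / 100 := ⟨_, rfl⟩
  have hlog2 : Real.log 2 ≤ 1 := by
    have := Real.log_two_lt_d9
    linarith
  have hyypos : 0 < yy n := by unfold yy; positivity
  have hyb : yy n ≤ (n : ℝ) ^ b := by
    rw [← Real.log_le_log_iff hyypos (by positivity), Real.log_rpow (by linarith),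
      ← hLdef, hb]
    unfold yy
    rw [Real.log_rpow (by linarith), Real.log_mul (by norm_num) (by linarith), ← hLdef]
    linarith
  have hsub : PR (zz n) (yy n) ⊆ PR ((n : ℝ) ^ (1 / 8 : ℝ)) ((n : ℝ) ^ b) := by
    intro q hq
    rw [mem_PR] at hq ⊢
    exact ⟨hq.1, hq.2.1, lt_of_lt_of_le hq.2.2 hyb⟩
  have hpi1 := hpi n (1 / 8) b 1 ctoF (by omega) (by norm_num) (by rw [hb]; norm_num)
    (by rw [hb]; norm_num) hz2 (Or.inr (cto_anti b (by rw [hb]; norm_num)))
    (fun x hx => cto_bound b x (by rw [hb]) hx)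
  rw [← hLdef, abs_le] at hpi1
  have hint := cto_int b (by rw [hb]; norm_num) (by rw [hb]; norm_num)
  have hqf : ∀ q ∈ PR ((n : ℝ) ^ (1 / 8 : ℝ)) ((n : ℝ) ^ b), (0 : ℝ) < q ∧
      Real.log q / L ∈ Set.Icc (1 / 8 : ℝ) b := by
    intro q hq
    obtain ⟨hqp, hq1, hq2⟩ := mem_PR.mp hq
    have hq1' : zz n ≤ q := hq1
    have hq0 : (0 : ℝ) < q := by linarith
    refine ⟨hq0, ?_, ?_⟩
    · rw [le_div_iff₀ hL]
      have := Real.log_le_log (by positivity) hq1
      rw [Real.log_rpow (by linarith), ← hLdef] at this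
      exact this
    · rw [div_le_iff₀ hL]
      have := Real.log_le_log hq0 hq2.le
      rw [Real.log_rpow (by linarith), ← hLdef] at this
      exact this
  have hF0 : ∀ x ∈ Set.Icc (1 / 8 : ℝ) b, 0 ≤ ctoF x := by
    intro x hx
    rw [Set.mem_Icc] at hx
    unfold ctoF
    apply div_nonneg (Real.log_nonneg (le_max_left _ _))
    rw [hb] at hx
    linarith
  have hone : ∀ q1 ∈ PR (zz n) (yy n), L * ∑ q2 ∈ (PR (yy n) n).filter
      (fun q2 => q1 * q2 ^ 2 ≤ 3 * n), 1 / ((q1 : ℝ) * q2 * Real.log (n / (20 * q1 * q2))) ≤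
      ctoF (Real.log q1 / L) / q1 + 1 / 4000 * gq q1 := by
    intro q1 hq1
    obtain ⟨hq0, hx⟩ := hqf q1 (hsub hq1)
    obtain ⟨hqp, hqa, hqb⟩ := mem_PR.mp hq1
    have h1 := hin q1 hqp hqa hqb
    have h2 : L * ∑ q2 ∈ (PR (yy n) n).filter (fun q2 => q1 * q2 ^ 2 ≤ 3 * n),
        1 / ((q1 : ℝ) * q2 * Real.log (n / (20 * q1 * q2))) =
        1 / (q1 : ℝ) * ∑ q2 ∈ (PR (yy n) n).filter (fun q2 => q1 * q2 ^ 2 ≤ 3 * n),
          L / ((q2 : ℝ) * Real.log (n / (20 * q1 * q2))) := by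
      rw [mul_sum, mul_sum]
      apply sum_congr rfl
      intro q2 _
      rw [mul_one_div, div_mul_div_comm, one_mul, mul_assoc]
    rw [h2]
    have h3 : 1 / (q1 : ℝ) ≤ gq q1 := by
      unfold gq
      apply div_le_div_of_nonneg_left zero_le_one
      · linarith
      · linarith
    calc 1 / (q1 : ℝ) * ∑ q2 ∈ (PR (yy n) n).filter (fun q2 => q1 * q2 ^ 2 ≤ 3 * n),
          L / ((q2 : ℝ) * Real.log (n / (20 * q1 * q2)))
        ≤ 1 / (q1 : ℝ) * (ctoF (Real.log q1 / L) + 1 / 4000) :=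
          mul_le_mul_of_nonneg_left h1 (by positivity)
      _ = ctoF (Real.log q1 / L) / q1 + 1 / 4000 * (1 / (q1 : ℝ)) := by ring
      _ ≤ ctoF (Real.log q1 / L) / q1 + 1 / 4000 * gq q1 := by
          apply add_le_add le_rfl
          exact mul_le_mul_of_nonneg_left h3 (by norm_num)
  calc L * ∑ q1 ∈ PR (zz n) (yy n), ∑ q2 ∈ (PR (yy n) n).filter
        (fun q2 => q1 * q2 ^ 2 ≤ 3 * n), 1 / ((q1 : ℝ) * q2 * Real.log (n / (20 * q1 * q2)))
      = ∑ q1 ∈ PR (zz n) (yy n), L * ∑ q2 ∈ (PR (yy n) n).filter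
        (fun q2 => q1 * q2 ^ 2 ≤ 3 * n), 1 / ((q1 : ℝ) * q2 * Real.log (n / (20 * q1 * q2))) := by
        rw [mul_sum]
    _ ≤ ∑ q1 ∈ PR (zz n) (yy n), (ctoF (Real.log q1 / L) / q1 + 1 / 4000 * gq q1) :=
        sum_le_sum hone
    _ = ∑ q1 ∈ PR (zz n) (yy n), ctoF (Real.log q1 / L) / q1 +
        1 / 4000 * ∑ q1 ∈ PR (zz n) (yy n), gq q1 := by
        rw [sum_add_distrib, ← mul_sum]
    _ ≤ ∑ q1 ∈ PR ((n : ℝ) ^ (1 / 8 : ℝ)) ((n : ℝ) ^ b), ctoF (Real.log q1 / L) / q1 +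
        1 / 4000 * 2 := by
        apply add_le_add
        · apply sum_le_sum_of_subset_of_nonneg hsub
          intro q hq _
          obtain ⟨hq0, hx⟩ := hqf q hq
          exact div_nonneg (hF0 _ hx) hq0.le
        · exact mul_le_mul_of_nonneg_left hs2 (by norm_num)
    _ ≤ (372 / 1000 + C * 1 / (1 / 8 * L)) + 1 / 4000 * 2 := by
        linarith [hpi1.2]
    _ ≤ 373 / 1000 := by
        have h2 : C * 1 / (1 / 8 * L) = 8 * C / L := by
          field_simp
        have h3 : 8 * C / L ≤ 1 / 2000 := by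
          rw [div_le_iff₀ hL]
          linarith
        rw [h2]
        linarith

end Pool.Agent.Lib.H59C
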