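import Pool.Agent.Lib.H59C.CVX
import Pool.Agent.Lib.H59C.CBS
import Pool.Agent.Lib.H59C.CCV
import Pool.Agent.Lib.H59C.CRP
import Pool.Agent.Lib.H59C.CCN
import Pool.Agent.Lib.H59C.CTO

/-!
# CS3: the third term of the weighted sieve (Chen's switching)
-/

open Finset

namespace Pool.Agent.Lib.H59C

open Classical in
/-- Proof. `log p ≤ log n`, so the sum is at most `log n` times the left side of `cover δ`; `box_sieve` for every relevant box
(`rel_par`), `1/log (lv j) ≤ 4/log n`; `count_boxes` and `triple_sum`: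
`≤ VV (AA/4 + ε') (1 + ε') (y2 - y1) (373/1000) + 4 (number of boxes) n/(log n)^6`. Here
`(1 + ε') (y2 - y1) (373/1000) ≤ (3/8) XX` (`XX_bounds`) for a small numerical `ε'` (and `ε' (3/8) ≤ ε/2`), and the last term is
`≤ 100 n/(δ² (log n)^4) ≤ (ε/2) XX VV` by `main_lower`. -/
theorem S3_upper (ε : ℝ) (hε : 0 < ε) : ∃ A' n0 : ℕ, ∀ n : ℕ, n0 ≤ n → ∀ p1 : ℕ, p1.Prime →
    p1 ^ 100 ≤ n → SWp A' n p1 → ∀ N y1 y2 : ℕ, Win n N y1 y2 →
    ∑ p ∈ (Sq y1 y2).filter (fun p => Tri n (Nat.dist N p)), lg p ≤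
      XX y1 y2 * VV (PP n N p1) (zz n) * (AA / 4 * (3 / 8) + ε) := by
  have hAA := AA_pos
  obtain ⟨A', n1, hbox⟩ := box_sieve ε hε
  obtain ⟨δ, hδ, hδ1, n2, hcount⟩ := count_boxes (1 / 1000) (by norm_num)
  obtain ⟨n3, hcov⟩ := cover δ hδ hδ1
  obtain ⟨n4, hpar⟩ := rel_par δ hδ hδ1
  obtain ⟨n5, htri⟩ := triple_sum
  obtain ⟨n6, hXXb⟩ := XX_bounds (1 / 1000) (by norm_num)
  obtain ⟨n7, hsmall⟩ := cs_rem (2 * (ε / 2) / (100 / δ ^ 2)) (by positivity)
  refine ⟨A', n1 + n2 + n3 + n4 + n5 + n6 + n7 + 3, fun n hn p1 hp1 hp100 hSW N y1 y2 hW => ?_⟩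
  have hN : (3 : ℝ) ≤ n := by exact_mod_cast (by omega : 3 ≤ n)
  have hL1 : 1 ≤ Real.log n := by
    rw [Real.le_log_iff_exp_le (by linarith)]
    have := Real.exp_one_lt_d9
    linarith
  have hL : 0 < Real.log n := by linarith
  have hcount := hcount n (by omega) N y1 y2 hW
  have hcov := hcov n (by omega) N y1 y2 hW
  obtain ⟨hp1', hp2, hp3⟩ := hpar n (by omega) N y1 y2 hW
  have htri := htri n (by omega)
  obtain ⟨hX1, hX2⟩ := hXXb n (by omega) N y1 y2 hW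
  have hsm := hsmall n (by omega) p1 N y1 y2 hW
  obtain ⟨V, hV⟩ : ∃ V : ℝ, V = VV (PP n N p1) (zz n) := ⟨_, rfl⟩
  rw [← hV] at hsm ⊢
  have hV0 : 0 ≤ V := by
    rw [hV]
    unfold VV VP
    apply prod_nonneg
    intro q hq
    have h3 := (PP_prime (mem_filter.mp hq).1).2
    have h3' : (3 : ℝ) ≤ q := by exact_mod_cast h3
    unfold gq
    rw [sub_nonneg, div_le_one (by linarith)]
    linarith
  have hX0 := XX_nonneg y1 y2
  have hyy : (0 : ℝ) ≤ (y2 : ℝ) - y1 := by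
    have : (y1 : ℝ) ≤ y2 := by exact_mod_cast hW.lt.le
    linarith
  -- weights
  have hstep1 : ∑ p ∈ (Sq y1 y2).filter (fun p => Tri n (Nat.dist N p)), lg p ≤
      Real.log n * (((Sq y1 y2).filter (fun p => Tri n (Nat.dist N p))).card : ℝ) := by
    rw [mul_comm, ← nsmul_eq_mul]
    apply sum_le_card_nsmul
    intro p hp
    rw [mem_filter, mem_Sq] at hp
    unfold lg
    apply Real.log_le_log
    · exact_mod_cast hp.1.2.pos
    · exact_mod_cast le_trans hp.1.1.2 hW.le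
  -- the logarithms of the box ends
  have hlv : ∀ b ∈ Rel n N y1 y2 δ, 0 ≤ 1 / Real.log (lv δ b.2) ∧
      1 / Real.log (lv δ b.2) ≤ 4 / Real.log n := by
    intro b hb
    have h1 := (hp1' b hb).2.2.1
    have h2 : 1 / 4 * Real.log n ≤ Real.log (lv δ b.2) := by
      have h3 := Real.log_le_log (by positivity) h1
      rwa [Real.log_rpow (by linarith)] at h3
    have h4 : 0 < Real.log (lv δ b.2) := by linarith
    refine ⟨by positivity, ?_⟩
    rw [div_le_div_iff₀ h4 hL]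
    linarith
  -- one box
  have hone : ∀ b ∈ Rel n N y1 y2 δ, 1 / Real.log (lv δ b.2) *
      ∑ x ∈ (BX (lv δ (b.1 + 1)) (lv δ b.2) (lv δ (b.2 + 1))).filter
        (fun x => (bb N y2 x).Prime ∧ (n : ℝ) ^ (1 / 6 : ℝ) ≤ bb N y2 x), wB (al n δ b) x ≤
      V * (AA / 4 + ε) * (1 / Real.log (lv δ b.2) *
        XB (lv δ (b.1 + 1)) (lv δ b.2) (lv δ (b.2 + 1)) (al n δ b)) +
      4 / Real.log n * (n / Real.log n ^ 6) := by
    intro b hb
    obtain ⟨h1, h2, h3, h4, h5⟩ := hp1' b hb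
    have h6 := hbox n (by omega) p1 hp1 hp100 hSW N y2 hW.N0 hW.N2 (lv δ (b.1 + 1)) (lv δ b.2)
      (lv δ (b.2 + 1)) (al n δ b) (fun m => ⟨(hp3 b m).1, (hp3 b m).2.1⟩)
      (fun m => (hp3 b m).2.2) h1 h2 h4 h5
    rw [← hV] at h6
    obtain ⟨h7, h8⟩ := hlv b hb
    have h9 := mul_le_mul_of_nonneg_left h6 h7
    refine h9.trans ?_
    rw [mul_add]
    apply add_le_add
    · apply le_of_eq
      ring
    · exact mul_le_mul_of_nonneg_right h8 (by positivity)
  -- sum over the boxes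
  have hsum : (((Sq y1 y2).filter (fun p => Tri n (Nat.dist N p))).card : ℝ) ≤
      V * (AA / 4 + ε) * (∑ b ∈ Rel n N y1 y2 δ, 1 / Real.log (lv δ b.2) *
        XB (lv δ (b.1 + 1)) (lv δ b.2) (lv δ (b.2 + 1)) (al n δ b)) +
      ((Rel n N y1 y2 δ).card : ℝ) * (4 / Real.log n * (n / Real.log n ^ 6)) := by
    refine hcov.trans ((sum_le_sum hone).trans (le_of_eq ?_))
    rw [sum_add_distrib, ← mul_sum, sum_const, nsmul_eq_mul]
  have hmain : Real.log n * (V * (AA / 4 + ε) * (∑ b ∈ Rel n N y1 y2 δ,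
      1 / Real.log (lv δ b.2) *
        XB (lv δ (b.1 + 1)) (lv δ b.2) (lv δ (b.2 + 1)) (al n δ b))) ≤
      XX y1 y2 * V * (AA / 4 * (3 / 8) + 3 / 8 * ε) := by
    have h1 : Real.log n * (∑ b ∈ Rel n N y1 y2 δ, 1 / Real.log (lv δ b.2) *
        XB (lv δ (b.1 + 1)) (lv δ b.2) (lv δ (b.2 + 1)) (al n δ b)) ≤ 3 / 8 * XX y1 y2 := by
      have h2 := mul_le_mul_of_nonneg_left hcount hL.le
      refine h2.trans ?_
      calc Real.log n * ((1 + 1 / 1000) * ((y2 : ℝ) - y1) * ∑ q1 ∈ PR (zz n) (yy n),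
            ∑ q2 ∈ (PR (yy n) n).filter (fun q2 => q1 * q2 ^ 2 ≤ 3 * n),
              1 / ((q1 : ℝ) * q2 * Real.log (n / (20 * q1 * q2))))
          = (1 + 1 / 1000) * ((y2 : ℝ) - y1) * (Real.log n * ∑ q1 ∈ PR (zz n) (yy n),
            ∑ q2 ∈ (PR (yy n) n).filter (fun q2 => q1 * q2 ^ 2 ≤ 3 * n),
              1 / ((q1 : ℝ) * q2 * Real.log (n / (20 * q1 * q2)))) := by ring
        _ ≤ (1 + 1 / 1000) * ((y2 : ℝ) - y1) * (373 / 1000) := by
            apply mul_le_mul_of_nonneg_left htri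
            positivity
        _ ≤ 3 / 8 * XX y1 y2 := by linarith
    calc Real.log n * (V * (AA / 4 + ε) * (∑ b ∈ Rel n N y1 y2 δ,
          1 / Real.log (lv δ b.2) *
          XB (lv δ (b.1 + 1)) (lv δ b.2) (lv δ (b.2 + 1)) (al n δ b)))
        = V * (AA / 4 + ε) * (Real.log n * (∑ b ∈ Rel n N y1 y2 δ, 1 / Real.log (lv δ b.2) *
          XB (lv δ (b.1 + 1)) (lv δ b.2) (lv δ (b.2 + 1)) (al n δ b))) := by ring
      _ ≤ V * (AA / 4 + ε) * (3 / 8 * XX y1 y2) := by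
          apply mul_le_mul_of_nonneg_left h1
          positivity
      _ = XX y1 y2 * V * (AA / 4 * (3 / 8) + 3 / 8 * ε) := by ring
  have hrest : Real.log n * (((Rel n N y1 y2 δ).card : ℝ) * (4 / Real.log n *
      (n / Real.log n ^ 6))) ≤ ε / 2 * (XX y1 y2 * V) := by
    have h1 : Real.log n * (((Rel n N y1 y2 δ).card : ℝ) * (4 / Real.log n *
        (n / Real.log n ^ 6))) = ((Rel n N y1 y2 δ).card : ℝ) * (4 * (n / Real.log n ^ 6)) := by
      field_simp
    rw [h1]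
    calc ((Rel n N y1 y2 δ).card : ℝ) * (4 * (n / Real.log n ^ 6))
        ≤ (25 * Real.log n ^ 2 / δ ^ 2) * (4 * (n / Real.log n ^ 6)) := by
          apply mul_le_mul_of_nonneg_right hp2
          positivity
      _ = 100 / δ ^ 2 * (n / Real.log n ^ 4) := by
          field_simp
          ring
      _ ≤ 100 / δ ^ 2 * (n / Real.log n ^ 3) := by
          apply mul_le_mul_of_nonneg_left _ (by positivity)
          apply div_le_div_of_nonneg_left (by positivity) (by positivity)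
          exact pow_le_pow_right₀ hL1 (by norm_num)
      _ = 100 / δ ^ 2 / 2 * (2 * n / Real.log n ^ 3) := by
          ring
      _ ≤ 100 / δ ^ 2 / 2 * (2 * (ε / 2) / (100 / δ ^ 2) * (XX y1 y2 * V)) := by
          apply mul_le_mul_of_nonneg_left hsm (by positivity)
      _ = ε / 2 * (XX y1 y2 * V) := by
          field_simp
  calc ∑ p ∈ (Sq y1 y2).filter (fun p => Tri n (Nat.dist N p)), lg p
      ≤ Real.log n * (((Sq y1 y2).filter (fun p => Tri n (Nat.dist N p))).card : ℝ) := hstep1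
    _ ≤ Real.log n * (V * (AA / 4 + ε) * (∑ b ∈ Rel n N y1 y2 δ, 1 / Real.log (lv δ b.2) *
        XB (lv δ (b.1 + 1)) (lv δ b.2) (lv δ (b.2 + 1)) (al n δ b)) +
      ((Rel n N y1 y2 δ).card : ℝ) * (4 / Real.log n * (n / Real.log n ^ 6))) :=
        mul_le_mul_of_nonneg_left hsum hL.le
    _ ≤ XX y1 y2 * V * (AA / 4 * (3 / 8) + 3 / 8 * ε) + ε / 2 * (XX y1 y2 * V) := by
        rw [mul_add]
        exact add_le_add hmain hrest
    _ ≤ XX y1 y2 * V * (AA / 4 * (3 / 8) + ε) := by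
        have : 0 ≤ ε / 8 * (XX y1 y2 * V) := by positivity
        linarith

end Pool.Agent.Lib.H59C
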