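import Pool.Agent.Lib.H59C.CDL

/-!
# CE1: negligible primes
-/

open Finset

namespace Pool.Agent.Lib.H59C

theorem ce1_dvd (N p d : ℕ) : d ∣ Nat.dist N p ↔ p ≡ N [MOD d] := by
  unfold Nat.dist
  rcases le_total p N with h | h
  · rw [Nat.sub_eq_zero_of_le h, add_zero, Nat.modEq_iff_dvd' h]
  · rw [Nat.sub_eq_zero_of_le h, zero_add, ← Nat.modEq_iff_dvd' h]
    exact ⟨fun h => h.symm, fun h => h.symm⟩

theorem ce1_count (N y1 y2 m n : ℕ) (h12 : y1 ≤ y2) (h : y2 ≤ n) (hm : 0 < m) :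
    (((Ioc y1 y2).filter (fun p => m ∣ Nat.dist N p)).card : ℝ) ≤ n / m + 1 := by
  have e1 : (Ioc y1 y2).filter (fun p => m ∣ Nat.dist N p) =
      (Ioc y1 y2).filter (fun p => p ≡ N [MOD m]) := by
    apply filter_congr
    intro p _
    exact ce1_dvd N p m
  rw [e1]
  have h1 := Nat.Ioc_filter_modEq_card y1 y2 hm N
  have hm' : (0 : ℝ) < m := by exact_mod_cast hm
  have h2 : ((((Ioc y1 y2).filter (fun p => p ≡ N [MOD m])).card : ℕ) : ℝ) =
      ((max (⌊((y2 : ℚ) - N) / m⌋ - ⌊((y1 : ℚ) - N) / m⌋) 0 : ℤ) : ℝ) := by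
    exact_mod_cast h1
  rw [h2]
  have h3 : (⌊((y2 : ℚ) - N) / m⌋ : ℝ) ≤ ((y2 : ℝ) - N) / m := by
    have := Int.floor_le (((y2 : ℚ) - N) / m)
    have h4 : (((⌊((y2 : ℚ) - N) / m⌋ : ℤ) : ℚ) : ℝ) ≤ ((((y2 : ℚ) - N) / m : ℚ) : ℝ) := by
      exact_mod_cast this
    push_cast at h4
    exact h4
  have h4 : ((y1 : ℝ) - N) / m - 1 ≤ (⌊((y1 : ℚ) - N) / m⌋ : ℝ) := by
    have := Int.lt_floor_add_one (((y1 : ℚ) - N) / m)
    have h5 : ((((y1 : ℚ) - N) / m : ℚ) : ℝ) < ((((⌊((y1 : ℚ) - N) / m⌋ : ℤ) : ℚ) + 1 : ℚ) : ℝ) := by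
      exact_mod_cast this
    push_cast at h5
    linarith
  have h5 : (0 : ℝ) ≤ n / m + 1 := by positivity
  rw [Int.cast_max]
  apply max_le
  · push_cast
    have h6 : ((y2 : ℝ) - N) / m - ((y1 : ℝ) - N) / m ≤ n / m := by
      rw [← sub_div]
      apply div_le_div_of_nonneg_right _ hm'.le
      have h7 : (y2 : ℝ) ≤ n := by exact_mod_cast h
      have h8 : (0 : ℝ) ≤ y1 := Nat.cast_nonneg _
      linarith
    linarith
  · push_cast
    exact h5

open Classical in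
/-- Proof. `p ∣ N` or `q² ∣ |N - p|` for a prime `q ≥ z = n^(1/8)`. The prime divisors `p > y1 ≥ n/16` of `N ≤ 2 n` are at most
`1` (`n` large; or at most `log N/log 2`). For fixed `q` the number of `p ∈ (y1, y2]` with
`p ≡ N [MOD q²]` is at most `n/q² + 1`, and `0 < |N - p| ≤ 2 n` forces `q² ≤ 2 n`; `∑_{q ≥ z} n/q² ≤ 2 n/z + ...`. So the
sum is at most `log n (3 n^(7/8) + √(2n) + 2 log n) ≤ n^(9/10)`. -/
theorem bad_sq : ∃ n0 : ℕ, ∀ n : ℕ, n0 ≤ n → ∀ N y1 y2 : ℕ, Win n N y1 y2 →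
    ∑ p ∈ (Sq y1 y2).filter (fun p => p ∣ N ∨ ∃ q : ℕ, q.Prime ∧ zz n ≤ q ∧
      q ^ 2 ∣ Nat.dist N p), lg p ≤ (n : ℝ) ^ (9 / 10 : ℝ) := by
  obtain ⟨n1, hn1⟩ := cdl_log_pow 1 6 (1 / 40) (by norm_num) (by norm_num)
  obtain ⟨n2, hn2⟩ := cdl_zz 2
  refine ⟨n1 + n2 + 1000, fun n hn N y1 y2 hW => ?_⟩
  have hN : (1000 : ℝ) ≤ n := by exact_mod_cast (by omega : 1000 ≤ n)
  have hL : 0 < Real.log n := Real.log_pos (by linarith)
  have h6 := hn1 n (by omega)
  rw [pow_one] at h6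
  have hz2 := hn2 n (by omega)
  have hzpos : 0 < zz n := by linarith
  -- the two sets
  obtain ⟨U, hU⟩ : ∃ U : Finset ℕ, U = (Sq y1 y2).filter (fun p => p ∣ N) := ⟨_, rfl⟩
  obtain ⟨W, hWd⟩ : ∃ W : Finset ℕ, W = (Sq y1 y2).filter
    (fun p => ∃ q : ℕ, q.Prime ∧ zz n ≤ q ∧ q ^ 2 ∣ Nat.dist N p) := ⟨_, rfl⟩
  have hUc : U.card ≤ 1 := by
    rw [card_le_one]
    intro a ha b hb
    by_contra hab
    rw [hU, mem_filter, mem_Sq] at ha hb
    have hcop : Nat.Coprime a b := (Nat.coprime_primes ha.1.2 hb.1.2).mpr hab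
    have h1 : a * b ∣ N := Nat.Coprime.mul_dvd_of_dvd_of_dvd hcop ha.2 hb.2
    have h2 : a * b ≤ N := Nat.le_of_dvd hW.N0 h1
    have h3 := hW.N2
    have h4 := hW.lo
    have h5 : y1 * y1 < a * b := Nat.mul_lt_mul_of_lt_of_le ha.1.1.1 hb.1.1.1.le (by omega)
    nlinarith
  obtain ⟨k, hk⟩ : ∃ k : ℕ, k + 1 = ⌈zz n⌉₊ := by
    have : 0 < ⌈zz n⌉₊ := Nat.ceil_pos.mpr hzpos
    exact ⟨⌈zz n⌉₊ - 1, by omega⟩
  have hkz : zz n ≤ (k : ℝ) + 1 := by
    have := Nat.le_ceil (zz n)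
    rw [← hk] at this
    exact_mod_cast this
  obtain ⟨m, hm⟩ : ∃ m : ℕ, m = Nat.sqrt (2 * n) := ⟨_, rfl⟩
  have hWc : (W.card : ℝ) ≤ 2 * (n : ℝ) ^ (7 / 8 : ℝ) + 2 * (n : ℝ) ^ (1 / 2 : ℝ) := by
    have hsub : W ⊆ (Ioo k (m + 1)).biUnion
        (fun q => (Ioc y1 y2).filter (fun p => q ^ 2 ∣ Nat.dist N p)) := by
      intro p hp
      rw [hWd, mem_filter, mem_Sq] at hp
      obtain ⟨⟨⟨hp1, hp2⟩, hpp⟩, q, hq, hqz, hqd⟩ := hp
      rw [mem_biUnion]
      refine ⟨q, ?_, ?_⟩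
      · rw [mem_Ioo]
        constructor
        · have : ⌈zz n⌉₊ ≤ q := Nat.ceil_le.mpr hqz
          omega
        · have h1 : 0 < Nat.dist N p := by
            unfold Nat.dist
            have h2 := hW.side
            have h3 := hW.lt
            omega
          have h2 : q ^ 2 ≤ Nat.dist N p := Nat.le_of_dvd h1 hqd
          have h3 : Nat.dist N p ≤ 2 * n := by
            unfold Nat.dist
            have := hW.N2
            have := hW.le
            omega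
          have h4 : q ≤ m := by
            rw [hm, Nat.le_sqrt']
            omega
          omega
      · rw [mem_filter, mem_Ioc]
        exact ⟨⟨hp1, hp2⟩, hqd⟩
    have h1 : W.card ≤ ∑ q ∈ Ioo k (m + 1),
        ((Ioc y1 y2).filter (fun p => q ^ 2 ∣ Nat.dist N p)).card :=
      (card_le_card hsub).trans card_biUnion_le
    have h2 : (W.card : ℝ) ≤ ∑ q ∈ Ioo k (m + 1),
        (((Ioc y1 y2).filter (fun p => q ^ 2 ∣ Nat.dist N p)).card : ℝ) := by
      exact_mod_cast h1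
    have h3 : ∑ q ∈ Ioo k (m + 1),
        (((Ioc y1 y2).filter (fun p => q ^ 2 ∣ Nat.dist N p)).card : ℝ) ≤
        ∑ q ∈ Ioo k (m + 1), (n * ((q : ℝ) ^ 2)⁻¹ + 1) := by
      apply sum_le_sum
      intro q hq
      rw [mem_Ioo] at hq
      have h4 := ce1_count N y1 y2 (q ^ 2) n hW.lt.le hW.le (by
        have : 0 < q := by omega
        positivity)
      rw [Nat.cast_pow] at h4
      rwa [div_eq_mul_inv] at h4
    have h4 : ∑ q ∈ Ioo k (m + 1), (n * ((q : ℝ) ^ 2)⁻¹ + 1) ≤ n * (2 / ((k : ℝ) + 1)) + m := by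
      rw [sum_add_distrib, ← mul_sum]
      apply add_le_add
      · apply mul_le_mul_of_nonneg_left _ (by linarith)
        exact sum_Ioo_inv_sq_le (α := ℝ) k (m + 1)
      · rw [sum_const, nsmul_eq_mul, mul_one, Nat.card_Ioo]
        have : m + 1 - k - 1 ≤ m := by omega
        exact_mod_cast this
    have h5 : (n : ℝ) * (2 / ((k : ℝ) + 1)) ≤ 2 * (n : ℝ) ^ (7 / 8 : ℝ) := by
      have h6 : (n : ℝ) * (2 / ((k : ℝ) + 1)) ≤ n * (2 / zz n) := by
        apply mul_le_mul_of_nonneg_left _ (by linarith)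
        exact div_le_div_of_nonneg_left (by norm_num) hzpos hkz
      refine h6.trans (le_of_eq ?_)
      have h7 : (n : ℝ) = (n : ℝ) ^ (7 / 8 : ℝ) * zz n := by
        unfold zz
        rw [← Real.rpow_add (by linarith)]
        norm_num
      have h8 : (n : ℝ) * (2 / zz n) = (n : ℝ) ^ (7 / 8 : ℝ) * zz n * (2 / zz n) := by
        rw [← h7]
      rw [h8]
      field_simp
    have h6 : (m : ℝ) ≤ 2 * (n : ℝ) ^ (1 / 2 : ℝ) := by
      have h7 : (m : ℝ) ≤ Real.sqrt (2 * n) := by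
        rw [hm]
        have := Real.nat_sqrt_le_real_sqrt (a := 2 * n)
        push_cast at this
        exact this
      have h8 : Real.sqrt (2 * n) ≤ Real.sqrt (4 * n) := Real.sqrt_le_sqrt (by linarith)
      have h9 : Real.sqrt (4 * n) = 2 * (n : ℝ) ^ (1 / 2 : ℝ) := by
        rw [Real.sqrt_mul (by norm_num), ← Real.sqrt_eq_rpow]
        congr 1
        rw [show (4 : ℝ) = 2 ^ 2 by norm_num, Real.sqrt_sq (by norm_num)]
      linarith
    linarith
  have hlg : ∀ p ∈ Sq y1 y2, lg p ≤ Real.log n := by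
    intro p hp
    rw [mem_Sq] at hp
    unfold lg
    apply Real.log_le_log
    · exact_mod_cast hp.2.pos
    · exact_mod_cast hp.1.2.trans hW.le
  have hlg0 : ∀ p, 0 ≤ lg p := by
    intro p
    unfold lg
    exact Real.log_natCast_nonneg p
  have hpow1 : 1 ≤ (n : ℝ) ^ (7 / 8 : ℝ) := Real.one_le_rpow (by linarith) (by norm_num)
  have hpow2 : (n : ℝ) ^ (1 / 2 : ℝ) ≤ (n : ℝ) ^ (7 / 8 : ℝ) :=
    Real.rpow_le_rpow_of_exponent_le (by linarith) (by norm_num)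
  calc ∑ p ∈ (Sq y1 y2).filter (fun p => p ∣ N ∨ ∃ q : ℕ, q.Prime ∧ zz n ≤ q ∧
      q ^ 2 ∣ Nat.dist N p), lg p ≤ ∑ p ∈ U ∪ W, lg p := by
        apply sum_le_sum_of_subset_of_nonneg
        · intro p hp
          rw [mem_filter] at hp
          rw [mem_union, hU, hWd, mem_filter, mem_filter]
          rcases hp.2 with h | h
          · left; exact ⟨hp.1, h⟩
          · right; exact ⟨hp.1, h⟩
        · intro p _ _
          exact hlg0 p
    _ ≤ ∑ p ∈ U ∪ W, Real.log n := by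
        apply sum_le_sum
        intro p hp
        apply hlg
        rw [mem_union, hU, hWd, mem_filter, mem_filter] at hp
        rcases hp with h | h
        · exact h.1
        · exact h.1
    _ = ((U ∪ W).card : ℝ) * Real.log n := by
        rw [sum_const, nsmul_eq_mul]
    _ ≤ (5 * (n : ℝ) ^ (7 / 8 : ℝ)) * Real.log n := by
        apply mul_le_mul_of_nonneg_right _ hL.le
        have h1 : ((U ∪ W).card : ℝ) ≤ (U.card : ℝ) + W.card := by
          exact_mod_cast card_union_le U W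
        have h2 : (U.card : ℝ) ≤ 1 := by exact_mod_cast hUc
        linarith
    _ ≤ (n : ℝ) ^ (7 / 8 : ℝ) * (n : ℝ) ^ (1 / 40 : ℝ) := by
        have h1 : 5 * Real.log n ≤ (n : ℝ) ^ (1 / 40 : ℝ) := by linarith
        calc 5 * (n : ℝ) ^ (7 / 8 : ℝ) * Real.log n = (n : ℝ) ^ (7 / 8 : ℝ) * (5 * Real.log n) := by
              ring
          _ ≤ _ := mul_le_mul_of_nonneg_left h1 (by positivity)
    _ = (n : ℝ) ^ (9 / 10 : ℝ) := by
        rw [← Real.rpow_add (by linarith)]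
        norm_num

end Pool.Agent.Lib.H59C
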