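import Pool.Agent.Lib.H59C.CE2P
import Pool.Agent.Lib.H59C.CDL
import Pool.Agent.Lib.Sieve.Fundamental
import Pool.Agent.Lib.Sieve.Gap

/-!
# CE2: the primes with `p1 ∣ N - p`
-/

open Finset

namespace Pool.Agent.Lib.H59C

open Pool.Agent.Lib.Sieve (sprimes mem_sprimes dens chi fundamental_sum prod_one_sub_chi)

open Classical in
/-- The removed classes. -/
noncomputable def ce2Om (N p1 : ℕ) (s : ℤ) (q : ℕ) : Finset (ZMod q) :=
  if q = p1 then ∅ else {0, (s : ZMod q) * (N : ZMod q) * (p1 : ZMod q)⁻¹}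

theorem ce2_card_le (N p1 : ℕ) (s : ℤ) (q : ℕ) : (ce2Om N p1 s q).card ≤ 2 := by
  unfold ce2Om
  split_ifs
  · simp
  · exact card_le_two

theorem ce2_card (N p1 : ℕ) (s : ℤ) (hs : s = 1 ∨ s = -1) (q : ℕ) (hq : q.Prime)
    (hp1 : p1.Prime) (hne : q ≠ p1) : (ce2Om N p1 s q).card = if q ∣ N then 1 else 2 := by
  classical
  have : Fact q.Prime := ⟨hq⟩
  unfold ce2Om
  rw [if_neg hne]
  split_ifs with h
  · have h1 : (N : ZMod q) = 0 := (ZMod.natCast_eq_zero_iff N q).mpr h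
    rw [h1, mul_zero, zero_mul]
    simp
  · have h1 : (N : ZMod q) ≠ 0 := fun h2 => h ((ZMod.natCast_eq_zero_iff N q).mp h2)
    have h2 : (p1 : ZMod q) ≠ 0 := by
      intro h3
      have h4 := (ZMod.natCast_eq_zero_iff p1 q).mp h3
      exact hne ((Nat.prime_dvd_prime_iff_eq hq hp1).mp h4)
    have h3 : (s : ZMod q) ≠ 0 := by
      rcases hs with rfl | rfl
      · simp
      · simp
    apply card_pair
    have h4 : (s : ZMod q) * (N : ZMod q) * (p1 : ZMod q)⁻¹ ≠ 0 :=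
      mul_ne_zero (mul_ne_zero h3 h1) (inv_ne_zero h2)
    exact h4.symm

theorem ce2_prod_eq (N p1 w : ℕ) (s : ℤ) (hs : s = 1 ∨ s = -1) (hp1 : p1.Prime) :
    ∏ q ∈ sprimes (2 * 2 + 2) w, (1 - dens (ce2Om N p1 s) q) =
      ∏ q ∈ (Finset.range (w + 1)).filter (fun q => q.Prime ∧ 7 ≤ q ∧ q ≠ p1),
        (1 - (if q ∣ N then 1 else 2 : ℝ) / q) := by
  symm
  have hsub : (Finset.range (w + 1)).filter (fun q => q.Prime ∧ 7 ≤ q ∧ q ≠ p1) ⊆
      sprimes (2 * 2 + 2) w := by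
    intro q hq
    rw [mem_filter, mem_range] at hq
    rw [mem_sprimes]
    exact ⟨hq.2.1, by omega, by omega⟩
  have h1 : ∏ q ∈ (Finset.range (w + 1)).filter (fun q => q.Prime ∧ 7 ≤ q ∧ q ≠ p1),
      (1 - dens (ce2Om N p1 s) q) = ∏ q ∈ sprimes (2 * 2 + 2) w, (1 - dens (ce2Om N p1 s) q) := by
    apply prod_subset hsub
    intro q hq hq'
    rw [mem_sprimes] at hq
    rw [mem_filter, mem_range] at hq'
    have h2 : q = p1 := by
      by_contra h3
      exact hq' ⟨by omega, hq.1, by omega, h3⟩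
    unfold Pool.Agent.Lib.Sieve.dens ce2Om
    rw [if_pos h2]
    simp
  rw [← h1]
  apply prod_congr rfl
  intro q hq
  rw [mem_filter, mem_range] at hq
  unfold Pool.Agent.Lib.Sieve.dens
  rw [ce2_card N p1 s hs q hq.2.1 hp1 hq.2.2.2]
  split_ifs <;> simp

open Classical in
/-- The sieve bound for the number of primes. -/
theorem ce2_sieve : ∃ C : ℝ, 0 < C ∧ ∀ (w N p1 M : ℕ) (a : ℤ) (s : ℤ), 2 ≤ w → 0 < N →
    p1.Prime → (s = 1 ∨ s = -1) → w ^ 422 ≤ M → ∀ K : Finset ℕ,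
    (∀ k ∈ K, (k : ℤ) ∈ Finset.Ico a (a + M) ∧ ∀ q ∈ sprimes (2 * 2 + 2) w,
      (((k : ℤ) : ℤ) : ZMod q) ∉ ce2Om N p1 s q) →
    (K.card : ℝ) ≤ M * (C * hl N / Real.log w ^ 2) := by
  obtain ⟨C, hC, hprod⟩ := ce2_prod
  refine ⟨3 * C, by positivity, fun w N p1 M a s hw hN hp1 hs hM K hK => ?_⟩
  have h1 := (fundamental_sum (k := 2) (Ω := ce2Om N p1 s) hw
    (fun q _ _ _ => ce2_card_le N p1 s q) a M hM).2
  rw [ce2_prod_eq N p1 w s hs hp1] at h1
  have h2 := hprod w N p1 hw hN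
  have h3 : (K.card : ℝ) ≤ ∑ u ∈ Finset.Ico a (a + M),
      ∏ p ∈ sprimes (2 * 2 + 2) w, (1 - chi (ce2Om N p1 s) p u) := by
    have h4 : (K.card : ℝ) = ∑ u ∈ K.image (fun k : ℕ => (k : ℤ)), (1 : ℝ) := by
      rw [sum_const, nsmul_eq_mul, mul_one, card_image_of_injective _ Nat.cast_injective]
    rw [h4]
    calc ∑ u ∈ K.image (fun k : ℕ => (k : ℤ)), (1 : ℝ) ≤
        ∑ u ∈ K.image (fun k : ℕ => (k : ℤ)),
          ∏ p ∈ sprimes (2 * 2 + 2) w, (1 - chi (ce2Om N p1 s) p u) := by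
          apply sum_le_sum
          intro u hu
          rw [mem_image] at hu
          obtain ⟨k, hk, rfl⟩ := hu
          rw [prod_one_sub_chi, if_pos (hK k hk).2]
      _ ≤ _ := by
          apply sum_le_sum_of_subset_of_nonneg
          · intro u hu
            rw [mem_image] at hu
            obtain ⟨k, hk, rfl⟩ := hu
            exact (hK k hk).1
          · intro u _ _
            rw [prod_one_sub_chi]
            split_ifs <;> norm_num
  calc (K.card : ℝ) ≤ 3 * M * ∏ q ∈ (Finset.range (w + 1)).filter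
        (fun q => q.Prime ∧ 7 ≤ q ∧ q ≠ p1), (1 - (if q ∣ N then 1 else 2 : ℝ) / q) := h3.trans h1
    _ ≤ 3 * M * (C * hl N / Real.log w ^ 2) := by
        apply mul_le_mul_of_nonneg_left h2 (by positivity)
    _ = M * (3 * C * hl N / Real.log w ^ 2) := by ring

/-- Parameters. -/
theorem ce2_par : ∃ n0 : ℕ, ∀ n : ℕ, n0 ≤ n → ∃ w : ℕ, 2 ≤ w ∧ (w : ℝ) < zz n ∧ 16 * w < n ∧
    Real.log n / 2000 ≤ Real.log w ∧ ∀ p1 : ℕ, 0 < p1 → p1 ^ 100 ≤ n →
      (w : ℝ) ^ 422 ≤ n / (16 * p1) ∧ (p1 : ℝ) ≤ n ∧ 16 * p1 < n := by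
  have ht : Filter.Tendsto (fun n : ℕ => (n : ℝ) ^ (1 / 1000 : ℝ)) Filter.atTop Filter.atTop :=
    (tendsto_rpow_atTop (by norm_num : (0 : ℝ) < 1 / 1000)).comp tendsto_natCast_atTop_atTop
  obtain ⟨n1, hn1⟩ := Filter.eventually_atTop.mp (ht.eventually_ge_atTop 16)
  refine ⟨n1 + 1, fun n hn => ?_⟩
  have hN : (1 : ℝ) ≤ n := by exact_mod_cast (by omega : 1 ≤ n)
  have h16 : 16 ≤ (n : ℝ) ^ (1 / 1000 : ℝ) := hn1 n (by omega)
  obtain ⟨X, hX⟩ : ∃ X : ℝ, X = (n : ℝ) ^ (1 / 1000 : ℝ) := ⟨_, rfl⟩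
  rw [← hX] at h16
  have hXn : ∀ a : ℕ, X ^ a = (n : ℝ) ^ ((a : ℝ) / 1000) := by
    intro a
    rw [hX, ← Real.rpow_natCast, ← Real.rpow_mul (by linarith)]
    congr 1
    ring
  have hX1000 : X ^ 1000 = n := by
    rw [hXn]
    norm_num
  have hX0 : 0 < X := by linarith
  have hX1 : 1 ≤ X := by linarith
  have hw1 : ((⌊X⌋₊ : ℕ) : ℝ) ≤ X := Nat.floor_le hX0.le
  have hw2 : X < (⌊X⌋₊ : ℕ) + 1 := Nat.lt_floor_add_one X
  refine ⟨⌊X⌋₊, ?_, ?_, ?_, ?_, ?_⟩
  · apply Nat.le_floor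
    push_cast
    linarith
  · have h1 : zz n = X ^ 125 := by
      rw [hXn]
      unfold zz
      norm_num
    rw [h1]
    calc ((⌊X⌋₊ : ℕ) : ℝ) ≤ X := hw1
      _ < X * X := by nlinarith
      _ = X ^ 2 := by ring
      _ ≤ X ^ 125 := pow_le_pow_right₀ hX1 (by norm_num)
  · have h1 : (16 : ℝ) * (⌊X⌋₊ : ℕ) < n := by
      calc (16 : ℝ) * (⌊X⌋₊ : ℕ) ≤ X * X := mul_le_mul h16 hw1 (Nat.cast_nonneg _) hX0.le
        _ < X ^ 3 := by nlinarith [mul_pos hX0 hX0]
        _ ≤ X ^ 1000 := pow_le_pow_right₀ hX1 (by norm_num)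
        _ = n := hX1000
    exact_mod_cast h1
  · have h1 : X / 2 ≤ (⌊X⌋₊ : ℕ) := by linarith
    have h2 : Real.log (X / 2) ≤ Real.log (⌊X⌋₊ : ℕ) := Real.log_le_log (by linarith) h1
    have h3 : Real.log X = 1 / 1000 * Real.log n := by
      rw [hX, Real.log_rpow (by linarith)]
    have h4 : Real.log (X / 2) = Real.log X - Real.log 2 :=
      Real.log_div hX0.ne' (by norm_num)
    have h5 : 2 * Real.log 2 ≤ Real.log X := by
      have h6 : 2 * Real.log 2 = Real.log 4 := by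
        rw [show (4 : ℝ) = 2 ^ 2 by norm_num, Real.log_pow]
        norm_num
      rw [h6]
      exact Real.log_le_log (by norm_num) (by linarith)
    linarith
  · intro p1 hp0 hp
    have hp' : (p1 : ℝ) ^ 100 ≤ n := by exact_mod_cast hp
    have hpX : (p1 : ℝ) ≤ X ^ 10 := by
      apply le_of_pow_le_pow_left₀ (n := 100) (by norm_num) (by positivity)
      calc (p1 : ℝ) ^ 100 ≤ n := hp'
        _ = (X ^ 10) ^ 100 := by rw [← hX1000]; ring
    have hp0' : (0 : ℝ) < p1 := by exact_mod_cast hp0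
    refine ⟨?_, ?_, ?_⟩
    · rw [le_div_iff₀ (by positivity)]
      calc ((⌊X⌋₊ : ℕ) : ℝ) ^ 422 * (16 * p1) ≤ X ^ 422 * (X * X ^ 10) := by
            apply mul_le_mul
            · exact pow_le_pow_left₀ (Nat.cast_nonneg _) hw1 422
            · exact mul_le_mul h16 hpX hp0'.le hX0.le
            · positivity
            · positivity
        _ = X ^ 433 := by ring
        _ ≤ X ^ 1000 := pow_le_pow_right₀ hX1 (by norm_num)
        _ = n := hX1000
    · calc (p1 : ℝ) ≤ X ^ 10 := hpX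
        _ ≤ X ^ 1000 := pow_le_pow_right₀ hX1 (by norm_num)
        _ = n := hX1000
    · have h1 : (16 : ℝ) * p1 < n := by
        calc (16 : ℝ) * p1 ≤ X * X ^ 10 := mul_le_mul h16 hpX hp0'.le hX0.le
          _ = X ^ 11 := by ring
          _ < X ^ 12 := by
              have : 0 < X ^ 11 := by positivity
              nlinarith [pow_succ X 11]
          _ ≤ X ^ 1000 := pow_le_pow_right₀ hX1 (by norm_num)
          _ = n := hX1000
      exact_mod_cast h1

open Classical in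
/-- The primes `p` in the window with `p1 ∣ N - p`: Brun's sieve.

Proof. If `p1 ∣ N` there is no such `p` (`p1 ∣ p`, `p > n/16 > p1`). Otherwise write `N - p = p1 k` (`y2 < N`) or
`p - N = p1 k`: `k` runs over an interval of `M ≤ (y2 - y1)/p1 + 1` consecutive integers. Sieve with the primes `7 ≤ q ≤ w`,
`w = ⌊n^(1/1000)⌋`, `q ≠ p1`: `N ∓ p1 k = p ≢ 0`, and `k ≢ 0 (mod q)` if `q ∤ N` (then `q ∈ PP` and `q < z`). The set of
removed classes `Ω q` has `2` elements if `q ∤ N` and one (`0`, where `p ≡ 0`) if `q ∣ N`, none for `q = p1`.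
`Sieve.fundamental_sum` with `k = 2` (`2 * 2 + 2 = 6`, `198 * 2 + 26 = 422`; `w^422 ≤ M`), `Sieve.prod_one_sub_chi`,
and `ce2_prod`: at most `3 M C hl N/(log w)² ≤ (C'/p1) hl N n/(log n)²`. Weights `log p ≤ log n`. -/
theorem bad_p1 : ∃ C : ℝ, 0 < C ∧ ∃ n0 : ℕ, ∀ n : ℕ, n0 ≤ n → ∀ p1 : ℕ, p1.Prime →
    p1 ^ 100 ≤ n → ∀ N y1 y2 : ℕ, Win n N y1 y2 →
    ∑ p ∈ (Sq y1 y2).filter (fun p => p1 ∣ Nat.dist N p ∧
      ∀ q ∈ PP n N p1, (q : ℝ) < zz n → ¬ q ∣ Nat.dist N p), lg p ≤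
      C / p1 * (hl N * n / Real.log n) := by
  obtain ⟨C, hC, hsv⟩ := ce2_sieve
  obtain ⟨n1, hpar⟩ := ce2_par
  refine ⟨C * (3 * 2000 ^ 2), by positivity, n1 + 3, fun n hn p1 hp1 hp100 N y1 y2 hW => ?_⟩
  have hN : (3 : ℝ) ≤ n := by exact_mod_cast (by omega : 3 ≤ n)
  have hL : 0 < Real.log n := Real.log_pos (by linarith)
  obtain ⟨w, hw2, hwz, hwn, hlw, hp⟩ := hpar n (by omega)
  obtain ⟨hw422, hp1n, hp116⟩ := hp p1 hp1.pos hp100
  have hp0 : (0 : ℝ) < p1 := by exact_mod_cast hp1.pos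
  obtain ⟨S0, hS0⟩ : ∃ S0 : Finset ℕ, S0 = (Sq y1 y2).filter (fun p => p1 ∣ Nat.dist N p ∧
      ∀ q ∈ PP n N p1, (q : ℝ) < zz n → ¬ q ∣ Nat.dist N p) := ⟨_, rfl⟩
  rw [← hS0]
  obtain ⟨s, hs⟩ : ∃ s : ℤ, s = if y2 < N then 1 else -1 := ⟨_, rfl⟩
  have hs1 : s = 1 ∨ s = -1 := by
    rw [hs]
    split_ifs
    · left; rfl
    · right; rfl
  have hside := hW.side
  have hlt := hW.lt
  have hle := hW.le
  have hlo := hW.lo
  -- facts about the elements
  have hfact : ∀ p ∈ S0, y1 < p ∧ p ≤ y2 ∧ p.Prime ∧ p1 * (Nat.dist N p / p1) = Nat.dist N p ∧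
      (p : ℤ) = N - s * (p1 * ((Nat.dist N p / p1 : ℕ) : ℤ)) ∧
      (∀ q ∈ PP n N p1, (q : ℝ) < zz n → ¬ q ∣ Nat.dist N p) := by
    intro p hp
    rw [hS0, mem_filter, mem_Sq] at hp
    obtain ⟨⟨⟨h1, h2⟩, h3⟩, h4, h5⟩ := hp
    have h6 : p1 * (Nat.dist N p / p1) = Nat.dist N p := Nat.mul_div_cancel' h4
    refine ⟨h1, h2, h3, h6, ?_, h5⟩
    have h7 : ((p1 : ℤ) * ((Nat.dist N p / p1 : ℕ) : ℤ)) = (Nat.dist N p : ℤ) := by
      exact_mod_cast h6
    rw [h7, hs]
    unfold Nat.dist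
    split_ifs with h8
    · have h9 : p ≤ N := by omega
      have h10 : p - N = 0 := by omega
      rw [h10, add_zero, Nat.cast_sub h9]
      ring
    · have h9 : N ≤ p := by omega
      have h10 : N - p = 0 := by omega
      rw [h10, zero_add, Nat.cast_sub h9]
      ring
  -- the set of the `k`
  obtain ⟨K, hK⟩ : ∃ K : Finset ℕ, K = S0.image (fun p => Nat.dist N p / p1) := ⟨_, rfl⟩
  have hcard : K.card = S0.card := by
    rw [hK]
    apply card_image_of_injOn
    intro p hp p' hp' heq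
    have h1 := (hfact p hp).2.2.2.2.1
    have h2 := (hfact p' hp').2.2.2.2.1
    have heq' : Nat.dist N p / p1 = Nat.dist N p' / p1 := heq
    rw [heq'] at h1
    have h3 : (p : ℤ) = p' := h1.trans h2.symm
    exact_mod_cast h3
  -- the interval
  obtain ⟨d0, hd0⟩ : ∃ d0 : ℕ, d0 = if y2 < N then N - y2 else y1 - N := ⟨_, rfl⟩
  obtain ⟨M, hM⟩ : ∃ M : ℕ, M = (y2 - y1) / p1 + 2 := ⟨_, rfl⟩
  have hMw : w ^ 422 ≤ M := by
    have h1 : (w : ℝ) ^ 422 ≤ M := by
      refine hw422.trans ?_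
      have h2 : (n : ℝ) / (16 * p1) ≤ ((y2 - y1 : ℕ) : ℝ) / p1 := by
        rw [div_le_div_iff₀ (by positivity) hp0]
        have h3 : (n : ℝ) ≤ ((16 * (y2 - y1) : ℕ) : ℝ) := by exact_mod_cast hW.len
        push_cast at h3
        nlinarith
      have h3 : ((y2 - y1 : ℕ) : ℝ) / p1 ≤ (((y2 - y1) / p1 : ℕ) : ℝ) + 1 := by
        rw [div_le_iff₀ hp0]
        have h4 : y2 - y1 < p1 * ((y2 - y1) / p1 + 1) := Nat.lt_mul_div_succ _ hp1.pos
        have h5 : ((y2 - y1 : ℕ) : ℝ) ≤ ((p1 * ((y2 - y1) / p1 + 1) : ℕ) : ℝ) := by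
          exact_mod_cast h4.le
        push_cast at h5
        push_cast
        linarith
      have h4 : (M : ℝ) = (((y2 - y1) / p1 : ℕ) : ℝ) + 2 := by
        rw [hM]
        push_cast
        ring
      linarith
    exact_mod_cast h1
  have hMn : (M : ℝ) ≤ 3 * (n / p1) := by
    have h1 : (((y2 - y1) / p1 : ℕ) : ℝ) ≤ ((y2 - y1 : ℕ) : ℝ) / p1 := Nat.cast_div_le
    have h2 : ((y2 - y1 : ℕ) : ℝ) / p1 ≤ n / p1 := by
      apply div_le_div_of_nonneg_right _ hp0.le
      have : y2 - y1 ≤ n := by omega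
      exact_mod_cast this
    have h3 : 1 ≤ (n : ℝ) / p1 := by
      rw [le_div_iff₀ hp0, one_mul]
      exact hp1n
    have h4 : (M : ℝ) = (((y2 - y1) / p1 : ℕ) : ℝ) + 2 := by
      rw [hM]
      push_cast
      ring
    rw [h4]
    linarith
  have hKc : (K.card : ℝ) ≤ M * (C * hl N / Real.log w ^ 2) := by
    apply hsv w N p1 M ((d0 / p1 : ℕ) : ℤ) s hw2 hW.N0 hp1 hs1 hMw K
    intro k hk
    rw [hK, mem_image] at hk
    obtain ⟨p, hp, rfl⟩ := hk
    obtain ⟨h1, h2, h3, h4, h5, h6⟩ := hfact p hp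
    constructor
    · rw [mem_Ico]
      have h7 : d0 ≤ Nat.dist N p ∧ Nat.dist N p ≤ d0 + (y2 - y1) := by
        rw [hd0]
        unfold Nat.dist
        split_ifs <;> omega
      constructor
      · exact_mod_cast Nat.div_le_div_right h7.1
      · have h8 : Nat.dist N p / p1 ≤ (d0 + (y2 - y1)) / p1 := Nat.div_le_div_right h7.2
        have h9 : (d0 + (y2 - y1)) / p1 ≤ d0 / p1 + (y2 - y1) / p1 + 1 := by
          have h10 : d0 < p1 * (d0 / p1 + 1) := Nat.lt_mul_div_succ _ hp1.pos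
          have h11 : y2 - y1 < p1 * ((y2 - y1) / p1 + 1) := Nat.lt_mul_div_succ _ hp1.pos
          have h12 : (d0 + (y2 - y1)) / p1 < d0 / p1 + (y2 - y1) / p1 + 2 := by
            rw [Nat.div_lt_iff_lt_mul hp1.pos]
            nlinarith
          omega
        have h10 : Nat.dist N p / p1 < d0 / p1 + M := by omega
        exact_mod_cast h10
    · intro q hq hmem
      rw [mem_sprimes] at hq
      obtain ⟨hqp, hq6, hqw⟩ := hq
      have : Fact q.Prime := ⟨hqp⟩
      have hqne : q ≠ p := by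
        intro h
        omega
      have hqnp : (p : ZMod q) ≠ 0 := by
        intro h
        have h7 := (ZMod.natCast_eq_zero_iff p q).mp h
        exact hqne ((Nat.prime_dvd_prime_iff_eq hqp h3).mp h7)
      unfold ce2Om at hmem
      split_ifs at hmem with h7
      · simp at hmem
      · have hp1q : (p1 : ZMod q) ≠ 0 := by
          intro h
          have h8 := (ZMod.natCast_eq_zero_iff p1 q).mp h
          exact h7 ((Nat.prime_dvd_prime_iff_eq hqp hp1).mp h8)
        have h5q : (p : ZMod q) = N - s * (p1 * ((Nat.dist N p / p1 : ℕ) : ZMod q)) := by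
          obtain ⟨k, hk⟩ : ∃ k : ℕ, k = Nat.dist N p / p1 := ⟨_, rfl⟩
          rw [← hk] at h5 ⊢
          have h8 : ((p : ℤ) : ZMod q) = ((N - s * (p1 * (k : ℤ)) : ℤ) : ZMod q) := by rw [← h5]
          push_cast at h8
          exact h8
        rw [mem_insert, mem_singleton] at hmem
        rcases hmem with h8 | h8
        · -- `k ≡ 0`
          have h8' : ((Nat.dist N p / p1 : ℕ) : ZMod q) = 0 := by exact_mod_cast h8
          have h9 : q ∣ Nat.dist N p / p1 := (ZMod.natCast_eq_zero_iff _ q).mp h8'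
          have h10 : q ∣ Nat.dist N p := by
            rw [← h4]
            exact dvd_mul_of_dvd_right h9 p1
          by_cases h11 : q ∣ N
          · apply hqnp
            rw [h5q, h8', (ZMod.natCast_eq_zero_iff N q).mpr h11]
            simp
          · have h12 : q ∈ PP n N p1 := by
              rw [mem_PP]
              exact ⟨⟨by omega, by omega⟩, hqp, h11, h7⟩
            have h13 : (q : ℝ) < zz n := by
              have : (q : ℝ) ≤ w := by exact_mod_cast hqw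
              linarith
            exact h6 q h12 h13 h10
        · -- `k ≡ s N / p1`
          have h8' : ((Nat.dist N p / p1 : ℕ) : ZMod q) = s * N * (p1 : ZMod q)⁻¹ := by
            exact_mod_cast h8
          apply hqnp
          rw [h5q, h8']
          have h9 : (s : ZMod q) * s = 1 := by
            rcases hs1 with h | h <;> rw [h] <;> simp
          have h10 : (s : ZMod q) * (p1 * (s * N * (p1 : ZMod q)⁻¹)) = (s * s) * N := by
            field_simp
          rw [h10, h9]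
          ring
  rw [hcard] at hKc
  have hlw0 : 0 < Real.log n / 2000 := by positivity
  have hlw1 : 0 < Real.log w := lt_of_lt_of_le hlw0 hlw
  have hhl := one_le_hl N
  have hb : (C * hl N / Real.log w ^ 2) ≤ C * hl N / (Real.log n / 2000) ^ 2 := by
    apply div_le_div_of_nonneg_left (by positivity) (by positivity)
    exact pow_le_pow_left₀ hlw0.le hlw 2
  calc ∑ p ∈ S0, lg p ≤ ∑ p ∈ S0, Real.log n := by
        apply sum_le_sum
        intro p hp
        obtain ⟨h1, h2, h3, -⟩ := hfact p hp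
        unfold lg
        apply Real.log_le_log
        · exact_mod_cast h3.pos
        · exact_mod_cast h2.trans hle
    _ = (S0.card : ℝ) * Real.log n := by rw [sum_const, nsmul_eq_mul]
    _ ≤ (3 * (n / p1) * (C * hl N / (Real.log n / 2000) ^ 2)) * Real.log n := by
        apply mul_le_mul_of_nonneg_right _ hL.le
        refine hKc.trans ?_
        apply mul_le_mul hMn hb (by positivity) (by positivity)
    _ = C * (3 * 2000 ^ 2) / p1 * (hl N * n / Real.log n) := by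
        field_simp

end Pool.Agent.Lib.H59C
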