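import Pool.Agent.Lib.H59C.CR
import Pool.Agent.Lib.H59C.CVX
import Pool.Agent.Lib.H59C.CP2
import Pool.Agent.Lib.H59C.CS1

/-!
# CS2: the second term of the weighted sieve
-/

open Finset

namespace Pool.Agent.Lib.H59C

open Classical in
/-- Proof. `jr (ε/8)` gives `Q0, z0`; `rem_A 3` gives `A', B, n0`. For every `q ∈ QQ n N p1` apply the upper bound of `jr`
to `S_q = {p ∈ Sq, q ∣ |N - p|}`, `X_q = XX * gq q`, `z = zz n`, `D_q = DD n B/q/Q0` (`D_q * Q0 = DD n B/q`;
`log D_q ≤ (1/2 - 1/8) log n = 3 log z`, and `z ≤ D_q` since `n^(1/2)/(log n)^B/Q0/(2n)^(1/3) ≥ n^(1/8)` for large `n`):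
`sift ≤ X_q VV (AA log z/log D_q + ε/8) + remd`. Sum over `q ∈ QQ ⊆ PR (zz n) (yy n)`: `prime_S2 (ε/(4 AA))`
and `rem_A`; the remainder `2 n/(log n)^3 ≤ (ε/4) XX VV` by `main_lower`. -/
theorem S2_upper (ε : ℝ) (hε : 0 < ε) : ∃ A' n0 : ℕ, ∀ n : ℕ, n0 ≤ n → ∀ p1 : ℕ, p1.Prime →
    SWp A' n p1 → ∀ N y1 y2 : ℕ, Win n N y1 y2 →
    ∑ q ∈ QQ n N p1, sift ((Sq y1 y2).filter (fun p => q ∣ Nat.dist N p)) lg
        (fun p => Nat.dist N p) (PP n N p1) (zz n) ≤
      XX y1 y2 * VV (PP n N p1) (zz n) * (AA / 4 * Real.log 6 + ε) := by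
  have hAA := AA_pos
  obtain ⟨Q0, hQ0, z0, hz0, hjr⟩ := jr (ε / 8) (by linarith)
  obtain ⟨A', B, n1, hrem⟩ := rem_A 3
  obtain ⟨n2, hn2⟩ := cs_rem (ε / 4) (by linarith)
  obtain ⟨n3, hn3⟩ := dd_log B Q0 hQ0 (1 / 100) (by norm_num)
  obtain ⟨n4, hn4⟩ := cdl_zz z0
  obtain ⟨n5, hn5⟩ := prime_S2 (ε / (4 * AA)) (by positivity) B Q0 hQ0
  obtain ⟨n6, hn6⟩ := cdl_log 100
  refine ⟨A', n1 + n2 + n3 + n4 + n5 + n6 + 3, fun n hn p1 hp1 hSW N y1 y2 hW => ?_⟩
  have hN : (3 : ℝ) ≤ n := by exact_mod_cast (by omega : 3 ≤ n)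
  have hL : 0 < Real.log n := Real.log_pos (by linarith)
  have hL100 := hn6 n (by omega)
  obtain ⟨hD1, hDl, hDu, hDp⟩ := hn3 n (by omega)
  have hzn := hn4 n (by omega)
  have hlz := log_zz n (by omega)
  obtain ⟨-, hr⟩ := hrem n (by omega) p1 hp1 hSW N y1 y2 hW
  have hsm := hn2 n (by omega) p1 N y1 y2 hW
  obtain ⟨hps, hps2⟩ := hn5 n (by omega)
  have hzpos : 0 < zz n := by linarith
  have hlz0 : 0 < Real.log (zz n) := by rw [hlz]; linarith
  have hQ0' : (1 : ℝ) ≤ Q0 := by exact_mod_cast hQ0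
  have hX := XX_nonneg y1 y2
  have hV : 0 ≤ VV (PP n N p1) (zz n) := by
    unfold VV VP
    apply prod_nonneg
    intro q hq
    have h3 := (PP_prime (mem_filter.mp hq).1).2
    have h3' : (3 : ℝ) ≤ q := by exact_mod_cast h3
    unfold gq
    rw [sub_nonneg, div_le_one (by linarith)]
    linarith
  have hVX : 0 ≤ XX y1 y2 * VV (PP n N p1) (zz n) := mul_nonneg hX hV
  -- the bound for one `q`
  have hone : ∀ q ∈ QQ n N p1, sift ((Sq y1 y2).filter (fun p => q ∣ Nat.dist N p)) lg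
        (fun p => Nat.dist N p) (PP n N p1) (zz n) ≤
      XX y1 y2 * VV (PP n N p1) (zz n) * (AA * (gq q * (Real.log (zz n) /
        Real.log ((DD n B : ℝ) / q / Q0))) + ε / 8 * gq q) +
      remd ((Sq y1 y2).filter (fun p => q ∣ Nat.dist N p)) lg
        (fun p => Nat.dist N p) (PP n N p1) (zz n) (XX y1 y2 * gq q) ((DD n B : ℝ) / q) := by
    intro q hq
    have hq' : q ∈ PR (zz n) (yy n) ∧ q ∈ PP n N p1 := by
      unfold QQ at hq
      exact mem_filter.mp hq
    obtain ⟨hqp, hq1, hq2⟩ := mem_PR.mp hq'.1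
    have hqpos : (0 : ℝ) < q := by linarith
    have hlq1 : Real.log (zz n) ≤ Real.log q := Real.log_le_log hzpos hq1
    have hyy : Real.log (yy n) = 1 / 3 * (Real.log 2 + Real.log n) := by
      unfold yy
      rw [Real.log_rpow (by linarith), Real.log_mul (by norm_num) (by linarith)]
    have hlq2 : Real.log q ≤ 1 / 3 * (Real.log 2 + Real.log n) := by
      rw [← hyy]
      exact Real.log_le_log hqpos hq2.le
    have hlog2 : Real.log 2 ≤ 1 := by
      have := Real.log_two_lt_d9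
      linarith
    have hDDpos : (0 : ℝ) < DD n B := by
      have : (1 : ℝ) ≤ DD n B := by exact_mod_cast hD1
      linarith
    obtain ⟨Dq, hDq⟩ : ∃ Dq : ℝ, Dq = (DD n B : ℝ) / q / Q0 := ⟨_, rfl⟩
    have hDqpos : 0 < Dq := by rw [hDq]; positivity
    have hDqlog : Real.log Dq = Real.log ((DD n B : ℝ) / Q0) - Real.log q := by
      rw [hDq, show (DD n B : ℝ) / q / Q0 = (DD n B : ℝ) / Q0 / q by ring,
        Real.log_div hDp.ne' hqpos.ne']
    have h3z : Real.log Dq ≤ 3 * Real.log (zz n) := by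
      rw [hDqlog]
      rw [hlz] at hlq1 ⊢
      linarith
    have hzD : zz n ≤ Dq := by
      rw [← Real.log_le_log_iff hzpos hDqpos, hDqlog, hlz]
      nlinarith
    obtain ⟨hup, -⟩ := hjr (PP n N p1) (fun q hq => PP_prime hq) (zz n) Dq hzn hzD
      ((Sq y1 y2).filter (fun p => q ∣ Nat.dist N p)) lg
      (fun p => Nat.dist N p) (XX y1 y2 * gq q) (by
        apply mul_nonneg hX
        unfold gq
        have h3 := (PP_prime hq'.2).2
        have h3' : (3 : ℝ) ≤ q := by exact_mod_cast h3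
        apply div_nonneg zero_le_one
        linarith) (fun p _ => lg_nonneg p)
    have hup := hup h3z
    have hDQ : Dq * (Q0 : ℝ) = (DD n B : ℝ) / q := by
      rw [hDq]
      field_simp
    rw [hDQ] at hup
    refine hup.trans (le_of_eq ?_)
    rw [← hDq]
    have hDlog0 : Real.log Dq ≠ 0 := by
      have : 0 < Real.log Dq := by
        rw [hDqlog]
        nlinarith
      exact this.ne'
    congr 1
    field_simp
  calc ∑ q ∈ QQ n N p1, sift ((Sq y1 y2).filter (fun p => q ∣ Nat.dist N p)) lg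
        (fun p => Nat.dist N p) (PP n N p1) (zz n)
      ≤ ∑ q ∈ QQ n N p1, (XX y1 y2 * VV (PP n N p1) (zz n) * (AA * (gq q * (Real.log (zz n) /
        Real.log ((DD n B : ℝ) / q / Q0))) + ε / 8 * gq q) +
      remd ((Sq y1 y2).filter (fun p => q ∣ Nat.dist N p)) lg
        (fun p => Nat.dist N p) (PP n N p1) (zz n) (XX y1 y2 * gq q) ((DD n B : ℝ) / q)) :=
        sum_le_sum hone
    _ = XX y1 y2 * VV (PP n N p1) (zz n) * (AA * ∑ q ∈ QQ n N p1, gq q * (Real.log (zz n) /
        Real.log ((DD n B : ℝ) / q / Q0)) + ε / 8 * ∑ q ∈ QQ n N p1, gq q) +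
        ∑ q ∈ QQ n N p1, remd ((Sq y1 y2).filter (fun p => q ∣ Nat.dist N p)) lg
        (fun p => Nat.dist N p) (PP n N p1) (zz n) (XX y1 y2 * gq q) ((DD n B : ℝ) / q) := by
        rw [sum_add_distrib, ← mul_sum, sum_add_distrib, ← mul_sum, ← mul_sum]
    _ ≤ XX y1 y2 * VV (PP n N p1) (zz n) * (AA * (1 / 4 * Real.log 6 + ε / (4 * AA)) + ε / 8 * 2) +
        2 * n / Real.log n ^ 3 := by
        apply add_le_add _ hr
        apply mul_le_mul_of_nonneg_left _ hVX
        have hgq : ∀ q ∈ PR (zz n) (yy n), 0 ≤ gq q := by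
          intro q hq
          have h2 := (mem_PR.mp hq).1.two_le
          have h2' : (2 : ℝ) ≤ q := by exact_mod_cast h2
          unfold gq
          apply div_nonneg zero_le_one
          linarith
        have hsub : QQ n N p1 ⊆ PR (zz n) (yy n) := by
          unfold QQ
          exact filter_subset _ _
        apply add_le_add
        · apply mul_le_mul_of_nonneg_left _ hAA.le
          refine le_trans (sum_le_sum_of_subset_of_nonneg hsub ?_) hps
          intro q hq _
          apply mul_nonneg (hgq q hq)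
          apply div_nonneg hlz0.le
          obtain ⟨hqp, hq1, hq2⟩ := mem_PR.mp hq
          have hqpos : (0 : ℝ) < q := by linarith
          rw [show (DD n B : ℝ) / q / Q0 = (DD n B : ℝ) / Q0 / q by ring,
            Real.log_div hDp.ne' hqpos.ne']
          have hyy : Real.log (yy n) = 1 / 3 * (Real.log 2 + Real.log n) := by
            unfold yy
            rw [Real.log_rpow (by linarith), Real.log_mul (by norm_num) (by linarith)]
          have hlq2 : Real.log q ≤ 1 / 3 * (Real.log 2 + Real.log n) := by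
            rw [← hyy]
            exact Real.log_le_log hqpos hq2.le
          have hlog2 : Real.log 2 ≤ 1 := by
            have := Real.log_two_lt_d9
            linarith
          nlinarith
        · apply mul_le_mul_of_nonneg_left _ (by linarith)
          exact le_trans (sum_le_sum_of_subset_of_nonneg hsub fun q hq _ => hgq q hq) hps2
    _ ≤ XX y1 y2 * VV (PP n N p1) (zz n) * (AA * (1 / 4 * Real.log 6 + ε / (4 * AA)) + ε / 8 * 2) +
        ε / 4 * (XX y1 y2 * VV (PP n N p1) (zz n)) := by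
        linarith
    _ = XX y1 y2 * VV (PP n N p1) (zz n) * (AA / 4 * Real.log 6 + 3 / 4 * ε) := by
        field_simp
        ring
    _ ≤ XX y1 y2 * VV (PP n N p1) (zz n) * (AA / 4 * Real.log 6 + ε) := by
        apply mul_le_mul_of_nonneg_left _ hVX
        linarith

end Pool.Agent.Lib.H59C
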