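import Pool.Agent.Lib.H59C.CPW

/-!
# CW1: summing Chen's weights
-/

open Finset

namespace Pool.Agent.Lib.H59C

open Classical in
/-- The good primes. -/
noncomputable def Good (n N y1 y2 : ℕ) : Finset ℕ :=
  (Sq y1 y2).filter (fun p =>
    (∀ q : ℕ, q.Prime → q ∣ Nat.dist N p → (n : ℝ) ^ (1 / 10 : ℝ) ≤ q) ∧
    ((Nat.dist N p).Prime ∨ ∃ r s : ℕ, r.Prime ∧ s.Prime ∧ Nat.dist N p = r * s))

theorem CW1_lg {n N y1 y2 p : ℕ} (hW : Win n N y1 y2) (hp : p ∈ Sq y1 y2) :
    0 ≤ lg p ∧ lg p ≤ Real.log n := by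
  rw [mem_Sq] at hp
  have h1 : (1 : ℝ) ≤ p := by exact_mod_cast hp.2.one_le
  have h2 : (p : ℝ) ≤ n := by exact_mod_cast hp.1.2.trans hW.le
  exact ⟨Real.log_nonneg h1, Real.log_le_log (by linarith) h2⟩

open Classical in
/-- Proof. Sum the brackets of `pointwise` over the `p ∈ Sq y1 y2` with no `q ∈ PP`, `q < zz n`, dividing `|N - p|`, with
weights `log p`: `sift - (1/2) ∑_{q ∈ QQ} sift_q - (1/2) ∑_{Tri} log p` (in the last sum the condition on the small primes is
dropped) is at most the sum over the exceptional `p` (weight `log p`, bracket `≤ 1`) plus `log n` times the number of the good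
`p`. -/
theorem chen_sum : ∃ n0 : ℕ, ∀ n : ℕ, n0 ≤ n → ∀ N y1 y2 p1 : ℕ, Win n N y1 y2 →
    sift (Sq y1 y2) lg (fun p => Nat.dist N p) (PP n N p1) (zz n) -
      1 / 2 * ∑ q ∈ QQ n N p1, sift ((Sq y1 y2).filter (fun p => q ∣ Nat.dist N p)) lg
        (fun p => Nat.dist N p) (PP n N p1) (zz n) -
      1 / 2 * ∑ p ∈ (Sq y1 y2).filter (fun p => Tri n (Nat.dist N p)), lg p ≤
    Real.log n * ((Good n N y1 y2).card : ℝ) +
      ∑ p ∈ (Sq y1 y2).filter (fun p => p ∣ N ∨ ∃ q : ℕ, q.Prime ∧ zz n ≤ q ∧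
        q ^ 2 ∣ Nat.dist N p), lg p +
      ∑ p ∈ (Sq y1 y2).filter (fun p => p1 ∣ Nat.dist N p ∧
        ∀ q ∈ PP n N p1, (q : ℝ) < zz n → ¬ q ∣ Nat.dist N p), lg p := by
  obtain ⟨n0, hpt⟩ := pointwise
  refine ⟨n0, fun n hn N y1 y2 p1 hW => ?_⟩
  set G := (Sq y1 y2).filter (fun p => ∀ q ∈ PP n N p1, (q : ℝ) < zz n → ¬ q ∣ Nat.dist N p)
    with hG
  set r : ℕ → ℝ := fun p => (((QQ n N p1).filter (fun q => q ∣ Nat.dist N p)).card : ℝ) with hr
  set T : ℕ → ℝ := fun p => if Tri n (Nat.dist N p) then 1 else 0 with hT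
  set E1 : ℕ → Prop := fun p => p ∣ N ∨ ∃ q : ℕ, q.Prime ∧ zz n ≤ q ∧ q ^ 2 ∣ Nat.dist N p with hE1
  set E2 : ℕ → Prop := fun p => p1 ∣ Nat.dist N p ∧
    ∀ q ∈ PP n N p1, (q : ℝ) < zz n → ¬ q ∣ Nat.dist N p with hE2
  have hGm : ∀ p ∈ G, p ∈ Sq y1 y2 := fun p hp => (Finset.mem_filter.1 hp).1
  have hlg : ∀ p ∈ Sq y1 y2, 0 ≤ lg p ∧ lg p ≤ Real.log n := fun p hp => CW1_lg hW hp
  have e1 : sift (Sq y1 y2) lg (fun p => Nat.dist N p) (PP n N p1) (zz n) = ∑ p ∈ G, lg p := rfl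
  have e2 : ∑ q ∈ QQ n N p1, sift ((Sq y1 y2).filter (fun p => q ∣ Nat.dist N p)) lg
      (fun p => Nat.dist N p) (PP n N p1) (zz n) = ∑ p ∈ G, lg p * r p := by
    have h1 : ∀ q ∈ QQ n N p1, sift ((Sq y1 y2).filter (fun p => q ∣ Nat.dist N p)) lg
        (fun p => Nat.dist N p) (PP n N p1) (zz n) =
        ∑ p ∈ G, if q ∣ Nat.dist N p then lg p else 0 := by
      intro q _
      rw [← Finset.sum_filter]
      unfold sift
      refine Finset.sum_congr ?_ fun p _ => rfl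
      ext p
      simp only [hG, Finset.mem_filter]
      tauto
    rw [Finset.sum_congr rfl h1, Finset.sum_comm]
    refine Finset.sum_congr rfl fun p _ => ?_
    rw [← Finset.sum_filter, Finset.sum_const, nsmul_eq_mul, mul_comm]
  have hGsub : G ⊆ Sq y1 y2 := Finset.filter_subset _ _
  have hGs : ∀ p ∈ G, ∀ q ∈ PP n N p1, (q : ℝ) < zz n → ¬ q ∣ Nat.dist N p := fun p hp =>
    (Finset.mem_filter.1 hp).2
  clear_value G
  have e3 : ∑ p ∈ G, lg p * T p ≤ ∑ p ∈ (Sq y1 y2).filter (fun p => Tri n (Nat.dist N p)), lg p := by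
    rw [Finset.sum_filter]
    have h1 : ∑ p ∈ G, lg p * T p = ∑ p ∈ G, if Tri n (Nat.dist N p) then lg p else 0 := by
      refine Finset.sum_congr rfl fun p _ => ?_
      simp only [hT]
      rw [mul_ite, mul_one, mul_zero]
    rw [h1]
    refine Finset.sum_le_sum_of_subset_of_nonneg hGsub fun p hp _ => ?_
    split_ifs
    · exact (hlg p hp).1
    · exact le_rfl
  have hmain : ∀ p ∈ G, lg p * (1 - 1 / 2 * r p - 1 / 2 * T p) ≤
      (if p ∈ Good n N y1 y2 then Real.log n else 0) + (if E1 p then lg p else 0) +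
        (if E2 p then lg p else 0) := by
    intro p hp
    have hpS := hGm p hp
    obtain ⟨hl0, hl1⟩ := hlg p hpS
    have hln : 0 ≤ Real.log n := hl0.trans hl1
    have t1 : 0 ≤ (if p ∈ Good n N y1 y2 then Real.log n else 0) := by
      split_ifs
      · exact hln
      · exact le_rfl
    have t2 : 0 ≤ (if E1 p then lg p else 0) := by
      split_ifs
      · exact hl0
      · exact le_rfl
    have t3 : 0 ≤ (if E2 p then lg p else 0) := by
      split_ifs
      · exact hl0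
      · exact le_rfl
    have hr0 : 0 ≤ r p := Nat.cast_nonneg _
    have hT0 : 0 ≤ T p := by
      simp only [hT]
      split_ifs <;> norm_num
    have hb1 : 1 - 1 / 2 * r p - 1 / 2 * T p ≤ 1 := by linarith
    have hle : lg p * (1 - 1 / 2 * r p - 1 / 2 * T p) ≤ lg p :=
      mul_le_of_le_one_right hl0 hb1
    rcases le_or_gt (1 - 1 / 2 * r p - 1 / 2 * T p) 0 with hb | hb
    · have h1 : lg p * (1 - 1 / 2 * r p - 1 / 2 * T p) ≤ 0 :=
        mul_nonpos_of_nonneg_of_nonpos hl0 hb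
      linarith
    · by_cases hc1 : E1 p
      · rw [if_pos hc1]
        linarith
      · by_cases hc2 : E2 p
        · rw [if_pos hc2]
          linarith
        · have hsift := hGs p hp
          have hN : ¬ p ∣ N := fun h => hc1 (Or.inl h)
          have hsq : ∀ q : ℕ, q.Prime → zz n ≤ q → ¬ q ^ 2 ∣ Nat.dist N p :=
            fun q h1 h2 h3 => hc1 (Or.inr ⟨q, h1, h2, h3⟩)
          have hp1 : ¬ p1 ∣ Nat.dist N p := fun h => hc2 ⟨h, hsift⟩
          have hgood : p ∈ Good n N y1 y2 := by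
            unfold Good
            rw [Finset.mem_filter]
            exact ⟨hpS, hpt n hn N y1 y2 p1 hW p hpS hN hp1 hsq hsift hb⟩
          rw [if_pos hgood]
          linarith
  have hsum : ∑ p ∈ G, lg p * (1 - 1 / 2 * r p - 1 / 2 * T p) ≤
      Real.log n * ((Good n N y1 y2).card : ℝ) + ∑ p ∈ (Sq y1 y2).filter E1, lg p +
        ∑ p ∈ (Sq y1 y2).filter E2, lg p := by
    refine (Finset.sum_le_sum hmain).trans ?_
    rw [Finset.sum_add_distrib, Finset.sum_add_distrib]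
    have s1 : ∑ p ∈ G, (if p ∈ Good n N y1 y2 then Real.log n else 0) ≤
        Real.log n * ((Good n N y1 y2).card : ℝ) := by
      rw [← Finset.sum_filter, Finset.sum_const, nsmul_eq_mul, mul_comm]
      rcases (G.filter (fun p => p ∈ Good n N y1 y2)).eq_empty_or_nonempty with h0 | ⟨p, hp⟩
      · rw [h0, Finset.card_empty, Nat.cast_zero, mul_zero]
        exact mul_nonneg (Real.log_natCast_nonneg n) (Nat.cast_nonneg _)
      · refine mul_le_mul_of_nonneg_left ?_ (Real.log_natCast_nonneg n)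
        exact_mod_cast Finset.card_le_card fun p hp => (Finset.mem_filter.1 hp).2
    have s2 : ∀ (E : ℕ → Prop) [DecidablePred E], ∑ p ∈ G, (if E p then lg p else 0) ≤
        ∑ p ∈ (Sq y1 y2).filter E, lg p := by
      intro E _
      rw [Finset.sum_filter]
      refine Finset.sum_le_sum_of_subset_of_nonneg hGsub fun p hp _ => ?_
      split_ifs
      · exact (hlg p hp).1
      · exact le_rfl
    exact add_le_add (add_le_add s1 (@s2 E1 _)) (@s2 E2 _)
  have e4 : ∑ p ∈ G, lg p * (1 - 1 / 2 * r p - 1 / 2 * T p) =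
      ∑ p ∈ G, lg p - 1 / 2 * ∑ p ∈ G, lg p * r p - 1 / 2 * ∑ p ∈ G, lg p * T p := by
    rw [Finset.mul_sum, Finset.mul_sum, ← Finset.sum_sub_distrib, ← Finset.sum_sub_distrib]
    refine Finset.sum_congr rfl fun p _ => ?_
    ring
  rw [e1, e2]
  refine le_trans ?_ hsum
  rw [e4]
  linarith

end Pool.Agent.Lib.H59C
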