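import Mathlib

/-!
# SW3: the conductor of a real primitive character has a large prime factor
-/

open Finset

namespace Pool.Agent.Lib.H59C

theorem SW3_aux (r d : ℕ) [NeZero r] (hd : d ∣ r) (hdr : d < r) (ψ : DirichletCharacter ℂ r)
    (hψ : ψ.IsPrimitive) (h2 : ψ ^ 2 = 1)
    (h : ∀ t : ℤ, ∃ y : ZMod r, y ^ 2 = 1 + (d : ZMod r) * (t : ZMod r)) : False := by
  have hfac : ψ.FactorsThrough d := by
    rw [DirichletCharacter.factorsThrough_iff_ker_unitsMap hd]
    intro x hx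
    rw [MonoidHom.mem_ker] at hx ⊢
    have h1 : (((x : ZMod r).val : ℤ) : ZMod d) = 1 := by
      have h3 := congrArg Units.val hx
      rw [ZMod.unitsMap_val, Units.val_one, ZMod.cast_eq_val] at h3
      rw [Int.cast_natCast]
      exact h3
    have h4 : (d : ℤ) ∣ ((x : ZMod r).val : ℤ) - 1 := by
      rw [← ZMod.intCast_zmod_eq_zero_iff_dvd]
      rw [Int.cast_sub, h1, Int.cast_one, sub_self]
    obtain ⟨t, ht⟩ := h4
    have h5 : (x : ZMod r) = 1 + (d : ZMod r) * (t : ZMod r) := by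
      have h6 := congrArg (fun z : ℤ => (z : ZMod r)) ht
      simp only [Int.cast_sub, Int.cast_natCast, Int.cast_one, Int.cast_mul] at h6
      rw [ZMod.natCast_zmod_val] at h6
      linear_combination h6
    obtain ⟨y, hy⟩ := h t
    rw [← h5] at hy
    have hyu : IsUnit y := by
      have : IsUnit (y ^ 2) := by rw [hy]; exact x.isUnit
      exact (isUnit_pow_iff two_ne_zero).1 this
    apply Units.ext
    rw [MulChar.coe_toUnitHom, Units.val_one, ← hy, map_pow, ← MulChar.pow_apply' ψ two_ne_zero, h2]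
    exact MulChar.one_apply hyu
  have h7 : ψ.conductor ≤ d := Nat.sInf_le hfac
  have h8 : ψ.conductor = r := hψ
  omega

/-- If `q = p²`-divisible for an odd prime `p`, or `16 ∣ r`, a real character mod `r` is not
primitive.

Proof. Let `p² ∣ r`, `p` odd (resp. `p = 2`, `16 ∣ r`), `r' = r/p`. If `x ≡ 1 mod r'`, `x = 1 + r' t`, then `x`
is a square mod `r`: for odd `p` choose `t'` with `2 t' ≡ t mod p`; `(1 + r' t')² = 1 + 2 r' t' + r'² t'²`,
and `r ∣ r'²` since `p² ∣ r`, `2 r' t' ≡ r' t mod r`. For `p = 2`: `(1 + (r/4) t)² = 1 + (r/2) t + (r/4)² t²`,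
`r ∣ (r/4)²` as `16 ∣ r`. So `ψ(x) = ψ(y)² = 1` for all units `x ≡ 1 mod r'`, i.e. `ψ` factors through
`r' < r` (`DirichletCharacter.factorsThrough_iff_ker_unitsMap`, `conductor_le...`), contradicting
`IsPrimitive`. -/
theorem cond_sq (r : ℕ) [NeZero r] (ψ : DirichletCharacter ℂ r) (hψ : ψ.IsPrimitive)
    (h2 : ψ ^ 2 = 1) : (∀ p : ℕ, p.Prime → p ≠ 2 → ¬ p ^ 2 ∣ r) ∧ ¬ 16 ∣ r := by
  have hr : r ≠ 0 := NeZero.ne r
  have h0 : ((r : ℕ) : ZMod r) = 0 := ZMod.natCast_self r
  constructor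
  · rintro p hp hp2 ⟨k, hk⟩
    have hk0 : 0 < k := Nat.pos_of_ne_zero (by rintro rfl; rw [mul_zero] at hk; exact hr hk)
    obtain ⟨s, hs⟩ := hp.odd_of_ne_two hp2
    refine SW3_aux r (p * k) ⟨p, by rw [hk]; ring⟩ ?_ ψ hψ h2 fun t => ?_
    · rw [hk]
      have := hp.two_le
      nlinarith
    · refine ⟨1 + ((p * k : ℕ) : ZMod r) * (((s : ℤ) + 1) * t : ℤ), ?_⟩
      have h3 : (p : ZMod r) ^ 2 * (k : ZMod r) = 0 := by
        have e := congrArg (fun n : ℕ => (n : ZMod r)) hk
        push_cast at e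
        rw [← e]
        exact h0
      have h4 : (p : ZMod r) = 2 * (s : ZMod r) + 1 := by
        have := congrArg (fun n : ℕ => (n : ZMod r)) hs
        push_cast at this
        exact this
      push_cast
      linear_combination ((t : ZMod r) + (k : ZMod r) * (((s : ZMod r) + 1) * (t : ZMod r)) ^ 2) * h3 -
        (p : ZMod r) * (k : ZMod r) * (t : ZMod r) * h4
  · rintro ⟨k, hk⟩
    have hk0 : 0 < k := Nat.pos_of_ne_zero (by rintro rfl; rw [mul_zero] at hk; exact hr hk)
    refine SW3_aux r (8 * k) ⟨2, by rw [hk]; ring⟩ (by omega) ψ hψ h2 fun t => ?_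
    refine ⟨1 + ((4 * k : ℕ) : ZMod r) * (t : ZMod r), ?_⟩
    have h3 : 16 * (k : ZMod r) = 0 := by
      have e := congrArg (fun n : ℕ => (n : ZMod r)) hk
      push_cast at e
      rw [← e]
      exact h0
    push_cast
    linear_combination (k : ZMod r) * (t : ZMod r) ^ 2 * h3

/-- So `r` divides `8 ∏_{q ∣ r} q`, and if all prime factors of `r` are `< K` then `r ≤ 8 K^K`
(`primorial`). -/
theorem large_prime (K : ℕ) : ∃ r0 : ℕ, ∀ r : ℕ, r0 ≤ r → ∀ [NeZero r],
    ∀ ψ : DirichletCharacter ℂ r, ψ.IsPrimitive → ψ ^ 2 = 1 →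
    ∃ q : ℕ, q.Prime ∧ K ≤ q ∧ q ∣ r := by
  refine ⟨(K ^ 3) ^ K + 1, fun r hr _ ψ hψ h2 => ?_⟩
  by_contra hno
  push Not at hno
  have hr0 : r ≠ 0 := NeZero.ne r
  obtain ⟨c1, c2⟩ := cond_sq r ψ hψ h2
  have hlt : ∀ q ∈ r.primeFactors, q < K := by
    intro q hq
    by_contra hK
    exact hno q (Nat.prime_of_mem_primeFactors hq) (not_lt.1 hK) (Nat.dvd_of_mem_primeFactors hq)
  have hv : ∀ q ∈ r.primeFactors, r.factorization q ≤ 3 := by
    intro q hq
    have hqp := Nat.prime_of_mem_primeFactors hq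
    by_contra h3
    have h4 : q ^ 4 ∣ r := (hqp.pow_dvd_iff_le_factorization hr0).2 (by omega)
    by_cases hq2 : q = 2
    · subst hq2
      exact c2 (by simpa using h4)
    · exact c1 q hqp hq2 ((pow_dvd_pow q (by norm_num)).trans h4)
  have h1 : r ≤ (K ^ 3) ^ r.primeFactors.card := by
    conv_lhs => rw [← Nat.prod_factorization_pow_eq_self hr0]
    rw [Finsupp.prod, Nat.support_factorization]
    rw [← Finset.prod_const]
    apply Finset.prod_le_prod'
    intro q hq
    have hqp := Nat.prime_of_mem_primeFactors hq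
    calc q ^ r.factorization q ≤ q ^ 3 := Nat.pow_le_pow_right hqp.pos (hv q hq)
      _ ≤ K ^ 3 := Nat.pow_le_pow_left (hlt q hq).le 3
  have h5 : r.primeFactors.card ≤ K := by
    have : r.primeFactors ⊆ range K := fun q hq => mem_range.2 (hlt q hq)
    simpa using card_le_card this
  rcases Nat.eq_zero_or_pos K with rfl | hK
  · have h6 : r.primeFactors.card = 0 := by omega
    rw [h6] at h1
    simp only [pow_zero] at h1 hr
    omega
  · have h6 : (K ^ 3) ^ r.primeFactors.card ≤ (K ^ 3) ^ K :=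
      Nat.pow_le_pow_right (by positivity) h5
    omega

end Pool.Agent.Lib.H59C
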