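import Pool.Agent.Lib.H68X.XEX
import Pool.Agent.Lib.H68X.XSIE
import Pool.Agent.Lib.H59C.SW2
import Pool.Agent.Lib.H59C.SW3

/-!
# SW4: Siegel-Walfisz away from one prime
-/

open Finset

namespace Pool.Agent.Lib.H59C

open Pool.Agent.Lib.H68T (PC p0 Rg Reg sw Good Exc mem_PC)

open Filter in
theorem SW4_ev (M T P : ℝ) : ∃ n0 : ℕ, ∀ n : ℕ, n0 ≤ n →
    M * Real.log (Real.log n) ^ 2 ≤ Real.log n ∧ T ≤ Real.log (Real.log n) ∧ P ≤ n := by
  have h1 : Tendsto (fun n : ℕ => Real.log (n : ℝ)) atTop atTop :=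
    Real.tendsto_log_atTop.comp tendsto_natCast_atTop_atTop
  have h2 : Tendsto (fun n : ℕ => Real.log (Real.log (n : ℝ))) atTop atTop :=
    Real.tendsto_log_atTop.comp h1
  have h3 := (Real.isLittleO_pow_log_id_atTop (n := 2)).comp_tendsto h1
  have h4 := h3.def (c := 1 / (|M| + 1)) (by positivity)
  have h5 : ∀ᶠ n : ℕ in atTop, M * Real.log (Real.log n) ^ 2 ≤ Real.log n := by
    filter_upwards [h4, h1.eventually_ge_atTop 0] with n hn hn0
    simp only [Function.comp_apply, id_eq, norm_pow, Real.norm_eq_abs, sq_abs] at hn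
    rw [abs_of_nonneg hn0] at hn
    have h6 : M * Real.log (Real.log n) ^ 2 ≤ (|M| + 1) * Real.log (Real.log n) ^ 2 := by
      refine mul_le_mul_of_nonneg_right ?_ (sq_nonneg _)
      linarith [le_abs_self M]
    refine h6.trans ?_
    calc (|M| + 1) * Real.log (Real.log n) ^ 2 ≤ (|M| + 1) * (1 / (|M| + 1) * Real.log n) :=
          mul_le_mul_of_nonneg_left hn (by positivity)
      _ = Real.log n := by field_simp
  have h7 := (h5.and (h2.eventually_ge_atTop T)).and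
    ((tendsto_natCast_atTop_atTop (R := ℝ)).eventually_ge_atTop P)
  obtain ⟨n0, hn0⟩ := eventually_atTop.1 h7
  exact ⟨n0, fun n hn => ⟨(hn0 n hn).1.1, (hn0 n hn).1.2, (hn0 n hn).2⟩⟩

/-- The estimates for the parameters. -/
theorem SW4_par (A : ℕ) (K : ℝ) (hK : 1 ≤ K) : ∃ B : ℕ, ∃ M : ℝ, ∀ n Q : ℕ,
    M * Real.log (Real.log n) ^ 2 ≤ Real.log n → K + 3 ≤ Real.log (Real.log n) →
    Q = ⌈Real.log n ^ B⌉₊ →
    (Real.log n ^ A ≤ Q ∧ Real.log (Real.log n) ≤ Real.log Q ∧ Real.log n ≤ Q ∧ Q ^ 100 ≤ n) ∧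
    ∀ y : ℕ, (n : ℝ) ^ (1 / 10 : ℝ) ≤ y → y ≤ 8 * n → Reg K Q y ∧
      sw K Q y ≤ 1 / Real.log n ^ A := by
  obtain ⟨B, hB⟩ : ∃ B : ℕ, (A : ℝ) + 2 * K + K * (A + 1) + 1 ≤ B := exists_nat_ge _
  refine ⟨B, 20 * K * (B + 1) * (A + 1) + 100 * (B + 1), fun n Q hn hl hQ => ?_⟩
  have hA0 : (0 : ℝ) ≤ A := Nat.cast_nonneg A
  have hKA : 0 ≤ K * (A + 1) := by positivity
  have hBA : A ≤ B := by
    have : (A : ℝ) ≤ B := by linarith
    exact_mod_cast this
  have hB1 : 1 ≤ B := by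
    have : (1 : ℝ) ≤ B := by linarith
    exact_mod_cast this
  have hB1' : (1 : ℝ) ≤ B := by exact_mod_cast hB1
  set L : ℝ := Real.log n with hL
  set l : ℝ := Real.log L with hl'
  have hl4 : 4 ≤ l := by linarith
  have hL0 : 0 < L := by
    by_contra h
    have h0 : 0 ≤ L := Real.log_natCast_nonneg n
    have h1 : L = 0 := le_antisymm (not_lt.1 h) h0
    rw [hl', h1, Real.log_zero] at hl4
    linarith
  have hLe : L = Real.exp l := (Real.exp_log hL0).symm
  have hL5 : 5 ≤ L := by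
    rw [hLe]
    linarith [Real.add_one_le_exp l]
  have hn0 : (0 : ℝ) < n := by
    rcases Nat.eq_zero_or_pos n with h | h
    · rw [hL, h] at hL5
      simp at hL5
      linarith
    · exact_mod_cast h
  have hpow : ∀ m : ℕ, L ^ m = Real.exp (m * l) := by
    intro m
    rw [Real.exp_nat_mul, ← hLe]
  have hQ1 : L ^ B ≤ Q := by
    rw [hQ]
    exact Nat.le_ceil _
  have hQ2 : (Q : ℝ) ≤ L ^ (B + 1) := by
    have h1 : (Q : ℝ) < L ^ B + 1 := by
      rw [hQ]
      exact Nat.ceil_lt_add_one (by positivity)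
    have h2 : 1 ≤ L ^ B := one_le_pow₀ (by linarith)
    have h3 : L ^ (B + 1) = L ^ B * L := pow_succ _ _
    rw [h3]
    nlinarith
  have hQ0 : (0 : ℝ) < Q := lt_of_lt_of_le (by positivity) hQ1
  have hlQ1 : B * l ≤ Real.log Q := by
    rw [Real.le_log_iff_exp_le hQ0, ← hpow]
    exact hQ1
  have hlQ2 : Real.log Q ≤ (B + 1) * l := by
    rw [Real.log_le_iff_le_exp hQ0]
    have := hpow (B + 1)
    push_cast at this
    rw [← this]
    exact hQ2
  have hlQl : l ≤ Real.log Q := by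
    have : 1 * l ≤ B * l := mul_le_mul_of_nonneg_right hB1' (by linarith)
    linarith
  have hlQ0 : 0 < Real.log Q := by linarith
  have hLM : 20 * K * (B + 1) * (A + 1) * l ^ 2 ≤ L ∧ 100 * (B + 1) * l ≤ L := by
    have h1 : 0 ≤ 100 * ((B : ℝ) + 1) * l ^ 2 := by positivity
    have h2 : 0 ≤ 20 * K * ((B : ℝ) + 1) * (A + 1) * l ^ 2 := by positivity
    have h3 : l ≤ l ^ 2 := le_self_pow₀ (by linarith) two_ne_zero
    have h4 : 100 * ((B : ℝ) + 1) * l ≤ 100 * ((B : ℝ) + 1) * l ^ 2 :=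
      mul_le_mul_of_nonneg_left h3 (by positivity)
    constructor <;> nlinarith
  refine ⟨⟨(pow_le_pow_right₀ (by linarith) hBA).trans hQ1, hlQl, ?_, ?_⟩, fun y hy1 hy2 => ?_⟩
  · have h1 : L ^ 1 ≤ L ^ B := pow_le_pow_right₀ (by linarith) hB1
    rw [pow_one] at h1
    exact h1.trans hQ1
  · have h1 : (Q : ℝ) ^ 100 ≤ n := by
      calc (Q : ℝ) ^ 100 ≤ (L ^ (B + 1)) ^ 100 := pow_le_pow_left₀ hQ0.le hQ2 100
        _ = Real.exp (100 * ((B + 1) * l)) := by
            rw [hpow (B + 1), ← Real.exp_nat_mul]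
            push_cast
            rfl
        _ ≤ Real.exp L := Real.exp_le_exp.2 (by linarith [hLM.2])
        _ = n := Real.exp_log hn0
    exact_mod_cast h1
  · have hy0 : (0 : ℝ) < y := lt_of_lt_of_le (by positivity) hy1
    have hly1 : L / 10 ≤ Real.log y := by
      have h1 := Real.log_le_log (by positivity) hy1
      rw [Real.log_rpow hn0] at h1
      linarith
    have hly2 : Real.log y ≤ 2 * L := by
      have h1 : Real.log y ≤ Real.log (8 * n) := Real.log_le_log hy0 (by exact_mod_cast hy2)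
      rw [Real.log_mul (by norm_num) hn0.ne'] at h1
      have h2 : Real.log 8 ≤ 3 := by
        have h3 : Real.log 8 = 3 * Real.log 2 := by
          rw [show (8 : ℝ) = 2 ^ 3 by norm_num, Real.log_pow]
          push_cast
          ring
        rw [h3]
        linarith [Real.log_two_lt_d9]
      linarith
    have hly0 : 0 < Real.log y := by linarith
    have hlly1 : l - 3 ≤ Real.log (Real.log y) := by
      have h1 : Real.log (L / 10) ≤ Real.log (Real.log y) := Real.log_le_log (by positivity) hly1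
      rw [Real.log_div hL0.ne' (by norm_num)] at h1
      have h2 : Real.log 10 ≤ 3 := by
        have h3 : Real.log 10 ≤ Real.log (2 ^ 4) := Real.log_le_log (by norm_num) (by norm_num)
        rw [Real.log_pow] at h3
        push_cast at h3
        linarith [Real.log_two_lt_d9]
      linarith
    have hlly2 : Real.log (Real.log y) ≤ 2 * l := by
      have h1 : Real.log (Real.log y) ≤ Real.log (2 * L) := Real.log_le_log hly0 hly2
      rw [Real.log_mul (by norm_num) hL0.ne'] at h1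
      have h2 := Real.log_two_lt_d9
      have h3 : Real.log L = l := rfl
      linarith
    have hlly0 : 0 ≤ Real.log (Real.log y) := by linarith
    refine ⟨⟨by linarith, ?_, ?_⟩, ?_⟩
    · calc K * Real.log (Real.log y) ≤ K * (2 * l) :=
            mul_le_mul_of_nonneg_left hlly2 (by linarith)
        _ = 2 * K * l := by ring
        _ ≤ B * l := mul_le_mul_of_nonneg_right (by linarith) (by linarith)
        _ ≤ Real.log Q := hlQ1
    · have h1 : Real.log Q * Real.log (Real.log y) ≤ ((B + 1) * l) * (2 * l) :=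
        mul_le_mul hlQ2 hlly2 hlly0 (by positivity)
      have h2 : K * (Real.log Q * Real.log (Real.log y)) ≤ K * (((B + 1) * l) * (2 * l)) :=
        mul_le_mul_of_nonneg_left h1 (by linarith)
      have h3 : 10 * (K * (((B + 1) * l) * (2 * l))) ≤ 20 * K * (B + 1) * (A + 1) * l ^ 2 := by
        have h4 : 20 * K * ((B : ℝ) + 1) * (A + 1) * l ^ 2 =
            10 * (K * (((B + 1) * l) * (2 * l))) + 20 * K * (B + 1) * l ^ 2 * A := by ring
        have h5 : 0 ≤ 20 * K * ((B : ℝ) + 1) * l ^ 2 * A := by positivity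
        linarith
      linarith [hLM.1]
    · have e1 : Real.exp (-(Real.log y / (K * Real.log Q))) ≤ Real.exp (-((A + 1) * l)) := by
        refine Real.exp_le_exp.2 (neg_le_neg ?_)
        rw [le_div_iff₀ (by positivity)]
        have h1 : (A + 1) * l * (K * Real.log Q) ≤ (A + 1) * l * (K * ((B + 1) * l)) := by
          refine mul_le_mul_of_nonneg_left ?_ (by positivity)
          exact mul_le_mul_of_nonneg_left hlQ2 (by linarith)
        have h2 : 20 * K * ((B : ℝ) + 1) * (A + 1) * l ^ 2 =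
            20 * ((A + 1) * l * (K * ((B + 1) * l))) := by ring
        have h3 : 0 ≤ ((A : ℝ) + 1) * l * (K * ((B + 1) * l)) := by positivity
        linarith [hLM.1]
      have e2 : (Q : ℝ) ^ (-(1 / K)) ≤ Real.exp (-((A + 1) * l)) := by
        rw [Real.rpow_def_of_pos hQ0]
        refine Real.exp_le_exp.2 ?_
        have h1 : (A + 1) * l ≤ Real.log Q * (1 / K) := by
          rw [mul_one_div, le_div_iff₀ (by linarith)]
          calc (A + 1) * l * K = K * (A + 1) * l := by ring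
            _ ≤ B * l := mul_le_mul_of_nonneg_right (by linarith) (by linarith)
            _ ≤ Real.log Q := hlQ1
        linarith
      have e3 : Real.exp (-((A + 1) * l)) = 1 / L ^ A * (1 / L) := by
        rw [Real.exp_neg, one_div, one_div, ← mul_inv, ← pow_succ, hpow (A + 1)]
        push_cast
        rfl
      have e4 : 1 / L ≤ 1 / 2 := one_div_le_one_div_of_le (by norm_num) (by linarith)
      have e5 : 0 < 1 / L ^ A := by positivity
      unfold sw
      rw [e3] at e1 e2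
      have e6 : 1 / L ^ A * (1 / L) ≤ 1 / L ^ A * (1 / 2) := mul_le_mul_of_nonneg_left e4 e5.le
      linarith

/-- From a zero free character to the sums. -/
theorem SW4_one (c' C K₂ : ℝ) (hpsi : ∀ Q X : ℕ, Reg K₂ Q X → ∀ p : PCh, 1 ≤ p.1 →
      LogInv c' C Q p → ∀ u : ℝ, (X : ℝ) / 8 ≤ u → u ≤ 60 * X →
      ‖∑ m ∈ Icc 1 ⌊u⌋₊, (ArithmeticFunction.vonMangoldt m : ℂ) * p.2 (m : ZMod p.1)‖ ≤
      u * sw K₂ Q X) (Q y : ℕ) (hreg : Reg K₂ Q y) (p : PCh) (hp : 1 ≤ p.1)
    (hlog : LogInv c' C Q p) : ‖psi y p‖ ≤ y * sw K₂ Q y := by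
  have hy : (0 : ℝ) ≤ y := Nat.cast_nonneg y
  have h1 := hpsi Q y hreg p hp hlog y (by linarith) (by linarith)
  rw [Nat.floor_natCast] at h1
  exact h1

/-- For large `n` there is a prime `p1`, as large as we like but at most `n^(1/100)`, such that all
non principal primitive characters of conductor at most `(log n)^A` not divisible by `p1` have small
sums over the primes.

Proof. Take `c` = the constant of `H68T.page` (at most one real primitive character of conductor `≤ Q` has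
a zero in `[1 - c/log Q, 1]`; files `H68T/PAGE2.lean`, `H68X/XEX.lean`), `c', C` from `log_single c`, `K`
from `psi_of_log c' C`, and `Q = ⌈(log n)^K'⌉` with `K' ≥ A + (A + 2) K + K + 1`. For `n` large and all
`n^(1/10) ≤ y ≤ 8 n` one has `Reg K Q y` (`K ≤ loglog y`, `K loglog y ≤ log Q`, `K log Q loglog y ≤ log y`
since `log Q = O(loglog n)`, `log y ≥ log n/10`), and
`sw K Q y = exp (-log y/(K log Q)) + Q^(-1/K) ≤ (log n)^(-A)`. If no real primitive `ψ ≠ 1` of conductor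
`≤ Q` has a zero in `[1 - c/log Q, 1]` (`Good c Q`), let `p1` be any fixed prime `≥ K0` (the given lower
bound). Otherwise let `ψ` mod `r` be the exceptional one, `β` its zero (`β < 1` as `L(1) ≠ 0`). By
`H68T.zero_elementary` `c₁/r² ≤ 1 - β ≤ c/log Q`, so `r → ∞` with `n`, and `large_prime` gives a prime
`p1 ∣ r`, `p1 ≥ K0`; `p1 ≤ r ≤ Q ≤ n^(1/100)`. A primitive `χ ≠ 1` of conductor `≤ (log n)^A ≤ Q` not
divisible by `p1` is not `ψ`, so it satisfies the hypothesis of `log_single` (by `page`). Apply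
`psi_of_log` with `X = u = y`. (A primitive `p ∈ PC _`, `p ≠ p0`, has `p.2 ≠ 1`: a primitive trivial character has
conductor `1`, cf. the proof of `inv_all`.) -/
theorem sw_exists (A K0 : ℕ) : ∃ n0 : ℕ, ∀ n : ℕ, n0 ≤ n → ∃ p1 : ℕ, p1.Prime ∧ K0 ≤ p1 ∧
    p1 ^ 100 ≤ n ∧ SWp A n p1 := by
  obtain ⟨c₀, K₀, hc₀, hpage⟩ := Pool.Agent.Lib.H68T.page
  obtain ⟨c', C, K₁, hc', hC, hsingle⟩ := log_single c₀ hc₀
  obtain ⟨K₂, hK₂, hpsi⟩ := psi_of_log c' C hc'
  obtain ⟨ce, hce, hzero⟩ := Pool.Agent.Lib.H68T.zero_elementary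
  obtain ⟨r0, hlarge⟩ := large_prime K0
  obtain ⟨P0, hP0, hP0p⟩ := Nat.exists_infinite_primes K0
  obtain ⟨B, M, hpar⟩ := SW4_par A K₂ hK₂
  obtain ⟨n0, hn0⟩ := SW4_ev M (K₂ + 3 + |K₀| + |K₁| + c₀ * (r0 : ℝ) ^ 2 / ce + 1)
    ((P0 : ℝ) ^ 100)
  refine ⟨n0, fun n hn => ?_⟩
  obtain ⟨hM, hT, hP⟩ := hn0 n hn
  have a0 : 0 ≤ |K₀| := abs_nonneg _
  have a1 : 0 ≤ |K₁| := abs_nonneg _
  have a2 : 0 ≤ c₀ * (r0 : ℝ) ^ 2 / ce := by positivity
  obtain ⟨⟨hQA, hlQ, hLQ, hQn⟩, hreg⟩ := hpar n ⌈Real.log n ^ B⌉₊ hM (by linarith) rfl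
  set Q : ℕ := ⌈Real.log n ^ B⌉₊ with hQ
  have hQpos : (0 : ℝ) < Q := by
    rcases Nat.eq_zero_or_pos Q with h | h
    · rw [h, Nat.cast_zero, Real.log_zero] at hlQ
      linarith
    · exact_mod_cast h
  have hlQ' : Real.log Q ≤ Q := (Real.log_le_sub_one_of_pos hQpos).trans (by linarith)
  have hQK₀ : K₀ ≤ Q := by linarith [le_abs_self K₀]
  have hQK₁ : K₁ ≤ Q := by linarith [le_abs_self K₁]
  have hlQ0 : 0 < Real.log Q := by linarith
  -- the conclusion for one character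
  have hone : ∀ p ∈ PC ⌊Real.log n ^ A⌋₊, p ≠ p0 →
      (∀ [NeZero p.1], p.2 ≠ 1 → p.2 ^ 2 = 1 → ∀ σ : ℝ, 1 - c₀ / Real.log Q ≤ σ → σ ≤ 1 →
        p.2.LFunction (σ : ℂ) ≠ 0) →
      ∀ y : ℕ, (n : ℝ) ^ (1 / 10 : ℝ) ≤ y → y ≤ 8 * n → ‖psi y p‖ ≤ y / Real.log n ^ A := by
    rintro ⟨r', ψ'⟩ hp hpne hz y hy1 hy2
    obtain ⟨hr1, hr2, hprim⟩ := mem_PC.mp hp
    have hne' : NeZero r' := ⟨by
      have : 1 ≤ r' := hr1
      omega⟩
    have hψ : ψ' ≠ 1 := by
      intro h
      apply hpne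
      have hr : r' = 1 := by
        have h3 : ψ'.conductor = r' := hprim
        rw [h, DirichletCharacter.conductor_one] at h3
        exact h3.symm
      subst hr
      rw [h]
      rfl
    have hr'Q : r' ≤ Q := by
      have h1 : (r' : ℝ) ≤ Real.log n ^ A := by
        have h2 : (r' : ℝ) ≤ ⌊Real.log n ^ A⌋₊ := by exact_mod_cast hr2
        exact h2.trans (Nat.floor_le (by
          have : 0 ≤ Real.log n := Real.log_natCast_nonneg n
          positivity))
      have h3 : (r' : ℝ) ≤ Q := h1.trans hQA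
      exact_mod_cast h3
    obtain ⟨g1, g2⟩ := hreg y hy1 hy2
    have h1 := SW4_one c' C K₂ hpsi Q y g1 ⟨r', ψ'⟩ hr1
      (hsingle Q hQK₁ r' ψ' hr'Q hprim hψ (fun hsq σ h1 h2 => hz hψ hsq σ h1 h2))
    refine h1.trans ?_
    have hy : (0 : ℝ) ≤ y := Nat.cast_nonneg y
    calc (y : ℝ) * sw K₂ Q y ≤ y * (1 / Real.log n ^ A) := mul_le_mul_of_nonneg_left g2 hy
      _ = y / Real.log n ^ A := by ring
  by_cases hex : ∃ (r : ℕ) (_ : NeZero r) (ψ : DirichletCharacter ℂ r) (β : ℝ), r ≤ Q ∧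
      ψ.IsPrimitive ∧ ψ ≠ 1 ∧ ψ ^ 2 = 1 ∧ 1 - c₀ / Real.log Q ≤ β ∧ β ≤ 1 ∧
      ψ.LFunction (β : ℂ) = 0
  · obtain ⟨r, hr, ψ, β, hrQ, hprim, hne, hsq, hβ, hβ1, hβ0⟩ := hex
    have hβlt : β < 1 := by
      by_contra h
      have h1 : β = 1 := le_antisymm hβ1 (not_lt.1 h)
      rw [h1] at hβ0
      exact DirichletCharacter.LFunction_ne_zero_of_one_le_re ψ (Or.inl hne) (by simp) hβ0
    have hrr0 : r0 ≤ r := by
      by_contra h
      have h1 := hzero r ψ hne hsq β hβlt hβ0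
      have hr0 : (0 : ℝ) < r := by
        have : 0 < r := Nat.pos_of_ne_zero (NeZero.ne r)
        exact_mod_cast this
      have h2 : (r : ℝ) ≤ r0 := by exact_mod_cast (not_le.1 h).le
      have h3 : ce / (r0 : ℝ) ^ 2 ≤ ce / (r : ℝ) ^ 2 :=
        div_le_div_of_nonneg_left hce.le (by positivity) (pow_le_pow_left₀ hr0.le h2 2)
      have h4 : ce / (r0 : ℝ) ^ 2 ≤ c₀ / Real.log Q := by linarith
      have h6 : (0 : ℝ) < r0 := hr0.trans_le h2
      rw [div_le_div_iff₀ (by positivity) hlQ0] at h4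
      have h5 : Real.log Q ≤ c₀ * (r0 : ℝ) ^ 2 / ce := by
        rw [le_div_iff₀ hce]
        linarith
      linarith
    obtain ⟨q, hq, hKq, hqr⟩ := hlarge r hrr0 ψ hprim hsq
    refine ⟨q, hq, hKq, ?_, ?_⟩
    · have h1 : q ≤ Q := (Nat.le_of_dvd (Nat.pos_of_ne_zero (NeZero.ne r)) hqr).trans hrQ
      exact (Nat.pow_le_pow_left h1 100).trans hQn
    · intro p hp hpne hqp
      refine hone p hp hpne ?_
      intro _ hne' hsq' σ hσ hσ1 hz'
      have hr'Q : p.1 ≤ Q := by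
        obtain ⟨hr1, hr2, _⟩ := mem_PC.mp hp
        have h1 : (p.1 : ℝ) ≤ Real.log n ^ A := by
          have h2 : (p.1 : ℝ) ≤ ⌊Real.log n ^ A⌋₊ := by exact_mod_cast hr2
          exact h2.trans (Nat.floor_le (by
            have : 0 ≤ Real.log n := Real.log_natCast_nonneg n
            positivity))
        have h3 : (p.1 : ℝ) ≤ Q := h1.trans hQA
        exact_mod_cast h3
      refine hpage Q hQK₀ r p.1 ψ p.2 hrQ hr'Q hprim (mem_PC.mp hp).2.2 hne hne' hsq hsq' ?_
        β σ hβ hβ1 hσ hσ1 hβ0 hz'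
      intro h
      have h1 : r = p.1 := congrArg Sigma.fst h
      exact hqp (h1 ▸ hqr)
  · refine ⟨P0, hP0p, hP0, by exact_mod_cast hP, ?_⟩
    intro p hp hpne _
    refine hone p hp hpne ?_
    intro inst hne' hsq' σ hσ hσ1 hz'
    refine hex ⟨p.1, inst, p.2, σ, ?_, (mem_PC.mp hp).2.2, hne', hsq', hσ, hσ1, hz'⟩
    have h1 : (p.1 : ℝ) ≤ Real.log n ^ A := by
      have h2 : (p.1 : ℝ) ≤ ⌊Real.log n ^ A⌋₊ := by exact_mod_cast (mem_PC.mp hp).2.1
      exact h2.trans (Nat.floor_le (by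
        have : 0 ≤ Real.log n := Real.log_natCast_nonneg n
        positivity))
    have h3 : (p.1 : ℝ) ≤ Q := h1.trans hQA
    exact_mod_cast h3

end Pool.Agent.Lib.H59C
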