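import Pool.Agent.Lib.H59C.CS1
import Pool.Agent.Lib.H59C.CS2
import Pool.Agent.Lib.H59C.CS3
import Pool.Agent.Lib.H59C.CE1
import Pool.Agent.Lib.H59C.CE2
import Pool.Agent.Lib.H59C.CW1
import Pool.Agent.Lib.H59C.SW4

/-!
# CW: Chen's theorem in a window
-/

open Finset

namespace Pool.Agent.Lib.H59C

theorem cw_log : 3 / 8 < 2 * Real.log 3 - Real.log 6 := by
  have h1 : 2 * Real.log 3 - Real.log 6 = Real.log (3 / 2) := by
    rw [show (6 : ℝ) = 2 * 3 by norm_num, Real.log_mul (by norm_num) (by norm_num),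
      Real.log_div (by norm_num) (by norm_num)]
    ring
  rw [h1, Real.lt_log_iff_exp_lt (by norm_num)]
  have h2 : Real.exp (3 / 8) = Real.exp 1 ^ (3 / 8 : ℝ) := by
    rw [Real.exp_one_rpow]
  have h3 : Real.exp (3 / 8) ^ 8 = Real.exp 1 ^ 3 := by
    rw [← Real.exp_nat_mul, ← Real.exp_nat_mul]
    congr 1
    norm_num
  by_contra hcon
  push Not at hcon
  have h4 : (3 / 2 : ℝ) ^ 8 ≤ Real.exp (3 / 8) ^ 8 := pow_le_pow_left₀ (by norm_num) hcon 8
  rw [h3] at h4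
  have h5 := Real.exp_one_lt_d9
  have h6 : Real.exp 1 ^ 3 ≤ 2.7182818286 ^ 3 :=
    pow_le_pow_left₀ (Real.exp_pos 1).le h5.le 3
  norm_num at h4 h6
  linarith

/-- **Chen's theorem** in a window.

Proof. `κ = (AA/8) (2 log 3 - log 6 - 3/8) = (AA/8) (log (3/2) - 3/8) > 0` (`AA_pos`, `log (3/2) > 2/5`). `S1_lower`,
`S2_upper`, `S3_upper` with `ε = κ/8`, `A'` the maximum of the three (`SWp_mono`), `sw_exists A' K0` (gives `p1`) with `K0`
large: the left side of `chen_sum` is `≥ (κ/2) XX VV ≥ (κ/2) c hl N n/log n` (`main_lower`), and the two last sums are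
`≤ n^(9/10) + (C/K0) hl N n/log n ≤ (κ/4) c hl N n/log n`. -/
theorem chen_window : ∃ c : ℝ, 0 < c ∧ ∃ n0 : ℕ, ∀ n : ℕ, n0 ≤ n → ∀ N y1 y2 : ℕ,
    Win n N y1 y2 → c * hl N * n / Real.log n ^ 2 ≤ (Good n N y1 y2).card := by
  classical
  have hAA := AA_pos
  obtain ⟨κ, hκ⟩ : ∃ κ : ℝ, κ = AA / 8 * (2 * Real.log 3 - Real.log 6 - 3 / 8) := ⟨_, rfl⟩
  have hκ0 : 0 < κ := by
    rw [hκ]
    have := cw_log
    exact mul_pos (by linarith) (by linarith)
  obtain ⟨A1, n1, h1⟩ := S1_lower (κ / 4) (by linarith)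
  obtain ⟨A2, n2, h2⟩ := S2_upper (κ / 4) (by linarith)
  obtain ⟨A3, n3, h3⟩ := S3_upper (κ / 4) (by linarith)
  obtain ⟨c, hc, n4, h4⟩ := main_lower
  obtain ⟨C, hC, n5, h5⟩ := bad_p1
  obtain ⟨n6, h6⟩ := bad_sq
  obtain ⟨n7, h7⟩ := chen_sum
  obtain ⟨K0, hK0⟩ := exists_nat_ge (8 * C / (κ * c))
  obtain ⟨n8, h8⟩ := sw_exists (A1 + A2 + A3) K0
  obtain ⟨n9, h9⟩ := cdl_log_pow 1 (8 / (κ * c)) (1 / 10) (by positivity) (by norm_num)
  refine ⟨κ * c / 4, by positivity, n1 + n2 + n3 + n4 + n5 + n6 + n7 + n8 + n9 + 3,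
    fun n hn N y1 y2 hW => ?_⟩
  have hN : (3 : ℝ) ≤ n := by exact_mod_cast (by omega : 3 ≤ n)
  have hL : 0 < Real.log n := Real.log_pos (by linarith)
  obtain ⟨p1, hp1, hpK, hp100, hSW⟩ := h8 n (by omega)
  have s1 := h1 n (by omega) p1 hp1 (SWp_mono (by omega) (by omega) hSW) N y1 y2 hW
  have s2 := h2 n (by omega) p1 hp1 (SWp_mono (by omega) (by omega) hSW) N y1 y2 hW
  have s3 := h3 n (by omega) p1 hp1 hp100 (SWp_mono (by omega) (by omega) hSW) N y1 y2 hW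
  obtain ⟨s4, -, -⟩ := h4 n (by omega) p1 N y1 y2 hW
  have s5 := h5 n (by omega) p1 hp1 hp100 N y1 y2 hW
  have s6 := h6 n (by omega) N y1 y2 hW
  have s7 := h7 n (by omega) N y1 y2 p1 hW
  have s9 := h9 n (by omega)
  have hhl := one_le_hl N
  obtain ⟨H, hH⟩ : ∃ H : ℝ, H = hl N * n / Real.log n := ⟨_, rfl⟩
  have hH0 : 0 < H := by rw [hH]; positivity
  obtain ⟨T, hT⟩ : ∃ T : ℝ, T = XX y1 y2 * VV (PP n N p1) (zz n) := ⟨_, rfl⟩
  rw [← hT] at s1 s2 s3 s4
  have hTH : c * H ≤ T := by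
    rw [hH]
    calc c * (hl N * n / Real.log n) = c * hl N * n / Real.log n := by ring
      _ ≤ T := s4
  -- the exceptional primes
  have e5 : C / p1 * (hl N * n / Real.log n) ≤ κ * c / 8 * H := by
    rw [← hH]
    apply mul_le_mul_of_nonneg_right _ hH0.le
    have hp0 : (0 : ℝ) < p1 := by exact_mod_cast hp1.pos
    rw [div_le_iff₀ hp0]
    have e : 8 * C / (κ * c) ≤ (p1 : ℝ) := hK0.trans (by exact_mod_cast hpK)
    rw [div_le_iff₀ (by positivity)] at e
    linarith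
  have e6 : (n : ℝ) ^ (9 / 10 : ℝ) ≤ κ * c / 8 * H := by
    rw [pow_one] at s9
    have e : (n : ℝ) / Real.log n ≤ H := by
      rw [hH]
      apply div_le_div_of_nonneg_right _ hL.le
      exact le_mul_of_one_le_left (by linarith) hhl
    have e' : (n : ℝ) ^ (9 / 10 : ℝ) ≤ κ * c / 8 * (n / Real.log n) := by
      have e1 : (n : ℝ) = (n : ℝ) ^ (9 / 10 : ℝ) * (n : ℝ) ^ (1 / 10 : ℝ) := by
        rw [← Real.rpow_add (by linarith)]
        norm_num
      have e2 : (n : ℝ) ^ (9 / 10 : ℝ) * (8 / (κ * c) * Real.log n) ≤ n := by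
        calc (n : ℝ) ^ (9 / 10 : ℝ) * (8 / (κ * c) * Real.log n)
            ≤ (n : ℝ) ^ (9 / 10 : ℝ) * (n : ℝ) ^ (1 / 10 : ℝ) :=
              mul_le_mul_of_nonneg_left s9 (by positivity)
          _ = n := e1.symm
      have e3 : (n : ℝ) ^ (9 / 10 : ℝ) =
          κ * c / 8 * (((n : ℝ) ^ (9 / 10 : ℝ) * (8 / (κ * c) * Real.log n)) / Real.log n) := by
        field_simp
      rw [e3]
      apply mul_le_mul_of_nonneg_left _ (by positivity)
      exact div_le_div_of_nonneg_right e2 hL.le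
    exact e'.trans (mul_le_mul_of_nonneg_left e (by positivity))
  -- the weighted sum
  have hlow : κ / 2 * T ≤ sift (Sq y1 y2) lg (fun p => Nat.dist N p) (PP n N p1) (zz n) -
      1 / 2 * ∑ q ∈ QQ n N p1, sift ((Sq y1 y2).filter (fun p => q ∣ Nat.dist N p)) lg
        (fun p => Nat.dist N p) (PP n N p1) (zz n) -
      1 / 2 * ∑ p ∈ (Sq y1 y2).filter (fun p => Tri n (Nat.dist N p)), lg p := by
    have e1 : κ / 2 * T = T * (AA * Real.log 3 / 4 - κ / 4) -
        1 / 2 * (T * (AA / 4 * Real.log 6 + κ / 4)) - 1 / 2 * (T * (AA / 4 * (3 / 8) + κ / 4)) := by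
      have : T * (AA * Real.log 3 / 4 - κ / 4) -
        1 / 2 * (T * (AA / 4 * Real.log 6 + κ / 4)) - 1 / 2 * (T * (AA / 4 * (3 / 8) + κ / 4)) =
        T * (AA / 8 * (2 * Real.log 3 - Real.log 6 - 3 / 8)) - T * (κ / 2) := by ring
      rw [this, ← hκ]
      ring
    rw [e1]
    linarith
  have hfin : κ * c / 4 * H ≤ Real.log n * ((Good n N y1 y2).card : ℝ) := by
    have e1 : κ * c / 2 * H ≤ κ / 2 * T := by
      have := mul_le_mul_of_nonneg_left hTH (by linarith : 0 ≤ κ / 2)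
      linarith
    have e2 := s7
    have e3 : κ * c / 2 * H ≤ Real.log n * ((Good n N y1 y2).card : ℝ) +
        κ * c / 8 * H + κ * c / 8 * H := by
      refine e1.trans (hlow.trans (e2.trans ?_))
      have := s6.trans e6
      have := s5.trans e5
      linarith
    linarith
  rw [hH] at hfin
  rw [div_le_iff₀ (by positivity)]
  calc κ * c / 4 * hl N * n = (κ * c / 4 * (hl N * n / Real.log n)) * Real.log n := by
        field_simp
    _ ≤ (Real.log n * ((Good n N y1 y2).card : ℝ)) * Real.log n :=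
        mul_le_mul_of_nonneg_right hfin hL.le
    _ = ((Good n N y1 y2).card : ℝ) * Real.log n ^ 2 := by ring

end Pool.Agent.Lib.H59C
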