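import Pool.Agent.Lib.H59C.PSI

/-!
# PSJ: dyadic summation
-/

open Finset

namespace Pool.Agent.Lib.H59C

open Pool.Agent.Lib.H68T (PC p0 e)

theorem PSJ_cover (R0 q : ℕ) (h : R0 < q) :
    ∀ n : ℕ, q ≤ 2 ^ n * R0 → ∃ j, j < n ∧ 2 ^ j * R0 < q ∧ q ≤ 2 ^ (j + 1) * R0 := by
  intro n
  induction n with
  | zero =>
    intro h1
    exfalso
    rw [pow_zero, one_mul] at h1
    omega
  | succ n ih =>
    intro h1
    by_cases h2 : q ≤ 2 ^ n * R0
    · obtain ⟨j, hj, h3⟩ := ih h2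
      exact ⟨j, by omega, h3⟩
    · exact ⟨n, by omega, by omega, h1⟩

theorem PSJ_mono {a b q R : ℕ} (h1 : 2 ^ a * R < q) (h2 : q ≤ 2 ^ (b + 1) * R) : a ≤ b := by
  by_contra hab
  have h3 : b + 1 ≤ a := by omega
  have h4 : 2 ^ (b + 1) ≤ 2 ^ a := Nat.pow_le_pow_right (by norm_num) h3
  have h5 := Nat.mul_le_mul_right R h4
  omega

theorem PSJ_log (Q y : ℕ) (hQ : Q ^ 2 ≤ y) (hy : 2 ≤ y) :
    ((Nat.log 2 Q + 1 : ℕ) : ℝ) ≤ 4 * Real.log y := by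
  have hl2 : (0.69 : ℝ) < Real.log 2 := by
    have := Real.log_two_gt_d9
    linarith
  have hly : Real.log 2 ≤ Real.log y :=
    Real.log_le_log (by norm_num) (by exact_mod_cast hy)
  push_cast
  rcases Nat.eq_zero_or_pos Q with h0 | h0
  · subst h0
    simp only [Nat.log_zero_right, Nat.cast_zero, zero_add]
    linarith
  · have h1 : 2 ^ (Nat.log 2 Q) ≤ Q := Nat.pow_log_le_self 2 (by omega)
    have h2 : (2 ^ (Nat.log 2 Q)) ^ 2 ≤ y := (Nat.pow_le_pow_left h1 2).trans hQ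
    have h3 : (((2 : ℝ) ^ (Nat.log 2 Q)) ^ 2) ≤ y := by exact_mod_cast h2
    have h4 := Real.log_le_log (by positivity) h3
    rw [Real.log_pow, Real.log_pow] at h4
    push_cast at h4
    have h5 : (0 : ℝ) ≤ (Nat.log 2 Q : ℝ) := by positivity
    nlinarith

open Classical in
/-- Sum of `psi_dyad` over `R = R0, 2 R0, 4 R0, ... < Q` (at most `2 log y` terms; in the last one
`R < Q` so `R² ≤ y`). -/
theorem psi_sum : ∃ C : ℝ, 0 < C ∧ ∀ (R0 Q y : ℕ), 1 ≤ R0 → Q ^ 2 ≤ y → 2 ≤ y →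
    ∑ p ∈ (PC Q).filter (fun p => R0 < p.1), 1 / (Nat.totient p.1 : ℝ) * ‖psi y p‖ ≤
      C * Real.log y ^ 7 * ((y : ℝ) / R0 + (y : ℝ) ^ (19 / 20 : ℝ) + Q * Real.sqrt y) := by
  obtain ⟨C, hC, h⟩ := psi_dyad
  refine ⟨4 * C, by positivity, ?_⟩
  intro R0 Q y hR0 hQ hy
  have hly : 0 < Real.log y := Real.log_pos (by exact_mod_cast (by omega : 1 < y))
  obtain ⟨n, hn⟩ : ∃ n, n = Nat.log 2 Q + 1 := ⟨_, rfl⟩
  obtain ⟨J, hJ⟩ : ∃ J : Finset ℕ, J = (range n).filter (fun j => 2 ^ j * R0 < Q) := ⟨_, rfl⟩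
  have hsub : (PC Q).filter (fun p => R0 < p.1) ⊆ J.biUnion (fun j => PD (2 ^ j * R0)) := by
    intro p hp
    rw [mem_filter, Pool.Agent.Lib.H68T.mem_PC] at hp
    obtain ⟨⟨h1, h2, h3⟩, h4⟩ := hp
    have h5 : Q < 2 ^ n := by
      rw [hn]
      exact Nat.lt_pow_succ_log_self (by norm_num) Q
    have h6 : 2 ^ n ≤ 2 ^ n * R0 := Nat.le_mul_of_pos_right _ hR0
    obtain ⟨j, hj, h7, h8⟩ := PSJ_cover R0 p.1 h4 n (by omega)
    rw [mem_biUnion]
    refine ⟨j, ?_, ?_⟩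
    · rw [hJ, mem_filter, mem_range]
      exact ⟨hj, by omega⟩
    · unfold PD
      rw [mem_filter, Pool.Agent.Lib.H68T.mem_PC]
      refine ⟨⟨h1, ?_, h3⟩, h7⟩
      rw [pow_succ] at h8
      nlinarith
  have hdis : ∀ i ∈ J, ∀ j ∈ J, i ≠ j → Disjoint (PD (2 ^ i * R0)) (PD (2 ^ j * R0)) := by
    intro i _ j _ hij
    rw [Finset.disjoint_left]
    intro p hp hq
    unfold PD at hp hq
    rw [mem_filter, Pool.Agent.Lib.H68T.mem_PC] at hp hq
    have h1 : i ≤ j := PSJ_mono hp.2 (by rw [pow_succ]; nlinarith [hq.1.2.1])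
    have h2 : j ≤ i := PSJ_mono hq.2 (by rw [pow_succ]; nlinarith [hp.1.2.1])
    omega
  have hB0 : 0 ≤ C * Real.log y ^ 6 *
      ((y : ℝ) / R0 + (y : ℝ) ^ (19 / 20 : ℝ) + Q * Real.sqrt y) := by positivity
  have hJn : (J.card : ℝ) ≤ 4 * Real.log y := by
    have h1 : J.card ≤ n := by
      rw [hJ]
      exact (Finset.card_filter_le _ _).trans (by rw [card_range])
    have h2 : (J.card : ℝ) ≤ (n : ℝ) := by exact_mod_cast h1
    rw [hn] at h2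
    exact h2.trans (PSJ_log Q y hQ hy)
  calc _ ≤ ∑ p ∈ J.biUnion (fun j => PD (2 ^ j * R0)),
          1 / (Nat.totient p.1 : ℝ) * ‖psi y p‖ := by
        apply sum_le_sum_of_subset_of_nonneg hsub
        intro p _ _
        positivity
    _ = ∑ j ∈ J, ∑ p ∈ PD (2 ^ j * R0), 1 / (Nat.totient p.1 : ℝ) * ‖psi y p‖ :=
        sum_biUnion (fun i hi j hj hij => hdis i hi j hj hij)
    _ ≤ ∑ _j ∈ J, C * Real.log y ^ 6 *
          ((y : ℝ) / R0 + (y : ℝ) ^ (19 / 20 : ℝ) + Q * Real.sqrt y) := by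
        apply sum_le_sum
        intro j hj
        rw [hJ, mem_filter, mem_range] at hj
        have h1 : 1 ≤ 2 ^ j := Nat.one_le_two_pow
        have h2 : R0 ≤ 2 ^ j * R0 := Nat.le_mul_of_pos_left _ (by omega)
        have h3 : (2 ^ j * R0) ^ 2 ≤ y := (Nat.pow_le_pow_left hj.2.le 2).trans hQ
        refine (h (2 ^ j * R0) y (by omega) h3 hy).trans ?_
        apply mul_le_mul_of_nonneg_left _ (by positivity)
        have h4 : (R0 : ℝ) ≤ ((2 ^ j * R0 : ℕ) : ℝ) := by exact_mod_cast h2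
        have h5 : ((2 ^ j * R0 : ℕ) : ℝ) ≤ Q := by exact_mod_cast hj.2.le
        have h6 : (0 : ℝ) < R0 := by exact_mod_cast hR0
        have h7 : (y : ℝ) / ((2 ^ j * R0 : ℕ) : ℝ) ≤ y / R0 := by
          gcongr
        have h8 : ((2 ^ j * R0 : ℕ) : ℝ) * Real.sqrt y ≤ Q * Real.sqrt y := by
          gcongr
        linarith
    _ = J.card * (C * Real.log y ^ 6 *
          ((y : ℝ) / R0 + (y : ℝ) ^ (19 / 20 : ℝ) + Q * Real.sqrt y)) := by
        rw [sum_const, nsmul_eq_mul]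
    _ ≤ 4 * Real.log y * (C * Real.log y ^ 6 *
          ((y : ℝ) / R0 + (y : ℝ) ^ (19 / 20 : ℝ) + Q * Real.sqrt y)) :=
        mul_le_mul_of_nonneg_right hJn hB0
    _ = _ := by ring

end Pool.Agent.Lib.H59C
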