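import Pool.Agent.Lib.H59C.BV1
import Pool.Agent.Lib.H59C.PSJ

/-!
# BV2: the theorem of Bombieri and Vinogradov
-/

open Finset

namespace Pool.Agent.Lib.H59C

open Pool.Agent.Lib.H68T (PC p0 e)

/-- sizes of logarithms -/
theorem bv2_large (K : ℝ) (m : ℕ) : ∃ n0 : ℕ, ∀ n : ℕ, n0 ≤ n →
    K ≤ Real.log n ∧ K * Real.log n ^ m ≤ (n : ℝ) ^ (1 / 20 : ℝ) := by
  have h1 : Filter.Tendsto (fun n : ℕ => Real.log (n : ℝ)) Filter.atTop Filter.atTop :=
    Real.tendsto_log_atTop.comp tendsto_natCast_atTop_atTop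
  have h2 := (isLittleO_log_rpow_rpow_atTop (m : ℝ) (by norm_num : (0 : ℝ) < 1 / 20)).def
    (by positivity : 0 < 1 / (|K| + 1))
  have h3 := tendsto_natCast_atTop_atTop (R := ℝ) |>.eventually h2
  have h4 := (h1.eventually_ge_atTop (max K 0)).and (h3.and (Filter.eventually_ge_atTop 1))
  obtain ⟨n0, hn0⟩ := Filter.eventually_atTop.1 h4
  refine ⟨n0, fun n hn => ?_⟩
  obtain ⟨g1, g2, g3⟩ := hn0 n hn
  have hL : 0 ≤ Real.log n := (le_max_right _ _).trans g1
  refine ⟨(le_max_left _ _).trans g1, ?_⟩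
  rw [Real.rpow_natCast, Real.norm_of_nonneg (by positivity), Real.norm_of_nonneg (by positivity)]
    at g2
  have h5 : |K| * (1 / (|K| + 1) * (n : ℝ) ^ (1 / 20 : ℝ)) ≤ (n : ℝ) ^ (1 / 20 : ℝ) := by
    have h6 : |K| * (1 / (|K| + 1)) ≤ 1 := by
      rw [mul_one_div, div_le_one (by positivity)]
      linarith [abs_nonneg K]
    rw [← mul_assoc]
    calc |K| * (1 / (|K| + 1)) * (n : ℝ) ^ (1 / 20 : ℝ) ≤ 1 * (n : ℝ) ^ (1 / 20 : ℝ) :=
          mul_le_mul_of_nonneg_right h6 (by positivity)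
      _ = _ := one_mul _
  calc K * Real.log n ^ m ≤ |K| * Real.log n ^ m :=
        mul_le_mul_of_nonneg_right (le_abs_self K) (by positivity)
    _ ≤ |K| * (1 / (|K| + 1) * (n : ℝ) ^ (1 / 20 : ℝ)) :=
        mul_le_mul_of_nonneg_left g2 (abs_nonneg K)
    _ ≤ _ := h5

/-- the numbers in the main case -/
theorem bv2_num (A : ℕ) {C₁ C₂ C₃ K L s : ℝ} (hC₁ : 0 < C₁) (hC₂ : 0 < C₂) (hC₃ : 0 < C₃)
    (hK : K = 10240 * (C₁ * C₃ + C₁ + C₂ + 1)) (hL : K ≤ L) (hs : K * L ^ (A + 12) ≤ s) :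
    C₁ * L * (8 * s ^ 20 / L ^ (A + 10) + C₃ * (2 * L) ^ 7 * (16 * s ^ 20 / L ^ (A + 10) +
      8 * s ^ 19 + 3 * s ^ 20 / L ^ (A + 12))) +
      C₂ * (2 * L) ^ 2 * (3 * s ^ 20 / L ^ (A + 12)) ≤ s ^ 20 / L ^ A ∧
    2 * C₁ * (s ^ 20 / L ^ (A + 4)) * L ^ 2 + s ^ 10 * L ≤ s ^ 20 / L ^ A := by
  have h13 : 0 < C₁ * C₃ := by positivity
  have hK1 : 10240 ≤ K := by rw [hK]; nlinarith
  have hK0 : 0 < K := by linarith
  have hL0 : 0 < L := by linarith
  have hL1 : 1 ≤ L := by linarith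
  have hs1 : 1 ≤ s := by
    refine le_trans ?_ hs
    have : 1 ≤ L ^ (A + 12) := one_le_pow₀ hL1
    nlinarith
  have hs0 : 0 < s := by linarith
  obtain ⟨P, hP⟩ : ∃ P : ℝ, P = s ^ 20 / L ^ A := ⟨_, rfl⟩
  have hP0 : 0 < P := by rw [hP]; positivity
  have hdiv : ∀ j : ℕ, s ^ 20 / L ^ (A + j) = P * (1 / L) ^ j := by
    intro j
    rw [hP, pow_add, one_div, inv_pow]
    field_simp
  have hu : 1 / L ≤ 1 / K := one_div_le_one_div_of_le hK0 hL
  have hu0 : 0 < 1 / L := by positivity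
  have hu1 : 1 / L ≤ 1 := by rw [div_le_one hL0]; exact hL1
  have hpow : ∀ j : ℕ, 1 ≤ j → (1 / L) ^ j ≤ 1 / K := by
    intro j hj
    calc (1 / L) ^ j ≤ (1 / L) ^ 1 := pow_le_pow_of_le_one hu0.le hu1 hj
      _ = 1 / L := pow_one _
      _ ≤ 1 / K := hu
  have hs19 : s ^ 19 * L ^ 12 ≤ P * (1 / K) := by
    have e1 : P = s ^ 19 * s / L ^ A := by rw [hP, ← pow_succ]
    rw [e1, mul_one_div, le_div_iff₀ hK0, le_div_iff₀ (by positivity)]
    have e2 : s ^ 19 * L ^ 12 * K * L ^ A = s ^ 19 * (K * L ^ (A + 12)) := by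
      rw [pow_add]
      ring
    rw [e2]
    exact mul_le_mul_of_nonneg_left hs (by positivity)
  have hPK : P / K * K = P := by field_simp
  constructor
  · have e1 : 8 * s ^ 20 / L ^ (A + 10) = 8 * (P * (1 / L) ^ 10) := by rw [mul_div_assoc, hdiv]
    have e2 : 16 * s ^ 20 / L ^ (A + 10) = 16 * (P * (1 / L) ^ 10) := by rw [mul_div_assoc, hdiv]
    have e3 : 3 * s ^ 20 / L ^ (A + 12) = 3 * (P * (1 / L) ^ 12) := by rw [mul_div_assoc, hdiv]
    rw [e1, e2, e3, ← hP]
    have e4 : C₁ * L * (8 * (P * (1 / L) ^ 10) + C₃ * (2 * L) ^ 7 * (16 * (P * (1 / L) ^ 10) +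
        8 * s ^ 19 + 3 * (P * (1 / L) ^ 12))) + C₂ * (2 * L) ^ 2 * (3 * (P * (1 / L) ^ 12)) =
        8 * C₁ * P * (1 / L) ^ 9 + 2048 * (C₁ * C₃) * P * (1 / L) ^ 2 +
        1024 * (C₁ * C₃) * (s ^ 19 * L ^ 8) + 384 * (C₁ * C₃) * P * (1 / L) ^ 4 +
        12 * C₂ * P * (1 / L) ^ 10 := by
      field_simp
      ring
    rw [e4]
    have t1 : 8 * C₁ * P * (1 / L) ^ 9 ≤ 8 * C₁ * P * (1 / K) :=
      mul_le_mul_of_nonneg_left (hpow 9 (by norm_num)) (by positivity)
    have t2 : 2048 * (C₁ * C₃) * P * (1 / L) ^ 2 ≤ 2048 * (C₁ * C₃) * P * (1 / K) :=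
      mul_le_mul_of_nonneg_left (hpow 2 (by norm_num)) (by positivity)
    have t3 : 1024 * (C₁ * C₃) * (s ^ 19 * L ^ 8) ≤ 1024 * (C₁ * C₃) * (P * (1 / K)) := by
      apply mul_le_mul_of_nonneg_left _ (by positivity)
      refine le_trans ?_ hs19
      apply mul_le_mul_of_nonneg_left _ (by positivity)
      exact pow_le_pow_right₀ hL1 (by norm_num)
    have t4 : 384 * (C₁ * C₃) * P * (1 / L) ^ 4 ≤ 384 * (C₁ * C₃) * P * (1 / K) :=
      mul_le_mul_of_nonneg_left (hpow 4 (by norm_num)) (by positivity)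
    have t5 : 12 * C₂ * P * (1 / L) ^ 10 ≤ 12 * C₂ * P * (1 / K) :=
      mul_le_mul_of_nonneg_left (hpow 10 (by norm_num)) (by positivity)
    have t6 : 8 * C₁ * P * (1 / K) + 2048 * (C₁ * C₃) * P * (1 / K) +
        1024 * (C₁ * C₃) * (P * (1 / K)) + 384 * (C₁ * C₃) * P * (1 / K) +
        12 * C₂ * P * (1 / K) = P / K * (8 * C₁ + 3456 * (C₁ * C₃) + 12 * C₂) := by
      field_simp
      ring
    have t7 : P / K * (8 * C₁ + 3456 * (C₁ * C₃) + 12 * C₂) ≤ P / K * K := by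
      apply mul_le_mul_of_nonneg_left _ (by positivity)
      rw [hK]
      nlinarith
    linarith
  · rw [hdiv, ← hP]
    have e1 : 2 * C₁ * (P * (1 / L) ^ 4) * L ^ 2 = 2 * C₁ * P * (1 / L) ^ 2 := by
      field_simp
    rw [e1]
    have t1 : 2 * C₁ * P * (1 / L) ^ 2 ≤ 2 * C₁ * P * (1 / K) :=
      mul_le_mul_of_nonneg_left (hpow 2 (by norm_num)) (by positivity)
    have t2 : s ^ 10 * L ≤ P * (1 / K) := by
      refine le_trans ?_ hs19
      apply mul_le_mul
      · exact pow_le_pow_right₀ hs1 (by norm_num)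
      · calc L = L ^ 1 := (pow_one L).symm
          _ ≤ L ^ 12 := pow_le_pow_right₀ hL1 (by norm_num)
      · positivity
      · positivity
    have t3 : 2 * C₁ * P * (1 / K) + P * (1 / K) = P / K * (2 * C₁ + 1) := by
      field_simp
    have t4 : P / K * (2 * C₁ + 1) ≤ P / K * K := by
      apply mul_le_mul_of_nonneg_left _ (by positivity)
      rw [hK]
      nlinarith
    linarith

/-- at most `φ(r)` primitive characters for each modulus -/
theorem bv2_count (R : ℕ) : ∑ p ∈ PC R, 1 / (Nat.totient p.1 : ℝ) ≤ R := by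
  classical
  have hmaps : ∀ p ∈ PC R, p.1 ∈ Icc 1 R := by
    intro p hp
    have := H68T.mem_PC.mp hp
    rw [mem_Icc]
    exact ⟨this.1, this.2.1⟩
  rw [← sum_fiberwise_of_maps_to hmaps]
  have key : ∀ r ∈ Icc 1 R, ∑ p ∈ (PC R).filter (fun p => p.1 = r),
      1 / (Nat.totient p.1 : ℝ) ≤ 1 := by
    intro r hr
    rw [mem_Icc] at hr
    have hne : NeZero r := ⟨by omega⟩
    have hfin : Fintype (DirichletCharacter ℂ r) := Fintype.ofFinite _
    have h1 : ((PC R).filter (fun p => p.1 = r)) ⊆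
        (univ : Finset (DirichletCharacter ℂ r)).map (Function.Embedding.sigmaMk r) := by
      intro p hp
      rw [mem_filter] at hp
      obtain ⟨-, hp⟩ := hp
      obtain ⟨r', ψ⟩ := p
      subst hp
      simp
    have h2 := card_le_card h1
    rw [card_map, card_univ] at h2
    have h3 := DirichletCharacter.card_eq_totient_of_hasEnoughRootsOfUnity ℂ r
    rw [Nat.card_eq_fintype_card] at h3
    rw [h3] at h2
    have h4 : (0 : ℝ) < Nat.totient r := by exact_mod_cast Nat.totient_pos.2 (by omega)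
    have h5 : ∑ p ∈ (PC R).filter (fun p => p.1 = r), 1 / (Nat.totient p.1 : ℝ) =
        (((PC R).filter (fun p => p.1 = r)).card : ℝ) * (1 / (Nat.totient r : ℝ)) := by
      rw [sum_congr rfl (g := fun _ => 1 / (Nat.totient r : ℝ)), sum_const, nsmul_eq_mul]
      intro p hp
      rw [(mem_filter.1 hp).2]
    rw [h5, mul_one_div, div_le_one h4]
    exact_mod_cast h2
  refine (sum_le_sum key).trans ?_
  rw [sum_const, Nat.card_Icc, nsmul_eq_mul]
  simp

/-- the number of integers in a progression -/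
theorem bv2_card (y d a : ℕ) (hd : 1 ≤ d) :
    (((Icc 1 y).filter fun q => q ≡ a [MOD d]).card : ℝ) ≤ y / d + 1 := by
  have h1 : Icc 1 y = Ioc 0 y := by ext x; simp [Nat.succ_le_iff]
  have h2 := Nat.Ioc_filter_modEq_card 0 y (r := d) (by omega) a
  rw [h1]
  have h3 : (⌊((y : ℚ) - (a : ℚ)) / (d : ℚ)⌋ : ℚ) ≤ ((y : ℚ) - a) / d := Int.floor_le _
  have h4 : (((0 : ℕ) : ℚ) - (a : ℚ)) / (d : ℚ) < ⌊(((0 : ℕ) : ℚ) - (a : ℚ)) / (d : ℚ)⌋ + 1 :=
    Int.lt_floor_add_one _
  have hd' : (0 : ℚ) < d := by exact_mod_cast hd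
  have h5 : (((Ioc 0 y).filter fun q => q ≡ a [MOD d]).card : ℚ) ≤ y / d + 1 := by
    have h6 : (((Ioc 0 y).filter fun q => q ≡ a [MOD d]).card : ℚ) =
        ((((Ioc 0 y).filter fun q => q ≡ a [MOD d]).card : ℤ) : ℚ) := by push_cast; rfl
    rw [h6, h2, Int.cast_max]
    apply max_le
    · push_cast at h4 ⊢
      have h7 : ((y : ℚ) - a) / d = y / d - a / d := sub_div _ _ _
      have h8 : ((0 : ℚ) - a) / d = - (a / d) := by rw [zero_sub, neg_div]
      rw [h8] at h4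
      rw [h8]
      linarith
    · push_cast
      positivity
  have h9 := (Rat.cast_le (K := ℝ)).2 h5
  push_cast at h9
  exact h9

theorem bv2_thp_nonneg (y d a : ℕ) : 0 ≤ thp y d a := by
  apply sum_nonneg
  intro q hq
  rw [mem_filter, mem_Icc] at hq
  exact Real.log_natCast_nonneg q

theorem bv2_th_nonneg (y : ℕ) : 0 ≤ th y := by
  apply sum_nonneg
  intro q hq
  exact Real.log_natCast_nonneg q

theorem bv2_th_le (y : ℕ) : th y ≤ y * Real.log y := by
  have h1 : ∀ q ∈ (Icc 1 y).filter Nat.Prime, Real.log q ≤ Real.log y := by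
    intro q hq
    rw [mem_filter, mem_Icc] at hq
    exact Real.log_le_log (by exact_mod_cast hq.1.1) (by exact_mod_cast hq.1.2)
  refine (sum_le_sum h1).trans ?_
  rw [sum_const, nsmul_eq_mul]
  apply mul_le_mul_of_nonneg_right _ (Real.log_natCast_nonneg y)
  have h2 : ((Icc 1 y).filter Nat.Prime).card ≤ y := by
    refine (card_filter_le _ _).trans ?_
    rw [Nat.card_Icc]
    omega
  exact_mod_cast h2

theorem bv2_thp_le (y d a : ℕ) (hd : 1 ≤ d) : thp y d a ≤ (y / d + 1) * Real.log y := by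
  have h1 : ∀ q ∈ (Icc 1 y).filter (fun q => q.Prime ∧ q ≡ a [MOD d]),
      Real.log q ≤ Real.log y := by
    intro q hq
    rw [mem_filter, mem_Icc] at hq
    exact Real.log_le_log (by exact_mod_cast hq.1.1) (by exact_mod_cast hq.1.2)
  refine (sum_le_sum h1).trans ?_
  rw [sum_const, nsmul_eq_mul]
  apply mul_le_mul_of_nonneg_right _ (Real.log_natCast_nonneg y)
  refine le_trans ?_ (bv2_card y d a hd)
  have h2 : ((Icc 1 y).filter (fun q => q.Prime ∧ q ≡ a [MOD d])).card ≤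
      ((Icc 1 y).filter fun q => q ≡ a [MOD d]).card :=
    card_le_card (monotone_filter_right _ fun q _ hq => hq.2)
  exact_mod_cast h2

/-- the trivial bound -/
theorem bv2_triv (y d a : ℕ) (hd : 1 ≤ d) :
    |thp y d a - th y / (Nat.totient d : ℝ)| ≤
      2 * (y * Real.log y) * (1 / (Nat.totient d : ℝ)) + Real.log y := by
  have h1 := bv2_thp_le y d a hd
  have h2 := bv2_th_le y
  have h3 := bv2_thp_nonneg y d a
  have h4 := bv2_th_nonneg y
  have h5 : (0 : ℝ) < Nat.totient d := by exact_mod_cast Nat.totient_pos.2 (by omega)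
  have h6 : (Nat.totient d : ℝ) ≤ d := by exact_mod_cast Nat.totient_le d
  have hl : 0 ≤ Real.log y := Real.log_natCast_nonneg y
  have h7 : th y / (Nat.totient d : ℝ) ≤ (y * Real.log y) * (1 / (Nat.totient d : ℝ)) := by
    rw [mul_one_div]
    exact div_le_div_of_nonneg_right h2 h5.le
  have h8 : ((y : ℝ) / d + 1) * Real.log y ≤
      (y * Real.log y) * (1 / (Nat.totient d : ℝ)) + Real.log y := by
    have h9 : (y : ℝ) / d ≤ y / (Nat.totient d : ℝ) :=
      div_le_div_of_nonneg_left (by positivity) h5 h6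
    have h10 : (y : ℝ) / d * Real.log y ≤ y / (Nat.totient d : ℝ) * Real.log y :=
      mul_le_mul_of_nonneg_right h9 hl
    have h11 : (y * Real.log y) * (1 / (Nat.totient d : ℝ)) =
        y / (Nat.totient d : ℝ) * Real.log y := by ring
    rw [h11]
    linarith
  have h12 : 0 ≤ th y / (Nat.totient d : ℝ) := by positivity
  rw [abs_le]
  constructor
  · have : 0 ≤ (y * Real.log y) * (1 / (Nat.totient d : ℝ)) := by positivity
    linarith
  · have : 0 ≤ (y * Real.log y) * (1 / (Nat.totient d : ℝ)) := by positivity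
    linarith

open Classical in
/-- **Bombieri-Vinogradov**, moduli not divisible by `p1`, one class.

Proof. `D = DD n B`, `L = log n`. If `y ≤ n/L^(A+4)`: trivial bound `thp y d a ≤ (y/d + 1) log y`,
`th y ≤ 2 y`, so (`sum_inv_totient`) the sum is `≤ C (y L² + D L)`, fine. Otherwise `D ≤ y`: `prog_le`,
`exchange` with `F k p = ‖psi y p‖`, `sum_inv_totient` (a factor `C L`), and split the conductors at
`R0 = ⌊L^(A + 10)⌋`. Conductors `≤ R0`: `SWp A' n p1` with `A' = 2A + 20` gives at most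
`∑_{r ≤ R0} φ(r)/φ(r) · y/L^A' ≤ 8 n L^(-A-10)` (at most `φ(r)` primitive characters mod `r`). Conductors
`> R0`: `psi_sum` with `Q = D` (`D² ≤ n/L^(2B) ≤ y` if `2B ≥ A + 4`):
`C L^7 (8 n/R0 + (8n)^(19/20) + 3 D √n)`. The error `C √y L²` of `prog_le` contributes at most
`3 C D √n (2L)²`. Take `B = A + 12`. -/
theorem bv (A : ℕ) : ∃ A' B n0 : ℕ, ∀ n : ℕ, n0 ≤ n → ∀ p1 : ℕ, SWp A' n p1 →
    ∀ a y : ℕ, y ≤ 8 * n →
    ∑ d ∈ (Icc 1 (DD n B)).filter (fun d => a.Coprime d ∧ ¬ p1 ∣ d),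
      |thp y d a - th y / (Nat.totient d : ℝ)| ≤ n / Real.log n ^ A := by
  obtain ⟨C₁, hC₁, h1⟩ := sum_inv_totient
  obtain ⟨C₂, hC₂, h2⟩ := prog_le
  obtain ⟨C₃, hC₃, h3⟩ := psi_sum
  obtain ⟨K, hK⟩ : ∃ K : ℝ, K = 10240 * (C₁ * C₃ + C₁ + C₂ + 1) := ⟨_, rfl⟩
  have hK1 : 10240 ≤ K := by
    have : 0 < C₁ * C₃ := by positivity
    rw [hK]
    nlinarith
  obtain ⟨n0, hn0⟩ := bv2_large K (A + 12)
  refine ⟨2 * A + 20, A + 12, max n0 8, fun n hn p1 hSW a y hy => ?_⟩
  obtain ⟨hL, hLs⟩ := hn0 n ((le_max_left _ _).trans hn)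
  have hn8 : 8 ≤ n := (le_max_right _ _).trans hn
  have hnR : (8 : ℝ) ≤ n := by exact_mod_cast hn8
  have hn0' : (0 : ℝ) < n := by linarith
  obtain ⟨L, hLdef⟩ : ∃ L : ℝ, L = Real.log n := ⟨_, rfl⟩
  obtain ⟨s, hsdef⟩ : ∃ s : ℝ, s = (n : ℝ) ^ (1 / 20 : ℝ) := ⟨_, rfl⟩
  rw [← hLdef] at hL hLs ⊢
  rw [← hsdef] at hLs
  have hL1 : 1 ≤ L := by linarith
  have hL0 : 0 < L := by linarith
  have hs20 : s ^ 20 = n := by
    rw [hsdef, ← Real.rpow_natCast, ← Real.rpow_mul hn0'.le]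
    norm_num
  have hLpow : ∀ j : ℕ, j ≤ A + 12 → L ^ j ≤ s := by
    intro j hj
    calc L ^ j ≤ L ^ (A + 12) := pow_le_pow_right₀ hL1 hj
      _ = 1 * L ^ (A + 12) := (one_mul _).symm
      _ ≤ K * L ^ (A + 12) := mul_le_mul_of_nonneg_right (by linarith) (by positivity)
      _ ≤ s := hLs
  have hs1 : 1 ≤ s := by
    have := hLpow 0 (by omega)
    simpa using this
  have hs0 : 0 < s := by linarith
  have hsqrt : Real.sqrt n = s ^ 10 := by
    rw [← hs20, show (20 : ℕ) = 10 * 2 by norm_num, pow_mul]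
    exact Real.sqrt_sq (by positivity)
  obtain ⟨hnum1, hnum2⟩ := bv2_num A hC₁ hC₂ hC₃ hK hL hLs
  rw [hs20] at hnum1 hnum2
  -- the level
  obtain ⟨D, hD⟩ : ∃ D : ℕ, D = DD n (A + 12) := ⟨_, rfl⟩
  rw [← hD]
  have hDle : (D : ℝ) ≤ s ^ 10 / L ^ (A + 12) := by
    rw [hD, DD, ← hLdef, hsqrt]
    exact Nat.floor_le (by positivity)
  have hDs : (D : ℝ) ≤ s ^ 10 := by
    refine hDle.trans ?_
    rw [div_le_iff₀ (by positivity)]
    have : 1 ≤ L ^ (A + 12) := one_le_pow₀ hL1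
    have h5 : 0 < s ^ 10 := by positivity
    nlinarith
  have hD2 : 2 ≤ D := by
    rw [hD, DD, ← hLdef, hsqrt]
    apply Nat.le_floor
    push_cast
    rw [le_div_iff₀ (by positivity)]
    have e1 : 2 * L ^ (A + 12) ≤ K * L ^ (A + 12) :=
      mul_le_mul_of_nonneg_right (by linarith) (by positivity)
    calc 2 * L ^ (A + 12) ≤ s := e1.trans hLs
      _ = s ^ 1 := (pow_one s).symm
      _ ≤ s ^ 10 := pow_le_pow_right₀ hs1 (by norm_num)
  have hDR : (2 : ℝ) ≤ D := by exact_mod_cast hD2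
  have hlogD : Real.log D ≤ L := by
    rw [hLdef]
    apply Real.log_le_log (by linarith)
    refine hDs.trans ?_
    rw [← hs20]
    exact pow_le_pow_right₀ hs1 (by norm_num)
  have hlogD0 : 0 ≤ Real.log D := Real.log_nonneg (by linarith)
  have hphi : ∑ k ∈ Icc 1 D, 1 / (Nat.totient k : ℝ) ≤ C₁ * L :=
    (h1 D hD2).trans (mul_le_mul_of_nonneg_left hlogD hC₁.le)
  have hsub : ∑ d ∈ (Icc 1 D).filter (fun d => a.Coprime d ∧ ¬ p1 ∣ d), 1 / (Nat.totient d : ℝ) ≤
      C₁ * L := by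
    refine le_trans ?_ hphi
    exact sum_le_sum_of_subset_of_nonneg (filter_subset _ _) fun _ _ _ => by positivity
  have hcard : (((Icc 1 D).filter (fun d => a.Coprime d ∧ ¬ p1 ∣ d)).card : ℝ) ≤ D := by
    have : ((Icc 1 D).filter (fun d => a.Coprime d ∧ ¬ p1 ∣ d)).card ≤ D := by
      refine (card_filter_le _ _).trans ?_
      rw [Nat.card_Icc]
      omega
    exact_mod_cast this
  have hyR : (y : ℝ) ≤ 8 * n := by exact_mod_cast hy
  by_cases hcase : (y : ℝ) ≤ n / L ^ (A + 4)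
  · -- small y
    have hyn : (y : ℝ) ≤ n := by
      refine hcase.trans ?_
      rw [div_le_iff₀ (by positivity)]
      have : 1 ≤ L ^ (A + 4) := one_le_pow₀ hL1
      nlinarith
    have hlogy : Real.log y ≤ L := by
      rcases Nat.eq_zero_or_pos y with h0 | h0
      · rw [h0]
        simp [hL0.le]
      · rw [hLdef]
        exact Real.log_le_log (by exact_mod_cast h0) hyn
    have hly0 : 0 ≤ Real.log y := Real.log_natCast_nonneg y
    have e1 : ∑ d ∈ (Icc 1 D).filter (fun d => a.Coprime d ∧ ¬ p1 ∣ d),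
        |thp y d a - th y / (Nat.totient d : ℝ)| ≤
        ∑ d ∈ (Icc 1 D).filter (fun d => a.Coprime d ∧ ¬ p1 ∣ d),
          (2 * (y * Real.log y) * (1 / (Nat.totient d : ℝ)) + Real.log y) := by
      apply sum_le_sum
      intro d hd
      exact bv2_triv y d a (mem_Icc.1 (mem_filter.1 hd).1).1
    refine e1.trans ?_
    rw [sum_add_distrib, ← mul_sum, sum_const, nsmul_eq_mul]
    have e2 : 2 * (y * Real.log y) * ∑ d ∈ (Icc 1 D).filter (fun d => a.Coprime d ∧ ¬ p1 ∣ d),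
        1 / (Nat.totient d : ℝ) ≤ 2 * C₁ * (n / L ^ (A + 4)) * L ^ 2 := by
      calc 2 * (y * Real.log y) * ∑ d ∈ (Icc 1 D).filter (fun d => a.Coprime d ∧ ¬ p1 ∣ d),
          1 / (Nat.totient d : ℝ) ≤ 2 * (y * Real.log y) * (C₁ * L) :=
            mul_le_mul_of_nonneg_left hsub (by positivity)
        _ ≤ 2 * ((n / L ^ (A + 4)) * L) * (C₁ * L) := by
            apply mul_le_mul_of_nonneg_right _ (by positivity)
            apply mul_le_mul_of_nonneg_left _ (by norm_num)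
            exact mul_le_mul hcase hlogy hly0 (by positivity)
        _ = _ := by ring
    have e3 : (((Icc 1 D).filter (fun d => a.Coprime d ∧ ¬ p1 ∣ d)).card : ℝ) * Real.log y ≤
        s ^ 10 * L := mul_le_mul (hcard.trans hDs) hlogy hly0 (by positivity)
    linarith
  · -- large y
    push Not at hcase
    have hy19 : s ^ 19 < y := by
      refine lt_of_le_of_lt ?_ hcase
      rw [le_div_iff₀ (by positivity), ← hs20]
      calc s ^ 19 * L ^ (A + 4) ≤ s ^ 19 * s :=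
            mul_le_mul_of_nonneg_left (hLpow _ (by omega)) (by positivity)
        _ = s ^ 20 := by ring
    have hs2 : 2 ≤ s := by
      have : K * 1 ≤ K * L ^ (A + 12) :=
        mul_le_mul_of_nonneg_left (one_le_pow₀ hL1) (by linarith)
      linarith
    have hy2 : 2 ≤ y := by
      have : (2 : ℝ) ≤ y := by
        have e1 : s ^ 1 ≤ s ^ 19 := pow_le_pow_right₀ hs1 (by norm_num)
        rw [pow_one] at e1
        linarith
      exact_mod_cast this
    have hyR0 : (0 : ℝ) < y := lt_trans (by positivity) hy19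
    have hDy : D ≤ y := by
      have : (D : ℝ) ≤ y := by
        have e1 : s ^ 10 ≤ s ^ 19 := pow_le_pow_right₀ hs1 (by norm_num)
        linarith
      exact_mod_cast this
    have hDD : D ^ 2 ≤ y := by
      have e1 : (D : ℝ) ^ 2 ≤ n / L ^ (A + 4) := by
        calc (D : ℝ) ^ 2 ≤ (s ^ 10 / L ^ (A + 12)) ^ 2 :=
              pow_le_pow_left₀ (by positivity) hDle 2
          _ = s ^ 20 / (L ^ (A + 12)) ^ 2 := by rw [div_pow, ← pow_mul]
          _ ≤ s ^ 20 / L ^ (A + 4) := by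
              apply div_le_div_of_nonneg_left (by positivity) (by positivity)
              rw [← pow_mul]
              exact pow_le_pow_right₀ hL1 (by omega)
          _ = n / L ^ (A + 4) := by rw [hs20]
      have e2 : (D : ℝ) ^ 2 ≤ y := e1.trans hcase.le
      exact_mod_cast e2
    have hlogy : Real.log y ≤ 2 * L := by
      have e1 : Real.log y ≤ Real.log (8 * n) := Real.log_le_log hyR0 hyR
      rw [Real.log_mul (by norm_num) hn0'.ne', ← hLdef] at e1
      have e2 : Real.log 8 ≤ 8 := (Real.log_le_sub_one_of_pos (by norm_num)).trans (by norm_num)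
      linarith
    have hly0 : 0 ≤ Real.log y := Real.log_natCast_nonneg y
    -- the sum over the primitive characters
    obtain ⟨S, hS⟩ : ∃ S : ℝ, S = ∑ p ∈ (PC D).filter (fun p => p ≠ p0 ∧ ¬ p1 ∣ p.1),
      1 / (Nat.totient p.1 : ℝ) * ‖psi y p‖ := ⟨_, rfl⟩
    have hS0 : 0 ≤ S := by
      rw [hS]
      exact sum_nonneg fun _ _ => by positivity
    have hsqy : Real.sqrt y ≤ 3 * s ^ 10 := by
      rw [Real.sqrt_le_left (by positivity)]
      refine hyR.trans ?_
      rw [← hs20]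
      have e1 : (3 * s ^ 10) ^ 2 = 9 * s ^ 20 := by ring
      rw [e1]
      have : 0 < s ^ 20 := by positivity
      linarith
    have hmain : ∑ d ∈ (Icc 1 D).filter (fun d => a.Coprime d ∧ ¬ p1 ∣ d),
        |thp y d a - th y / (Nat.totient d : ℝ)| ≤
        C₁ * L * S + D * (C₂ * Real.sqrt y * Real.log y ^ 2) := by
      have e1 : ∑ d ∈ (Icc 1 D).filter (fun d => a.Coprime d ∧ ¬ p1 ∣ d),
          |thp y d a - th y / (Nat.totient d : ℝ)| ≤
          ∑ d ∈ (Icc 1 D).filter (fun d => a.Coprime d ∧ ¬ p1 ∣ d),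
          (1 / (Nat.totient d : ℝ) * ∑ p ∈ (PC d).filter (fun p => p ≠ p0 ∧ p.1 ∣ d),
            ‖psi y p‖ + C₂ * Real.sqrt y * Real.log y ^ 2) := by
        apply sum_le_sum
        intro d hd
        rw [mem_filter, mem_Icc] at hd
        exact h2 d a y hd.1.1 (hd.1.2.trans hDy) hd.2.1 hy2
      refine e1.trans ?_
      rw [sum_add_distrib, sum_const, nsmul_eq_mul]
      have e2 : ∑ d ∈ (Icc 1 D).filter (fun d => a.Coprime d ∧ ¬ p1 ∣ d),
          1 / (Nat.totient d : ℝ) * ∑ p ∈ (PC d).filter (fun p => p ≠ p0 ∧ p.1 ∣ d),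
            ‖psi y p‖ ≤ C₁ * L * S := by
        have e3 := exchange D p1 (fun _ p => ‖psi y p‖) (fun _ _ => norm_nonneg _)
        have e4 : ∑ d ∈ (Icc 1 D).filter (fun d => a.Coprime d ∧ ¬ p1 ∣ d),
            1 / (Nat.totient d : ℝ) * ∑ p ∈ (PC d).filter (fun p => p ≠ p0 ∧ p.1 ∣ d),
              ‖psi y p‖ ≤ ∑ d ∈ (Icc 1 D).filter (fun d => ¬ p1 ∣ d),
            1 / (Nat.totient d : ℝ) * ∑ p ∈ (PC d).filter (fun p => p ≠ p0 ∧ p.1 ∣ d),
              ‖psi y p‖ := by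
          apply sum_le_sum_of_subset_of_nonneg
          · exact monotone_filter_right _ fun d _ hd => hd.2
          · intro d _ _
            exact mul_nonneg (by positivity) (sum_nonneg fun _ _ => norm_nonneg _)
        refine e4.trans (e3.trans ?_)
        rw [← sum_mul, ← hS]
        exact mul_le_mul_of_nonneg_right hphi hS0
      have e5 : (((Icc 1 D).filter (fun d => a.Coprime d ∧ ¬ p1 ∣ d)).card : ℝ) *
          (C₂ * Real.sqrt y * Real.log y ^ 2) ≤ D * (C₂ * Real.sqrt y * Real.log y ^ 2) :=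
        mul_le_mul_of_nonneg_right hcard (by positivity)
      linarith
    -- splitting of S
    obtain ⟨R0, hR0⟩ : ∃ R0 : ℕ, R0 = ⌊L ^ (A + 10)⌋₊ := ⟨_, rfl⟩
    have hLp1 : 1 ≤ L ^ (A + 10) := one_le_pow₀ hL1
    have hR0le : (R0 : ℝ) ≤ L ^ (A + 10) := by
      rw [hR0]
      exact Nat.floor_le (by positivity)
    have hR01 : 1 ≤ R0 := by
      rw [hR0]
      exact Nat.le_floor (by simpa using hLp1)
    have hR0ge : L ^ (A + 10) / 2 ≤ R0 := by
      have e1 : L ^ (A + 10) < R0 + 1 := by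
        rw [hR0]
        exact Nat.lt_floor_add_one _
      have e2 : (1 : ℝ) ≤ R0 := by exact_mod_cast hR01
      linarith
    have hsmall : ∑ p ∈ ((PC D).filter (fun p => p ≠ p0 ∧ ¬ p1 ∣ p.1)).filter
        (fun p => ¬ R0 < p.1), 1 / (Nat.totient p.1 : ℝ) * ‖psi y p‖ ≤
        8 * n / L ^ (A + 10) := by
      have e1 : ∀ p ∈ ((PC D).filter (fun p => p ≠ p0 ∧ ¬ p1 ∣ p.1)).filter
          (fun p => ¬ R0 < p.1), 1 / (Nat.totient p.1 : ℝ) * ‖psi y p‖ ≤
          1 / (Nat.totient p.1 : ℝ) * (y / L ^ (2 * A + 20)) := by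
        intro p hp
        rw [mem_filter, mem_filter, not_lt] at hp
        apply mul_le_mul_of_nonneg_left _ (by positivity)
        have e2 := H68T.mem_PC.1 hp.1.1
        have e3 : p ∈ PC ⌊Real.log n ^ (2 * A + 20)⌋₊ := by
          refine H68T.mem_PC.2 ⟨e2.1, ?_, e2.2.2⟩
          rw [← hLdef]
          apply Nat.le_floor
          calc (p.1 : ℝ) ≤ R0 := by exact_mod_cast hp.2
            _ ≤ L ^ (A + 10) := hR0le
            _ ≤ L ^ (2 * A + 20) := pow_le_pow_right₀ hL1 (by omega)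
        have e4 := hSW p e3 hp.1.2.1 hp.1.2.2 y ?_ hy
        · rwa [← hLdef] at e4
        · have e5 : (n : ℝ) ^ (1 / 10 : ℝ) = s ^ 2 := by
            rw [hsdef, ← Real.rpow_natCast, ← Real.rpow_mul hn0'.le]
            norm_num
          rw [e5]
          have e6 : s ^ 2 ≤ s ^ 19 := pow_le_pow_right₀ hs1 (by norm_num)
          linarith
      refine (sum_le_sum e1).trans ?_
      rw [← sum_mul]
      have e2 : ∑ p ∈ ((PC D).filter (fun p => p ≠ p0 ∧ ¬ p1 ∣ p.1)).filter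
          (fun p => ¬ R0 < p.1), 1 / (Nat.totient p.1 : ℝ) ≤ L ^ (A + 10) := by
        refine le_trans ?_ ((bv2_count R0).trans hR0le)
        apply sum_le_sum_of_subset_of_nonneg
        · intro p hp
          rw [mem_filter, mem_filter, not_lt] at hp
          have e2 := H68T.mem_PC.1 hp.1.1
          exact H68T.mem_PC.2 ⟨e2.1, hp.2, e2.2.2⟩
        · intro _ _ _
          positivity
      calc (∑ p ∈ ((PC D).filter (fun p => p ≠ p0 ∧ ¬ p1 ∣ p.1)).filter
          (fun p => ¬ R0 < p.1), 1 / (Nat.totient p.1 : ℝ)) * (y / L ^ (2 * A + 20))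
          ≤ L ^ (A + 10) * (8 * n / L ^ (2 * A + 20)) :=
            mul_le_mul e2 (div_le_div_of_nonneg_right hyR (by positivity)) (by positivity)
              (by positivity)
        _ = 8 * n / L ^ (A + 10) := by
            rw [show 2 * A + 20 = (A + 10) + (A + 10) by ring, pow_add L (A + 10) (A + 10)]
            have h10 : L ^ (A + 10) ≠ 0 := by positivity
            rw [← mul_div_assoc, mul_comm (L ^ (A + 10)) (8 * (n : ℝ)),
              mul_div_mul_right _ _ h10]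
    have hlarge : ∑ p ∈ ((PC D).filter (fun p => p ≠ p0 ∧ ¬ p1 ∣ p.1)).filter
        (fun p => R0 < p.1), 1 / (Nat.totient p.1 : ℝ) * ‖psi y p‖ ≤
        C₃ * (2 * L) ^ 7 * (16 * n / L ^ (A + 10) + 8 * s ^ 19 + 3 * n / L ^ (A + 12)) := by
      have e1 := h3 R0 D y hR01 hDD hy2
      have e2 : ∑ p ∈ ((PC D).filter (fun p => p ≠ p0 ∧ ¬ p1 ∣ p.1)).filter
          (fun p => R0 < p.1), 1 / (Nat.totient p.1 : ℝ) * ‖psi y p‖ ≤
          ∑ p ∈ (PC D).filter (fun p => R0 < p.1), 1 / (Nat.totient p.1 : ℝ) * ‖psi y p‖ := by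
        apply sum_le_sum_of_subset_of_nonneg
        · intro p hp
          rw [mem_filter, mem_filter] at hp
          exact mem_filter.2 ⟨hp.1.1, hp.2⟩
        · intro _ _ _
          positivity
      refine e2.trans (e1.trans ?_)
      have hR0' : (0 : ℝ) < R0 := by exact_mod_cast hR01
      have e3 : (y : ℝ) / R0 ≤ 16 * n / L ^ (A + 10) := by
        calc (y : ℝ) / R0 ≤ (8 * n) / (L ^ (A + 10) / 2) :=
              div_le_div₀ (by positivity) hyR (by positivity) hR0ge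
          _ = 16 * n / L ^ (A + 10) := by rw [div_div_eq_mul_div]; ring
      have e4 : (y : ℝ) ^ (19 / 20 : ℝ) ≤ 8 * s ^ 19 := by
        calc (y : ℝ) ^ (19 / 20 : ℝ) ≤ (8 * n : ℝ) ^ (19 / 20 : ℝ) :=
              Real.rpow_le_rpow (by positivity) hyR (by norm_num)
          _ = (8 : ℝ) ^ (19 / 20 : ℝ) * (n : ℝ) ^ (19 / 20 : ℝ) :=
              Real.mul_rpow (by norm_num) hn0'.le
          _ ≤ 8 * s ^ 19 := by
              have e5 : (8 : ℝ) ^ (19 / 20 : ℝ) ≤ 8 := by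
                calc (8 : ℝ) ^ (19 / 20 : ℝ) ≤ (8 : ℝ) ^ (1 : ℝ) :=
                      Real.rpow_le_rpow_of_exponent_le (by norm_num) (by norm_num)
                  _ = 8 := Real.rpow_one _
              have e6 : (n : ℝ) ^ (19 / 20 : ℝ) = s ^ 19 := by
                rw [hsdef, ← Real.rpow_natCast, ← Real.rpow_mul hn0'.le]
                norm_num
              rw [e6]
              exact mul_le_mul_of_nonneg_right e5 (by positivity)
      have e7 : (D : ℝ) * Real.sqrt y ≤ 3 * n / L ^ (A + 12) := by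
        calc (D : ℝ) * Real.sqrt y ≤ (s ^ 10 / L ^ (A + 12)) * (3 * s ^ 10) :=
              mul_le_mul hDle hsqy (by positivity) (by positivity)
          _ = 3 * s ^ 20 / L ^ (A + 12) := by ring
          _ = 3 * n / L ^ (A + 12) := by rw [hs20]
      apply mul_le_mul _ (by linarith) (by positivity) (by positivity)
      apply mul_le_mul_of_nonneg_left _ hC₃.le
      exact pow_le_pow_left₀ hly0 hlogy 7
    have hSle : S ≤ 8 * n / L ^ (A + 10) +
        C₃ * (2 * L) ^ 7 * (16 * n / L ^ (A + 10) + 8 * s ^ 19 + 3 * n / L ^ (A + 12)) := by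
      rw [hS, ← sum_filter_add_sum_filter_not ((PC D).filter (fun p => p ≠ p0 ∧ ¬ p1 ∣ p.1))
        (fun p => R0 < p.1)]
      linarith
    have herr : (D : ℝ) * (C₂ * Real.sqrt y * Real.log y ^ 2) ≤
        C₂ * (2 * L) ^ 2 * (3 * n / L ^ (A + 12)) := by
      have e7 : (D : ℝ) * Real.sqrt y ≤ 3 * n / L ^ (A + 12) := by
        calc (D : ℝ) * Real.sqrt y ≤ (s ^ 10 / L ^ (A + 12)) * (3 * s ^ 10) :=
              mul_le_mul hDle hsqy (by positivity) (by positivity)
          _ = 3 * s ^ 20 / L ^ (A + 12) := by ring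
          _ = 3 * n / L ^ (A + 12) := by rw [hs20]
      have e8 : Real.log y ^ 2 ≤ (2 * L) ^ 2 := pow_le_pow_left₀ hly0 hlogy 2
      calc (D : ℝ) * (C₂ * Real.sqrt y * Real.log y ^ 2) =
          C₂ * Real.log y ^ 2 * (D * Real.sqrt y) := by ring
        _ ≤ C₂ * (2 * L) ^ 2 * (3 * n / L ^ (A + 12)) :=
            mul_le_mul (mul_le_mul_of_nonneg_left e8 hC₂.le) e7 (by positivity) (by positivity)
    have hfin : C₁ * L * S ≤ C₁ * L * (8 * n / L ^ (A + 10) +
        C₃ * (2 * L) ^ 7 * (16 * n / L ^ (A + 10) + 8 * s ^ 19 + 3 * n / L ^ (A + 12))) :=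
      mul_le_mul_of_nonneg_left hSle (by positivity)
    linarith

end Pool.Agent.Lib.H59C
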