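import Mathlib

/-!
# SEP: exact separation of variables
-/

open MeasureTheory FourierTransform

namespace Pool.Agent.Lib.H59C

theorem sep_ft_eq (a b : ℝ) (hab : a ≤ b) (c : ℂ) (t : ℝ) :
    𝓕 (Set.indicator (Set.Icc a b) (fun _ => c)) t =
      (∫ v in a..b, Complex.exp ((-(2 * Real.pi * t) * Complex.I) * v)) * c := by
  rw [Real.fourier_real_eq_integral_exp_smul]
  have h1 : ∀ v : ℝ, Complex.exp (((-2 * Real.pi * v * t : ℝ) : ℂ) * Complex.I) •
      Set.indicator (Set.Icc a b) (fun _ => c) v =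
      Set.indicator (Set.Icc a b) (fun v : ℝ =>
        Complex.exp ((-(2 * Real.pi * t) * Complex.I) * v) * c) v := by
    intro v
    by_cases hv : v ∈ Set.Icc a b
    · rw [Set.indicator_of_mem hv, Set.indicator_of_mem hv, smul_eq_mul]
      congr 2
      push_cast
      ring
    · rw [Set.indicator_of_notMem hv, Set.indicator_of_notMem hv, smul_zero]
  rw [integral_congr_ae (Filter.Eventually.of_forall h1), integral_indicator measurableSet_Icc,
    integral_Icc_eq_integral_Ioc, ← intervalIntegral.integral_of_le hab,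
    intervalIntegral.integral_mul_const]

theorem sep_norm_exp (t v : ℝ) : ‖Complex.exp ((-(2 * Real.pi * t) * Complex.I) * v)‖ = 1 := by
  rw [Complex.norm_exp]
  have : ((-(2 * Real.pi * t) * Complex.I) * v : ℂ).re = 0 := by simp
  rw [this, Real.exp_zero]

theorem sep_ft_le (a b : ℝ) (hab : a ≤ b) (c : ℂ) (t : ℝ) :
    ‖𝓕 (Set.indicator (Set.Icc a b) (fun _ => c)) t‖ ≤ (b - a) * ‖c‖ := by
  rw [sep_ft_eq a b hab, norm_mul]
  refine mul_le_mul_of_nonneg_right ?_ (norm_nonneg _)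
  have h := intervalIntegral.norm_integral_le_of_norm_le_const (a := a) (b := b) (C := 1)
    (f := fun v : ℝ => Complex.exp ((-(2 * Real.pi * t) * Complex.I) * v))
    (fun v _ => (sep_norm_exp t v).le)
  rwa [one_mul, abs_of_nonneg (by linarith)] at h

theorem sep_ft_le' (a b : ℝ) (hab : a ≤ b) (c : ℂ) {t : ℝ} (ht : t ≠ 0) :
    ‖𝓕 (Set.indicator (Set.Icc a b) (fun _ => c)) t‖ ≤ 1 / (Real.pi * |t|) * ‖c‖ := by
  rw [sep_ft_eq a b hab, norm_mul]
  refine mul_le_mul_of_nonneg_right ?_ (norm_nonneg _)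
  have hc : (-(2 * Real.pi * t) * Complex.I : ℂ) ≠ 0 := by
    apply mul_ne_zero _ Complex.I_ne_zero
    rw [neg_ne_zero]
    exact_mod_cast mul_ne_zero (mul_ne_zero two_ne_zero Real.pi_ne_zero) ht
  rw [integral_exp_mul_complex hc, norm_div]
  have h1 : ‖(-(2 * Real.pi * t) * Complex.I : ℂ)‖ = 2 * Real.pi * |t| := by
    rw [norm_mul, Complex.norm_I, mul_one, norm_neg]
    have : (2 * Real.pi * t : ℂ) = ((2 * Real.pi * t : ℝ) : ℂ) := by push_cast; ring
    rw [this, Complex.norm_real, Real.norm_eq_abs, abs_mul, abs_of_pos Real.two_pi_pos]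
  have h2 : ‖Complex.exp ((-(2 * Real.pi * t) * Complex.I) * b) -
      Complex.exp ((-(2 * Real.pi * t) * Complex.I) * a)‖ ≤ 2 := by
    refine (norm_sub_le _ _).trans ?_
    rw [sep_norm_exp, sep_norm_exp]
    norm_num
  have h3 : 0 < Real.pi * |t| := mul_pos Real.pi_pos (abs_pos.2 ht)
  rw [h1, div_le_div_iff₀ (by linarith) h3]
  nlinarith

/-- the trapezoid -/
theorem sep_conv (a b w : ℝ) (u : ℝ) :
    convolution (Set.indicator (Set.Icc a b) (fun _ => (1 : ℂ)))
      (Set.indicator (Set.Icc (-(w / 2)) (w / 2)) (fun _ => ((1 / w : ℝ) : ℂ)))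
      (ContinuousLinearMap.mul ℂ ℂ) volume u =
      ((max (min b (u + w / 2) - max a (u - w / 2)) 0 * (1 / w) : ℝ) : ℂ) := by
  rw [convolution_def]
  have h1 : ∀ t : ℝ, (ContinuousLinearMap.mul ℂ ℂ) (Set.indicator (Set.Icc a b) (fun _ => (1 : ℂ)) t)
      (Set.indicator (Set.Icc (-(w / 2)) (w / 2)) (fun _ => ((1 / w : ℝ) : ℂ)) (u - t)) =
      Set.indicator (Set.Icc (max a (u - w / 2)) (min b (u + w / 2)))
        (fun _ => ((1 / w : ℝ) : ℂ)) t := by
    intro t
    rw [ContinuousLinearMap.mul_apply']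
    by_cases h1 : t ∈ Set.Icc (max a (u - w / 2)) (min b (u + w / 2))
    · rw [Set.indicator_of_mem h1]
      rw [Set.mem_Icc, max_le_iff, le_min_iff] at h1
      rw [Set.indicator_of_mem (Set.mem_Icc.2 ⟨h1.1.1, h1.2.1⟩),
        Set.indicator_of_mem (Set.mem_Icc.2 ⟨by linarith, by linarith⟩), one_mul]
    · rw [Set.indicator_of_notMem h1]
      by_cases h2 : t ∈ Set.Icc a b
      · have h3 : u - t ∉ Set.Icc (-(w / 2)) (w / 2) := by
          intro h3
          apply h1
          rw [Set.mem_Icc] at h2 h3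
          rw [Set.mem_Icc, max_le_iff, le_min_iff]
          exact ⟨⟨h2.1, by linarith⟩, ⟨h2.2, by linarith⟩⟩
        rw [Set.indicator_of_notMem h3, mul_zero]
      · rw [Set.indicator_of_notMem h2, zero_mul]
  rw [integral_congr_ae (Filter.Eventually.of_forall h1), integral_indicator measurableSet_Icc,
    setIntegral_const, Real.volume_real_Icc, Complex.real_smul, ← Complex.ofReal_mul]

theorem sep_abs {f : ℝ → ℝ} (hf : IntegrableOn f (Set.Ioi 0)) :
    Integrable (fun x => f |x|) := by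
  have hf' : IntegrableOn (fun x => f |x|) (Set.Ioi 0) := by
    refine hf.congr_fun (fun x hx => ?_) measurableSet_Ioi
    rw [abs_of_pos hx]
  have int_Iic : IntegrableOn (fun x ↦ f |x|) (Set.Iic 0) := by
    rw [← Measure.map_neg_eq_self (volume : Measure ℝ)]
    let m : MeasurableEmbedding fun x : ℝ => -x := (Homeomorph.neg ℝ).measurableEmbedding
    rw [m.integrableOn_map_iff]
    simp_rw [Function.comp_def, abs_neg, Set.neg_preimage, Set.neg_Iic, neg_zero]
    exact Iff.mpr integrableOn_Ici_iff_integrableOn_Ioi hf'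
  rw [← integrableOn_univ, ← Set.Iic_union_Ioi (a := (0 : ℝ))]
  exact int_Iic.union hf'

/-- the majorant -/
noncomputable def sepH (A D ε : ℝ) (x : ℝ) : ℝ := if x ≤ 1 then A else D * x ^ (-1 - ε)

theorem sepH_int (A D ε : ℝ) (hε : 0 < ε) : IntegrableOn (sepH A D ε) (Set.Ioi 0) ∧
    ∫ x in Set.Ioi 0, sepH A D ε x = A + D / ε := by
  have hu : Set.Ioi (0 : ℝ) = Set.Ioc 0 1 ∪ Set.Ioi 1 := by
    rw [Set.Ioc_union_Ioi_eq_Ioi zero_le_one]
  have hd : Disjoint (Set.Ioc (0 : ℝ) 1) (Set.Ioi 1) := by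
    rw [Set.disjoint_left]
    intro x hx hx2
    exact absurd hx.2 (not_le.2 hx2)
  have e1 : Set.EqOn (fun _ => A) (sepH A D ε) (Set.Ioc 0 1) := by
    intro x hx
    show A = sepH A D ε x
    rw [sepH, if_pos hx.2]
  have e2 : Set.EqOn (fun x => D * x ^ (-1 - ε)) (sepH A D ε) (Set.Ioi 1) := by
    intro x hx
    show D * x ^ (-1 - ε) = sepH A D ε x
    rw [sepH, if_neg (not_le.2 hx)]
  have i1 : IntegrableOn (sepH A D ε) (Set.Ioc 0 1) := by
    refine IntegrableOn.congr_fun ?_ e1 measurableSet_Ioc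
    exact integrableOn_const (by simp)
  have i2 : IntegrableOn (sepH A D ε) (Set.Ioi 1) := by
    refine IntegrableOn.congr_fun ?_ e2 measurableSet_Ioi
    exact (integrableOn_Ioi_rpow_of_lt (by linarith) zero_lt_one).const_mul D
  refine ⟨?_, ?_⟩
  · rw [hu]
    exact i1.union i2
  · rw [hu, setIntegral_union hd measurableSet_Ioi i1 i2,
      ← setIntegral_congr_fun measurableSet_Ioc e1, ← setIntegral_congr_fun measurableSet_Ioi e2,
      integral_const_mul, integral_Ioi_rpow_of_lt (by linarith) zero_lt_one, Real.one_rpow,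
      setIntegral_const, Real.volume_real_Ioc]
    have : -1 - ε + 1 = -ε := by ring
    rw [this, neg_div_neg_eq, max_eq_left (by norm_num)]
    simp
    ring

theorem sep_cont {f : ℝ → ℂ} (hf : Integrable f) : Continuous (𝓕 f) :=
  VectorFourier.fourierIntegral_continuous Real.continuous_fourierChar
    (innerSL ℝ).continuous₂ hf

theorem sep_ind (a b : ℝ) (c : ℂ) : Integrable (Set.indicator (Set.Icc a b) (fun _ => c)) := by
  rw [integrable_indicator_iff measurableSet_Icc]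
  exact integrableOn_const (by simp)

/-- the pointwise bound -/
theorem sep_bound (a b w : ℝ) (hab : a ≤ b) (hw : 0 < w) (ε : ℝ) (hε : 0 < ε) (hε1 : ε ≤ 1)
    (t : ℝ) :
    ‖𝓕 (Set.indicator (Set.Icc a b) (fun _ => (1 : ℂ))) t *
      𝓕 (Set.indicator (Set.Icc (-(w / 2)) (w / 2)) (fun _ => ((1 / w : ℝ) : ℂ))) t‖ ≤
      sepH (b - a) ((1 / w) ^ ε) ε |t| := by
  have hc : ‖((1 / w : ℝ) : ℂ)‖ = 1 / w := by
    rw [Complex.norm_real, Real.norm_of_nonneg (by positivity)]
  have h2 := sep_ft_le (-(w / 2)) (w / 2) (by linarith) ((1 / w : ℝ) : ℂ) t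
  have h2' : ‖𝓕 (Set.indicator (Set.Icc (-(w / 2)) (w / 2)) (fun _ => ((1 / w : ℝ) : ℂ))) t‖ ≤ 1 := by
    refine h2.trans (le_of_eq ?_)
    rw [hc]
    field_simp
    ring
  rw [norm_mul, sepH]
  split_ifs with ht
  · have h1 := sep_ft_le a b hab 1 t
    rw [norm_one, mul_one] at h1
    calc _ ≤ (b - a) * 1 := mul_le_mul h1 h2' (norm_nonneg _) (by linarith)
      _ = b - a := mul_one _
  · push Not at ht
    have ht0 : t ≠ 0 := by
      rintro rfl
      rw [abs_zero] at ht
      linarith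
    have hat : 0 < |t| := abs_pos.2 ht0
    have h1 := sep_ft_le' a b hab 1 ht0
    rw [norm_one, mul_one] at h1
    have h3 := sep_ft_le' (-(w / 2)) (w / 2) (by linarith) ((1 / w : ℝ) : ℂ) ht0
    rw [hc] at h3
    have hpi : 1 ≤ Real.pi := by linarith [Real.pi_gt_three]
    have h4 : 1 / (Real.pi * |t|) ≤ 1 / |t| := by
      apply one_div_le_one_div_of_le hat
      nlinarith
    have h5 : ‖𝓕 (Set.indicator (Set.Icc (-(w / 2)) (w / 2)) (fun _ => ((1 / w : ℝ) : ℂ))) t‖ ≤
        (1 / |t| * (1 / w)) ^ ε := by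
      have h6 : ‖𝓕 (Set.indicator (Set.Icc (-(w / 2)) (w / 2)) (fun _ => ((1 / w : ℝ) : ℂ))) t‖ ≤
          1 / |t| * (1 / w) := h3.trans (mul_le_mul_of_nonneg_right h4 (by positivity))
      rcases le_total (1 / |t| * (1 / w)) 1 with h7 | h7
      · refine h6.trans ?_
        conv_lhs => rw [← Real.rpow_one (1 / |t| * (1 / w))]
        exact Real.rpow_le_rpow_of_exponent_ge (by positivity) h7 hε1
      · exact h2'.trans (Real.one_le_rpow h7 hε.le)
    calc _ ≤ 1 / |t| * (1 / |t| * (1 / w)) ^ ε :=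
          mul_le_mul (h1.trans h4) h5 (norm_nonneg _) (by positivity)
      _ = (1 / w) ^ ε * |t| ^ (-1 - ε) := by
        rw [Real.mul_rpow (by positivity) (by positivity), Real.rpow_sub hat, Real.rpow_neg_one,
          Real.div_rpow zero_le_one hat.le, Real.one_rpow]
        field_simp

/-- For every `y ≥ 2` the indicator function of the integers `k ≤ y` is a combination of the functions
`k^(it)` with total weight `O(log y)`.

Proof. Let `Φ : ℝ → ℝ` be the trapezoid with `Φ = 1` on `[0, log y]`, `Φ = 0` outside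
`[-w, log y + w]`, `w = log (y+1) - log y ≥ 1/(2y)`, linear in between. Then `Φ(log k) = 1` for
`1 ≤ k ≤ y` and `= 0` for the integers `k ≥ y + 1`. `Φ = (1/w) 1_[-w/2, log y + w/2] * 1_[-w/2, w/2]`
(convolution), so `|Φ̂(t)| ≤ min (log y + w, 1/(π|t|), 1/(π² t² w))` (Fourier transform, `e^(-2πi t u)`;
one can compute it directly, by two integrations by parts on the linear pieces), which is
integrable with `∫ |Φ̂| ≤ C (1 + log (1/w) ...) ≤ C' log y`: split at `|t| = 1` and `|t| = 1/w`.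
`Φ` is continuous and integrable, `Φ̂` integrable, hence Fourier inversion (Mathlib:
`MeasureTheory.Integrable.fourierInv_fourier_eq` or similar names, `Continuous.fourierInv_fourier_eq`):
`Φ(log k) = ∫ Φ̂(t) e^(2πi t log k) dt`; substitute `t ↦ t/(2π)`. -/
theorem sep : ∃ C : ℝ, 0 < C ∧ ∀ y : ℕ, 2 ≤ y → ∃ g : ℝ → ℂ, Integrable g ∧
    ∫ t, ‖g t‖ ≤ C * Real.log y ∧ ∀ k : ℕ, 1 ≤ k →
      ∫ t, g t * (k : ℂ) ^ ((t : ℂ) * Complex.I) = if k ≤ y then 1 else 0 := by
  refine ⟨16, by norm_num, fun y hy => ?_⟩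
  have hy2 : (2 : ℝ) ≤ y := by exact_mod_cast hy
  obtain ⟨L, hL⟩ : ∃ L, L = Real.log y := ⟨_, rfl⟩
  obtain ⟨w, hw⟩ : ∃ w, w = Real.log (y + 1) - Real.log y := ⟨_, rfl⟩
  have hL0 : 0.6 < L := by
    have := Real.log_two_gt_d9
    have h2 := Real.log_le_log (by norm_num) hy2
    rw [hL]
    linarith
  have hw1 : w = Real.log (1 + 1 / y) := by
    rw [hw, ← Real.log_div (by positivity) (by positivity)]
    congr 1
    field_simp
  have hwlow : 1 / (2 * (y : ℝ)) ≤ w := by
    rw [hw1]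
    have h1 := Real.one_sub_inv_le_log_of_pos (x := 1 + 1 / (y : ℝ)) (by positivity)
    refine le_trans ?_ h1
    have h2 : 1 - (1 + 1 / (y : ℝ))⁻¹ = 1 / (y + 1) := by
      field_simp
      ring
    rw [h2]
    apply one_div_le_one_div_of_le (by positivity)
    linarith
  have hw0 : 0 < w := lt_of_lt_of_le (by positivity) hwlow
  have hwup : w ≤ 1 / 2 := by
    rw [hw1]
    have h1 := Real.log_le_sub_one_of_pos (x := 1 + 1 / (y : ℝ)) (by positivity)
    have h2 : 1 / (y : ℝ) ≤ 1 / 2 := one_div_le_one_div_of_le (by norm_num) hy2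
    linarith
  have hl2 : Real.log (2 * y) ≤ 2 * L := by
    rw [Real.log_mul (by norm_num) (by positivity), hL]
    have h2 := Real.log_le_log (by norm_num) hy2
    linarith
  have hl1 : 1 ≤ Real.log (2 * y) := by
    rw [Real.log_mul (by norm_num) (by positivity), ← hL]
    have := Real.log_two_gt_d9
    linarith
  obtain ⟨ε, hε⟩ : ∃ ε, ε = 1 / Real.log (2 * y) := ⟨_, rfl⟩
  have hε0 : 0 < ε := by rw [hε]; positivity
  have hε1 : ε ≤ 1 := by
    rw [hε, div_le_one (by linarith)]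
    exact hl1
  obtain ⟨f₁, hf₁⟩ : ∃ f₁ : ℝ → ℂ, f₁ = Set.indicator (Set.Icc (-(w / 2)) (L + w / 2))
    (fun _ => (1 : ℂ)) := ⟨_, rfl⟩
  obtain ⟨f₂, hf₂⟩ : ∃ f₂ : ℝ → ℂ, f₂ = Set.indicator (Set.Icc (-(w / 2)) (w / 2))
    (fun _ => ((1 / w : ℝ) : ℂ)) := ⟨_, rfl⟩
  have hi₁ : Integrable f₁ := by rw [hf₁]; exact sep_ind _ _ _
  have hi₂ : Integrable f₂ := by rw [hf₂]; exact sep_ind _ _ _
  obtain ⟨Φ, hΦ⟩ : ∃ Φ : ℝ → ℂ, Φ = convolution f₁ f₂ (ContinuousLinearMap.mul ℂ ℂ) volume :=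
    ⟨_, rfl⟩
  have hΦe : ∀ u, Φ u = ((max (min (L + w / 2) (u + w / 2) - max (-(w / 2)) (u - w / 2)) 0 *
      (1 / w) : ℝ) : ℂ) := by
    intro u
    rw [hΦ, hf₁, hf₂]
    exact sep_conv _ _ _ _
  have hΦc : Continuous Φ := by
    have : Φ = fun u => ((max (min (L + w / 2) (u + w / 2) - max (-(w / 2)) (u - w / 2)) 0 *
      (1 / w) : ℝ) : ℂ) := funext hΦe
    rw [this]
    fun_prop
  have hΦi : Integrable Φ := by
    rw [hΦ]
    exact hi₁.integrable_convolution _ hi₂
  have hΦF : ∀ t, 𝓕 Φ t = 𝓕 f₁ t * 𝓕 f₂ t := by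
    intro t
    rw [hΦ]
    exact Real.fourier_mul_convolution_eq hi₁ hi₂ t
  have hbd : ∀ t, ‖𝓕 Φ t‖ ≤ sepH (L + w) ((1 / w) ^ ε) ε |t| := by
    intro t
    rw [hΦF, hf₁, hf₂]
    have h := sep_bound (-(w / 2)) (L + w / 2) w (by linarith) hw0 ε hε0 hε1 t
    have e1 : L + w / 2 - -(w / 2) = L + w := by ring
    rwa [e1] at h
  obtain ⟨hH1, hH2⟩ := sepH_int (L + w) ((1 / w) ^ ε) ε hε0
  have hH3 := sep_abs hH1
  have hFi : Integrable (𝓕 Φ) :=
    hH3.mono' (sep_cont hΦi).aestronglyMeasurable (Filter.Eventually.of_forall hbd)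
  have hFn : ∫ t, ‖𝓕 Φ t‖ ≤ 16 * L := by
    have h1 : ∫ t, ‖𝓕 Φ t‖ ≤ ∫ t, sepH (L + w) ((1 / w) ^ ε) ε |t| :=
      integral_mono hFi.norm hH3 hbd
    rw [integral_comp_abs, hH2] at h1
    have h2 : (1 / w) ^ ε ≤ 3 := by
      have h3 : 1 / w ≤ 2 * y := by
        rw [div_le_iff₀ hw0]
        rw [div_le_iff₀ (by positivity)] at hwlow
        linarith
      have h4 : (1 / w) ^ ε ≤ (2 * (y : ℝ)) ^ ε :=
        Real.rpow_le_rpow (by positivity) h3 hε0.le
      have h5 : (2 * (y : ℝ)) ^ ε = Real.exp 1 := by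
        rw [Real.rpow_def_of_pos (by positivity), hε]
        congr 1
        field_simp
      have h6 := Real.exp_one_lt_d9
      linarith
    have h3 : (1 / w) ^ ε / ε ≤ 3 * (2 * L) := by
      have h4 : (1 / w) ^ ε / ε = (1 / w) ^ ε * Real.log (2 * y) := by
        rw [hε]
        field_simp
      rw [h4]
      exact mul_le_mul h2 hl2 (by linarith) (by norm_num)
    linarith
  have hpi : (2 * Real.pi : ℝ) ≠ 0 := Real.two_pi_pos.ne'
  refine ⟨fun t => (((2 * Real.pi)⁻¹ : ℝ) : ℂ) * 𝓕 Φ (t / (2 * Real.pi)), ?_, ?_, ?_⟩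
  · exact (hFi.comp_div hpi).const_mul _
  · have h1 : ∀ t : ℝ, ‖(((2 * Real.pi)⁻¹ : ℝ) : ℂ) * 𝓕 Φ (t / (2 * Real.pi))‖ =
        (2 * Real.pi)⁻¹ * ‖𝓕 Φ (t / (2 * Real.pi))‖ := by
      intro t
      rw [norm_mul, Complex.norm_real, Real.norm_of_nonneg (by positivity)]
    rw [integral_congr_ae (Filter.Eventually.of_forall h1), integral_const_mul,
      Measure.integral_comp_div (fun s => ‖𝓕 Φ s‖), abs_of_pos Real.two_pi_pos, smul_eq_mul,
      ← mul_assoc, inv_mul_cancel₀ hpi, one_mul, ← hL]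
    exact hFn
  · intro k hk
    have hk0 : (k : ℂ) ≠ 0 := by exact_mod_cast (by omega : k ≠ 0)
    have hkr : (1 : ℝ) ≤ k := by exact_mod_cast hk
    have h1 : ∀ t : ℝ, (((2 * Real.pi)⁻¹ : ℝ) : ℂ) * 𝓕 Φ (t / (2 * Real.pi)) *
        (k : ℂ) ^ ((t : ℂ) * Complex.I) = (((2 * Real.pi)⁻¹ : ℝ) : ℂ) *
        (fun s : ℝ => Complex.exp ((((2 * Real.pi * (s * Real.log k)) : ℝ) : ℂ) * Complex.I) *
          𝓕 Φ s) (t / (2 * Real.pi)) := by
      intro t
      have e1 : (k : ℂ) ^ ((t : ℂ) * Complex.I) =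
          Complex.exp ((((2 * Real.pi * (t / (2 * Real.pi) * Real.log k)) : ℝ) : ℂ) * Complex.I) := by
        rw [Complex.cpow_def_of_ne_zero hk0, ← Complex.natCast_log]
        congr 1
        have e2 : 2 * Real.pi * (t / (2 * Real.pi) * Real.log k) = t * Real.log k := by
          field_simp
        rw [e2]
        push_cast
        ring
      rw [e1]
      ring
    rw [integral_congr_ae (Filter.Eventually.of_forall h1), integral_const_mul,
      Measure.integral_comp_div (fun s : ℝ => Complex.exp ((((2 * Real.pi * (s * Real.log k)) : ℝ) :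
        ℂ) * Complex.I) * 𝓕 Φ s), abs_of_pos Real.two_pi_pos, Complex.real_smul, ← mul_assoc,
      ← Complex.ofReal_mul, inv_mul_cancel₀ hpi, Complex.ofReal_one, one_mul]
    have h2 := congrFun (hΦc.fourierInv_fourier_eq hΦi hFi) (Real.log k)
    rw [Real.fourierInv_eq'] at h2
    have h3 : ∫ s : ℝ, Complex.exp ((((2 * Real.pi * (s * Real.log k)) : ℝ) : ℂ) * Complex.I) *
        𝓕 Φ s = Φ (Real.log k) := by
      rw [← h2]
      apply integral_congr_ae
      refine Filter.Eventually.of_forall fun s => ?_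
      simp only [smul_eq_mul]
      congr 5
      simp [mul_comm]
    rw [h3, hΦe]
    have hlk : 0 ≤ Real.log k := Real.log_nonneg hkr
    split_ifs with hky
    · have h4 : Real.log k ≤ L := by
        rw [hL]
        exact Real.log_le_log (by linarith) (by exact_mod_cast hky)
      rw [min_eq_right (by linarith), max_eq_right (a := -(w / 2)) (by linarith)]
      have h5 : Real.log k + w / 2 - (Real.log k - w / 2) = w := by ring
      rw [h5, max_eq_left hw0.le, mul_one_div_cancel hw0.ne', Complex.ofReal_one]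
    · have h4 : L + w ≤ Real.log k := by
        rw [hL, hw]
        have h5 : (y : ℝ) + 1 ≤ k := by exact_mod_cast (by omega : y + 1 ≤ k)
        have := Real.log_le_log (by positivity) h5
        linarith
      rw [min_eq_left (by linarith), max_eq_right (a := -(w / 2)) (by linarith),
        max_eq_right (by linarith), zero_mul, Complex.ofReal_zero]

end Pool.Agent.Lib.H59C
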