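import Pool.Agent.Lib.H59C.LSC
import Pool.Agent.Lib.H59C.SEP

/-!
# BIL: bilinear forms with characters, with the condition `m n ≤ y`
-/

open Finset

namespace Pool.Agent.Lib.H59C

open Pool.Agent.Lib.H68T (PC p0 e)

/-- Cauchy-Schwarz with weights -/
theorem BIL_cs {ι : Type*} (S : Finset ι) (w a b : ι → ℝ) (hw : ∀ i ∈ S, 0 ≤ w i) :
    ∑ i ∈ S, w i * (a i * b i) ≤
      Real.sqrt (∑ i ∈ S, w i * a i ^ 2) * Real.sqrt (∑ i ∈ S, w i * b i ^ 2) := by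
  have h := Real.sum_mul_le_sqrt_mul_sqrt S (fun i => Real.sqrt (w i) * a i)
    (fun i => Real.sqrt (w i) * b i)
  have h1 : ∑ i ∈ S, Real.sqrt (w i) * a i * (Real.sqrt (w i) * b i) =
      ∑ i ∈ S, w i * (a i * b i) := by
    apply sum_congr rfl
    intro i hi
    have := Real.mul_self_sqrt (hw i hi)
    calc Real.sqrt (w i) * a i * (Real.sqrt (w i) * b i)
        = (Real.sqrt (w i) * Real.sqrt (w i)) * (a i * b i) := by ring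
      _ = w i * (a i * b i) := by rw [this]
  have h2 : ∀ c : ι → ℝ, ∑ i ∈ S, (Real.sqrt (w i) * c i) ^ 2 = ∑ i ∈ S, w i * c i ^ 2 := by
    intro c
    apply sum_congr rfl
    intro i hi
    rw [mul_pow, Real.sq_sqrt (hw i hi)]
  rw [h1, h2, h2] at h
  exact h

theorem BIL_half : ∃ C : ℝ, 0 < C ∧ ∀ (R M : ℕ), 1 ≤ R → 1 ≤ M → ∀ α : ℕ → ℂ,
    ∑ p ∈ PD R, (p.1 : ℝ) / (Nat.totient p.1 : ℝ) *
      ‖∑ m ∈ Icc 1 M, α m * p.2 (m : ZMod p.1)‖ ^ 2 ≤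
      C * ((M : ℝ) + (R : ℝ) ^ 2) * ∑ m ∈ Icc 1 M, ‖α m‖ ^ 2 := by
  obtain ⟨C, hC, h⟩ := ls_mul
  refine ⟨4 * C, by positivity, ?_⟩
  intro R M hR hM α
  have h1 := h (2 * R) M (by omega) hM 1 α
  have h2 : Ico 1 (1 + M) = Icc 1 M := by
    ext x
    rw [mem_Ico, mem_Icc]
    omega
  rw [h2] at h1
  have h3 : ∑ p ∈ PD R, (p.1 : ℝ) / (Nat.totient p.1 : ℝ) *
      ‖∑ m ∈ Icc 1 M, α m * p.2 (m : ZMod p.1)‖ ^ 2 ≤
      ∑ p ∈ PC (2 * R), (p.1 : ℝ) / (Nat.totient p.1 : ℝ) *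
      ‖∑ m ∈ Icc 1 M, α m * p.2 (m : ZMod p.1)‖ ^ 2 := by
    apply sum_le_sum_of_subset_of_nonneg
    · unfold PD
      exact filter_subset _ _
    · intro p _ _
      positivity
  refine (h3.trans h1).trans ?_
  apply mul_le_mul_of_nonneg_right _ (sum_nonneg fun _ _ => by positivity)
  push_cast
  have h4 : (0 : ℝ) ≤ M := Nat.cast_nonneg _
  nlinarith

/-- The same without the condition `m n ≤ y` (no separation of variables needed). -/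
theorem bil' : ∃ C : ℝ, 0 < C ∧ ∀ (R M N : ℕ), 1 ≤ R → 1 ≤ M → 1 ≤ N → ∀ α β : ℕ → ℂ,
    ∑ p ∈ PD R, 1 / (Nat.totient p.1 : ℝ) *
      (‖∑ m ∈ Icc 1 M, α m * p.2 (m : ZMod p.1)‖ * ‖∑ n ∈ Icc 1 N, β n * p.2 (n : ZMod p.1)‖) ≤
      C / R * Real.sqrt (((M : ℝ) + (R : ℝ) ^ 2) * ((N : ℝ) + (R : ℝ) ^ 2) *
        (∑ m ∈ Icc 1 M, ‖α m‖ ^ 2) * ∑ n ∈ Icc 1 N, ‖β n‖ ^ 2) := by
  obtain ⟨C, hC, h⟩ := BIL_half
  refine ⟨C, hC, ?_⟩
  intro R M N hR hM hN α β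
  have hR0 : (0 : ℝ) < R := by exact_mod_cast hR
  have hA := h R M hR hM α
  have hB := h R N hR hN β
  obtain ⟨SA, hSA⟩ : ∃ SA : ℝ, SA = ∑ m ∈ Icc 1 M, ‖α m‖ ^ 2 := ⟨_, rfl⟩
  obtain ⟨SB, hSB⟩ : ∃ SB : ℝ, SB = ∑ m ∈ Icc 1 N, ‖β m‖ ^ 2 := ⟨_, rfl⟩
  rw [← hSA] at hA ⊢
  rw [← hSB] at hB ⊢
  have hSA0 : 0 ≤ SA := by rw [hSA]; positivity
  have hSB0 : 0 ≤ SB := by rw [hSB]; positivity
  have h1 : ∀ p ∈ PD R, 1 / (Nat.totient p.1 : ℝ) *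
      (‖∑ m ∈ Icc 1 M, α m * p.2 (m : ZMod p.1)‖ * ‖∑ n ∈ Icc 1 N, β n * p.2 (n : ZMod p.1)‖) ≤
      (1 / R) * ((p.1 : ℝ) / (Nat.totient p.1 : ℝ) *
      (‖∑ m ∈ Icc 1 M, α m * p.2 (m : ZMod p.1)‖ * ‖∑ n ∈ Icc 1 N, β n * p.2 (n : ZMod p.1)‖)) := by
    intro p hp
    have hp1 : R < p.1 := by
      unfold PD at hp
      exact (mem_filter.mp hp).2
    have hp2 : (R : ℝ) ≤ p.1 := by exact_mod_cast hp1.le
    rw [← mul_assoc (1 / (R : ℝ))]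
    apply mul_le_mul_of_nonneg_right _ (by positivity)
    have h2 : (1 : ℝ) ≤ (1 / R) * p.1 := by
      rw [one_div, inv_mul_eq_div, le_div_iff₀ hR0, one_mul]
      exact hp2
    calc 1 / (Nat.totient p.1 : ℝ) ≤ ((1 / R) * p.1) / (Nat.totient p.1 : ℝ) :=
          div_le_div_of_nonneg_right h2 (Nat.cast_nonneg _)
      _ = (1 / R) * ((p.1 : ℝ) / (Nat.totient p.1 : ℝ)) := by ring
  refine (sum_le_sum h1).trans ?_
  rw [← mul_sum]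
  have h3 := BIL_cs (PD R) (fun p => (p.1 : ℝ) / (Nat.totient p.1 : ℝ))
    (fun p => ‖∑ m ∈ Icc 1 M, α m * p.2 (m : ZMod p.1)‖)
    (fun p => ‖∑ n ∈ Icc 1 N, β n * p.2 (n : ZMod p.1)‖) (fun p _ => by positivity)
  have h4 : Real.sqrt (∑ p ∈ PD R, (p.1 : ℝ) / (Nat.totient p.1 : ℝ) *
      ‖∑ m ∈ Icc 1 M, α m * p.2 (m : ZMod p.1)‖ ^ 2) *
      Real.sqrt (∑ p ∈ PD R, (p.1 : ℝ) / (Nat.totient p.1 : ℝ) *
      ‖∑ n ∈ Icc 1 N, β n * p.2 (n : ZMod p.1)‖ ^ 2) ≤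
      Real.sqrt (C * ((M : ℝ) + (R : ℝ) ^ 2) * SA) *
        Real.sqrt (C * ((N : ℝ) + (R : ℝ) ^ 2) * SB) :=
    mul_le_mul (Real.sqrt_le_sqrt hA) (Real.sqrt_le_sqrt hB) (Real.sqrt_nonneg _)
      (Real.sqrt_nonneg _)
  have h5 : Real.sqrt (C * ((M : ℝ) + (R : ℝ) ^ 2) * SA) *
        Real.sqrt (C * ((N : ℝ) + (R : ℝ) ^ 2) * SB) =
      C * Real.sqrt (((M : ℝ) + (R : ℝ) ^ 2) * ((N : ℝ) + (R : ℝ) ^ 2) * SA * SB) := by
    rw [← Real.sqrt_mul (by positivity)]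
    have h6 : C * ((M : ℝ) + (R : ℝ) ^ 2) * SA * (C * ((N : ℝ) + (R : ℝ) ^ 2) * SB) =
        C ^ 2 * (((M : ℝ) + (R : ℝ) ^ 2) * ((N : ℝ) + (R : ℝ) ^ 2) * SA * SB) := by ring
    rw [h6, Real.sqrt_mul (by positivity), Real.sqrt_sq hC.le]
  calc (1 / (R : ℝ)) * _ ≤ (1 / R) *
        (C * Real.sqrt (((M : ℝ) + (R : ℝ) ^ 2) * ((N : ℝ) + (R : ℝ) ^ 2) * SA * SB)) := by
        apply mul_le_mul_of_nonneg_left _ (by positivity)
        exact (h3.trans h4).trans (le_of_eq h5)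
    _ = _ := by ring

theorem BIL_norm (k : ℕ) (hk : 1 ≤ k) (t : ℝ) : ‖(k : ℂ) ^ ((t : ℂ) * Complex.I)‖ = 1 := by
  rw [Complex.norm_natCast_cpow_of_pos hk]
  simp

theorem BIL_int {g : ℝ → ℂ} (hg : MeasureTheory.Integrable g) (k : ℕ) (hk : 1 ≤ k) :
    MeasureTheory.Integrable (fun t => g t * (k : ℂ) ^ ((t : ℂ) * Complex.I)) := by
  have hk0 : (k : ℂ) ≠ 0 := by
    have : k ≠ 0 := by omega
    exact_mod_cast this
  have hc : Continuous (fun t : ℝ => (k : ℂ) ^ ((t : ℂ) * Complex.I)) := by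
    apply Continuous.const_cpow
    · fun_prop
    · exact Or.inl hk0
  refine hg.norm.mono' (hg.aestronglyMeasurable.mul hc.aestronglyMeasurable) ?_
  refine Filter.Eventually.of_forall fun t => ?_
  rw [norm_mul, BIL_norm k hk t, mul_one]

/-- Bilinear sums over the primitive characters of conductor in `(R, 2R]`.

Proof. For `p ∈ PD R` one has `1/φ(r) ≤ R⁻¹ r/φ(r)`. By `sep` (with `k = m n`)
`∑∑_{m n ≤ y} α β χ(m n) = ∫ g(t) A_t(χ) B_t(χ) dt`, `A_t(χ) = ∑_m α_m m^(it) χ(m)`,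
`B_t(χ) = ∑_n β_n n^(it) χ(n)`. For every `t` Cauchy-Schwarz and `ls_mul` (`Q = 2R`) give
`∑_χ (r/φ(r)) |A_t B_t| ≤ C ((M + 4R²)(N + 4R²) ∑|α|² ∑|β|²)^(1/2)`. -/
theorem bil : ∃ C : ℝ, 0 < C ∧ ∀ (R M N y : ℕ), 1 ≤ R → 1 ≤ M → 1 ≤ N → 2 ≤ y → ∀ α β : ℕ → ℂ,
    ∑ p ∈ PD R, 1 / (Nat.totient p.1 : ℝ) *
      ‖∑ m ∈ Icc 1 M, ∑ n ∈ (Icc 1 N).filter (fun n => m * n ≤ y),
        α m * β n * p.2 ((m * n : ℕ) : ZMod p.1)‖ ≤
      C * Real.log y / R * Real.sqrt (((M : ℝ) + (R : ℝ) ^ 2) * ((N : ℝ) + (R : ℝ) ^ 2) *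
        (∑ m ∈ Icc 1 M, ‖α m‖ ^ 2) * ∑ n ∈ Icc 1 N, ‖β n‖ ^ 2) := by
  obtain ⟨C₁, hC₁, hsep⟩ := sep
  obtain ⟨C₂, hC₂, hbil⟩ := bil'
  refine ⟨C₁ * C₂, by positivity, ?_⟩
  intro R M N y hR hM hN hy α β
  have hR0 : (0 : ℝ) < R := by exact_mod_cast hR
  obtain ⟨g, hg, hgn, hgk⟩ := hsep y hy
  obtain ⟨K, hK⟩ : ∃ K : ℝ, K = Real.sqrt (((M : ℝ) + (R : ℝ) ^ 2) * ((N : ℝ) + (R : ℝ) ^ 2) *
        (∑ m ∈ Icc 1 M, ‖α m‖ ^ 2) * ∑ n ∈ Icc 1 N, ‖β n‖ ^ 2) := ⟨_, rfl⟩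
  have hK0 : 0 ≤ K := by rw [hK]; exact Real.sqrt_nonneg _
  rw [← hK]
  -- the integrand
  obtain ⟨h, hh⟩ : ∃ h : PCh → ℝ → ℂ, h = fun p t => ∑ m ∈ Icc 1 M, ∑ n ∈ Icc 1 N,
    (α m * β n * p.2 ((m * n : ℕ) : ZMod p.1)) *
      (g t * ((m * n : ℕ) : ℂ) ^ ((t : ℂ) * Complex.I)) := ⟨_, rfl⟩
  have hint : ∀ p, MeasureTheory.Integrable (h p) := by
    intro p
    rw [hh]
    apply MeasureTheory.integrable_finsetSum
    intro m hm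
    apply MeasureTheory.integrable_finsetSum
    intro n hn
    rw [mem_Icc] at hm hn
    exact (BIL_int hg (m * n) (Nat.mul_pos hm.1 hn.1)).const_mul _
  have hval : ∀ p : PCh, ∫ t, h p t = ∑ m ∈ Icc 1 M, ∑ n ∈ (Icc 1 N).filter (fun n => m * n ≤ y),
        α m * β n * p.2 ((m * n : ℕ) : ZMod p.1) := by
    intro p
    rw [hh]
    rw [MeasureTheory.integral_finsetSum]
    · apply sum_congr rfl
      intro m hm
      rw [MeasureTheory.integral_finsetSum]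
      · rw [sum_filter]
        apply sum_congr rfl
        intro n hn
        rw [mem_Icc] at hm hn
        rw [MeasureTheory.integral_const_mul, hgk (m * n) (Nat.mul_pos hm.1 hn.1)]
        split_ifs <;> simp
      · intro n hn
        rw [mem_Icc] at hm hn
        exact (BIL_int hg (m * n) (Nat.mul_pos hm.1 hn.1)).const_mul _
    · intro m hm
      apply MeasureTheory.integrable_finsetSum
      intro n hn
      rw [mem_Icc] at hm hn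
      exact (BIL_int hg (m * n) (Nat.mul_pos hm.1 hn.1)).const_mul _
  have hprod : ∀ (p : PCh) (t : ℝ), h p t = g t *
      ((∑ m ∈ Icc 1 M, (α m * (m : ℂ) ^ ((t : ℂ) * Complex.I)) * p.2 (m : ZMod p.1)) *
        (∑ n ∈ Icc 1 N, (β n * (n : ℂ) ^ ((t : ℂ) * Complex.I)) * p.2 (n : ZMod p.1))) := by
    intro p t
    rw [hh, sum_mul_sum, mul_sum]
    apply sum_congr rfl
    intro m _
    rw [mul_sum]
    apply sum_congr rfl
    intro n _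
    have e1 : ((m * n : ℕ) : ℂ) ^ ((t : ℂ) * Complex.I) =
        (m : ℂ) ^ ((t : ℂ) * Complex.I) * (n : ℂ) ^ ((t : ℂ) * Complex.I) := by
      rw [Nat.cast_mul]
      exact Complex.natCast_mul_natCast_cpow m n _
    rw [e1, Nat.cast_mul, map_mul]
    ring
  have hpt : ∀ t : ℝ, ∑ p ∈ PD R, 1 / (Nat.totient p.1 : ℝ) * ‖h p t‖ ≤ ‖g t‖ * (C₂ / R * K) := by
    intro t
    have h1 := hbil R M N hR hM hN (fun m => α m * (m : ℂ) ^ ((t : ℂ) * Complex.I))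
      (fun n => β n * (n : ℂ) ^ ((t : ℂ) * Complex.I))
    have h2 : ∀ (L : ℕ) (γ : ℕ → ℂ), ∑ m ∈ Icc 1 L, ‖γ m * (m : ℂ) ^ ((t : ℂ) * Complex.I)‖ ^ 2 =
        ∑ m ∈ Icc 1 L, ‖γ m‖ ^ 2 := by
      intro L γ
      apply sum_congr rfl
      intro m hm
      rw [mem_Icc] at hm
      rw [norm_mul, BIL_norm m hm.1 t, mul_one]
    rw [h2, h2, ← hK] at h1
    have h3 : ∑ p ∈ PD R, 1 / (Nat.totient p.1 : ℝ) * ‖h p t‖ = ‖g t‖ *
        ∑ p ∈ PD R, 1 / (Nat.totient p.1 : ℝ) *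
      (‖∑ m ∈ Icc 1 M, (α m * (m : ℂ) ^ ((t : ℂ) * Complex.I)) * p.2 (m : ZMod p.1)‖ *
        ‖∑ n ∈ Icc 1 N, (β n * (n : ℂ) ^ ((t : ℂ) * Complex.I)) * p.2 (n : ZMod p.1)‖) := by
      rw [mul_sum]
      apply sum_congr rfl
      intro p _
      rw [hprod, norm_mul, norm_mul]
      ring
    rw [h3]
    exact mul_le_mul_of_nonneg_left h1 (norm_nonneg _)
  calc ∑ p ∈ PD R, 1 / (Nat.totient p.1 : ℝ) *
      ‖∑ m ∈ Icc 1 M, ∑ n ∈ (Icc 1 N).filter (fun n => m * n ≤ y),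
        α m * β n * p.2 ((m * n : ℕ) : ZMod p.1)‖
      ≤ ∑ p ∈ PD R, ∫ t, 1 / (Nat.totient p.1 : ℝ) * ‖h p t‖ := by
        apply sum_le_sum
        intro p _
        rw [MeasureTheory.integral_const_mul]
        apply mul_le_mul_of_nonneg_left _ (by positivity)
        rw [← hval p]
        exact MeasureTheory.norm_integral_le_integral_norm _
    _ = ∫ t, ∑ p ∈ PD R, 1 / (Nat.totient p.1 : ℝ) * ‖h p t‖ := by
        rw [MeasureTheory.integral_finsetSum]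
        intro p _
        exact (hint p).norm.const_mul _
    _ ≤ ∫ t, ‖g t‖ * (C₂ / R * K) := by
        apply MeasureTheory.integral_mono
        · apply MeasureTheory.integrable_finsetSum
          intro p _
          exact (hint p).norm.const_mul _
        · exact hg.norm.mul_const _
        · exact hpt
    _ = (∫ t, ‖g t‖) * (C₂ / R * K) := by
        rw [MeasureTheory.integral_mul_const]
    _ ≤ (C₁ * Real.log y) * (C₂ / R * K) :=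
        mul_le_mul_of_nonneg_right hgn (by positivity)
    _ = C₁ * C₂ * Real.log y / R * K := by ring

end Pool.Agent.Lib.H59C
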