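import Pool.Agent.Lib.H59C.Defs

/-!
# BV1C: exchange of summations
-/

open Finset

namespace Pool.Agent.Lib.H59C

open Pool.Agent.Lib.H68T (PC p0 e)

theorem BV1C_sum_dvd (n f : ℕ) (hf : 1 ≤ f) (G : ℕ → ℝ) :
    ∑ e ∈ (Icc 1 n).filter (fun e => f ∣ e), G e = ∑ k ∈ Icc 1 (n / f), G (f * k) := by
  refine sum_nbij' (fun e => e / f) (fun k => f * k) ?_ ?_ ?_ ?_ ?_
  · intro e he
    rw [mem_filter, mem_Icc] at he
    obtain ⟨⟨h1, h2⟩, k, rfl⟩ := he
    rw [Nat.mul_div_cancel_left _ hf, mem_Icc]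
    refine ⟨?_, ?_⟩
    · rcases Nat.eq_zero_or_pos k with h | h
      · subst h
        omega
      · exact h
    · rw [Nat.le_div_iff_mul_le hf, mul_comm]
      exact h2
  · intro k hk
    rw [mem_Icc, Nat.le_div_iff_mul_le hf] at hk
    rw [mem_filter, mem_Icc]
    refine ⟨⟨Nat.mul_pos hf hk.1, ?_⟩, dvd_mul_right _ _⟩
    rw [mul_comm]
    exact hk.2
  · intro e he
    rw [mem_filter] at he
    exact Nat.mul_div_cancel' he.2
  · intro k _
    exact Nat.mul_div_cancel_left _ hf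
  · intro e he
    rw [mem_filter] at he
    rw [Nat.mul_div_cancel' he.2]

open Classical in
theorem BV1C_fix (D p1 : ℕ) (F : ℕ → ℝ) (hF : ∀ k, 0 ≤ F k) (r : ℕ) (hr : 1 ≤ r) :
    ∑ d ∈ (Icc 1 D).filter (fun d => ¬ p1 ∣ d),
      (if r ∣ d then 1 / (Nat.totient d : ℝ) * F (d / r) else 0) ≤
      ∑ k ∈ Icc 1 D, (if ¬ p1 ∣ r then
        1 / (Nat.totient k : ℝ) * (1 / (Nat.totient r : ℝ) * F k) else 0) := by
  by_cases hp : p1 ∣ r
  · have h1 : ∑ d ∈ (Icc 1 D).filter (fun d => ¬ p1 ∣ d),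
        (if r ∣ d then 1 / (Nat.totient d : ℝ) * F (d / r) else 0) = 0 := by
      apply sum_eq_zero
      intro d hd
      rw [mem_filter] at hd
      rw [if_neg]
      intro h
      exact hd.2 (hp.trans h)
    rw [h1]
    apply sum_nonneg
    intro k _
    rw [if_neg (not_not.mpr hp)]
  · have h2 : ∀ k ∈ Icc 1 D, (if ¬ p1 ∣ r then
        1 / (Nat.totient k : ℝ) * (1 / (Nat.totient r : ℝ) * F k) else 0) =
        1 / (Nat.totient k : ℝ) * (1 / (Nat.totient r : ℝ) * F k) := by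
      intro k _
      rw [if_pos hp]
    rw [sum_congr rfl h2]
    calc ∑ d ∈ (Icc 1 D).filter (fun d => ¬ p1 ∣ d),
          (if r ∣ d then 1 / (Nat.totient d : ℝ) * F (d / r) else 0)
        ≤ ∑ d ∈ Icc 1 D, (if r ∣ d then 1 / (Nat.totient d : ℝ) * F (d / r) else 0) := by
          apply sum_le_sum_of_subset_of_nonneg (filter_subset _ _)
          intro d _ _
          have := hF (d / r)
          split_ifs
          · positivity
          · exact le_refl _
      _ = ∑ k ∈ Icc 1 (D / r), 1 / (Nat.totient (r * k) : ℝ) * F (r * k / r) := by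
          rw [← sum_filter, BV1C_sum_dvd D r hr (fun d => 1 / (Nat.totient d : ℝ) * F (d / r))]
      _ ≤ ∑ k ∈ Icc 1 (D / r), 1 / (Nat.totient k : ℝ) * (1 / (Nat.totient r : ℝ) * F k) := by
          apply sum_le_sum
          intro k hk
          rw [mem_Icc] at hk
          rw [Nat.mul_div_cancel_left _ hr]
          have h3 := Nat.totient_super_multiplicative r k
          have h4 : 0 < Nat.totient r := Nat.totient_pos.mpr hr
          have h5 : 0 < Nat.totient k := Nat.totient_pos.mpr hk.1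
          have h6 : (0 : ℝ) < Nat.totient r := by exact_mod_cast h4
          have h7 : (0 : ℝ) < Nat.totient k := by exact_mod_cast h5
          have h8 : (Nat.totient r : ℝ) * Nat.totient k ≤ Nat.totient (r * k) := by
            exact_mod_cast h3
          have h9 : 1 / (Nat.totient (r * k) : ℝ) ≤
              1 / ((Nat.totient r : ℝ) * Nat.totient k) :=
            one_div_le_one_div_of_le (by positivity) h8
          calc 1 / (Nat.totient (r * k) : ℝ) * F k
              ≤ 1 / ((Nat.totient r : ℝ) * Nat.totient k) * F k :=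
                mul_le_mul_of_nonneg_right h9 (hF k)
            _ = 1 / (Nat.totient k : ℝ) * (1 / (Nat.totient r : ℝ) * F k) := by
                field_simp
      _ ≤ ∑ k ∈ Icc 1 D, 1 / (Nat.totient k : ℝ) * (1 / (Nat.totient r : ℝ) * F k) := by
          apply sum_le_sum_of_subset_of_nonneg
          · exact Icc_subset_Icc_right (Nat.div_le_self _ _)
          · intro k _ _
            have := hF k
            positivity

open Classical in
/-- Exchange of the summations: write `d = r k`, `r = p.1`; `φ(r k) ≥ φ(r) φ(k)`. -/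
theorem exchange (D p1 : ℕ) (F : ℕ → PCh → ℝ) (hF : ∀ k p, 0 ≤ F k p) :
    ∑ d ∈ (Icc 1 D).filter (fun d => ¬ p1 ∣ d), 1 / (Nat.totient d : ℝ) *
      ∑ p ∈ (PC d).filter (fun p => p ≠ p0 ∧ p.1 ∣ d), F (d / p.1) p ≤
      ∑ k ∈ Icc 1 D, 1 / (Nat.totient k : ℝ) *
        ∑ p ∈ (PC D).filter (fun p => p ≠ p0 ∧ ¬ p1 ∣ p.1), 1 / (Nat.totient p.1 : ℝ) * F k p := by
  have hL : ∀ d ∈ (Icc 1 D).filter (fun d => ¬ p1 ∣ d), 1 / (Nat.totient d : ℝ) *
      ∑ p ∈ (PC d).filter (fun p => p ≠ p0 ∧ p.1 ∣ d), F (d / p.1) p =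
      ∑ p ∈ (PC D).filter (fun p => p ≠ p0),
        (if p.1 ∣ d then 1 / (Nat.totient d : ℝ) * F (d / p.1) p else 0) := by
    intro d hd
    rw [mem_filter, mem_Icc] at hd
    rw [← sum_filter, ← mul_sum]
    congr 1
    apply sum_congr _ fun _ _ => rfl
    ext p
    rw [mem_filter, mem_filter, mem_filter, Pool.Agent.Lib.H68T.mem_PC,
      Pool.Agent.Lib.H68T.mem_PC]
    constructor
    · rintro ⟨⟨h1, h2, h3⟩, h4, h5⟩
      exact ⟨⟨⟨h1, h2.trans hd.1.2, h3⟩, h4⟩, h5⟩
    · rintro ⟨⟨⟨h1, h2, h3⟩, h4⟩, h5⟩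
      exact ⟨⟨h1, Nat.le_of_dvd (by omega) h5, h3⟩, h4, h5⟩
  have hR : ∀ k ∈ Icc 1 D, 1 / (Nat.totient k : ℝ) *
        ∑ p ∈ (PC D).filter (fun p => p ≠ p0 ∧ ¬ p1 ∣ p.1), 1 / (Nat.totient p.1 : ℝ) * F k p =
      ∑ p ∈ (PC D).filter (fun p => p ≠ p0), (if ¬ p1 ∣ p.1 then
        1 / (Nat.totient k : ℝ) * (1 / (Nat.totient p.1 : ℝ) * F k p) else 0) := by
    intro k _
    rw [← sum_filter, ← mul_sum, filter_filter]
  rw [sum_congr rfl hL, sum_congr rfl hR, sum_comm, sum_comm (s := Icc 1 D)]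
  apply sum_le_sum
  intro p hp
  rw [mem_filter, Pool.Agent.Lib.H68T.mem_PC] at hp
  exact BV1C_fix D p1 (fun k => F k p) (fun k => hF k p) p.1 hp.1.1

end Pool.Agent.Lib.H59C
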