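import Pool.Agent.Lib.H59C.Defs
import Pool.Agent.Lib.Helper57.PairCount

/-!
# BV1D: the sum of 1/φ
-/

open Finset

namespace Pool.Agent.Lib.H59C

open Pool.Agent.Lib.H68T (PC p0 e)

theorem BV1D_totient (k : ℕ) (hk : 1 ≤ k) :
    1 / (Nat.totient k : ℝ) = Helper57.G k / k := by
  have h1 := Nat.totient_eq_mul_prod_factors k
  have h2 : (Nat.totient k : ℝ) = k * ∏ p ∈ k.primeFactors, (1 - (p : ℝ)⁻¹) := by
    have h3 := congrArg (fun q : ℚ => (q : ℝ)) h1
    push_cast at h3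
    exact h3
  have hk0 : (k : ℝ) ≠ 0 := by
    have : k ≠ 0 := by omega
    exact_mod_cast this
  have hprod : ∏ p ∈ k.primeFactors, (1 - (p : ℝ)⁻¹) ≠ 0 := by
    rw [Finset.prod_ne_zero_iff]
    intro p hp
    have hp2 : (2 : ℝ) ≤ p := by
      exact_mod_cast (Nat.prime_of_mem_primeFactors hp).two_le
    have h4 : (p : ℝ)⁻¹ ≤ 2⁻¹ := inv_anti₀ (by norm_num) hp2
    have h5 : (0 : ℝ) < 1 - (p : ℝ)⁻¹ := by
      have : (2 : ℝ)⁻¹ < 1 := by norm_num
      linarith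
    exact h5.ne'
  have hG : Helper57.G k = (∏ p ∈ k.primeFactors, (1 - (p : ℝ)⁻¹))⁻¹ := by
    unfold Helper57.G
    rw [← Finset.prod_inv_distrib]
    apply Finset.prod_congr rfl
    intro p _
    rw [one_div]
  rw [h2, hG]
  field_simp

/-- partial summation -/
theorem BV1D_sum (g : ℕ → ℝ) (C : ℝ) (hC : 0 ≤ C)
    (h : ∀ N : ℕ, ∑ k ∈ Icc 1 N, g k ≤ C * N) (D : ℕ) (hD : 1 ≤ D) :
    ∑ k ∈ Icc 1 D, g k / k ≤ (∑ k ∈ Icc 1 D, g k) / D + C * Real.log D := by
  induction D, hD using Nat.le_induction with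
  | base => simp
  | succ D hD ih =>
    rw [Finset.sum_Icc_succ_top (by omega), Finset.sum_Icc_succ_top (by omega)]
    have hS := h D
    set S : ℝ := ∑ k ∈ Icc 1 D, g k with hSd
    have hD0 : (0 : ℝ) < D := by
      have : 0 < D := by omega
      exact_mod_cast this
    have h1 : 1 / ((D : ℝ) + 1) ≤ Real.log ((D + 1 : ℕ) : ℝ) - Real.log D := by
      rw [← Real.log_div (by positivity) hD0.ne']
      have h2 := Real.one_sub_inv_le_log_of_pos (x := ((D + 1 : ℕ) : ℝ) / D) (by positivity)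
      refine le_trans (le_of_eq ?_) h2
      push_cast
      field_simp
      ring
    have h3 : S / D - S / ((D : ℝ) + 1) ≤ C * (1 / ((D : ℝ) + 1)) := by
      have e : S / D - S / ((D : ℝ) + 1) = (S / D) * (1 / ((D : ℝ) + 1)) := by
        field_simp
        ring
      rw [e]
      apply mul_le_mul_of_nonneg_right _ (by positivity)
      rw [div_le_iff₀ hD0]
      exact hS
    have h4 : C * (1 / ((D : ℝ) + 1)) ≤ C * (Real.log ((D + 1 : ℕ) : ℝ) - Real.log D) :=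
      mul_le_mul_of_nonneg_left h1 hC
    have e2 : (S + g (D + 1)) / ((D + 1 : ℕ) : ℝ) = S / ((D : ℝ) + 1) + g (D + 1) / ((D + 1 : ℕ) : ℝ) := by
      push_cast
      rw [add_div]
    rw [e2]
    linarith

/-- `∑_{k ≤ D} 1/φ(k) ≤ C log D`: `1/φ(k) = k⁻¹ ∑_{e ∣ k} μ²(e)/φ(e)`, so the sum is at most
`∑_e μ²(e)/(e φ(e)) ∑_{k ≤ D} 1/k`. -/
theorem sum_inv_totient : ∃ C : ℝ, 0 < C ∧ ∀ D : ℕ, 2 ≤ D →
    ∑ k ∈ Icc 1 D, 1 / (Nat.totient k : ℝ) ≤ C * Real.log D := by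
  obtain ⟨K, hK⟩ : ∃ K : ℝ, K = 3 * (500 * Real.log ((2 * 1 : ℕ) : ℝ)) := ⟨_, rfl⟩
  have hK0 : 0 < K := by
    rw [hK]
    have : 0 < Real.log ((2 * 1 : ℕ) : ℝ) := Real.log_pos (by norm_num)
    positivity
  have hS : ∀ N : ℕ, ∑ k ∈ Icc 1 N, Helper57.G k ≤ K * N := by
    intro N
    have h := Helper57.moment_le 1 N le_rfl
    simp only [pow_one] at h
    rw [hK]
    linarith
  have hl2 : 0 < Real.log 2 := Real.log_pos (by norm_num)
  refine ⟨K / Real.log 2 + K, by positivity, fun D hD => ?_⟩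
  have h1 : ∑ k ∈ Icc 1 D, 1 / (Nat.totient k : ℝ) = ∑ k ∈ Icc 1 D, Helper57.G k / k := by
    apply Finset.sum_congr rfl
    intro k hk
    exact BV1D_totient k (mem_Icc.1 hk).1
  rw [h1]
  have h2 := BV1D_sum Helper57.G K hK0.le hS D (by omega)
  have hD0 : (0 : ℝ) < D := by
    have : 0 < D := by omega
    exact_mod_cast this
  have h3 : (∑ k ∈ Icc 1 D, Helper57.G k) / D ≤ K := by
    rw [div_le_iff₀ hD0]
    exact hS D
  have h4 : Real.log 2 ≤ Real.log D := by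
    apply Real.log_le_log (by norm_num)
    exact_mod_cast hD
  have h5 : K ≤ K / Real.log 2 * Real.log D := by
    rw [div_mul_eq_mul_div, le_div_iff₀ hl2]
    exact mul_le_mul_of_nonneg_left h4 hK0.le
  calc ∑ k ∈ Icc 1 D, Helper57.G k / k ≤ (∑ k ∈ Icc 1 D, Helper57.G k) / D + K * Real.log D := h2
    _ ≤ K / Real.log 2 * Real.log D + K * Real.log D := by linarith
    _ = (K / Real.log 2 + K) * Real.log D := by ring

end Pool.Agent.Lib.H59C
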