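import Pool.Agent.Lib.H59C.Defs

/-!
# BV1A: from progressions to primitive characters
-/

open Finset

namespace Pool.Agent.Lib.H59C

open Pool.Agent.Lib.H68T (PC p0 e)

open Classical in
theorem BV1A_val {d : ℕ} [NeZero d] (χ : DirichletCharacter ℂ d) (m : ℕ) :
    χ (m : ZMod d) = if m.Coprime (d / χ.conductor) then
      χ.primitiveCharacter (m : ZMod χ.conductor) else 0 := by
  have hr : χ.conductor ∣ d := χ.conductor_dvd_level
  have hd : χ.conductor * (d / χ.conductor) = d := Nat.mul_div_cancel' hr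
  by_cases hm : m.Coprime d
  · have h1 : m.Coprime (d / χ.conductor) := Nat.Coprime.coprime_dvd_right (Nat.div_dvd_of_dvd hr) hm
    rw [if_pos h1]
    have h2 : IsCoprime ((m : ℕ) : ℤ) (d : ℤ) := Nat.isCoprime_iff_coprime.mpr hm
    have h3 := DirichletCharacter.primitiveCharacter_apply_of_isCoprime χ h2
    rw [Int.cast_natCast, Int.cast_natCast] at h3
    exact h3.symm
  · have h0 : χ (m : ZMod d) = 0 := by
      apply MulChar.map_nonunit
      rw [ZMod.isUnit_iff_coprime]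
      exact hm
    rw [h0]
    split_ifs with h1
    · have h2 : ¬ m.Coprime χ.conductor := by
        intro h3
        apply hm
        rw [← hd]
        exact Nat.Coprime.mul_right h3 h1
      symm
      apply MulChar.map_nonunit
      rw [ZMod.isUnit_iff_coprime]
      exact h2
    · rfl

/-- the primitive character of a character -/
noncomputable def BV1A_P {d : ℕ} (χ : DirichletCharacter ℂ d) : PCh :=
  ⟨χ.conductor, χ.primitiveCharacter⟩

/-- a character modulo `d` from a pair -/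
noncomputable def BV1A_L (d : ℕ) (p : PCh) : DirichletCharacter ℂ d := by
  classical
  exact if h : p.1 ∣ d then DirichletCharacter.changeLevel h p.2 else 1

theorem BV1A_LP {d : ℕ} (χ : DirichletCharacter ℂ d) : BV1A_L d (BV1A_P χ) = χ := by
  unfold BV1A_L BV1A_P
  rw [dif_pos χ.conductor_dvd_level]
  exact χ.changeLevel_primitiveCharacter

theorem BV1A_inj {d : ℕ} : Function.Injective (BV1A_P (d := d)) := by
  intro χ ψ h
  rw [← BV1A_LP χ, ← BV1A_LP ψ, h]

theorem BV1A_p0 {d : ℕ} : BV1A_L d p0 = 1 := by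
  unfold BV1A_L p0
  rw [dif_pos (one_dvd d)]
  exact map_one _

open Classical in
/-- For a function `f` on `[1, y]` the deviation in a reduced class mod `d` is at most the mean of the
sums against the primitive characters `≠ 1` inducing the characters mod `d`.

Proof. Orthogonality: for `(a, d) = 1`, `∑_{m ≡ a} f m = φ(d)⁻¹ ∑_{χ mod d} χ̄(a) ∑_m f m χ(m)`; `χ = 1` gives
`φ(d)⁻¹ ∑_{(m,d)=1} f m`. For `χ ≠ 1` let `χ*` mod `r ∣ d` be the primitive character inducing `χ`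
(`χ.primitiveCharacter`, `χ.conductor`); `χ(m) = χ*(m) 1[(m, d) = 1] = χ*(m) 1[(m, d/r) = 1]` (`χ*(m) = 0` if
`(m, r) > 1`), and `χ ↦ ⟨conductor, χ*⟩` is an injection from the characters mod `d` to the `p ∈ PC d` with
`p.1 ∣ d`; `χ ≠ 1` has `χ* ≠ 1`, so `p ≠ p0`. -/
theorem prog_gen (d a y : ℕ) (hd : 1 ≤ d) (ha : a.Coprime d) (f : ℕ → ℂ) :
    ‖∑ m ∈ (Icc 1 y).filter (fun m => m ≡ a [MOD d]), f m -
      1 / (Nat.totient d : ℂ) * ∑ m ∈ (Icc 1 y).filter (fun m => m.Coprime d), f m‖ ≤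
      1 / (Nat.totient d : ℝ) * ∑ p ∈ (PC d).filter (fun p => p ≠ p0 ∧ p.1 ∣ d),
        ‖∑ m ∈ (Icc 1 y).filter (fun m => m.Coprime (d / p.1)), f m * p.2 (m : ZMod p.1)‖ := by
  have hne : NeZero d := ⟨by omega⟩
  have hφ0 : (Nat.totient d : ℂ) ≠ 0 := by
    have := Nat.totient_pos.mpr hd
    exact_mod_cast this.ne'
  have hau : IsUnit ((a : ℕ) : ZMod d) := (ZMod.isUnit_iff_coprime a d).mpr ha
  -- orthogonality
  have h1 : ∑ m ∈ (Icc 1 y).filter (fun m => m ≡ a [MOD d]), f m =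
      1 / (Nat.totient d : ℂ) * ∑ χ : DirichletCharacter ℂ d,
        χ ((a : ZMod d)⁻¹) * ∑ m ∈ Icc 1 y, f m * χ (m : ZMod d) := by
    have h2 : ∑ χ : DirichletCharacter ℂ d,
        χ ((a : ZMod d)⁻¹) * ∑ m ∈ Icc 1 y, f m * χ (m : ZMod d) =
        ∑ m ∈ Icc 1 y, f m * ∑ χ : DirichletCharacter ℂ d,
          χ ((a : ZMod d)⁻¹) * χ (m : ZMod d) := by
      simp_rw [mul_sum]
      rw [sum_comm]
      apply sum_congr rfl
      intro m _
      apply sum_congr rfl
      intro χ _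
      ring
    rw [h2, mul_sum, sum_filter]
    apply sum_congr rfl
    intro m _
    rw [DirichletCharacter.sum_char_inv_mul_char_eq ℂ hau (m : ZMod d)]
    by_cases hm : m ≡ a [MOD d]
    · rw [if_pos hm, if_pos ((ZMod.natCast_eq_natCast_iff m a d).mpr hm).symm]
      field_simp
    · rw [if_neg hm, if_neg (fun h => hm ((ZMod.natCast_eq_natCast_iff m a d).mp h.symm))]
      simp
  have h3 : ∑ χ : DirichletCharacter ℂ d,
        χ ((a : ZMod d)⁻¹) * ∑ m ∈ Icc 1 y, f m * χ (m : ZMod d) =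
      ∑ m ∈ (Icc 1 y).filter (fun m => m.Coprime d), f m +
      ∑ χ ∈ (univ : Finset (DirichletCharacter ℂ d)).erase 1,
        χ ((a : ZMod d)⁻¹) * ∑ m ∈ Icc 1 y, f m * χ (m : ZMod d) := by
    rw [← add_sum_erase _ _ (mem_univ (1 : DirichletCharacter ℂ d))]
    congr 1
    have h4 : (1 : DirichletCharacter ℂ d) ((a : ZMod d)⁻¹) = 1 := by
      apply MulChar.one_apply
      obtain ⟨u, hu⟩ := hau
      rw [← hu, ZMod.inv_coe_unit]
      exact (u⁻¹).isUnit
    rw [h4, one_mul, sum_filter]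
    apply sum_congr rfl
    intro m _
    by_cases hm : m.Coprime d
    · rw [if_pos hm, MulChar.one_apply ((ZMod.isUnit_iff_coprime m d).mpr hm), mul_one]
    · rw [if_neg hm, MulChar.map_nonunit _ (fun h => hm ((ZMod.isUnit_iff_coprime m d).mp h)),
        mul_zero]
  have h5 : ∑ m ∈ (Icc 1 y).filter (fun m => m ≡ a [MOD d]), f m -
      1 / (Nat.totient d : ℂ) * ∑ m ∈ (Icc 1 y).filter (fun m => m.Coprime d), f m =
      1 / (Nat.totient d : ℂ) * ∑ χ ∈ (univ : Finset (DirichletCharacter ℂ d)).erase 1,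
        χ ((a : ZMod d)⁻¹) * ∑ m ∈ Icc 1 y, f m * χ (m : ZMod d) := by
    rw [h1, h3]
    ring
  rw [h5, norm_mul]
  have h6 : ‖1 / (Nat.totient d : ℂ)‖ = 1 / (Nat.totient d : ℝ) := by
    rw [norm_div, norm_one, Complex.norm_natCast]
  rw [h6]
  apply mul_le_mul_of_nonneg_left _ (by positivity)
  -- the norms
  have h7 : ∀ χ : DirichletCharacter ℂ d, ∑ m ∈ Icc 1 y, f m * χ (m : ZMod d) =
      ∑ m ∈ (Icc 1 y).filter (fun m => m.Coprime (d / (BV1A_P χ).1)),
        f m * (BV1A_P χ).2 (m : ZMod (BV1A_P χ).1) := by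
    intro χ
    rw [sum_filter]
    apply sum_congr rfl
    intro m _
    rw [BV1A_val χ m]
    by_cases hm : m.Coprime (d / χ.conductor)
    · rw [if_pos hm]
      have hm' : m.Coprime (d / (BV1A_P χ).1) := hm
      rw [if_pos hm']
      rfl
    · rw [if_neg hm]
      have hm' : ¬ m.Coprime (d / (BV1A_P χ).1) := hm
      rw [if_neg hm', mul_zero]
  obtain ⟨G, hG⟩ : ∃ G : PCh → ℝ, G = fun p =>
    ‖∑ m ∈ (Icc 1 y).filter (fun m => m.Coprime (d / p.1)), f m * p.2 (m : ZMod p.1)‖ := ⟨_, rfl⟩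
  have h8 : ‖∑ χ ∈ (univ : Finset (DirichletCharacter ℂ d)).erase 1,
        χ ((a : ZMod d)⁻¹) * ∑ m ∈ Icc 1 y, f m * χ (m : ZMod d)‖ ≤
      ∑ χ ∈ (univ : Finset (DirichletCharacter ℂ d)).erase 1, G (BV1A_P χ) := by
    refine (norm_sum_le _ _).trans ?_
    apply sum_le_sum
    intro χ _
    rw [norm_mul, h7 χ, hG]
    calc ‖χ ((a : ZMod d)⁻¹)‖ * _ ≤ 1 * _ :=
          mul_le_mul_of_nonneg_right (DirichletCharacter.norm_le_one _ _) (norm_nonneg _)
      _ = _ := one_mul _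
  refine h8.trans ?_
  have h9 : ∑ χ ∈ (univ : Finset (DirichletCharacter ℂ d)).erase 1, G (BV1A_P χ) =
      ∑ p ∈ ((univ : Finset (DirichletCharacter ℂ d)).erase 1).image BV1A_P, G p := by
    rw [sum_image]
    intro χ _ ψ _ h
    exact BV1A_inj h
  rw [h9]
  have h10 : ∑ p ∈ (PC d).filter (fun p => p ≠ p0 ∧ p.1 ∣ d),
        ‖∑ m ∈ (Icc 1 y).filter (fun m => m.Coprime (d / p.1)), f m * p.2 (m : ZMod p.1)‖ =
      ∑ p ∈ (PC d).filter (fun p => p ≠ p0 ∧ p.1 ∣ d), G p := by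
    rw [hG]
  rw [h10]
  apply sum_le_sum_of_subset_of_nonneg
  · intro p hp
    rw [mem_image] at hp
    obtain ⟨χ, hχ, rfl⟩ := hp
    have hχ1 := ne_of_mem_erase hχ
    rw [mem_filter, Pool.Agent.Lib.H68T.mem_PC]
    have hc0 : χ.conductor ≠ 0 := χ.conductor_ne_zero
    refine ⟨⟨?_, ?_, ?_⟩, ?_, ?_⟩
    · exact Nat.one_le_iff_ne_zero.mpr hc0
    · exact Nat.le_of_dvd hd χ.conductor_dvd_level
    · exact χ.primitiveCharacter_isPrimitive
    · intro h
      apply hχ1
      rw [← BV1A_LP χ, h, BV1A_p0]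
    · exact χ.conductor_dvd_level
  · intro p _ _
    rw [hG]
    exact norm_nonneg _

end Pool.Agent.Lib.H59C
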