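import Pool.Agent.Lib.H59C.Defs
import Pool.Agent.Lib.H59C.BV1A

/-!
# BV1B: the case of the primes
-/

open Finset

namespace Pool.Agent.Lib.H59C

open Pool.Agent.Lib.H68T (PC p0 e)

open Classical in
/-- The number of primitive characters of conductor dividing `d` is at most `φ(d)`. -/
theorem BV1B_card (d : ℕ) (hd : 1 ≤ d) :
    ((PC d).filter (fun p => p ≠ p0 ∧ p.1 ∣ d)).card ≤ Nat.totient d := by
  have hne : NeZero d := ⟨by omega⟩
  have h1 : ((PC d).filter (fun p => p ≠ p0 ∧ p.1 ∣ d)).card ≤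
      (univ : Finset (DirichletCharacter ℂ d)).card := by
    apply Finset.card_le_card_of_injOn (fun p => BV1A_L d p)
    · intro p _
      exact mem_coe.mpr (mem_univ _)
    · intro p hp q hq h
      rw [mem_coe, mem_filter, Pool.Agent.Lib.H68T.mem_PC] at hp hq
      obtain ⟨⟨_, _, hp1⟩, _, hpd⟩ := hp
      obtain ⟨⟨_, _, hq1⟩, _, hqd⟩ := hq
      have h' : BV1A_L d p = BV1A_L d q := h
      unfold BV1A_L at h'
      rw [dif_pos hpd, dif_pos hqd] at h'
      have h2 : p.2.conductor = q.2.conductor := by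
        have h3 := congrArg DirichletCharacter.conductor h'
        rw [DirichletCharacter.conductor_changeLevel, DirichletCharacter.conductor_changeLevel] at h3
        exact h3
      rw [DirichletCharacter.isPrimitive_def] at hp1 hq1
      rw [hp1, hq1] at h2
      obtain ⟨r, χ⟩ := p
      obtain ⟨s, ψ⟩ := q
      simp only at h2
      subst h2
      have h4 := DirichletCharacter.changeLevel_injective hpd h'
      simp only at h4
      rw [h4]
  refine h1.trans ?_
  rw [card_univ, ← Nat.card_eq_fintype_card, DirichletCharacter.card_eq_totient_of_hasEnoughRootsOfUnity]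

theorem BV1B_omega (d : ℕ) (hd : 1 ≤ d) : (d.primeFactors.card : ℝ) ≤ 2 * Real.log d := by
  have hl2 : (0.69 : ℝ) < Real.log 2 := by
    have := Real.log_two_gt_d9
    linarith
  have h1 : 2 ^ d.primeFactors.card ≤ ∏ q ∈ d.primeFactors, q := by
    apply Finset.pow_card_le_prod
    intro q hq
    exact (Nat.prime_of_mem_primeFactors hq).two_le
  have h2 : ∏ q ∈ d.primeFactors, q ≤ d := Nat.le_of_dvd hd (Nat.prod_primeFactors_dvd d)
  have h3 : ((2 : ℝ) ^ d.primeFactors.card) ≤ d := by exact_mod_cast h1.trans h2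
  have h4 := Real.log_le_log (by positivity) h3
  rw [Real.log_pow] at h4
  have h5 : (0 : ℝ) ≤ (d.primeFactors.card : ℝ) := by positivity
  nlinarith

/-- The prime powers not coprime to `d`. -/
theorem BV1B_N (d y : ℕ) (hd : 1 ≤ d) (hy : 1 ≤ y) :
    ∑ m ∈ (Icc 1 y).filter (fun m => ¬ m.Coprime d), ArithmeticFunction.vonMangoldt m ≤
      2 * Real.log d * Real.log y := by
  have hly : 0 ≤ Real.log y := Real.log_nonneg (by exact_mod_cast hy)
  have h1 : ∀ m ∈ (Icc 1 y).filter (fun m => ¬ m.Coprime d),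
      ArithmeticFunction.vonMangoldt m ≤ ∑ q ∈ d.primeFactors, ∑ k ∈ Icc 1 (Nat.log q y),
        if m = q ^ k then Real.log q else 0 := by
    intro m hm
    rw [mem_filter, mem_Icc] at hm
    obtain ⟨⟨hm1, hm2⟩, hm3⟩ := hm
    have hnn : ∀ q ∈ d.primeFactors, 0 ≤ ∑ k ∈ Icc 1 (Nat.log q y),
        if m = q ^ k then Real.log q else 0 := by
      intro q hq
      apply sum_nonneg
      intro k _
      split_ifs
      · exact Real.log_nonneg (by exact_mod_cast (Nat.prime_of_mem_primeFactors hq).one_le)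
      · exact le_rfl
    by_cases h0 : IsPrimePow m
    · obtain ⟨q, k, hq, hk, rfl⟩ := (isPrimePow_nat_iff m).mp h0
      have hqd : q ∣ d := by
        by_contra hqd
        exact hm3 (Nat.Coprime.pow_left k ((Nat.Prime.coprime_iff_not_dvd hq).mpr hqd))
      have hqm : q ∈ d.primeFactors := Nat.mem_primeFactors.mpr ⟨hq, hqd, by omega⟩
      refine le_trans ?_ (single_le_sum hnn hqm)
      have hkm : k ∈ Icc 1 (Nat.log q y) := by
        rw [mem_Icc]
        exact ⟨hk, Nat.le_log_of_pow_le hq.one_lt hm2⟩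
      refine le_trans ?_ (single_le_sum (f := fun k' => if q ^ k = q ^ k' then Real.log q else 0)
        (fun k' _ => ?_) hkm)
      · rw [if_pos rfl, ArithmeticFunction.vonMangoldt_apply_pow (by omega),
          ArithmeticFunction.vonMangoldt_apply_prime hq]
      · show 0 ≤ if q ^ k = q ^ k' then Real.log q else 0
        split_ifs
        · exact Real.log_nonneg (by exact_mod_cast hq.one_le)
        · exact le_rfl
    · rw [ArithmeticFunction.vonMangoldt_eq_zero_iff.mpr h0]
      exact sum_nonneg hnn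
  have h2 : ∑ m ∈ (Icc 1 y).filter (fun m => ¬ m.Coprime d), ArithmeticFunction.vonMangoldt m ≤
      ∑ q ∈ d.primeFactors, Real.log y := by
    refine (sum_le_sum h1).trans ?_
    rw [sum_comm]
    apply sum_le_sum
    intro q hq
    have hqp := Nat.prime_of_mem_primeFactors hq
    have hlq : 0 ≤ Real.log q := Real.log_nonneg (by exact_mod_cast hqp.one_le)
    rw [sum_comm]
    have h3 : ∀ k ∈ Icc 1 (Nat.log q y),
        ∑ m ∈ (Icc 1 y).filter (fun m => ¬ m.Coprime d), (if m = q ^ k then Real.log q else 0) ≤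
          Real.log q := by
      intro k _
      rw [Finset.sum_ite_eq']
      split_ifs
      · exact le_rfl
      · exact hlq
    refine (sum_le_sum h3).trans ?_
    rw [sum_const, Nat.card_Icc, nsmul_eq_mul, Nat.add_sub_cancel]
    have h4 : q ^ (Nat.log q y) ≤ y := Nat.pow_log_le_self q (by omega)
    have h5 : ((q : ℝ) ^ (Nat.log q y)) ≤ y := by exact_mod_cast h4
    have h6 := Real.log_le_log (by
      have : (0 : ℝ) < q := by exact_mod_cast hqp.pos
      positivity) h5
    rw [Real.log_pow] at h6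
    exact h6
  refine h2.trans ?_
  rw [sum_const, nsmul_eq_mul]
  exact mul_le_mul_of_nonneg_right (BV1B_omega d hd) hly

theorem BV1B_Ioc (y : ℕ) : Ioc 0 ⌊(y : ℝ)⌋₊ = Icc 1 y := by
  rw [Nat.floor_natCast]
  ext m
  rw [mem_Ioc, mem_Icc]
  omega

/-- The prime powers with exponent at least two. -/
theorem BV1B_P (y : ℕ) (hy : 1 ≤ y) :
    ∑ m ∈ (Icc 1 y).filter (fun m => ¬ m.Prime), ArithmeticFunction.vonMangoldt m ≤
      2 * Real.sqrt y * Real.log y := by
  have h1 := Chebyshev.psi_sub_theta_le (x := (y : ℝ)) (by exact_mod_cast hy)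
  rw [Chebyshev.psi_sub_theta_eq_sum_not_prime, BV1B_Ioc] at h1
  exact h1

/-- Splitting into primes and prime powers. -/
theorem BV1B_split (y : ℕ) (P : ℕ → Prop) [DecidablePred P] :
    ∑ m ∈ (Icc 1 y).filter P, ArithmeticFunction.vonMangoldt m =
      ∑ q ∈ (Icc 1 y).filter (fun q => q.Prime ∧ P q), Real.log q +
      ∑ m ∈ (Icc 1 y).filter (fun m => ¬ m.Prime ∧ P m), ArithmeticFunction.vonMangoldt m := by
  simp_rw [sum_filter]
  rw [← sum_add_distrib]
  apply sum_congr rfl
  intro m _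
  by_cases h1 : m.Prime <;> by_cases h2 : P m
  · simp [h1, h2, ArithmeticFunction.vonMangoldt_apply_prime]
  · simp [h1, h2]
  · simp [h1, h2]
  · simp [h1, h2]

theorem BV1B_sub (y : ℕ) (hy : 1 ≤ y) (P : ℕ → Prop) [DecidablePred P] :
    ∑ m ∈ (Icc 1 y).filter (fun m => ¬ m.Prime ∧ P m), ArithmeticFunction.vonMangoldt m ≤
      2 * Real.sqrt y * Real.log y := by
  refine le_trans ?_ (BV1B_P y hy)
  apply sum_le_sum_of_subset_of_nonneg
  · intro m hm
    rw [mem_filter] at hm ⊢
    exact ⟨hm.1, hm.2.1⟩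
  · intro m _ _
    exact ArithmeticFunction.vonMangoldt_nonneg

open Classical in
/-- The case of the primes: `prog_gen` with `f = Λ`; prime powers contribute at most
`2 √y log y` (`Chebyshev.psi_sub_theta_le`), the `m` not coprime to `d` (or `d/r`) at most
`∑_{p ∣ d} log y/log p · log p ≤ 2 log d log y`. (There are at most `φ(d)` characters.) -/
theorem prog_le : ∃ C : ℝ, 0 < C ∧ ∀ (d a y : ℕ), 1 ≤ d → d ≤ y → a.Coprime d → 2 ≤ y →
    |thp y d a - th y / (Nat.totient d : ℝ)| ≤
      1 / (Nat.totient d : ℝ) * ∑ p ∈ (PC d).filter (fun p => p ≠ p0 ∧ p.1 ∣ d), ‖psi y p‖ +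
      C * Real.sqrt y * Real.log y ^ 2 := by
  refine ⟨100, by norm_num, ?_⟩
  intro d a y hd hdy ha hy
  have hy1 : 1 ≤ y := by omega
  have hl2 : (0.69 : ℝ) < Real.log 2 := by
    have := Real.log_two_gt_d9
    linarith
  have hly : Real.log 2 ≤ Real.log y :=
    Real.log_le_log (by norm_num) (by exact_mod_cast hy)
  have hld : Real.log d ≤ Real.log y :=
    Real.log_le_log (by exact_mod_cast hd) (by exact_mod_cast hdy)
  have hld0 : 0 ≤ Real.log d := Real.log_nonneg (by exact_mod_cast hd)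
  have hs1 : 1 ≤ Real.sqrt y := by
    rw [Real.one_le_sqrt]
    exact_mod_cast hy1
  have hφ : 1 ≤ (Nat.totient d : ℝ) := by exact_mod_cast Nat.totient_pos.mpr hd
  -- the error
  obtain ⟨E, hE⟩ : ∃ E, E = 2 * Real.sqrt y * Real.log y := ⟨_, rfl⟩
  obtain ⟨N, hN⟩ : ∃ N, N = 2 * Real.log d * Real.log y := ⟨_, rfl⟩
  have hE1 : E ≤ 4 * (Real.sqrt y * Real.log y ^ 2) := by
    rw [hE]
    have h1 : Real.log y ≤ 2 * Real.log y ^ 2 := by nlinarith
    have h2 := mul_le_mul_of_nonneg_left h1 (by positivity : 0 ≤ 2 * Real.sqrt y)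
    linarith
  have hN1 : N ≤ 2 * (Real.sqrt y * Real.log y ^ 2) := by
    rw [hN]
    have h1 : Real.log d * Real.log y ≤ Real.log y ^ 2 := by nlinarith
    have h2 : Real.log y ^ 2 ≤ Real.sqrt y * Real.log y ^ 2 := by
      nlinarith [sq_nonneg (Real.log y)]
    linarith
  have hE0 : 0 ≤ E := by
    rw [hE]
    have : 0 ≤ Real.log y := by linarith
    positivity
  have hN0 : 0 ≤ N := by
    rw [hN]
    have : 0 ≤ Real.log y := by linarith
    positivity
  have hPN := BV1B_N d y hd hy1
  rw [← hN] at hPN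
  -- the orthogonality
  have hg := prog_gen d a y hd ha (fun m => (ArithmeticFunction.vonMangoldt m : ℂ))
  -- left side
  have hL : ‖∑ m ∈ (Icc 1 y).filter (fun m => m ≡ a [MOD d]),
        (ArithmeticFunction.vonMangoldt m : ℂ) -
      1 / (Nat.totient d : ℂ) * ∑ m ∈ (Icc 1 y).filter (fun m => m.Coprime d),
        (ArithmeticFunction.vonMangoldt m : ℂ)‖ =
      |∑ m ∈ (Icc 1 y).filter (fun m => m ≡ a [MOD d]), ArithmeticFunction.vonMangoldt m -
      1 / (Nat.totient d : ℝ) * ∑ m ∈ (Icc 1 y).filter (fun m => m.Coprime d),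
        ArithmeticFunction.vonMangoldt m| := by
    rw [← Real.norm_eq_abs, ← Complex.norm_real]
    congr 1
    push_cast
    ring
  rw [hL] at hg
  -- the class
  have hA : |thp y d a - ∑ m ∈ (Icc 1 y).filter (fun m => m ≡ a [MOD d]),
      ArithmeticFunction.vonMangoldt m| ≤ E := by
    rw [BV1B_split y (fun m => m ≡ a [MOD d])]
    have h1 := BV1B_sub y hy1 (fun m => m ≡ a [MOD d])
    have h2 : 0 ≤ ∑ m ∈ (Icc 1 y).filter (fun m => ¬ m.Prime ∧ m ≡ a [MOD d]),
        ArithmeticFunction.vonMangoldt m :=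
      sum_nonneg fun m _ => ArithmeticFunction.vonMangoldt_nonneg
    rw [← hE] at h1
    have h3 : thp y d a = ∑ q ∈ (Icc 1 y).filter (fun q => q.Prime ∧ q ≡ a [MOD d]),
      Real.log q := rfl
    rw [← h3, abs_le]
    constructor <;> linarith
  -- all primes
  have hT : |∑ m ∈ (Icc 1 y).filter (fun m => m.Coprime d), ArithmeticFunction.vonMangoldt m -
      th y| ≤ E + N := by
    have h1 : ∑ m ∈ (Icc 1 y).filter (fun m => m.Coprime d), ArithmeticFunction.vonMangoldt m +
        ∑ m ∈ (Icc 1 y).filter (fun m => ¬ m.Coprime d), ArithmeticFunction.vonMangoldt m =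
        ∑ m ∈ Icc 1 y, ArithmeticFunction.vonMangoldt m :=
      sum_filter_add_sum_filter_not _ _ _
    have h2 : ∑ m ∈ Icc 1 y, ArithmeticFunction.vonMangoldt m =
        th y + ∑ m ∈ (Icc 1 y).filter (fun m => ¬ m.Prime),
          ArithmeticFunction.vonMangoldt m := by
      have h3 := BV1B_split y (fun _ => True)
      simp only [and_true, filter_true] at h3
      rw [h3]
      rfl
    have h4 := BV1B_P y hy1
    rw [← hE] at h4
    have h5 : 0 ≤ ∑ m ∈ (Icc 1 y).filter (fun m => ¬ m.Prime),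
        ArithmeticFunction.vonMangoldt m :=
      sum_nonneg fun m _ => ArithmeticFunction.vonMangoldt_nonneg
    have h6 : 0 ≤ ∑ m ∈ (Icc 1 y).filter (fun m => ¬ m.Coprime d),
        ArithmeticFunction.vonMangoldt m :=
      sum_nonneg fun m _ => ArithmeticFunction.vonMangoldt_nonneg
    rw [abs_le]
    constructor <;> linarith
  -- the characters
  have hC : ∀ p ∈ (PC d).filter (fun p => p ≠ p0 ∧ p.1 ∣ d),
      ‖∑ m ∈ (Icc 1 y).filter (fun m => m.Coprime (d / p.1)),
        (ArithmeticFunction.vonMangoldt m : ℂ) * p.2 (m : ZMod p.1)‖ ≤ ‖psi y p‖ + N := by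
    intro p hp
    rw [mem_filter] at hp
    have h1 : ∑ m ∈ (Icc 1 y).filter (fun m => m.Coprime (d / p.1)),
        (ArithmeticFunction.vonMangoldt m : ℂ) * p.2 (m : ZMod p.1) +
        ∑ m ∈ (Icc 1 y).filter (fun m => ¬ m.Coprime (d / p.1)),
        (ArithmeticFunction.vonMangoldt m : ℂ) * p.2 (m : ZMod p.1) = psi y p :=
      sum_filter_add_sum_filter_not _ _ _
    have h2 : ‖∑ m ∈ (Icc 1 y).filter (fun m => ¬ m.Coprime (d / p.1)),
        (ArithmeticFunction.vonMangoldt m : ℂ) * p.2 (m : ZMod p.1)‖ ≤ N := by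
      refine (norm_sum_le _ _).trans ?_
      refine le_trans ?_ hPN
      refine le_trans (b := ∑ m ∈ (Icc 1 y).filter (fun m => ¬ m.Coprime (d / p.1)),
        ArithmeticFunction.vonMangoldt m) ?_ ?_
      · apply sum_le_sum
        intro m _
        rw [norm_mul, Complex.norm_real, Real.norm_eq_abs,
          abs_of_nonneg ArithmeticFunction.vonMangoldt_nonneg]
        calc _ ≤ ArithmeticFunction.vonMangoldt m * 1 :=
              mul_le_mul_of_nonneg_left (DirichletCharacter.norm_le_one _ _)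
                ArithmeticFunction.vonMangoldt_nonneg
          _ = _ := mul_one _
      · apply sum_le_sum_of_subset_of_nonneg
        · intro m hm
          rw [mem_filter] at hm ⊢
          exact ⟨hm.1, fun h => hm.2 (Nat.Coprime.coprime_dvd_right
            (Nat.div_dvd_of_dvd hp.2.2) h)⟩
        · intro m _ _
          exact ArithmeticFunction.vonMangoldt_nonneg
    have h3 : ∑ m ∈ (Icc 1 y).filter (fun m => m.Coprime (d / p.1)),
        (ArithmeticFunction.vonMangoldt m : ℂ) * p.2 (m : ZMod p.1) = psi y p -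
        ∑ m ∈ (Icc 1 y).filter (fun m => ¬ m.Coprime (d / p.1)),
        (ArithmeticFunction.vonMangoldt m : ℂ) * p.2 (m : ZMod p.1) := by
      rw [← h1]; ring
    rw [h3]
    exact (norm_sub_le _ _).trans (by linarith)
  have hS := sum_le_sum hC
  rw [sum_add_distrib, sum_const, nsmul_eq_mul] at hS
  have hcard : ((((PC d).filter (fun p => p ≠ p0 ∧ p.1 ∣ d)).card : ℕ) : ℝ) ≤
      (Nat.totient d : ℝ) := by exact_mod_cast BV1B_card d hd
  have hS2 := mul_le_mul_of_nonneg_left hS (by positivity : 0 ≤ 1 / (Nat.totient d : ℝ))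
  have hS3 : 1 / (Nat.totient d : ℝ) *
      ((((PC d).filter (fun p => p ≠ p0 ∧ p.1 ∣ d)).card : ℕ) * N) ≤ N := by
    rw [← mul_assoc]
    calc _ ≤ 1 * N := by
          apply mul_le_mul_of_nonneg_right _ hN0
          rw [one_div, inv_mul_le_iff₀ (by linarith), mul_one]
          exact hcard
      _ = N := one_mul N
  rw [mul_add] at hS2
  -- assembly
  obtain ⟨TA, hTA⟩ : ∃ TA, TA = ∑ m ∈ (Icc 1 y).filter (fun m => m ≡ a [MOD d]),
      ArithmeticFunction.vonMangoldt m := ⟨_, rfl⟩
  obtain ⟨TC, hTC⟩ : ∃ TC, TC = ∑ m ∈ (Icc 1 y).filter (fun m => m.Coprime d),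
      ArithmeticFunction.vonMangoldt m := ⟨_, rfl⟩
  rw [← hTA] at hg hA
  rw [← hTC] at hg hT
  have hT2 : |1 / (Nat.totient d : ℝ) * TC - th y / (Nat.totient d : ℝ)| ≤ E + N := by
    have h1 : 1 / (Nat.totient d : ℝ) * TC - th y / (Nat.totient d : ℝ) =
        (1 / (Nat.totient d : ℝ)) * (TC - th y) := by ring
    rw [h1, abs_mul, abs_of_nonneg (by positivity)]
    calc _ ≤ 1 * (E + N) := by
          apply mul_le_mul _ hT (abs_nonneg _) zero_le_one
          rw [div_le_one (by linarith)]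
          exact hφ
      _ = _ := one_mul _
  have h7 : |thp y d a - th y / (Nat.totient d : ℝ)| ≤ E +
      |TA - 1 / (Nat.totient d : ℝ) * TC| + (E + N) := by
    have h8 : thp y d a - th y / (Nat.totient d : ℝ) = (thp y d a - TA) +
      (TA - 1 / (Nat.totient d : ℝ) * TC) +
      (1 / (Nat.totient d : ℝ) * TC - th y / (Nat.totient d : ℝ)) := by ring
    rw [h8]
    refine (abs_add_le _ _).trans ?_
    refine add_le_add ((abs_add_le _ _).trans ?_) hT2
    exact add_le_add hA le_rfl
  have h9 : (100 : ℝ) * Real.sqrt y * Real.log y ^ 2 =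
      100 * (Real.sqrt y * Real.log y ^ 2) := by ring
  nlinarith [hg, h7, hS2, hS3, hE1, hN1]

end Pool.Agent.Lib.H59C
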