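import Pool.Agent.Lib.H59C.CDefs
import Pool.Agent.Lib.Sieve.Averages

/-!
# CE2P: a sifting product
-/

open Finset

namespace Pool.Agent.Lib.H59C

theorem CE2P_hl (S : Finset ℕ) (N : ℕ) (hN : 0 < N) (hS : ∀ q ∈ S, q.Prime ∧ 7 ≤ q) :
    ∏ q ∈ S, (if q ∣ N then ((q : ℝ) - 1) / (q - 2) else 1) ≤ hl N := by
  classical
  rw [← Finset.prod_filter]
  unfold hl
  have h1 : ∀ q : ℕ, 2 < q → (1 : ℝ) ≤ ((q : ℝ) - 1) / (q - 2) := by
    intro q hq
    have h3 : (2 : ℝ) < q := by exact_mod_cast hq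
    rw [le_div_iff₀ (by linarith)]
    linarith
  apply Finset.prod_le_prod_of_subset_of_one_le
  · intro q hq
    obtain ⟨hq1, hq2⟩ := Finset.mem_filter.1 hq
    obtain ⟨hp, h7⟩ := hS q hq1
    rw [Finset.mem_filter, Nat.mem_primeFactors]
    exact ⟨⟨hp, hq2, hN.ne'⟩, by omega⟩
  · intro q hq
    obtain ⟨hq1, hq2⟩ := Finset.mem_filter.1 hq
    have := h1 q (by have := (hS q hq1).2; omega)
    linarith
  · intro q hq _
    exact h1 q (Finset.mem_filter.1 hq).2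

theorem CE2P_F (w p1 : ℕ) :
    ∏ q ∈ (Finset.range (w + 1)).filter (fun q => q.Prime ∧ 7 ≤ q ∧ q ≠ p1), (1 - 1 / (q : ℝ)) ≤
      16 * ∏ p ∈ Sieve.primesUpTo w, (1 - 1 / (p : ℝ)) := by
  classical
  set F := (Finset.range (w + 1)).filter (fun q => q.Prime ∧ 7 ≤ q ∧ q ≠ p1) with hF
  set A := Sieve.primesUpTo w with hA
  have hFA : F ⊆ A := by
    intro q hq
    rw [hF, Finset.mem_filter, Finset.mem_range] at hq
    rw [hA, Sieve.mem_primesUpTo]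
    exact ⟨hq.2.1, by omega⟩
  have hf : ∀ q ∈ A, (1 / 2 : ℝ) ≤ 1 - 1 / (q : ℝ) ∧ 1 - 1 / (q : ℝ) ≤ 1 := by
    intro q hq
    rw [hA, Sieve.mem_primesUpTo] at hq
    have h2 : (2 : ℝ) ≤ q := by exact_mod_cast hq.1.two_le
    have h3 : 1 / (q : ℝ) ≤ 1 / 2 := one_div_le_one_div_of_le (by norm_num) h2
    have h4 : 0 ≤ 1 / (q : ℝ) := by positivity
    constructor <;> linarith
  have hsub : A \ F ⊆ {2, 3, 5, p1} := by
    intro q hq
    rw [Finset.mem_sdiff, hA, Sieve.mem_primesUpTo, hF, Finset.mem_filter, Finset.mem_range] at hq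
    obtain ⟨⟨hp, hw⟩, hn⟩ := hq
    simp only [Finset.mem_insert, Finset.mem_singleton]
    by_contra hc
    push Not at hc
    obtain ⟨c2, c3, c5, cp⟩ := hc
    apply hn
    refine ⟨by omega, hp, ?_, cp⟩
    by_contra h7
    push Not at h7
    interval_cases q <;> first | omega | (exact absurd hp (by norm_num))
  have hcard : (A \ F).card ≤ 4 := (Finset.card_le_card hsub).trans Finset.card_le_four
  have hlow : (1 / 16 : ℝ) ≤ ∏ q ∈ A \ F, (1 - 1 / (q : ℝ)) := by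
    calc (1 / 16 : ℝ) = (1 / 2) ^ 4 := by norm_num
      _ ≤ (1 / 2) ^ (A \ F).card := pow_le_pow_of_le_one (by norm_num) (by norm_num) hcard
      _ = ∏ q ∈ A \ F, (1 / 2 : ℝ) := by rw [Finset.prod_const]
      _ ≤ _ := Finset.prod_le_prod (fun _ _ => by norm_num)
        (fun q hq => (hf q (Finset.mem_sdiff.1 hq).1).1)
  have hF0 : 0 ≤ ∏ q ∈ F, (1 - 1 / (q : ℝ)) :=
    Finset.prod_nonneg fun q hq => by linarith [(hf q (hFA hq)).1]
  rw [← Finset.prod_sdiff hFA]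
  nlinarith

/-- Proof. `(1 - 2/q) ≤ (1 - 1/q)²` and, for `q ∣ N`, `(1 - 1/q) = (1 - 2/q) (q - 1)/(q - 2)`, so the product is at most
`hl N ∏_{7 ≤ q ≤ w, q ≠ p1} (1 - 1/q)²`; `∏_{q ≤ w} (1 - 1/q) ≤ 1/log w` (`Sieve.prod_one_sub_inv_le`), and the factors
`q = 2, 3, 5, p1` cost a constant. -/
theorem ce2_prod : ∃ C : ℝ, 0 < C ∧ ∀ (w N p1 : ℕ), 2 ≤ w → 0 < N →
    ∏ q ∈ (Finset.range (w + 1)).filter (fun q => q.Prime ∧ 7 ≤ q ∧ q ≠ p1),
      (1 - (if q ∣ N then 1 else 2 : ℝ) / q) ≤ C * hl N / Real.log w ^ 2 := by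
  refine ⟨256, by norm_num, ?_⟩
  intro w N p1 hw hN
  set F := (Finset.range (w + 1)).filter (fun q => q.Prime ∧ 7 ≤ q ∧ q ≠ p1) with hF
  have hFp : ∀ q ∈ F, q.Prime ∧ 7 ≤ q := by
    intro q hq
    rw [hF, Finset.mem_filter] at hq
    exact ⟨hq.2.1, hq.2.2.1⟩
  have h1 : ∏ q ∈ F, (1 - (if q ∣ N then 1 else 2 : ℝ) / q) ≤
      ∏ q ∈ F, ((1 - 1 / (q : ℝ)) ^ 2 * (if q ∣ N then ((q : ℝ) - 1) / (q - 2) else 1)) := by
    apply Finset.prod_le_prod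
    · intro q hq
      have h7 : (7 : ℝ) ≤ q := by exact_mod_cast (hFp q hq).2
      rw [sub_nonneg, div_le_one (by linarith)]
      split_ifs <;> linarith
    · intro q hq
      have h7 : (7 : ℝ) ≤ q := by exact_mod_cast (hFp q hq).2
      have h0 : (0 : ℝ) < q := by linarith
      have h2 : (0 : ℝ) < q - 2 := by linarith
      split_ifs with hd
      · have e : (1 - 1 / (q : ℝ)) ^ 2 * (((q : ℝ) - 1) / (q - 2)) - (1 - 1 / q) =
            (1 - 1 / (q : ℝ)) * (1 / (q * (q - 2))) := by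
          field_simp
          ring
        have h3 : 1 / (q : ℝ) ≤ 1 := by
          rw [div_le_one h0]
          linarith
        have h4 : 0 ≤ (1 - 1 / (q : ℝ)) * (1 / (q * (q - 2))) :=
          mul_nonneg (by linarith) (by positivity)
        linarith
      · rw [mul_one]
        have e : (1 - 1 / (q : ℝ)) ^ 2 = 1 - 2 / q + (1 / q) ^ 2 := by ring
        rw [e]
        nlinarith [sq_nonneg (1 / (q : ℝ))]
  have h2 : ∏ q ∈ F, ((1 - 1 / (q : ℝ)) ^ 2 * (if q ∣ N then ((q : ℝ) - 1) / (q - 2) else 1)) =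
      (∏ q ∈ F, (1 - 1 / (q : ℝ))) ^ 2 * ∏ q ∈ F, (if q ∣ N then ((q : ℝ) - 1) / (q - 2) else 1) := by
    rw [Finset.prod_mul_distrib, Finset.prod_pow]
  have h3 := CE2P_hl F N hN hFp
  have h4 := CE2P_F w p1
  rw [← hF] at h4
  have h5 := Sieve.prod_one_sub_inv_le w hw
  have hlog : 0 < Real.log w := Real.log_pos (by exact_mod_cast (by omega : 1 < w))
  have h6 : ∏ q ∈ F, (1 - 1 / (q : ℝ)) ≤ 16 / Real.log w := by
    refine h4.trans ?_
    calc 16 * ∏ p ∈ Sieve.primesUpTo w, (1 - 1 / (p : ℝ)) ≤ 16 * (1 / Real.log w) :=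
          mul_le_mul_of_nonneg_left h5 (by norm_num)
      _ = 16 / Real.log w := by ring
  have hF0 : 0 ≤ ∏ q ∈ F, (1 - 1 / (q : ℝ)) := by
    apply Finset.prod_nonneg
    intro q hq
    have h7 : (7 : ℝ) ≤ q := by exact_mod_cast (hFp q hq).2
    rw [sub_nonneg, div_le_one (by linarith)]
    linarith
  have h7 : (∏ q ∈ F, (1 - 1 / (q : ℝ))) ^ 2 ≤ (16 / Real.log w) ^ 2 :=
    pow_le_pow_left₀ hF0 h6 2
  have hhl : 0 ≤ hl N := le_trans zero_le_one (one_le_hl N)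
  calc ∏ q ∈ F, (1 - (if q ∣ N then 1 else 2 : ℝ) / q)
      ≤ (∏ q ∈ F, (1 - 1 / (q : ℝ))) ^ 2 *
        ∏ q ∈ F, (if q ∣ N then ((q : ℝ) - 1) / (q - 2) else 1) := h1.trans (le_of_eq h2)
    _ ≤ (∏ q ∈ F, (1 - 1 / (q : ℝ))) ^ 2 * hl N := mul_le_mul_of_nonneg_left h3 (sq_nonneg _)
    _ ≤ (16 / Real.log w) ^ 2 * hl N := mul_le_mul_of_nonneg_right h7 hhl
    _ = 256 * hl N / Real.log w ^ 2 := by
      rw [div_pow]
      ring

end Pool.Agent.Lib.H59C
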