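import Pool.Agent.Lib.H59C.CDL

/-!
# CN1: from the boxes to triples of primes
-/

open Finset

namespace Pool.Agent.Lib.H59C

/-- The smallest value of `|N - p|`, `p ∈ [y1, y2]`. -/
def dlo (N y1 y2 : ℕ) : ℕ := if y2 < N then N - y2 else y1 - N

/-- The largest value of `|N - p|`, `p ∈ [y1, y2]`. -/
def dhi (N y1 y2 : ℕ) : ℕ := if y2 < N then N - y1 else y2 - N

open Classical in
/-- The primes `q` with `q1 q2 q` (`k = q1 q2`) in the slightly enlarged interval. -/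
noncomputable def qr (n N y1 y2 : ℕ) (δ : ℝ) (k : ℕ) : Finset ℕ :=
  (Icc 1 (3 * n)).filter (fun q => q.Prime ∧ (dlo N y1 y2 : ℝ) ≤ (1 + 2 * δ) ^ 2 * (k * q) ∧
    (k * q : ℝ) ≤ (1 + 2 * δ) ^ 2 * dhi N y1 y2)

theorem cn1_mono (δ : ℝ) (hδ : 0 < δ) : Monotone (lv δ) := by
  intro i j hij
  unfold lv
  exact Nat.floor_le_floor (pow_le_pow_right₀ (by linarith) hij)

theorem cn1_uniq (δ : ℝ) (hδ : 0 < δ) {m i i' : ℕ} (h1 : lv δ i < m) (h2 : m ≤ lv δ (i + 1))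
    (h1' : lv δ i' < m) (h2' : m ≤ lv δ (i' + 1)) : i = i' := by
  rcases lt_trichotomy i i' with h | h | h
  · have := cn1_mono δ hδ (show i + 1 ≤ i' by omega)
    omega
  · exact h
  · have := cn1_mono δ hδ (show i' + 1 ≤ i by omega)
    omega

/-- Consecutive ends. -/
theorem cn1_ratio (δ : ℝ) (hδ : 0 < δ) (w i : ℕ) (hw : (1 + δ) * (1 + (1 + δ) / δ) ≤ w)
    (h : w ≤ lv δ (i + 1)) : (lv δ (i + 1) : ℝ) ≤ (1 + 2 * δ) * lv δ i := by
  have h1 : (lv δ (i + 1) : ℝ) ≤ (1 + δ) ^ (i + 1) := by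
    unfold lv
    exact Nat.floor_le (by positivity)
  have h2 : (1 + δ) ^ i < (lv δ i : ℝ) + 1 := by
    unfold lv
    exact Nat.lt_floor_add_one _
  have h3 : (w : ℝ) ≤ (lv δ (i + 1) : ℝ) := by exact_mod_cast h
  rw [pow_succ] at h1
  have h4 : (1 + (1 + δ) / δ) ≤ (1 + δ) ^ i := by
    have h5 : (1 + δ) * (1 + (1 + δ) / δ) ≤ (1 + δ) ^ i * (1 + δ) := by linarith
    rw [mul_comm] at h5
    exact le_of_mul_le_mul_right h5 (by linarith)
  have h5 : (1 + δ) / δ ≤ lv δ i := by linarith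
  rw [div_le_iff₀ hδ] at h5
  have h6 : (1 + δ) ^ i * (1 + δ) ≤ ((lv δ i : ℝ) + 1) * (1 + δ) :=
    mul_le_mul_of_nonneg_right h2.le (by linarith)
  linarith

theorem cn1_big (δ : ℝ) (hδ : 0 < δ) : ∃ n0 : ℕ, ∀ n : ℕ, n0 ≤ n →
    (1 + δ) * (1 + (1 + δ) / δ) ≤ yy n ∧ 1200 * yy n < n ∧ 1 ≤ zz n := by
  obtain ⟨n1, hn1⟩ := cdl_zz (max 1 ((1 + δ) * (1 + (1 + δ) / δ)))
  refine ⟨n1 + 6000000, fun n hn => ?_⟩
  have hN : (6000000 : ℝ) ≤ n := by exact_mod_cast (by omega : 6000000 ≤ n)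
  have h1 := hn1 n (by omega)
  have hyz : zz n ≤ yy n := by
    unfold zz yy
    calc (n : ℝ) ^ (1 / 8 : ℝ) ≤ (n : ℝ) ^ (1 / 3 : ℝ) :=
          Real.rpow_le_rpow_of_exponent_le (by linarith) (by norm_num)
      _ ≤ (2 * n : ℝ) ^ (1 / 3 : ℝ) :=
          Real.rpow_le_rpow (by linarith) (by linarith) (by norm_num)
  refine ⟨le_trans (le_trans (le_max_right _ _) h1) hyz, ?_, le_trans (le_max_left _ _) h1⟩
  have h2 : yy n ≤ 2 * (n : ℝ) ^ (1 / 2 : ℝ) := by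
    unfold yy
    rw [Real.mul_rpow (by norm_num) (by linarith)]
    apply mul_le_mul
    · calc (2 : ℝ) ^ (1 / 3 : ℝ) ≤ (2 : ℝ) ^ (1 : ℝ) :=
            Real.rpow_le_rpow_of_exponent_le (by norm_num) (by norm_num)
        _ = 2 := Real.rpow_one 2
    · exact Real.rpow_le_rpow_of_exponent_le (by linarith) (by norm_num)
    · positivity
    · norm_num
  have h3 : 2401 ≤ (n : ℝ) ^ (1 / 2 : ℝ) := by
    rw [← Real.sqrt_eq_rpow]
    apply Real.le_sqrt_of_sq_le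
    linarith
  have h4 : (n : ℝ) ^ (1 / 2 : ℝ) * (n : ℝ) ^ (1 / 2 : ℝ) = n := by
    rw [← Real.rpow_add (by linarith)]
    norm_num
  nlinarith

/-- `n/(20 q1 q2) > 1`. -/
theorem cn1_gt (n q1 q2 : ℕ) (hn : 0 < n) (h1 : 0 < q1) (h2 : 0 < q2) (hy : (q1 : ℝ) < yy n)
    (hyn : 1200 * yy n < n) (hq : q1 * q2 ^ 2 ≤ 3 * n) : 1 < (n : ℝ) / (20 * q1 * q2) := by
  have a1 : (0 : ℝ) < q1 := by exact_mod_cast h1
  have a2 : (0 : ℝ) < q2 := by exact_mod_cast h2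
  have a3 : (0 : ℝ) < n := by exact_mod_cast hn
  rw [lt_div_iff₀ (by positivity), one_mul]
  have h3 : (q1 : ℝ) * (q2 : ℝ) ^ 2 ≤ 3 * n := by exact_mod_cast hq
  have h4 : (20 * (q1 : ℝ) * q2) ^ 2 < (n : ℝ) ^ 2 := by
    calc (20 * (q1 : ℝ) * (q2 : ℝ)) ^ 2 = 400 * (q1 : ℝ) * ((q1 : ℝ) * (q2 : ℝ) ^ 2) := by ring
      _ ≤ 400 * (q1 : ℝ) * (3 * n) := mul_le_mul_of_nonneg_left h3 (by positivity)
      _ = (1200 * (q1 : ℝ)) * n := by ring
      _ < (n : ℝ) * n := by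
          apply mul_lt_mul_of_pos_right _ a3
          linarith
      _ = (n : ℝ) ^ 2 := by ring
  exact lt_of_pow_lt_pow_left₀ 2 a3.le h4

/-- Proof. `XB = ∑_{m ≤ lv (i+1)} al m ∑_{q ∈ (lv j, lv (j+1)]} log q`, and `al n δ (i,j) m ≠ 0` means `lv i < m = q1 q2`,
`q1 ∈ PR (zz n) (yy n)`, `yy n ≤ q2 ≤ lv (j+1)`. Every triple `(q1, q2, q)` counted on the left in the box `(i, j)` belongs to
this box only (`m ∈ (lv i, lv (i+1)]`, `q ∈ (lv j, lv (j+1)]`, `lv` monotone), and `m` determines `(q1, q2)`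
(`q1 < yy n ≤ q2`). As the box is in `Rel` it contains a pair `(m', q')` with `m' q' = |N - p|`, `y1 < p ≤ y2`, so
`dlo ≤ m' q' ≤ dhi`; as all numbers are large (`lv i, lv j ≥ n^(1/4)/2`), `lv (i+1) ≤ (1 + 2δ) lv i`, and so
`dlo ≤ (1 + 2δ)² m q` and `m q ≤ (1 + 2δ)² dhi`. `dhi ≤ 2 n`, so `q ≤ 3 n`. `q2 ≤ lv (j+1) ≤ (1 + 2δ) q` gives
`q1 q2² ≤ (1 + 2δ)³ 2 n ≤ 3 n` and `q2 < n`. Finally `lv j ≥ q/(1 + 2δ) ≥ dlo/((1 + 2δ)³ q1 q2) ≥ n/(20 q1 q2)` (`dlo ≥ n/8`), and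
`n/(20 q1 q2) > 1` since `(q1 q2)² ≤ 3 n (2n)^(1/3)`. -/
theorem boxes_le (δ : ℝ) (hδ : 0 < δ) (hδ1 : δ ≤ 1 / 100) : ∃ n0 : ℕ, ∀ n : ℕ, n0 ≤ n →
    ∀ N y1 y2 : ℕ, Win n N y1 y2 →
    ∑ b ∈ Rel n N y1 y2 δ, 1 / Real.log (lv δ b.2) *
      XB (lv δ (b.1 + 1)) (lv δ b.2) (lv δ (b.2 + 1)) (al n δ b) ≤
    ∑ q1 ∈ PR (zz n) (yy n), ∑ q2 ∈ (PR (yy n) n).filter (fun q2 => q1 * q2 ^ 2 ≤ 3 * n),
      1 / Real.log (n / (20 * q1 * q2)) * ∑ q ∈ qr n N y1 y2 δ (q1 * q2), lg q := by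
  classical
  obtain ⟨n1, hn1⟩ := cn1_big δ hδ
  refine ⟨n1 + 100, fun n hn N y1 y2 hW => ?_⟩
  obtain ⟨hbig, hyn, hz1⟩ := hn1 n (by omega)
  have hN : (100 : ℝ) ≤ n := by exact_mod_cast (by omega : 100 ≤ n)
  have hlg0 : ∀ p, 0 ≤ lg p := by
    intro p
    unfold lg
    exact Real.log_natCast_nonneg p
  have hal01 : ∀ b m, al n δ b m = 1 ∨ al n δ b m = 0 := by
    intro b m
    unfold al
    split_ifs
    · left; rfl
    · right; rfl
  obtain ⟨I, hI⟩ : ∃ I : Finset ((_ : ℕ × ℕ) × (ℕ × ℕ)), I = (Rel n N y1 y2 δ).sigma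
    (fun b => Icc 1 (lv δ (b.1 + 1)) ×ˢ Sq (lv δ b.2) (lv δ (b.2 + 1))) := ⟨_, rfl⟩
  obtain ⟨s, hs⟩ : ∃ s : (_ : ℕ × ℕ) × (ℕ × ℕ) → ℝ, s = fun x =>
    1 / Real.log (lv δ x.1.2) * (al n δ x.1 x.2.1 * lg x.2.2) := ⟨_, rfl⟩
  have hL : ∑ b ∈ Rel n N y1 y2 δ, 1 / Real.log (lv δ b.2) *
      XB (lv δ (b.1 + 1)) (lv δ b.2) (lv δ (b.2 + 1)) (al n δ b) = ∑ x ∈ I, s x := by
    rw [hI, sum_sigma]
    apply sum_congr rfl
    intro b _
    rw [sum_product, hs]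
    unfold XB XX
    rw [sum_mul_sum, mul_sum]
    apply sum_congr rfl
    intro m _
    rw [mul_sum]
  obtain ⟨T, hT⟩ : ∃ T : Finset ((_ : ℕ × ℕ) × (ℕ × ℕ)), T = I.filter
    (fun x => al n δ x.1 x.2.1 = 1) := ⟨_, rfl⟩
  have hLT : ∑ x ∈ I, s x = ∑ x ∈ T, s x := by
    rw [hT]
    symm
    apply sum_filter_of_ne
    intro x _ hx
    rcases hal01 x.1 x.2.1 with h | h
    · exact h
    · exfalso
      apply hx
      rw [hs]
      show 1 / Real.log (lv δ x.1.2) * (al n δ x.1 x.2.1 * lg x.2.2) = 0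
      rw [h]
      ring
  obtain ⟨G, hG⟩ : ∃ G : Finset ((_ : (_ : ℕ) × ℕ) × ℕ), G = ((PR (zz n) (yy n)).sigma
    (fun q1 => (PR (yy n) n).filter (fun q2 => q1 * q2 ^ 2 ≤ 3 * n))).sigma
    (fun y => qr n N y1 y2 δ (y.1 * y.2)) := ⟨_, rfl⟩
  obtain ⟨t, ht⟩ : ∃ t : (_ : (_ : ℕ) × ℕ) × ℕ → ℝ, t = fun y =>
    1 / Real.log (n / (20 * y.1.1 * y.1.2)) * lg y.2 := ⟨_, rfl⟩
  have hR : ∑ q1 ∈ PR (zz n) (yy n), ∑ q2 ∈ (PR (yy n) n).filter
      (fun q2 => q1 * q2 ^ 2 ≤ 3 * n),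
      1 / Real.log (n / (20 * q1 * q2)) * ∑ q ∈ qr n N y1 y2 δ (q1 * q2), lg q =
      ∑ y ∈ G, t y := by
    rw [hG, sum_sigma, sum_sigma, ht]
    apply sum_congr rfl
    intro q1 _
    apply sum_congr rfl
    intro q2 _
    rw [mul_sum]
  have ht0 : ∀ y ∈ G, 0 ≤ t y := by
    intro y hy
    rw [hG, mem_sigma, mem_sigma, mem_filter, mem_PR, mem_PR] at hy
    obtain ⟨⟨⟨a1, a2, a3⟩, ⟨b1, b2, b3⟩, b4⟩, -⟩ := hy
    rw [ht]
    apply mul_nonneg _ (hlg0 _)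
    apply div_nonneg zero_le_one
    apply Real.log_nonneg
    exact (cn1_gt n y.1.1 y.1.2 (by omega) a1.pos b1.pos a3 hyn b4).le
  -- the data
  have hdata : ∀ x ∈ T, ∃ y ∈ G, y.1.1 * y.1.2 = x.2.1 ∧ y.2 = x.2.2 ∧ s x ≤ t y := by
    rintro ⟨⟨i, j⟩, ⟨m, q⟩⟩ hx
    rw [hT, mem_filter, hI, mem_sigma] at hx
    obtain ⟨⟨hrel, hmq⟩, hal⟩ := hx
    rw [mem_product] at hmq
    obtain ⟨hm, hq⟩ := hmq
    have hm2 : m ≤ lv δ (i + 1) := (mem_Icc.mp hm).2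
    have hq' := mem_Sq.mp hq
    have hq1 : lv δ j < q := hq'.1.1
    have hq2 : q ≤ lv δ (j + 1) := hq'.1.2
    have hqp : q.Prime := hq'.2
    have hal' : al n δ (i, j) m = 1 := hal
    have hex : lv δ i < m ∧ ∃ r1 r2 : ℕ, r1.Prime ∧ r2.Prime ∧ zz n ≤ r1 ∧ (r1 : ℝ) < yy n ∧
        yy n ≤ r2 ∧ r2 ≤ lv δ (j + 1) ∧ m = r1 * r2 := by
      by_contra hcon
      unfold al at hal'
      rw [if_neg hcon] at hal'
      norm_num at hal'
    obtain ⟨hm1, r1, r2, hr1, hr2, hz, hy, hy2, hr2l, hmr⟩ := hex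
    unfold Rel at hrel
    rw [mem_filter] at hrel
    obtain ⟨-, m', q', p, c1, c2, c3, c4, c5, c6, c7, c8, c9, c10⟩ := hrel
    -- `m'` is large
    have hm'big : (1 + δ) * (1 + (1 + δ) / δ) ≤ (m' : ℝ) := by
      have hex' : lv δ i < m' ∧ ∃ r1 r2 : ℕ, r1.Prime ∧ r2.Prime ∧ zz n ≤ r1 ∧ (r1 : ℝ) < yy n ∧
          yy n ≤ r2 ∧ r2 ≤ lv δ (j + 1) ∧ m' = r1 * r2 := by
        by_contra hcon
        unfold al at c6
        rw [if_neg hcon] at c6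
        norm_num at c6
      obtain ⟨-, u1, u2, hu1, hu2, -, -, hu3, -, hu4⟩ := hex'
      have h1 : u2 ≤ m' := by
        rw [hu4]
        exact Nat.le_mul_of_pos_left _ hu1.pos
      have h2 : (u2 : ℝ) ≤ m' := by exact_mod_cast h1
      linarith
    have hri : (lv δ (i + 1) : ℝ) ≤ (1 + 2 * δ) * lv δ i := cn1_ratio δ hδ m' i hm'big c2
    have hrj : (lv δ (j + 1) : ℝ) ≤ (1 + 2 * δ) * lv δ j :=
      cn1_ratio δ hδ q' j (hbig.trans c7) c4
    -- real versions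
    have d1 : (lv δ i : ℝ) ≤ m := by exact_mod_cast hm1.le
    have d2 : (m : ℝ) ≤ lv δ (i + 1) := by exact_mod_cast hm2
    have d3 : (lv δ j : ℝ) ≤ q := by exact_mod_cast hq1.le
    have d4 : (q : ℝ) ≤ lv δ (j + 1) := by exact_mod_cast hq2
    have d5 : (lv δ i : ℝ) ≤ m' := by exact_mod_cast c1.le
    have d6 : (m' : ℝ) ≤ lv δ (i + 1) := by exact_mod_cast c2
    have d7 : (lv δ j : ℝ) ≤ q' := by exact_mod_cast c3.le
    have d8 : (q' : ℝ) ≤ lv δ (j + 1) := by exact_mod_cast c4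
    have e1 : (m : ℝ) ≤ (1 + 2 * δ) * m' :=
      d2.trans (hri.trans (mul_le_mul_of_nonneg_left d5 (by linarith)))
    have e2 : (m' : ℝ) ≤ (1 + 2 * δ) * m :=
      d6.trans (hri.trans (mul_le_mul_of_nonneg_left d1 (by linarith)))
    have e3 : (q : ℝ) ≤ (1 + 2 * δ) * q' :=
      d4.trans (hrj.trans (mul_le_mul_of_nonneg_left d7 (by linarith)))
    have e4 : (q' : ℝ) ≤ (1 + 2 * δ) * q :=
      d8.trans (hrj.trans (mul_le_mul_of_nonneg_left d3 (by linarith)))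
    have hm0 : (0 : ℝ) < m := by
      have : 0 < m := by omega
      exact_mod_cast this
    have hq0 : (0 : ℝ) < q := by exact_mod_cast hqp.pos
    -- distances
    have f1 : dlo N y1 y2 ≤ m' * q' ∧ m' * q' ≤ dhi N y1 y2 ∧ n ≤ 8 * dlo N y1 y2 ∧
        dhi N y1 y2 ≤ 2 * n := by
      rw [← c10]
      unfold dlo dhi Nat.dist
      have g1 := hW.side
      have g2 := hW.N2
      have g3 := hW.le
      have g4 := hW.lt
      split_ifs with h <;> omega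
    obtain ⟨f2, f3, f4, f5⟩ := f1
    have f2' : (dlo N y1 y2 : ℝ) ≤ m' * q' := by exact_mod_cast f2
    have f3' : (m' : ℝ) * q' ≤ dhi N y1 y2 := by exact_mod_cast f3
    have f4' : (n : ℝ) ≤ 8 * dlo N y1 y2 := by exact_mod_cast f4
    have f5' : (dhi N y1 y2 : ℝ) ≤ 2 * n := by exact_mod_cast f5
    have g1 : (m : ℝ) * q ≤ (1 + 2 * δ) ^ 2 * (m' * q') := by
      calc (m : ℝ) * q ≤ ((1 + 2 * δ) * m') * ((1 + 2 * δ) * q') :=
            mul_le_mul e1 e3 hq0.le (by positivity)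
        _ = (1 + 2 * δ) ^ 2 * (m' * q') := by ring
    have g2 : (m' : ℝ) * q' ≤ (1 + 2 * δ) ^ 2 * (m * q) := by
      calc (m' : ℝ) * q' ≤ ((1 + 2 * δ) * m) * ((1 + 2 * δ) * q) :=
            mul_le_mul e2 e4 (Nat.cast_nonneg _) (by positivity)
        _ = (1 + 2 * δ) ^ 2 * (m * q) := by ring
    have hsq : (1 + 2 * δ) ^ 2 ≤ 41 / 40 + 1 / 50 := by nlinarith
    have hsq0 : 0 < (1 + 2 * δ) ^ 2 := by positivity
    have g3 : (m : ℝ) * q ≤ (1 + 2 * δ) ^ 2 * dhi N y1 y2 :=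
      g1.trans (mul_le_mul_of_nonneg_left f3' hsq0.le)
    have g4 : (m : ℝ) * q ≤ 21 / 10 * n := by
      calc (m : ℝ) * q ≤ (1 + 2 * δ) ^ 2 * dhi N y1 y2 := g3
        _ ≤ (1 + 2 * δ) ^ 2 * (2 * n) := mul_le_mul_of_nonneg_left f5' hsq0.le
        _ ≤ (41 / 40 + 1 / 50) * (2 * n) := mul_le_mul_of_nonneg_right hsq (by linarith)
        _ ≤ 21 / 10 * n := by linarith
    -- `q1 q2² ≤ 3 n`
    have g5 : r1 * r2 ^ 2 ≤ 3 * n := by
      have h1 : (r2 : ℝ) ≤ (1 + 2 * δ) * q := by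
        have h2 : (r2 : ℝ) ≤ lv δ (j + 1) := by exact_mod_cast hr2l
        exact h2.trans (hrj.trans (mul_le_mul_of_nonneg_left d3 (by linarith)))
      have h2 : ((r1 * r2 ^ 2 : ℕ) : ℝ) ≤ ((3 * n : ℕ) : ℝ) := by
        push_cast
        have h3 : (r1 : ℝ) * (r2 : ℝ) ^ 2 = m * r2 := by
          rw [hmr]
          push_cast
          ring
        rw [h3]
        calc (m : ℝ) * r2 ≤ m * ((1 + 2 * δ) * q) := mul_le_mul_of_nonneg_left h1 hm0.le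
          _ = (1 + 2 * δ) * (m * q) := by ring
          _ ≤ (1 + 2 * δ) * (21 / 10 * n) := mul_le_mul_of_nonneg_left g4 (by linarith)
          _ ≤ 3 * n := by nlinarith
      exact_mod_cast h2
    have g6 : r2 < n := by
      have h1 : r2 ^ 2 ≤ 3 * n := by
        have : 1 * r2 ^ 2 ≤ r1 * r2 ^ 2 := Nat.mul_le_mul_right _ hr1.pos
        omega
      by_contra h2
      push Not at h2
      have h3 : n * n ≤ r2 ^ 2 := by rw [pow_two]; exact Nat.mul_le_mul h2 h2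
      have h4 : 100 * n ≤ n * n := Nat.mul_le_mul_right _ (by omega)
      omega
    have g7 : q ≤ 3 * n := by
      have h1 : (q : ℝ) ≤ m * q := by
        have : (1 : ℝ) ≤ m := by
          have : 1 ≤ m := by omega
          exact_mod_cast this
        nlinarith
      have h2 : (q : ℝ) ≤ ((3 * n : ℕ) : ℝ) := by
        push_cast
        linarith
      exact_mod_cast h2
    have hmr' : (m : ℝ) = r1 * r2 := by rw [hmr]; push_cast; ring
    refine ⟨⟨⟨r1, r2⟩, q⟩, ?_, hmr.symm, rfl, ?_⟩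
    · rw [hG, mem_sigma, mem_sigma, mem_filter, mem_PR, mem_PR]
      refine ⟨⟨⟨hr1, hz, hy⟩, ⟨hr2, hy2, by exact_mod_cast g6⟩, g5⟩, ?_⟩
      show q ∈ qr n N y1 y2 δ (r1 * r2)
      unfold qr
      rw [mem_filter, mem_Icc]
      refine ⟨⟨hqp.pos, g7⟩, hqp, ?_, ?_⟩
      · rw [← hmr]
        exact f2'.trans g2
      · rw [← hmr]
        exact g3
    · rw [hs, ht]
      show 1 / Real.log (lv δ j) * (al n δ (i, j) m * lg q) ≤
        1 / Real.log (n / (20 * r1 * r2)) * lg q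
      rw [hal', one_mul]
      apply mul_le_mul_of_nonneg_right _ (hlg0 _)
      have h1 := cn1_gt n r1 r2 (by omega) hr1.pos hr2.pos hy hyn g5
      have h2 : (n : ℝ) / (20 * r1 * r2) ≤ lv δ j := by
        rw [div_le_iff₀ (by
          have := hr1.pos
          have := hr2.pos
          positivity)]
        have h3 : (q : ℝ) ≤ (1 + 2 * δ) * lv δ j := d4.trans hrj
        have h4 : (dlo N y1 y2 : ℝ) ≤ (1 + 2 * δ) ^ 2 * (m * q) := f2'.trans g2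
        have h5 : (m : ℝ) * q ≤ m * ((1 + 2 * δ) * lv δ j) :=
          mul_le_mul_of_nonneg_left h3 hm0.le
        have h6 : (1 + 2 * δ) ^ 2 * (m * q) ≤ (1 + 2 * δ) ^ 2 * (m * ((1 + 2 * δ) * lv δ j)) :=
          mul_le_mul_of_nonneg_left h5 hsq0.le
        have h7 : (1 + 2 * δ) ^ 2 * (m * ((1 + 2 * δ) * lv δ j)) =
            (1 + 2 * δ) ^ 3 * (m * lv δ j) := by ring
        have h8 : (1 + 2 * δ) ^ 3 ≤ 2 := by
          have : (1 + 2 * δ) ^ 3 ≤ (51 / 50) ^ 3 :=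
            pow_le_pow_left₀ (by linarith) (by linarith) 3
          norm_num at this
          linarith
        have h9 : (0 : ℝ) ≤ m * lv δ j := by positivity
        have h10 : (1 + 2 * δ) ^ 3 * (m * lv δ j) ≤ 2 * (m * lv δ j) :=
          mul_le_mul_of_nonneg_right h8 h9
        calc (n : ℝ) ≤ 8 * dlo N y1 y2 := f4'
          _ ≤ 8 * (2 * (m * lv δ j)) := by linarith
          _ ≤ 20 * (m * lv δ j) := by linarith
          _ = lv δ j * (20 * r1 * r2) := by rw [hmr']; ring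
      have h3 : 0 < Real.log (n / (20 * r1 * r2)) := Real.log_pos h1
      apply div_le_div_of_nonneg_left zero_le_one h3
      exact Real.log_le_log (by linarith) h2
  choose! f hf1 hf2 hf3 hf4 using hdata
  have hinj : Set.InjOn f T := by
    rintro ⟨⟨i, j⟩, ⟨m, q⟩⟩ hx ⟨⟨i', j'⟩, ⟨m', q'⟩⟩ hx' heq
    have a1 := hf2 _ hx
    have a2 := hf2 _ hx'
    have a3 := hf3 _ hx
    have a4 := hf3 _ hx'
    rw [heq] at a1 a3
    have hm : m = m' := a1.symm.trans a2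
    have hq : q = q' := a3.symm.trans a4
    subst hm hq
    rw [mem_coe, hT, mem_filter, hI, mem_sigma, mem_product] at hx hx'
    obtain ⟨⟨-, hm, hq⟩, hal⟩ := hx
    obtain ⟨⟨-, hm', hq'⟩, hal'⟩ := hx'
    have hex : lv δ i < m := by
      by_contra hcon
      have : al n δ (i, j) m = 1 := hal
      unfold al at this
      rw [if_neg (fun h => hcon h.1)] at this
      norm_num at this
    have hex' : lv δ i' < m := by
      by_contra hcon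
      have : al n δ (i', j') m = 1 := hal'
      unfold al at this
      rw [if_neg (fun h => hcon h.1)] at this
      norm_num at this
    have hi : i = i' := cn1_uniq δ hδ hex (mem_Icc.mp hm).2 hex' (mem_Icc.mp hm').2
    have hj : j = j' := cn1_uniq δ hδ (mem_Sq.mp hq).1.1 (mem_Sq.mp hq).1.2
      (mem_Sq.mp hq').1.1 (mem_Sq.mp hq').1.2
    subst hi hj
    rfl
  rw [hL, hLT, hR]
  calc ∑ x ∈ T, s x ≤ ∑ x ∈ T, t (f x) := sum_le_sum fun x hx => hf4 x hx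
    _ = ∑ y ∈ T.image f, t y := by rw [sum_image hinj]
    _ ≤ ∑ y ∈ G, t y := by
        apply sum_le_sum_of_subset_of_nonneg
        · intro y hy
          rw [mem_image] at hy
          obtain ⟨x, hx, rfl⟩ := hy
          exact hf1 x hx
        · intro y hy _
          exact ht0 y hy

end Pool.Agent.Lib.H59C
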