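import Pool.Agent.Lib.H59C.C0
import Pool.Agent.Lib.H59C.CN1

/-!
# CN2: the sum over the largest prime
-/

open Finset

namespace Pool.Agent.Lib.H59C

theorem cn2_dist {n N y1 y2 : ℕ} (hW : Win n N y1 y2) :
    (dhi N y1 y2 : ℝ) - dlo N y1 y2 = (y2 : ℝ) - y1 ∧ (dhi N y1 y2 : ℝ) ≤ 2 * n ∧
      (dlo N y1 y2 : ℝ) ≤ 2 * n := by
  have h1 : dhi N y1 y2 + y1 = dlo N y1 y2 + y2 ∧ dhi N y1 y2 ≤ 2 * n ∧ dlo N y1 y2 ≤ 2 * n := by
    unfold dhi dlo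
    have a1 := hW.side
    have a2 := hW.lt
    have a3 := hW.N2
    have a4 := hW.le
    split_ifs with h <;> omega
  obtain ⟨h1, h2, h3⟩ := h1
  refine ⟨?_, by exact_mod_cast h2, by exact_mod_cast h3⟩
  have h4 : (dhi N y1 y2 : ℝ) + y1 = dlo N y1 y2 + y2 := by exact_mod_cast h1
  linarith

/-- Proof. `δ = min (1/100) (ε/1000)`. The sum is at most `th ⌊(1 + 2δ)² dhi/k⌋ - th (⌈dlo/((1 + 2δ)² k)⌉ - 1)` (or `0`).
Let `n' = ⌈n/k⌉ ≥ n^(1/4)`; both arguments are `≤ 8 n'` (`dhi ≤ 2 n`). `th_pnt (ε/200)` for `n'`: the difference is at most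
`(1 + 2δ)² dhi/k - dlo/((1 + 2δ)² k) + 2 + (ε/50) n/k ≤ (dhi - dlo)/k + 20 δ n/k + 2 + (ε/50) n/k`, and `dhi - dlo = y2 - y1`,
`n ≤ 16 (y2 - y1)`. -/
theorem pnt_inner (ε : ℝ) (hε : 0 < ε) : ∃ δ : ℝ, 0 < δ ∧ δ ≤ 1 / 100 ∧ ∃ n0 : ℕ, ∀ n : ℕ,
    n0 ≤ n → ∀ N y1 y2 : ℕ, Win n N y1 y2 → ∀ k : ℕ, 0 < k →
    (k : ℝ) ≤ (n : ℝ) ^ (3 / 4 : ℝ) →
    ∑ q ∈ qr n N y1 y2 δ k, lg q ≤ (1 + ε) * ((y2 : ℝ) - y1) / k := by
  classical
  obtain ⟨m0, hm0⟩ := th_pnt (ε / 200) (by linarith)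
  obtain ⟨δ, hδ⟩ : ∃ δ : ℝ, δ = min (1 / 100) (ε / 1000) := ⟨_, rfl⟩
  have hδ0 : 0 < δ := by rw [hδ]; exact lt_min (by norm_num) (by linarith)
  have hδ1 : δ ≤ 1 / 100 := by rw [hδ]; exact min_le_left _ _
  have hδ2 : δ ≤ ε / 1000 := by rw [hδ]; exact min_le_right _ _
  -- large `n`
  obtain ⟨n1, hn1⟩ : ∃ n1 : ℕ, ∀ n : ℕ, n1 ≤ n →
      max (m0 : ℝ) (32 * (1 + ε / 100) / ε) ≤ (n : ℝ) ^ (1 / 4 : ℝ) := by
    have h1 : Filter.Tendsto (fun n : ℕ => (n : ℝ) ^ (1 / 4 : ℝ)) Filter.atTop Filter.atTop :=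
      (tendsto_rpow_atTop (by norm_num : (0 : ℝ) < 1 / 4)).comp tendsto_natCast_atTop_atTop
    obtain ⟨n1, hn1⟩ := Filter.eventually_atTop.mp
      (h1.eventually_ge_atTop (max (m0 : ℝ) (32 * (1 + ε / 100) / ε)))
    exact ⟨n1, hn1⟩
  refine ⟨δ, hδ0, hδ1, n1 + 1, fun n hn N y1 y2 hW k hk hkn => ?_⟩
  have hN : (1 : ℝ) ≤ n := by exact_mod_cast (by omega : 1 ≤ n)
  have hbig := hn1 n (by omega)
  have hb1 : (m0 : ℝ) ≤ (n : ℝ) ^ (1 / 4 : ℝ) := le_trans (le_max_left _ _) hbig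
  have hb2 : 32 * (1 + ε / 100) / ε ≤ (n : ℝ) ^ (1 / 4 : ℝ) := le_trans (le_max_right _ _) hbig
  have hk0 : (0 : ℝ) < k := by exact_mod_cast hk
  have hnk : (n : ℝ) ^ (1 / 4 : ℝ) ≤ n / k := by
    rw [le_div_iff₀ hk0]
    calc (n : ℝ) ^ (1 / 4 : ℝ) * k ≤ (n : ℝ) ^ (1 / 4 : ℝ) * (n : ℝ) ^ (3 / 4 : ℝ) :=
          mul_le_mul_of_nonneg_left hkn (by positivity)
      _ = n := by
          rw [← Real.rpow_add (by linarith)]
          norm_num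
  obtain ⟨n', hn'⟩ : ∃ n' : ℕ, n' = ⌈(n : ℝ) / k⌉₊ := ⟨_, rfl⟩
  have hn'1 : (n : ℝ) / k ≤ n' := by rw [hn']; exact Nat.le_ceil _
  have hn'2 : (n' : ℝ) ≤ n / k + 1 := by
    rw [hn']
    exact (Nat.ceil_lt_add_one (by positivity)).le
  have hm0n : m0 ≤ n' := by
    have : (m0 : ℝ) ≤ n' := by linarith
    exact_mod_cast this
  obtain ⟨hd1, hd2, hd3⟩ := cn2_dist hW
  obtain ⟨lo, hlo⟩ : ∃ lo : ℝ, lo = (dlo N y1 y2 : ℝ) := ⟨_, rfl⟩
  obtain ⟨hi, hhi⟩ : ∃ hi : ℝ, hi = (dhi N y1 y2 : ℝ) := ⟨_, rfl⟩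
  rw [← hlo, ← hhi] at hd1
  rw [← hlo] at hd3
  rw [← hhi] at hd2
  have hlo0 : 0 ≤ lo := by rw [hlo]; exact Nat.cast_nonneg _
  have hhi0 : 0 ≤ hi := by rw [hhi]; exact Nat.cast_nonneg _
  obtain ⟨c, hc⟩ : ∃ c : ℝ, c = (1 + 2 * δ) ^ 2 := ⟨_, rfl⟩
  have hc1 : 1 ≤ c := by rw [hc]; nlinarith
  have hc2 : c ≤ 1 + 5 * δ := by rw [hc]; nlinarith
  have hc0 : 0 < c := by linarith
  obtain ⟨a', ha'⟩ : ∃ a' : ℝ, a' = lo / (c * k) := ⟨_, rfl⟩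
  obtain ⟨b', hb'⟩ : ∃ b' : ℝ, b' = c * hi / k := ⟨_, rfl⟩
  have ha0 : 0 ≤ a' := by rw [ha']; positivity
  have hb0 : 0 ≤ b' := by rw [hb']; positivity
  obtain ⟨u, hu⟩ : ∃ u : ℕ, u = ⌈a'⌉₊ - 1 := ⟨_, rfl⟩
  obtain ⟨v, hv⟩ : ∃ v : ℕ, v = ⌊b'⌋₊ := ⟨_, rfl⟩
  have hsub : qr n N y1 y2 δ k ⊆ Sq u v := by
    intro q hq
    unfold qr at hq
    rw [mem_filter, mem_Icc] at hq
    obtain ⟨⟨hq1, hq2⟩, hqp, hq3, hq4⟩ := hq
    rw [← hc, ← hlo] at hq3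
    rw [← hc, ← hhi] at hq4
    rw [mem_Sq]
    refine ⟨⟨?_, ?_⟩, hqp⟩
    · have h1 : a' ≤ q := by
        rw [ha', div_le_iff₀ (by positivity)]
        calc lo ≤ c * (k * q) := hq3
          _ = q * (c * k) := by ring
      have h2 : ⌈a'⌉₊ ≤ q := Nat.ceil_le.mpr h1
      omega
    · rw [hv]
      apply Nat.le_floor
      rw [hb', le_div_iff₀ hk0]
      linarith
  have hlg0 : ∀ p, 0 ≤ lg p := by
    intro p
    unfold lg
    exact Real.log_natCast_nonneg p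
  have hsum : ∑ q ∈ qr n N y1 y2 δ k, lg q ≤ XX u v := by
    unfold XX
    exact sum_le_sum_of_subset_of_nonneg hsub fun q _ _ => hlg0 q
  have hyy : (0 : ℝ) < (y2 : ℝ) - y1 := by
    have : (y1 : ℝ) < y2 := by exact_mod_cast hW.lt
    linarith
  rcases lt_or_ge v u with hvu | huv
  · have : XX u v = 0 := by
      unfold XX Sq
      rw [Ioc_eq_empty (by omega)]
      simp
    rw [this] at hsum
    refine hsum.trans ?_
    positivity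
  · rw [XX_eq huv] at hsum
    have hu8 : u ≤ 8 * n' := by
      have h1 : (u : ℝ) ≤ 8 * n' := by
        have h2 : (u : ℝ) ≤ v := by exact_mod_cast huv
        have h3 : (v : ℝ) ≤ b' := by rw [hv]; exact Nat.floor_le hb0
        have h4 : b' ≤ 8 * (n / k) := by
          rw [hb', ← mul_div_assoc]
          apply div_le_div_of_nonneg_right _ hk0.le
          nlinarith
        linarith
      exact_mod_cast h1
    have hv8 : v ≤ 8 * n' := by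
      have h1 : (v : ℝ) ≤ 8 * n' := by
        have h3 : (v : ℝ) ≤ b' := by rw [hv]; exact Nat.floor_le hb0
        have h4 : b' ≤ 8 * (n / k) := by
          rw [hb', ← mul_div_assoc]
          apply div_le_div_of_nonneg_right _ hk0.le
          nlinarith
        linarith
      exact_mod_cast h1
    have e1 := hm0 n' hm0n u hu8
    have e2 := hm0 n' hm0n v hv8
    rw [abs_le] at e1 e2
    have e3 : (v : ℝ) ≤ b' := by rw [hv]; exact Nat.floor_le hb0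
    have e4 : a' - 1 ≤ u := by
      have h1 : a' ≤ ⌈a'⌉₊ := Nat.le_ceil _
      have h2 : ((⌈a'⌉₊ : ℕ) : ℝ) ≤ u + 1 := by
        have : ⌈a'⌉₊ ≤ u + 1 := by omega
        exact_mod_cast this
      linarith
    have e5 : b' - a' ≤ (((y2 : ℝ) - y1) + 20 * δ * n) / k := by
      have h1 : b' - a' = (c * hi - lo / c) / k := by
        rw [ha', hb']
        field_simp
      rw [h1]
      apply div_le_div_of_nonneg_right _ hk0.le
      have h2 : lo * (1 - 5 * δ) ≤ lo / c := by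
        rw [le_div_iff₀ hc0]
        have h3 : (1 - 5 * δ) * c ≤ 1 := by nlinarith
        calc lo * (1 - 5 * δ) * c = lo * ((1 - 5 * δ) * c) := by ring
          _ ≤ lo * 1 := mul_le_mul_of_nonneg_left h3 hlo0
          _ = lo := mul_one _
      have h3 : c * hi ≤ (1 + 5 * δ) * hi := mul_le_mul_of_nonneg_right hc2 hhi0
      have h4 : δ * hi ≤ δ * (2 * n) := mul_le_mul_of_nonneg_left hd2 hδ0.le
      have h5 : δ * lo ≤ δ * (2 * n) := mul_le_mul_of_nonneg_left hd3 hδ0.le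
      linarith
    have h16 : (n : ℝ) ≤ 16 * ((y2 : ℝ) - y1) := by
      have h3 := hW.len
      have h4 := hW.lt
      have h6 : (n : ℝ) ≤ ((16 * (y2 - y1) : ℕ) : ℝ) := by exact_mod_cast h3
      rw [Nat.cast_mul, Nat.cast_sub h4.le] at h6
      exact_mod_cast h6
    have h16k : (n : ℝ) / k ≤ 16 * (((y2 : ℝ) - y1) / k) := by
      rw [← mul_div_assoc]
      exact div_le_div_of_nonneg_right h16 hk0.le
    have e6 : (((y2 : ℝ) - y1) + 20 * δ * n) / k = ((y2 : ℝ) - y1) / k + 20 * δ * (n / k) := by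
      ring
    have e7 : (1 + ε) * ((y2 : ℝ) - y1) / k = ((y2 : ℝ) - y1) / k + ε * (((y2 : ℝ) - y1) / k) := by
      ring
    rw [e7]
    obtain ⟨Y, hY⟩ : ∃ Y : ℝ, Y = ((y2 : ℝ) - y1) / k := ⟨_, rfl⟩
    rw [← hY] at h16k e6 ⊢
    rw [e6] at e5
    obtain ⟨Z, hZ⟩ : ∃ Z : ℝ, Z = (n : ℝ) / k := ⟨_, rfl⟩
    rw [← hZ] at h16k e5 hn'2 hnk
    have e8 : 20 * δ * Z ≤ 20 * (ε / 1000) * Z := by
      apply mul_le_mul_of_nonneg_right _ (by rw [hZ]; positivity)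
      linarith
    have e9 : 32 * (1 + ε / 100) ≤ ε * Z := by
      have h1 : 32 * (1 + ε / 100) / ε ≤ Z := hb2.trans hnk
      rw [div_le_iff₀ hε] at h1
      linarith
    have e10 : ε * Z ≤ 16 * (ε * Y) := by
      have := mul_le_mul_of_nonneg_left h16k hε.le
      linarith
    have e11 : ε * n' ≤ ε * (Z + 1) := mul_le_mul_of_nonneg_left hn'2 hε.le
    linarith

end Pool.Agent.Lib.H59C
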