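import Pool.Agent.Lib.H59C.C0
import Pool.Agent.Lib.H59C.BV2

/-!
# CR1: the remainder terms for `|N - p|`
-/

open Finset

namespace Pool.Agent.Lib.H59C

theorem cr1_dvd (N p d : ℕ) : d ∣ Nat.dist N p ↔ p ≡ N [MOD d] := by
  unfold Nat.dist
  rcases le_total p N with h | h
  · rw [Nat.sub_eq_zero_of_le h, add_zero, Nat.modEq_iff_dvd' h]
  · rw [Nat.sub_eq_zero_of_le h, zero_add, ← Nat.modEq_iff_dvd' h]
    exact ⟨fun h => h.symm, fun h => h.symm⟩

open Classical in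
theorem cr1_sum {y1 y2 : ℕ} (h : y1 ≤ y2) (N d : ℕ) :
    ∑ p ∈ (Sq y1 y2).filter (fun p => d ∣ Nat.dist N p), lg p = thp y2 d N - thp y1 d N := by
  unfold thp Sq lg
  have h1 : (Icc 1 y2).filter (fun q => q.Prime ∧ q ≡ N [MOD d]) =
      (Icc 1 y1).filter (fun q => q.Prime ∧ q ≡ N [MOD d]) ∪
        ((Ioc y1 y2).filter Nat.Prime).filter (fun p => d ∣ Nat.dist N p) := by
    ext q
    simp only [mem_filter, mem_Icc, mem_union, mem_Ioc, cr1_dvd]
    constructor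
    · rintro ⟨⟨h1, h2⟩, h3, h3'⟩
      rcases le_or_gt q y1 with h4 | h4
      · left; exact ⟨⟨h1, h4⟩, h3, h3'⟩
      · right; exact ⟨⟨⟨h4, h2⟩, h3⟩, h3'⟩
    · rintro (⟨⟨h1, h2⟩, h3⟩ | ⟨⟨⟨h1, h2⟩, h3⟩, h4⟩)
      · exact ⟨⟨h1, by omega⟩, h3⟩
      · exact ⟨⟨by omega, h2⟩, h3, h4⟩
  have h2 : Disjoint ((Icc 1 y1).filter (fun q => q.Prime ∧ q ≡ N [MOD d]))
      (((Ioc y1 y2).filter Nat.Prime).filter (fun p => d ∣ Nat.dist N p)) := by
    rw [Finset.disjoint_left]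
    intro q hq hq'
    simp only [mem_filter, mem_Icc, mem_Ioc] at hq hq'
    omega
  rw [h1, sum_union h2]
  ring

/-- Proof. For `N.Coprime d` and `p ∈ (y1, y2]`: `d ∣ Nat.dist N p` iff `p ≡ N [MOD d]`. So the sum is
`thp y2 d N - thp y1 d N` and `XX = th y2 - th y1` (`XX_eq`); `bv A` with `a = N`, at `y1` and at `y2`. -/
theorem rem_total (A : ℕ) : ∃ A' B n0 : ℕ, ∀ n : ℕ, n0 ≤ n → ∀ p1 : ℕ, SWp A' n p1 →
    ∀ N y1 y2 : ℕ, Win n N y1 y2 →
    ∑ d ∈ (Icc 1 (DD n B)).filter (fun d => N.Coprime d ∧ ¬ p1 ∣ d),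
      |∑ p ∈ (Sq y1 y2).filter (fun p => d ∣ Nat.dist N p), lg p -
        XX y1 y2 / (Nat.totient d : ℝ)| ≤ 2 * n / Real.log n ^ A := by
  obtain ⟨A', B, n0, hbv⟩ := bv A
  refine ⟨A', B, n0, fun n hn p1 hSW N y1 y2 hW => ?_⟩
  have h1 := hbv n hn p1 hSW N y1 (by have := hW.lt; have := hW.le; omega)
  have h2 := hbv n hn p1 hSW N y2 (by have := hW.le; omega)
  calc ∑ d ∈ (Icc 1 (DD n B)).filter (fun d => N.Coprime d ∧ ¬ p1 ∣ d),
      |∑ p ∈ (Sq y1 y2).filter (fun p => d ∣ Nat.dist N p), lg p -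
        XX y1 y2 / (Nat.totient d : ℝ)|
      ≤ ∑ d ∈ (Icc 1 (DD n B)).filter (fun d => N.Coprime d ∧ ¬ p1 ∣ d),
        (|thp y2 d N - th y2 / (Nat.totient d : ℝ)| +
          |thp y1 d N - th y1 / (Nat.totient d : ℝ)|) := by
        apply sum_le_sum
        intro d _
        have e1 : ∑ p ∈ (Sq y1 y2).filter (fun p => d ∣ Nat.dist N p), lg p =
            thp y2 d N - thp y1 d N := by
          rw [← cr1_sum hW.lt.le N d]
        rw [e1, XX_eq hW.lt.le]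
        have e2 : thp y2 d N - thp y1 d N - (th y2 - th y1) / (Nat.totient d : ℝ) =
            (thp y2 d N - th y2 / (Nat.totient d : ℝ)) -
              (thp y1 d N - th y1 / (Nat.totient d : ℝ)) := by ring
        rw [e2]
        exact abs_sub _ _
    _ = ∑ d ∈ (Icc 1 (DD n B)).filter (fun d => N.Coprime d ∧ ¬ p1 ∣ d),
          |thp y2 d N - th y2 / (Nat.totient d : ℝ)| +
        ∑ d ∈ (Icc 1 (DD n B)).filter (fun d => N.Coprime d ∧ ¬ p1 ∣ d),
          |thp y1 d N - th y1 / (Nat.totient d : ℝ)| := sum_add_distrib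
    _ ≤ n / Real.log n ^ A + n / Real.log n ^ A := by
        apply add_le_add
        · convert h2
        · convert h1
    _ = 2 * n / Real.log n ^ A := by ring

end Pool.Agent.Lib.H59C
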