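import Pool.Agent.Lib.H59C.CDL
import Pool.Agent.Lib.H59C.PIN

/-!
# CTI: the inner sum of the switching constant
-/

open Finset

namespace Pool.Agent.Lib.H59C

theorem cti_int (κ a b : ℝ) (ha : 0 < a) (hb : a ≤ b) (hκ : b < κ) :
    ∫ x in a..b, (1 / (κ - x)) / x =
      1 / κ * (Real.log b - Real.log (κ - b)) - 1 / κ * (Real.log a - Real.log (κ - a)) := by
  have hκ0 : 0 < κ := by linarith
  have h : ∀ x ∈ Set.uIcc a b,
      HasDerivAt (fun x : ℝ => 1 / κ * (Real.log x - Real.log (κ - x)))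
        ((1 / (κ - x)) / x) x := by
    intro x hx
    rw [Set.uIcc_of_le hb, Set.mem_Icc] at hx
    have hx0 : 0 < x := by linarith
    have hx1 : 0 < κ - x := by linarith
    have h1 : HasDerivAt (fun x : ℝ => Real.log x) (1 / x) x := by
      simpa using Real.hasDerivAt_log hx0.ne'
    have h2 : HasDerivAt (fun x : ℝ => κ - x) (-1) x := by
      simpa using (hasDerivAt_id x).const_sub κ
    have h3 : HasDerivAt (fun x : ℝ => Real.log (κ - x)) (-1 / (κ - x)) x := by
      simpa using h2.log hx1.ne'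
    have h4 := (h1.sub h3).const_mul (1 / κ)
    have hx0' : x ≠ 0 := hx0.ne'
    have hx1' : κ - x ≠ 0 := hx1.ne'
    have hκ' : κ ≠ 0 := hκ0.ne'
    have e : (1 / (κ - x)) / x = 1 / κ * (1 / x - -1 / (κ - x)) := by
      field_simp
      ring
    rw [e]
    exact h4
  rw [intervalIntegral.integral_eq_sub_of_hasDerivAt h]
  apply ContinuousOn.intervalIntegrable
  rw [Set.uIcc_of_le hb]
  apply ContinuousOn.div
  · apply ContinuousOn.div
    · fun_prop
    · fun_prop
    · intro x hx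
      rw [Set.mem_Icc] at hx
      have : 0 < κ - x := by linarith
      exact this.ne'
  · fun_prop
  · intro x hx
    rw [Set.mem_Icc] at hx
    have : 0 < x := by linarith
    exact this.ne'

/-- The value of the integral. -/
theorem cti_bound (η x1 : ℝ) (hη : 0 < η) (hη1 : η ≤ 1 / 60) (h1 : 1 / 8 ≤ x1)
    (h2 : x1 ≤ 1 / 3 + η) :
    1 / (1 - x1 - η) * (Real.log ((1 - x1) / 2 + η) -
        Real.log ((1 - x1 - η) - ((1 - x1) / 2 + η))) -
      1 / (1 - x1 - η) * (Real.log (1 / 3) - Real.log ((1 - x1 - η) - 1 / 3)) ≤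
    Real.log (max 1 (2 - 3 * x1)) / (1 - x1) + 24 * η := by
  obtain ⟨w, hw⟩ : ∃ w : ℝ, w = (1 - x1) / 2 := ⟨_, rfl⟩
  have hw1 : 8 / 25 ≤ w := by rw [hw]; linarith
  have hκ : 3 / 5 ≤ 1 - x1 - η := by linarith
  have hκ0 : 0 < 1 - x1 - η := by linarith
  have hk : (1 - x1 - η) - ((1 - x1) / 2 + η) = w - 2 * η := by rw [hw]; ring
  rw [hk, ← hw]
  have e1 : Real.log (w + η) - Real.log (w - 2 * η) ≤ 12 * η := by
    rw [← Real.log_div (by linarith) (by linarith)]
    have h3 : 0 < (w + η) / (w - 2 * η) := by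
      apply div_pos <;> linarith
    have h4 := Real.log_le_sub_one_of_pos h3
    have h5 : (w + η) / (w - 2 * η) - 1 ≤ 12 * η := by
      rw [div_sub_one (by linarith), div_le_iff₀ (by linarith)]
      nlinarith
    linarith
  obtain ⟨M, hM⟩ : ∃ M : ℝ, M = Real.log (max 1 (2 - 3 * x1)) := ⟨_, rfl⟩
  have hM0 : 0 ≤ M := by
    rw [hM]
    exact Real.log_nonneg (le_max_left _ _)
  have hM1 : M ≤ 1 := by
    rw [hM]
    have h3 : max 1 (2 - 3 * x1) ≤ 13 / 8 := by
      apply max_le <;> linarith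
    have h4 : (0 : ℝ) < max 1 (2 - 3 * x1) := lt_of_lt_of_le one_pos (le_max_left _ _)
    have h5 := Real.log_le_sub_one_of_pos h4
    linarith
  have e2 : Real.log ((1 - x1 - η) - 1 / 3) - Real.log (1 / 3) ≤ M := by
    rw [← Real.log_div (by linarith) (by norm_num), hM]
    apply Real.log_le_log
    · apply div_pos
      · linarith
      · norm_num
    · have : ((1 - x1 - η) - 1 / 3) / (1 / 3) = 2 - 3 * x1 - 3 * η := by ring
      rw [this]
      have := le_max_right (1 : ℝ) (2 - 3 * x1)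
      linarith
  rw [← hM]
  have e3 : 1 / (1 - x1 - η) ≤ 1 / (1 - x1) + 3 * η := by
    have h3 : 1 / (1 - x1 - η) - 1 / (1 - x1) = η / ((1 - x1 - η) * (1 - x1)) := by
      have : (1 - x1) ≠ 0 := by linarith
      have : (1 - x1 - η) ≠ 0 := by linarith
      field_simp
      ring
    have h4 : η / ((1 - x1 - η) * (1 - x1)) ≤ 3 * η := by
      rw [div_le_iff₀ (by apply mul_pos <;> linarith)]
      have : 1 / 3 ≤ (1 - x1 - η) * (1 - x1) := by nlinarith
      nlinarith
    linarith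
  have e4 : 1 / (1 - x1 - η) ≤ 5 / 3 := by
    rw [div_le_div_iff₀ hκ0 (by norm_num)]
    linarith
  have hκinv : 0 ≤ 1 / (1 - x1 - η) := by positivity
  calc 1 / (1 - x1 - η) * (Real.log (w + η) - Real.log (w - 2 * η)) -
      1 / (1 - x1 - η) * (Real.log (1 / 3) - Real.log ((1 - x1 - η) - 1 / 3))
      = 1 / (1 - x1 - η) * (Real.log (w + η) - Real.log (w - 2 * η)) +
      1 / (1 - x1 - η) * (Real.log ((1 - x1 - η) - 1 / 3) - Real.log (1 / 3)) := by ring
    _ ≤ 1 / (1 - x1 - η) * (12 * η) + 1 / (1 - x1 - η) * M := by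
        apply add_le_add
        · exact mul_le_mul_of_nonneg_left e1 hκinv
        · exact mul_le_mul_of_nonneg_left e2 hκinv
    _ ≤ 5 / 3 * (12 * η) + (1 / (1 - x1) + 3 * η) * M := by
        apply add_le_add
        · exact mul_le_mul_of_nonneg_right e4 (by positivity)
        · exact mul_le_mul_of_nonneg_right e3 hM0
    _ ≤ M / (1 - x1) + 24 * η := by
        have h3 : 3 * η * M ≤ 3 * η := by nlinarith
        have h4 : (1 / (1 - x1) + 3 * η) * M = M / (1 - x1) + 3 * η * M := by ring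
        rw [h4]
        linarith

/-- Proof. `L = log n`, `x1 = log q1/L ∈ [1/8, 1/3 + 1/L]`, `c = log 20/L`. `q2 ∈ [n^a, n^b']` with `n^a = (2n)^(1/3)`
(`a = 1/3 + log 2/(3L)`), `q2 ≤ √(3n/q1) = n^b`, `b = (1 - x1)/2 + log 3/(2L)`. If `a ≤ b`: the sum is at most
`(1/L) ∑_{n^a ≤ q2 < n^(b + η)} φ(x2)/q2`, `φ(x) = 1/(1 - x1 - c - x)`, increasing and bounded by `10`, and by
`prime_int` this is `(1/L) (∫_a^{b+η} dx/(x (1 - x1 - c - x)) + O(1/L))
= (1/L) ((1 - x1 - c)⁻¹ [log (x/(1 - x1 - c - x))]_a^{b+η} + O(1/L))`. As `n → ∞` and `η → 0`, uniformly in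
`x1 ∈ [1/8, 1/3]`: at `x = b + η` the logarithm is `O(η + 1/L)`, at `a` it tends to `log ((1/3)/(2/3 - x1)) = -log (2 - 3 x1)`. If
`a > b` the sum is empty or `x1 ≥ 1/3 - O(1/L)`, one trivial term is `O(1/n^(1/3))`. -/
theorem inner_sum (ε : ℝ) (hε : 0 < ε) : ∃ n0 : ℕ, ∀ n : ℕ, n0 ≤ n → ∀ q1 : ℕ, q1.Prime →
    zz n ≤ q1 → (q1 : ℝ) < yy n →
    ∑ q2 ∈ (PR (yy n) n).filter (fun q2 => q1 * q2 ^ 2 ≤ 3 * n),
        Real.log n / ((q2 : ℝ) * Real.log (n / (20 * q1 * q2))) ≤
      Real.log (max 1 (2 - 3 * (Real.log q1 / Real.log n))) /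
        (1 - Real.log q1 / Real.log n) + ε := by
  obtain ⟨C, hC, hpi⟩ := prime_int
  obtain ⟨η, hη⟩ : ∃ η : ℝ, η = min (1 / 60) (ε / 48) := ⟨_, rfl⟩
  have hη0 : 0 < η := by rw [hη]; exact lt_min (by norm_num) (by linarith)
  have hη1 : η ≤ 1 / 60 := by rw [hη]; exact min_le_left _ _
  have hη2 : 24 * η ≤ ε / 2 := by
    have : η ≤ ε / 48 := by rw [hη]; exact min_le_right _ _
    linarith
  obtain ⟨n1, hn1⟩ := cdl_log (max (20 / η) (24 * C / ε))
  obtain ⟨n2, hn2⟩ := cdl_zz 2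
  refine ⟨n1 + n2 + 3, fun n hn q1 hq1 hq1z hq1y => ?_⟩
  have hN : (3 : ℝ) ≤ n := by exact_mod_cast (by omega : 3 ≤ n)
  have hL : 0 < Real.log n := Real.log_pos (by linarith)
  obtain ⟨L, hLdef⟩ : ∃ L : ℝ, L = Real.log n := ⟨_, rfl⟩
  have hLn := hn1 n (by omega)
  have hz2 := hn2 n (by omega)
  have hlz := log_zz n (by omega)
  rw [← hLdef] at hL hLn hlz ⊢
  have hL1 : 20 ≤ η * L := by
    have : 20 / η ≤ L := le_trans (le_max_left _ _) hLn
    rw [div_le_iff₀ hη0] at this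
    linarith
  have hL2 : 24 * C ≤ ε * L := by
    have : 24 * C / ε ≤ L := le_trans (le_max_right _ _) hLn
    rw [div_le_iff₀ hε] at this
    linarith
  have hzpos : 0 < zz n := by linarith
  have hq0 : (0 : ℝ) < q1 := by linarith
  have hlog2 : Real.log 2 ≤ 1 := by
    have := Real.log_two_lt_d9
    linarith
  have hlog20 : Real.log 20 ≤ 19 := by
    have := Real.log_le_sub_one_of_pos (by norm_num : (0 : ℝ) < 20)
    linarith
  have hlog20' : 0 ≤ Real.log 20 := Real.log_nonneg (by norm_num)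
  have hlog3 : Real.log 3 ≤ 2 := by
    have := Real.log_le_sub_one_of_pos (by norm_num : (0 : ℝ) < 3)
    linarith
  have hlyy : Real.log (yy n) = 1 / 3 * (Real.log 2 + L) := by
    unfold yy
    rw [Real.log_rpow (by linarith), Real.log_mul (by norm_num) (by linarith), hLdef]
  have hyypos : 0 < yy n := by unfold yy; positivity
  obtain ⟨x1, hx1⟩ : ∃ x1 : ℝ, x1 = Real.log q1 / L := ⟨_, rfl⟩
  rw [← hx1]
  have hx1L : Real.log q1 = x1 * L := by rw [hx1, div_mul_cancel₀ _ hL.ne']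
  have hx18 : 1 / 8 ≤ x1 := by
    rw [hx1, le_div_iff₀ hL]
    have := Real.log_le_log hzpos hq1z
    rw [hlz] at this
    exact this
  have hx13 : x1 ≤ 1 / 3 + η := by
    rw [hx1, div_le_iff₀ hL]
    have := Real.log_le_log hq0 hq1y.le
    rw [hlyy] at this
    nlinarith
  obtain ⟨b, hb⟩ : ∃ b : ℝ, b = (1 - x1) / 2 + η := ⟨_, rfl⟩
  obtain ⟨κ, hκ⟩ : ∃ κ : ℝ, κ = 1 - x1 - η := ⟨_, rfl⟩
  have hb3 : 1 / 3 ≤ b := by rw [hb]; linarith
  have hκb : 1 / 4 ≤ κ - b := by rw [hb, hκ]; linarith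
  -- the terms
  have hterm : ∀ q2 ∈ (PR (yy n) n).filter (fun q2 => q1 * q2 ^ 2 ≤ 3 * n),
      q2 ∈ PR ((n : ℝ) ^ (1 / 3 : ℝ)) ((n : ℝ) ^ b) ∧
      L / ((q2 : ℝ) * Real.log (n / (20 * q1 * q2))) ≤ (1 / (κ - Real.log q2 / L)) / q2 := by
    intro q2 hq2
    rw [mem_filter, mem_PR] at hq2
    obtain ⟨⟨hq2p, hq2y, hq2n⟩, hq2s⟩ := hq2
    have hq20 : (0 : ℝ) < q2 := by linarith
    have hs : (q1 : ℝ) * (q2 : ℝ) ^ 2 ≤ 3 * n := by exact_mod_cast hq2s
    have hs' := Real.log_le_log (by positivity) hs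
    rw [Real.log_mul hq0.ne' (by positivity), Real.log_pow, Real.log_mul (by norm_num)
      (by linarith), ← hLdef, hx1L] at hs'
    push_cast at hs'
    have hx2 : Real.log q2 < b * L := by
      have : b * L = L / 2 - x1 * L / 2 + η * L := by rw [hb]; ring
      rw [this]
      linarith
    have hx2' : Real.log q2 / L < b := by
      rw [div_lt_iff₀ hL]
      exact hx2
    constructor
    · rw [mem_PR]
      refine ⟨hq2p, ?_, ?_⟩
      · refine le_trans ?_ hq2y
        unfold yy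
        apply Real.rpow_le_rpow (by linarith) (by linarith) (by norm_num)
      · rw [← Real.log_lt_log_iff hq20 (by positivity), Real.log_rpow (by linarith), ← hLdef]
        exact hx2
    · have hlg : Real.log (n / (20 * q1 * q2)) = L - Real.log 20 - x1 * L - Real.log q2 := by
        rw [Real.log_div (by linarith) (by positivity), Real.log_mul (by positivity) hq20.ne',
          Real.log_mul (by norm_num) hq0.ne', ← hLdef, hx1L]
        ring
      have hk1 : 0 < κ - Real.log q2 / L := by linarith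
      have hge : (κ - Real.log q2 / L) * L ≤ Real.log (n / (20 * q1 * q2)) := by
        rw [hlg, sub_mul, div_mul_cancel₀ _ hL.ne', hκ]
        nlinarith
      have hpos : 0 < Real.log (n / (20 * q1 * q2)) := lt_of_lt_of_le (by positivity) hge
      rw [div_div, div_le_div_iff₀ (by positivity) (by positivity)]
      calc L * ((κ - Real.log q2 / L) * q2) = q2 * ((κ - Real.log q2 / L) * L) := by ring
        _ ≤ q2 * Real.log (n / (20 * q1 * q2)) := mul_le_mul_of_nonneg_left hge hq20.le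
        _ = 1 * (q2 * Real.log (n / (20 * q1 * q2))) := by ring
  have hΦ : ∀ x ∈ Set.Icc (1 / 3 : ℝ) b, |1 / (κ - x)| ≤ 4 := by
    intro x hx
    rw [Set.mem_Icc] at hx
    have h1 : 1 / 4 ≤ κ - x := by linarith
    rw [abs_of_nonneg (by apply div_nonneg (by norm_num); linarith)]
    rw [div_le_iff₀ (by linarith)]
    linarith
  have hmono : MonotoneOn (fun x : ℝ => 1 / (κ - x)) (Set.Icc (1 / 3 : ℝ) b) := by
    intro x hx y hy hxy
    rw [Set.mem_Icc] at hx hy
    apply div_le_div_of_nonneg_left (by norm_num)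
    · linarith
    · linarith
  have hn3 : 2 ≤ (n : ℝ) ^ (1 / 3 : ℝ) := by
    have h1 : zz n ≤ (n : ℝ) ^ (1 / 3 : ℝ) := by
      unfold zz
      apply Real.rpow_le_rpow_of_exponent_le (by linarith) (by norm_num)
    linarith
  have hpi1 := hpi n (1 / 3) b 4 (fun x : ℝ => 1 / (κ - x)) (by omega)
    (by norm_num) hb3 (by rw [hb]; linarith) hn3 (Or.inl hmono) hΦ
  rw [cti_int κ (1 / 3) b (by norm_num) hb3 (by linarith), ← hLdef, abs_le] at hpi1
  have hcb := cti_bound η x1 hη0 hη1 hx18 hx13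
  rw [← hκ, ← hb] at hcb
  calc ∑ q2 ∈ (PR (yy n) n).filter (fun q2 => q1 * q2 ^ 2 ≤ 3 * n),
        L / ((q2 : ℝ) * Real.log (n / (20 * q1 * q2)))
      ≤ ∑ q2 ∈ (PR (yy n) n).filter (fun q2 => q1 * q2 ^ 2 ≤ 3 * n),
        (1 / (κ - Real.log q2 / L)) / q2 := sum_le_sum fun q2 hq2 => (hterm q2 hq2).2
    _ ≤ ∑ q2 ∈ PR ((n : ℝ) ^ (1 / 3 : ℝ)) ((n : ℝ) ^ b), (1 / (κ - Real.log q2 / L)) / q2 := by
        apply sum_le_sum_of_subset_of_nonneg (fun q2 hq2 => (hterm q2 hq2).1)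
        intro q hq _
        obtain ⟨hqp, hqa, hqb⟩ := mem_PR.mp hq
        have hq0 : (0 : ℝ) < q := by linarith
        have h1 := Real.log_le_log hq0 hqb.le
        rw [Real.log_rpow (by linarith), ← hLdef] at h1
        have h2 : Real.log q / L ≤ b := by
          rw [div_le_iff₀ hL]
          exact h1
        have h3 : 0 < κ - Real.log q / L := by linarith
        positivity
    _ ≤ (1 / κ * (Real.log b - Real.log (κ - b)) - 1 / κ * (Real.log (1 / 3) -
          Real.log (κ - 1 / 3))) + C * 4 / (1 / 3 * L) := by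
        linarith [hpi1.2]
    _ ≤ (Real.log (max 1 (2 - 3 * x1)) / (1 - x1) + 24 * η) + ε / 2 := by
        apply add_le_add hcb
        have : C * 4 / (1 / 3 * L) = 12 * C / L := by
          field_simp
          ring
        rw [this, div_le_iff₀ hL]
        linarith
    _ ≤ Real.log (max 1 (2 - 3 * x1)) / (1 - x1) + ε := by linarith

end Pool.Agent.Lib.H59C
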