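import Pool.Agent.Lib.H59C.Defs

/-!
# HH: the comparison function `hh s = exp (-(11/10) max s 2)`
-/

open Finset MeasureTheory

namespace Pool.Agent.Lib.H59C

/-- `c = 11/10`. -/
theorem hh_pos (s : ℝ) : 0 < hh s := Real.exp_pos _

theorem hh_anti : Antitone hh := by
  intro a b hab
  unfold hh
  apply Real.exp_le_exp.2
  have : max a 2 ≤ max b 2 := max_le_max_right 2 hab
  linarith

theorem HH_cont : Continuous (fun t : ℝ => hh (t - 1)) := by
  unfold hh
  fun_prop

theorem HH_big {t : ℝ} (ht : 3 ≤ t) : hh (t - 1) = Real.exp (11 / 10) * Real.exp (-(11 / 10) * t) := by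
  unfold hh
  rw [max_eq_left (by linarith), ← Real.exp_add]
  congr 1
  ring

theorem HH_small {t : ℝ} (ht : t ≤ 3) : hh (t - 1) = Real.exp (-(11 / 10) * 2) := by
  unfold hh
  rw [max_eq_right (by linarith)]

theorem HH_int_big (s : ℝ) (hs : 3 ≤ s) : IntegrableOn (fun t => hh (t - 1)) (Set.Ioi s) := by
  have h1 : IntegrableOn (fun t : ℝ => Real.exp (11 / 10) * Real.exp (-(11 / 10) * t)) (Set.Ioi s) :=
    (integrableOn_exp_mul_Ioi (by norm_num : (-(11 / 10) : ℝ) < 0) s).const_mul _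
  refine h1.congr_fun (fun t ht => ?_) measurableSet_Ioi
  rw [HH_big (by linarith [Set.mem_Ioi.1 ht])]

theorem hh_integrable (s : ℝ) : IntegrableOn (fun t => hh (t - 1)) (Set.Ioi s) := by
  rcases le_or_gt 3 s with h | h
  · exact HH_int_big s h
  · rw [← Set.Ioc_union_Ioi_eq_Ioi h.le]
    apply IntegrableOn.union
    · exact HH_cont.integrableOn_Ioc
    · exact HH_int_big 3 le_rfl

/-- the value of the integral, large s -/
theorem HH_val_big (s : ℝ) (hs : 3 ≤ s) : ∫ t in Set.Ioi s, hh (t - 1) =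
    10 / 11 * (Real.exp (11 / 10) * Real.exp (-(11 / 10) * s)) := by
  have h1 : ∫ t in Set.Ioi s, hh (t - 1) =
      ∫ t in Set.Ioi s, Real.exp (11 / 10) * Real.exp (-(11 / 10) * t) := by
    apply setIntegral_congr_fun measurableSet_Ioi
    intro t ht
    exact HH_big (by linarith [Set.mem_Ioi.1 ht])
  rw [h1, integral_const_mul, integral_exp_mul_Ioi (by norm_num)]
  ring

theorem HH_val_small (s : ℝ) (hs : s ≤ 3) : ∫ t in Set.Ioi s, hh (t - 1) =
    Real.exp (-(11 / 10) * 2) * (3 - s + 10 / 11) := by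
  rw [← Set.Ioc_union_Ioi_eq_Ioi hs, setIntegral_union (Set.Ioc_disjoint_Ioi le_rfl)
    measurableSet_Ioi (HH_cont.integrableOn_Ioc) (hh_integrable 3), HH_val_big 3 le_rfl]
  have h1 : ∫ t in Set.Ioc s 3, hh (t - 1) = ∫ _ in Set.Ioc s (3 : ℝ), Real.exp (-(11 / 10) * 2) := by
    apply setIntegral_congr_fun measurableSet_Ioc
    intro t ht
    exact HH_small ht.2
  rw [h1, setIntegral_const, Real.volume_real_Ioc_of_le hs, smul_eq_mul, ← Real.exp_add]
  have e : (11 / 10 : ℝ) + -(11 / 10) * 3 = -(11 / 10) * 2 := by norm_num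
  rw [e]
  ring

theorem HH_e : Real.exp (11 / 10) ≤ 303 / 100 := by
  have h1 : Real.exp (11 / 10) = Real.exp 1 * Real.exp (1 / 10) := by
    rw [← Real.exp_add]
    norm_num
  have h2 : Real.exp (1 / 10) ≤ 10 / 9 := by
    have h3 := Real.one_sub_le_exp_neg (1 / 10)
    have h4 : Real.exp (-(1 / 10)) * Real.exp (1 / 10) = 1 := by
      rw [← Real.exp_add, neg_add_cancel, Real.exp_zero]
    have h5 := Real.exp_pos (1 / 10)
    nlinarith
  have h3 := Real.exp_one_lt_d9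
  have h4 := Real.exp_pos 1
  have h5 := Real.exp_pos (1 / 10)
  rw [h1]
  nlinarith

theorem HH_half : Real.exp (1 / 2) ≤ 164873 / 100000 := by
  have h1 : Real.exp (1 / 2) ^ 2 = Real.exp 1 := by
    rw [← Real.exp_nat_mul]
    norm_num
  have h3 := Real.exp_one_lt_d9
  have h5 := Real.exp_pos (1 / 2)
  by_contra h
  rw [not_le] at h
  nlinarith

theorem HH_taylor (y : ℝ) (hy : |y| ≤ 1) :
    Real.exp y ≤ 1 + y + y ^ 2 / 2 + y ^ 3 / 6 + 5 / 96 * y ^ 4 := by
  have h := (abs_le.1 (Real.exp_bound hy (n := 4) (by norm_num))).2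
  have e : ∑ m ∈ range 4, y ^ m / (m.factorial : ℝ) = 1 + y + y ^ 2 / 2 + y ^ 3 / 6 := by
    simp [Finset.sum_range_succ, Nat.factorial]
  rw [e] at h
  have e2 : |y| ^ 4 = y ^ 4 := by
    rw [← abs_pow]
    exact abs_of_nonneg (by positivity)
  rw [e2] at h
  norm_num [Nat.factorial] at h
  linarith

/-- the polynomial inequality -/
theorem HH_poly (y : ℝ) (h1 : -(1 / 2) ≤ y) (h2 : y ≤ 3 / 5) :
    164873 / 100000 * ((8 / 5 - y) * (1 + y + y ^ 2 / 2 + y ^ 3 / 6 + 5 / 96 * y ^ 4)) ≤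
      49 / 50 * (27 / 10 + y) := by
  rcases le_or_gt 0 y with h | h
  · have a3 : 0 ≤ y ^ 3 := by positivity
    have a4 : 0 ≤ y ^ 4 := by positivity
    have a5 : 0 ≤ y ^ 5 := by positivity
    nlinarith [sq_nonneg (y - 1 / 70)]
  · have b2 : 0 ≤ y ^ 2 := sq_nonneg y
    have b3 : -(1 / 2) * y ^ 2 ≤ y ^ 3 := by nlinarith
    have b4 : 0 ≤ y ^ 4 := by positivity
    have b5 : -(1 / 8) * y ^ 2 ≤ y ^ 5 := by nlinarith [mul_nonneg b2 b2, sq_nonneg (y ^ 2)]
    nlinarith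

/-- the inequality for `2 ≤ s ≤ 3` -/
theorem HH_mid (s : ℝ) (h1 : 2 ≤ s) (h2 : s ≤ 3) :
    (3 - s + 10 / 11) * Real.exp (11 / 10 * (s - 2)) ≤ 49 / 50 * s := by
  obtain ⟨y, hy⟩ : ∃ y, y = 11 / 10 * (s - 2) - 1 / 2 := ⟨_, rfl⟩
  have hs : s = 2 + 10 / 11 * (y + 1 / 2) := by rw [hy]; ring
  have y1 : -(1 / 2) ≤ y := by rw [hy]; linarith
  have y2 : y ≤ 3 / 5 := by rw [hy]; linarith
  have e1 : Real.exp (11 / 10 * (s - 2)) = Real.exp (1 / 2) * Real.exp y := by
    rw [← Real.exp_add, hy]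
    congr 1
    ring
  have t := HH_taylor y (by rw [abs_le]; constructor <;> linarith)
  have hh2 := HH_half
  have p := HH_poly y y1 y2
  have hpos : 0 < 8 / 5 - y := by linarith
  have ey := Real.exp_pos y
  have e3 : Real.exp (1 / 2) * Real.exp y ≤
      164873 / 100000 * (1 + y + y ^ 2 / 2 + y ^ 3 / 6 + 5 / 96 * y ^ 4) :=
    mul_le_mul hh2 t ey.le (by norm_num)
  rw [e1]
  have e4 : 3 - s + 10 / 11 = 10 / 11 * (8 / 5 - y) := by rw [hs]; ring
  rw [e4]
  have e5 := mul_le_mul_of_nonneg_left e3 hpos.le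
  have e6 : 49 / 50 * s = 10 / 11 * (49 / 50 * (27 / 10 + y)) := by rw [hs]; ring
  rw [e6]
  nlinarith

/-- For `s ≥ 3` the integral is `e^c e^(-c s)/c` and `e^c/c ≤ 2.74 ≤ (49/50) · 3`. For `2 ≤ s ≤ 3` it is
`e^(-2c) ((3 - s) + 1/c)` and `((3 - s) + 1/c) e^(c (s-2)) ≤ (49/50) s` (the maximum of the quotient
of the left side by `s` is `0.9771` near `s = 2.47`; for the proof use e.g. upper bounds of `exp` on
`[0, 1.1]` by Taylor polynomials on a few subintervals, or convexity). -/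
theorem hh_int (s : ℝ) (hs : 2 ≤ s) : ∫ t in Set.Ioi s, hh (t - 1) ≤ 49 / 50 * s * hh s := by
  have e1 : hh s = Real.exp (-(11 / 10) * s) := by
    unfold hh
    rw [max_eq_left hs]
  have hp := Real.exp_pos (-(11 / 10) * s)
  rcases le_or_gt 3 s with h | h
  · rw [HH_val_big s h, e1]
    have h2 := HH_e
    have h3 : 10 / 11 * Real.exp (11 / 10) ≤ 49 / 50 * s := by linarith
    have := mul_le_mul_of_nonneg_right h3 hp.le
    linarith
  · rw [HH_val_small s h.le, e1]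
    have h2 := HH_mid s hs h.le
    have e2 : Real.exp (-(11 / 10) * 2) = Real.exp (11 / 10 * (s - 2)) * Real.exp (-(11 / 10) * s) := by
      rw [← Real.exp_add]
      congr 1
      ring
    rw [e2]
    have := mul_le_mul_of_nonneg_right h2 hp.le
    linarith

/-- The integral is `e^(-2c)/c`; `s hh s ≥ e^(-2c)` on `[1, 2]`, and `s e^(-c s) ≥ 3 e^(-3c)` on `[2, 3]`. -/
theorem hh_int3 (s : ℝ) (hs : 1 ≤ s) (hs3 : s ≤ 3) :
    ∫ t in Set.Ioi (3 : ℝ), hh (t - 1) ≤ 49 / 50 * s * hh s := by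
  rcases le_or_gt 2 s with h | h
  · refine le_trans ?_ (hh_int s h)
    apply setIntegral_mono_set (hh_integrable s)
    · exact Filter.Eventually.of_forall fun t => (hh_pos _).le
    · exact Filter.Eventually.of_forall (Set.Ioi_subset_Ioi hs3)
  · rw [HH_val_small 3 le_rfl]
    have e1 : hh s = Real.exp (-(11 / 10) * 2) := by
      unfold hh
      rw [max_eq_right h.le]
    rw [e1]
    have hp := Real.exp_pos (-(11 / 10) * 2)
    nlinarith

theorem hh_shift (s : ℝ) (hs : 2 ≤ s) : hh (s - 1) ≤ 4 * hh s := by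
  have e1 : hh s = Real.exp (-(11 / 10) * s) := by
    unfold hh
    rw [max_eq_left hs]
  have h1 : hh (s - 1) ≤ Real.exp (11 / 10) * Real.exp (-(11 / 10) * s) := by
    unfold hh
    rw [← Real.exp_add]
    apply Real.exp_le_exp.2
    have := le_max_left (s - 1) 2
    linarith
  rw [e1]
  refine h1.trans (mul_le_mul_of_nonneg_right ?_ (Real.exp_pos _).le)
  have := HH_e
  linarith

end Pool.Agent.Lib.H59C
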