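import Pool.Agent.Lib.H59C.Defs

/-!
# PS: partial summation for sifting products
-/

open Finset MeasureTheory

namespace Pool.Agent.Lib.H59C

/-- the elements below `z` are the largest one, `p`, and those below `p` -/
theorem PS_split (P : Finset ℕ) (z : ℝ) (hne : (P.filter (fun q : ℕ => (q : ℝ) < z)).Nonempty) :
    ∃ p ∈ P, (p : ℝ) < z ∧ p ∉ P.filter (fun q : ℕ => (q : ℝ) < p) ∧
      P.filter (fun q : ℕ => (q : ℝ) < z) = insert p (P.filter (fun q : ℕ => (q : ℝ) < p)) := by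
  classical
  refine ⟨(P.filter (fun q : ℕ => (q : ℝ) < z)).max' hne, ?_, ?_, ?_, ?_⟩
  · exact (mem_filter.mp (max'_mem _ hne)).1
  · exact (mem_filter.mp (max'_mem _ hne)).2
  · intro h
    exact absurd (mem_filter.mp h).2 (lt_irrefl _)
  · have hp := mem_filter.mp (max'_mem _ hne)
    ext q
    rw [mem_insert, mem_filter, mem_filter]
    constructor
    · rintro ⟨h1, h2⟩
      have h3 := le_max' (P.filter (fun q : ℕ => (q : ℝ) < z)) q (mem_filter.mpr ⟨h1, h2⟩)
      rcases h3.lt_or_eq with h4 | h4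
      · right
        exact ⟨h1, by exact_mod_cast h4⟩
      · left
        exact h4
    · rintro (h1 | ⟨h1, h2⟩)
      · rw [h1]
        exact hp
      · exact ⟨h1, h2.trans hp.2⟩

theorem PS_VP (P : Finset ℕ) (g : ℕ → ℝ) (z : ℝ) (p : ℕ)
    (hp : p ∉ P.filter (fun q : ℕ => (q : ℝ) < p))
    (h : P.filter (fun q : ℕ => (q : ℝ) < z) = insert p (P.filter (fun q : ℕ => (q : ℝ) < p))) :
    VP P g z = (1 - g p) * VP P g p := by
  unfold VP
  rw [h, prod_insert hp]

theorem PS_tail {ψ : ℝ → ℝ} {a b : ℝ} (hab : a ≤ b) (hψ : AntitoneOn ψ (Set.Ici (a - 1)))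
    (hi : IntegrableOn (fun t => ψ (t - 1)) (Set.Ioi a)) :
    (b - a) * ψ (b - 1) + ∫ t in Set.Ioi b, ψ (t - 1) ≤ ∫ t in Set.Ioi a, ψ (t - 1) := by
  have hi1 : IntegrableOn (fun t => ψ (t - 1)) (Set.Ioc a b) :=
    hi.mono_set Set.Ioc_subset_Ioi_self
  have hi2 : IntegrableOn (fun t => ψ (t - 1)) (Set.Ioi b) := hi.mono_set (Set.Ioi_subset_Ioi hab)
  have h1 : ∫ t in Set.Ioi a, ψ (t - 1) =
      (∫ t in Set.Ioc a b, ψ (t - 1)) + ∫ t in Set.Ioi b, ψ (t - 1) := by
    rw [← Set.Ioc_union_Ioi_eq_Ioi hab]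
    exact setIntegral_union Set.Ioc_disjoint_Ioi_same measurableSet_Ioi hi1 hi2
  rw [h1]
  have h2 : ∫ _t in Set.Ioc a b, ψ (b - 1) ≤ ∫ t in Set.Ioc a b, ψ (t - 1) := by
    refine setIntegral_mono_on ?_ hi1 measurableSet_Ioc fun t ht => ?_
    · exact integrableOn_const (by simp)
    · apply hψ
      · rw [Set.mem_Ici]
        linarith [ht.1]
      · rw [Set.mem_Ici]
        linarith
      · linarith [ht.2]
  have h3 : ∫ _t in Set.Ioc a b, ψ (b - 1) = (b - a) * ψ (b - 1) := by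
    rw [setIntegral_const, smul_eq_mul]
    congr 1
    rw [Real.volume_real_Ioc_of_le hab]
  linarith

/-- the auxiliary statement -/
theorem PS_aux (K : ℝ) (hK : 1 ≤ K) (P : Finset ℕ) (g : ℕ → ℝ)
    (hP : ∀ q ∈ P, 2 ≤ q ∧ 0 ≤ g q ∧ g q < 1) (hOm : Om K P g) (φ : ℝ → ℝ) (D z : ℝ) (hz : 2 ≤ z)
    (hD : 1 < D) (hφ : AntitoneOn φ (Set.Ici (Real.log D / Real.log z - 1)))
    (hφ0 : ∀ x, Real.log D / Real.log z - 1 ≤ x → 0 ≤ φ x)
    (hφi : IntegrableOn (fun t => φ (t - 1)) (Set.Ioi (Real.log D / Real.log z))) :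
    ∀ (n : ℕ) (y : ℝ), 2 ≤ y → y ≤ z → (P.filter (fun q : ℕ => (q : ℝ) < y)).card = n →
    ∑ q ∈ P.filter (fun q : ℕ => (q : ℝ) < y), g q * VP P g q * φ (Real.log D / Real.log q - 1) +
      VP P g y * φ (Real.log D / Real.log y - 1) ≤
      K * VP P g z / (Real.log D / Real.log z) *
        ((∫ t in Set.Ioi (Real.log D / Real.log y), φ (t - 1)) +
          Real.log D / Real.log y * φ (Real.log D / Real.log y - 1)) := by
  have hlD : 0 < Real.log D := Real.log_pos hD
  have hlz : 0 < Real.log z := Real.log_pos (by linarith)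
  obtain ⟨s, hs⟩ : ∃ s : ℝ, s = Real.log D / Real.log z := ⟨_, rfl⟩
  have hs0 : 0 < s := by rw [hs]; positivity
  rw [← hs] at hφ hφ0 hφi ⊢
  have hVz : 0 ≤ VP P g z := by
    unfold VP
    apply prod_nonneg
    intro q hq
    have := (hP q (mem_filter.mp hq).1).2.2
    linarith
  -- facts at a point y
  have hfacts : ∀ y : ℝ, 2 ≤ y → y ≤ z → s ≤ Real.log D / Real.log y ∧
      VP P g y ≤ K * VP P g z / s * (Real.log D / Real.log y) ∧ 0 < Real.log y := by
    intro y hy hyz
    have hly : 0 < Real.log y := Real.log_pos (by linarith)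
    have hlyz : Real.log y ≤ Real.log z := Real.log_le_log (by linarith) hyz
    refine ⟨?_, ?_, hly⟩
    · rw [hs]
      exact div_le_div_of_nonneg_left hlD.le hly hlyz
    · have h1 := hOm y z hy hyz
      refine h1.trans (le_of_eq ?_)
      rw [hs]
      field_simp
  intro n
  induction n with
  | zero =>
    intro y hy hyz hcard
    rw [card_eq_zero] at hcard
    obtain ⟨h1, h2, h3⟩ := hfacts y hy hyz
    rw [hcard, sum_empty, zero_add]
    have h4 : 0 ≤ φ (Real.log D / Real.log y - 1) := hφ0 _ (by linarith)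
    have h5 : 0 ≤ ∫ t in Set.Ioi (Real.log D / Real.log y), φ (t - 1) := by
      apply setIntegral_nonneg measurableSet_Ioi
      intro t ht
      apply hφ0
      have := Set.mem_Ioi.mp ht
      linarith
    have h6 : 0 ≤ K * VP P g z / s := by positivity
    have h7 := mul_le_mul_of_nonneg_right h2 h4
    have h8 := mul_nonneg h6 h5
    rw [mul_add]
    linarith
  | succ n ih =>
    intro y hy hyz hcard
    have hne : (P.filter (fun q : ℕ => (q : ℝ) < y)).Nonempty := by
      rw [← card_pos]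
      omega
    obtain ⟨p, hpP, hpy, hpn, hins⟩ := PS_split P y hne
    have hp2 : (2 : ℝ) ≤ p := by exact_mod_cast (hP p hpP).1
    have hpz : (p : ℝ) ≤ z := hpy.le.trans hyz
    have hcard' : (P.filter (fun q : ℕ => (q : ℝ) < p)).card = n := by
      rw [hins, card_insert_of_notMem hpn] at hcard
      omega
    have hih := ih p hp2 hpz hcard'
    obtain ⟨h1, h2, h3⟩ := hfacts y hy hyz
    obtain ⟨h1', h2', h3'⟩ := hfacts p hp2 hpz
    have hVy : VP P g y = (1 - g p) * VP P g p := PS_VP P g y p hpn hins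
    have hty : Real.log D / Real.log y ≤ Real.log D / Real.log p := by
      apply div_le_div_of_nonneg_left hlD.le h3'
      exact Real.log_le_log (by linarith) hpy.le
    have hanti : AntitoneOn φ (Set.Ici (Real.log D / Real.log y - 1)) :=
      hφ.mono (Set.Ici_subset_Ici.mpr (by linarith))
    have hint : IntegrableOn (fun t => φ (t - 1)) (Set.Ioi (Real.log D / Real.log y)) :=
      hφi.mono_set (Set.Ioi_subset_Ioi h1)
    have htail := PS_tail hty hanti hint
    have hφle : φ (Real.log D / Real.log p - 1) ≤ φ (Real.log D / Real.log y - 1) := by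
      apply hanti
      · rw [Set.mem_Ici]
      · rw [Set.mem_Ici]
        linarith
      · linarith
    have h6 : 0 ≤ K * VP P g z / s := by positivity
    rw [hins, sum_insert hpn]
    have h7 : g p * VP P g p * φ (Real.log D / Real.log p - 1) +
        ∑ q ∈ P.filter (fun q : ℕ => (q : ℝ) < p),
          g q * VP P g q * φ (Real.log D / Real.log q - 1) +
        VP P g y * φ (Real.log D / Real.log y - 1) =
        (∑ q ∈ P.filter (fun q : ℕ => (q : ℝ) < p),
          g q * VP P g q * φ (Real.log D / Real.log q - 1) +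
          VP P g p * φ (Real.log D / Real.log p - 1)) +
        VP P g y * (φ (Real.log D / Real.log y - 1) - φ (Real.log D / Real.log p - 1)) := by
      rw [hVy]
      ring
    rw [h7]
    have h8 := mul_le_mul_of_nonneg_right h2 (sub_nonneg.mpr hφle)
    have h9 := mul_le_mul_of_nonneg_left htail h6
    nlinarith [hih, h8, h9]

/-- Let `s = log D/log z` and `φ ≥ 0` nonincreasing and integrable on `[s - 1, ∞)`.

Proof. Let `p_1 < ... < p_k` be the elements of `P` below `z`, `V_j = V(p_j)`, `V_{k+1} = V(z)`,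
`t_j = log D/log p_j ≥ s` (decreasing in `j`), `φ_j = φ(t_j - 1)` (increasing in `j`). `g(p_j) V_j = V_j - V_{j+1}`, so
the sum is `∑ (V_j - V_{j+1}) φ_j = V_1 φ_1 + ∑_{j ≥ 2} V_j (φ_j - φ_{j-1}) - V(z) φ_k`. By `Om`
`V_j ≤ K V(z) log z/log p_j = K V(z) t_j/s`; so it is at most
`(K V(z)/s) (t_1 φ_1 + ∑_{j≥2} t_j (φ_j - φ_{j-1})) - V(z) φ_k
= (K V(z)/s) (∑_{j<k} φ_j (t_j - t_{j+1}) + t_k φ_k) - V(z) φ_k`. As `φ` is nonincreasing
`φ_j (t_j - t_{j+1}) ≤ ∫_{t_{j+1}}^{t_j} φ(t - 1) dt`, and `(t_k - s) φ_k ≤ ∫_s^{t_k} φ(t-1) dt`. Total: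
`(K V(z)/s) (∫_s^∞ φ(t-1) dt + s φ_k) - V(z) φ_k ≤ V(z) ((K/s) ∫_s^∞ φ(t-1) dt + (K - 1) φ(s-1))`.
(One can do the same by induction on the number of elements of `P` below `z'` for the auxiliary
statement `∑_{p ∈ P, p < z'} (V(p) - V(p+)) φ + V(z') φ(z') ≤ (K V(z)/s)(∫_{t(z')}^∞ φ(t-1) dt + t(z') φ(z'))`,
`z' ≤ z`, `V(z)` fixed.) -/
theorem part_sum (K : ℝ) (hK : 1 ≤ K) (P : Finset ℕ) (g : ℕ → ℝ)
    (hP : ∀ q ∈ P, 2 ≤ q ∧ 0 ≤ g q ∧ g q < 1) (hOm : Om K P g) (φ : ℝ → ℝ) (D z : ℝ) (hz : 2 ≤ z)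
    (hD : 1 < D) (hφ : AntitoneOn φ (Set.Ici (Real.log D / Real.log z - 1)))
    (hφ0 : ∀ x, Real.log D / Real.log z - 1 ≤ x → 0 ≤ φ x)
    (hφi : IntegrableOn (fun t => φ (t - 1)) (Set.Ioi (Real.log D / Real.log z))) :
    ∑ q ∈ P.filter (fun q : ℕ => (q : ℝ) < z), g q * VP P g q * φ (Real.log D / Real.log q - 1) ≤
      VP P g z * (K / (Real.log D / Real.log z) *
        (∫ t in Set.Ioi (Real.log D / Real.log z), φ (t - 1)) +
        (K - 1) * φ (Real.log D / Real.log z - 1)) := by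
  have hlD : 0 < Real.log D := Real.log_pos hD
  have hlz : 0 < Real.log z := Real.log_pos (by linarith)
  have h := PS_aux K hK P g hP hOm φ D z hz hD hφ hφ0 hφi _ z hz (le_refl z) rfl
  have hs0 : 0 < Real.log D / Real.log z := by positivity
  have h2 : K * VP P g z / (Real.log D / Real.log z) *
        ((∫ t in Set.Ioi (Real.log D / Real.log z), φ (t - 1)) +
          Real.log D / Real.log z * φ (Real.log D / Real.log z - 1)) =
      VP P g z * (K / (Real.log D / Real.log z) *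
        (∫ t in Set.Ioi (Real.log D / Real.log z), φ (t - 1)) +
        (K - 1) * φ (Real.log D / Real.log z - 1)) +
      VP P g z * φ (Real.log D / Real.log z - 1) := by
    generalize (∫ t in Set.Ioi (Real.log D / Real.log z), φ (t - 1)) = I
    generalize φ (Real.log D / Real.log z - 1) = w
    generalize Real.log D / Real.log z = s at hs0 ⊢
    field_simp
    ring
  linarith

theorem PS_gV (P : Finset ℕ) (g : ℕ → ℝ) : ∀ (n : ℕ) (z : ℝ),
    (P.filter (fun q : ℕ => (q : ℝ) < z)).card = n →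
    ∑ q ∈ P.filter (fun q : ℕ => (q : ℝ) < z), g q * VP P g q = 1 - VP P g z := by
  intro n
  induction n with
  | zero =>
    intro z hcard
    rw [card_eq_zero] at hcard
    unfold VP
    rw [hcard]
    simp
  | succ n ih =>
    intro z hcard
    have hne : (P.filter (fun q : ℕ => (q : ℝ) < z)).Nonempty := by
      rw [← card_pos]
      omega
    obtain ⟨p, hpP, hpy, hpn, hins⟩ := PS_split P z hne
    have hcard' : (P.filter (fun q : ℕ => (q : ℝ) < p)).card = n := by
      rw [hins, card_insert_of_notMem hpn] at hcard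
      omega
    rw [PS_VP P g z p hpn hins, hins, sum_insert hpn, ih p hcard']
    ring

/-- `∑_{q < z} g(q) V(q) = 1 - V(z)` -/
theorem sum_gV (P : Finset ℕ) (g : ℕ → ℝ) (z : ℝ) :
    ∑ q ∈ P.filter (fun q : ℕ => (q : ℝ) < z), g q * VP P g q = 1 - VP P g z := by
  exact PS_gV P g _ z rfl

end Pool.Agent.Lib.H59C
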