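import Pool.Agent.Lib.H59C.RW1
import Pool.Agent.Lib.H59C.PS
import Pool.Agent.Lib.H59C.HH

/-!
# MI: the main terms of the linear sieve
-/

open Finset MeasureTheory

namespace Pool.Agent.Lib.H59C

theorem MI_F (P : Finset ℕ) (z : ℝ) (p : ℕ) (hp : (p : ℝ) < z) :
    (P.filter (fun q : ℕ => (q : ℝ) < z)).filter (fun q => q < p) =
      P.filter (fun q : ℕ => (q : ℝ) < (p : ℝ)) := by
  ext q
  simp only [Finset.mem_filter]
  constructor
  · rintro ⟨⟨h1, _⟩, h3⟩
    exact ⟨h1, Nat.cast_lt.2 h3⟩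
  · rintro ⟨h1, h3⟩
    exact ⟨⟨h1, h3.trans hp⟩, Nat.cast_lt.1 h3⟩

theorem MI_card (P : Finset ℕ) (z : ℝ) (p : ℕ) (hpP : p ∈ P) (hp : (p : ℝ) < z) :
    (P.filter (fun q : ℕ => (q : ℝ) < (p : ℝ))).card <
      (P.filter (fun q : ℕ => (q : ℝ) < z)).card := by
  apply Finset.card_lt_card
  rw [Finset.ssubset_iff_of_subset]
  · refine ⟨p, Finset.mem_filter.2 ⟨hpP, hp⟩, ?_⟩
    intro h
    exact lt_irrefl _ (Finset.mem_filter.1 h).2
  · intro q hq
    rw [Finset.mem_filter] at hq ⊢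
    exact ⟨hq.1, hq.2.trans hp⟩

theorem MI_low (P : Finset ℕ) (g : ℕ → ℝ) (hP : ∀ q ∈ P, 2 ≤ q ∧ 0 ≤ g q ∧ g q < 1) (D z : ℝ)
    (φ : ℝ → ℝ)
    (h : ∀ p ∈ P, (p : ℝ) < z → SS true (D / p) (P.filter (fun q : ℕ => (q : ℝ) < (p : ℝ))) g ≤
      VP P g p * (1 + φ (Real.log D / Real.log p - 1))) :
    VP P g z - SS false D (P.filter (fun q : ℕ => (q : ℝ) < z)) g ≤
      ∑ q ∈ P.filter (fun q : ℕ => (q : ℝ) < z),
        g q * VP P g q * φ (Real.log D / Real.log q - 1) := by
  rw [SS_rec false D]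
  have e1 : (P.filter (fun q : ℕ => (q : ℝ) < z)).filter
      (fun p : ℕ => false = true → (p : ℝ) ^ 3 < D) = P.filter (fun q : ℕ => (q : ℝ) < z) := by
    apply Finset.filter_true_of_mem
    intro q _ h
    exact absurd h (by simp)
  rw [e1]
  have e2 : ∑ p ∈ P.filter (fun q : ℕ => (q : ℝ) < z), g p * SS (!false) (D / p)
        ((P.filter (fun q : ℕ => (q : ℝ) < z)).filter (fun q => q < p)) g ≤
      ∑ p ∈ P.filter (fun q : ℕ => (q : ℝ) < z),
        (g p * VP P g p + g p * VP P g p * φ (Real.log D / Real.log p - 1)) := by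
    apply Finset.sum_le_sum
    intro p hp
    have hp' := Finset.mem_filter.1 hp
    rw [MI_F P z p hp'.2, Bool.not_false]
    have := mul_le_mul_of_nonneg_left (h p hp'.1 hp'.2) (hP p hp'.1).2.1
    linarith
  rw [Finset.sum_add_distrib, sum_gV] at e2
  linarith

theorem MI_up (P : Finset ℕ) (g : ℕ → ℝ) (hP : ∀ q ∈ P, 2 ≤ q ∧ 0 ≤ g q ∧ g q < 1) (D z : ℝ)
    (φ : ℝ → ℝ) (hD : ∀ p ∈ P, (p : ℝ) < z → (p : ℝ) ^ 3 < D)
    (h : ∀ p ∈ P, (p : ℝ) < z → VP P g p * (1 - φ (Real.log D / Real.log p - 1)) ≤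
      SS false (D / p) (P.filter (fun q : ℕ => (q : ℝ) < (p : ℝ))) g) :
    SS true D (P.filter (fun q : ℕ => (q : ℝ) < z)) g - VP P g z ≤
      ∑ q ∈ P.filter (fun q : ℕ => (q : ℝ) < z),
        g q * VP P g q * φ (Real.log D / Real.log q - 1) := by
  rw [SS_rec true D]
  have e1 : (P.filter (fun q : ℕ => (q : ℝ) < z)).filter
      (fun p : ℕ => true = true → (p : ℝ) ^ 3 < D) = P.filter (fun q : ℕ => (q : ℝ) < z) := by
    apply Finset.filter_true_of_mem
    intro q hq _
    exact hD q (Finset.mem_filter.1 hq).1 (Finset.mem_filter.1 hq).2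
  rw [e1]
  have e2 : ∑ p ∈ P.filter (fun q : ℕ => (q : ℝ) < z),
        (g p * VP P g p - g p * VP P g p * φ (Real.log D / Real.log p - 1)) ≤
      ∑ p ∈ P.filter (fun q : ℕ => (q : ℝ) < z), g p * SS (!true) (D / p)
        ((P.filter (fun q : ℕ => (q : ℝ) < z)).filter (fun q => q < p)) g := by
    apply Finset.sum_le_sum
    intro p hp
    have hp' := Finset.mem_filter.1 hp
    rw [MI_F P z p hp'.2, Bool.not_true]
    have := mul_le_mul_of_nonneg_left (h p hp'.1 hp'.2) (hP p hp'.1).2.1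
    linarith
  rw [Finset.sum_sub_distrib, sum_gV] at e2
  linarith

theorem MI_int {a C : ℝ} {w : ℝ → ℝ} (h0 : ∀ s, a ≤ s → 0 ≤ w s)
    (hanti : AntitoneOn w (Set.Ici a)) (hb : ∀ s, a ≤ s → w s ≤ C * hh s) (s : ℝ)
    (hs : a + 1 ≤ s) : IntegrableOn (fun t => w (t - 1)) (Set.Ioi s) := by
  have h1 : AntitoneOn (fun t => w (t - 1)) (Set.Ioi s) := by
    intro x hx y hy hxy
    have hx' : s < x := hx
    have hy' : s < y := hy
    apply hanti
    · rw [Set.mem_Ici]
      linarith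
    · rw [Set.mem_Ici]
      linarith
    · linarith
  refine Integrable.mono' ((hh_integrable s).const_mul C)
    (aemeasurable_restrict_of_antitoneOn measurableSet_Ioi h1).aestronglyMeasurable ?_
  refine (ae_restrict_iff' measurableSet_Ioi).2 (Filter.Eventually.of_forall fun t ht => ?_)
  have ht' : s < t := ht
  rw [Real.norm_eq_abs, abs_of_nonneg (h0 _ (by linarith))]
  exact hb _ (by linarith)

theorem MI_ps {C a : ℝ} {w : ℝ → ℝ} (h0 : ∀ s, a ≤ s → 0 ≤ w s)
    (hanti : AntitoneOn w (Set.Ici a)) (hb : ∀ s, a ≤ s → w s ≤ C * hh s) (K c : ℝ) (hK : 1 ≤ K)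
    (hc : 0 ≤ c) (P : Finset ℕ) (g : ℕ → ℝ) (hP : ∀ q ∈ P, 2 ≤ q ∧ 0 ≤ g q ∧ g q < 1)
    (hOm : Om K P g) (D z : ℝ) (hz : 2 ≤ z) (hD : 1 < D)
    (has : a + 1 ≤ Real.log D / Real.log z) :
    ∑ q ∈ P.filter (fun q : ℕ => (q : ℝ) < z),
      g q * VP P g q * (w (Real.log D / Real.log q - 1) + c * hh (Real.log D / Real.log q - 1)) ≤
    VP P g z * (K / (Real.log D / Real.log z) *
      ((∫ t in Set.Ioi (Real.log D / Real.log z), w (t - 1)) +
        c * (∫ t in Set.Ioi (Real.log D / Real.log z), hh (t - 1))) +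
      (K - 1) * (w (Real.log D / Real.log z - 1) + c * hh (Real.log D / Real.log z - 1))) := by
  have hi1 := MI_int h0 hanti hb _ has
  have hi2 := (hh_integrable (Real.log D / Real.log z)).const_mul c
  have key := part_sum K hK P g hP hOm (fun x => w x + c * hh x) D z hz hD ?_ ?_ ?_
  · have e1 : ∫ t in Set.Ioi (Real.log D / Real.log z), (w (t - 1) + c * hh (t - 1)) =
        (∫ t in Set.Ioi (Real.log D / Real.log z), w (t - 1)) +
        c * (∫ t in Set.Ioi (Real.log D / Real.log z), hh (t - 1)) := by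
      rw [integral_add hi1 hi2, integral_const_mul]
    simp only [e1] at key
    exact key
  · intro x hx y hy hxy
    rw [Set.mem_Ici] at hx hy
    have h1 : w y ≤ w x := hanti (by rw [Set.mem_Ici]; linarith) (by rw [Set.mem_Ici]; linarith) hxy
    have h2 : c * hh y ≤ c * hh x := mul_le_mul_of_nonneg_left (hh_anti hxy) hc
    show w y + c * hh y ≤ w x + c * hh x
    linarith
  · intro x hx
    have h1 := h0 x (by linarith)
    have h2 : 0 ≤ c * hh x := mul_nonneg hc (hh_pos x).le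
    show 0 ≤ w x + c * hh x
    linarith
  · exact hi1.add hi2

theorem MI_alg {C C1 δ s h h1 w w1 I : ℝ} (hC : 0 < C) (hC1 : 1000 * C ≤ C1) (hδ : 0 ≤ δ)
    (hδ1 : δ ≤ 1 / 1000) (hs : 0 < s) (hh0 : 0 ≤ h) (hI : I ≤ 49 / 50 * s * h) (hh1 : h1 ≤ 4 * h)
    (hw1 : w1 ≤ C * h1) (hw : w ≤ C * h) :
    (1 + δ) / s * (s * w + C1 * δ * I) + δ * (w1 + C1 * δ * h1) ≤ w + C1 * δ * h := by
  have hC10 : 0 < C1 := by linarith
  have e1 : (1 + δ) / s * (s * w + C1 * δ * I) ≤
      (1 + δ) / s * (s * w + C1 * δ * (49 / 50 * s * h)) := by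
    gcongr
  have e2 : (1 + δ) / s * (s * w + C1 * δ * (49 / 50 * s * h)) =
      (1 + δ) * w + (1 + δ) * (C1 * δ * (49 / 50 * h)) := by
    field_simp
  have e3 : δ * (w1 + C1 * δ * h1) ≤ δ * (C * (4 * h) + C1 * δ * (4 * h)) := by
    have e31 : w1 ≤ C * (4 * h) := hw1.trans (mul_le_mul_of_nonneg_left hh1 hC.le)
    have e32 : C1 * δ * h1 ≤ C1 * δ * (4 * h) := mul_le_mul_of_nonneg_left hh1 (by positivity)
    apply mul_le_mul_of_nonneg_left _ hδ
    linarith
  have e4 : δ * w ≤ δ * (C * h) := mul_le_mul_of_nonneg_left hw hδ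
  have e6 : C1 * δ ≤ C1 * (1 / 1000) := mul_le_mul_of_nonneg_left hδ1 hC10.le
  have e7 : 5 * C + C1 * (49 / 50 * (1 + δ) + 4 * δ) ≤ C1 := by
    linarith
  have e5 : δ * h * (5 * C + C1 * (49 / 50 * (1 + δ) + 4 * δ)) ≤ δ * h * C1 :=
    mul_le_mul_of_nonneg_left e7 (mul_nonneg hδ hh0)
  linarith

theorem MI_alg2 {C1 δ s us u3 v2 h2 h3 hs I : ℝ} (hC1 : 200 * (3 + 9 * u3 + 6 * v2) ≤ C1 * h3)
    (hC10 : 0 < C1) (hδ : 0 ≤ δ) (hδ1 : δ ≤ 1 / 1000) (hs1 : 1 ≤ s) (hh0 : 0 ≤ h3) (hu3 : 0 ≤ u3)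
    (hv2 : 0 ≤ v2) (hI : I ≤ 49 / 50 * s * hs) (hh2 : h2 ≤ 4 * h3) (hh3 : h3 ≤ hs)
    (heq : s * (1 + us) = 3 * (1 + u3)) :
    (1 + δ) * (3 / s) * (1 + ((1 + δ) / 3 * (3 * u3 + C1 * δ * I) + δ * (v2 + C1 * δ * h2))) ≤
      1 + us + C1 * δ * hs := by
  have hs0 : 0 < s := by linarith
  have hhs : 0 ≤ hs := hh0.trans hh3
  have e0 : (1 + δ) * (3 / s) *
      (1 + ((1 + δ) / 3 * (3 * u3 + C1 * δ * I) + δ * (v2 + C1 * δ * h2))) =
      (3 * (1 + δ) + 3 * (1 + δ) ^ 2 * u3 + (1 + δ) ^ 2 * (C1 * δ) * I +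
        3 * (1 + δ) * δ * (v2 + C1 * δ * h2)) / s := by
    field_simp
    ring
  rw [e0, div_le_iff₀ hs0]
  have hcd : 0 ≤ C1 * δ := by positivity
  have hX : hs ≤ s * hs := by nlinarith
  have e1 : (1 + δ) ^ 2 * (C1 * δ) * I ≤ (1 + δ) ^ 2 * (C1 * δ) * (49 / 50 * s * hs) :=
    mul_le_mul_of_nonneg_left hI (by positivity)
  have hδ2 : (1 + δ) ^ 2 ≤ 10021 / 10000 := by nlinarith
  have e2 : (1 + δ) ^ 2 * (C1 * δ * (49 / 50 * s * hs)) ≤
      10021 / 10000 * (C1 * δ * (49 / 50 * s * hs)) :=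
    mul_le_mul_of_nonneg_right hδ2 (by positivity)
  have e3 : h2 ≤ 4 * (s * hs) := by linarith
  have e4 : 3 * (1 + δ) * δ * (C1 * δ) * h2 ≤ 3 * (1 + δ) * δ * (C1 * δ) * (4 * (s * hs)) :=
    mul_le_mul_of_nonneg_left e3 (by positivity)
  have hδ3 : 3 * (1 + δ) * δ ≤ 31 / 10000 := by nlinarith
  have e5 : 3 * (1 + δ) * δ * (C1 * δ * (4 * (s * hs))) ≤ 31 / 10000 * (C1 * δ * (4 * (s * hs))) :=
    mul_le_mul_of_nonneg_right hδ3 (by positivity)
  have e6 : δ * (200 * (3 + 9 * u3 + 6 * v2)) ≤ δ * (C1 * h3) := mul_le_mul_of_nonneg_left hC1 hδ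
  have e7 : C1 * δ * h3 ≤ C1 * δ * (s * hs) := mul_le_mul_of_nonneg_left (by linarith) hcd
  have e8 : 3 * δ ^ 2 * u3 ≤ 3 * δ * u3 := by
    have : δ ^ 2 ≤ δ := by nlinarith
    have := mul_le_mul_of_nonneg_right this hu3
    linarith
  have e9 : 3 * δ ^ 2 * v2 ≤ 3 * δ * v2 := by
    have : δ ^ 2 ≤ δ := by nlinarith
    have := mul_le_mul_of_nonneg_right this hv2
    linarith
  have e10 : 0 ≤ C1 * δ * (s * hs) := by positivity
  linarith

theorem MI_log (D : ℝ) (p : ℕ) (hp : 2 ≤ p) (hD : 0 < D) :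
    Real.log (D / p) / Real.log p = Real.log D / Real.log p - 1 := by
  have hp1 : (2 : ℝ) ≤ p := by exact_mod_cast hp
  have hl : 0 < Real.log (p : ℝ) := Real.log_pos (by linarith)
  rw [Real.log_div hD.ne' (by linarith), sub_div, div_self hl.ne']

theorem MI_star {C : ℝ} {u v : ℝ → ℝ} (h : UV C u v) (C1 : ℝ) (hC10 : 0 < C1)
    (δ : ℝ) (hδ : 0 ≤ δ) (P : Finset ℕ) (g : ℕ → ℝ)
    (hP : ∀ q ∈ P, 2 ≤ q ∧ 0 ≤ g q ∧ g q < 1) (hOm : Om (1 + δ) P g) (n : ℕ)
    (ih : ∀ D z : ℝ, 2 ≤ z → z ≤ D → (P.filter (fun q : ℕ => (q : ℝ) < z)).card < n →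
      (2 * Real.log z ≤ Real.log D →
      VP P g z * (1 - v (Real.log D / Real.log z) - C1 * δ * hh (Real.log D / Real.log z)) ≤
        SS false D (P.filter (fun q : ℕ => (q : ℝ) < z)) g))
    (D z : ℝ) (hz : 2 ≤ z) (hD : 1 < D) (hs : 3 * Real.log z ≤ Real.log D)
    (hcard : (P.filter (fun q : ℕ => (q : ℝ) < z)).card < n + 1) (s : ℝ)
    (hs' : s = Real.log D / Real.log z) :
    SS true D (P.filter (fun q : ℕ => (q : ℝ) < z)) g ≤
      VP P g z * (1 + ((1 + δ) / s * (s * u s + C1 * δ * (∫ t in Set.Ioi s, hh (t - 1))) +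
        δ * (v (s - 1) + C1 * δ * hh (s - 1)))) := by
  have hlz : 0 < Real.log z := Real.log_pos (by linarith)
  have hs3 : 3 ≤ Real.log D / Real.log z := by
    rw [le_div_iff₀ hlz]
    exact hs
  have hz3 : z ^ 3 ≤ D := by
    rw [← Real.log_le_log_iff (by positivity) (by linarith), Real.log_pow]
    exact_mod_cast hs
  have hp3 : ∀ p ∈ P, (p : ℝ) < z → (p : ℝ) ^ 3 < D := by
    intro p _ hpz
    exact (pow_lt_pow_left₀ hpz (Nat.cast_nonneg p) (by norm_num)).trans_le hz3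
  have k1 := MI_up P g hP D z (fun x => v x + C1 * δ * hh x) hp3 ?_
  · have k2 := MI_ps (C := C) (a := 2) (w := v) h.v0 h.vanti h.vb (1 + δ) (C1 * δ) (by linarith)
      (by positivity) P g hP hOm D z hz hD (by linarith)
    rw [← h.equ _ hs3] at k2
    rw [← hs', add_sub_cancel_left] at k2
    have k3 := k1.trans k2
    linarith
  · intro p hpP hpz
    have hp2 : 2 ≤ p := (hP p hpP).1
    have hp2' : (2 : ℝ) ≤ p := by exact_mod_cast hp2
    have hlp : 0 < Real.log (p : ℝ) := Real.log_pos (by linarith)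
    have hlpz : Real.log (p : ℝ) < Real.log z := Real.log_lt_log (by linarith) hpz
    have hpp := hp3 p hpP hpz
    have k4 := ih (D / p) p hp2' ?_ (by have := MI_card P z p hpP hpz; omega) ?_
    · rw [MI_log D p hp2 (by linarith)] at k4
      show VP P g p * (1 - (v (Real.log D / Real.log p - 1) +
        C1 * δ * hh (Real.log D / Real.log p - 1))) ≤ _
      have e : (1 - (v (Real.log D / Real.log p - 1) +
        C1 * δ * hh (Real.log D / Real.log p - 1))) = 1 - v (Real.log D / Real.log p - 1) -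
        C1 * δ * hh (Real.log D / Real.log p - 1) := by ring
      rw [e]
      exact k4
    · rw [le_div_iff₀ (by linarith)]
      nlinarith
    · rw [Real.log_div (by linarith) (by linarith)]
      linarith

theorem MI_main {C : ℝ} {u v : ℝ → ℝ} (hC : 0 < C) (h : UV C u v) (C1 : ℝ)
    (hC1 : 1000 * C ≤ C1) (hC1' : 200 * (3 + 9 * u 3 + 6 * v 2) ≤ C1 * hh 3)
    (δ : ℝ) (hδ : 0 ≤ δ) (hδ1 : δ ≤ 1 / 1000) (P : Finset ℕ) (g : ℕ → ℝ)
    (hP : ∀ q ∈ P, 2 ≤ q ∧ 0 ≤ g q ∧ g q < 1) (hOm : Om (1 + δ) P g) (n : ℕ) : ∀ D z : ℝ,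
    2 ≤ z → z ≤ D → (P.filter (fun q : ℕ => (q : ℝ) < z)).card < n →
    SS true D (P.filter (fun q : ℕ => (q : ℝ) < z)) g ≤
      VP P g z * (1 + u (Real.log D / Real.log z) + C1 * δ * hh (Real.log D / Real.log z)) ∧
    (2 * Real.log z ≤ Real.log D →
      VP P g z * (1 - v (Real.log D / Real.log z) - C1 * δ * hh (Real.log D / Real.log z)) ≤
        SS false D (P.filter (fun q : ℕ => (q : ℝ) < z)) g) := by
  have hC10 : 0 < C1 := by linarith
  have hVP : ∀ x : ℝ, 0 ≤ VP P g x := by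
    intro x
    unfold VP
    apply Finset.prod_nonneg
    intro q hq
    have := (hP q (Finset.mem_filter.1 hq).1).2.2
    linarith
  induction n with
  | zero =>
    intro D z _ _ hcard
    omega
  | succ n ih =>
    intro D z hz hzD hcard
    have hD : 1 < D := by linarith
    have hlz : 0 < Real.log z := Real.log_pos (by linarith)
    have hlD : Real.log z ≤ Real.log D := Real.log_le_log (by linarith) hzD
    have hlD0 : 0 < Real.log D := Real.log_pos hD
    obtain ⟨s, hs⟩ : ∃ s : ℝ, s = Real.log D / Real.log z := ⟨_, rfl⟩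
    have hs1 : 1 ≤ s := by
      rw [hs, le_div_iff₀ hlz]
      linarith
    have star := MI_star h C1 hC10 δ hδ P g hP hOm n (fun D z a b c => (ih D z a b c).2)
    refine ⟨?_, ?_⟩
    · rcases le_or_gt (3 * Real.log z) (Real.log D) with h3 | h3
      · -- case (b)
        have hs3 : 3 ≤ s := by
          rw [hs, le_div_iff₀ hlz]
          exact h3
        have k1 := star D z hz hD h3 hcard s hs
        rw [← hs]
        refine k1.trans (mul_le_mul_of_nonneg_left ?_ (hVP z))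
        have k2 := MI_alg (C := C) (C1 := C1) (δ := δ) (s := s) (h := hh s) (h1 := hh (s - 1))
          (w := u s) (w1 := v (s - 1)) (I := ∫ t in Set.Ioi s, hh (t - 1)) hC hC1 hδ hδ1
          (by linarith) (hh_pos s).le (hh_int s (by linarith)) (hh_shift s (by linarith))
          (h.vb _ (by linarith)) (h.ub _ (by linarith))
        linarith
      · -- case (c)
        have hs3 : s ≤ 3 := by
          rw [hs, div_le_iff₀ hlz]
          exact h3.le
        obtain ⟨y, hy⟩ : ∃ y : ℝ, y = D ^ (1 / 3 : ℝ) := ⟨_, rfl⟩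
        have hy0 : 0 < y := by
          rw [hy]
          exact Real.rpow_pos_of_pos (by linarith) _
        have hy3 : y ^ 3 = D := by
          rw [hy, ← Real.rpow_natCast, ← Real.rpow_mul (by linarith)]
          norm_num
        have hly : 3 * Real.log y = Real.log D := by
          rw [← hy3, Real.log_pow]
          norm_num
        have hyz : y ≤ z := by
          rw [← Real.log_le_log_iff hy0 (by linarith)]
          linarith
        have heq := h.equ' s hs1 hs3
        rw [SS_cut D y z P g hy3 hy0.le hyz, ← hs]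
        rcases le_or_gt 2 y with hy2 | hy2
        · have hlyp : 0 < Real.log y := Real.log_pos (by linarith)
          have h3y : 3 = Real.log D / Real.log y := by
            rw [← hly]
            field_simp
          have hcy : (P.filter (fun q : ℕ => (q : ℝ) < y)).card < n + 1 := by
            refine lt_of_le_of_lt (Finset.card_le_card ?_) hcard
            intro q hq
            rw [Finset.mem_filter] at hq ⊢
            exact ⟨hq.1, hq.2.trans_le hyz⟩
          have k1 := star D y hy2 hD hly.le hcy 3 h3y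
          have k2 := hOm y z hy2 hyz
          have hzy : Real.log z / Real.log y = 3 / s := by
            rw [hs, ← hly]
            field_simp
          rw [hzy] at k2
          have k3 := MI_alg2 (C1 := C1) (δ := δ) (s := s) (us := u s) (u3 := u 3) (v2 := v 2)
            (h2 := hh 2) (h3 := hh 3) (hs := hh s) (I := ∫ t in Set.Ioi (3 : ℝ), hh (t - 1))
            hC1' hC10 hδ hδ1 hs1 (hh_pos 3).le (h.u0 3 (by norm_num)) (h.v0 2 le_rfl)
            (hh_int3 s hs1 hs3) (by have := hh_shift 3 (by norm_num); norm_num at this; exact this)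
            (hh_anti hs3) heq
          have hI0 : 0 ≤ ∫ t in Set.Ioi (3 : ℝ), hh (t - 1) :=
            integral_nonneg fun t => (hh_pos _).le
          have hX0 : 0 ≤ 1 + ((1 + δ) / 3 * (3 * u 3 +
              C1 * δ * (∫ t in Set.Ioi (3 : ℝ), hh (t - 1))) +
              δ * (v 2 + C1 * δ * hh 2)) := by
            have h1 := h.u0 3 (by norm_num)
            have h2 := h.v0 2 le_rfl
            have h4 := (hh_pos 2).le
            positivity
          have e31 : (3 : ℝ) - 1 = 2 := by norm_num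
          rw [e31] at k1
          calc SS true D (P.filter (fun q : ℕ => (q : ℝ) < y)) g
              ≤ VP P g y * (1 + ((1 + δ) / 3 * (3 * u 3 +
              C1 * δ * (∫ t in Set.Ioi (3 : ℝ), hh (t - 1))) +
              δ * (v 2 + C1 * δ * hh 2))) := k1
            _ ≤ ((1 + δ) * (3 / s) * VP P g z) * (1 + ((1 + δ) / 3 * (3 * u 3 +
              C1 * δ * (∫ t in Set.Ioi (3 : ℝ), hh (t - 1))) +
              δ * (v 2 + C1 * δ * hh 2))) := mul_le_mul_of_nonneg_right k2 hX0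
            _ = VP P g z * ((1 + δ) * (3 / s) * (1 + ((1 + δ) / 3 * (3 * u 3 +
              C1 * δ * (∫ t in Set.Ioi (3 : ℝ), hh (t - 1))) +
              δ * (v 2 + C1 * δ * hh 2)))) := by ring
            _ ≤ VP P g z * (1 + u s + C1 * δ * hh s) :=
              mul_le_mul_of_nonneg_left k3 (hVP z)
        · have hempty : P.filter (fun q : ℕ => (q : ℝ) < y) = ∅ := by
            apply Finset.filter_false_of_mem
            intro q hq hqy
            have := (hP q hq).1
            have h2 : (2 : ℝ) ≤ q := by exact_mod_cast this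
            linarith
          have hempty2 : P.filter (fun q : ℕ => (q : ℝ) < 2) = ∅ := by
            apply Finset.filter_false_of_mem
            intro q hq hqy
            have := (hP q hq).1
            have h2 : (2 : ℝ) ≤ q := by exact_mod_cast this
            linarith
          have hV2 : VP P g 2 = 1 := by
            unfold VP
            rw [hempty2, Finset.prod_empty]
          have k2 := hOm 2 z le_rfl hz
          rw [hV2] at k2
          rw [hempty, RW1_empty]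
          have hl2 : 0 < Real.log 2 := Real.log_pos (by norm_num)
          have hly2 : Real.log y ≤ Real.log 2 := Real.log_le_log hy0 hy2.le
          have hz2 : Real.log z / Real.log 2 ≤ 3 / s := by
            rw [div_le_div_iff₀ hl2 (by linarith), hs, mul_div_assoc', mul_comm (Real.log z),
              mul_div_assoc, div_self hlz.ne', mul_one]
            linarith
          have k3 : (1 : ℝ) ≤ (1 + δ) * (3 / s) * VP P g z :=
            k2.trans (mul_le_mul_of_nonneg_right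
              (mul_le_mul_of_nonneg_left hz2 (by linarith)) (hVP z))
          have k4 : (1 + δ) * (3 / s) ≤ 1 + u s + C1 * δ * hh s := by
            have hu3 := h.u0 3 (by norm_num)
            have hv2 := h.v0 2 le_rfl
            have e1 : 3 / s ≤ 1 + u s := by
              rw [div_le_iff₀ (by linarith)]
              linarith
            have e2 : 3 / s ≤ 3 := by
              rw [div_le_iff₀ (by linarith)]
              linarith
            have e3 : δ * (3 / s) ≤ δ * 3 := mul_le_mul_of_nonneg_left e2 hδ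
            have e4 : (3 : ℝ) ≤ C1 * hh s := by
              have : C1 * hh 3 ≤ C1 * hh s := mul_le_mul_of_nonneg_left (hh_anti hs3) hC10.le
              linarith
            have e5 : δ * 3 ≤ δ * (C1 * hh s) := mul_le_mul_of_nonneg_left e4 hδ
            linarith
          calc (1 : ℝ) ≤ (1 + δ) * (3 / s) * VP P g z := k3
            _ ≤ (1 + u s + C1 * δ * hh s) * VP P g z := mul_le_mul_of_nonneg_right k4 (hVP z)
            _ = VP P g z * (1 + u s + C1 * δ * hh s) := by ring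
    · intro h2
      -- case (a)
      have hs2 : 2 ≤ s := by
        rw [hs, le_div_iff₀ hlz]
        exact h2
      have hz2 : z ^ 2 ≤ D := by
        rw [← Real.log_le_log_iff (by positivity) (by linarith), Real.log_pow]
        exact_mod_cast h2
      have k1 := MI_low P g hP D z (fun x => u x + C1 * δ * hh x) ?_
      · have k2 := MI_ps (C := C) (a := 1) (w := u) h.u0 h.uanti h.ub (1 + δ) (C1 * δ)
          (by linarith) (by positivity) P g hP hOm D z hz hD (by rw [← hs]; linarith)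
        rw [← hs, ← h.eqv s hs2, add_sub_cancel_left] at k2
        have k3 := k1.trans k2
        have k4 := MI_alg (C := C) (C1 := C1) (δ := δ) (s := s) (h := hh s) (h1 := hh (s - 1))
          (w := v s) (w1 := u (s - 1)) (I := ∫ t in Set.Ioi s, hh (t - 1)) hC hC1 hδ hδ1
          (by linarith) (hh_pos s).le (hh_int s hs2) (hh_shift s hs2)
          (h.ub _ (by linarith)) (h.vb _ hs2)
        have k5 := mul_le_mul_of_nonneg_left k4 (hVP z)
        rw [← hs]
        linarith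
      · intro p hpP hpz
        have hp2 : 2 ≤ p := (hP p hpP).1
        have hp2' : (2 : ℝ) ≤ p := by exact_mod_cast hp2
        have k4 := (ih (D / p) p hp2' ?_ (by have := MI_card P z p hpP hpz; omega)).1
        · rw [MI_log D p hp2 (by linarith)] at k4
          show _ ≤ VP P g p * (1 + (u (Real.log D / Real.log p - 1) +
            C1 * δ * hh (Real.log D / Real.log p - 1)))
          rw [← add_assoc]
          exact k4
        · rw [le_div_iff₀ (by linarith)]
          nlinarith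

/-- The main terms of Rosser's sieve, `s = log D/log z`.

Proof. Put `E(D,z) = SS true - V(z)`, `E'(D,z) = V(z) - SS false`. By `SS_rec` and `sum_gV`
`E(D,z) = ∑_{p<z, p³ ≥ D} g(p) V(p) + ∑_{p<z, p³ < D} g(p) E'(D/p, p)`, `E'(D,z) = ∑_{p<z} g(p) E(D/p, p)`
(`{q ∈ P : q < z, q < p} = {q ∈ P : q < p}`). Induction on the number of elements of `P` below `z` (for all `D`).
`c₁ := C1 (K - 1)`.
(a) `E'`, `s ≥ 2`: for `p < z` the pair `(D/p, p)` has `s' = log D/log p - 1 ≥ s - 1 ≥ 1`, so by induction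
`E(D/p,p) ≤ V(p) φ(s')` with `φ = u + c₁ hh`; `part_sum` gives `E'(D,z) ≤ V(z) ((K/s) ∫_{t>s} φ(t-1) dt + (K-1) φ(s-1))`
`≤ V(z) (K v(s) + K c₁ (49/50) hh s + (K-1) u(s-1) + 4 (K-1) c₁ hh s)` (`eqv`, `hh_int`, `hh_shift`), which is
`≤ V(z) (v(s) + c₁ hh s)` if `(49/50) K + 4 (K-1) + 5 C/C1 ≤ 1`: `K - 1 ≤ η = 1/1000`, `C1 ≥ 1000 C`.
(b) `E`, `s ≥ 3`: all `p < z` have `p³ < D`; in the same way, with `φ = v + c₁ hh`, `s' ≥ 2`, using `equ`; keep
the intermediate bound (*) `E(D,z) ≤ V(z) ((K/s) ∫_{t>s} φ(t-1) dt + (K-1) φ(s-1))`.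
(c) `SS true`, `1 ≤ s < 3`: let `y = D^(1/3) < z`; `SS_cut`: `SS true D P_{<z} = SS true D P_{<y} = V(y) + E(D,y)`. If
`y ≥ 2`: by (*) at `s = 3` (there are not more elements below `y`) and `V(y) ≤ K (3/s) V(z)`:
`SS ≤ V(z) (3K/s) (1 + K u(3) + (K/3) c₁ ∫_{t>3} hh(t-1) dt + (K-1)(v(2) + c₁ hh 2))`; here
`(3/s)(1 + u 3) = 1 + u s` (`equ'`), `(K²/s) c₁ ∫ ≤ K² c₁ (49/50) hh s` (`hh_int3`), the remaining terms are
`≤ (K-1)(C' + 3 K c₁ hh 2)` and `hh 2 ≤ 4 hh s`... (`hh s ≥ hh 3`, `hh 2 ≤ e^1.1 hh 3 ≤ 4 hh 3`), absorbed if `C1` is large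
compared with `C'` (depends on `u 3`, `v 2`). If `y < 2`: `SS = 1 ≤ K (log z/log 2) V(z)` and `log z/log 2 ≤ 3/s
≤ 1 + u s` (as `D < 8`, `1 + u s = (3/s)(1 + u 3)`). -/
theorem main_ind {C : ℝ} {u v : ℝ → ℝ} (hC : 0 < C) (h : UV C u v) :
    ∃ η C1 : ℝ, 0 < η ∧ 0 < C1 ∧
    ∀ K : ℝ, 1 ≤ K → K ≤ 1 + η → ∀ (P : Finset ℕ) (g : ℕ → ℝ),
    (∀ q ∈ P, 2 ≤ q ∧ 0 ≤ g q ∧ g q < 1) → Om K P g → ∀ D z : ℝ, 2 ≤ z → z ≤ D →
    SS true D (P.filter (fun q : ℕ => (q : ℝ) < z)) g ≤
      VP P g z * (1 + u (Real.log D / Real.log z) + C1 * (K - 1) * hh (Real.log D / Real.log z)) ∧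
    (2 * Real.log z ≤ Real.log D →
      VP P g z * (1 - v (Real.log D / Real.log z) - C1 * (K - 1) * hh (Real.log D / Real.log z)) ≤
        SS false D (P.filter (fun q : ℕ => (q : ℝ) < z)) g) := by
  have hh3 : 0 < hh 3 := hh_pos 3
  have hu3 := h.u0 3 (by norm_num)
  have hv2 := h.v0 2 le_rfl
  refine ⟨1 / 1000, 1000 * C + 200 * (3 + 9 * u 3 + 6 * v 2) / hh 3, by norm_num, by positivity, ?_⟩
  intro K hK1 hK2 P g hP hOm D z hz hzD
  obtain ⟨δ, rfl⟩ : ∃ δ : ℝ, K = 1 + δ := ⟨K - 1, by ring⟩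
  rw [add_sub_cancel_left]
  refine MI_main hC h _ ?_ ?_ δ (by linarith) (by linarith) P g hP hOm
    ((P.filter (fun q : ℕ => (q : ℝ) < z)).card + 1) D z hz hzD (Nat.lt_succ_self _)
  · have : 0 ≤ 200 * (3 + 9 * u 3 + 6 * v 2) / hh 3 := by positivity
    linarith
  · rw [add_mul, div_mul_cancel₀ _ hh3.ne']
    have : 0 ≤ 1000 * C * hh 3 := by positivity
    linarith

end Pool.Agent.Lib.H59C
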