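import Pool.Agent.Lib.H59C.HH

/-!
# UVF: the functions of the linear sieve on short intervals
-/

open Finset MeasureTheory

namespace Pool.Agent.Lib.H59C

theorem UVF_int (C : ℝ) (f : ℝ → ℝ) (a s : ℝ) (hf : AntitoneOn f (Set.Ici a))
    (h0 : ∀ x, a ≤ x → 0 ≤ f x) (hb : ∀ x, a ≤ x → f x ≤ C * hh x) (hs : a + 1 ≤ s) :
    IntegrableOn (fun t => f (t - 1)) (Set.Ioi s) := by
  have hm : AEMeasurable (fun t => f (t - 1)) (volume.restrict (Set.Ioi s)) := by
    apply aemeasurable_restrict_of_antitoneOn measurableSet_Ioi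
    intro x hx y hy hxy
    rw [Set.mem_Ioi] at hx hy
    apply hf
    · rw [Set.mem_Ici]; linarith
    · rw [Set.mem_Ici]; linarith
    · linarith
  refine Integrable.mono' ((hh_integrable s).const_mul C) hm.aestronglyMeasurable ?_
  refine (ae_restrict_mem measurableSet_Ioi).mono fun t ht => ?_
  rw [Set.mem_Ioi] at ht
  rw [Real.norm_eq_abs, abs_of_nonneg (h0 _ (by linarith))]
  exact hb _ (by linarith)

theorem UVF_shift (f : ℝ → ℝ) (s : ℝ) :
    ∫ t in Set.Ioi s, f (t - 1) = ∫ x in Set.Ioi (s - 1), f x := by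
  rw [← integral_indicator measurableSet_Ioi, ← integral_indicator measurableSet_Ioi,
    ← integral_sub_right_eq_self (fun x => (Set.Ioi (s - 1)).indicator f x) 1]
  congr 1
  funext t
  simp only [Set.indicator, Set.mem_Ioi, sub_lt_sub_iff_right]

theorem UVF_fub (Q : ℝ → ℝ) (hm : AEStronglyMeasurable Q (volume.restrict (Set.Ioi 2)))
    (hi : IntegrableOn (fun y => (y - 2) * Q y) (Set.Ioi 2)) :
    ∫ x in Set.Ioi (2 : ℝ), ∫ y in Set.Ioi x, Q y = ∫ y in Set.Ioi (2 : ℝ), (y - 2) * Q y := by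
  set μ := volume.restrict (Set.Ioi (2 : ℝ)) with hμ
  set f : ℝ → ℝ → ℝ := fun x y => (Set.Ioi x).indicator Q y with hf
  have hf1 : Function.uncurry f = ({p : ℝ × ℝ | p.1 < p.2}).indicator (fun p => Q p.2) := by
    funext p
    simp only [Function.uncurry, hf, Set.indicator, Set.mem_Ioi, Set.mem_setOf_eq]
  have hmeas : MeasurableSet {p : ℝ × ℝ | p.1 < p.2} := measurableSet_lt measurable_fst measurable_snd
  have hfm : AEStronglyMeasurable (Function.uncurry f) (μ.prod μ) := by
    rw [hf1]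
    exact (hm.comp_snd).indicator hmeas
  have hin : ∀ y, 2 < y → ∀ g : ℝ → ℝ, (fun x => g ((Set.Ioi x).indicator Q y)) =
      fun x => if x < y then g (Q y) else g 0 := by
    intro y _ g
    funext x
    simp only [Set.indicator, Set.mem_Ioi]
    split_ifs <;> rfl
  have hfun : ∀ y, (fun x => f x y) = (Set.Iio y).indicator (fun _ => Q y) := by
    intro y
    funext x
    simp only [hf, Set.indicator, Set.mem_Ioi, Set.mem_Iio]
  have hnfun : ∀ y, (fun x => ‖f x y‖) = (Set.Iio y).indicator (fun _ => ‖Q y‖) := by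
    intro y
    funext x
    simp only [hf, Set.indicator, Set.mem_Ioi, Set.mem_Iio]
    split_ifs <;> simp
  have hset : ∀ y, 2 < y → ∀ c : ℝ, ∫ x, (Set.Iio y).indicator (fun _ => c) x ∂μ = (y - 2) * c := by
    intro y hy c
    rw [hμ, setIntegral_indicator measurableSet_Iio, Set.Ioi_inter_Iio, setIntegral_const]
    simp only [Measure.real, Real.volume_Ioo, smul_eq_mul]
    rw [ENNReal.toReal_ofReal (by linarith)]
  have hint : Integrable (Function.uncurry f) (μ.prod μ) := by
    rw [integrable_prod_iff' hfm]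
    constructor
    · refine (ae_restrict_mem measurableSet_Ioi).mono fun y hy => ?_
      have e1 : (fun x => Function.uncurry f (x, y)) = (Set.Iio y).indicator (fun _ => Q y) := hfun y
      rw [e1, integrable_indicator_iff measurableSet_Iio, IntegrableOn, hμ,
        Measure.restrict_restrict measurableSet_Iio, Set.Iio_inter_Ioi]
      exact integrableOn_const (by simp)
    · have e2 : ∀ y ∈ Set.Ioi (2 : ℝ), ‖(y - 2) * Q y‖ = ∫ x, ‖Function.uncurry f (x, y)‖ ∂μ := by
        intro y hy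
        rw [Set.mem_Ioi] at hy
        have e3 : (fun x => ‖Function.uncurry f (x, y)‖) = (Set.Iio y).indicator (fun _ => ‖Q y‖) :=
          hnfun y
        rw [e3, hset y hy, norm_mul, Real.norm_eq_abs, abs_of_nonneg (by linarith : 0 ≤ y - 2)]
      exact (integrableOn_congr_fun e2 measurableSet_Ioi).mp hi.norm
  have hswap := integral_integral_swap hint
  have hL : ∫ x, ∫ y, f x y ∂μ ∂μ = ∫ x in Set.Ioi (2 : ℝ), ∫ y in Set.Ioi x, Q y := by
    rw [hμ]
    apply setIntegral_congr_fun measurableSet_Ioi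
    intro x hx
    rw [Set.mem_Ioi] at hx
    simp only [hf]
    rw [setIntegral_indicator measurableSet_Ioi, Set.Ioi_inter_Ioi, sup_eq_right.mpr hx.le]
  have hR : ∫ y, ∫ x, f x y ∂μ ∂μ = ∫ y in Set.Ioi (2 : ℝ), (y - 2) * Q y := by
    rw [hμ]
    apply setIntegral_congr_fun measurableSet_Ioi
    intro y hy
    rw [Set.mem_Ioi] at hy
    have e1 := hset y hy (Q y)
    rw [← hfun y, hμ] at e1
    exact e1
  rw [← hL, hswap, hR]

/-- `F(s) = 1 + u(s) = A/s` on `[1, 3]`, `f(s) = 1 - v(s) = A log (s-1)/s` on `[2, 4]`.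

Proof. `A = 3 (1 + u 3) > 0` and `equ'`. For `2 ≤ s ≤ 4` by `eqv`
`s f(s) - 2 f(2) = (s - 2) + ∫_2^s u(t-1) dt = ∫_2^s (1 + u(t - 1)) dt = A log (s - 1)`, as `1 ≤ t - 1 ≤ 3`. It remains
to show `B := 2 f(2) = 0`. Let `Q = u + v` on `[2, ∞)`, `R(y) = ∫_{x > y} Q(x) dx`. By `eqv`, `equ`:
`s Q(s) = R(s - 1)` for `s ≥ 3`. Let `J(s) = (s - 1) R(s - 1) - ∫_{s-1}^s x Q(x) dx` (`s ≥ 3`). `Q` is continuous on
`[2, ∞)` (by the formulas: `s u(s)`, `s v(s)` are integrals), so
`J'(s) = R(s-1) - (s-1) Q(s-1) - s Q(s) + (s-1) Q(s-1) = R(s-1) - s Q(s) = 0`, and `J(s) → 0` as `s → ∞` because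
`Q ≤ 2 C hh`. (Without derivatives: `∫_{s-1}^s x Q(x) dx` for `s ≥ 4` is `∫_{s-1}^s R(x-1) dx`, integrate by parts.)
So `J(3) = 0`: `2 R(2) = ∫_2^3 x Q(x) dx`, `R(2) = 3 Q(3)`. On `[2, 3]`
`x Q(x) = x (1 + u) - x (1 - v) = A - B - A log (x - 1)`, hence
`2 (A - B - A log 2) = (A - B) - A (2 log 2 - 1)`, i.e. `B = 0`. -/
theorem uv_formula {C : ℝ} {u v : ℝ → ℝ} (h : UV C u v) : ∃ A : ℝ, 0 < A ∧
    (∀ s, 1 ≤ s → s ≤ 3 → 1 + u s = A / s) ∧
    (∀ s, 2 ≤ s → s ≤ 4 → 1 - v s = A * Real.log (s - 1) / s) := by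
  have hC : 0 ≤ C := by
    by_contra hcon
    push Not at hcon
    have h1 := h.u0 1 le_rfl
    have h2 := h.ub 1 le_rfl
    have h3 := hh_pos 1
    nlinarith
  have iu : ∀ s, 2 ≤ s → IntegrableOn (fun t => u (t - 1)) (Set.Ioi s) := fun s hs =>
    UVF_int C u 1 s h.uanti h.u0 h.ub (by linarith)
  have iv : ∀ s, 3 ≤ s → IntegrableOn (fun t => v (t - 1)) (Set.Ioi s) := fun s hs =>
    UVF_int C v 2 s h.vanti h.v0 h.vb (by linarith)
  set A : ℝ := 3 * (1 + u 3) with hA
  have hA0 : 0 < A := by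
    have := h.u0 3 (by norm_num)
    linarith
  have hu : ∀ s, 1 ≤ s → s ≤ 3 → s * (1 + u s) = A := fun s h1 h3 => h.equ' s h1 h3
  set B : ℝ := 2 * (1 - v 2) with hB
  -- the formula for v with the constant B
  have hv : ∀ s, 2 ≤ s → s ≤ 4 → s * (1 - v s) = B + A * Real.log (s - 1) := by
    intro s h2 h4
    have e1 := h.eqv s h2
    have e2 := h.eqv 2 le_rfl
    have e3 : ∫ t in Set.Ioi (2 : ℝ), u (t - 1) =
        (∫ t in Set.Ioc (2 : ℝ) s, u (t - 1)) + ∫ t in Set.Ioi s, u (t - 1) := by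
      rw [← setIntegral_union Set.Ioc_disjoint_Ioi_same measurableSet_Ioi
        ((iu 2 le_rfl).mono_set Set.Ioc_subset_Ioi_self) (iu s h2), Set.Ioc_union_Ioi_eq_Ioi h2]
    have e4 : ∫ t in Set.Ioc (2 : ℝ) s, u (t - 1) = A * Real.log (s - 1) - (s - 2) := by
      rw [← intervalIntegral.integral_of_le h2]
      have e5 : ∫ t in (2 : ℝ)..s, u (t - 1) = ∫ t in (2 : ℝ)..s, (fun x => A * x⁻¹ - 1) (t - 1) := by
        apply intervalIntegral.integral_congr
        intro t ht
        rw [Set.uIcc_of_le h2, Set.mem_Icc] at ht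
        have e6 := hu (t - 1) (by linarith) (by linarith)
        have e7 : (t - 1) ≠ 0 := by linarith
        simp only
        field_simp
        linarith
      rw [e5, intervalIntegral.integral_comp_sub_right (fun x => A * x⁻¹ - 1) 1]
      have e8 : (2 : ℝ) - 1 = 1 := by norm_num
      rw [e8]
      rw [intervalIntegral.integral_sub, intervalIntegral.integral_const_mul,
        integral_inv_of_pos (by norm_num) (by linarith), intervalIntegral.integral_const]
      · simp only [smul_eq_mul, mul_one, div_one]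
        ring
      · apply IntervalIntegrable.const_mul
        apply intervalIntegral.intervalIntegrable_inv
        · intro x hx
          rw [Set.uIcc_of_le (by linarith), Set.mem_Icc] at hx
          linarith
        · exact continuousOn_id
      · exact intervalIntegrable_const
    rw [e3, e4] at e2
    linarith
  -- Q
  set Q : ℝ → ℝ := fun x => u x + v x with hQ
  have Qm : AEStronglyMeasurable Q (volume.restrict (Set.Ioi 2)) := by
    apply AEMeasurable.aestronglyMeasurable
    apply aemeasurable_restrict_of_antitoneOn measurableSet_Ioi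
    intro x hx y hy hxy
    rw [Set.mem_Ioi] at hx hy
    have e1 := h.uanti (by rw [Set.mem_Ici]; linarith : x ∈ Set.Ici (1 : ℝ))
      (by rw [Set.mem_Ici]; linarith : y ∈ Set.Ici (1 : ℝ)) hxy
    have e2 := h.vanti (by rw [Set.mem_Ici]; linarith : x ∈ Set.Ici (2 : ℝ))
      (by rw [Set.mem_Ici]; linarith : y ∈ Set.Ici (2 : ℝ)) hxy
    simp only [hQ]
    linarith
  have Q0 : ∀ x, 2 < x → 0 ≤ Q x := by
    intro x hx
    have e1 := h.u0 x (by linarith)
    have e2 := h.v0 x (by linarith)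
    simp only [hQ]
    linarith
  have Qb : ∀ x, 2 < x → x * Q x ≤ 20 * C * Real.exp (-1 * x) := by
    intro x hx
    have e1 := h.ub x (by linarith)
    have e2 := h.vb x (by linarith)
    have e3 : hh x = Real.exp (-1 * x) * Real.exp (-(1 / 10) * x) := by
      unfold hh
      rw [max_eq_left hx.le, ← Real.exp_add]
      congr 1
      ring
    have e4 : x * Real.exp (-(1 / 10) * x) ≤ 10 := by
      have e5 := Real.add_one_le_exp (1 / 10 * x)
      have e6 : Real.exp (-(1 / 10) * x) * Real.exp (1 / 10 * x) = 1 := by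
        rw [← Real.exp_add]
        have : -(1 / 10) * x + 1 / 10 * x = 0 := by ring
        rw [this, Real.exp_zero]
      have e7 := Real.exp_pos (-(1 / 10) * x)
      nlinarith
    have e8 : Q x ≤ 2 * C * hh x := by
      simp only [hQ]
      linarith
    have e9 := Real.exp_pos (-1 * x)
    calc x * Q x ≤ x * (2 * C * hh x) := mul_le_mul_of_nonneg_left e8 (by linarith)
      _ = 2 * C * Real.exp (-1 * x) * (x * Real.exp (-(1 / 10) * x)) := by rw [e3]; ring
      _ ≤ 2 * C * Real.exp (-1 * x) * 10 := mul_le_mul_of_nonneg_left e4 (by positivity)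
      _ = 20 * C * Real.exp (-1 * x) := by ring
  have iexp : IntegrableOn (fun x : ℝ => 20 * C * Real.exp (-1 * x)) (Set.Ioi 2) :=
    (exp_neg_integrableOn_Ioi 2 one_pos).const_mul (20 * C)
  have ixQ : IntegrableOn (fun x => x * Q x) (Set.Ioi 2) := by
    refine Integrable.mono' iexp (aestronglyMeasurable_id.mul Qm) ?_
    refine (ae_restrict_mem measurableSet_Ioi).mono fun x hx => ?_
    rw [Set.mem_Ioi] at hx
    rw [Real.norm_eq_abs, abs_of_nonneg (mul_nonneg (by linarith) (Q0 x hx))]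
    exact Qb x hx
  have iQ : IntegrableOn Q (Set.Ioi 2) := by
    refine Integrable.mono' iexp Qm ?_
    refine (ae_restrict_mem measurableSet_Ioi).mono fun x hx => ?_
    rw [Set.mem_Ioi] at hx
    rw [Real.norm_eq_abs, abs_of_nonneg (Q0 x hx)]
    have := Qb x hx
    have := Q0 x hx
    nlinarith
  have hsQ : ∀ s, 3 ≤ s → s * Q s = ∫ x in Set.Ioi (s - 1), Q x := by
    intro s hs
    have e1 := h.eqv s (by linarith)
    have e2 := h.equ s hs
    rw [← UVF_shift Q s]
    simp only [hQ]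
    rw [integral_add (iu s (by linarith)) (iv s hs), ← e1, ← e2]
    ring
  have hfub := UVF_fub Q Qm (by
    have : (fun y => (y - 2) * Q y) = fun y => y * Q y - 2 * Q y := by
      funext y
      ring
    rw [this]
    exact ixQ.sub (iQ.const_mul 2))
  have hL : ∫ x in Set.Ioi (2 : ℝ), ∫ y in Set.Ioi x, Q y = ∫ x in Set.Ioi (3 : ℝ), x * Q x := by
    have e1 : ∫ x in Set.Ioi (2 : ℝ), ∫ y in Set.Ioi x, Q y =
        ∫ x in Set.Ioi (2 : ℝ), (fun x => (x + 1) * Q (x + 1)) x := by
      apply setIntegral_congr_fun measurableSet_Ioi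
      intro x hx
      rw [Set.mem_Ioi] at hx
      have := hsQ (x + 1) (by linarith)
      rw [show x + 1 - 1 = x by ring] at this
      simp only
      rw [this]
    have e2 := UVF_shift (fun x => (x + 1) * Q (x + 1)) 3
    have e3 : (3 : ℝ) - 1 = 2 := by norm_num
    rw [e3] at e2
    rw [e1, ← e2]
    apply setIntegral_congr_fun measurableSet_Ioi
    intro x _
    simp only [sub_add_cancel]
  have hR : ∫ y in Set.Ioi (2 : ℝ), (y - 2) * Q y =
      (∫ y in Set.Ioc (2 : ℝ) 3, y * Q y) + (∫ y in Set.Ioi (3 : ℝ), y * Q y) - 2 * (3 * Q 3) := by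
    have e1 : ∫ y in Set.Ioi (2 : ℝ), (y - 2) * Q y =
        (∫ y in Set.Ioi (2 : ℝ), y * Q y) - 2 * ∫ y in Set.Ioi (2 : ℝ), Q y := by
      rw [← integral_const_mul, ← integral_sub ixQ (iQ.const_mul 2)]
      congr 1
      funext y
      ring
    have e2 := hsQ 3 le_rfl
    have e3 : (3 : ℝ) - 1 = 2 := by norm_num
    rw [e3] at e2
    rw [e1, e2, ← setIntegral_union Set.Ioc_disjoint_Ioi_same measurableSet_Ioi
        (ixQ.mono_set Set.Ioc_subset_Ioi_self)
        (ixQ.mono_set (Set.Ioi_subset_Ioi (by norm_num))),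
        Set.Ioc_union_Ioi_eq_Ioi (by norm_num)]
  rw [hL, hR] at hfub
  have hxQ : ∀ x, 2 ≤ x → x ≤ 3 → x * Q x = A - B - A * Real.log (x - 1) := by
    intro x h2 h3
    have e1 := hu x (by linarith) h3
    have e2 := hv x h2 (by linarith)
    simp only [hQ]
    linarith
  have hI : ∫ y in Set.Ioc (2 : ℝ) 3, y * Q y = (A - B) - A * (2 * Real.log 2 - 1) := by
    rw [← intervalIntegral.integral_of_le (by norm_num)]
    have e5 : ∫ t in (2 : ℝ)..3, t * Q t = ∫ t in (2 : ℝ)..3,
        (fun x => (A - B) - A * Real.log x) (t - 1) := by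
      apply intervalIntegral.integral_congr
      intro t ht
      rw [Set.uIcc_of_le (by norm_num), Set.mem_Icc] at ht
      exact hxQ t ht.1 ht.2
    rw [e5, intervalIntegral.integral_comp_sub_right (fun x => (A - B) - A * Real.log x) 1]
    have e8 : (2 : ℝ) - 1 = 1 := by norm_num
    have e9 : (3 : ℝ) - 1 = 2 := by norm_num
    rw [e8, e9, intervalIntegral.integral_sub, intervalIntegral.integral_const_mul,
      integral_log, intervalIntegral.integral_const]
    · simp only [Real.log_one, smul_eq_mul]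
      ring
    · exact intervalIntegrable_const
    · apply IntervalIntegrable.const_mul
      exact intervalIntegral.intervalIntegrable_log'
  rw [hI] at hfub
  have h3Q := hxQ 3 (by norm_num) le_rfl
  have e9 : (3 : ℝ) - 1 = 2 := by norm_num
  rw [e9] at h3Q
  have hB0 : B = 0 := by linarith
  refine ⟨A, hA0, ?_, ?_⟩
  · intro s h1 h3
    rw [eq_div_iff (by linarith)]
    have := hu s h1 h3
    linarith
  · intro s h2 h4
    rw [eq_div_iff (by linarith)]
    have := hv s h2 h4
    rw [hB0] at this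
    linarith

end Pool.Agent.Lib.H59C
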