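import Pool.Agent.Lib.H59C.UVE
import Pool.Agent.Lib.H59C.UVF
import Pool.Agent.Lib.H59C.MI

/-!
# LIN: main terms of the linear sieve, final form
-/

open Finset MeasureTheory

namespace Pool.Agent.Lib.H59C

/-- From `exists_uv`, `uv_formula`, `main_ind` with `K = 1 + δ`, `δ = min η (ε/C1)` (`hh ≤ 1`). -/
theorem linear_sieve : ∃ A : ℝ, 0 < A ∧ ∀ ε : ℝ, 0 < ε → ∃ δ : ℝ, 0 < δ ∧
    ∀ (P : Finset ℕ) (g : ℕ → ℝ), (∀ q ∈ P, 2 ≤ q ∧ 0 ≤ g q ∧ g q < 1) → Om (1 + δ) P g →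
    ∀ D z : ℝ, 2 ≤ z → z ≤ D →
    (Real.log D ≤ 3 * Real.log z →
      SS true D (P.filter (fun q : ℕ => (q : ℝ) < z)) g ≤
        VP P g z * (A / (Real.log D / Real.log z) + ε)) ∧
    (2 * Real.log z ≤ Real.log D → Real.log D ≤ 4 * Real.log z →
      VP P g z * (A * Real.log (Real.log D / Real.log z - 1) / (Real.log D / Real.log z) - ε) ≤
        SS false D (P.filter (fun q : ℕ => (q : ℝ) < z)) g) := by
  obtain ⟨C, u, v, hC, h⟩ := exists_uv
  obtain ⟨A, hA, hF, hf⟩ := uv_formula h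
  obtain ⟨η, C1, hη, hC1, hm⟩ := main_ind hC h
  refine ⟨A, hA, ?_⟩
  intro ε hε
  obtain ⟨δ, hδ⟩ : ∃ δ : ℝ, δ = min η (ε / C1) := ⟨_, rfl⟩
  have hδ0 : 0 < δ := by
    rw [hδ]
    exact lt_min hη (by positivity)
  refine ⟨δ, hδ0, ?_⟩
  intro P g hP hOm D z hz hzD
  have hK1 : (1 : ℝ) ≤ 1 + δ := by linarith
  have hK2 : 1 + δ ≤ 1 + η := by
    have : δ ≤ η := by
      rw [hδ]
      exact min_le_left _ _
    linarith
  obtain ⟨h1, h2⟩ := hm (1 + δ) hK1 hK2 P g hP hOm D z hz hzD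
  have hlz : 0 < Real.log z := Real.log_pos (by linarith)
  have hlD : Real.log z ≤ Real.log D := Real.log_le_log (by linarith) hzD
  obtain ⟨s, hs⟩ : ∃ s : ℝ, s = Real.log D / Real.log z := ⟨_, rfl⟩
  rw [← hs] at h1 h2 ⊢
  have hs1 : 1 ≤ s := by
    rw [hs, le_div_iff₀ hlz]
    linarith
  have hVP : 0 ≤ VP P g z := by
    unfold VP
    apply prod_nonneg
    intro q hq
    have := (hP q (mem_filter.mp hq).1).2.2
    linarith
  have hhh : hh s ≤ 1 := by
    unfold hh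
    rw [Real.exp_le_one_iff]
    have : (2 : ℝ) ≤ max s 2 := le_max_right _ _
    linarith
  have hhh0 : 0 ≤ hh s := by
    unfold hh
    exact (Real.exp_pos _).le
  have hCδ : C1 * (1 + δ - 1) * hh s ≤ ε := by
    have h3 : δ ≤ ε / C1 := by
      rw [hδ]
      exact min_le_right _ _
    have h4 : C1 * δ ≤ ε := by
      rw [le_div_iff₀ hC1] at h3
      linarith
    have h5 : C1 * (1 + δ - 1) * hh s ≤ C1 * δ * 1 := by
      have h6 : C1 * (1 + δ - 1) = C1 * δ := by ring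
      rw [h6]
      exact mul_le_mul_of_nonneg_left hhh (by positivity)
    linarith
  constructor
  · intro h3
    have hs3 : s ≤ 3 := by
      rw [hs, div_le_iff₀ hlz]
      exact h3
    refine h1.trans (mul_le_mul_of_nonneg_left ?_ hVP)
    have := hF s hs1 hs3
    linarith
  · intro h3 h4
    have hs2 : 2 ≤ s := by
      rw [hs, le_div_iff₀ hlz]
      exact h3
    have hs4 : s ≤ 4 := by
      rw [hs, div_le_iff₀ hlz]
      exact h4
    refine le_trans (mul_le_mul_of_nonneg_left ?_ hVP) (h2 h3)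
    have := hf s hs2 hs4
    linarith

end Pool.Agent.Lib.H59C
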