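import Mathlib

/-!
# LSA0: duality
-/

open Finset

namespace Pool.Agent.Lib.H59C

/-- Duality principle for finite matrices: a bound for the matrix gives the same bound for the
transposed one.

Proof. Let `x j = ∑_i conj (T i) K i j` with `T i = ∑_j a j K i j`. Then
`∑_i |T i|² = ∑_j a j x j ≤ (∑ |a|²)^(1/2) (∑_j |x j|²)^(1/2)`, and the hypothesis with
`c i = conj (T i)` gives `∑_j |x j|² ≤ B ∑_i |T i|²`. -/
theorem lsa_dual {ι κ : Type*} (I : Finset ι) (J : Finset κ) (K : ι → κ → ℂ) (B : ℝ) (hB : 0 ≤ B)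
    (h : ∀ c : ι → ℂ, ∑ j ∈ J, ‖∑ i ∈ I, c i * K i j‖ ^ 2 ≤ B * ∑ i ∈ I, ‖c i‖ ^ 2) (a : κ → ℂ) :
    ∑ i ∈ I, ‖∑ j ∈ J, a j * K i j‖ ^ 2 ≤ B * ∑ j ∈ J, ‖a j‖ ^ 2 := by
  obtain ⟨T, hT⟩ : ∃ T : ι → ℂ, ∀ i, T i = ∑ j ∈ J, a j * K i j := ⟨_, fun _ => rfl⟩
  obtain ⟨x, hx⟩ : ∃ x : κ → ℂ, ∀ j, x j = ∑ i ∈ I, star (T i) * K i j := ⟨_, fun _ => rfl⟩
  simp only [← hT]
  obtain ⟨S, hS⟩ : ∃ S : ℝ, S = ∑ i ∈ I, ‖T i‖ ^ 2 := ⟨_, rfl⟩
  obtain ⟨A, hA⟩ : ∃ A : ℝ, A = ∑ j ∈ J, ‖a j‖ ^ 2 := ⟨_, rfl⟩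
  have hS0 : 0 ≤ S := by rw [hS]; positivity
  have hA0 : 0 ≤ A := by rw [hA]; positivity
  have h1 : ((S : ℝ) : ℂ) = ∑ j ∈ J, a j * x j := by
    have e1 : ∑ j ∈ J, a j * x j = ∑ i ∈ I, ∑ j ∈ J, a j * (star (T i) * K i j) := by
      rw [sum_comm]
      exact sum_congr rfl fun j _ => by rw [hx, mul_sum]
    rw [e1, hS, Complex.ofReal_sum]
    refine sum_congr rfl fun i _ => ?_
    have e2 : ∑ j ∈ J, a j * (star (T i) * K i j) = star (T i) * T i := by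
      conv_rhs => rw [hT i, mul_sum]
      refine sum_congr rfl fun j _ => ?_
      rw [hT i]
      ring
    rw [e2, Complex.ofReal_pow]
    exact (Complex.conj_mul' (T i)).symm
  have h2 : S ≤ ∑ j ∈ J, ‖a j‖ * ‖x j‖ := by
    have e1 : S = ‖((S : ℝ) : ℂ)‖ := by rw [Complex.norm_real, Real.norm_of_nonneg hS0]
    rw [e1, h1]
    refine (norm_sum_le _ _).trans (le_of_eq ?_)
    exact sum_congr rfl fun j _ => norm_mul _ _
  have h3 : S ^ 2 ≤ A * ∑ j ∈ J, ‖x j‖ ^ 2 := by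
    rw [hA]
    exact (pow_le_pow_left₀ hS0 h2 2).trans (sum_mul_sq_le_sq_mul_sq _ _ _)
  have h4 : ∑ j ∈ J, ‖x j‖ ^ 2 ≤ B * S := by
    have := h (fun i => star (T i))
    simp only [norm_star, ← hx] at this
    rwa [← hS] at this
  rw [← hS, ← hA]
  have h5 : S * S ≤ (B * A) * S := by
    have := h3.trans (mul_le_mul_of_nonneg_left h4 hA0)
    nlinarith
  rcases hS0.eq_or_lt with h6 | h6
  · rw [← h6]
    positivity
  · exact le_of_mul_le_mul_right h5 h6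

end Pool.Agent.Lib.H59C
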