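import Pool.Agent.Lib.H59C.Defs
import Pool.Agent.Lib.H59C.LSA0
import Pool.Agent.Lib.H68T.VB

/-!
# LSA: the additive large sieve for the Farey fractions
-/

open Finset

namespace Pool.Agent.Lib.H59C

open Pool.Agent.Lib.H68T (PC p0 e nd VB_e_add VB_cell VB_cell_mem VB_nd_ge geo_le)

theorem LSA_conj (x : ℝ) : (starRingEnd ℂ) (e x) = e (-x) := by
  unfold Pool.Agent.Lib.H68T.e
  rw [← Complex.exp_conj]
  congr 1
  simp only [map_mul, map_ofNat, Complex.conj_ofReal, Complex.conj_I]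
  push_cast
  ring

theorem LSA_quad {ι : Type*} (I : Finset ι) (α : ι → ℝ) (c : ι → ℂ) (x0 : ℝ) (n : ℕ) :
    ∑ u ∈ Ico (0 : ℤ) n, ∑ v ∈ Ico (0 : ℤ) n,
      ‖∑ i ∈ I, c i * e ((x0 + u - v) * α i)‖ ^ 2 ≤
      ∑ i ∈ I, ∑ j ∈ I, ‖c i‖ * ‖c j‖ * ‖∑ u ∈ Ico (0 : ℤ) n, e (u * (α i - α j))‖ ^ 2 := by
  have h1 : ((∑ u ∈ Ico (0 : ℤ) n, ∑ v ∈ Ico (0 : ℤ) n,
      ‖∑ i ∈ I, c i * e ((x0 + u - v) * α i)‖ ^ 2 : ℝ) : ℂ) =
      ∑ i ∈ I, ∑ j ∈ I, (c i * (starRingEnd ℂ) (c j) * e (x0 * (α i - α j))) *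
        ((∑ u ∈ Ico (0 : ℤ) n, e (u * (α i - α j))) *
          (starRingEnd ℂ) (∑ v ∈ Ico (0 : ℤ) n, e (v * (α i - α j)))) := by
    push_cast
    have h2 : ∀ u v : ℤ, ((‖∑ i ∈ I, c i * e ((x0 + u - v) * α i)‖ : ℝ) : ℂ) ^ 2 =
        ∑ i ∈ I, ∑ j ∈ I, (c i * (starRingEnd ℂ) (c j) * e (x0 * (α i - α j))) *
          (e (u * (α i - α j)) * (starRingEnd ℂ) (e (v * (α i - α j)))) := by
      intro u v
      rw [← Complex.mul_conj', map_sum, Finset.sum_mul_sum]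
      refine sum_congr rfl fun i _ => sum_congr rfl fun j _ => ?_
      rw [map_mul, LSA_conj, LSA_conj]
      have h3 : e ((x0 + u - v) * α i) * e (-((x0 + u - v) * α j)) =
          e (x0 * (α i - α j)) * (e (u * (α i - α j)) * e (-(v * (α i - α j)))) := by
        rw [← VB_e_add, ← VB_e_add, ← VB_e_add]
        congr 1
        ring
      linear_combination c i * (starRingEnd ℂ) (c j) * h3
    simp_rw [h2, map_sum, Finset.sum_mul_sum, Finset.mul_sum]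
    rw [Finset.sum_congr rfl fun u _ => Finset.sum_comm, Finset.sum_comm]
    refine sum_congr rfl fun i _ => ?_
    rw [Finset.sum_congr rfl fun u _ => Finset.sum_comm, Finset.sum_comm]
  have h4 : ‖((∑ u ∈ Ico (0 : ℤ) n, ∑ v ∈ Ico (0 : ℤ) n,
      ‖∑ i ∈ I, c i * e ((x0 + u - v) * α i)‖ ^ 2 : ℝ) : ℂ)‖ =
      ∑ u ∈ Ico (0 : ℤ) n, ∑ v ∈ Ico (0 : ℤ) n,
      ‖∑ i ∈ I, c i * e ((x0 + u - v) * α i)‖ ^ 2 := by
    rw [Complex.norm_real, Real.norm_eq_abs, abs_of_nonneg]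
    positivity
  rw [← h4, h1]
  refine (norm_sum_le _ _).trans (sum_le_sum fun i _ => ?_)
  refine (norm_sum_le _ _).trans (sum_le_sum fun j _ => ?_)
  rw [norm_mul, norm_mul, norm_mul, norm_mul, RCLike.norm_conj, RCLike.norm_conj,
    Pool.Agent.Lib.H68T.VB_norm_e]
  apply le_of_eq
  ring

/-- Schur's bound. -/
theorem LSA_schur {ι : Type*} (I : Finset ι) (c : ι → ℂ) (g : ι → ι → ℝ) (B : ℝ)
    (hg : ∀ i j, 0 ≤ g i j) (hsymm : ∀ i j, g i j = g j i)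
    (hB : ∀ i ∈ I, ∑ j ∈ I, g i j ≤ B) :
    ∑ i ∈ I, ∑ j ∈ I, ‖c i‖ * ‖c j‖ * g i j ≤ B * ∑ i ∈ I, ‖c i‖ ^ 2 := by
  have h1 : ∑ i ∈ I, ∑ j ∈ I, ‖c i‖ * ‖c j‖ * g i j ≤
      ∑ i ∈ I, ∑ j ∈ I, (1 / 2 * (‖c i‖ ^ 2 * g i j) + 1 / 2 * (‖c j‖ ^ 2 * g i j)) := by
    refine sum_le_sum fun i _ => sum_le_sum fun j _ => ?_
    nlinarith [hg i j, sq_nonneg (‖c i‖ - ‖c j‖), mul_nonneg (sq_nonneg (‖c i‖ - ‖c j‖)) (hg i j)]
  refine h1.trans ?_
  simp_rw [Finset.sum_add_distrib]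
  have h2 : ∑ i ∈ I, ∑ j ∈ I, 1 / 2 * (‖c j‖ ^ 2 * g i j) =
      ∑ i ∈ I, ∑ j ∈ I, 1 / 2 * (‖c i‖ ^ 2 * g i j) := by
    rw [Finset.sum_comm]
    refine sum_congr rfl fun i _ => sum_congr rfl fun j _ => ?_
    rw [hsymm]
  rw [h2, ← two_mul, Finset.mul_sum, Finset.mul_sum]
  refine sum_le_sum fun i hi => ?_
  rw [← Finset.mul_sum, ← Finset.mul_sum]
  have := mul_le_mul_of_nonneg_left (hB i hi) (sq_nonneg ‖c i‖)
  linarith

/-- Extension of the range of summation. -/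
theorem LSA_ext (f : ℤ → ℝ) (hf : ∀ x, 0 ≤ f x) (M N L : ℕ) (hNL : N ≤ L) :
    L * ∑ m ∈ Ico M (M + N), f m ≤
      ∑ u ∈ Ico (0 : ℤ) (2 * L : ℕ), ∑ v ∈ Ico (0 : ℤ) (2 * L : ℕ), f (M + u - v) := by
  rw [← Finset.sum_product']
  have h1 : (L : ℝ) * ∑ m ∈ Ico M (M + N), f m =
      ∑ p ∈ (Ico M (M + N)) ×ˢ (range L), f (p.1 : ℕ) := by
    rw [Finset.sum_product, Finset.mul_sum]
    refine sum_congr rfl fun m _ => ?_
    simp
  rw [h1]
  have h2 : ∑ p ∈ (Ico M (M + N)) ×ˢ (range L), f (p.1 : ℕ) =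
      ∑ p ∈ ((Ico M (M + N)) ×ˢ (range L)).image
        (fun p : ℕ × ℕ => (((p.1 : ℤ) - M + p.2, (p.2 : ℤ)) : ℤ × ℤ)), f (M + p.1 - p.2) := by
    rw [Finset.sum_image]
    · refine sum_congr rfl fun p _ => ?_
      congr 1
      ring
    · intro p _ q _ h
      simp only [Prod.mk.injEq] at h
      ext
      · have := h.1
        have := h.2
        omega
      · have := h.2
        omega
  rw [h2]
  apply Finset.sum_le_sum_of_subset_of_nonneg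
  · intro p hp
    rw [Finset.mem_image] at hp
    obtain ⟨⟨m, l⟩, hml, rfl⟩ := hp
    rw [Finset.mem_product, Finset.mem_Ico, Finset.mem_range] at hml
    rw [Finset.mem_product, Finset.mem_Ico, Finset.mem_Ico]
    push_cast
    dsimp only at hml ⊢
    omega
  · intro p _ _
    exact hf _

/-- The separation of the Farey fractions. -/
theorem LSA_sep {Q q q' b b' : ℕ} (hq : q ≤ Q) (hq' : q' ≤ Q) (hb : b < q) (hb' : b' < q')
    (hc : Nat.Coprime b q) (hc' : Nat.Coprime b' q') (hne : ¬ (q = q' ∧ b = b')) :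
    1 / (Q : ℝ) ^ 2 ≤ nd ((b : ℝ) / q - (b' : ℝ) / q') := by
  have hq0 : (0 : ℝ) < q := by exact_mod_cast (by omega : 0 < q)
  have hq0' : (0 : ℝ) < q' := by exact_mod_cast (by omega : 0 < q')
  set x : ℝ := (b : ℝ) / q - (b' : ℝ) / q' with hx
  set k : ℤ := round x with hk
  have h1 : x - k = (((b : ℤ) * q' - b' * q - k * q * q' : ℤ) : ℝ) / (q * q') := by
    rw [hx]
    push_cast
    field_simp
  have h2 : ((b : ℤ) * q' - b' * q - k * q * q' : ℤ) ≠ 0 := by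
    intro h0
    rw [h0] at h1
    simp only [Int.cast_zero, zero_div] at h1
    have h3 : x = k := by linarith
    have hb1 : (b : ℝ) / q < 1 := by
      rw [div_lt_one hq0]
      exact_mod_cast hb
    have hb0 : 0 ≤ (b : ℝ) / q := by positivity
    have hb1' : (b' : ℝ) / q' < 1 := by
      rw [div_lt_one hq0']
      exact_mod_cast hb'
    have hb0' : 0 ≤ (b' : ℝ) / q' := by positivity
    have h4 : (k : ℝ) < 1 := by rw [← h3]; linarith
    have h5 : (-1 : ℝ) < k := by rw [← h3]; linarith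
    have h6 : k < 1 := by exact_mod_cast h4
    have h7 : -1 < k := by exact_mod_cast h5
    have h8 : k = 0 := by omega
    rw [h8] at h0
    have h9 : b * q' = b' * q := by
      have : (b : ℤ) * q' = b' * q := by linarith
      exact_mod_cast this
    have h10 : q ∣ q' := by
      have : q ∣ b * q' := ⟨b', by rw [h9]; ring⟩
      exact (Nat.Coprime.symm hc).dvd_of_dvd_mul_left this
    have h11 : q' ∣ q := by
      have : q' ∣ b' * q := ⟨b, by rw [← h9]; ring⟩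
      exact (Nat.Coprime.symm hc').dvd_of_dvd_mul_left this
    have h12 : q = q' := Nat.dvd_antisymm h10 h11
    apply hne
    refine ⟨h12, ?_⟩
    rw [← h12] at h9
    exact Nat.eq_of_mul_eq_mul_right (by omega) h9
  have h3 : nd x = |x - k| := rfl
  rw [h3, h1, abs_div, abs_of_pos (mul_pos hq0 hq0')]
  have h4 : (1 : ℝ) ≤ |(((b : ℤ) * q' - b' * q - k * q * q' : ℤ) : ℝ)| := by
    rw [← Int.cast_abs]
    exact_mod_cast Int.one_le_abs h2
  have h5 : (q : ℝ) * q' ≤ (Q : ℝ) ^ 2 := by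
    have e1 : (q : ℝ) ≤ Q := by exact_mod_cast hq
    have e2 : (q' : ℝ) ≤ Q := by exact_mod_cast hq'
    nlinarith
  have hQ0 : (0 : ℝ) < (Q : ℝ) ^ 2 := lt_of_lt_of_le (mul_pos hq0 hq0') h5
  rw [div_le_div_iff₀ hQ0 (mul_pos hq0 hq0')]
  nlinarith [mul_pos hq0 hq0', sq_nonneg (Q : ℝ)]

theorem LSA_cell {D : ℕ} (hD : 1 ≤ D) {x y : ℝ} (h : 1 / (D : ℝ) ≤ nd (x - y)) :
    VB_cell D x ≠ VB_cell D y := by
  intro heq
  have hD0 : (0 : ℝ) < D := by exact_mod_cast hD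
  have h1 : |(D : ℝ) * Int.fract x - (D : ℝ) * Int.fract y| < 1 :=
    Int.abs_sub_lt_one_of_floor_eq_floor heq
  have h2 : nd (x - y) ≤ |Int.fract x - Int.fract y| := by
    have h3 := round_le (x - y) (⌊x⌋ - ⌊y⌋)
    have h4 : x - y - ((⌊x⌋ - ⌊y⌋ : ℤ) : ℝ) = Int.fract x - Int.fract y := by
      unfold Int.fract
      push_cast
      ring
    rw [h4] at h3
    exact h3
  rw [← mul_sub, abs_mul, abs_of_pos hD0] at h1
  have h5 : (1 : ℝ) ≤ D * nd (x - y) := by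
    rw [div_le_iff₀ hD0] at h
    linarith
  nlinarith

/-- `1 / max(k,1)²` -/
noncomputable def LSA_h (k : ℕ) : ℝ := 1 / (max (k : ℝ) 1) ^ 2

theorem LSA_h_nonneg (k : ℕ) : 0 ≤ LSA_h k := by
  unfold LSA_h
  positivity

theorem LSA_h_sum (n : ℕ) : ∑ k ∈ range n, LSA_h k ≤ 3 := by
  have key : ∀ n : ℕ, ∑ k ∈ range (n + 2), LSA_h k ≤ 3 - 1 / ((n : ℝ) + 1) := by
    intro n
    induction n with
    | zero =>
      rw [Finset.sum_range_succ, Finset.sum_range_succ]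
      simp only [Finset.range_zero, Finset.sum_empty, LSA_h]
      norm_num
    | succ n ih =>
      rw [Finset.sum_range_succ]
      have h1 : LSA_h (n + 2) ≤ 1 / ((n : ℝ) + 1) - 1 / ((n : ℝ) + 2) := by
        unfold LSA_h
        have e1 : max (((n + 2 : ℕ) : ℝ)) 1 = (n : ℝ) + 2 := by
          rw [max_eq_left]
          · push_cast; ring
          · push_cast
            have : (0 : ℝ) ≤ n := Nat.cast_nonneg n
            linarith
        rw [e1]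
        have hn : (0 : ℝ) ≤ n := Nat.cast_nonneg n
        rw [div_sub_div _ _ (by positivity) (by positivity), div_le_div_iff₀ (by positivity)
          (by positivity)]
        nlinarith
      have e2 : 3 - 1 / (((n + 1 : ℕ) : ℝ) + 1) = 3 - 1 / ((n : ℝ) + 2) := by
        push_cast
        ring_nf
      rw [e2]
      linarith
  have h1 : ∑ k ∈ range n, LSA_h k ≤ ∑ k ∈ range (n + 2), LSA_h k := by
    apply Finset.sum_le_sum_of_subset_of_nonneg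
    · intro k hk
      rw [Finset.mem_range] at hk ⊢
      omega
    · intro k _ _
      exact LSA_h_nonneg k
  have h2 := key n
  have h3 : 0 ≤ 1 / ((n : ℝ) + 1) := by positivity
  linarith

theorem LSA_nd_bound {D : ℕ} (hD : 1 ≤ D) {x : ℝ} (h : 1 / (D : ℝ) ≤ nd x) :
    1 / nd x ^ 2 ≤ (D : ℝ) ^ 2 * (LSA_h (VB_cell D x).toNat +
      LSA_h (D - 1 - (VB_cell D x).toNat)) := by
  obtain ⟨h0, h1⟩ := VB_cell_mem hD x
  have hD0 : (0 : ℝ) < D := by exact_mod_cast hD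
  have hnd : 0 < nd x := lt_of_lt_of_le (by positivity) h
  set k := (VB_cell D x).toNat with hk
  have hk1 : (k : ℤ) = VB_cell D x := Int.toNat_of_nonneg h0
  have hkD : k < D := by omega
  have gen : ∀ j : ℕ, (j : ℝ) / D ≤ nd x → 1 / nd x ^ 2 ≤ (D : ℝ) ^ 2 * LSA_h j := by
    intro j hj
    have h2 : max (j : ℝ) 1 / D ≤ nd x := by
      rcases max_cases (j : ℝ) 1 with ⟨h3, _⟩ | ⟨h3, _⟩
      · rw [h3]; exact hj
      · rw [h3]; exact h
    have hm : (0 : ℝ) < max (j : ℝ) 1 := lt_of_lt_of_le one_pos (le_max_right _ _)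
    unfold LSA_h
    have h3 : (max (j : ℝ) 1 / D) ^ 2 ≤ nd x ^ 2 := by
      gcongr
    calc 1 / nd x ^ 2 ≤ 1 / (max (j : ℝ) 1 / D) ^ 2 := by
          apply one_div_le_one_div_of_le _ h3
          positivity
      _ = (D : ℝ) ^ 2 * (1 / (max (j : ℝ) 1) ^ 2) := by
          field_simp
  have hkk : ((VB_cell D x : ℤ) : ℝ) = (k : ℝ) := by
    rw [← hk1]
    simp
  rcases le_total k (D - 1 - k) with hle | hle
  · have h2 := gen k (VB_nd_ge hD x k (by rw [hkk]) (by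
      rw [hkk]
      have : (k : ℝ) + k + 1 ≤ D := by exact_mod_cast (by omega : k + k + 1 ≤ D)
      linarith))
    have := mul_nonneg (sq_nonneg (D : ℝ)) (LSA_h_nonneg (D - 1 - k))
    rw [mul_add]
    linarith
  · have h2 := gen (D - 1 - k) (VB_nd_ge hD x ((D - 1 - k : ℕ) : ℝ) (by
      rw [hkk]
      exact_mod_cast hle) (by
      rw [hkk]
      rw [Nat.cast_sub (by omega), Nat.cast_sub (by omega)]
      push_cast
      linarith))
    have := mul_nonneg (sq_nonneg (D : ℝ)) (LSA_h_nonneg k)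
    rw [mul_add]
    linarith

/-- The row sums. -/
theorem LSA_row {ι : Type*} [DecidableEq ι] (I : Finset ι) (α : ι → ℝ) (D n : ℕ) (hD : 1 ≤ D)
    (hsep : ∀ i ∈ I, ∀ j ∈ I, i ≠ j → 1 / (D : ℝ) ≤ nd (α i - α j)) (i : ι) (hi : i ∈ I) :
    ∑ j ∈ I, ‖∑ u ∈ Ico (0 : ℤ) n, e (u * (α i - α j))‖ ^ 2 ≤ (n : ℝ) ^ 2 +
      3 / 2 * (D : ℝ) ^ 2 := by
  rw [← Finset.add_sum_erase _ _ hi]
  have h1 : ‖∑ u ∈ Ico (0 : ℤ) n, e (u * (α i - α i))‖ ^ 2 ≤ (n : ℝ) ^ 2 := by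
    have := (geo_le 0 n (by positivity) (α i - α i)).1
    push_cast at this
    rw [sub_zero] at this
    gcongr
  have h2 : ∑ j ∈ I.erase i, ‖∑ u ∈ Ico (0 : ℤ) n, e (u * (α i - α j))‖ ^ 2 ≤
      ∑ j ∈ I.erase i, 1 / 4 * ((D : ℝ) ^ 2 * (LSA_h (VB_cell D (α i - α j)).toNat +
        LSA_h (D - 1 - (VB_cell D (α i - α j)).toNat))) := by
    refine sum_le_sum fun j hj => ?_
    rw [Finset.mem_erase] at hj
    have h3 := hsep i hi j hj.2 (Ne.symm hj.1)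
    have hD0 : (0 : ℝ) < D := by exact_mod_cast hD
    have hnd : 0 < nd (α i - α j) := lt_of_lt_of_le (by positivity) h3
    have h4 := (geo_le 0 n (by positivity) (α i - α j)).2
    have h5 := LSA_nd_bound hD h3
    have h6 : ‖∑ u ∈ Ico (0 : ℤ) n, e (u * (α i - α j))‖ ≤ 1 / (2 * nd (α i - α j)) := by
      rw [le_div_iff₀ (by positivity)]
      exact h4
    calc ‖∑ u ∈ Ico (0 : ℤ) n, e (u * (α i - α j))‖ ^ 2 ≤ (1 / (2 * nd (α i - α j))) ^ 2 := by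
          gcongr
      _ = 1 / 4 * (1 / nd (α i - α j) ^ 2) := by
          field_simp
          ring
      _ ≤ _ := by gcongr
  have h3 : ∑ j ∈ I.erase i, 1 / 4 * ((D : ℝ) ^ 2 * (LSA_h (VB_cell D (α i - α j)).toNat +
        LSA_h (D - 1 - (VB_cell D (α i - α j)).toNat))) ≤
      ∑ k ∈ range D, 1 / 4 * ((D : ℝ) ^ 2 * (LSA_h k + LSA_h (D - 1 - k))) := by
    have hinj : Set.InjOn (fun j => (VB_cell D (α i - α j)).toNat) (I.erase i : Set ι) := by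
      intro j hj l hl hjl
      rw [Finset.mem_coe, Finset.mem_erase] at hj hl
      by_contra hne
      have h4 := hsep l hl.2 j hj.2 (Ne.symm hne)
      have h5 : 1 / (D : ℝ) ≤ nd ((α i - α j) - (α i - α l)) := by
        have : (α i - α j) - (α i - α l) = α l - α j := by ring
        rw [this]
        exact h4
      apply LSA_cell hD h5
      have e1 := (VB_cell_mem hD (α i - α j)).1
      have e2 := (VB_cell_mem hD (α i - α l)).1
      dsimp only at hjl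
      omega
    rw [← Finset.sum_image (f := fun k => 1 / 4 * ((D : ℝ) ^ 2 * (LSA_h k + LSA_h (D - 1 - k))))
      (g := fun j => (VB_cell D (α i - α j)).toNat) hinj]
    apply Finset.sum_le_sum_of_subset_of_nonneg
    · intro k hk
      rw [Finset.mem_image] at hk
      obtain ⟨j, _, rfl⟩ := hk
      rw [Finset.mem_range]
      obtain ⟨e1, e2⟩ := VB_cell_mem hD (α i - α j)
      omega
    · intro k _ _
      have := LSA_h_nonneg k
      have := LSA_h_nonneg (D - 1 - k)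
      positivity
  have h4 : ∑ k ∈ range D, 1 / 4 * ((D : ℝ) ^ 2 * (LSA_h k + LSA_h (D - 1 - k))) ≤
      3 / 2 * (D : ℝ) ^ 2 := by
    rw [← Finset.mul_sum, ← Finset.mul_sum, Finset.sum_add_distrib, Finset.sum_range_reflect]
    have := LSA_h_sum D
    nlinarith [sq_nonneg (D : ℝ)]
  linarith

/-- The additive large sieve for the fractions `b/q`, `q ≤ Q`, `(b, q) = 1`.

Proof. The points `b/q` (one per reduced fraction in `[0, 1)`) are `δ`-spaced modulo `1` with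
`δ = 1/Q²` (`|b/q - b'/q' - k| ≥ 1/(q q')` unless the fractions are equal). We may assume `M = 0`
(multiply `a m` by `e(M b/q)`-twists: `|∑ a_m e(m α)| = |∑ a_{M+m} e(m α)|`), and put
`N' = max N (Q^2)`. By `lsa_dual` (with `K (q, b) m = e(m b/q)`) it suffices to bound
`∑_{m < N} |∑_α c_α e(m α)|²`. The Fejér weight `w m = 2 max 0 (1 - |m|/(2 N'))`, is `≥ 1` for
`|m| ≤ N'`, so this is at most `∑_{m ∈ ℤ} w m |∑_α c_α e(m α)|² = ∑_{α, β} c_α conj(c_β) ŵ(α - β)`,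
`ŵ θ = ∑_m w m e(m θ) = (1/N') |∑_{m < 2N'} e(m θ)|² `, so `0 ≤ ŵ θ ≤ min (4 N') (1/(4 N' ‖θ‖²))`
(`‖∑ e(m θ)‖ ≤ 1/(2 ‖θ‖)`, cf. `geo_le` in `H68T/VB.lean`). By `|c_α c_β| ≤ (|c_α|² + |c_β|²)/2`
(Schur) it is at most `sup_α ∑_β ŵ(α - β) ∑ |c|²`, and for fixed `α` the points `β ≠ α` have
`‖α - β‖ ≥ k δ` for at least... the `k`-th closest point on each side: `∑_β ≤ 4 N' + 2 ∑_k 1/(4 N' k² δ²)
≤ 4 N' + Q^4/N' ≤ 5 N'`. (Alternatively use Gallagher's lemma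
`|S(α)|² ≤ δ⁻¹ ∫_{|β-α| ≤ δ/2} |S|² + ∫_{|β-α| ≤ δ/2} |S S'|`.) -/
theorem ls_add : ∃ C : ℝ, 0 < C ∧ ∀ (Q N : ℕ), 1 ≤ Q → 1 ≤ N → ∀ (M : ℕ) (a : ℕ → ℂ),
    ∑ q ∈ Icc 1 Q, ∑ b ∈ (range q).filter (fun b => Nat.Coprime b q),
      ‖∑ m ∈ Ico M (M + N), a m * e ((m : ℝ) * ((b : ℝ) / q))‖ ^ 2 ≤
      C * ((N : ℝ) + (Q : ℝ) ^ 2) * ∑ m ∈ Ico M (M + N), ‖a m‖ ^ 2 := by
  refine ⟨6, by norm_num, ?_⟩
  intro Q N hQ hN M a
  classical
  set I : Finset (Σ _ : ℕ, ℕ) := (Icc 1 Q).sigma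
    (fun q => (range q).filter (fun b => Nat.Coprime b q)) with hI
  set α : (Σ _ : ℕ, ℕ) → ℝ := fun p => (p.2 : ℝ) / p.1 with hα
  have hsum : ∑ q ∈ Icc 1 Q, ∑ b ∈ (range q).filter (fun b => Nat.Coprime b q),
      ‖∑ m ∈ Ico M (M + N), a m * e ((m : ℝ) * ((b : ℝ) / q))‖ ^ 2 =
      ∑ p ∈ I, ‖∑ m ∈ Ico M (M + N), a m * e ((m : ℝ) * α p)‖ ^ 2 := by
    rw [hI, Finset.sum_sigma]
  rw [hsum]
  apply lsa_dual I (Ico M (M + N)) (fun p m => e ((m : ℝ) * α p)) _ (by positivity)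
  intro c
  set D : ℕ := Q ^ 2 with hD
  set L : ℕ := max N D with hL
  have hD1 : 1 ≤ D := Nat.one_le_pow _ _ hQ
  have hL1 : 1 ≤ L := le_trans hN (le_max_left _ _)
  have hsep : ∀ i ∈ I, ∀ j ∈ I, i ≠ j → 1 / (D : ℝ) ≤ nd (α i - α j) := by
    rintro ⟨q, b⟩ h1 ⟨q', b'⟩ h2 hne
    rw [hI, Finset.mem_sigma, Finset.mem_Icc, Finset.mem_filter, Finset.mem_range] at h1 h2
    have := LSA_sep h1.1.2 h2.1.2 h1.2.1 h2.2.1 h1.2.2 h2.2.2 (by
      rintro ⟨rfl, rfl⟩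
      exact hne rfl)
    rw [hD]
    push_cast
    exact this
  have h1 := LSA_ext (fun x : ℤ => ‖∑ i ∈ I, c i * e ((x : ℝ) * α i)‖ ^ 2)
    (fun x => by positivity) M N L (le_max_left _ _)
  have h2 := LSA_quad I α c (M : ℝ) (2 * L)
  have h3 := LSA_schur I c (fun i j => ‖∑ u ∈ Ico (0 : ℤ) (2 * L : ℕ), e (u * (α i - α j))‖ ^ 2)
    ((((2 * L : ℕ) : ℝ)) ^ 2 + 3 / 2 * (D : ℝ) ^ 2) (fun i j => by positivity) (fun i j => by
      have e1 : ∑ u ∈ Ico (0 : ℤ) (2 * L : ℕ), e (u * (α j - α i)) =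
          (starRingEnd ℂ) (∑ u ∈ Ico (0 : ℤ) (2 * L : ℕ), e (u * (α i - α j))) := by
        rw [map_sum]
        refine sum_congr rfl fun u _ => ?_
        rw [LSA_conj]
        congr 1
        ring
      rw [e1, RCLike.norm_conj])
    (fun i hi => LSA_row I α D (2 * L) hD1 hsep i hi)
  have h4 : ∑ u ∈ Ico (0 : ℤ) (2 * L : ℕ), ∑ v ∈ Ico (0 : ℤ) (2 * L : ℕ),
      ‖∑ i ∈ I, c i * e ((((M : ℤ) + u - v : ℤ) : ℝ) * α i)‖ ^ 2 =
      ∑ u ∈ Ico (0 : ℤ) (2 * L : ℕ), ∑ v ∈ Ico (0 : ℤ) (2 * L : ℕ),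
      ‖∑ i ∈ I, c i * e (((M : ℝ) + u - v) * α i)‖ ^ 2 := by
    push_cast
    rfl
  have h5 : (L : ℝ) * ∑ m ∈ Ico M (M + N), ‖∑ i ∈ I, c i * e (((m : ℤ) : ℝ) * α i)‖ ^ 2 ≤
      ((((2 * L : ℕ) : ℝ)) ^ 2 + 3 / 2 * (D : ℝ) ^ 2) * ∑ i ∈ I, ‖c i‖ ^ 2 := by
    refine h1.trans ?_
    rw [h4]
    exact h2.trans h3
  have hL0 : (0 : ℝ) < L := by exact_mod_cast hL1
  have hDL : (D : ℝ) ≤ L := by exact_mod_cast le_max_right N D
  have hLND : (L : ℝ) ≤ N + D := by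
    have : L ≤ N + D := max_le (Nat.le_add_right _ _) (Nat.le_add_left _ _)
    exact_mod_cast this
  have hDQ : (D : ℝ) = (Q : ℝ) ^ 2 := by rw [hD]; push_cast; rfl
  have h6 : ((((2 * L : ℕ) : ℝ)) ^ 2 + 3 / 2 * (D : ℝ) ^ 2) ≤
      L * (6 * ((N : ℝ) + (Q : ℝ) ^ 2)) := by
    push_cast
    rw [← hDQ]
    have hD0 : (0 : ℝ) ≤ D := Nat.cast_nonneg _
    nlinarith
  have h7 : ∑ m ∈ Ico M (M + N), ‖∑ i ∈ I, c i * e (((m : ℤ) : ℝ) * α i)‖ ^ 2 =
      ∑ j ∈ Ico M (M + N), ‖∑ i ∈ I, c i * e ((j : ℝ) * α i)‖ ^ 2 := by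
    push_cast
    rfl
  rw [h7] at h5
  have h8 : 0 ≤ ∑ i ∈ I, ‖c i‖ ^ 2 := by positivity
  have h9 := h5.trans (mul_le_mul_of_nonneg_right h6 h8)
  rw [mul_assoc] at h9
  exact le_of_mul_le_mul_left h9 hL0

end Pool.Agent.Lib.H59C
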