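import Pool.Agent.Lib.H59C.LSA
import Pool.Agent.Lib.H59C.LSB

/-!
# LSC: the multiplicative large sieve
-/

open Finset

namespace Pool.Agent.Lib.H59C

open Pool.Agent.Lib.H68T (PC p0 e)

open Classical in
theorem LSC_fiber (Q q : ℕ) (hq : 1 ≤ q) (f : PCh → ℝ) (hf : ∀ p, 0 ≤ f p) :
    ∑ p ∈ (PC Q).filter (fun p => p.1 = q), f p ≤
      ∑ χ ∈ ((Set.toFinite {χ : DirichletCharacter ℂ q | χ.IsPrimitive}).toFinset), f ⟨q, χ⟩ := by
  have hne : NeZero q := ⟨by omega⟩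
  have h1 : (PC Q).filter (fun p => p.1 = q) ⊆
      ((Set.toFinite {χ : DirichletCharacter ℂ q | χ.IsPrimitive}).toFinset).map
        (Function.Embedding.sigmaMk (β := fun r => DirichletCharacter ℂ r) q) := by
    intro p hp
    rw [mem_filter] at hp
    obtain ⟨hp1, hp2⟩ := hp
    obtain ⟨r, ψ⟩ := p
    simp only at hp2
    subst hp2
    rw [mem_map]
    refine ⟨ψ, ?_, rfl⟩
    rw [Set.Finite.mem_toFinset]
    exact (Pool.Agent.Lib.H68T.mem_PC.1 hp1).2.2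
  refine (Finset.sum_le_sum_of_subset_of_nonneg h1 (fun p _ _ => hf p)).trans ?_
  rw [Finset.sum_map]
  exact le_rfl

/-- The large sieve for primitive characters: group `PC Q` by the conductor `q ∈ [1, Q]`
(`PC Q` is the set of all `⟨r, χ⟩` with `1 ≤ r ≤ Q`, `χ` primitive, `H68T.mem_PC`), apply `ls_gauss` with
`T` = the fibre over `q` and `S = Ico M (M + N)`, then `ls_add`. -/
theorem ls_mul : ∃ C : ℝ, 0 < C ∧ ∀ (Q N : ℕ), 1 ≤ Q → 1 ≤ N → ∀ (M : ℕ) (a : ℕ → ℂ),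
    ∑ p ∈ PC Q, (p.1 : ℝ) / (Nat.totient p.1 : ℝ) *
      ‖∑ m ∈ Ico M (M + N), a m * p.2 (m : ZMod p.1)‖ ^ 2 ≤
      C * ((N : ℝ) + (Q : ℝ) ^ 2) * ∑ m ∈ Ico M (M + N), ‖a m‖ ^ 2 := by
  classical
  obtain ⟨C, hC, h⟩ := ls_add
  refine ⟨C, hC, fun Q N hQ hN M a => ?_⟩
  refine le_trans ?_ (h Q N hQ hN M a)
  have hmaps : ∀ p ∈ PC Q, p.1 ∈ Icc 1 Q := by
    intro p hp
    have := Pool.Agent.Lib.H68T.mem_PC.1 hp
    rw [mem_Icc]
    exact ⟨this.1, this.2.1⟩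
  rw [← Finset.sum_fiberwise_of_maps_to hmaps]
  apply Finset.sum_le_sum
  intro q hq
  rw [mem_Icc] at hq
  have hne : NeZero q := ⟨by omega⟩
  refine (LSC_fiber Q q hq.1 (fun p => (p.1 : ℝ) / (Nat.totient p.1 : ℝ) *
      ‖∑ m ∈ Ico M (M + N), a m * p.2 (m : ZMod p.1)‖ ^ 2) (fun p => by positivity)).trans ?_
  simp only
  rw [← Finset.mul_sum]
  refine ls_gauss q (Ico M (M + N)) a _ ?_
  intro χ hχ
  rw [Set.Finite.mem_toFinset] at hχ
  exact hχ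

end Pool.Agent.Lib.H59C
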