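import Mathlib

/-!
# PVI: the inequality of Pólya and Vinogradov
-/

open Finset

namespace Pool.Agent.Lib.H59C

/-- The norm of the Gauss sum of a primitive character. -/
theorem PVI_tau (r : ℕ) [NeZero r] (χ : DirichletCharacter ℂ r) (hχ : χ.IsPrimitive) :
    ‖gaussSum χ (ZMod.stdAddChar (N := r))‖ ^ 2 = r := by
  classical
  set e : AddChar (ZMod r) ℂ := ZMod.stdAddChar with he
  set τ : ℂ := gaussSum χ e with hτ
  have hprim : e.IsPrimitive := ZMod.isPrimitive_stdAddChar r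
  have hconj : ∀ x : ZMod r, (starRingEnd ℂ) (e x) = e (-x) := by
    intro x
    rw [AddChar.map_neg_eq_inv, Complex.inv_eq_conj (AddChar.norm_apply e x)]
  have hinv : ∀ a : ZMod r, ‖χ⁻¹ a‖ = ‖χ a‖ := by
    intro a
    rw [← MulChar.star_apply' χ a, norm_star]
  set Q : ℝ := ∑ a : ZMod r, ‖χ a‖ ^ 2 with hQ
  have hQ0 : 0 < Q := by
    refine Finset.sum_pos' (fun a _ => by positivity) ⟨1, Finset.mem_univ _, ?_⟩
    rw [map_one, norm_one]
    norm_num
  have h1 : ∑ a : ZMod r, ‖gaussSum χ (e.mulShift a)‖ ^ 2 = Q * ‖τ‖ ^ 2 := by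
    rw [hQ, Finset.sum_mul]
    refine Finset.sum_congr rfl fun a _ => ?_
    rw [gaussSum_mulShift_of_isPrimitive e hχ a, norm_mul, hinv, mul_pow]
  have h2 : ((∑ a : ZMod r, ‖gaussSum χ (e.mulShift a)‖ ^ 2 : ℝ) : ℂ) = r * (Q : ℂ) := by
    have e1 : ∀ a : ZMod r, ((‖gaussSum χ (e.mulShift a)‖ ^ 2 : ℝ) : ℂ) =
        ∑ b : ZMod r, ∑ c : ZMod r, χ b * (starRingEnd ℂ) (χ c) * e (a * (b - c)) := by
      intro a
      have h3 : ((‖gaussSum χ (e.mulShift a)‖ ^ 2 : ℝ) : ℂ) =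
          gaussSum χ (e.mulShift a) * (starRingEnd ℂ) (gaussSum χ (e.mulShift a)) := by
        rw [Complex.mul_conj']
        push_cast
        rfl
      rw [h3, gaussSum, map_sum, Finset.sum_mul_sum]
      refine Finset.sum_congr rfl fun b _ => Finset.sum_congr rfl fun c _ => ?_
      have h5 : (starRingEnd ℂ) (χ c * (e.mulShift a) c) =
          (starRingEnd ℂ) (χ c) * e (-(a * c)) := by
        rw [AddChar.mulShift_apply, ← hconj]
        exact map_mul (starRingEnd ℂ) _ _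
      rw [h5, AddChar.mulShift_apply]
      have h4 : e (a * (b - c)) = e (a * b) * e (-(a * c)) := by
        rw [← AddChar.map_add_eq_mul]
        congr 1
        ring
      rw [h4]
      ring
    rw [Complex.ofReal_sum, Finset.sum_congr rfl fun a _ => e1 a, Finset.sum_comm]
    have e2 : ∀ b : ZMod r, ∑ a : ZMod r, ∑ c : ZMod r,
        χ b * (starRingEnd ℂ) (χ c) * e (a * (b - c)) = r * ((‖χ b‖ ^ 2 : ℝ) : ℂ) := by
      intro b
      rw [Finset.sum_comm, Finset.sum_eq_single b]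
      · rw [← Finset.mul_sum, AddChar.sum_mulShift _ hprim, sub_self, if_pos rfl, ZMod.card,
          Complex.mul_conj']
        push_cast
        ring
      · intro c _ hcb
        rw [← Finset.mul_sum, AddChar.sum_mulShift _ hprim, if_neg (sub_ne_zero.mpr hcb.symm)]
        simp
      · intro h
        exact absurd (Finset.mem_univ b) h
    rw [Finset.sum_congr rfl fun b _ => e2 b, ← Finset.mul_sum, hQ, Complex.ofReal_sum]
  rw [h1] at h2
  have h3 : Q * ‖τ‖ ^ 2 = r * Q := by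
    have : ((Q * ‖τ‖ ^ 2 : ℝ) : ℂ) = ((r * Q : ℝ) : ℂ) := by
      rw [h2]
      push_cast
      rfl
    exact_mod_cast this
  have h4 : Q * ‖τ‖ ^ 2 = Q * r := by rw [h3]; ring
  exact mul_left_cancel₀ hQ0.ne' h4

theorem PVI_sin (t : ℝ) (h0 : 0 ≤ t) (h1 : t ≤ 1) :
    2 * (t * (1 - t)) ≤ Real.sin (Real.pi * t) := by
  have hpi := Real.pi_pos
  have key : ∀ s : ℝ, 0 ≤ s → s ≤ 1 / 2 → 2 * (s * (1 - s)) ≤ Real.sin (Real.pi * s) := by
    intro s hs0 hs1
    have h := Real.mul_le_sin (x := Real.pi * s) (by positivity) (by nlinarith)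
    have e : 2 / Real.pi * (Real.pi * s) = 2 * s := by
      field_simp
    rw [e] at h
    nlinarith
  rcases le_total t (1 / 2) with h | h
  · exact key t h0 h
  · have h2 := key (1 - t) (by linarith) (by linarith)
    have e : Real.sin (Real.pi * (1 - t)) = Real.sin (Real.pi * t) := by
      rw [mul_sub, mul_one, Real.sin_pi_sub]
    rw [e] at h2
    nlinarith

/-- Geometric sums of a nontrivial additive character. -/
theorem PVI_geom (r : ℕ) [NeZero r] (b : ZMod r) (hb : b ≠ 0) (u v : ℕ) :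
    ‖∑ n ∈ Ico u v, ZMod.stdAddChar ((n : ZMod r) * b)‖ ≤
      r / 2 * ((b.val : ℝ)⁻¹ + ((r - b.val : ℕ) : ℝ)⁻¹) := by
  have hr : 0 < r := Nat.pos_of_ne_zero (NeZero.ne r)
  have hbr : b.val < r := ZMod.val_lt b
  have hb0 : 0 < b.val := Nat.pos_of_ne_zero fun h => hb ((ZMod.val_eq_zero b).mp h)
  have hbr' : ((r - b.val : ℕ) : ℝ) = (r : ℝ) - b.val := by
    rw [Nat.cast_sub hbr.le]
  have hrR : (0 : ℝ) < r := by exact_mod_cast hr
  have hbR : (0 : ℝ) < b.val := by exact_mod_cast hb0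
  have hbrR : (b.val : ℝ) < r := by exact_mod_cast hbr
  have hrhs : 0 ≤ (r : ℝ) / 2 * ((b.val : ℝ)⁻¹ + ((r - b.val : ℕ) : ℝ)⁻¹) := by positivity
  rcases le_or_gt v u with huv | huv
  · rw [Finset.Ico_eq_empty_of_le huv, Finset.sum_empty, norm_zero]
    exact hrhs
  set z : ℂ := ZMod.stdAddChar b with hz
  have hzn : ‖z‖ = 1 := AddChar.norm_apply _ _
  have h1 : ∑ n ∈ Ico u v, ZMod.stdAddChar ((n : ZMod r) * b) = ∑ n ∈ Ico u v, z ^ n := by
    refine Finset.sum_congr rfl fun n _ => ?_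
    rw [← nsmul_eq_mul, AddChar.map_nsmul_eq_pow]
  set t : ℝ := b.val / r with ht
  have ht0 : 0 < t := by positivity
  have ht1 : t < 1 := by rw [ht, div_lt_one hrR]; exact hbrR
  have hzt : z = Complex.exp (Complex.I * ((2 * Real.pi * t : ℝ) : ℂ)) := by
    have h2 : z = ZMod.stdAddChar (((b.val : ℤ)) : ZMod r) := by
      rw [hz]
      congr 1
      rw [Int.cast_natCast, ZMod.natCast_zmod_val]
    rw [h2, ZMod.stdAddChar_coe]
    congr 1
    rw [ht]
    push_cast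
    ring
  have hsin := PVI_sin t ht0.le ht1.le
  have hpos : 0 < t * (1 - t) := mul_pos ht0 (by linarith)
  have hz1 : 4 * (t * (1 - t)) ≤ ‖z - 1‖ := by
    rw [hzt, Complex.norm_exp_I_mul_ofReal_sub_one, Real.norm_eq_abs]
    have e : 2 * Real.pi * t / 2 = Real.pi * t := by ring
    rw [e]
    refine le_trans ?_ (le_abs_self _)
    linarith
  have hz1' : 0 < ‖z - 1‖ := lt_of_lt_of_le (by linarith) hz1
  have hgeom : (∑ n ∈ Ico u v, z ^ n) * (z - 1) = z ^ v - z ^ u := geom_sum_Ico_mul z huv.le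
  have hnorm : ‖∑ n ∈ Ico u v, z ^ n‖ * ‖z - 1‖ ≤ 2 := by
    rw [← norm_mul, hgeom]
    refine (norm_sub_le _ _).trans ?_
    rw [norm_pow, norm_pow, hzn, one_pow, one_pow]
    norm_num
  rw [h1]
  have h5 : ‖∑ n ∈ Ico u v, z ^ n‖ * (4 * (t * (1 - t))) ≤ 2 :=
    (mul_le_mul_of_nonneg_left hz1 (norm_nonneg _)).trans hnorm
  have h6 : ‖∑ n ∈ Ico u v, z ^ n‖ ≤ 2 / (4 * (t * (1 - t))) := by
    rw [le_div_iff₀ (by linarith)]
    exact h5
  refine h6.trans (le_of_eq ?_)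
  rw [hbr', ht]
  have hne : (r : ℝ) - b.val ≠ 0 := by linarith
  field_simp
  ring

/-- `|∑_{u ≤ n < v} χ(n)| ≤ C √r log r` for primitive `χ` mod `r > 1`.

Proof. `χ(n) = τ(χ̄)⁻¹ ∑_{b mod r} χ̄(b) e(b n/r)` (`gaussSum_mulShift_of_isPrimitive`), `|τ|² = r` (as in
`LSB`: Parseval), and `|∑_{u ≤ n < v} e(b n/r)| ≤ 1/|sin(π b/r)| ≤ r/(2 min(b, r-b))` for `0 < b < r`
(`b = 0` does not contribute, `χ̄(0) = 0`); so the sum is at most
`r^(-1/2) ∑_{0<b<r} r/(2 min(b, r - b)) ≤ √r (1 + log r)`. -/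
theorem polya_vinogradov : ∃ C : ℝ, 0 < C ∧ ∀ (r : ℕ) [NeZero r] (χ : DirichletCharacter ℂ r),
    1 < r → χ.IsPrimitive → ∀ u v : ℕ,
    ‖∑ n ∈ Ico u v, χ (n : ZMod r)‖ ≤ C * Real.sqrt r * Real.log r := by
  refine ⟨1 / Real.log 2 + 1, by positivity, ?_⟩
  intro r _ χ hr hχ u v
  classical
  set e : AddChar (ZMod r) ℂ := ZMod.stdAddChar with he
  set τ : ℂ := gaussSum χ e with hτ
  have hτ2 : ‖τ‖ ^ 2 = r := PVI_tau r χ hχ
  have hrR : (1 : ℝ) < r := by exact_mod_cast hr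
  have hτs : ‖τ‖ = Real.sqrt r := by
    rw [← hτ2, Real.sqrt_sq (norm_nonneg _)]
  have hconj : ‖∑ n ∈ Ico u v, χ (n : ZMod r)‖ = ‖∑ n ∈ Ico u v, χ⁻¹ (n : ZMod r)‖ := by
    rw [← norm_star (∑ n ∈ Ico u v, χ (n : ZMod r)), star_sum]
    congr 1
    exact Finset.sum_congr rfl fun n _ => MulChar.star_apply' χ _
  have hmain : (∑ n ∈ Ico u v, χ⁻¹ (n : ZMod r)) * τ =
      ∑ b : ZMod r, χ b * ∑ n ∈ Ico u v, e ((n : ZMod r) * b) := by
    rw [Finset.sum_mul]
    have h1 : ∀ n ∈ Ico u v, χ⁻¹ (n : ZMod r) * τ = ∑ b : ZMod r, χ b * e ((n : ZMod r) * b) := by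
      intro n _
      rw [hτ, ← gaussSum_mulShift_of_isPrimitive e hχ, gaussSum]
      exact Finset.sum_congr rfl fun b _ => by rw [AddChar.mulShift_apply]
    rw [Finset.sum_congr rfl h1, Finset.sum_comm]
    exact Finset.sum_congr rfl fun b _ => by rw [Finset.mul_sum]
  set G : ℕ → ℝ := fun k => (r : ℝ) / 2 * ((k : ℝ)⁻¹ + ((r - k : ℕ) : ℝ)⁻¹) with hG
  set F : ℕ → ℝ := fun k => if k = 0 then 0 else G k with hF
  have hbound : ‖∑ b : ZMod r, χ b * ∑ n ∈ Ico u v, e ((n : ZMod r) * b)‖ ≤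
      ∑ b : ZMod r, F b.val := by
    refine (norm_sum_le _ _).trans (Finset.sum_le_sum fun b _ => ?_)
    rw [norm_mul]
    by_cases hb : b = 0
    · rw [hb, DirichletCharacter.map_zero' χ (by omega), norm_zero, zero_mul, hF]
      simp
    · have hb' : b.val ≠ 0 := fun h => hb ((ZMod.val_eq_zero b).mp h)
      rw [hF]
      simp only [if_neg hb', hG]
      calc ‖χ b‖ * ‖∑ n ∈ Ico u v, e ((n : ZMod r) * b)‖
          ≤ 1 * ‖∑ n ∈ Ico u v, e ((n : ZMod r) * b)‖ :=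
            mul_le_mul_of_nonneg_right (DirichletCharacter.norm_le_one χ b) (norm_nonneg _)
        _ = ‖∑ n ∈ Ico u v, e ((n : ZMod r) * b)‖ := one_mul _
        _ ≤ _ := PVI_geom r b hb u v
  have hsum1 : ∑ b : ZMod r, F b.val = ∑ k ∈ range r, F k := by
    refine Finset.sum_nbij' (fun b : ZMod r => b.val) (fun k : ℕ => (k : ZMod r)) ?_ ?_ ?_ ?_ ?_
    · intro b _
      exact Finset.mem_range.mpr (ZMod.val_lt b)
    · intro k _
      exact Finset.mem_univ _
    · intro b _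
      exact ZMod.natCast_zmod_val b
    · intro k hk
      exact ZMod.val_cast_of_lt (Finset.mem_range.mp hk)
    · intro b _
      rfl
  have hsum2 : ∑ k ∈ range r, F k = ∑ k ∈ Ico 1 r, G k := by
    rw [Finset.range_eq_Ico, Finset.sum_eq_sum_Ico_succ_bot (by omega)]
    have : F 0 = 0 := by rw [hF]; simp
    rw [this, zero_add]
    refine Finset.sum_congr rfl fun k hk => ?_
    have hk0 : k ≠ 0 := by
      have := (Finset.mem_Ico.mp hk).1
      omega
    rw [hF]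
    simp only [if_neg hk0]
  have hsum3 : ∑ k ∈ Ico 1 r, G k = r * ∑ k ∈ Ico 1 r, (k : ℝ)⁻¹ := by
    rw [hG, ← Finset.mul_sum, Finset.sum_add_distrib]
    have h1 := Finset.sum_Ico_reflect (fun k : ℕ => (k : ℝ)⁻¹) 1 (m := r) (n := r) (by omega)
    rw [h1]
    have e1 : r + 1 - r = 1 := by omega
    have e2 : r + 1 - 1 = r := by omega
    rw [e1, e2]
    ring
  have hharm : ∑ k ∈ Ico 1 r, (k : ℝ)⁻¹ ≤ 1 + Real.log r := by
    have h1 : ∑ k ∈ Ico 1 r, (k : ℝ)⁻¹ = ((harmonic (r - 1) : ℚ) : ℝ) := by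
      rw [harmonic_eq_sum_Icc]
      push_cast
      refine Finset.sum_congr ?_ fun _ _ => rfl
      ext k
      simp only [Finset.mem_Ico, Finset.mem_Icc]
      omega
    rw [h1]
    refine (harmonic_le_one_add_log (r - 1)).trans ?_
    have h2 : Real.log ((r - 1 : ℕ) : ℝ) ≤ Real.log r := by
      apply Real.log_le_log
      · have : 0 < r - 1 := by omega
        exact_mod_cast this
      · exact_mod_cast Nat.sub_le r 1
    linarith
  have hτpos : 0 < ‖τ‖ := by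
    rw [hτs]
    exact Real.sqrt_pos.mpr (by linarith)
  have h5 : ‖∑ n ∈ Ico u v, χ⁻¹ (n : ZMod r)‖ * ‖τ‖ ≤ r * (1 + Real.log r) := by
    rw [← norm_mul, hmain]
    refine hbound.trans ?_
    rw [hsum1, hsum2, hsum3]
    exact mul_le_mul_of_nonneg_left hharm (by linarith)
  have hsq : Real.sqrt r * Real.sqrt r = r := Real.mul_self_sqrt (by linarith)
  have h6 : ‖∑ n ∈ Ico u v, χ⁻¹ (n : ZMod r)‖ ≤ Real.sqrt r * (1 + Real.log r) := by
    rw [hτs] at h5 hτpos
    have h7 : ‖∑ n ∈ Ico u v, χ⁻¹ (n : ZMod r)‖ * Real.sqrt r ≤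
        (Real.sqrt r * (1 + Real.log r)) * Real.sqrt r := by
      refine h5.trans (le_of_eq ?_)
      calc (r : ℝ) * (1 + Real.log r) = (Real.sqrt r * Real.sqrt r) * (1 + Real.log r) := by
            rw [hsq]
        _ = (Real.sqrt r * (1 + Real.log r)) * Real.sqrt r := by ring
    exact le_of_mul_le_mul_right h7 hτpos
  rw [hconj]
  refine h6.trans ?_
  have hlog2 : 0 < Real.log 2 := Real.log_pos (by norm_num)
  have hlogr : Real.log 2 ≤ Real.log r := by
    apply Real.log_le_log (by norm_num)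
    exact_mod_cast hr
  have h8 : 1 ≤ 1 / Real.log 2 * Real.log r := by
    rw [one_div, inv_mul_eq_div, le_div_iff₀ hlog2]
    linarith
  have h9 : 1 + Real.log r ≤ (1 / Real.log 2 + 1) * Real.log r := by
    rw [add_mul, one_mul]
    linarith
  calc Real.sqrt r * (1 + Real.log r) ≤ Real.sqrt r * ((1 / Real.log 2 + 1) * Real.log r) :=
        mul_le_mul_of_nonneg_left h9 (Real.sqrt_nonneg _)
    _ = (1 / Real.log 2 + 1) * Real.sqrt r * Real.log r := by ring

end Pool.Agent.Lib.H59C
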