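import Pool.Agent.Lib.H59C.Defs
import Pool.Agent.Lib.H59C.PVI

/-!
# TY1: type I sums
-/

open Finset

namespace Pool.Agent.Lib.H59C

open Pool.Agent.Lib.H68T (PC p0 e)

theorem ty1_mem {R : ℕ} {p : PCh} : p ∈ PD R ↔ 1 ≤ p.1 ∧ p.1 ≤ 2 * R ∧ p.2.IsPrimitive ∧ R < p.1 := by
  classical
  rw [PD, mem_filter, Pool.Agent.Lib.H68T.mem_PC]
  tauto

/-- `∑_{p ∈ PD R} 1/φ(p.1) ≤ R` -/
theorem ty1_count (R : ℕ) : ∑ p ∈ PD R, 1 / (Nat.totient p.1 : ℝ) ≤ R := by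
  classical
  have hmaps : ∀ p ∈ PD R, p.1 ∈ Ioc R (2 * R) := by
    intro p hp
    have := ty1_mem.1 hp
    rw [mem_Ioc]
    exact ⟨this.2.2.2, this.2.1⟩
  rw [← sum_fiberwise_of_maps_to hmaps]
  have h1 : ∀ r ∈ Ioc R (2 * R), ∑ p ∈ (PD R).filter (fun p => p.1 = r),
      1 / (Nat.totient p.1 : ℝ) ≤ 1 := by
    intro r hr
    rw [mem_Ioc] at hr
    have hne : NeZero r := ⟨by omega⟩
    have hφ : (0 : ℝ) < Nat.totient r := by exact_mod_cast Nat.totient_pos.2 (by omega)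
    have h2 : ∑ p ∈ (PD R).filter (fun p => p.1 = r), 1 / (Nat.totient p.1 : ℝ) =
        ((PD R).filter (fun p => p.1 = r)).card * (1 / (Nat.totient r : ℝ)) := by
      rw [← nsmul_eq_mul, ← sum_const]
      refine sum_congr rfl fun p hp => ?_
      rw [(mem_filter.1 hp).2]
    have h3 : ((PD R).filter (fun p => p.1 = r)).card ≤ Nat.totient r := by
      have h4 : (PD R).filter (fun p => p.1 = r) ⊆
          (univ : Finset (DirichletCharacter ℂ r)).map (Function.Embedding.sigmaMk r) := by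
        rintro ⟨s, χ⟩ hp
        have h5 : s = r := (mem_filter.1 hp).2
        subst h5
        rw [mem_map]
        exact ⟨χ, mem_univ _, rfl⟩
      refine (card_le_card h4).trans ?_
      rw [card_map, card_univ, ← Nat.card_eq_fintype_card,
        DirichletCharacter.card_eq_totient_of_hasEnoughRootsOfUnity ℂ r]
    rw [h2, mul_one_div, div_le_one hφ]
    exact_mod_cast h3
  refine (sum_le_sum h1).trans ?_
  rw [sum_const, Nat.card_Ioc, nsmul_one]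
  have : 2 * R - R = R := by omega
  rw [this]

/-- partial summation -/
theorem ty1_abel (f : ℕ → ℂ) (B : ℝ) (hB : ∀ u v, ‖∑ n ∈ Ico u v, f n‖ ≤ B) (w : ℕ → ℝ)
    (hw0 : 0 ≤ w 1) (hmono : ∀ n, 1 ≤ n → w n ≤ w (n + 1)) (N : ℕ) (hN : 1 ≤ N) (v : ℕ)
    (hv : N + 1 ≤ v) :
    ‖∑ n ∈ Ico 1 (N + 1), (w n : ℂ) * f n + (w N : ℂ) * ∑ n ∈ Ico (N + 1) v, f n‖ ≤ w N * B := by
  induction N, hN using Nat.le_induction with
  | base =>
    have h1 : ∑ n ∈ Ico 1 (1 + 1), (w n : ℂ) * f n + (w 1 : ℂ) * ∑ n ∈ Ico (1 + 1) v, f n =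
        (w 1 : ℂ) * ∑ n ∈ Ico 1 v, f n := by
      rw [← sum_Ico_consecutive f (by norm_num : 1 ≤ 1 + 1) hv, mul_add]
      simp
    rw [h1, norm_mul, Complex.norm_real, Real.norm_of_nonneg hw0]
    exact mul_le_mul_of_nonneg_left (hB _ _) hw0
  | succ N hN ih =>
    have h1 : ∑ n ∈ Ico 1 (N + 1 + 1), (w n : ℂ) * f n +
        (w (N + 1) : ℂ) * ∑ n ∈ Ico (N + 1 + 1) v, f n =
        (∑ n ∈ Ico 1 (N + 1), (w n : ℂ) * f n + (w N : ℂ) * ∑ n ∈ Ico (N + 1) v, f n) +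
          ((w (N + 1) - w N : ℝ) : ℂ) * ∑ n ∈ Ico (N + 1) v, f n := by
      rw [sum_Ico_succ_top (by omega), ← sum_Ico_consecutive f (by omega : N + 1 ≤ N + 1 + 1) hv]
      have h2 : ∑ n ∈ Ico (N + 1) (N + 1 + 1), f n = f (N + 1) := by simp
      rw [h2]
      push_cast
      ring
    have h3 : 0 ≤ w (N + 1) - w N := by linarith [hmono N hN]
    rw [h1]
    refine (norm_add_le _ _).trans ?_
    have h4 : ‖((w (N + 1) - w N : ℝ) : ℂ) * ∑ n ∈ Ico (N + 1) v, f n‖ ≤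
        (w (N + 1) - w N) * B := by
      rw [norm_mul, Complex.norm_real, Real.norm_of_nonneg h3]
      exact mul_le_mul_of_nonneg_left (hB _ _) h3
    have h5 := ih (by omega)
    linarith

theorem ty1_inner (f : ℕ → ℂ) (B : ℝ) (hB : ∀ u v, ‖∑ n ∈ Ico u v, f n‖ ≤ B) (j : ℕ)
    (hj : j ≤ 1) (N : ℕ) (y : ℕ) (hNy : N ≤ y) (hy : 1 ≤ y) :
    ‖∑ n ∈ Ico 1 (N + 1), ((Real.log n ^ j : ℝ) : ℂ) * f n‖ ≤ (1 + Real.log y) * B := by
  have hB0 : 0 ≤ B := (norm_nonneg _).trans (hB 0 0)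
  have hly : 0 ≤ Real.log y := Real.log_nonneg (by exact_mod_cast hy)
  rcases Nat.eq_zero_or_pos N with rfl | hN
  · simp only [zero_add, Ico_self, sum_empty, norm_zero]
    positivity
  · have hmono : ∀ n : ℕ, 1 ≤ n → Real.log n ^ j ≤ Real.log ((n + 1 : ℕ) : ℝ) ^ j := by
      intro n hn
      have h1 : (1 : ℝ) ≤ n := by exact_mod_cast hn
      have h2 : Real.log n ≤ Real.log ((n + 1 : ℕ) : ℝ) :=
        Real.log_le_log (by linarith) (by push_cast; linarith)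
      exact pow_le_pow_left₀ (Real.log_nonneg h1) h2 j
    have h := ty1_abel f B hB (fun n => Real.log n ^ j) (by positivity) hmono N hN (N + 1) le_rfl
    rw [Ico_self, sum_empty, mul_zero, add_zero] at h
    refine h.trans (mul_le_mul_of_nonneg_right ?_ hB0)
    have h1 : (1 : ℝ) ≤ N := by exact_mod_cast hN
    have h2 : Real.log N ≤ Real.log y := Real.log_le_log (by linarith) (by exact_mod_cast hNy)
    have h3 := Real.log_nonneg h1
    interval_cases j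
    · rw [pow_zero]
      linarith
    · rw [pow_one]
      linarith

/-- Type I sums (`j = 0` or `1`).

Proof. For fixed `m ≤ U` the inner sum is `∑_{n ≤ y/m} (log n)^j χ(n)`, at most
`2 log y · C √(2R) log (2R)` by `polya_vinogradov` and partial summation (`log n = ∑_{k ≤ n}
(log k - log (k-1))`, monotone weights); `∑_{p ∈ PD R} 1/φ(p.1) ≤ R` (at most `φ(r)` primitive characters
for each `r ∈ (R, 2R]`, all nontrivial as `r > R ≥ 1`). -/
theorem ty1 : ∃ C : ℝ, 0 < C ∧ ∀ (R U y : ℕ), 1 ≤ R → 1 ≤ U → 2 ≤ y → R ≤ y → ∀ a : ℕ → ℂ,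
    (∀ m, 1 ≤ m → m ≤ U → ‖a m‖ ≤ 1 + Real.log y) → ∀ j : ℕ, j ≤ 1 →
    ∑ p ∈ PD R, 1 / (Nat.totient p.1 : ℝ) *
      ‖∑ m ∈ Icc 1 U, ∑ n ∈ (Icc 1 y).filter (fun n => m * n ≤ y),
        a m * ((Real.log n ^ j : ℝ) : ℂ) * p.2 ((m * n : ℕ) : ZMod p.1)‖ ≤
      C * Real.log y ^ 3 * U * (R : ℝ) ^ (3 / 2 : ℝ) := by
  obtain ⟨C₀, hC₀, hPV⟩ := polya_vinogradov
  refine ⟨40 * C₀, by positivity, ?_⟩
  intro R U y hR hU hy hRy a ha j hj
  have hy2 : (2 : ℝ) ≤ y := by exact_mod_cast hy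
  have hR1 : (1 : ℝ) ≤ R := by exact_mod_cast hR
  have hU1 : (1 : ℝ) ≤ U := by exact_mod_cast hU
  have hl2 := Real.log_two_gt_d9
  have hly : Real.log 2 ≤ Real.log y := Real.log_le_log (by norm_num) hy2
  obtain ⟨L, hL⟩ : ∃ L, L = Real.log y := ⟨_, rfl⟩
  have hL0 : 0.69 < L := by rw [hL]; linarith
  have hl2y : Real.log (2 * R) ≤ 2 * L := by
    have h1 : Real.log (2 * R) ≤ Real.log (2 * y) :=
      Real.log_le_log (by positivity) (by
        have : (R : ℝ) ≤ y := by exact_mod_cast hRy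
        linarith)
    rw [Real.log_mul (by norm_num : (2 : ℝ) ≠ 0) (by positivity : (y : ℝ) ≠ 0), ← hL] at h1
    rw [← hL] at hly
    linarith
  have hsq : Real.sqrt (2 * R) ≤ 3 / 2 * Real.sqrt R := by
    rw [Real.sqrt_mul (by norm_num)]
    refine mul_le_mul_of_nonneg_right ?_ (Real.sqrt_nonneg _)
    rw [Real.sqrt_le_left (by norm_num)]
    norm_num
  have hpt : ∀ p ∈ PD R, ‖∑ m ∈ Icc 1 U, ∑ n ∈ (Icc 1 y).filter (fun n => m * n ≤ y),
        a m * ((Real.log n ^ j : ℝ) : ℂ) * p.2 ((m * n : ℕ) : ZMod p.1)‖ ≤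
      U * ((1 + L) * ((1 + L) * (C₀ * (3 / 2 * Real.sqrt R) * (2 * L)))) := by
    intro p hp
    obtain ⟨hp1, hp2, hp3, hp4⟩ := ty1_mem.1 hp
    have hne : NeZero p.1 := ⟨by omega⟩
    have hB : ∀ u v : ℕ, ‖∑ n ∈ Ico u v, p.2 (n : ZMod p.1)‖ ≤
        C₀ * (3 / 2 * Real.sqrt R) * (2 * L) := by
      intro u v
      refine (hPV p.1 p.2 (by omega) hp3 u v).trans ?_
      have e1 : Real.sqrt p.1 ≤ 3 / 2 * Real.sqrt R :=
        (Real.sqrt_le_sqrt (by exact_mod_cast hp2)).trans hsq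
      have e2 : Real.log p.1 ≤ 2 * L :=
        (Real.log_le_log (by exact_mod_cast hp1) (by exact_mod_cast hp2)).trans hl2y
      have e3 : 0 ≤ Real.log p.1 := Real.log_nonneg (by exact_mod_cast hp1)
      gcongr
    refine (norm_sum_le _ _).trans ?_
    have hm : ∀ m ∈ Icc 1 U, ‖∑ n ∈ (Icc 1 y).filter (fun n => m * n ≤ y),
        a m * ((Real.log n ^ j : ℝ) : ℂ) * p.2 ((m * n : ℕ) : ZMod p.1)‖ ≤
        (1 + L) * ((1 + L) * (C₀ * (3 / 2 * Real.sqrt R) * (2 * L))) := by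
      intro m hm
      rw [mem_Icc] at hm
      have e1 : ∑ n ∈ (Icc 1 y).filter (fun n => m * n ≤ y),
          a m * ((Real.log n ^ j : ℝ) : ℂ) * p.2 ((m * n : ℕ) : ZMod p.1) =
          a m * p.2 (m : ZMod p.1) * ∑ n ∈ Ico 1 (y / m + 1),
            ((Real.log n ^ j : ℝ) : ℂ) * p.2 (n : ZMod p.1) := by
        rw [mul_sum]
        have e2 : (Icc 1 y).filter (fun n => m * n ≤ y) = Ico 1 (y / m + 1) := by
          ext n
          rw [mem_filter, mem_Icc, mem_Ico, Nat.lt_succ_iff, Nat.le_div_iff_mul_le (by omega)]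
          constructor
          · rintro ⟨⟨h1, -⟩, h2⟩
            exact ⟨h1, by rw [mul_comm]; exact h2⟩
          · rintro ⟨h1, h2⟩
            refine ⟨⟨h1, ?_⟩, by rw [mul_comm]; exact h2⟩
            nlinarith
        rw [e2]
        refine sum_congr rfl fun n _ => ?_
        rw [Nat.cast_mul, map_mul]
        ring
      rw [e1, norm_mul, norm_mul]
      have e3 : ‖p.2 (m : ZMod p.1)‖ ≤ 1 := DirichletCharacter.norm_le_one _ _
      have e4 := ha m hm.1 hm.2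
      rw [← hL] at e4
      have e5 := ty1_inner (fun n => p.2 (n : ZMod p.1)) _ hB j hj (y / m) y (Nat.div_le_self _ _)
        (by omega)
      rw [← hL] at e5
      have e6 : ‖a m‖ * ‖p.2 (m : ZMod p.1)‖ ≤ 1 + L :=
        calc _ ≤ (1 + L) * 1 := mul_le_mul e4 e3 (norm_nonneg _) (by linarith)
          _ = 1 + L := mul_one _
      exact mul_le_mul e6 e5 (norm_nonneg _) (by linarith)
    refine (sum_le_sum hm).trans ?_
    rw [sum_const, Nat.card_Icc, nsmul_eq_mul, Nat.add_sub_cancel]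
  have h1 : ∑ p ∈ PD R, 1 / (Nat.totient p.1 : ℝ) *
      ‖∑ m ∈ Icc 1 U, ∑ n ∈ (Icc 1 y).filter (fun n => m * n ≤ y),
        a m * ((Real.log n ^ j : ℝ) : ℂ) * p.2 ((m * n : ℕ) : ZMod p.1)‖ ≤
      R * (U * ((1 + L) * ((1 + L) * (C₀ * (3 / 2 * Real.sqrt R) * (2 * L))))) := by
    refine (sum_le_sum fun p hp => mul_le_mul_of_nonneg_left (hpt p hp) (by positivity)).trans ?_
    rw [← sum_mul]
    exact mul_le_mul_of_nonneg_right (ty1_count R) (by positivity)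
  refine h1.trans ?_
  have h2 : (R : ℝ) ^ (3 / 2 : ℝ) = R * Real.sqrt R := by
    rw [Real.sqrt_eq_rpow, ← Real.rpow_one_add' (by positivity) (by norm_num)]
    norm_num
  rw [h2, ← hL]
  have h3 : 1 + L ≤ 5 / 2 * L := by linarith
  have h4 : (1 + L) * (1 + L) ≤ (5 / 2 * L) * (5 / 2 * L) :=
    mul_le_mul h3 h3 (by linarith) (by linarith)
  have h5 : 0 ≤ (R : ℝ) * U * C₀ * Real.sqrt R * L := by positivity
  calc (R : ℝ) * (U * ((1 + L) * ((1 + L) * (C₀ * (3 / 2 * Real.sqrt R) * (2 * L)))))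
      = 3 * ((1 + L) * (1 + L)) * ((R : ℝ) * U * C₀ * Real.sqrt R * L) := by ring
    _ ≤ 3 * ((5 / 2 * L) * (5 / 2 * L)) * ((R : ℝ) * U * C₀ * Real.sqrt R * L) := by gcongr
    _ = 75 / 4 * (C₀ * L ^ 3 * U * (R * Real.sqrt R)) := by ring
    _ ≤ 40 * (C₀ * L ^ 3 * U * (R * Real.sqrt R)) := by
      have : 0 ≤ C₀ * L ^ 3 * U * (R * Real.sqrt R) := by positivity
      linarith
    _ = 40 * C₀ * L ^ 3 * U * (R * Real.sqrt R) := by ring

end Pool.Agent.Lib.H59C
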