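import Pool.Agent.Lib.H59C.BIL

/-!
# TY2: type II sums
-/

open Finset

namespace Pool.Agent.Lib.H59C

open Pool.Agent.Lib.H68T (PC p0 e)

/-- the dyadic piece of `n` above `R` -/
def ty2_dy (R n : ℕ) : ℕ := Nat.log 2 ((n - 1) / R)

theorem ty2_dy_spec {R n : ℕ} (hR : 1 ≤ R) (hn : R < n) :
    2 ^ ty2_dy R n * R < n ∧ n ≤ 2 * (2 ^ ty2_dy R n * R) := by
  have h1 : (n - 1) / R ≠ 0 := by
    have : 1 ≤ (n - 1) / R := (Nat.le_div_iff_mul_le (by omega)).2 (by omega)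
    omega
  have h2 : 2 ^ ty2_dy R n ≤ (n - 1) / R := Nat.pow_log_le_self 2 h1
  have h3 : (n - 1) / R < 2 ^ (ty2_dy R n + 1) := Nat.lt_pow_succ_log_self (by norm_num) _
  rw [Nat.le_div_iff_mul_le (by omega)] at h2
  rw [Nat.div_lt_iff_lt_mul (by omega), pow_succ] at h3
  constructor
  · omega
  · have : 2 ^ ty2_dy R n * 2 * R = 2 * (2 ^ ty2_dy R n * R) := by ring
    omega

theorem ty2_dy_lt {R n Q : ℕ} (hQ : n ≤ Q) : ty2_dy R n < Nat.log 2 Q + 1 := by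
  rw [Nat.lt_succ_iff]
  apply Nat.log_mono_right
  exact (Nat.div_le_self _ _).trans (by omega)

theorem ty2_log {Q : ℕ} (hQ : 2 ≤ Q) : ((Nat.log 2 Q + 1 : ℕ) : ℝ) ≤ 3 * Real.log Q := by
  have hQ2 : (2 : ℝ) ≤ Q := by exact_mod_cast hQ
  have hl2 := Real.log_two_gt_d9
  have h1 : ((2 : ℝ) ^ Nat.log 2 Q) ≤ Q := by
    exact_mod_cast Nat.pow_log_le_self 2 (by omega : Q ≠ 0)
  have h2 := Real.log_le_log (by positivity) h1
  rw [Real.log_pow] at h2
  have h3 := Real.log_le_log (by norm_num) hQ2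
  push_cast
  have h4 : (0 : ℝ) ≤ Nat.log 2 Q := Nat.cast_nonneg _
  nlinarith

theorem ty2_sqrt_add {x R : ℝ} (hx : 0 ≤ x) (hR : 0 ≤ R) :
    Real.sqrt (x + R ^ 2) ≤ Real.sqrt x + R := by
  rw [Real.sqrt_le_left (by positivity)]
  have h1 := Real.sq_sqrt hx
  have h2 : 0 ≤ Real.sqrt x * R := by positivity
  nlinarith

/-- the numerical estimate for one piece -/
theorem ty2_num {M y R A B N : ℝ} (hM : 1 ≤ M) (hy : 1 ≤ y) (hR : 1 ≤ R)
    (hA : 0 ≤ A) (hB : 0 ≤ B) (hN0 : 0 ≤ N) (hN : N ≤ y / M) (hAM : A ≤ 2 * M) (hBN : B ≤ y / M) :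
    Real.sqrt ((2 * M + R ^ 2) * (N + R ^ 2) * A * B) / R ≤
      2 * (y / R + Real.sqrt (y * M) + y / Real.sqrt M + R * Real.sqrt y) := by
  have hM0 : 0 < M := by linarith
  have hR0 : 0 < R := by linarith
  have hy0 : 0 < y := by linarith
  have hsM : Real.sqrt M * Real.sqrt M = M := Real.mul_self_sqrt hM0.le
  have hsy : Real.sqrt y * Real.sqrt y = y := Real.mul_self_sqrt hy0.le
  have hsM0 : 0 < Real.sqrt M := Real.sqrt_pos.2 hM0
  have hsy0 : 0 < Real.sqrt y := Real.sqrt_pos.2 hy0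
  have h2 : Real.sqrt 2 * Real.sqrt 2 = 2 := Real.mul_self_sqrt (by norm_num)
  have h20 : 0 < Real.sqrt 2 := Real.sqrt_pos.2 (by norm_num)
  have h22 : Real.sqrt 2 ≤ 2 := by
    rw [Real.sqrt_le_left (by norm_num)]
    norm_num
  have e1 : Real.sqrt (2 * M + R ^ 2) ≤ Real.sqrt 2 * Real.sqrt M + R := by
    have := ty2_sqrt_add (x := 2 * M) (R := R) (by positivity) hR0.le
    rwa [Real.sqrt_mul (by norm_num : (0 : ℝ) ≤ 2)] at this
  have e2 : Real.sqrt (N + R ^ 2) ≤ Real.sqrt y / Real.sqrt M + R := by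
    have h3 := ty2_sqrt_add (x := y / M) (R := R) (by positivity) hR0.le
    rw [Real.sqrt_div hy0.le] at h3
    exact (Real.sqrt_le_sqrt (by linarith)).trans h3
  have e3 : Real.sqrt (A * B) ≤ Real.sqrt 2 * Real.sqrt y := by
    rw [← Real.sqrt_mul (by norm_num : (0 : ℝ) ≤ 2)]
    apply Real.sqrt_le_sqrt
    calc A * B ≤ (2 * M) * (y / M) := mul_le_mul hAM hBN hB (by positivity)
      _ = 2 * y := by field_simp
  have e4 : Real.sqrt ((2 * M + R ^ 2) * (N + R ^ 2) * A * B) =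
      Real.sqrt (2 * M + R ^ 2) * Real.sqrt (N + R ^ 2) * Real.sqrt (A * B) := by
    rw [mul_assoc ((2 * M + R ^ 2) * (N + R ^ 2)), Real.sqrt_mul (by positivity),
      Real.sqrt_mul (by positivity)]
  rw [e4, div_le_iff₀ hR0]
  have e5 : Real.sqrt (2 * M + R ^ 2) * Real.sqrt (N + R ^ 2) * Real.sqrt (A * B) ≤
      (Real.sqrt 2 * Real.sqrt M + R) * (Real.sqrt y / Real.sqrt M + R) *
        (Real.sqrt 2 * Real.sqrt y) := by
    gcongr
  refine e5.trans ?_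
  have hym : Real.sqrt (y * M) = Real.sqrt y * Real.sqrt M := Real.sqrt_mul hy0.le _
  rw [hym]
  have e6 : (Real.sqrt 2 * Real.sqrt M + R) * (Real.sqrt y / Real.sqrt M + R) *
        (Real.sqrt 2 * Real.sqrt y) =
      (Real.sqrt 2 * Real.sqrt 2) * (Real.sqrt y * Real.sqrt y) +
      (Real.sqrt 2 * Real.sqrt 2) * R * (Real.sqrt y * Real.sqrt M) +
      Real.sqrt 2 * R * ((Real.sqrt y * Real.sqrt y) / Real.sqrt M) +
      Real.sqrt 2 * R ^ 2 * Real.sqrt y := by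
    field_simp
    ring
  rw [e6, h2, hsy]
  have e7 : 2 * (y / R + Real.sqrt y * Real.sqrt M + y / Real.sqrt M + R * Real.sqrt y) * R =
      2 * y + 2 * R * (Real.sqrt y * Real.sqrt M) + 2 * R * (y / Real.sqrt M) +
        2 * R ^ 2 * Real.sqrt y := by
    field_simp
  rw [e7]
  gcongr

/-- Type II sums: `m` in `(U, V]`, `n ≤ y/m` arbitrary.

Proof. Split `(U, V]` into at most `2 log y` dyadic pieces `(M, 2M]`, `U ≤ M ≤ V` (intersected with
`(U, V]`); there `n ≤ y/M =: N`; `bil` with `2M`, `N` gives at most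
`C L/R √((2M + R²)(y/M + R²) · 2M (1+L)² · (y/M)(1+L)²)`, `L = log y`, and
`√(y (M + R²)(y/M + R²)) ≤ √y (√y + R √M + R √(y/M) + R²)`, so (dividing by `R`)
`C' L³ (y/R + √(y M) + y/√M + R √y)`, where `M ≤ V`, `M ≥ U`. -/
theorem ty2 : ∃ C : ℝ, 0 < C ∧ ∀ (R U V y : ℕ), 1 ≤ R → 1 ≤ U → U ≤ V → V ≤ y → 2 ≤ y →
    ∀ α β : ℕ → ℂ, (∀ m, 1 ≤ m → m ≤ y → ‖α m‖ ≤ 1 + Real.log y) →
    (∀ m, 1 ≤ m → m ≤ y → ‖β m‖ ≤ 1 + Real.log y) →
    ∑ p ∈ PD R, 1 / (Nat.totient p.1 : ℝ) *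
      ‖∑ m ∈ Ioc U V, ∑ n ∈ (Icc 1 y).filter (fun n => m * n ≤ y),
        α m * β n * p.2 ((m * n : ℕ) : ZMod p.1)‖ ≤
      C * Real.log y ^ 5 * ((y : ℝ) / R + Real.sqrt ((y : ℝ) * V) + (y : ℝ) / Real.sqrt U +
        R * Real.sqrt y) := by
  classical
  obtain ⟨C₀, hC₀, hb⟩ := bil
  refine ⟨100 * C₀, by positivity, ?_⟩
  intro R U V y hR hU hUV hVy hy α β hα hβ
  have hy2 : (2 : ℝ) ≤ y := by exact_mod_cast hy
  have hl2 := Real.log_two_gt_d9
  have hly : Real.log 2 ≤ Real.log y := Real.log_le_log (by norm_num) hy2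
  have hdy := ty2_log hy
  obtain ⟨L, hL⟩ : ∃ L, L = Real.log y := ⟨_, rfl⟩
  rw [← hL] at hα hβ hly hdy ⊢
  have hL0 : 0.69 < L := by linarith
  have hRr : (1 : ℝ) ≤ R := by exact_mod_cast hR
  have hUr : (1 : ℝ) ≤ U := by exact_mod_cast hU
  obtain ⟨T, hT⟩ : ∃ T : ℝ, T = (y : ℝ) / R + Real.sqrt ((y : ℝ) * V) + (y : ℝ) / Real.sqrt U +
      R * Real.sqrt y := ⟨_, rfl⟩
  have hT0 : 0 ≤ T := by rw [hT]; positivity
  rw [← hT]
  -- the pieces
  obtain ⟨g, hg⟩ : ∃ g : PCh → ℕ → ℂ, ∀ p m, g p m = ∑ n ∈ (Icc 1 y).filter (fun n => m * n ≤ y),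
        α m * β n * p.2 ((m * n : ℕ) : ZMod p.1) := ⟨_, fun _ _ => rfl⟩
  simp only [← hg]
  have hmaps : ∀ m ∈ Ioc U V, ty2_dy U m ∈ range (Nat.log 2 y + 1) := by
    intro m hm
    rw [mem_Ioc] at hm
    rw [mem_range]
    exact ty2_dy_lt (hm.2.trans hVy)
  have hpiece : ∀ i ∈ range (Nat.log 2 y + 1), ∑ p ∈ PD R, 1 / (Nat.totient p.1 : ℝ) *
      ‖∑ m ∈ (Ioc U V).filter (fun m => ty2_dy U m = i), g p m‖ ≤
      C₀ * L * ((1 + L) ^ 2 * (2 * T)) := by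
    intro i _
    by_cases hi : 2 ^ i * U < V
    · obtain ⟨M, hMdef⟩ : ∃ M, M = 2 ^ i * U := ⟨_, rfl⟩
      rw [← hMdef] at hi
      have hUM : U ≤ M := by
        rw [hMdef]
        exact Nat.le_mul_of_pos_left _ (by positivity)
      have hM1 : 1 ≤ M := hU.trans hUM
      have hMr : (1 : ℝ) ≤ M := by exact_mod_cast hM1
      have hN1 : 1 ≤ y / M := (Nat.le_div_iff_mul_le (by omega)).2 (by omega)
      obtain ⟨α', hα'⟩ : ∃ α' : ℕ → ℂ, ∀ m, α' m =
          if m ∈ (Ioc U V).filter (fun m => ty2_dy U m = i) then α m else 0 := ⟨_, fun _ => rfl⟩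
      have h1 := hb R (2 * M) (y / M) y hR (by omega) hN1 hy α' β
      have hsub : (Ioc U V).filter (fun m => ty2_dy U m = i) ⊆ Icc 1 (2 * M) := by
        intro m hm
        rw [mem_filter, mem_Ioc] at hm
        have h6 := ty2_dy_spec hU hm.1.1
        rw [hm.2, ← hMdef] at h6
        rw [mem_Icc]
        exact ⟨by omega, h6.2⟩
      have heq : ∀ p : PCh, ∑ m ∈ Icc 1 (2 * M), ∑ n ∈ (Icc 1 (y / M)).filter (fun n => m * n ≤ y),
          α' m * β n * p.2 ((m * n : ℕ) : ZMod p.1) =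
          ∑ m ∈ (Ioc U V).filter (fun m => ty2_dy U m = i), g p m := by
        intro p
        rw [← sum_subset hsub (fun m _ hm => ?_)]
        · refine sum_congr rfl fun m hm => ?_
          rw [hg, hα', if_pos hm]
          refine sum_congr ?_ fun n _ => rfl
          rw [mem_filter, mem_Ioc] at hm
          have h6 := ty2_dy_spec hU hm.1.1
          rw [hm.2, ← hMdef] at h6
          ext n
          rw [mem_filter, mem_filter, mem_Icc, mem_Icc, Nat.le_div_iff_mul_le (by omega)]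
          constructor
          · rintro ⟨⟨h1, h2⟩, h3⟩
            refine ⟨⟨h1, ?_⟩, h3⟩
            nlinarith
          · rintro ⟨⟨h1, h2⟩, h3⟩
            refine ⟨⟨h1, ?_⟩, h3⟩
            have : n * M ≤ m * n := by rw [mul_comm m]; exact Nat.mul_le_mul_left n h6.1.le
            omega
        · rw [hα', if_neg hm]
          simp
      simp only [heq] at h1
      rw [← hL] at h1
      refine h1.trans ?_
      have hA : ∑ m ∈ Icc 1 (2 * M), ‖α' m‖ ^ 2 ≤ 2 * M * (1 + L) ^ 2 := by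
        have h2 : ∀ m ∈ Icc 1 (2 * M), ‖α' m‖ ^ 2 ≤ (1 + L) ^ 2 := by
          intro m _
          refine pow_le_pow_left₀ (norm_nonneg _) ?_ 2
          rw [hα']
          split_ifs with hm
          · rw [mem_filter, mem_Ioc] at hm
            exact hα m (by omega) (by omega)
          · rw [norm_zero]
            linarith
        refine (sum_le_sum h2).trans (le_of_eq ?_)
        rw [sum_const, Nat.card_Icc, nsmul_eq_mul, Nat.add_sub_cancel]
        push_cast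
        ring
      have hB : ∑ n ∈ Icc 1 (y / M), ‖β n‖ ^ 2 ≤ ((y / M : ℕ) : ℝ) * (1 + L) ^ 2 := by
        have h2 : ∀ m ∈ Icc 1 (y / M), ‖β m‖ ^ 2 ≤ (1 + L) ^ 2 := by
          intro m hm
          rw [mem_Icc] at hm
          exact pow_le_pow_left₀ (norm_nonneg _)
            (hβ m hm.1 (hm.2.trans (Nat.div_le_self _ _))) 2
        refine (sum_le_sum h2).trans (le_of_eq ?_)
        rw [sum_const, Nat.card_Icc, nsmul_eq_mul, Nat.add_sub_cancel]
      have hyM : ((y / M : ℕ) : ℝ) ≤ (y : ℝ) / M := Nat.cast_div_le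
      obtain ⟨A, hAdef⟩ : ∃ A, A = (∑ m ∈ Icc 1 (2 * M), ‖α' m‖ ^ 2) / (1 + L) ^ 2 := ⟨_, rfl⟩
      obtain ⟨B, hBdef⟩ : ∃ B, B = (∑ n ∈ Icc 1 (y / M), ‖β n‖ ^ 2) / (1 + L) ^ 2 := ⟨_, rfl⟩
      have hpos : 0 < (1 + L) ^ 2 := by positivity
      have hA0 : 0 ≤ A := by rw [hAdef]; positivity
      have hB0 : 0 ≤ B := by rw [hBdef]; positivity
      have hA1 : A ≤ 2 * M := by
        rw [hAdef, div_le_iff₀ hpos]
        exact hA
      have hB1 : B ≤ (y : ℝ) / M := by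
        rw [hBdef, div_le_iff₀ hpos]
        exact hB.trans (mul_le_mul_of_nonneg_right hyM hpos.le)
      have hAe : ∑ m ∈ Icc 1 (2 * M), ‖α' m‖ ^ 2 = A * (1 + L) ^ 2 := by
        rw [hAdef, div_mul_cancel₀ _ hpos.ne']
      have hBe : ∑ n ∈ Icc 1 (y / M), ‖β n‖ ^ 2 = B * (1 + L) ^ 2 := by
        rw [hBdef, div_mul_cancel₀ _ hpos.ne']
      have h3 := ty2_num (M := M) (y := y) (R := R) (A := A) (B := B) (N := ((y / M : ℕ) : ℝ)) hMr
        (by linarith) hRr hA0 hB0 (by positivity) hyM hA1 hB1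
      have h4 : Real.sqrt ((((2 * M : ℕ) : ℝ) + (R : ℝ) ^ 2) * (((y / M : ℕ) : ℝ) + (R : ℝ) ^ 2) *
          (∑ m ∈ Icc 1 (2 * M), ‖α' m‖ ^ 2) * ∑ n ∈ Icc 1 (y / M), ‖β n‖ ^ 2) =
          (1 + L) ^ 2 * Real.sqrt ((2 * M + (R : ℝ) ^ 2) * (((y / M : ℕ) : ℝ) + (R : ℝ) ^ 2) *
            A * B) := by
        rw [hAe, hBe]
        have e1 : (((2 * M : ℕ) : ℝ) + (R : ℝ) ^ 2) * (((y / M : ℕ) : ℝ) + (R : ℝ) ^ 2) *
            (A * (1 + L) ^ 2) * (B * (1 + L) ^ 2) = ((1 + L) ^ 2) ^ 2 *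
            ((2 * M + (R : ℝ) ^ 2) * (((y / M : ℕ) : ℝ) + (R : ℝ) ^ 2) * A * B) := by
          push_cast
          ring
        rw [e1, Real.sqrt_mul (by positivity), Real.sqrt_sq (by positivity)]
      have h5 : 2 * ((y : ℝ) / R + Real.sqrt (y * M) + y / Real.sqrt M + R * Real.sqrt y) ≤
          2 * T := by
        rw [hT]
        have hMV : (M : ℝ) ≤ V := by exact_mod_cast hi.le
        have hUM' : (U : ℝ) ≤ M := by exact_mod_cast hUM
        have hsU : 0 < Real.sqrt U := Real.sqrt_pos.2 (by linarith)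
        gcongr
      calc C₀ * L / R * Real.sqrt ((((2 * M : ℕ) : ℝ) + (R : ℝ) ^ 2) *
            (((y / M : ℕ) : ℝ) + (R : ℝ) ^ 2) *
            (∑ m ∈ Icc 1 (2 * M), ‖α' m‖ ^ 2) * ∑ n ∈ Icc 1 (y / M), ‖β n‖ ^ 2)
          = C₀ * L * ((1 + L) ^ 2 * (Real.sqrt ((2 * M + (R : ℝ) ^ 2) *
            (((y / M : ℕ) : ℝ) + (R : ℝ) ^ 2) * A * B) / R)) := by
            rw [h4]
            ring
        _ ≤ C₀ * L * ((1 + L) ^ 2 * (2 * T)) := by
            refine mul_le_mul_of_nonneg_left ?_ (by positivity)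
            exact mul_le_mul_of_nonneg_left (h3.trans h5) (by positivity)
    · have hempty : (Ioc U V).filter (fun m => ty2_dy U m = i) = ∅ := by
        rw [filter_eq_empty_iff]
        intro m hm h5
        rw [mem_Ioc] at hm
        have h6 := ty2_dy_spec hU hm.1
        rw [h5] at h6
        omega
      simp only [hempty, sum_empty, norm_zero, mul_zero, sum_const_zero]
      positivity
  have hsum : ∑ p ∈ PD R, 1 / (Nat.totient p.1 : ℝ) * ‖∑ m ∈ Ioc U V, g p m‖ ≤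
      ∑ i ∈ range (Nat.log 2 y + 1), ∑ p ∈ PD R, 1 / (Nat.totient p.1 : ℝ) *
        ‖∑ m ∈ (Ioc U V).filter (fun m => ty2_dy U m = i), g p m‖ := by
    rw [sum_comm]
    refine sum_le_sum fun p _ => ?_
    rw [← mul_sum]
    refine mul_le_mul_of_nonneg_left ?_ (by positivity)
    rw [← sum_fiberwise_of_maps_to hmaps]
    exact norm_sum_le _ _
  refine hsum.trans ((sum_le_sum hpiece).trans ?_)
  rw [sum_const, card_range, nsmul_eq_mul]
  refine (mul_le_mul_of_nonneg_right hdy (by positivity)).trans ?_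
  have h1 : (1 + L) ^ 2 ≤ 13 / 2 * L ^ 2 := by nlinarith
  have h2 : L ^ 4 ≤ 3 / 2 * L ^ 5 := by
    have : 0 ≤ L ^ 4 := by positivity
    nlinarith
  calc 3 * L * (C₀ * L * ((1 + L) ^ 2 * (2 * T))) = 6 * C₀ * L ^ 2 * T * (1 + L) ^ 2 := by ring
    _ ≤ 6 * C₀ * L ^ 2 * T * (13 / 2 * L ^ 2) := by gcongr
    _ = 39 * C₀ * T * L ^ 4 := by ring
    _ ≤ 39 * C₀ * T * (3 / 2 * L ^ 5) := by gcongr
    _ = 117 / 2 * (C₀ * L ^ 5 * T) := by ring
    _ ≤ 100 * (C₀ * L ^ 5 * T) := by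
      have : 0 ≤ C₀ * L ^ 5 * T := by positivity
      linarith
    _ = 100 * C₀ * L ^ 5 * T := by ring

end Pool.Agent.Lib.H59C
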