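import Pool.Agent.Lib.H68T.VA
import Pool.Agent.Lib.H59C.TY1
import Pool.Agent.Lib.H59C.TY2

/-!
# PSI: the sums of the von Mangoldt function over the characters of conductor in `(R, 2R]`
-/

open Finset

namespace Pool.Agent.Lib.H59C

open Pool.Agent.Lib.H68T (PC p0 e VAcut VArest VAcut_apply VArest_apply VA_identity VA_conv
  VA_cut_moeb_le VA_rest_moeb_le VA_coef_le VA_coef_supp VA_beta VA_beta_supp)

/-- Expansion of a convolution. -/
theorem PSI_conv (f g : ArithmeticFunction ℝ) (h : ℕ → ℂ) (y : ℕ) :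
    ∑ m ∈ Icc 1 y, (((f * g) m : ℝ) : ℂ) * h m =
      ∑ x ∈ Icc 1 y, ∑ n ∈ (Icc 1 y).filter (fun n => x * n ≤ y),
        ((f x : ℝ) : ℂ) * ((g n : ℝ) : ℂ) * h (x * n) := by
  have h1 := VA_conv f g h (y + 1) 1 (y + 1) le_rfl
  have h2 : Ico 1 (y + 1) = Icc 1 y := by
    ext m
    simp only [mem_Ico, mem_Icc]
    omega
  rw [h2] at h1
  rw [h1]
  have h3 : ∀ x ∈ Icc 1 (y + 1), x ∉ Icc 1 y →
      ∑ n ∈ (Icc 1 (y + 1)).filter (fun n => 1 ≤ x * n ∧ x * n < y + 1),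
        ((f x : ℝ) : ℂ) * ((g n : ℝ) : ℂ) * h (x * n) = 0 := by
    intro x hx hx'
    rw [mem_Icc] at hx hx'
    apply Finset.sum_eq_zero
    intro n hn
    exfalso
    rw [mem_filter, mem_Icc] at hn
    have hxy : x = y + 1 := by omega
    subst hxy
    nlinarith [hn.1.1, hn.2.2]
  rw [← Finset.sum_subset (fun x hx => by rw [mem_Icc] at hx ⊢; omega) h3]
  refine sum_congr rfl fun x hx => ?_
  rw [mem_Icc] at hx
  refine sum_congr ?_ fun _ _ => rfl
  ext n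
  simp only [mem_filter, mem_Icc]
  constructor
  · rintro ⟨⟨h4, h5⟩, h6, h7⟩
    have : n ≤ x * n := Nat.le_mul_of_pos_left n (by omega)
    exact ⟨⟨h4, by omega⟩, by omega⟩
  · rintro ⟨⟨h4, h5⟩, h6⟩
    have : 1 ≤ x * n := Nat.mul_pos hx.1 h4
    exact ⟨⟨h4, by omega⟩, this, by omega⟩

/-- Restriction of the range of the first variable. -/
theorem PSI_restrict (F : ℕ → ℕ → ℂ) (A B y : ℕ) (hB : B ≤ y)
    (h : ∀ x, 1 ≤ x → x ≤ y → ¬ (A < x ∧ x ≤ B) → ∀ n, 1 ≤ n → x * n ≤ y → F x n = 0) :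
    ∑ x ∈ Icc 1 y, ∑ n ∈ (Icc 1 y).filter (fun n => x * n ≤ y), F x n =
      ∑ x ∈ Ioc A B, ∑ n ∈ (Icc 1 y).filter (fun n => x * n ≤ y), F x n := by
  symm
  apply Finset.sum_subset
  · intro x hx
    rw [mem_Ioc] at hx
    rw [mem_Icc]
    omega
  · intro x hx hx'
    rw [mem_Icc] at hx
    rw [mem_Ioc] at hx'
    apply Finset.sum_eq_zero
    intro n hn
    rw [mem_filter, mem_Icc] at hn
    exact h x hx.1 hx.2 hx' n hn.1.1 hn.2

/-- the Moebius function as a real arithmetic function -/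
noncomputable def PSI_mu : ArithmeticFunction ℝ :=
  ((ArithmeticFunction.moebius : ArithmeticFunction ℤ) : ArithmeticFunction ℝ)

/-- the zeta function as a real arithmetic function -/
noncomputable def PSI_ze : ArithmeticFunction ℝ :=
  ((ArithmeticFunction.zeta : ArithmeticFunction ℕ) : ArithmeticFunction ℝ)

theorem PSI_decomp (U y : ℕ) (hU : 1 ≤ U) (hUy : U * U ≤ y) (p : PCh) :
    psi y p = ∑ m ∈ Icc 1 y, ((VAcut ArithmeticFunction.vonMangoldt U m : ℝ) : ℂ) *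
        p.2 (m : ZMod p.1) +
      ∑ m ∈ Icc 1 U, ∑ n ∈ (Icc 1 y).filter (fun n => m * n ≤ y),
        ((VAcut PSI_mu U m : ℝ) : ℂ) * ((Real.log n ^ 1 : ℝ) : ℂ) *
          p.2 ((m * n : ℕ) : ZMod p.1) -
      (∑ m ∈ Icc 1 U, ∑ n ∈ (Icc 1 y).filter (fun n => m * n ≤ y),
        (((VAcut PSI_mu U * VAcut ArithmeticFunction.vonMangoldt U) m : ℝ) : ℂ) *
          ((Real.log n ^ 0 : ℝ) : ℂ) * p.2 ((m * n : ℕ) : ZMod p.1) +
       ∑ m ∈ Ioc U (U * U), ∑ n ∈ (Icc 1 y).filter (fun n => m * n ≤ y),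
        (((VAcut PSI_mu U * VAcut ArithmeticFunction.vonMangoldt U) m : ℝ) : ℂ) *
          (1 : ℂ) * p.2 ((m * n : ℕ) : ZMod p.1)) +
      ∑ m ∈ Ioc U (y / U), ∑ n ∈ (Icc 1 y).filter (fun n => m * n ≤ y),
        ((VArest PSI_mu U m : ℝ) : ℂ) *
        (((VArest ArithmeticFunction.vonMangoldt U * PSI_ze) n : ℝ) : ℂ) *
          p.2 ((m * n : ℕ) : ZMod p.1) := by
  have hUU : U ≤ U * U := Nat.le_mul_of_pos_left U (by omega)
  have hid : ∀ m : ℕ, (ArithmeticFunction.vonMangoldt m : ℝ) =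
      VAcut ArithmeticFunction.vonMangoldt U m + (VAcut PSI_mu U * ArithmeticFunction.log) m -
      ((VAcut PSI_mu U * VAcut ArithmeticFunction.vonMangoldt U) * PSI_ze) m +
      (VArest PSI_mu U * (VArest ArithmeticFunction.vonMangoldt U * PSI_ze)) m := by
    intro m
    conv_lhs => rw [VA_identity U]
    rfl
  have h1 : psi y p = ∑ m ∈ Icc 1 y, ((VAcut ArithmeticFunction.vonMangoldt U m : ℝ) : ℂ) *
        p.2 (m : ZMod p.1) +
      ∑ m ∈ Icc 1 y, (((VAcut PSI_mu U * ArithmeticFunction.log) m : ℝ) : ℂ) *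
        p.2 (m : ZMod p.1) -
      ∑ m ∈ Icc 1 y, ((((VAcut PSI_mu U * VAcut ArithmeticFunction.vonMangoldt U) *
        PSI_ze) m : ℝ) : ℂ) * p.2 (m : ZMod p.1) +
      ∑ m ∈ Icc 1 y, (((VArest PSI_mu U * (VArest ArithmeticFunction.vonMangoldt U *
        PSI_ze)) m : ℝ) : ℂ) * p.2 (m : ZMod p.1) := by
    unfold psi
    rw [← Finset.sum_add_distrib, ← Finset.sum_sub_distrib, ← Finset.sum_add_distrib]
    refine sum_congr rfl fun m _ => ?_
    rw [hid m]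
    push_cast
    ring
  rw [h1]
  have h2 : ∑ m ∈ Icc 1 y, (((VAcut PSI_mu U * ArithmeticFunction.log) m : ℝ) : ℂ) *
        p.2 (m : ZMod p.1) =
      ∑ m ∈ Icc 1 U, ∑ n ∈ (Icc 1 y).filter (fun n => m * n ≤ y),
        ((VAcut PSI_mu U m : ℝ) : ℂ) * ((Real.log n ^ 1 : ℝ) : ℂ) *
          p.2 ((m * n : ℕ) : ZMod p.1) := by
    rw [PSI_conv (VAcut PSI_mu U) ArithmeticFunction.log (fun m => p.2 (m : ZMod p.1)) y,
      PSI_restrict _ 0 U y (by omega)]
    · have : Ioc 0 U = Icc 1 U := by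
        ext m
        simp only [mem_Ioc, mem_Icc]
        omega
      rw [this]
      refine sum_congr rfl fun m _ => sum_congr rfl fun n _ => ?_
      rw [ArithmeticFunction.log_apply, pow_one]
    · intro x hx1 hxy hx n _ _
      rw [VAcut_apply, if_neg (by omega)]
      simp
  have h3 : ∑ m ∈ Icc 1 y, ((((VAcut PSI_mu U * VAcut ArithmeticFunction.vonMangoldt U) *
        PSI_ze) m : ℝ) : ℂ) * p.2 (m : ZMod p.1) =
      ∑ m ∈ Icc 1 U, ∑ n ∈ (Icc 1 y).filter (fun n => m * n ≤ y),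
        (((VAcut PSI_mu U * VAcut ArithmeticFunction.vonMangoldt U) m : ℝ) : ℂ) *
          ((Real.log n ^ 0 : ℝ) : ℂ) * p.2 ((m * n : ℕ) : ZMod p.1) +
       ∑ m ∈ Ioc U (U * U), ∑ n ∈ (Icc 1 y).filter (fun n => m * n ≤ y),
        (((VAcut PSI_mu U * VAcut ArithmeticFunction.vonMangoldt U) m : ℝ) : ℂ) *
          (1 : ℂ) * p.2 ((m * n : ℕ) : ZMod p.1) := by
    rw [PSI_conv _ PSI_ze (fun m => p.2 (m : ZMod p.1)) y,
      PSI_restrict _ 0 (U * U) y hUy]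
    · have e1 : Ioc 0 (U * U) = Icc 1 U ∪ Ioc U (U * U) := by
        ext m
        simp only [mem_Ioc, mem_union, mem_Icc]
        omega
      have e2 : Disjoint (Icc 1 U) (Ioc U (U * U)) := by
        rw [Finset.disjoint_left]
        intro m hm hm'
        rw [mem_Icc] at hm
        rw [mem_Ioc] at hm'
        omega
      rw [e1, Finset.sum_union e2]
      congr 1
      · refine sum_congr rfl fun m _ => sum_congr rfl fun n hn => ?_
        rw [mem_filter, mem_Icc] at hn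
        have e3 : PSI_ze n = 1 := by
          unfold PSI_ze
          rw [ArithmeticFunction.natCoe_apply, ArithmeticFunction.zeta_apply_ne (by omega)]
          simp
        rw [e3, pow_zero]
      · refine sum_congr rfl fun m _ => sum_congr rfl fun n hn => ?_
        rw [mem_filter, mem_Icc] at hn
        have e3 : PSI_ze n = 1 := by
          unfold PSI_ze
          rw [ArithmeticFunction.natCoe_apply, ArithmeticFunction.zeta_apply_ne (by omega)]
          simp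
        rw [e3]
        push_cast
        ring
    · intro x hx1 hxy hx n _ _
      have e4 : (VAcut PSI_mu U * VAcut ArithmeticFunction.vonMangoldt U) x = 0 :=
        VA_coef_supp U x (by omega)
      rw [e4]
      simp
  have h4 : ∑ m ∈ Icc 1 y, (((VArest PSI_mu U * (VArest ArithmeticFunction.vonMangoldt U *
        PSI_ze)) m : ℝ) : ℂ) * p.2 (m : ZMod p.1) =
      ∑ m ∈ Ioc U (y / U), ∑ n ∈ (Icc 1 y).filter (fun n => m * n ≤ y),
        ((VArest PSI_mu U m : ℝ) : ℂ) *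
        (((VArest ArithmeticFunction.vonMangoldt U * PSI_ze) n : ℝ) : ℂ) *
          p.2 ((m * n : ℕ) : ZMod p.1) := by
    rw [PSI_conv _ _ (fun m => p.2 (m : ZMod p.1)) y,
      PSI_restrict _ U (y / U) y (Nat.div_le_self _ _)]
    intro x hx1 hxy hx n hn1 hxn
    by_cases hxU : x ≤ U
    · rw [VArest_apply, if_pos hxU]
      simp
    · have hx2 : y / U < x := by
        by_contra hcon
        exact hx ⟨by omega, by omega⟩
      have hn : n ≤ U := by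
        by_contra hcon
        have h5 : y < x * U := by
          rw [Nat.div_lt_iff_lt_mul (by omega)] at hx2
          exact hx2
        have h6 : x * U ≤ x * n := Nat.mul_le_mul_left x (by omega)
        omega
      have e4 : (VArest ArithmeticFunction.vonMangoldt U * PSI_ze) n = 0 :=
        VA_beta_supp U n hn
      rw [e4]
      simp
  rw [h2, h3, h4]

theorem PSI_norm_le_one (p : PCh) (x : ZMod p.1) : ‖p.2 x‖ ≤ 1 := DirichletCharacter.norm_le_one _ _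

theorem PSI_S0 (U y : ℕ) (p : PCh) :
    ‖∑ m ∈ Icc 1 y, ((VAcut ArithmeticFunction.vonMangoldt U m : ℝ) : ℂ) *
        p.2 (m : ZMod p.1)‖ ≤ U * Real.log y := by
  have hlog : 0 ≤ Real.log y := Real.log_natCast_nonneg y
  refine (norm_sum_le _ _).trans ?_
  have e1 : ∀ m ∈ Icc 1 y,
      ‖((VAcut ArithmeticFunction.vonMangoldt U m : ℝ) : ℂ) * p.2 (m : ZMod p.1)‖ ≤
        if m ≤ U then Real.log y else 0 := by
    intro m hm
    rw [mem_Icc] at hm
    rw [norm_mul, Complex.norm_real, Real.norm_eq_abs, VAcut_apply]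
    have hc := PSI_norm_le_one p (m : ZMod p.1)
    split_ifs with h
    · rw [abs_of_nonneg ArithmeticFunction.vonMangoldt_nonneg]
      calc ArithmeticFunction.vonMangoldt m * ‖p.2 (m : ZMod p.1)‖
          ≤ ArithmeticFunction.vonMangoldt m * 1 :=
            mul_le_mul_of_nonneg_left hc ArithmeticFunction.vonMangoldt_nonneg
        _ ≤ Real.log m := by rw [mul_one]; exact ArithmeticFunction.vonMangoldt_le_log
        _ ≤ Real.log y := Real.log_le_log (by exact_mod_cast hm.1) (by exact_mod_cast hm.2)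
    · simp
  refine (Finset.sum_le_sum e1).trans ?_
  rw [← Finset.sum_filter, Finset.sum_const, nsmul_eq_mul]
  refine mul_le_mul_of_nonneg_right ?_ hlog
  have : ((Icc 1 y).filter (fun m => m ≤ U)).card ≤ (Icc 1 U).card := by
    apply card_le_card
    intro m hm
    rw [mem_filter, mem_Icc] at hm
    rw [mem_Icc]; omega
  rw [Nat.card_Icc, Nat.add_sub_cancel] at this
  exact_mod_cast this

theorem PSI_real (Y : ℝ) (hY : 2 ≤ Y) : 1 ≤ 2 * Real.log Y := by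
  have h1 : Real.log 2 ≤ Real.log Y := Real.log_le_log (by norm_num) hY
  have := Real.log_two_gt_d9
  linarith

/-- The numerical estimates. -/
theorem PSI_num (C1 C2 : ℝ) (hC1 : 0 < C1) (hC2 : 0 < C2) (R y U : ℕ) (hR : 1 ≤ R)
    (hRy : R ^ 2 ≤ y) (hy : 2 ≤ y) (hU1 : 1 ≤ U) (hU2 : (U : ℝ) ≤ (y : ℝ) ^ (1 / 5 : ℝ))
    (hU3 : (y : ℝ) ^ (1 / 5 : ℝ) ≤ 2 * U) :
    (R : ℝ) * (U * Real.log y) + C1 * Real.log y ^ 3 * U * (R : ℝ) ^ (3 / 2 : ℝ) +
      (C1 * Real.log y ^ 3 * U * (R : ℝ) ^ (3 / 2 : ℝ) +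
       C2 * Real.log y ^ 5 * ((y : ℝ) / R + Real.sqrt ((y : ℝ) * (U * U : ℕ)) +
        (y : ℝ) / Real.sqrt U + R * Real.sqrt y)) +
      C2 * Real.log y ^ 5 * ((y : ℝ) / R + Real.sqrt ((y : ℝ) * (y / U : ℕ)) +
        (y : ℝ) / Real.sqrt U + R * Real.sqrt y) ≤
      (64 + 32 * C1 + 16 * C2) * Real.log y ^ 6 *
        ((y : ℝ) / R + (y : ℝ) ^ (19 / 20 : ℝ) + R * Real.sqrt y) := by
  have hR0 : (0 : ℝ) < R := by exact_mod_cast hR
  have hy0 : (0 : ℝ) < y := by exact_mod_cast (by omega : 0 < y)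
  have hy1 : (1 : ℝ) ≤ y := by exact_mod_cast (by omega : 1 ≤ y)
  have hU0 : (0 : ℝ) < U := by exact_mod_cast hU1
  set L := Real.log y with hL
  have hL1 : 1 ≤ 2 * L := PSI_real y (by exact_mod_cast hy)
  have hL0 : 0 < L := by linarith
  set W := (y : ℝ) ^ (19 / 20 : ℝ) with hW
  have hW0 : 0 < W := Real.rpow_pos_of_pos hy0 _
  have mono : ∀ a : ℝ, a ≤ 19 / 20 → (y : ℝ) ^ a ≤ W := fun a ha =>
    Real.rpow_le_rpow_of_exponent_le hy1 ha
  -- R ≤ y^(1/2)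
  have hRh : (R : ℝ) ≤ (y : ℝ) ^ (1 / 2 : ℝ) := by
    rw [← Real.sqrt_eq_rpow]
    apply Real.le_sqrt_of_sq_le
    exact_mod_cast hRy
  have hRU : (R : ℝ) * U ≤ W := by
    calc (R : ℝ) * U ≤ (y : ℝ) ^ (1 / 2 : ℝ) * (y : ℝ) ^ (1 / 5 : ℝ) := by gcongr
      _ = (y : ℝ) ^ (1 / 2 + 1 / 5 : ℝ) := (Real.rpow_add hy0 _ _).symm
      _ ≤ W := mono _ (by norm_num)
  have hUR : (U : ℝ) * (R : ℝ) ^ (3 / 2 : ℝ) ≤ W := by
    calc (U : ℝ) * (R : ℝ) ^ (3 / 2 : ℝ) ≤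
        (y : ℝ) ^ (1 / 5 : ℝ) * ((y : ℝ) ^ (1 / 2 : ℝ)) ^ (3 / 2 : ℝ) := by gcongr
      _ = (y : ℝ) ^ (1 / 5 : ℝ) * (y : ℝ) ^ (1 / 2 * (3 / 2) : ℝ) := by
          rw [← Real.rpow_mul hy0.le]
      _ = (y : ℝ) ^ (1 / 5 + 1 / 2 * (3 / 2) : ℝ) := (Real.rpow_add hy0 _ _).symm
      _ ≤ W := mono _ (by norm_num)
  have hs1 : Real.sqrt ((y : ℝ) * (U * U : ℕ)) ≤ W := by
    have : Real.sqrt ((y : ℝ) * (U * U : ℕ)) = (y : ℝ) ^ (1 / 2 : ℝ) * U := by
      push_cast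
      rw [Real.sqrt_mul hy0.le, Real.sqrt_mul_self hU0.le, Real.sqrt_eq_rpow]
    rw [this]
    calc (y : ℝ) ^ (1 / 2 : ℝ) * U ≤ (y : ℝ) ^ (1 / 2 : ℝ) * (y : ℝ) ^ (1 / 5 : ℝ) := by gcongr
      _ = (y : ℝ) ^ (1 / 2 + 1 / 5 : ℝ) := (Real.rpow_add hy0 _ _).symm
      _ ≤ W := mono _ (by norm_num)
  have hs2 : (y : ℝ) / Real.sqrt U ≤ 2 * W := by
    have hsU : 0 < Real.sqrt U := Real.sqrt_pos.mpr hU0
    rw [div_le_iff₀ hsU]
    have h1 : (y : ℝ) ^ (1 / 10 : ℝ) ≤ 2 * Real.sqrt U := by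
      have h2 : (y : ℝ) ^ (1 / 10 : ℝ) = Real.sqrt ((y : ℝ) ^ (1 / 5 : ℝ)) := by
        rw [Real.sqrt_eq_rpow, ← Real.rpow_mul hy0.le]
        norm_num
      rw [h2]
      calc Real.sqrt ((y : ℝ) ^ (1 / 5 : ℝ)) ≤ Real.sqrt (2 ^ 2 * U) := by
            apply Real.sqrt_le_sqrt
            linarith
        _ = 2 * Real.sqrt U := by
            rw [Real.sqrt_mul (by norm_num), Real.sqrt_sq (by norm_num)]
    have h3 : (y : ℝ) = (y : ℝ) ^ (9 / 10 : ℝ) * (y : ℝ) ^ (1 / 10 : ℝ) := by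
      rw [← Real.rpow_add hy0]
      norm_num
    have h4 : (y : ℝ) ^ (9 / 10 : ℝ) ≤ W := mono _ (by norm_num)
    calc (y : ℝ) = (y : ℝ) ^ (9 / 10 : ℝ) * (y : ℝ) ^ (1 / 10 : ℝ) := h3
      _ ≤ W * (2 * Real.sqrt U) := by gcongr
      _ = 2 * W * Real.sqrt U := by ring
  have hs3 : Real.sqrt ((y : ℝ) * (y / U : ℕ)) ≤ 2 * W := by
    refine le_trans ?_ hs2
    have h1 : ((y / U : ℕ) : ℝ) ≤ (y : ℝ) / U := Nat.cast_div_le
    calc Real.sqrt ((y : ℝ) * (y / U : ℕ)) ≤ Real.sqrt (y ^ 2 / U) := by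
          apply Real.sqrt_le_sqrt
          calc (y : ℝ) * (y / U : ℕ) ≤ y * (y / U) := by gcongr
            _ = (y : ℝ) ^ 2 / U := by ring
      _ = (y : ℝ) / Real.sqrt U := by
          rw [Real.sqrt_div (by positivity), Real.sqrt_sq hy0.le]
  set S := (y : ℝ) / R + W + R * Real.sqrt y with hS
  have hyR : 0 ≤ (y : ℝ) / R := by positivity
  have hRs : 0 ≤ R * Real.sqrt y := by positivity
  have hWS : W ≤ S := by linarith
  have hS0 : 0 < S := lt_of_lt_of_le hW0 hWS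
  have hL6a : L ≤ 32 * L ^ 6 := by
    have : (1 : ℝ) ≤ (2 * L) ^ 5 := one_le_pow₀ hL1
    nlinarith
  have hL6b : L ^ 3 ≤ 8 * L ^ 6 := by
    have h1 : (1 : ℝ) ≤ (2 * L) ^ 3 := one_le_pow₀ hL1
    have h2 : 0 < L ^ 3 := by positivity
    nlinarith
  have hL6c : L ^ 5 ≤ 2 * L ^ 6 := by
    have h2 : 0 < L ^ 5 := by positivity
    nlinarith
  have t1 : (R : ℝ) * (U * L) ≤ 32 * (L ^ 6 * S) := by
    calc (R : ℝ) * (U * L) = (R * U) * L := by ring
      _ ≤ S * (32 * L ^ 6) := by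
          apply mul_le_mul (hRU.trans hWS) hL6a hL0.le hS0.le
      _ = 32 * (L ^ 6 * S) := by ring
  have t2 : C1 * L ^ 3 * U * (R : ℝ) ^ (3 / 2 : ℝ) ≤ 8 * C1 * (L ^ 6 * S) := by
    calc C1 * L ^ 3 * U * (R : ℝ) ^ (3 / 2 : ℝ) = C1 * (L ^ 3 * (U * (R : ℝ) ^ (3 / 2 : ℝ))) := by
          ring
      _ ≤ C1 * ((8 * L ^ 6) * S) := by
          apply mul_le_mul_of_nonneg_left _ hC1.le
          apply mul_le_mul hL6b (hUR.trans hWS) (by positivity) (by positivity)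
      _ = 8 * C1 * (L ^ 6 * S) := by ring
  have t3 : ∀ Z : ℝ, Z ≤ 4 * S → C2 * L ^ 5 * Z ≤ 8 * C2 * (L ^ 6 * S) := by
    intro Z hZ
    calc C2 * L ^ 5 * Z ≤ C2 * L ^ 5 * (4 * S) := by
          apply mul_le_mul_of_nonneg_left hZ (by positivity)
      _ = 4 * C2 * (L ^ 5 * S) := by ring
      _ ≤ 4 * C2 * ((2 * L ^ 6) * S) := by
          apply mul_le_mul_of_nonneg_left _ (by positivity)
          exact mul_le_mul_of_nonneg_right hL6c hS0.le
      _ = 8 * C2 * (L ^ 6 * S) := by ring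
  have t4 := t3 ((y : ℝ) / R + Real.sqrt ((y : ℝ) * (U * U : ℕ)) + (y : ℝ) / Real.sqrt U +
    R * Real.sqrt y) (by linarith)
  have t5 := t3 ((y : ℝ) / R + Real.sqrt ((y : ℝ) * (y / U : ℕ)) + (y : ℝ) / Real.sqrt U +
    R * Real.sqrt y) (by linarith)
  have hLS : 0 < L ^ 6 * S := by positivity
  nlinarith

/-- The bilinear estimate for `ψ(y, χ)`.

Proof. Vaughan's identity `H68T.VA_identity` with `U = ⌊y^(1/5)⌋`: `Λ` is the sum of
`cut Λ` (at most `U log y` for each character, in total `≤ R U log y ≤ y^(7/10) log y`, `ty1_count`),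
`cut μ * log` (`ty1`, `j = 1`), `-(cut μ * cut Λ) * ζ`, whose part with `m ≤ U` is `ty1`, `j = 0`, and whose
part with `U < m ≤ U²` is `ty2` with `V = U²`, `β = 1` (`VA_coef_le`, `VA_coef_supp`), and
`rest μ * (rest Λ * ζ)`: `m > U`, `n > U`, so `m ≤ y/U =: V` (`VA_beta`, `VA_beta_supp`), again `ty2`.
`U R^(3/2) ≤ y^(1/5 + 3/4) = y^(19/20)` since `R² ≤ y`; `√(y U²) ≤ y^(7/10)`, `√(y · y/U)`,
`y/√U ≤ 2 y^(9/10)`. For small `y` increase `C`. (`VA_conv` expands a convolution.) -/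
theorem psi_dyad : ∃ C : ℝ, 0 < C ∧ ∀ (R y : ℕ), 1 ≤ R → R ^ 2 ≤ y → 2 ≤ y →
    ∑ p ∈ PD R, 1 / (Nat.totient p.1 : ℝ) * ‖psi y p‖ ≤
      C * Real.log y ^ 6 * ((y : ℝ) / R + (y : ℝ) ^ (19 / 20 : ℝ) + R * Real.sqrt y) := by
  obtain ⟨C1, hC1, ht1⟩ := ty1
  obtain ⟨C2, hC2, ht2⟩ := ty2
  refine ⟨64 + 32 * C1 + 16 * C2, by positivity, ?_⟩
  intro R y hR hRy hy
  have hy0 : (0 : ℝ) < y := by exact_mod_cast (by omega : 0 < y)
  have hy1 : (1 : ℝ) ≤ y := by exact_mod_cast (by omega : 1 ≤ y)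
  set x := (y : ℝ) ^ (1 / 5 : ℝ) with hx
  have hx1 : 1 ≤ x := Real.one_le_rpow hy1 (by norm_num)
  set U := ⌊x⌋₊ with hU
  have hU1 : 1 ≤ U := Nat.le_floor (by exact_mod_cast hx1)
  have hU2 : (U : ℝ) ≤ x := Nat.floor_le (by linarith)
  have hU3 : x ≤ 2 * U := by
    have h1 : x < U + 1 := Nat.lt_floor_add_one x
    have h2 : (1 : ℝ) ≤ U := by exact_mod_cast hU1
    linarith
  have hUy : U * U ≤ y := by
    have h1 : (U : ℝ) * U ≤ y := by
      calc (U : ℝ) * U ≤ x * x := by gcongr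
        _ = (y : ℝ) ^ (1 / 5 + 1 / 5 : ℝ) := by rw [hx, ← Real.rpow_add hy0]
        _ ≤ (y : ℝ) ^ (1 : ℝ) := Real.rpow_le_rpow_of_exponent_le hy1 (by norm_num)
        _ = y := Real.rpow_one _
    exact_mod_cast h1
  have hRy' : R ≤ y := le_trans (by nlinarith : R ≤ R ^ 2) hRy
  have hUU : U ≤ U * U := Nat.le_mul_of_pos_left U (by omega)
  have hUV : U ≤ y / U := (Nat.le_div_iff_mul_le (by omega)).mpr hUy
  have hlog : 0 ≤ Real.log y := Real.log_natCast_nonneg y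
  have hlogm : ∀ m : ℕ, 1 ≤ m → m ≤ y → Real.log m ≤ 1 + Real.log y := by
    intro m h1 h2
    have := Real.log_le_log (by exact_mod_cast h1 : (0 : ℝ) < m) (by exact_mod_cast h2 : (m : ℝ) ≤ y)
    linarith
  have b1 := ht1 R U y hR hU1 hy hRy' (fun m => ((VAcut PSI_mu U m : ℝ) : ℂ)) (by
    intro m _ _
    rw [Complex.norm_real, Real.norm_eq_abs]
    have h1 : |VAcut PSI_mu U m| ≤ 1 := VA_cut_moeb_le U m
    linarith) 1 le_rfl
  have b2 := ht1 R U y hR hU1 hy hRy'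
    (fun m => (((VAcut PSI_mu U * VAcut ArithmeticFunction.vonMangoldt U) m : ℝ) : ℂ)) (by
    intro m hm1 hm2
    rw [Complex.norm_real, Real.norm_eq_abs]
    have h1 : |(VAcut PSI_mu U * VAcut ArithmeticFunction.vonMangoldt U) m| ≤ Real.log m :=
      VA_coef_le U m
    exact h1.trans (hlogm m hm1 (by omega))) 0 (by omega)
  have b3 := ht2 R U (U * U) y hR hU1 hUU hUy hy
    (fun m => (((VAcut PSI_mu U * VAcut ArithmeticFunction.vonMangoldt U) m : ℝ) : ℂ))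
    (fun _ => 1) (by
    intro m hm1 hm2
    rw [Complex.norm_real, Real.norm_eq_abs]
    have h1 : |(VAcut PSI_mu U * VAcut ArithmeticFunction.vonMangoldt U) m| ≤ Real.log m :=
      VA_coef_le U m
    exact h1.trans (hlogm m hm1 (by omega))) (by
    intro m _ _
    rw [norm_one]
    linarith)
  have b4 := ht2 R U (y / U) y hR hU1 hUV (Nat.div_le_self _ _) hy
    (fun m => ((VArest PSI_mu U m : ℝ) : ℂ))
    (fun n => (((VArest ArithmeticFunction.vonMangoldt U * PSI_ze) n : ℝ) : ℂ)) (by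
    intro m _ _
    rw [Complex.norm_real, Real.norm_eq_abs]
    have h1 : |VArest PSI_mu U m| ≤ 1 := VA_rest_moeb_le U m
    linarith) (by
    intro m hm1 hm2
    rw [Complex.norm_real, Real.norm_eq_abs]
    have h1 : |(VArest ArithmeticFunction.vonMangoldt U * PSI_ze) m| ≤ Real.log m :=
      VA_beta U m
    exact h1.trans (hlogm m hm1 hm2))
  have b0 : ∑ p ∈ PD R, 1 / (Nat.totient p.1 : ℝ) *
      ‖∑ m ∈ Icc 1 y, ((VAcut ArithmeticFunction.vonMangoldt U m : ℝ) : ℂ) *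
        p.2 (m : ZMod p.1)‖ ≤ (R : ℝ) * (U * Real.log y) := by
    calc _ ≤ ∑ p ∈ PD R, 1 / (Nat.totient p.1 : ℝ) * (U * Real.log y) := by
          refine sum_le_sum fun p _ => ?_
          exact mul_le_mul_of_nonneg_left (PSI_S0 U y p) (by positivity)
      _ = (∑ p ∈ PD R, 1 / (Nat.totient p.1 : ℝ)) * (U * Real.log y) := by
          rw [Finset.sum_mul]
      _ ≤ R * (U * Real.log y) :=
          mul_le_mul_of_nonneg_right (ty1_count R) (by positivity)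
  refine le_trans ?_ (PSI_num C1 C2 hC1 hC2 R y U hR hRy hy hU1 hU2 hU3)
  refine le_trans ?_ (add_le_add (add_le_add (add_le_add b0 b1) (add_le_add b2 b3)) b4)
  rw [← Finset.sum_add_distrib, ← Finset.sum_add_distrib, ← Finset.sum_add_distrib,
    ← Finset.sum_add_distrib]
  refine sum_le_sum fun p _ => ?_
  rw [PSI_decomp U y hU1 hUy p, ← mul_add, ← mul_add, ← mul_add, ← mul_add]
  refine mul_le_mul_of_nonneg_left ?_ (by positivity)
  refine (norm_add_le _ _).trans (add_le_add ?_ le_rfl)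
  refine (norm_sub_le _ _).trans (add_le_add ?_ (norm_add_le _ _))
  exact norm_add_le _ _

end Pool.Agent.Lib.H59C
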