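import Pool.Agent.Lib.H59C.Defs

/-!
# RW1: the recursion of Rosser's weights
-/

open Finset

namespace Pool.Agent.Lib.H59C

theorem RW1_lam (b : Bool) (D : ℝ) (p : ℕ) (t : Finset ℕ) (ht : ∀ q ∈ t, q < p) :
    lamR b D (insert p t) =
      if (b = true → (p : ℝ) ^ 3 < D) then -lamR (!b) (D / p) t else 0 := by
  classical
  have hp : p ∉ t := fun h => lt_irrefl _ (ht p h)
  have hs : (insert p t).sort (· ≥ ·) = p :: t.sort (· ≥ ·) :=
    Finset.sort_insert _ (fun q hq => (ht q hq).le) hp
  unfold lamR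
  rw [hs, Finset.card_insert_of_notMem hp, pow_succ]
  cases b with
  | true =>
    simp only [adm, Bool.not_true, true_implies]
    by_cases h1 : (p : ℝ) ^ 3 < D
    · by_cases h2 : adm false (D / p) (t.sort (· ≥ ·))
      · simp [h1, h2]
      · simp [h1, h2]
    · simp [h1]
  | false =>
    simp only [adm, Bool.not_false, Bool.false_eq_true, false_implies, if_true]
    by_cases h2 : adm true (D / p) (t.sort (· ≥ ·))
    · simp [h2]
    · simp [h2]

theorem RW1_empty (b : Bool) (D : ℝ) (h : ℕ → ℝ) : SS b D ∅ h = 1 := by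
  unfold SS lamR
  simp [adm]

/-- Split the sum over `A ⊆ P` according to the largest element `p` of `A` (`A = ∅` gives `1`):
`A = {p} ∪ A'`, `A' ⊆ {q ∈ P : q < p}`, the decreasing list of `A` is `p ::` that of `A'`, so
`λ_b,D(A) = - [b = true → p³ < D] λ_(!b),D/p(A')` by the definition of `adm`. -/
theorem SS_rec (b : Bool) (D : ℝ) (P : Finset ℕ) (h : ℕ → ℝ) :
    SS b D P h = 1 - ∑ p ∈ P.filter (fun p : ℕ => b = true → (p : ℝ) ^ 3 < D),
      h p * SS (!b) (D / p) (P.filter (fun q => q < p)) h := by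
  classical
  induction P using Finset.induction_on_max with
  | empty => simp [RW1_empty]
  | insert p P hP ih =>
    have hp : p ∉ P := fun hq => lt_irrefl _ (hP p hq)
    have e1 : SS b D (insert p P) h = SS b D P h +
        ∑ t ∈ P.powerset, lamR b D (insert p t) * ∏ q ∈ insert p t, h q := by
      unfold SS
      rw [Finset.sum_powerset_insert hp]
    have e2 : ∑ t ∈ P.powerset, lamR b D (insert p t) * ∏ q ∈ insert p t, h q =
        if (b = true → (p : ℝ) ^ 3 < D) then -(h p * SS (!b) (D / p) P h) else 0 := by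
      have e3 : ∀ t ∈ P.powerset, lamR b D (insert p t) * ∏ q ∈ insert p t, h q =
          if (b = true → (p : ℝ) ^ 3 < D) then
            -(h p * (lamR (!b) (D / p) t * ∏ q ∈ t, h q)) else 0 := by
        intro t ht
        rw [Finset.mem_powerset] at ht
        have h1 : ∀ q ∈ t, q < p := fun q hq => hP q (ht hq)
        rw [RW1_lam b D p t h1, Finset.prod_insert (fun hh => hp (ht hh))]
        split_ifs
        · ring
        · ring
      rw [Finset.sum_congr rfl e3]
      split_ifs with hc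
      · rw [Finset.sum_neg_distrib, ← Finset.mul_sum]
        rfl
      · simp
    have e4 : (insert p P).filter (fun q => q < p) = P := by
      rw [Finset.filter_insert, if_neg (lt_irrefl p)]
      exact Finset.filter_true_of_mem hP
    have e5 : ∀ p' ∈ P, (insert p P).filter (fun q => q < p') = P.filter (fun q => q < p') := by
      intro p' hp'
      rw [Finset.filter_insert, if_neg (not_lt.2 (hP p' hp').le)]
    rw [e1, e2, ih, Finset.filter_insert]
    split_ifs with hc
    · rw [Finset.sum_insert (fun hh => hp (Finset.mem_filter.1 hh).1), e4]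
      have e6 : ∑ x ∈ P.filter (fun p : ℕ => b = true → (p : ℝ) ^ 3 < D),
          h x * SS (!b) (D / x) ((insert p P).filter (fun q => q < x)) h =
          ∑ x ∈ P.filter (fun p : ℕ => b = true → (p : ℝ) ^ 3 < D),
          h x * SS (!b) (D / x) (P.filter (fun q => q < x)) h :=
        Finset.sum_congr rfl fun x hx => by rw [e5 x (Finset.mem_filter.1 hx).1]
      rw [e6]
      ring
    · have e6 : ∑ x ∈ P.filter (fun p : ℕ => b = true → (p : ℝ) ^ 3 < D),
          h x * SS (!b) (D / x) ((insert p P).filter (fun q => q < x)) h =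
          ∑ x ∈ P.filter (fun p : ℕ => b = true → (p : ℝ) ^ 3 < D),
          h x * SS (!b) (D / x) (P.filter (fun q => q < x)) h :=
        Finset.sum_congr rfl fun x hx => by rw [e5 x (Finset.mem_filter.1 hx).1]
      rw [e6]
      ring

/-- If `h` is the indicator function of `T ⊆ P` only the `A ⊆ T` count. -/
theorem SS_restrict (b : Bool) (D : ℝ) (P T : Finset ℕ) (hT : T ⊆ P) :
    SS b D P (fun q => if q ∈ T then 1 else 0) = SS b D T (fun _ => 1) := by
  classical
  unfold SS
  symm
  have h1 : ∑ A ∈ T.powerset, lamR b D A * ∏ q ∈ A, (fun _ : ℕ => (1 : ℝ)) q =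
      ∑ A ∈ T.powerset, lamR b D A * ∏ q ∈ A, (fun q => if q ∈ T then (1 : ℝ) else 0) q := by
    refine Finset.sum_congr rfl fun A hA => ?_
    rw [Finset.mem_powerset] at hA
    congr 1
    exact Finset.prod_congr rfl fun q hq => by simp [hA hq]
  rw [h1]
  refine Finset.sum_subset (Finset.powerset_mono.2 hT) ?_
  intro A _ hA
  rw [Finset.mem_powerset, Finset.not_subset] at hA
  obtain ⟨q, hq, hqT⟩ := hA
  rw [Finset.prod_eq_zero hq (by simp [hqT]), mul_zero]

/-- For the upper bound sieve only the `p` with `p³ < D` matter: if `y³ = D`, `y ≤ z`, then the sum over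
the subsets of `{q < z}` is the sum over the subsets of `{q < y}`. -/
theorem SS_cut (D y z : ℝ) (P : Finset ℕ) (h : ℕ → ℝ) (hy : y ^ 3 = D) (hy0 : 0 ≤ y) (hyz : y ≤ z) :
    SS true D (P.filter (fun q : ℕ => (q : ℝ) < z)) h =
      SS true D (P.filter (fun q : ℕ => (q : ℝ) < y)) h := by
  rw [SS_rec true D (P.filter (fun q : ℕ => (q : ℝ) < z)),
    SS_rec true D (P.filter (fun q : ℕ => (q : ℝ) < y))]
  have hlt : ∀ p : ℕ, (p : ℝ) ^ 3 < D → (p : ℝ) < y := fun p hp =>
    lt_of_pow_lt_pow_left₀ 3 hy0 (by rw [hy]; exact hp)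
  have e1 : (P.filter (fun q : ℕ => (q : ℝ) < z)).filter
      (fun p : ℕ => true = true → (p : ℝ) ^ 3 < D) =
      (P.filter (fun q : ℕ => (q : ℝ) < y)).filter
      (fun p : ℕ => true = true → (p : ℝ) ^ 3 < D) := by
    ext p
    simp only [Finset.mem_filter, true_implies]
    constructor
    · rintro ⟨⟨h1, _⟩, h3⟩
      exact ⟨⟨h1, hlt p h3⟩, h3⟩
    · rintro ⟨⟨h1, h2⟩, h3⟩
      exact ⟨⟨h1, h2.trans_le hyz⟩, h3⟩
  rw [e1]
  congr 1
  refine Finset.sum_congr rfl fun p hp => ?_
  simp only [Finset.mem_filter, true_implies] at hp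
  have hpy : (p : ℝ) < y := hp.1.2
  have e2 : (P.filter (fun q : ℕ => (q : ℝ) < z)).filter (fun q => q < p) =
      (P.filter (fun q : ℕ => (q : ℝ) < y)).filter (fun q => q < p) := by
    ext q
    simp only [Finset.mem_filter]
    constructor
    · rintro ⟨⟨h1, _⟩, h3⟩
      exact ⟨⟨h1, (Nat.cast_lt.2 h3).trans hpy⟩, h3⟩
    · rintro ⟨⟨h1, h2⟩, h3⟩
      exact ⟨⟨h1, h2.trans_le hyz⟩, h3⟩
  rw [e2]

end Pool.Agent.Lib.H59C
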