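import Pool.Agent.Lib.H59C.HH

/-!
# UVE: the functions of the linear sieve exist
-/

open Finset MeasureTheory

namespace Pool.Agent.Lib.H59C

open Filter Topology in
theorem UVE_int (C : ℝ) (f : ℝ → ℝ) (a s : ℝ) (hf : AntitoneOn f (Set.Ici a))
    (h0 : ∀ x, a ≤ x → 0 ≤ f x) (hb : ∀ x, a ≤ x → f x ≤ C * hh x) (hs : a + 1 ≤ s) :
    IntegrableOn (fun t => f (t - 1)) (Set.Ioi s) := by
  have hm : AEMeasurable (fun t => f (t - 1)) (volume.restrict (Set.Ioi s)) := by
    apply aemeasurable_restrict_of_antitoneOn measurableSet_Ioi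
    intro x hx y hy hxy
    rw [Set.mem_Ioi] at hx hy
    apply hf
    · rw [Set.mem_Ici]; linarith
    · rw [Set.mem_Ici]; linarith
    · linarith
  refine Integrable.mono' ((hh_integrable s).const_mul C) hm.aestronglyMeasurable ?_
  refine (ae_restrict_mem measurableSet_Ioi).mono fun t ht => ?_
  rw [Set.mem_Ioi] at ht
  rw [Real.norm_eq_abs, abs_of_nonneg (h0 _ (by linarith))]
  exact hb _ (by linarith)

/-- The properties of the approximations. -/
structure UVE_G (u v : ℝ → ℝ) : Prop where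
  u0 : ∀ s, 1 ≤ s → 0 ≤ u s
  v0 : ∀ s, 2 ≤ s → 0 ≤ v s
  uanti : AntitoneOn u (Set.Ici 1)
  vanti : AntitoneOn v (Set.Ici 2)
  ub : ∀ s, 1 ≤ s → u s ≤ 10000 * hh s
  vb : ∀ s, 2 ≤ s → v s ≤ 10000 * hh s

/-- new `u` from old `v` -/
noncomputable def UVE_U (v : ℝ → ℝ) (s : ℝ) : ℝ :=
  (max 0 (3 - s) + ∫ t in Set.Ioi (max s 3), v (t - 1)) / s

/-- new `v` from old `u` -/
noncomputable def UVE_V (u : ℝ → ℝ) (s : ℝ) : ℝ := (∫ t in Set.Ioi s, u (t - 1)) / s

theorem UVE_intu {u v : ℝ → ℝ} (h : UVE_G u v) (s : ℝ) (hs : 2 ≤ s) :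
    IntegrableOn (fun t => u (t - 1)) (Set.Ioi s) :=
  UVE_int 10000 u 1 s h.uanti h.u0 h.ub (by linarith)

theorem UVE_intv {u v : ℝ → ℝ} (h : UVE_G u v) (s : ℝ) (hs : 3 ≤ s) :
    IntegrableOn (fun t => v (t - 1)) (Set.Ioi s) :=
  UVE_int 10000 v 2 s h.vanti h.v0 h.vb (by linarith)

theorem UVE_nn (f : ℝ → ℝ) (s : ℝ) (h0 : ∀ x, s - 1 ≤ x → 0 ≤ f x) :
    0 ≤ ∫ t in Set.Ioi s, f (t - 1) := by
  apply setIntegral_nonneg measurableSet_Ioi
  intro t ht
  rw [Set.mem_Ioi] at ht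
  exact h0 _ (by linarith)

theorem UVE_anti (f : ℝ → ℝ) (s s' : ℝ) (hss : s ≤ s') (h0 : ∀ x, s - 1 ≤ x → 0 ≤ f x)
    (hi : IntegrableOn (fun t => f (t - 1)) (Set.Ioi s)) :
    ∫ t in Set.Ioi s', f (t - 1) ≤ ∫ t in Set.Ioi s, f (t - 1) := by
  apply setIntegral_mono_set hi
  · refine (ae_restrict_mem measurableSet_Ioi).mono fun t ht => ?_
    rw [Set.mem_Ioi] at ht
    exact h0 _ (by linarith)
  · exact (Set.Ioi_subset_Ioi hss).eventuallyLE

theorem UVE_up (f : ℝ → ℝ) (s C : ℝ) (hC : 0 ≤ C) (hi : IntegrableOn (fun t => f (t - 1)) (Set.Ioi s))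
    (hb : ∀ x, s - 1 ≤ x → f x ≤ C * hh x) :
    ∫ t in Set.Ioi s, f (t - 1) ≤ C * ∫ t in Set.Ioi s, hh (t - 1) := by
  rw [← integral_const_mul]
  apply setIntegral_mono_on hi ((hh_integrable s).const_mul C) measurableSet_Ioi
  intro t ht
  rw [Set.mem_Ioi] at ht
  exact hb _ (by linarith)

theorem UVE_e1 (s : ℝ) (h1 : 1 ≤ s) (h3 : s ≤ 3) : (3 - s) / s ≤ 1 / 50 * (10000 * hh s) := by
  have hs : 0 < s := by linarith
  rw [div_le_iff₀ hs]
  have e4 : Real.exp 4 ≤ 81 := by
    have h := Real.exp_one_lt_d9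
    have h2 : Real.exp 4 = Real.exp 1 ^ 4 := by
      rw [← Real.exp_nat_mul]
      norm_num
    rw [h2]
    have h5 : Real.exp 1 ≤ 3 := by linarith
    calc Real.exp 1 ^ 4 ≤ 3 ^ 4 := by
          apply pow_le_pow_left₀ (Real.exp_pos 1).le h5
      _ = 81 := by norm_num
  have hhs : 1 / 81 ≤ hh s := by
    unfold hh
    have h5 : Real.exp (-4) ≤ Real.exp (-(11 / 10) * max s 2) := by
      apply Real.exp_le_exp.mpr
      have : max s 2 ≤ 3 := max_le h3 (by norm_num)
      linarith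
    refine le_trans ?_ h5
    rw [Real.exp_neg, one_div]
    exact inv_anti₀ (Real.exp_pos 4) e4
  nlinarith

theorem UVE_step {u v : ℝ → ℝ} (h : UVE_G u v) : UVE_G (UVE_U v) (UVE_V u) := by
  have hv0 : ∀ s, 3 ≤ s → 0 ≤ ∫ t in Set.Ioi s, v (t - 1) := fun s hs =>
    UVE_nn v s (fun x hx => h.v0 x (by linarith))
  have hu0 : ∀ s, 2 ≤ s → 0 ≤ ∫ t in Set.Ioi s, u (t - 1) := fun s hs =>
    UVE_nn u s (fun x hx => h.u0 x (by linarith))
  refine ⟨?_, ?_, ?_, ?_, ?_, ?_⟩
  · intro s hs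
    unfold UVE_U
    have := hv0 (max s 3) (le_max_right _ _)
    have := le_max_left 0 (3 - s)
    positivity
  · intro s hs
    unfold UVE_V
    have := hu0 s hs
    positivity
  · intro s hs s' hs' hss
    rw [Set.mem_Ici] at hs hs'
    unfold UVE_U
    have h1 := hv0 (max s' 3) (le_max_right _ _)
    have h2 := le_max_left 0 (3 - s')
    have h3 : ∫ t in Set.Ioi (max s' 3), v (t - 1) ≤ ∫ t in Set.Ioi (max s 3), v (t - 1) := by
      apply UVE_anti v _ _ (max_le_max hss le_rfl)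
      · intro x hx
        exact h.v0 x (by linarith [le_max_right s 3])
      · exact UVE_intv h _ (le_max_right _ _)
    have h4 : max 0 (3 - s') ≤ max 0 (3 - s) := max_le_max le_rfl (by linarith)
    apply div_le_div₀ (by linarith) (by linarith) (by linarith) hss
  · intro s hs s' hs' hss
    rw [Set.mem_Ici] at hs hs'
    unfold UVE_V
    have h3 : ∫ t in Set.Ioi s', u (t - 1) ≤ ∫ t in Set.Ioi s, u (t - 1) := by
      apply UVE_anti u _ _ hss
      · intro x hx
        exact h.u0 x (by linarith)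
      · exact UVE_intu h _ hs
    apply div_le_div₀ (hu0 s hs) h3 (by linarith) hss
  · intro s hs
    have hs0 : 0 < s := by linarith
    unfold UVE_U
    rw [div_le_iff₀ hs0]
    rcases le_total s 3 with h3 | h3
    · rw [max_eq_right h3, max_eq_right (by linarith : (0 : ℝ) ≤ 3 - s)]
      have h1 := UVE_up v 3 10000 (by norm_num) (UVE_intv h 3 le_rfl)
        (fun x hx => h.vb x (by linarith))
      have h2 := hh_int3 s hs h3
      have h4 := UVE_e1 s hs h3
      rw [div_le_iff₀ hs0] at h4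
      nlinarith
    · rw [max_eq_left h3, max_eq_left (by linarith : 3 - s ≤ (0 : ℝ))]
      have h1 := UVE_up v s 10000 (by norm_num) (UVE_intv h s h3)
        (fun x hx => h.vb x (by linarith))
      have h2 := hh_int s (by linarith)
      have h4 := mul_pos hs0 (hh_pos s)
      nlinarith
  · intro s hs
    have hs0 : 0 < s := by linarith
    unfold UVE_V
    rw [div_le_iff₀ hs0]
    have h1 := UVE_up u s 10000 (by norm_num) (UVE_intu h s hs)
        (fun x hx => h.ub x (by linarith))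
    have h2 := hh_int s (by linarith)
    have h4 := mul_pos hs0 (hh_pos s)
    nlinarith

theorem UVE_mono {u v u' v' : ℝ → ℝ} (h : UVE_G u v) (h' : UVE_G u' v')
    (hu : ∀ s, 1 ≤ s → u s ≤ u' s) (hv : ∀ s, 2 ≤ s → v s ≤ v' s) :
    (∀ s, 1 ≤ s → UVE_U v s ≤ UVE_U v' s) ∧ (∀ s, 2 ≤ s → UVE_V u s ≤ UVE_V u' s) := by
  constructor
  · intro s hs
    unfold UVE_U
    have h1 : ∫ t in Set.Ioi (max s 3), v (t - 1) ≤ ∫ t in Set.Ioi (max s 3), v' (t - 1) := by
      apply setIntegral_mono_on (UVE_intv h _ (le_max_right _ _))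
        (UVE_intv h' _ (le_max_right _ _)) measurableSet_Ioi
      intro t ht
      rw [Set.mem_Ioi] at ht
      exact hv _ (by linarith [le_max_right s 3])
    gcongr
  · intro s hs
    unfold UVE_V
    have h1 : ∫ t in Set.Ioi s, u (t - 1) ≤ ∫ t in Set.Ioi s, u' (t - 1) := by
      apply setIntegral_mono_on (UVE_intu h _ hs)
        (UVE_intu h' _ hs) measurableSet_Ioi
      intro t ht
      rw [Set.mem_Ioi] at ht
      exact hu _ (by linarith)
    gcongr

/-- The approximations. -/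
noncomputable def UVE_seq : ℕ → (ℝ → ℝ) × (ℝ → ℝ)
  | 0 => (fun _ => 0, fun _ => 0)
  | k + 1 => (UVE_U (UVE_seq k).2, UVE_V (UVE_seq k).1)

theorem UVE_seq_G (k : ℕ) : UVE_G (UVE_seq k).1 (UVE_seq k).2 := by
  induction k with
  | zero =>
    refine ⟨?_, ?_, ?_, ?_, ?_, ?_⟩
    · intro s _; exact le_rfl
    · intro s _; exact le_rfl
    · intro s _ s' _ _; exact le_rfl
    · intro s _ s' _ _; exact le_rfl
    · intro s _
      have := hh_pos s
      change (0 : ℝ) ≤ _
      positivity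
    · intro s _
      have := hh_pos s
      change (0 : ℝ) ≤ _
      positivity
  | succ k ih => exact UVE_step ih

theorem UVE_seq_mono (k : ℕ) : (∀ s, 1 ≤ s → (UVE_seq k).1 s ≤ (UVE_seq (k + 1)).1 s) ∧
    (∀ s, 2 ≤ s → (UVE_seq k).2 s ≤ (UVE_seq (k + 1)).2 s) := by
  induction k with
  | zero => exact ⟨fun s hs => (UVE_seq_G 1).u0 s hs, fun s hs => (UVE_seq_G 1).v0 s hs⟩
  | succ k ih => exact UVE_mono (UVE_seq_G k) (UVE_seq_G (k + 1)) ih.1 ih.2

open Filter Topology in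
/-- Existence of `u = F - 1`, `v = 1 - f`.

Proof. Iterate: `u_0 = v_0 = 0`, `v_{k+1}(s) = s⁻¹ ∫_{t > s} u_k(t - 1) dt` (`s ≥ 2`),
`u_{k+1}(s) = s⁻¹ (max 0 (3 - s) + ∫_{t > max s 3} v_k(t - 1) dt)` (`s ≥ 1`). By induction both are
nonnegative, nonincreasing (a nonnegative nonincreasing numerator times `1/s`), increasing in `k`, and
bounded by `C hh` with `C = 1000`: by `hh_int` (`s ≥ 2`, resp. `s ≥ 3`) and `hh_int3` the integral terms are at most
`(49/50) C hh s`, and `(3 - s)/s ≤ (1/50) C hh s` on `[1, 3]` (`2 ≤ 20 e^(-2.2)` on `[1,2]`,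
`1/2 ≤ 20 e^(-3.3)` on `[2, 3]`). Put `u = sup u_k`, `v = sup v_k` (limits); dominated (or monotone)
convergence gives the equations: `eqv`; for `s ≥ 3` `equ`; for `1 ≤ s ≤ 3`
`s u(s) = 3 - s + ∫_{t>3} v(t-1) dt = 3 - s + 3 u(3)`, i.e. `equ'`. -/
theorem exists_uv : ∃ (C : ℝ) (u v : ℝ → ℝ), 0 < C ∧ UV C u v := by
  have hG := UVE_seq_G
  have limu : ∀ s, 1 ≤ s → Tendsto (fun k => (UVE_seq k).1 s) atTop
      (𝓝 (⨆ k, (UVE_seq k).1 s)) := by
    intro s hs
    apply tendsto_atTop_ciSup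
    · exact monotone_nat_of_le_succ fun k => (UVE_seq_mono k).1 s hs
    · refine ⟨10000 * hh s, ?_⟩
      rintro _ ⟨k, rfl⟩
      exact (hG k).ub s hs
  have limv : ∀ s, 2 ≤ s → Tendsto (fun k => (UVE_seq k).2 s) atTop
      (𝓝 (⨆ k, (UVE_seq k).2 s)) := by
    intro s hs
    apply tendsto_atTop_ciSup
    · exact monotone_nat_of_le_succ fun k => (UVE_seq_mono k).2 s hs
    · refine ⟨10000 * hh s, ?_⟩
      rintro _ ⟨k, rfl⟩
      exact (hG k).vb s hs
  set u : ℝ → ℝ := fun s => ⨆ k, (UVE_seq k).1 s with hu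
  set v : ℝ → ℝ := fun s => ⨆ k, (UVE_seq k).2 s with hv
  have limu' : ∀ s, 1 ≤ s → Tendsto (fun k => (UVE_seq k).1 s) atTop (𝓝 (u s)) := limu
  have limv' : ∀ s, 2 ≤ s → Tendsto (fun k => (UVE_seq k).2 s) atTop (𝓝 (v s)) := limv
  have hint_u : ∀ s, 2 ≤ s → Tendsto (fun k => ∫ t in Set.Ioi s, (UVE_seq k).1 (t - 1)) atTop
      (𝓝 (∫ t in Set.Ioi s, u (t - 1))) := by
    intro s hs
    apply tendsto_integral_of_dominated_convergence (fun t => 10000 * hh (t - 1))
    · intro k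
      exact (UVE_intu (hG k) s hs).aestronglyMeasurable
    · exact (hh_integrable s).const_mul 10000
    · intro k
      refine (ae_restrict_mem measurableSet_Ioi).mono fun t ht => ?_
      rw [Set.mem_Ioi] at ht
      rw [Real.norm_eq_abs, abs_of_nonneg ((hG k).u0 _ (by linarith))]
      exact (hG k).ub _ (by linarith)
    · refine (ae_restrict_mem measurableSet_Ioi).mono fun t ht => ?_
      rw [Set.mem_Ioi] at ht
      exact limu' _ (by linarith)
  have hint_v : ∀ s, 3 ≤ s → Tendsto (fun k => ∫ t in Set.Ioi s, (UVE_seq k).2 (t - 1)) atTop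
      (𝓝 (∫ t in Set.Ioi s, v (t - 1))) := by
    intro s hs
    apply tendsto_integral_of_dominated_convergence (fun t => 10000 * hh (t - 1))
    · intro k
      exact (UVE_intv (hG k) s hs).aestronglyMeasurable
    · exact (hh_integrable s).const_mul 10000
    · intro k
      refine (ae_restrict_mem measurableSet_Ioi).mono fun t ht => ?_
      rw [Set.mem_Ioi] at ht
      rw [Real.norm_eq_abs, abs_of_nonneg ((hG k).v0 _ (by linarith))]
      exact (hG k).vb _ (by linarith)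
    · refine (ae_restrict_mem measurableSet_Ioi).mono fun t ht => ?_
      rw [Set.mem_Ioi] at ht
      exact limv' _ (by linarith)
  have equ3 : ∀ s, 3 ≤ s → s * u s = ∫ t in Set.Ioi s, v (t - 1) := by
    intro s hs
    have h1 : Tendsto (fun k => s * (UVE_seq (k + 1)).1 s) atTop (𝓝 (s * u s)) :=
      ((limu' s (by linarith)).comp (tendsto_add_atTop_nat 1)).const_mul s
    have h2 : (fun k => s * (UVE_seq (k + 1)).1 s) =
        fun k => ∫ t in Set.Ioi s, (UVE_seq k).2 (t - 1) := by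
      funext k
      change s * UVE_U (UVE_seq k).2 s = _
      unfold UVE_U
      rw [max_eq_left (by linarith : 3 - s ≤ (0 : ℝ)), max_eq_left hs, zero_add]
      field_simp
    rw [h2] at h1
    exact tendsto_nhds_unique h1 (hint_v s hs)
  refine ⟨10000, u, v, by norm_num, ?_⟩
  refine ⟨?_, ?_, ?_, ?_, ?_, ?_, ?_, equ3, ?_⟩
  · intro s hs
    exact ge_of_tendsto' (limu' s hs) fun k => (hG k).u0 s hs
  · intro s hs
    exact ge_of_tendsto' (limv' s hs) fun k => (hG k).v0 s hs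
  · intro s hs s' hs' hss
    exact le_of_tendsto_of_tendsto' (limu' s' hs') (limu' s hs) fun k => (hG k).uanti hs hs' hss
  · intro s hs s' hs' hss
    exact le_of_tendsto_of_tendsto' (limv' s' hs') (limv' s hs) fun k => (hG k).vanti hs hs' hss
  · intro s hs
    exact le_of_tendsto' (limu' s hs) fun k => (hG k).ub s hs
  · intro s hs
    exact le_of_tendsto' (limv' s hs) fun k => (hG k).vb s hs
  · intro s hs
    have h1 : Tendsto (fun k => s * (UVE_seq (k + 1)).2 s) atTop (𝓝 (s * v s)) :=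
      ((limv' s (by linarith)).comp (tendsto_add_atTop_nat 1)).const_mul s
    have h2 : (fun k => s * (UVE_seq (k + 1)).2 s) =
        fun k => ∫ t in Set.Ioi s, (UVE_seq k).1 (t - 1) := by
      funext k
      change s * UVE_V (UVE_seq k).1 s = _
      unfold UVE_V
      have : s ≠ 0 := by linarith
      field_simp
    rw [h2] at h1
    exact tendsto_nhds_unique h1 (hint_u s hs)
  · intro s hs h3
    have h1 : Tendsto (fun k => s * (UVE_seq (k + 1)).1 s) atTop (𝓝 (s * u s)) :=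
      ((limu' s (by linarith)).comp (tendsto_add_atTop_nat 1)).const_mul s
    have h2 : (fun k => s * (UVE_seq (k + 1)).1 s) =
        fun k => (3 - s) + ∫ t in Set.Ioi (3 : ℝ), (UVE_seq k).2 (t - 1) := by
      funext k
      change s * UVE_U (UVE_seq k).2 s = _
      unfold UVE_U
      rw [max_eq_right (by linarith : (0 : ℝ) ≤ 3 - s), max_eq_right h3]
      have : s ≠ 0 := by linarith
      field_simp
    rw [h2] at h1
    have h4 := tendsto_nhds_unique h1 ((hint_v 3 le_rfl).const_add (3 - s))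
    rw [← equ3 3 le_rfl] at h4
    linarith

end Pool.Agent.Lib.H59C
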